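import Pool.Agent.Lib.MP_af3a4a_an.P1.CHK.SWP.Pay
import Pool.Agent.Lib.MP_af3a4a_an.P1.CHK.DATA.N4s.C0
import Pool.Agent.Lib.MP_af3a4a_an.P1.CHK.DATA.N4s.Z0
import Pool.Agent.Lib.MP_af3a4a_an.P1.CHK.DATA.N4s.Z1
import Pool.Agent.Lib.MP_af3a4a_an.P1.CHK.DATA.F4.W480a
import Pool.Agent.Lib.MP_af3a4a_an.P1.CHK.DATA.F4.W480b
import Pool.Agent.Lib.MP_af3a4a_an.P1.CHK.DATA.F4.W528a
import Pool.Agent.Lib.MP_af3a4a_an.P1.CHK.DATA.F4.W576a
import Pool.Agent.Lib.MP_af3a4a_an.P1.CHK.DATA.F4.W624a
import Pool.Agent.Lib.MP_af3a4a_an.P1.CHK.DATA.F4.W672a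
import Pool.Agent.Lib.MP_af3a4a_an.P1.CHK.DATA.F4.W720a
import Pool.Agent.Lib.MP_af3a4a_an.P1.CHK.DATA.F4.W720b

/-! chunks for N = 4 (generated) -/

set_option autoImplicit false
set_option maxRecDepth 100000

namespace Pool.Agent.Lib.MP_af3a4a_an.P1.CHK.DATA.N4s

open BOX SWP

def t6 : Tree := (.sg 48 (.sR 2304 (.sR 2112 (.sR 2016 (.sr 1280 (.leaf 0x5000000220001280000000ac001007) (.sg 40 (.leaf 0x4003c04000240021080000000a0401004) (.leaf 0x44000002200311000000009c001007))) (.leaf 0x3b0480001428000130e809b86653b1005)) (.sR 2208 (.leaf 0x3a058000182800115170024ca513a1005) (.leaf 0x410600001c280021617c001727a411005))) (.sR 2496 (.sR 2400 (.leaf 0x3c06400020280031692c022b67a3c1005) (.leaf 0x3c0680002428004170fc048d27a3c1005)) (.sR 2592 (.leaf 0x6800028280051700000000a0001008) (.sr 1280 (.sR 2784 (.sR 2688 (.leaf 0x740000c28006188000000098001008) (.leaf 0x3808000004280071a1100cd6a7a381005)) (.sR 2880 (.leaf 0x8400030280081a8000000080001008) (.sR 2976 (.leaf 0x8400034280091a8000000084001008) (.leaf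 0x90000082800a1c000000009c001008)))) (.sR 2688 (.leaf 0x700000c2800b180000000094001008) (.sg 40 (.sR 2784 (.sr 1408 (.leaf 0x74000042800d188000000090001008) (.leaf 0x78000042800e190000000098001008)) (.sR 2880 (.leaf 0x7c0002c2800c19800000009c001008) (.sr 1408 (.sR 2976 (.leaf 0x90000102800f1c0000000038001008) (.leaf 0x9800008280101d000000005c001008)) (.sR 2976 (.leaf 0x8000010280111a000000009c001008) (.leaf 0x8c00008280121b8000000098001008))))) (.sR 2880 (.sR 2784 (.leaf 0x3808000004280131a1100cd6a7a381005) (.leaf 0x880002c280141b0000000040001008)) (.sR 2976 (.leaf 0x9000010280151c000000004c001008) (.leaf 0x9000008280161c0000000098001008))))))))) (.sR 2496 (.sR 2208 (.sR 2016 (.sr 1280 (.leaf 0x3e058000002200113948044f87a3e1000) (.leaf 0x4800000220041180000000a4001007)) (.sR 2112 (.leaf 0x3805000014280171416002f7a3d381005) (.leaf 0x400600001828018168d4c33ac51401005))) (.sR 2304 (.leaf 0x3c06c0001c28019178d0ce85e513c1005) (.sR 2400 (.leaf 0x38068000202801a1717c0859b51381005) (.leaf 0x38074000242801b1891c3e8e765381005))))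 (.sR 2784 (.sR 2592 (.leaf 0x38078000282801c191600c53b7a381005) (.sR 2688 (.leaf 0x380800000c2801d1a154107867a381005) (.leaf 0x38080000042801e1a1100cd6a7a381005))) (.sR 2880 (.leaf 0x80000302801f1a0000000078001008) (.sR 2976 (.leaf 0x8000034280201a00000000a0001008) (.sr 1280 (.leaf 0x9800038280211d0000000034001008) (.leaf 0x8800038280221b0000000098001008)))))))
theorem k6 : ChunkP 4 4 1024 1536 32 64 1920 3072 :=
  chkY_sound (Q := 40) (C := [c18.c, c19.c, c26.c, c27.c, c28.c]) (Z := [z237, z238, z239, z240, z241, z242, z243, z244, z245, z246, z247, z248, z249, z250, z251, z252, z253, z254, z255, z256, z257, z258, z259, z260, z261, z262, z263, z264, z265, z266, z267, z268, z269, z270, z271])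
    (T := [f_w480_504_0_5_0q, f_w672_696_0_5_0q, f_w744_768_0_30_0q, f_w648_672_0_5_0q, f_w720_744_0_30_0q, f_w504_528_0_5_0q, f_w528_552_0_5_0q, f_w552_576_0_5_0q, f_w576_600_0_5_0q, f_w600_624_0_5_0q, f_w624_648_0_5_0q, f_w696_720_0_30_0q, f_w696_720_0_5_0q, f_w720_744_0_5_0q, f_w744_768_0_5_0q]) (t := t6)
    (all_cons p18 (all_cons p19 (all_cons p26 (all_cons p27 (all_cons p28 all_nil)))))
    (all_cons z237P (all_cons z238P (all_cons z239P (all_cons z240P (all_cons z241P (all_cons z242P (all_cons z243P (all_cons z244P (all_cons z245P (all_cons z246P (all_cons z247P (all_cons z248P (all_cons z249P (all_cons z250P (all_cons z251P (all_cons z252P (all_cons z253P (all_cons z254P (all_cons z255P (all_cons z256P (all_cons z257P (all_cons z258P (all_cons z259P (all_cons z260P (all_cons z261P (all_cons z262P (all_cons z263P (all_cons z264P (all_cons z265P (all_cons z266P (all_cons z267P (all_cons z268P (all_cons z269P (all_cons z270P (all_cons z271P all_nil)))))))))))))))))))))))))))))))))))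
    (all_cons f_w480_504_0_5_0q_p (all_cons f_w672_696_0_5_0q_p (all_cons f_w744_768_0_30_0q_p (all_cons f_w648_672_0_5_0q_p (all_cons f_w720_744_0_30_0q_p (all_cons f_w504_528_0_5_0q_p (all_cons f_w528_552_0_5_0q_p (all_cons f_w552_576_0_5_0q_p (all_cons f_w576_600_0_5_0q_p (all_cons f_w600_624_0_5_0q_p (all_cons f_w624_648_0_5_0q_p (all_cons f_w696_720_0_30_0q_p (all_cons f_w696_720_0_5_0q_p (all_cons f_w720_744_0_5_0q_p (all_cons f_w744_768_0_5_0q_p all_nil)))))))))))))))
    (by decide +kernel)
def t7 : Tree := (.sg 96 (.sg 80 (.sR 2496 (.sR 2208 (.sR 2016 (.leaf 0x40058000002200013948000027a401000) (.sR 2112 (.leaf 0x3805c0000428000158d88c06e28381005) (.leaf 0x380600000828001168d4acbd03d381005))) (.sR 2304 (.leaf 0x3806c0000c28002178d0cb64951381005) (.sR 2400 (.leaf 0x380740001028003188cce97e365381005) (.leaf 0x3807c0001428004198c9080797a381005)))) (.sR 2784 (.sR 2592 (.leaf 0x3807c00018280051a0e8a350a7a381005) (.sR 2688 (.leaf 0x380800001c280061a154107867a381005) (.leaf 0x3808000020280071a1100cd6a7a381005)))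 (.sR 2880 (.leaf 0x8800024280081b000000003c001008) (.sR 2976 (.leaf 0x9000028280091c0000000038001008) (.leaf 0x980002c2800a1d0000000034001008))))) (.sR 2304 (.sR 2112 (.sR 2016 (.leaf 0x380600000022001148dc839e828381000) (.leaf 0x3805c000042800b158d88c06e28381005)) (.sR 2208 (.leaf 0x38060000082800c168d4acbd03d381005) (.leaf 0x3806c0000c2800d178d0cb64951381005))) (.sR 2496 (.sR 2400 (.leaf 0x38074000102800e188cce97e365381005) (.leaf 0x3807c000142800f198c9080797a381005)) (.sR 2592 (.leaf 0x3807c00018280101a0e8a350a7a381005) (.leaf 3))))) (.leaf 3))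
theorem k7 : ChunkP 4 4 1024 1536 64 101 1920 3072 :=
  chkY_sound (Q := 40) (C := [c20.c, c21.c]) (Z := [z272, z273, z274, z275, z276, z277, z278, z279, z280, z281, z282, z283, z284, z285, z286, z287, z288])
    (T := [f_w480_504_0_5_0q, f_w504_528_0_5_0q, f_w528_552_0_5_0q, f_w552_576_0_5_0q, f_w576_600_0_5_0q, f_w600_624_0_5_0q, f_w624_648_0_5_0q, f_w648_672_0_5_0q, f_w672_696_0_5_0q, f_w696_720_0_5_0q, f_w720_744_0_5_0q, f_w744_768_0_5_0q]) (t := t7)
    (all_cons p20 (all_cons p21 all_nil))
    (all_cons z272P (all_cons z273P (all_cons z274P (all_cons z275P (all_cons z276P (all_cons z277P (all_cons z278P (all_cons z279P (all_cons z280P (all_cons z281P (all_cons z282P (all_cons z283P (all_cons z284P (all_cons z285P (all_cons z286P (all_cons z287P (all_cons z288P all_nil)))))))))))))))))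
    (all_cons f_w480_504_0_5_0q_p (all_cons f_w504_528_0_5_0q_p (all_cons f_w528_552_0_5_0q_p (all_cons f_w552_576_0_5_0q_p (all_cons f_w576_600_0_5_0q_p (all_cons f_w600_624_0_5_0q_p (all_cons f_w624_648_0_5_0q_p (all_cons f_w648_672_0_5_0q_p (all_cons f_w672_696_0_5_0q_p (all_cons f_w696_720_0_5_0q_p (all_cons f_w720_744_0_5_0q_p (all_cons f_w744_768_0_5_0q_p all_nil))))))))))))
    (by decide +kernel)
def t8 : Tree := (.sg 8 (.sR 2016 (.sr 1664 (.leaf 0x4003808008260001080000000a4401004) (.leaf 0x4808000260021280000000ac001007)) (.leaf 0x3c000042800011800000009c001008)) (.sR 2016 (.leaf 0x4003c04000240011080000000b0401004) (.leaf 0x3c000042800111800000009c001008)))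
theorem k8 : ChunkP 4 4 1536 1792 0 16 1920 2112 :=
  chkY_sound (Q := 40) (C := [c29.c, c34.c, c38.c]) (Z := [z290, z291])
    (T := [f_w480_504_0_40_0q, f_w504_528_0_5_0q, f_w480_504_0_5_0q]) (t := t8)
    (all_cons p29 (all_cons p34 (all_cons p38 all_nil)))
    (all_cons z290P (all_cons z291P all_nil))
    (all_cons f_w480_504_0_40_0q_p (all_cons f_w504_528_0_5_0q_p (all_cons f_w480_504_0_5_0q_p all_nil)))
    (by decide +kernel)
def t9 : Tree := (.leaf 0x4400000280001280000000a0001008)
theorem k9 : ChunkP 4 4 1536 1792 0 16 2112 2208 :=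
  chkY_sound (Q := 40) (C := []) (Z := [z289])
    (T := [f_w528_552_0_5_0q]) (t := t9)
    all_nil
    (all_cons z289P all_nil)
    (all_cons f_w528_552_0_5_0q_p all_nil)
    (by decide +kernel)
def t10 : Tree := (.sr 1664 (.sR 2592 (.sR 2400 (.sR 2304 (.leaf 0x4c00010280051380000000a0001008) (.leaf 0x580002428006150000000090001008)) (.sR 2496 (.leaf 0x5c0002c280071580000000a8001008) (.leaf 0x6000014280011600000000a4001008))) (.sR 2784 (.sR 2688 (.leaf 0x3808000018280081a154107867a381005) (.leaf 0x800001c280091a0000000090001008)) (.sR 2880 (.leaf 0x7c0000c2800a1980000000a0001008) (.sg 4 (.sr 1600 (.sR 2976 (.leaf 0x8c000082800b1b8000000098001008) (.sR 3024 (.leaf 0x8800000280001b0000000098001008) (.leaf 0x9c000042800c1d800000008c001008))) (.sR 2976 (.leaf 0x88000082800d1b0000000098001008) (.sR 3024 (.leaf 0x9800000280001d0000000088001008) (.leaf 0x8c00004280001b8000000098001008)))) (.sr 1600 (.sR 2976 (.leaf 0x84000082800e1a8000000098001008) (.sR 3024 (.leaf 0x9800000280021d0000000070001008) (.leaf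 0x9800004280021d0000000098001008))) (.sR 2976 (.leaf 0x80000082800f1a000000009c001008) (.sR 3024 (.leaf 0x9000000280101c0000000094001008) (.leaf 0x9400004280111c8000000094001008)))))))) (.sR 2496 (.sR 2304 (.leaf 0x4c00010280121380000000a4001008) (.sR 2400 (.leaf 0x600002028013160000000084001008) (.leaf 0x680002828014170000000098001008))) (.sR 2688 (.sR 2592 (.leaf 0x6800014280011700000000a4001008) (.leaf 0x6c00018280151780000000a0001008)) (.sR 2784 (.leaf 0x780001c280161900000000a0001008) (.sg 4 (.sr 1728 (.sR 2880 (.leaf 0x78000302801719000000009c001008) (.sR 2976 (.leaf 0x8400008280181a8000000098001008) (.sR 3024 (.leaf 0x9800000280031d0000000090001008) (.leaf 0x9000004280031c000000009c001008)))) (.sR 2880 (.leaf 0x7c0000c2801919800000009c001008) (.sR 2976 (.leaf 0x84000082801a1a800000009c001008) (.sR 3024 (.leaf 0x88000002801b1b000000009c001008) (.leaf 0x90000042801c1c000000009c001008))))) (.sr 1728 (.sR 2880 (.leaf 0x880000c2801d1b0000000080001008) (.sR 2976 (.leaf 0x80000082801e1a00000000a0001008)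 (.sR 3024 (.leaf 0x90000002801f1c0000000090001008) (.leaf 0x9c00004280201d8000000098001008)))) (.sR 2880 (.leaf 0x800000c280211a0000000098001008) (.sR 2976 (.sR 2928 (.leaf 0x9000034280041c0000000098001008) (.leaf 0x8400038280041a8000000098001008)) (.sR 3024 (.leaf 0x9000000280221c0000000098001008) (.leaf 0x8c00004280231b800000009c001008))))))))))
theorem k10 : ChunkP 4 4 1536 1792 0 8 2208 3072 :=
  chkY_sound (Q := 40) (C := []) (Z := [z300, z295, z304, z315, z325, z292, z293, z294, z296, z297, z298, z299, z301, z302, z303, z305, z306, z307, z308, z309, z310, z311, z312, z313, z314, z316, z317, z318, z319, z320, z321, z322, z323, z324, z326, z327])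
    (T := [f_w744_756_0_40_0q, f_w756_768_0_40_0q, f_w720_744_0_40_0q, f_w696_720_0_40_0q, f_w552_576_0_5_0q, f_w624_648_0_40_0q, f_w648_672_0_40_0q, f_w672_696_0_40_0q, f_w576_600_0_40_0q, f_w576_600_0_5_0q, f_w600_624_0_40_0q, f_w600_624_0_5_0q, f_w696_720_0_30_0q, f_w720_732_0_40_0q, f_w732_744_0_40_0q]) (t := t10)
    all_nil
    (all_cons z300P (all_cons z295P (all_cons z304P (all_cons z315P (all_cons z325P (all_cons z292P (all_cons z293P (all_cons z294P (all_cons z296P (all_cons z297P (all_cons z298P (all_cons z299P (all_cons z301P (all_cons z302P (all_cons z303P (all_cons z305P (all_cons z306P (all_cons z307P (all_cons z308P (all_cons z309P (all_cons z310P (all_cons z311P (all_cons z312P (all_cons z313P (all_cons z314P (all_cons z316P (all_cons z317P (all_cons z318P (all_cons z319P (all_cons z320P (all_cons z321P (all_cons z322P (all_cons z323P (all_cons z324P (all_cons z326P (all_cons z327P all_nil))))))))))))))))))))))))))))))))))))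
    (all_cons f_w744_756_0_40_0q_p (all_cons f_w756_768_0_40_0q_p (all_cons f_w720_744_0_40_0q_p (all_cons f_w696_720_0_40_0q_p (all_cons f_w552_576_0_5_0q_p (all_cons f_w624_648_0_40_0q_p (all_cons f_w648_672_0_40_0q_p (all_cons f_w672_696_0_40_0q_p (all_cons f_w576_600_0_40_0q_p (all_cons f_w576_600_0_5_0q_p (all_cons f_w600_624_0_40_0q_p (all_cons f_w600_624_0_5_0q_p (all_cons f_w696_720_0_30_0q_p (all_cons f_w720_732_0_40_0q_p (all_cons f_w732_744_0_40_0q_p all_nil)))))))))))))))
    (by decide +kernel)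
def t11 : Tree := (.sR 2400 (.sR 2304 (.sr 1664 (.leaf 0x4c000182800913800000009c001008) (.leaf 0x4c000182800a1380000000a0001008)) (.leaf 0x60000202800616000000009c001008)) (.sR 2496 (.leaf 0x5c00024280071580000000a0001008) (.sR 2592 (.leaf 0x6000028280081600000000a4001008) (.sr 1664 (.sR 2688 (.leaf 0x3f0800001c2800b1a15400a3b7a3f1005) (.sR 2784 (.leaf 0x74000142800c18800000009c001008) (.sg 12 (.sR 2880 (.leaf 0x7c000102800d1980000000a0001008) (.sr 1600 (.sR 2976 (.leaf 0x800002c2800e1a000000009c001008) (.sR 3024 (.leaf 0x9800004280011d000000007c001008) (.leaf 0x9000000280011c000000009c001008))) (.sR 2976 (.sR 2928 (.leaf 0x8c00008280021b8000000094001008) (.leaf 0x900000c2800f1c000000009c001008)) (.sR 3024 (.leaf 0x9000004280101c0000000098001008) (.leaf 0x9000000280111c000000009c001008))))) (.sR 2880 (.leaf 0x7800010280121900000000a0001008) (.sr 1600 (.sR 2976 (.sR 2928 (.leaf 0x8800008280031b000000009c001008) (.leaf 0x940000c280131c8000000080001008)) (.sR 3024 (.leaf 0x9800004280041d0000000080001008)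 (.leaf 0x8800000280041b000000009c001008))) (.sR 2976 (.sR 2928 (.leaf 0x8800008280021b000000009c001008) (.leaf 0x880000c280031b0000000098001008)) (.sR 3024 (.leaf 0x8800004280141b0000000098001008) (.leaf 0x8800000280151b000000009c001008)))))))) (.sR 2688 (.leaf 0x6c0001c2801617800000009c001008) (.sg 12 (.sR 2784 (.leaf 0x7800014280171900000000a0001008) (.sr 1728 (.sR 2880 (.leaf 0x8800010280181b0000000088001008) (.sR 2976 (.sR 2928 (.leaf 0x8000008280001a000000009c001008) (.leaf 0x940000c280191c800000008c001008)) (.sR 3024 (.leaf 0x8c000042801a1b800000009c001008) (.leaf 0x94000002801b1c8000000094001008)))) (.sR 2880 (.leaf 0x7c000102801c19800000009c001008) (.sR 2976 (.sR 2928 (.leaf 0x9000008280001c000000009c001008) (.leaf 0x840000c280001a800000009c001008)) (.sR 3024 (.leaf 0x84000042801d1a8000000098001008) (.sg 10 (.leaf 0x90000002801e1c000000009c001008) (.leaf 0x8c000002801f1b8000000098001008))))))) (.sR 2784 (.leaf 0x7400014280201880000000a0001008) (.sr 1728 (.sR 2880 (.leaf 0x8800010280211b0000000090001008)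 (.sR 2976 (.sR 2928 (.leaf 0x7c00008280051980000000a0001008) (.leaf 0x900000c280221c0000000090001008)) (.sR 3024 (.leaf 0x8c00004280231b8000000098001008) (.leaf 0x9000000280241c000000009c001008)))) (.sR 2880 (.leaf 0x7800010280251900000000a0001008) (.sR 2976 (.sR 2928 (.leaf 0x8c00008280051b800000009c001008) (.leaf 0x900000c280261c000000009c001008)) (.sR 3024 (.leaf 0x8800004280271b000000009c001008) (.leaf 0x8c00000280281b8000000098001008))))))))))))
theorem k11 : ChunkP 4 4 1536 1792 8 16 2208 3072 :=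
  chkY_sound (Q := 40) (C := []) (Z := [z349, z335, z336, z341, z343, z359, z309, z310, z328, z329, z330, z331, z332, z333, z334, z337, z338, z339, z340, z342, z344, z345, z346, z347, z348, z350, z351, z352, z353, z354, z355, z356, z357, z358, z360, z361, z362, z363, z364, z365, z366])
    (T := [f_w756_768_0_40_0q, f_w744_756_0_40_0q, f_w720_732_0_40_0q, f_w732_744_0_40_0q, f_w696_720_0_40_0q, f_w672_696_0_40_0q, f_w552_576_0_5_0q, f_w648_672_0_40_0q, f_w576_600_0_40_0q, f_w600_624_0_40_0q, f_w624_648_0_40_0q, f_w720_744_0_40_0q]) (t := t11)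
    all_nil
    (all_cons z349P (all_cons z335P (all_cons z336P (all_cons z341P (all_cons z343P (all_cons z359P (all_cons z309P (all_cons z310P (all_cons z328P (all_cons z329P (all_cons z330P (all_cons z331P (all_cons z332P (all_cons z333P (all_cons z334P (all_cons z337P (all_cons z338P (all_cons z339P (all_cons z340P (all_cons z342P (all_cons z344P (all_cons z345P (all_cons z346P (all_cons z347P (all_cons z348P (all_cons z350P (all_cons z351P (all_cons z352P (all_cons z353P (all_cons z354P (all_cons z355P (all_cons z356P (all_cons z357P (all_cons z358P (all_cons z360P (all_cons z361P (all_cons z362P (all_cons z363P (all_cons z364P (all_cons z365P (all_cons z366P all_nil)))))))))))))))))))))))))))))))))))))))))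
    (all_cons f_w756_768_0_40_0q_p (all_cons f_w744_756_0_40_0q_p (all_cons f_w720_732_0_40_0q_p (all_cons f_w732_744_0_40_0q_p (all_cons f_w696_720_0_40_0q_p (all_cons f_w672_696_0_40_0q_p (all_cons f_w552_576_0_5_0q_p (all_cons f_w648_672_0_40_0q_p (all_cons f_w576_600_0_40_0q_p (all_cons f_w600_624_0_40_0q_p (all_cons f_w624_648_0_40_0q_p (all_cons f_w720_744_0_40_0q_p all_nil))))))))))))
    (by decide +kernel)

end Pool.Agent.Lib.MP_af3a4a_an.P1.CHK.DATA.N4s
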