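import Pool.Agent.Lib.MP_af3a4a_an.P1.CHK.SWP.Pay
import Pool.Agent.Lib.MP_af3a4a_an.P1.CHK.DATA.N4s.C0
import Pool.Agent.Lib.MP_af3a4a_an.P1.CHK.DATA.N4s.Z6
import Pool.Agent.Lib.MP_af3a4a_an.P1.CHK.DATA.N4s.Z7
import Pool.Agent.Lib.MP_af3a4a_an.P1.CHK.DATA.F4.W480a
import Pool.Agent.Lib.MP_af3a4a_an.P1.CHK.DATA.F4.W480b
import Pool.Agent.Lib.MP_af3a4a_an.P1.CHK.DATA.F4.W528a
import Pool.Agent.Lib.MP_af3a4a_an.P1.CHK.DATA.F4.W528b
import Pool.Agent.Lib.MP_af3a4a_an.P1.CHK.DATA.F4.W576a
import Pool.Agent.Lib.MP_af3a4a_an.P1.CHK.DATA.F4.W624a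
import Pool.Agent.Lib.MP_af3a4a_an.P1.CHK.DATA.F4.W672a
import Pool.Agent.Lib.MP_af3a4a_an.P1.CHK.DATA.F4.W672b
import Pool.Agent.Lib.MP_af3a4a_an.P1.CHK.DATA.F4.W720a

/-! chunks for N = 4 (generated) -/

set_option autoImplicit false
set_option maxRecDepth 100000

namespace Pool.Agent.Lib.MP_af3a4a_an.P1.CHK.DATA.N4s

open BOX SWP

def t60 : Tree := (.sr 2432 (.sR 2112 (.sR 2016 (.sg 42 (.sR 1968 (.sr 2368 (.leaf 0x45c3804000240001000000000a844d044) (.leaf 0x45c3c00000220021000000000b044d044)) (.leaf 0x44048000042800813154013bc7a441005)) (.sR 1968 (.sr 2368 (.leaf 0x45c3c00000220011000000000a844d044) (.leaf 0x45c3c00000220031000000000ac44d044)) (.leaf 0x3f048000042800913154001417a3f1005))) (.leaf 0x4000008280051200000000a0001008)) (.sR 2208 (.leaf 0x480000c280061300000000a8001008) (.sR 2304 (.leaf 0x4c00018280071380000000a4001008) (.sg 42 (.sR 2496 (.sR 2400 (.leaf 0x540001c2800a1480000000a0001008) (.leaf 0x5c000102800b1580000000a4001008)) (.sR 2592 (.leaf 0x60000142800c1600000000a4001008)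 (.sR 2688 (.leaf 0x6c000202800d1780000000a4001008) (.sR 2832 (.sR 2736 (.leaf 0x7c00024280001980000000a0001008) (.sR 2784 (.leaf 0x700002c280001800000000a0001008) (.leaf 0x8400030280011a8000000094001008))) (.sR 2880 (.leaf 0x78000642800119000000009c001008) (.sR 2928 (.leaf 0x7c00034280021980000000a0001008) (.leaf 0x8c00068280021c000000009c001008))))))) (.sR 2592 (.sR 2400 (.leaf 0x600001c2800e160000000088001008) (.sR 2496 (.leaf 0x64000102800f1680000000a4001008) (.leaf 0x6c00014280101780000000a4001008))) (.sR 2784 (.sR 2688 (.leaf 0x740002028011188000000098001008) (.leaf 0x7000028280121800000000a0001008)) (.sR 2880 (.leaf 0x8800060280131b000000009c001008) (.sR 2928 (.leaf 0x8800034280141b0000000094001008) (.leaf 3))))))))) (.sR 2880 (.sg 42 (.sR 2208 (.sR 2016 (.sR 1968 (.sr 2496 (.sg 41 (.leaf 0x45c3804000240041000000000ac44d044) (.leaf 0x45c3c00000220051000000000a844d044)) (.sg 41 (.sr 2528 (.leaf 0x45c3804000240081000000000a844d044) (.leaf 0x45c38040002400c1000000000a844d044)) (.sr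 2528 (.leaf 0x45c3c00000220091000000000a844d044) (.leaf 0x45c3c000002200d1000000000a844d044)))) (.leaf 0x4000004280191200000000a4001008)) (.sR 2112 (.leaf 0x3c00008280151180000000a8001008) (.leaf 0x440000c280161280000000ac001008))) (.sR 2496 (.sR 2400 (.sR 2304 (.sR 2256 (.leaf 0x48000382801a1300000000a8001008) (.leaf 0x4c0003c2801b1380000000ac001008)) (.sR 2352 (.leaf 0x4c000402801c1380000000ac001008) (.leaf 0x54000482801d1480000000a8001008))) (.leaf 0x580004c280171500000000a8001008)) (.sR 2592 (.leaf 0x6000050280181600000000a4001008) (.sR 2736 (.sR 2640 (.leaf 0x7000054280031800000000a0001008) (.sR 2688 (.leaf 0x6c0005c280031780000000a0001008) (.leaf 0x7c0002428004198000000098001008))) (.sR 2784 (.leaf 0x780002c2800419000000009c001008) (.sR 2832 (.leaf 0x74000302801e1880000000a0001008) (.leaf 3))))))) (.sR 2400 (.sR 2112 (.sR 2016 (.sR 1968 (.sr 2496 (.sg 43 (.leaf 0x45c3c00000220061000000000a844d044) (.leaf 0x45c3c00000220071000000000a844d044)) (.sg 43 (.sr 2528 (.leaf 0x45c3c000002200a1000000000a844d044)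 (.leaf 0x45c3c000002200e1000000000a844d044)) (.sr 2528 (.leaf 0x45c3c000002200b1000000000a844d044) (.leaf 0x45c3c000002200f1000000000a844d044)))) (.leaf 0x48000042802713000000009c001008)) (.leaf 0x3c000082801f1180000000a0001008)) (.sR 2208 (.leaf 0x440000c280201280000000a4001008) (.sR 2304 (.leaf 0x4c00018280211380000000a4001008) (.leaf 0x5400044280221480000000a8001008)))) (.sR 2592 (.sR 2496 (.leaf 0x5800010280231500000000a8001008) (.leaf 0x6000014280241600000000a4001008)) (.sR 2688 (.leaf 0x6800058280251700000000a4001008) (.sR 2784 (.leaf 0x7000028280261800000000a0001008) (.leaf 3)))))) (.leaf 3)))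
theorem k60 : ChunkP 4 4 2304 2560 40 44 1920 2976 :=
  chkY_sound (Q := 40) (C := [c158.c, c159.c, c188.c, c189.c, c208.c, c209.c, c210.c, c211.c, c230.c, c231.c, c232.c, c233.c, c261.c, c262.c, c263.c, c264.c]) (Z := [z2100, z2101, z2102, z2119, z2120, z2091, z2092, z2093, z2094, z2095, z2096, z2097, z2098, z2099, z2103, z2104, z2105, z2106, z2107, z2108, z2109, z2110, z2111, z2112, z2113, z2114, z2115, z2116, z2117, z2118, z2121, z2122, z2123, z2124, z2125, z2126, z2127, z2128, z2129, z2130])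
    (T := [f_w480_492_4_50_10q, f_w492_504_0_50_20q, f_w504_528_0_50_0q, f_w528_552_0_50_0q, f_w600_624_0_40_0q, f_w624_648_0_40_0q, f_w552_576_0_50_0q, f_w576_600_0_40_0q, f_w648_672_0_40_0q, f_w672_684_0_50_10q, f_w672_696_0_45_35q, f_w684_696_0_50_10q, f_w696_708_0_50_10q, f_w720_732_0_40_0q, f_w552_564_0_60_10q, f_w564_576_0_60_10q, f_w576_588_0_60_10q, f_w576_600_0_50_10q, f_w588_600_0_50_20q, f_w600_624_0_50_10q, f_w624_648_0_50_10q, f_w648_660_0_50_10q, f_w648_672_0_45_35q, f_w660_672_0_50_10q, f_w696_720_0_40_30q, f_w708_720_0_50_10q, f_w732_744_0_40_30q]) (t := t60)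
    (all_cons p158 (all_cons p159 (all_cons p188 (all_cons p189 (all_cons p208 (all_cons p209 (all_cons p210 (all_cons p211 (all_cons p230 (all_cons p231 (all_cons p232 (all_cons p233 (all_cons p261 (all_cons p262 (all_cons p263 (all_cons p264 all_nil))))))))))))))))
    (all_cons z2100P (all_cons z2101P (all_cons z2102P (all_cons z2119P (all_cons z2120P (all_cons z2091P (all_cons z2092P (all_cons z2093P (all_cons z2094P (all_cons z2095P (all_cons z2096P (all_cons z2097P (all_cons z2098P (all_cons z2099P (all_cons z2103P (all_cons z2104P (all_cons z2105P (all_cons z2106P (all_cons z2107P (all_cons z2108P (all_cons z2109P (all_cons z2110P (all_cons z2111P (all_cons z2112P (all_cons z2113P (all_cons z2114P (all_cons z2115P (all_cons z2116P (all_cons z2117P (all_cons z2118P (all_cons z2121P (all_cons z2122P (all_cons z2123P (all_cons z2124P (all_cons z2125P (all_cons z2126P (all_cons z2127P (all_cons z2128P (all_cons z2129P (all_cons z2130P all_nil))))))))))))))))))))))))))))))))))))))))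
    (all_cons f_w480_492_4_50_10q_p (all_cons f_w492_504_0_50_20q_p (all_cons f_w504_528_0_50_0q_p (all_cons f_w528_552_0_50_0q_p (all_cons f_w600_624_0_40_0q_p (all_cons f_w624_648_0_40_0q_p (all_cons f_w552_576_0_50_0q_p (all_cons f_w576_600_0_40_0q_p (all_cons f_w648_672_0_40_0q_p (all_cons f_w672_684_0_50_10q_p (all_cons f_w672_696_0_45_35q_p (all_cons f_w684_696_0_50_10q_p (all_cons f_w696_708_0_50_10q_p (all_cons f_w720_732_0_40_0q_p (all_cons f_w552_564_0_60_10q_p (all_cons f_w564_576_0_60_10q_p (all_cons f_w576_588_0_60_10q_p (all_cons f_w576_600_0_50_10q_p (all_cons f_w588_600_0_50_20q_p (all_cons f_w600_624_0_50_10q_p (all_cons f_w624_648_0_50_10q_p (all_cons f_w648_660_0_50_10q_p (all_cons f_w648_672_0_45_35q_p (all_cons f_w660_672_0_50_10q_p (all_cons f_w696_720_0_40_30q_p (all_cons f_w708_720_0_50_10q_p (all_cons f_w732_744_0_40_30q_p all_nil)))))))))))))))))))))))))))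
    (by decide +kernel)
def t61 : Tree := (.sR 2880 (.sr 2432 (.sR 2304 (.sR 2112 (.sR 2016 (.sg 46 (.sR 1968 (.sr 2368 (.leaf 0x45c3c00000220001000000000a844d044) (.leaf 0x45c3c00000220021000000000b044d044)) (.leaf 0x4004c0000428007139c8000027a401005)) (.sR 1968 (.sr 2368 (.leaf 0x45c3c00000220011000000000a844d044) (.leaf 0x45c3c00000220031000000000ac44d044)) (.leaf 0x40054000042800814904560547a401005))) (.leaf 0x4800014280001300000000a8001008)) (.sR 2208 (.leaf 0x4c000182800113800000009c001008) (.leaf 0x540001c280021480000000a4001008))) (.sR 2496 (.sR 2400 (.leaf 0x60000082800316000000009c001008) (.leaf 0x680000c28004170000000098001008)) (.sR 2592 (.leaf 0x6000010280051600000000a4001008) (.sR 2688 (.leaf 0x6800028280061700000000a4001008) (.sg 46 (.sR 2784 (.leaf 0x7800020280091900000000a0001008) (.leaf 0x84000302800a1a8000000094001008)) (.sR 2784 (.leaf 0x38080000202800b1a1100cd6a7a381005) (.leaf 3))))))) (.sR 2208 (.sR 2016 (.sg 46 (.sR 1968 (.sr 2496 (.sg 45 (.leaf 0x45c3c00000220041000000000ac44d044)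 (.leaf 0x45c3c00000220051000000000a844d044)) (.sg 45 (.leaf 0x45c3c00000220071000000000b044d044) (.leaf 0x45c3c00000220081000000000b044d044))) (.leaf 0x48000042801013000000008c001008)) (.sR 1968 (.sr 2496 (.leaf 0x45c3c00024220061000000000b044d044) (.sg 47 (.leaf 0x45c3c00000220091000000000ac44d044) (.leaf 0x45c3c000002200a1000000000a844d044))) (.leaf 0x40048000042801113154000027a401005))) (.sR 2112 (.leaf 0x40000142800c1200000000a8001008) (.leaf 0x48000182800d1300000000ac001008))) (.sR 2592 (.sR 2304 (.leaf 0x4c0001c2800e1380000000a0001008) (.sg 46 (.sR 2400 (.leaf 0x5800008280121500000000a8001008) (.sR 2496 (.leaf 0x600000c280131600000000a0001008) (.leaf 0x6c00010280141780000000a4001008))) (.sR 2400 (.leaf 0x4106400008280151692c002357a411005) (.sR 2496 (.leaf 0x680000c28016170000000098001008) (.leaf 0x70000102801718000000008c001008))))) (.sR 2688 (.leaf 0x6c0002c2800f1780000000a0001008) (.leaf 3))))) (.leaf 3))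
theorem k61 : ChunkP 4 4 2304 2560 44 48 1920 2976 :=
  chkY_sound (Q := 40) (C := [c160.c, c161.c, c190.c, c191.c, c212.c, c213.c, c214.c, c251.c, c252.c, c253.c, c254.c]) (Z := [z2131, z2132, z2133, z2134, z2135, z2136, z2137, z2138, z2139, z2140, z2141, z2142, z2143, z2144, z2145, z2146, z2147, z2148, z2149, z2150, z2151, z2152, z2153, z2154])
    (T := [f_w480_492_4_50_10q, f_w492_504_0_50_20q, f_w576_600_0_40_0q, f_w600_624_0_40_0q, f_w624_648_0_40_0q, f_w504_528_0_50_0q, f_w528_552_0_50_0q, f_w552_576_0_50_0q, f_w672_696_0_40_0q, f_w480_492_4_45_35q, f_w648_672_0_40_0q, f_w648_672_0_45_35q, f_w696_720_0_40_0q]) (t := t61)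
    (all_cons p160 (all_cons p161 (all_cons p190 (all_cons p191 (all_cons p212 (all_cons p213 (all_cons p214 (all_cons p251 (all_cons p252 (all_cons p253 (all_cons p254 all_nil)))))))))))
    (all_cons z2131P (all_cons z2132P (all_cons z2133P (all_cons z2134P (all_cons z2135P (all_cons z2136P (all_cons z2137P (all_cons z2138P (all_cons z2139P (all_cons z2140P (all_cons z2141P (all_cons z2142P (all_cons z2143P (all_cons z2144P (all_cons z2145P (all_cons z2146P (all_cons z2147P (all_cons z2148P (all_cons z2149P (all_cons z2150P (all_cons z2151P (all_cons z2152P (all_cons z2153P (all_cons z2154P all_nil))))))))))))))))))))))))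
    (all_cons f_w480_492_4_50_10q_p (all_cons f_w492_504_0_50_20q_p (all_cons f_w576_600_0_40_0q_p (all_cons f_w600_624_0_40_0q_p (all_cons f_w624_648_0_40_0q_p (all_cons f_w504_528_0_50_0q_p (all_cons f_w528_552_0_50_0q_p (all_cons f_w552_576_0_50_0q_p (all_cons f_w672_696_0_40_0q_p (all_cons f_w480_492_4_45_35q_p (all_cons f_w648_672_0_40_0q_p (all_cons f_w648_672_0_45_35q_p (all_cons f_w696_720_0_40_0q_p all_nil)))))))))))))
    (by decide +kernel)
def t62 : Tree := (.leaf 3)
theorem k62 : ChunkP 4 4 2304 2560 40 48 2976 3072 :=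
  chkY_sound (Q := 40) (C := []) (Z := [])
    (T := []) (t := t62)
    all_nil
    all_nil
    all_nil
    (by decide +kernel)
def t63 : Tree := (.sr 2304 (.sR 2208 (.sR 2016 (.sg 52 (.sr 2176 (.sg 50 (.sR 1968 (.leaf 0x4004400008220001100000000a8401004) (.leaf 0x3b0540000028004149045796c3d3b1005)) (.sR 1968 (.leaf 0x4800008220011180000000a8001007) (.leaf 0x3805400000280051490456bdf3d381005))) (.sg 50 (.sR 1968 (.leaf 0x4003c00008220041000000000b0401004) (.leaf 0x3a0540000028006149045cf10513a1005)) (.sR 1968 (.leaf 0x4003c00008220051000000000a8401004) (.leaf 0x3d05400000280071490457e063d3d1005)))) (.sr 2176 (.sg 54 (.sR 1968 (.leaf 0x4c00008220021200000000a8001007) (.leaf 0x380540000028008149044bf1728381005)) (.leaf 0x4004000034220031080000000ac401004)) (.sg 54 (.sR 1968 (.leaf 0x4004000008220061080000000a8401004) (.leaf 0x39054000002800914904571733d391005)) (.sR 1968 (.leaf 0x4004400008220071100000000ac401004) (.leaf 0x3e054000002800a149044dcee283e1005))))) (.sR 2112 (.leaf 0x3c00028280001180000000a4001008)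 (.leaf 0x540003c2800114800000009c001008))) (.sR 2304 (.leaf 0x5c00044280021580000000a8001008) (.sR 2400 (.leaf 0x5c000102800315800000009c001008) (.sg 52 (.sR 2592 (.sR 2496 (.leaf 0x68000142800b170000000094001008) (.leaf 0x700000c2800c180000000098001008)) (.sR 2688 (.leaf 0x740001c2800d188000000098001008) (.sr 2176 (.sR 2880 (.sR 2784 (.leaf 0x38080000202800e1a1100cd6a7a381005) (.leaf 0x88000242800f1b0000000050001008)) (.sR 2976 (.leaf 0x9000050280101c0000000074001008) (.leaf 0x9800054280111d0000000060001008))) (.sR 2784 (.leaf 0x3808000020280121a1100cd6a7a381005) (.sR 2880 (.leaf 0x8800024280131b000000005c001008) (.leaf 3)))))) (.sR 2688 (.sR 2496 (.leaf 0x600004c28014160000000090001008) (.sR 2592 (.leaf 0x3c07c0000c28015199143cce97a3c1005) (.leaf 0x380800001c280161a154107867a381005))) (.sR 2784 (.leaf 0x3808000020280171a1100cd6a7a381005) (.sR 2880 (.leaf 0x8800024280181b000000006c001008) (.leaf 3)))))))) (.sR 2688 (.sg 52 (.sR 2016 (.sr 2432 (.sg 50 (.sR 1968 (.sr 2368 (.leaf 0x4003c00008220081000000000a8401004)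 (.leaf 0x45c3c000042200c1000000000a844d044)) (.leaf 0x42054000002801a149045c35d65421005)) (.sR 1968 (.leaf 0x45c3c00018220091000000000b044d044) (.leaf 0x3c054000002801b149045d38d653c1005))) (.sg 50 (.sR 1968 (.sr 2496 (.leaf 0x45c3c000042200d1000000000b044d044) (.sg 49 (.leaf 0x45c3c00004220111000000000a844d044) (.leaf 0x45c3c00004220121000000000a844d044))) (.leaf 0x3f04c000002801c139c8000707a3f1005)) (.sR 1968 (.sr 2496 (.leaf 0x45c3c000042200e1000000000ac44d044) (.sg 51 (.leaf 0x45c3c00004220131000000000a844d044) (.leaf 0x45c3c00004220141000000000a844d044))) (.leaf 0x3d054000002801d14904580137a3d1005)))) (.sR 2112 (.leaf 0x4003c00038280191180000000b0401006) (.sr 2432 (.sR 2400 (.sR 2208 (.leaf 0x48000402801e1300000000a0001008) (.sR 2304 (.leaf 0x4c000482801f1380000000a4001008) (.leaf 0x3e06800010280201717c008c17a3e1005))) (.sR 2496 (.leaf 0x3c070000142802118170030cf7a3c1005) (.sR 2592 (.leaf 0x3d07c0000c28022199143ae5f7a3d1005) (.leaf 0x4007c0001c2802319948000027a401005)))) (.sR 2400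 (.sR 2208 (.leaf 0x500002c280241400000000a4001008) (.sR 2304 (.leaf 0x5800030280251500000000a4001008) (.leaf 0x400600001028026160f8000027a401005))) (.sR 2496 (.leaf 0x4006c000142802717934000027a401005) (.sR 2592 (.leaf 0x6c0000c28028178000000098001008) (.leaf 3))))))) (.sR 2304 (.sR 2112 (.sR 2016 (.sr 2432 (.sg 54 (.sR 1968 (.leaf 0x45c3c000182200a1000000000ac44d044) (.leaf 0x3e054000002802f1490457f563d3e1005)) (.sR 1968 (.leaf 0x45c3c000182200b1000000000a844d044) (.leaf 0x3a054000002803014904575ed3d3a1005))) (.sg 54 (.sR 1968 (.sr 2496 (.leaf 0x45c3c000042200f1000000000b044d044) (.leaf 0x45c3c00004220151000000000b044d044)) (.leaf 0x3e0540000028031149045c35d653e1005)) (.sR 1968 (.sr 2496 (.leaf 0x4003c00008220101000000000a8401004) (.leaf 0x45c3c00004220161000000000ac44d044)) (.leaf 0x3e0540000028032149045c7c7513e1005)))) (.leaf 0x4c00028280291380000000ac001008)) (.sR 2208 (.leaf 0x540002c2802a1480000000a8001008) (.leaf 0x58000302802b1500000000a0001008))) (.sR 2496 (.sR 2400 (.leaf 0x60000102802c16000000009c001008)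 (.leaf 0x68000142802d170000000094001008)) (.sR 2592 (.leaf 0x400700000c2802e18100000027a401005) (.leaf 3))))) (.leaf 3)))
theorem k63 : ChunkP 4 4 2048 2560 48 56 1920 3072 :=
  chkY_sound (Q := 40) (C := [c103.c, c104.c, c105.c, c106.c, c133.c, c134.c, c135.c, c136.c, c162.c, c170.c, c171.c, c172.c, c192.c, c215.c, c216.c, c217.c, c218.c, c255.c, c256.c, c257.c, c258.c, c259.c, c260.c]) (Z := [z2155, z2156, z2157, z2158, z2159, z2160, z2161, z2162, z2163, z2164, z2165, z2166, z2167, z2168, z2169, z2170, z2171, z2172, z2173, z2174, z2175, z2176, z2177, z2178, z2179, z2180, z2181, z2182, z2183, z2184, z2185, z2186, z2187, z2188, z2189, z2190, z2191, z2192, z2193, z2194, z2195, z2196, z2197, z2198, z2199, z2200, z2201, z2202, z2203, z2204, z2205])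
    (T := [f_w492_504_0_50_20q, f_w480_492_4_50_10q, f_w480_492_0_40_20q, f_w624_648_0_40_0q, f_w576_600_0_40_0q, f_w600_624_0_40_0q, f_w480_492_4_40_20q, f_w648_672_0_40_0q, f_w672_696_0_40_0q, f_w696_720_0_30_0q, f_w504_528_0_50_0q, f_w528_552_0_50_0q, f_w552_576_0_50_0q, f_w480_504_0_30_20q, f_w504_528_0_40_20q, f_w528_552_0_40_20q, f_w528_552_0_5_0q, f_w552_576_0_40_20q, f_w552_576_0_5_0q, f_w600_624_0_5_0q, f_w720_744_0_30_0q, f_w744_768_0_30_0q]) (t := t63)
    (all_cons p103 (all_cons p104 (all_cons p105 (all_cons p106 (all_cons p133 (all_cons p134 (all_cons p135 (all_cons p136 (all_cons p162 (all_cons p170 (all_cons p171 (all_cons p172 (all_cons p192 (all_cons p215 (all_cons p216 (all_cons p217 (all_cons p218 (all_cons p255 (all_cons p256 (all_cons p257 (all_cons p258 (all_cons p259 (all_cons p260 all_nil)))))))))))))))))))))))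
    (all_cons z2155P (all_cons z2156P (all_cons z2157P (all_cons z2158P (all_cons z2159P (all_cons z2160P (all_cons z2161P (all_cons z2162P (all_cons z2163P (all_cons z2164P (all_cons z2165P (all_cons z2166P (all_cons z2167P (all_cons z2168P (all_cons z2169P (all_cons z2170P (all_cons z2171P (all_cons z2172P (all_cons z2173P (all_cons z2174P (all_cons z2175P (all_cons z2176P (all_cons z2177P (all_cons z2178P (all_cons z2179P (all_cons z2180P (all_cons z2181P (all_cons z2182P (all_cons z2183P (all_cons z2184P (all_cons z2185P (all_cons z2186P (all_cons z2187P (all_cons z2188P (all_cons z2189P (all_cons z2190P (all_cons z2191P (all_cons z2192P (all_cons z2193P (all_cons z2194P (all_cons z2195P (all_cons z2196P (all_cons z2197P (all_cons z2198P (all_cons z2199P (all_cons z2200P (all_cons z2201P (all_cons z2202P (all_cons z2203P (all_cons z2204P (all_cons z2205P all_nil)))))))))))))))))))))))))))))))))))))))))))))))))))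
    (all_cons f_w492_504_0_50_20q_p (all_cons f_w480_492_4_50_10q_p (all_cons f_w480_492_0_40_20q_p (all_cons f_w624_648_0_40_0q_p (all_cons f_w576_600_0_40_0q_p (all_cons f_w600_624_0_40_0q_p (all_cons f_w480_492_4_40_20q_p (all_cons f_w648_672_0_40_0q_p (all_cons f_w672_696_0_40_0q_p (all_cons f_w696_720_0_30_0q_p (all_cons f_w504_528_0_50_0q_p (all_cons f_w528_552_0_50_0q_p (all_cons f_w552_576_0_50_0q_p (all_cons f_w480_504_0_30_20q_p (all_cons f_w504_528_0_40_20q_p (all_cons f_w528_552_0_40_20q_p (all_cons f_w528_552_0_5_0q_p (all_cons f_w552_576_0_40_20q_p (all_cons f_w552_576_0_5_0q_p (all_cons f_w600_624_0_5_0q_p (all_cons f_w720_744_0_30_0q_p (all_cons f_w744_768_0_30_0q_p all_nil))))))))))))))))))))))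
    (by decide +kernel)
def t64 : Tree := (.sR 2688 (.sr 2304 (.sR 2304 (.sR 2112 (.sR 2016 (.sg 60 (.sr 2176 (.leaf 0x4004000008220011080000000ac401004) (.sg 58 (.sR 1968 (.leaf 0x4800004220031180000000a8001007) (.leaf 0x3d0540000028007149043e99b143d1005)) (.leaf 0x4004000008220041080000000b0401004))) (.sr 2176 (.leaf 0x4004400010220021100000000b0401004) (.sg 62 (.leaf 0x4004400008220051100000000ac401004) (.leaf 0x4004000010220061080000000a4401004)))) (.leaf 0x410440001428000128c400f5565411005)) (.sR 2208 (.leaf 0x3e058000182800115170003a67a3e1005) (.leaf 0x3d05c0001c28002159240147e653d1005))) (.sR 2496 (.sR 2400 (.leaf 0x4106400020280031692c0020965411005) (.leaf 0x410680002828004170fc004a77a411005)) (.sR 2592 (.leaf 0x700002c28005180000000088001008) (.leaf 0x700003028006180000000098001008)))) (.sR 2208 (.sR 2016 (.sg 60 (.sr 2432 (.sg 58 (.sR 1968 (.leaf 0x4003c00004220001000000000a4401004) (.leaf 0x3d054000002800c149044da86283d1005)) (.sR 1968 (.leaf 0x4004400004220071100000000b0401004)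 (.leaf 0x39054000002800d149043d9a514391005))) (.sg 58 (.sR 1968 (.leaf 0x45c3c0000c220091000000000b044d044) (.leaf 0x39054000002800e14904571733d391005)) (.sR 1968 (.leaf 0x45c3c0000c2200a1000000000a844d044) (.leaf 0x3b054000002800f149044d2b7283b1005)))) (.sr 2432 (.sg 62 (.leaf 0x4704000024220001080000000b044d044) (.leaf 0x4004000008220081080000000a8401004)) (.sg 62 (.sR 1968 (.leaf 0x4003c000042200b1000000000ac401004) (.leaf 0x380540000028010149044bf1728381005)) (.sR 1968 (.leaf 0x40044000042200c1100000000b0401004) (.leaf 3))))) (.sR 2112 (.leaf 0x4003c00014280081180000000b0401006) (.leaf 0x4800018280091300000000a4001008))) (.sR 2304 (.leaf 0x4c0001c2800a13800000009c001008) (.sR 2400 (.leaf 0x54000202800b1480000000a4001008) (.leaf 3))))) (.leaf 3))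
theorem k64 : ChunkP 4 4 2048 2560 56 64 1920 3072 :=
  chkY_sound (Q := 40) (C := [c173.c, c107.c, c108.c, c137.c, c138.c, c139.c, c140.c, c174.c, c175.c, c226.c, c227.c, c228.c, c229.c]) (Z := [z2206, z2207, z2208, z2209, z2210, z2211, z2212, z2213, z2214, z2215, z2216, z2217, z2218, z2219, z2220, z2221, z2222])
    (T := [f_w492_504_0_50_20q, f_w480_492_0_40_20q, f_w480_504_0_30_20q, f_w480_492_4_40_20q, f_w480_504_0_40_0q, f_w504_528_0_5_0q, f_w528_552_0_5_0q, f_w552_576_0_5_0q, f_w576_600_0_5_0q, f_w480_504_4_30_45q, f_w600_624_0_5_0q, f_w624_648_0_5_0q, f_w648_672_0_5_0q]) (t := t64)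
    (all_cons p173 (all_cons p107 (all_cons p108 (all_cons p137 (all_cons p138 (all_cons p139 (all_cons p140 (all_cons p174 (all_cons p175 (all_cons p226 (all_cons p227 (all_cons p228 (all_cons p229 all_nil)))))))))))))
    (all_cons z2206P (all_cons z2207P (all_cons z2208P (all_cons z2209P (all_cons z2210P (all_cons z2211P (all_cons z2212P (all_cons z2213P (all_cons z2214P (all_cons z2215P (all_cons z2216P (all_cons z2217P (all_cons z2218P (all_cons z2219P (all_cons z2220P (all_cons z2221P (all_cons z2222P all_nil)))))))))))))))))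
    (all_cons f_w492_504_0_50_20q_p (all_cons f_w480_492_0_40_20q_p (all_cons f_w480_504_0_30_20q_p (all_cons f_w480_492_4_40_20q_p (all_cons f_w480_504_0_40_0q_p (all_cons f_w504_528_0_5_0q_p (all_cons f_w528_552_0_5_0q_p (all_cons f_w552_576_0_5_0q_p (all_cons f_w576_600_0_5_0q_p (all_cons f_w480_504_4_30_45q_p (all_cons f_w600_624_0_5_0q_p (all_cons f_w624_648_0_5_0q_p (all_cons f_w648_672_0_5_0q_p all_nil)))))))))))))
    (by decide +kernel)
def t65 : Tree := (.sg 96 (.sg 80 (.sR 2112 (.sR 2016 (.sg 72 (.sr 2304 (.sg 68 (.leaf 0x4004000000220001080000000b0401004) (.leaf 0x4004400004220011100000000b0401004)) (.sg 68 (.sr 2432 (.leaf 0x4004000000220021080000000ac401004) (.leaf 3)) (.leaf 3))) (.leaf 3)) (.leaf 0x480000828000130000000094001008)) (.sR 2208 (.leaf 0x3c0580000c280011517000f56653c1005) (.sR 2304 (.leaf 0x3f05c0001028002159240027e7a3f1005) (.leaf 3)))) (.leaf 3)) (.leaf 3))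
theorem k65 : ChunkP 4 4 2048 2560 64 101 1920 3072 :=
  chkY_sound (Q := 40) (C := [c109.c, c110.c, c176.c]) (Z := [z2223, z2224, z2225])
    (T := [f_w480_504_0_30_20q, f_w480_504_0_5_0q, f_w504_528_0_5_0q, f_w528_552_0_5_0q, f_w552_576_0_5_0q]) (t := t65)
    (all_cons p109 (all_cons p110 (all_cons p176 all_nil)))
    (all_cons z2223P (all_cons z2224P (all_cons z2225P all_nil)))
    (all_cons f_w480_504_0_30_20q_p (all_cons f_w480_504_0_5_0q_p (all_cons f_w504_528_0_5_0q_p (all_cons f_w528_552_0_5_0q_p (all_cons f_w552_576_0_5_0q_p all_nil)))))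
    (by decide +kernel)

end Pool.Agent.Lib.MP_af3a4a_an.P1.CHK.DATA.N4s
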