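import Pool.Agent.Lib.MP_af3a4a_an.P1.CHK.SWP.Pay
import Pool.Agent.Lib.MP_af3a4a_an.P1.CHK.DATA.N4s.C0
import Pool.Agent.Lib.MP_af3a4a_an.P1.CHK.DATA.N4s.C1
import Pool.Agent.Lib.MP_af3a4a_an.P1.CHK.DATA.N4s.Z7
import Pool.Agent.Lib.MP_af3a4a_an.P1.CHK.DATA.N4s.Z8
import Pool.Agent.Lib.MP_af3a4a_an.P1.CHK.DATA.F4.W480a
import Pool.Agent.Lib.MP_af3a4a_an.P1.CHK.DATA.F4.W480b
import Pool.Agent.Lib.MP_af3a4a_an.P1.CHK.DATA.F4.W528a
import Pool.Agent.Lib.MP_af3a4a_an.P1.CHK.DATA.F4.W528b
import Pool.Agent.Lib.MP_af3a4a_an.P1.CHK.DATA.F4.W576a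
import Pool.Agent.Lib.MP_af3a4a_an.P1.CHK.DATA.F4.W624a
import Pool.Agent.Lib.MP_af3a4a_an.P1.CHK.DATA.F4.W672a
import Pool.Agent.Lib.MP_af3a4a_an.P1.CHK.DATA.F4.W720a
import Pool.Agent.Lib.MP_af3a4a_an.P1.CHK.DATA.F4.W720b

/-! chunks for N = 4 (generated) -/

set_option autoImplicit false
set_option maxRecDepth 100000

namespace Pool.Agent.Lib.MP_af3a4a_an.P1.CHK.DATA.N4s

open BOX SWP

def t66 : Tree := (.sr 2816 (.sR 2784 (.sR 2688 (.sg 4 (.sR 2496 (.sR 2400 (.sr 2688 (.sR 2112 (.sR 2016 (.sg 2 (.sR 1968 (.leaf 0x4003404020260011000000000a4401004) (.leaf 0x38000042800c1100000000a0001008)) (.sR 1968 (.leaf 0x4003404020260021000000000a8401004) (.leaf 0x38000042800d1100000000a4001008))) (.leaf 0x3c000082800811800000009c001008)) (.sR 2208 (.leaf 0x480000c280091300000000ac001008) (.sR 2304 (.leaf 0x50000102800a14000000009c001008) (.leaf 0x5c000142800b1580000000a4001008)))) (.sR 2112 (.sR 2016 (.sg 2 (.sR 1968 (.leaf 0x4003804000260051080000000a4401004) (.leaf 0x4003400004280121080000000a0401006)) (.sR 1968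 (.leaf 0x4003804000260061080000000a8401004) (.leaf 0x4003400004280131080000000a4401006))) (.leaf 0x3c000082800e1180000000a4001008)) (.sR 2208 (.leaf 0x440000c2800f12800000009c001008) (.sR 2304 (.leaf 0x4c00010280101380000000a4001008) (.leaf 0x54000142801114800000009c001008))))) (.leaf 0x5800028280051500000000a8001008)) (.sR 2592 (.leaf 0x600001c280061600000000a4001008) (.leaf 0x6c0002c2800717800000009c001008))) (.sR 2592 (.sr 2688 (.sR 2208 (.sR 2016 (.sg 6 (.sR 1968 (.leaf 0x4003404020260031000000000b0401004) (.leaf 0x40038000042801a1100000000ac401006)) (.sR 1968 (.leaf 0x4003404000260041000000000a0401004) (.leaf 0x40034000042801b1080000000a0401006))) (.sR 2112 (.leaf 0x3c00008280151180000000a8001008) (.leaf 0x440000c280161280000000a4001008))) (.sR 2400 (.sR 2304 (.leaf 0x4c000102801713800000009c001008) (.leaf 0x5800014280181500000000a4001008)) (.sR 2496 (.leaf 0x600002828019160000000094001008) (.leaf 0x600001c280001600000000a4001008)))) (.sR 2304 (.sR 2112 (.sg 6 (.sR 2016 (.sR 1968 (.leaf 0x4003804000260071080000000b0401004)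 (.leaf 0x4003400004280211080000000ac401006)) (.leaf 0x3c00008280201180000000a8001008)) (.sR 2016 (.sR 1968 (.leaf 0x4003404000260081000000000a0401004) (.leaf 0x380c0182802311000000009c001008)) (.leaf 0x4003c00008280221180000000b0401006))) (.sR 2208 (.leaf 0x440000c2801c1280000000ac001008) (.leaf 0x4c000102801d138000000098001008))) (.sR 2400 (.leaf 0x58000142801e1500000000a0001008) (.sR 2496 (.leaf 0x5c000282801f1580000000a8001008) (.leaf 0x680001c280001700000000a0001008))))) (.leaf 0x680002c280141700000000a4001008))) (.leaf 0x7000034280011800000000a0001008)) (.sR 2880 (.leaf 0x7c000382800219800000009c001008) (.sR 2976 (.leaf 0x8c1403c280031b8000000094001008) (.leaf 0x9810040280041d000000006c001008)))) (.sR 2688 (.sR 2496 (.sR 2400 (.sg 4 (.sR 2208 (.sr 2944 (.sR 2016 (.leaf 0x4003800024260091080000000b0401004) (.sR 2112 (.leaf 0x3c000082802b1180000000ac001008) (.leaf 0x440000c2802c12800000009c001008))) (.sR 2016 (.leaf 0x40038000242600c1080000000a4401004) (.sR 2112 (.leaf 0x4003c000082802d1180000000b0401006)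 (.leaf 0x440000c2802e1280000000a4001008)))) (.sR 2304 (.leaf 0x4c14048280291380000000a4001008) (.leaf 0x541404c2802a148000000094001008))) (.sr 2944 (.sR 2112 (.sR 2016 (.sg 6 (.sR 1968 (.leaf 0x40034040002600a1000000000a0401004) (.leaf 0x3c0c018280331180000000a8001008)) (.sR 1968 (.leaf 0x40034040002600b1000000000a4401004) (.leaf 0x4003c0c018280341180000000b0401006))) (.leaf 0x3c080302802f1180000000ac001008)) (.sR 2208 (.leaf 0x440000c280301280000000ac001008) (.sR 2304 (.leaf 0x4c000102803113800000009c001008) (.leaf 0x5800014280321500000000a4001008)))) (.sR 2112 (.sR 2016 (.sg 6 (.leaf 0x40038000242600d1080000000b0401004) (.sR 1968 (.leaf 0x40034040002600e1000000000ac401004) (.leaf 0x380c01828039110000000098001008))) (.leaf 0x3c08030280351180000000a0001008)) (.sR 2208 (.leaf 0x4800044280361300000000ac001008) (.sR 2304 (.leaf 0x4c0001028037138000000098001008) (.leaf 0x5800014280381500000000a4001008)))))) (.leaf 0x5c180502802415800000009c001008)) (.sR 2592 (.leaf 0x600001c280251600000000a4001008) (.leaf 0x6c0002c2802617800000009c001008)))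 (.sR 2880 (.sR 2784 (.leaf 0x78000342802719000000008c001008) (.leaf 0x8800038280281b0000000078001008)) (.sR 2976 (.leaf 0xa00403c200001c0000000050001007) (.leaf 0xa800040200001d0000000034001007)))))
theorem k66 : ChunkP 4 4 2560 3072 0 8 1920 3072 :=
  chkY_sound (Q := 40) (C := [c531.c, c298.c, c299.c, c300.c, c301.c, c407.c, c408.c, c409.c, c410.c, c525.c, c526.c, c527.c, c635.c, c636.c, c637.c]) (Z := [z2251, z2226, z2227, z2228, z2229, z2230, z2231, z2232, z2233, z2234, z2235, z2236, z2237, z2238, z2239, z2240, z2241, z2242, z2243, z2244, z2245, z2246, z2247, z2248, z2249, z2250, z2252, z2253, z2254, z2255, z2256, z2257, z2258, z2259, z2260, z2261, z2262, z2263, z2264, z2265, z2266, z2267, z2268, z2269, z2270, z2271, z2272, z2273, z2274, z2275, z2276, z2277, z2278, z2279, z2280, z2281, z2282, z2283])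
    (T := [f_w480_492_0_60_10q, f_w492_504_0_50_20q, f_w504_528_0_60_0q, f_w528_552_0_60_10q, f_w552_576_0_60_0q, f_w576_600_0_60_0q, f_w492_504_0_70_10q, f_w624_648_0_60_0q, f_w480_492_0_50_20q, f_w480_504_0_70_0q, f_w600_624_0_60_0q, f_w648_672_0_60_0q, f_w504_528_0_70_10q, f_w672_696_0_60_0q, f_w696_720_0_60_0q, f_w720_744_0_60_0q, f_w744_768_0_60_0q, f_w528_552_0_70_10q, f_w552_576_0_70_10q, f_w576_600_0_70_0q, f_w600_624_0_70_10q]) (t := t66)
    (all_cons p531 (all_cons p298 (all_cons p299 (all_cons p300 (all_cons p301 (all_cons p407 (all_cons p408 (all_cons p409 (all_cons p410 (all_cons p525 (all_cons p526 (all_cons p527 (all_cons p635 (all_cons p636 (all_cons p637 all_nil)))))))))))))))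
    (all_cons z2251P (all_cons z2226P (all_cons z2227P (all_cons z2228P (all_cons z2229P (all_cons z2230P (all_cons z2231P (all_cons z2232P (all_cons z2233P (all_cons z2234P (all_cons z2235P (all_cons z2236P (all_cons z2237P (all_cons z2238P (all_cons z2239P (all_cons z2240P (all_cons z2241P (all_cons z2242P (all_cons z2243P (all_cons z2244P (all_cons z2245P (all_cons z2246P (all_cons z2247P (all_cons z2248P (all_cons z2249P (all_cons z2250P (all_cons z2252P (all_cons z2253P (all_cons z2254P (all_cons z2255P (all_cons z2256P (all_cons z2257P (all_cons z2258P (all_cons z2259P (all_cons z2260P (all_cons z2261P (all_cons z2262P (all_cons z2263P (all_cons z2264P (all_cons z2265P (all_cons z2266P (all_cons z2267P (all_cons z2268P (all_cons z2269P (all_cons z2270P (all_cons z2271P (all_cons z2272P (all_cons z2273P (all_cons z2274P (all_cons z2275P (all_cons z2276P (all_cons z2277P (all_cons z2278P (all_cons z2279P (all_cons z2280P (all_cons z2281P (all_cons z2282P (all_cons z2283P all_nil))))))))))))))))))))))))))))))))))))))))))))))))))))))))))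
    (all_cons f_w480_492_0_60_10q_p (all_cons f_w492_504_0_50_20q_p (all_cons f_w504_528_0_60_0q_p (all_cons f_w528_552_0_60_10q_p (all_cons f_w552_576_0_60_0q_p (all_cons f_w576_600_0_60_0q_p (all_cons f_w492_504_0_70_10q_p (all_cons f_w624_648_0_60_0q_p (all_cons f_w480_492_0_50_20q_p (all_cons f_w480_504_0_70_0q_p (all_cons f_w600_624_0_60_0q_p (all_cons f_w648_672_0_60_0q_p (all_cons f_w504_528_0_70_10q_p (all_cons f_w672_696_0_60_0q_p (all_cons f_w696_720_0_60_0q_p (all_cons f_w720_744_0_60_0q_p (all_cons f_w744_768_0_60_0q_p (all_cons f_w528_552_0_70_10q_p (all_cons f_w552_576_0_70_10q_p (all_cons f_w576_600_0_70_0q_p (all_cons f_w600_624_0_70_10q_p all_nil)))))))))))))))))))))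
    (by decide +kernel)
def t67 : Tree := (.sR 2976 (.sr 2688 (.sR 2592 (.sR 2400 (.sR 2304 (.sg 10 (.sR 2112 (.sR 2016 (.sR 1968 (.leaf 0x4003404000260001000000000a0401004) (.leaf 0x40034000102800f1080000000a0401006)) (.leaf 0x3c0003c2800c1180000000ac001008)) (.sR 2208 (.leaf 0x440001c2800d1280000000a8001008) (.leaf 0x4c0000c2800e1380000000ac001008))) (.sR 2208 (.sR 2064 (.sR 1968 (.leaf 0x4003404000260011000000000a8401004) (.sR 2016 (.leaf 0x4003400010280111080000000a4401006) (.leaf 0x3c00004280011180000000a0001008))) (.sR 2112 (.leaf 0x4000008280011200000000a4001008) (.sR 2160 (.leaf 0x44000182800212800000009c001008) (.leaf 0x48000202800213000000009c001008)))) (.leaf 0x4c0000c280101380000000a8001008))) (.leaf 0x5400024280051480000000a8001008)) (.sR 2496 (.leaf 0x5c000282800615800000009c001008) (.leaf 0x680002c2800717000000009c001008))) (.sR 2784 (.sR 2688 (.leaf 0x74000302800818800000009c001008) (.leaf 0x8000034280091a000000009c001008)) (.sR 2880 (.leaf 0x88000442800a1b0000000074001008) (.leaf 0x90140382800b1c0000000058001008))))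 (.sR 2496 (.sR 2304 (.sR 2208 (.sg 10 (.sR 2112 (.sR 2016 (.sR 1968 (.leaf 0x4003404000260021000000000a4401004) (.leaf 0x400380c0142801b1100000000a8401006)) (.sR 2064 (.leaf 0x4003c00004280001180000000b0401006) (.leaf 0x3c000082800011800000009c001008))) (.leaf 0x440001c2801a1280000000a4001008)) (.sR 2064 (.sR 1968 (.leaf 0x4003404000260031000000000b0401004) (.sR 2016 (.leaf 0x400340c0142801c1080000000a0401006) (.leaf 0x4003c00004280001180000000b0401006))) (.sR 2112 (.leaf 0x3c000082800011800000009c001008) (.sR 2160 (.leaf 0x4000018280031200000000ac001008) (.leaf 0x4400020280031280000000ac001008))))) (.leaf 0x4c0000c280121380000000ac001008)) (.sR 2400 (.leaf 0x5400024280131480000000a0001008) (.leaf 0x6000028280141600000000a4001008))) (.sR 2688 (.sR 2592 (.leaf 0x600002c280151600000000a4001008) (.leaf 0x6c000302801617800000009c001008)) (.sR 2784 (.leaf 0x780003428017190000000094001008) (.sR 2880 (.leaf 0x78000402801819000000009c001008) (.leaf 0x9014038280191c0000000040001008)))))) (.leaf 0x9810048280041d0000000098001008))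
theorem k67 : ChunkP 4 4 2560 2816 8 12 1920 3072 :=
  chkY_sound (Q := 40) (C := [c302.c, c303.c, c411.c, c412.c]) (Z := [z2310, z2298, z2299, z2312, z2284, z2285, z2286, z2287, z2288, z2289, z2290, z2291, z2292, z2293, z2294, z2295, z2296, z2297, z2300, z2301, z2302, z2303, z2304, z2305, z2306, z2307, z2308, z2309, z2311])
    (T := [f_w480_492_0_60_10q, f_w504_516_0_60_10q, f_w516_528_0_60_10q, f_w552_576_0_60_0q, f_w492_504_0_50_20q, f_w492_504_0_70_10q, f_w528_540_0_60_10q, f_w528_552_0_60_10q, f_w540_552_0_60_10q, f_w576_600_0_60_0q, f_w600_624_0_60_0q, f_w624_648_0_60_0q, f_w648_672_0_60_0q, f_w672_696_0_60_0q, f_w720_744_0_60_0q, f_w504_528_0_60_0q, f_w696_720_0_50_0q, f_w696_720_0_60_0q, f_w744_768_0_60_0q]) (t := t67)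
    (all_cons p302 (all_cons p303 (all_cons p411 (all_cons p412 all_nil))))
    (all_cons z2310P (all_cons z2298P (all_cons z2299P (all_cons z2312P (all_cons z2284P (all_cons z2285P (all_cons z2286P (all_cons z2287P (all_cons z2288P (all_cons z2289P (all_cons z2290P (all_cons z2291P (all_cons z2292P (all_cons z2293P (all_cons z2294P (all_cons z2295P (all_cons z2296P (all_cons z2297P (all_cons z2300P (all_cons z2301P (all_cons z2302P (all_cons z2303P (all_cons z2304P (all_cons z2305P (all_cons z2306P (all_cons z2307P (all_cons z2308P (all_cons z2309P (all_cons z2311P all_nil)))))))))))))))))))))))))))))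
    (all_cons f_w480_492_0_60_10q_p (all_cons f_w504_516_0_60_10q_p (all_cons f_w516_528_0_60_10q_p (all_cons f_w552_576_0_60_0q_p (all_cons f_w492_504_0_50_20q_p (all_cons f_w492_504_0_70_10q_p (all_cons f_w528_540_0_60_10q_p (all_cons f_w528_552_0_60_10q_p (all_cons f_w540_552_0_60_10q_p (all_cons f_w576_600_0_60_0q_p (all_cons f_w600_624_0_60_0q_p (all_cons f_w624_648_0_60_0q_p (all_cons f_w648_672_0_60_0q_p (all_cons f_w672_696_0_60_0q_p (all_cons f_w720_744_0_60_0q_p (all_cons f_w504_528_0_60_0q_p (all_cons f_w696_720_0_50_0q_p (all_cons f_w696_720_0_60_0q_p (all_cons f_w744_768_0_60_0q_p all_nil)))))))))))))))))))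
    (by decide +kernel)
def t68 : Tree := (.sr 2688 (.sR 2688 (.sR 2496 (.sR 2400 (.sg 14 (.sR 2208 (.sR 2064 (.sR 1968 (.leaf 0x45c340c01c260011000000000ac44d044) (.sR 2016 (.leaf 0x400340004c2800f1080000000ac401006) (.leaf 0x3800000280001100000000a0001008))) (.sR 2112 (.leaf 0x3c00004280001180000000a0001008) (.sR 2160 (.leaf 0x4400008280011280000000ac001008) (.leaf 0x440000c2800112800000009c001008)))) (.sR 2304 (.leaf 0x4c000242800d1380000000a4001008) (.leaf 0x54000142800e14800000009c001008))) (.sR 2304 (.sR 2112 (.sR 2016 (.sR 1968 (.sr 2624 (.leaf 0x4003404018260001000000000a0401004) (.leaf 0x4003404018260021000000000a0401004)) (.leaf 0x400340c010280111080000000b0401006)) (.sR 2064 (.leaf 0x3800000280001100000000a0001008) (.leaf 0x3c00004280001180000000a0001008))) (.sR 2208 (.sR 2160 (.leaf 0x40000082800112000000009c001008) (.leaf 0x440000c2800112800000009c001008)) (.sR 2256 (.leaf 0x4c000202800413800000009c001008) (.leaf 0x50000282800414000000009c001008)))) (.leaf 0x5400014280101480000000a8001008)))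 (.leaf 0x580002c280061500000000a8001008)) (.sR 2592 (.leaf 0x6000030280071600000000a4001008) (.leaf 0x6c000342800817800000009c001008))) (.sR 2880 (.sR 2784 (.leaf 0x780003828009190000000098001008) (.leaf 0x840003c2800a1a8000000090001008)) (.sR 2976 (.leaf 0x90140402800b1c0000000078001008) (.leaf 0x98100442800c1d0000000058001008)))) (.sR 2688 (.sR 2496 (.sR 2400 (.sg 14 (.sR 2208 (.sR 2064 (.sR 1968 (.leaf 0x45c340c01c260031000000000b044d044) (.sR 2016 (.leaf 0x400340c0102801b1080000000a0401006) (.leaf 0x4003800000280021100000000a8401006))) (.sR 2112 (.leaf 0x3c00004280021180000000ac001008) (.sR 2160 (.leaf 0x4400008280031280000000ac001008) (.leaf 0x480000c280031300000000ac001008)))) (.sR 2304 (.leaf 0x4c00024280191380000000ac001008) (.leaf 0x54000142801a1480000000a0001008))) (.sR 2160 (.sR 2016 (.sR 1968 (.leaf 0x45c340c048260041000000000b044d044) (.leaf 0x400340c0102801c1080000000a0401006)) (.sR 2064 (.leaf 0x4003800000280021100000000a8401006) (.sR 2112 (.leaf 0x3c00004280021180000000ac001008) (.leaf 0x40000082800312000000009c001008))))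 (.sR 2256 (.sR 2208 (.leaf 0x440000c2800312800000009c001008) (.leaf 0x4c00020280051380000000a4001008)) (.sR 2304 (.leaf 0x5000028280051400000000a0001008) (.sR 2352 (.leaf 0x4c000502801d1380000000ac001008) (.leaf 0x5c000542801e1580000000a0001008)))))) (.leaf 0x580002c280121500000000a8001008)) (.sR 2592 (.leaf 0x640003028013168000000098001008) (.leaf 0x700003428014180000000094001008))) (.sR 2880 (.sR 2784 (.leaf 0x7000038280151800000000a0001008) (.leaf 0x880003c280161b0000000070001008)) (.sR 2976 (.leaf 0x9014040280171c0000000054001008) (.leaf 0x9810044280181d0000000038001008)))))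
theorem k68 : ChunkP 4 4 2560 2816 12 16 1920 3072 :=
  chkY_sound (Q := 40) (C := [c279.c, c302.c, c337.c, c411.c, c412.c]) (Z := [z2323, z2324, z2338, z2339, z2327, z2341, z2313, z2314, z2315, z2316, z2317, z2318, z2319, z2320, z2321, z2322, z2325, z2326, z2328, z2329, z2330, z2331, z2332, z2333, z2334, z2335, z2336, z2337, z2340, z2342, z2343])
    (T := [f_w504_516_0_60_10q, f_w516_528_0_60_10q, f_w528_540_0_60_10q, f_w540_552_0_60_10q, f_w492_504_0_70_10q, f_w576_600_0_60_0q, f_w480_492_0_60_10q, f_w480_492_4_60_10q, f_w552_564_0_60_10q, f_w552_576_0_60_0q, f_w564_576_0_60_10q, f_w600_624_0_60_0q, f_w624_648_0_60_0q, f_w648_672_0_60_0q, f_w672_696_0_60_0q, f_w696_720_0_60_0q, f_w720_744_0_60_0q, f_w744_768_0_60_0q, f_w480_492_4_60_30q, f_w492_504_0_50_20q, f_w576_588_0_60_10q, f_w588_600_0_60_10q]) (t := t68)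
    (all_cons p279 (all_cons p302 (all_cons p337 (all_cons p411 (all_cons p412 all_nil)))))
    (all_cons z2323P (all_cons z2324P (all_cons z2338P (all_cons z2339P (all_cons z2327P (all_cons z2341P (all_cons z2313P (all_cons z2314P (all_cons z2315P (all_cons z2316P (all_cons z2317P (all_cons z2318P (all_cons z2319P (all_cons z2320P (all_cons z2321P (all_cons z2322P (all_cons z2325P (all_cons z2326P (all_cons z2328P (all_cons z2329P (all_cons z2330P (all_cons z2331P (all_cons z2332P (all_cons z2333P (all_cons z2334P (all_cons z2335P (all_cons z2336P (all_cons z2337P (all_cons z2340P (all_cons z2342P (all_cons z2343P all_nil)))))))))))))))))))))))))))))))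
    (all_cons f_w504_516_0_60_10q_p (all_cons f_w516_528_0_60_10q_p (all_cons f_w528_540_0_60_10q_p (all_cons f_w540_552_0_60_10q_p (all_cons f_w492_504_0_70_10q_p (all_cons f_w576_600_0_60_0q_p (all_cons f_w480_492_0_60_10q_p (all_cons f_w480_492_4_60_10q_p (all_cons f_w552_564_0_60_10q_p (all_cons f_w552_576_0_60_0q_p (all_cons f_w564_576_0_60_10q_p (all_cons f_w600_624_0_60_0q_p (all_cons f_w624_648_0_60_0q_p (all_cons f_w648_672_0_60_0q_p (all_cons f_w672_696_0_60_0q_p (all_cons f_w696_720_0_60_0q_p (all_cons f_w720_744_0_60_0q_p (all_cons f_w744_768_0_60_0q_p (all_cons f_w480_492_4_60_30q_p (all_cons f_w492_504_0_50_20q_p (all_cons f_w576_588_0_60_10q_p (all_cons f_w588_600_0_60_10q_p all_nil))))))))))))))))))))))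
    (by decide +kernel)
def t69 : Tree := (.sR 2880 (.sR 2784 (.sg 12 (.sR 2496 (.sR 2400 (.sr 2944 (.sR 2208 (.sg 10 (.sR 2112 (.sR 2016 (.sR 1968 (.leaf 0x4003404038260021000000000a8401004) (.leaf 0x380c0002800d11000000009c001008)) (.sR 2064 (.leaf 0x3800008280001100000000a0001008) (.leaf 0x3c0000c280001180000000a4001008))) (.leaf 0x44000102800c1280000000ac001008)) (.sR 2112 (.sR 2016 (.sR 1968 (.leaf 0x4003404004260001000000000a4401004) (.leaf 0x380c0002800f1100000000a4001008)) (.sR 2064 (.leaf 0x3800008280001100000000a0001008) (.leaf 0x3c0000c280001180000000a4001008))) (.leaf 0x44000102800e1280000000a8001008))) (.sR 2304 (.leaf 0x4c140142800a1380000000a0001008) (.leaf 0x54000282800b1480000000a4001008))) (.sR 2208 (.sR 2112 (.sg 10 (.sR 2016 (.sR 1968 (.leaf 0x4003804004260041080000000b0401004) (.leaf 0x380c0002801411000000009c001008)) (.leaf 0x4003c0801c280131180000000b0401006)) (.sR 2016 (.sR 1968 (.leaf 0x4003404004260051000000000a0401004) (.leaf 0x400380c000280161100000000a8401006)) (.leaf 0x3c0801c280151180000000ac001008)))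 (.leaf 0x4400010280101280000000a4001008)) (.sR 2304 (.leaf 0x5014014280111400000000a0001008) (.leaf 0x5400028280121480000000a0001008)))) (.leaf 0x5818048280061500000000a8001008)) (.sR 2592 (.leaf 0x641404c280071680000000a4001008) (.sR 2688 (.leaf 0x6800018280081700000000a4001008) (.leaf 0x740005028009188000000094001008)))) (.sR 2688 (.sr 2944 (.sR 2400 (.sR 2304 (.sg 14 (.sR 2208 (.sR 2064 (.sR 1968 (.leaf 0x4003800004240031000000000b0401004) (.sR 2016 (.leaf 0x400380c0002801d1100000000b0401006) (.leaf 0x4003800008280011100000000ac401006))) (.sR 2112 (.leaf 0x3c0000c280011180000000ac001008) (.sR 2160 (.leaf 0x4000020280021200000000a0001008) (.leaf 0x4400024280021280000000a0001008)))) (.leaf 0x4c140142801c1380000000a0001008)) (.sR 2112 (.sR 2016 (.sR 1968 (.leaf 0x45c340c03c260001000000000b044d044) (.leaf 0x400340c0002801e1080000000a0401006)) (.sR 2064 (.leaf 0x4003800008280011100000000ac401006) (.leaf 0x3c0000c280011180000000ac001008))) (.sR 2208 (.sR 2160 (.leaf 0x4000020280021200000000a0001008) (.leaf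 0x4400024280021280000000a0001008)) (.sR 2256 (.leaf 0x480004028003130000000098001008) (.leaf 0x5000044280031400000000a4001008))))) (.leaf 0x541402c280181480000000a8001008)) (.sR 2496 (.leaf 0x5c00030280191580000000a0001008) (.sR 2592 (.leaf 0x68000342801a1700000000a4001008) (.leaf 0x70000182801b18000000008c001008)))) (.sR 2400 (.sR 2208 (.sg 14 (.sR 2112 (.sR 2016 (.sR 1968 (.leaf 0x4003800004240061000000000a8401004) (.leaf 0x400340c000280251080000000a0401006)) (.sR 2064 (.leaf 0x3800008280041100000000a4001008) (.leaf 0x3c0000c280041180000000a8001008))) (.leaf 0x4400010280241280000000a8001008)) (.sR 2112 (.sR 2016 (.sR 1968 (.leaf 0x4003800004240071000000000b0401004) (.leaf 0x400340c000280271080000000a0401006)) (.sR 2064 (.leaf 0x4003800008280051100000000b0401006) (.leaf 0x4003c0000c280051180000000b0401006))) (.leaf 0x4400010280261280000000ac001008))) (.sR 2304 (.leaf 0x4c140142801f1380000000a0001008) (.leaf 0x581402c280201500000000a0001008))) (.sR 2496 (.leaf 0x5c00030280211580000000a0001008) (.sR 2592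 (.leaf 0x68000342802217000000009c001008) (.leaf 0x740001828023188000000098001008))))) (.leaf 0x701c054280171800000000a0001008))) (.leaf 0x88000582000119000000009c001007)) (.sR 2976 (.leaf 0xa40005c1e0011c0000000090001007) (.leaf 3)))
theorem k69 : ChunkP 4 4 2816 3072 8 16 1920 3072 :=
  chkY_sound (Q := 40) (C := [c529.c, c532.c, c528.c, c530.c, c638.c, c639.c, c640.c, c641.c]) (Z := [z2352, z2369, z2370, z2372, z2380, z2383, z2344, z2345, z2346, z2347, z2348, z2349, z2350, z2351, z2353, z2354, z2355, z2356, z2357, z2358, z2359, z2360, z2361, z2362, z2363, z2364, z2365, z2366, z2367, z2368, z2371, z2373, z2374, z2375, z2376, z2377, z2378, z2379, z2381, z2382])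
    (T := [f_w492_504_0_70_10q, f_w480_492_0_70_10q, f_w504_516_0_60_10q, f_w516_528_0_60_10q, f_w528_552_0_70_10q, f_w552_576_0_70_10q, f_w648_672_0_60_0q, f_w504_528_0_70_10q, f_w528_540_0_60_10q, f_w540_552_0_60_10q, f_w576_600_0_60_0q, f_w576_600_0_70_0q, f_w600_624_0_60_0q, f_w624_648_0_60_0q, f_w480_492_0_60_10q, f_w480_492_4_60_40q, f_w552_564_0_60_10q, f_w564_576_0_60_10q, f_w600_624_0_70_10q, f_w624_648_0_70_10q, f_w672_696_0_60_0q, f_w672_696_0_70_10q, f_w696_720_0_60_20q, f_w720_744_0_60_0q]) (t := t69)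
    (all_cons p529 (all_cons p532 (all_cons p528 (all_cons p530 (all_cons p638 (all_cons p639 (all_cons p640 (all_cons p641 all_nil))))))))
    (all_cons z2352P (all_cons z2369P (all_cons z2370P (all_cons z2372P (all_cons z2380P (all_cons z2383P (all_cons z2344P (all_cons z2345P (all_cons z2346P (all_cons z2347P (all_cons z2348P (all_cons z2349P (all_cons z2350P (all_cons z2351P (all_cons z2353P (all_cons z2354P (all_cons z2355P (all_cons z2356P (all_cons z2357P (all_cons z2358P (all_cons z2359P (all_cons z2360P (all_cons z2361P (all_cons z2362P (all_cons z2363P (all_cons z2364P (all_cons z2365P (all_cons z2366P (all_cons z2367P (all_cons z2368P (all_cons z2371P (all_cons z2373P (all_cons z2374P (all_cons z2375P (all_cons z2376P (all_cons z2377P (all_cons z2378P (all_cons z2379P (all_cons z2381P (all_cons z2382P all_nil))))))))))))))))))))))))))))))))))))))))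
    (all_cons f_w492_504_0_70_10q_p (all_cons f_w480_492_0_70_10q_p (all_cons f_w504_516_0_60_10q_p (all_cons f_w516_528_0_60_10q_p (all_cons f_w528_552_0_70_10q_p (all_cons f_w552_576_0_70_10q_p (all_cons f_w648_672_0_60_0q_p (all_cons f_w504_528_0_70_10q_p (all_cons f_w528_540_0_60_10q_p (all_cons f_w540_552_0_60_10q_p (all_cons f_w576_600_0_60_0q_p (all_cons f_w576_600_0_70_0q_p (all_cons f_w600_624_0_60_0q_p (all_cons f_w624_648_0_60_0q_p (all_cons f_w480_492_0_60_10q_p (all_cons f_w480_492_4_60_40q_p (all_cons f_w552_564_0_60_10q_p (all_cons f_w564_576_0_60_10q_p (all_cons f_w600_624_0_70_10q_p (all_cons f_w624_648_0_70_10q_p (all_cons f_w672_696_0_60_0q_p (all_cons f_w672_696_0_70_10q_p (all_cons f_w696_720_0_60_20q_p (all_cons f_w720_744_0_60_0q_p all_nil))))))))))))))))))))))))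
    (by decide +kernel)
def t70 : Tree := (.sr 2688 (.sR 2880 (.sR 2784 (.sg 18 (.sR 2496 (.sR 2400 (.sR 2160 (.sR 2016 (.sR 1968 (.sr 2624 (.leaf 0x4003404000260001000000000a8401004) (.leaf 0x4003404000260021000000000a8401004)) (.leaf 0x4003400038280111080000000a0401006)) (.sR 2064 (.leaf 0x4003800004280061100000000ac401006) (.sR 2112 (.leaf 0x3c00008280121180000000a0001008) (.leaf 0x400000c280001200000000a0001008)))) (.sR 2256 (.sR 2208 (.leaf 0x4400010280001280000000a4001008) (.leaf 0x4c00014280011380000000ac001008)) (.sR 2304 (.leaf 0x4c000182800113800000009c001008) (.sR 2352 (.leaf 0x540001c280021480000000a4001008) (.leaf 0x5800020280021500000000a4001008))))) (.leaf 0x5c000242800d1580000000a8001008)) (.sR 2592 (.leaf 0x64000282800e168000000098001008) (.sR 2688 (.leaf 0x680002c2800f1700000000a4001008) (.leaf 0x7000030280101800000000a0001008)))) (.sR 2496 (.sR 2400 (.sR 2160 (.sR 2016 (.sR 1968 (.sr 2624 (.leaf 0x4003800000240011000000000b0401004) (.leaf 0x4003800000240031000000000b0401004)) (.leaf 0x4003400048280171080000000b0401006))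 (.sR 2064 (.leaf 0x4003800004280061100000000b0401006) (.sR 2112 (.leaf 0x3c00008280181180000000a8001008) (.leaf 0x400000c280001200000000a0001008)))) (.sR 2256 (.sR 2208 (.leaf 0x4400010280001280000000a4001008) (.leaf 0x4800014280011300000000a0001008)) (.sR 2304 (.leaf 0x4c00018280011380000000a4001008) (.sR 2352 (.leaf 0x500001c2800214000000009c001008) (.leaf 0x54000202800214800000009c001008))))) (.leaf 0x5800024280131500000000a8001008)) (.sR 2592 (.leaf 0x6000028280141600000000a4001008) (.sR 2688 (.leaf 0x680002c280151700000000a4001008) (.leaf 0x740003028016188000000094001008))))) (.leaf 0x780003c2800a19000000009c001008)) (.sR 2976 (.leaf 0x84140402800b1a8000000098001008) (.leaf 0x98100442800c1d0000000090001008))) (.sR 2784 (.sR 2592 (.sg 18 (.sR 2400 (.sR 2160 (.sR 2016 (.sR 1968 (.sr 2752 (.leaf 0x4003800000240051000000000ac401004) (.leaf 0x4003800000240071000000000ac401004)) (.leaf 0x400340c04c2801f1080000000ac401006)) (.sR 2064 (.leaf 0x4003800004280081100000000a8401006) (.sR 2112 (.leaf 0x3c00008280081180000000ac001008)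 (.leaf 0x400000c280051200000000a8001008)))) (.sR 2256 (.sR 2208 (.leaf 0x4400010280051280000000ac001008) (.leaf 0x4800014280031300000000a4001008)) (.sR 2304 (.leaf 0x4c00018280031380000000a0001008) (.sR 2352 (.leaf 0x540001c280041480000000a8001008) (.leaf 0x5800020280041500000000a4001008))))) (.sR 2496 (.leaf 0x5c000242801e1580000000a4001008) (.leaf 0x6000028280071600000000a4001008))) (.sR 2400 (.sR 2160 (.sR 2016 (.sR 1968 (.sr 2752 (.leaf 0x45c3808034240041000000000a844d044) (.leaf 0x45c3808034240061000000000a844d044)) (.leaf 0x4003400038280211080000000ac401006)) (.sR 2064 (.leaf 0x4003800004280091100000000a8401006) (.sR 2112 (.leaf 0x3c00008280091180000000ac001008) (.leaf 0x400000c280051200000000ac001008)))) (.sR 2256 (.sR 2208 (.leaf 0x4400010280221280000000a4001008) (.leaf 0x4800014280031300000000a8001008)) (.sR 2304 (.leaf 0x4c00018280031380000000a4001008) (.sR 2352 (.leaf 0x500001c2800414000000009c001008) (.leaf 0x540002028004148000000098001008))))) (.sR 2496 (.leaf 0x5800024280201500000000a8001008)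 (.leaf 0x6000028280071600000000a4001008)))) (.sR 2688 (.leaf 0x680002c280191700000000a4001008) (.leaf 0x78000302801a1900000000a0001008))) (.sR 2880 (.leaf 0x840003c2801b1a8000000090001008) (.sR 2976 (.leaf 0x90140402801c1c000000007c001008) (.leaf 0x98100442801d1d0000000054001008)))))
theorem k70 : ChunkP 4 4 2560 2816 16 20 1920 3072 :=
  chkY_sound (Q := 40) (C := [c280.c, c281.c, c338.c, c339.c, c393.c, c394.c, c457.c, c458.c]) (Z := [z2394, z2395, z2396, z2413, z2414, z2412, z2392, z2409, z2411, z2417, z2384, z2385, z2386, z2387, z2388, z2389, z2390, z2391, z2393, z2397, z2398, z2399, z2400, z2401, z2402, z2403, z2404, z2405, z2406, z2407, z2408, z2410, z2415, z2416, z2418])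
    (T := [f_w480_492_0_60_10q, f_w504_516_0_60_10q, f_w516_528_0_60_10q, f_w528_540_0_60_10q, f_w540_552_0_60_10q, f_w552_564_0_60_10q, f_w564_576_0_60_10q, f_w576_588_0_60_10q, f_w588_600_0_60_10q, f_w600_624_0_60_0q, f_w624_648_0_60_0q, f_w648_672_0_60_0q, f_w672_696_0_60_0q, f_w480_492_4_60_10q, f_w492_504_0_60_20q, f_w696_720_0_60_0q, f_w720_744_0_60_0q, f_w744_768_0_60_0q, f_w492_504_0_50_20q, f_w492_504_0_70_10q]) (t := t70)
    (all_cons p280 (all_cons p281 (all_cons p338 (all_cons p339 (all_cons p393 (all_cons p394 (all_cons p457 (all_cons p458 all_nil))))))))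
    (all_cons z2394P (all_cons z2395P (all_cons z2396P (all_cons z2413P (all_cons z2414P (all_cons z2412P (all_cons z2392P (all_cons z2409P (all_cons z2411P (all_cons z2417P (all_cons z2384P (all_cons z2385P (all_cons z2386P (all_cons z2387P (all_cons z2388P (all_cons z2389P (all_cons z2390P (all_cons z2391P (all_cons z2393P (all_cons z2397P (all_cons z2398P (all_cons z2399P (all_cons z2400P (all_cons z2401P (all_cons z2402P (all_cons z2403P (all_cons z2404P (all_cons z2405P (all_cons z2406P (all_cons z2407P (all_cons z2408P (all_cons z2410P (all_cons z2415P (all_cons z2416P (all_cons z2418P all_nil)))))))))))))))))))))))))))))))))))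
    (all_cons f_w480_492_0_60_10q_p (all_cons f_w504_516_0_60_10q_p (all_cons f_w516_528_0_60_10q_p (all_cons f_w528_540_0_60_10q_p (all_cons f_w540_552_0_60_10q_p (all_cons f_w552_564_0_60_10q_p (all_cons f_w564_576_0_60_10q_p (all_cons f_w576_588_0_60_10q_p (all_cons f_w588_600_0_60_10q_p (all_cons f_w600_624_0_60_0q_p (all_cons f_w624_648_0_60_0q_p (all_cons f_w648_672_0_60_0q_p (all_cons f_w672_696_0_60_0q_p (all_cons f_w480_492_4_60_10q_p (all_cons f_w492_504_0_60_20q_p (all_cons f_w696_720_0_60_0q_p (all_cons f_w720_744_0_60_0q_p (all_cons f_w744_768_0_60_0q_p (all_cons f_w492_504_0_50_20q_p (all_cons f_w492_504_0_70_10q_p all_nil))))))))))))))))))))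
    (by decide +kernel)
def t71 : Tree := (.sg 22 (.sR 2688 (.sR 2496 (.sR 2208 (.sR 2064 (.sR 1968 (.sr 2624 (.leaf 0x45c340c000260001000000000a844d044) (.leaf 0x45c3808000240021000000000a844d044)) (.sR 2016 (.leaf 0x40034000042800f1080000000a0401006) (.leaf 0x4003800008280101100000000ac401006))) (.sR 2112 (.leaf 0x3c0000c280111180000000a0001008) (.sR 2160 (.leaf 0x40000102800012000000009c001008) (.leaf 0x4400014280001280000000a0001008)))) (.sR 2352 (.sR 2256 (.leaf 0x4c00018280011380000000a8001008) (.sR 2304 (.leaf 0x4c0001c2800113800000009c001008) (.leaf 0x4c00020280021380000000ac001008))) (.sR 2400 (.leaf 0x5800024280121500000000a4001008) (.sR 2448 (.leaf 0x5400028280031480000000a8001008) (.leaf 0x580002c280031500000000a8001008))))) (.sR 2592 (.leaf 0x60000442800a1600000000a4001008) (.sR 2640 (.leaf 0x6400030280041680000000a4001008) (.leaf 0x6800034280041700000000a4001008)))) (.sR 2880 (.sR 2784 (.leaf 0x70000502800b1800000000a0001008) (.leaf 0x7c000582800c198000000094001008)) (.sR 2976 (.leaf 0x88140382800d1b0000000094001008)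 (.leaf 0x881003c2800e1b000000009c001008)))) (.sR 2880 (.sR 2784 (.sR 2352 (.sR 2112 (.sR 2016 (.sR 1968 (.sr 2624 (.leaf 0x45c3808000240011000000000a844d044) (.leaf 0x45c3808000240031000000000a844d044)) (.leaf 0x4003400004280161080000000a8401006)) (.sR 2064 (.leaf 0x3800008280051100000000a4001008) (.leaf 0x3c0000c280051180000000ac001008))) (.sR 2208 (.sR 2160 (.leaf 0x4000010280061200000000a4001008) (.leaf 0x4400014280061280000000a8001008)) (.sR 2256 (.leaf 0x4800018280071300000000a0001008) (.sR 2304 (.leaf 0x4c0001c280071380000000a8001008) (.leaf 0x4c00020280021380000000ac001008))))) (.sR 2544 (.sR 2448 (.sR 2400 (.leaf 0x5400024280171480000000a0001008) (.leaf 0x5400028280181480000000a8001008)) (.sR 2496 (.leaf 0x580002c280191500000000a8001008) (.leaf 0x5c00040280081580000000a8001008))) (.sR 2640 (.sR 2592 (.leaf 0x6000048280081600000000a4001008) (.leaf 0x6400030280091680000000a4001008)) (.sR 2688 (.leaf 0x6800034280091700000000a4001008) (.sR 2736 (.leaf 0x6c0004c2801a1780000000a0001008) (.leaf 0x74000542801b188000000098001008))))))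 (.leaf 0x781005c2801319000000009c001008)) (.sR 2976 (.leaf 0x8014038280141a000000009c001008) (.leaf 0x901003c280151c0000000098001008))))
theorem k71 : ChunkP 4 4 2560 2688 20 24 1920 3072 :=
  chkY_sound (Q := 40) (C := [c280.c, c281.c, c338.c, c339.c]) (Z := [z2427, z2428, z2429, z2431, z2432, z2437, z2438, z2439, z2443, z2444, z2419, z2420, z2421, z2422, z2423, z2424, z2425, z2426, z2430, z2433, z2434, z2435, z2436, z2440, z2441, z2442, z2445, z2446])
    (T := [f_w480_492_4_60_10q, f_w492_504_0_60_20q, f_w504_516_0_60_10q, f_w516_528_0_60_10q, f_w528_540_0_60_10q, f_w540_552_0_60_10q, f_w552_564_0_60_10q, f_w564_576_0_60_10q, f_w576_588_0_60_10q, f_w588_600_0_60_10q, f_w600_612_0_50_20q, f_w612_624_0_50_20q, f_w648_660_0_50_10q, f_w660_672_0_50_10q, f_w720_744_0_60_0q, f_w744_768_0_60_0q, f_w624_636_0_60_10q, f_w624_648_0_60_0q, f_w636_648_0_60_10q, f_w672_684_0_50_10q, f_w672_696_0_60_0q, f_w684_696_0_50_10q, f_w696_720_0_60_0q, f_w696_720_0_60_20q]) (t := t71)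
    (all_cons p280 (all_cons p281 (all_cons p338 (all_cons p339 all_nil))))
    (all_cons z2427P (all_cons z2428P (all_cons z2429P (all_cons z2431P (all_cons z2432P (all_cons z2437P (all_cons z2438P (all_cons z2439P (all_cons z2443P (all_cons z2444P (all_cons z2419P (all_cons z2420P (all_cons z2421P (all_cons z2422P (all_cons z2423P (all_cons z2424P (all_cons z2425P (all_cons z2426P (all_cons z2430P (all_cons z2433P (all_cons z2434P (all_cons z2435P (all_cons z2436P (all_cons z2440P (all_cons z2441P (all_cons z2442P (all_cons z2445P (all_cons z2446P all_nil))))))))))))))))))))))))))))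
    (all_cons f_w480_492_4_60_10q_p (all_cons f_w492_504_0_60_20q_p (all_cons f_w504_516_0_60_10q_p (all_cons f_w516_528_0_60_10q_p (all_cons f_w528_540_0_60_10q_p (all_cons f_w540_552_0_60_10q_p (all_cons f_w552_564_0_60_10q_p (all_cons f_w564_576_0_60_10q_p (all_cons f_w576_588_0_60_10q_p (all_cons f_w588_600_0_60_10q_p (all_cons f_w600_612_0_50_20q_p (all_cons f_w612_624_0_50_20q_p (all_cons f_w648_660_0_50_10q_p (all_cons f_w660_672_0_50_10q_p (all_cons f_w720_744_0_60_0q_p (all_cons f_w744_768_0_60_0q_p (all_cons f_w624_636_0_60_10q_p (all_cons f_w624_648_0_60_0q_p (all_cons f_w636_648_0_60_10q_p (all_cons f_w672_684_0_50_10q_p (all_cons f_w672_696_0_60_0q_p (all_cons f_w684_696_0_50_10q_p (all_cons f_w696_720_0_60_0q_p (all_cons f_w696_720_0_60_20q_p all_nil))))))))))))))))))))))))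
    (by decide +kernel)

end Pool.Agent.Lib.MP_af3a4a_an.P1.CHK.DATA.N4s
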