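import Pool.Agent.Lib.MP_af3a4a_an.P1.CHK.SWP.Pay
import Pool.Agent.Lib.MP_af3a4a_an.P1.CHK.DATA.N4s.C0
import Pool.Agent.Lib.MP_af3a4a_an.P1.CHK.DATA.N4s.C1
import Pool.Agent.Lib.MP_af3a4a_an.P1.CHK.DATA.N4s.Z8
import Pool.Agent.Lib.MP_af3a4a_an.P1.CHK.DATA.F4.W480a
import Pool.Agent.Lib.MP_af3a4a_an.P1.CHK.DATA.F4.W480b
import Pool.Agent.Lib.MP_af3a4a_an.P1.CHK.DATA.F4.W528a
import Pool.Agent.Lib.MP_af3a4a_an.P1.CHK.DATA.F4.W528b
import Pool.Agent.Lib.MP_af3a4a_an.P1.CHK.DATA.F4.W576a
import Pool.Agent.Lib.MP_af3a4a_an.P1.CHK.DATA.F4.W624a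
import Pool.Agent.Lib.MP_af3a4a_an.P1.CHK.DATA.F4.W672a
import Pool.Agent.Lib.MP_af3a4a_an.P1.CHK.DATA.F4.W672b
import Pool.Agent.Lib.MP_af3a4a_an.P1.CHK.DATA.F4.W720a
import Pool.Agent.Lib.MP_af3a4a_an.P1.CHK.DATA.F4.W720b

/-! chunks for N = 4 (generated) -/

set_option autoImplicit false
set_option maxRecDepth 100000

namespace Pool.Agent.Lib.MP_af3a4a_an.P1.CHK.DATA.N4s

open BOX SWP

def t72 : Tree := (.sR 2880 (.sR 2784 (.sg 22 (.sR 2592 (.sR 2496 (.sR 2208 (.sR 2064 (.sR 2016 (.sr 2752 (.sR 1968 (.leaf 0x45c3808000240001000000000a844d044) (.leaf 0x40034000342800f1080000000b0401006)) (.sR 1968 (.leaf 0x45c3808000240021000000000a844d044) (.leaf 0x400340c004280101080000000a0401006))) (.leaf 0x40038000082800b1100000000b0401006)) (.sR 2112 (.leaf 0x4003c0000c2800c1180000000b0401006) (.sR 2160 (.leaf 0x4000010280011200000000a8001008) (.leaf 0x4400014280011280000000ac001008)))) (.sR 2352 (.sR 2256 (.leaf 0x4800018280021300000000a4001008) (.sR 2304 (.leaf 0x4c0001c280021380000000a4001008) (.leaf 0x4c00020280031380000000ac001008)))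 (.sR 2400 (.leaf 0x58000242800d1500000000a4001008) (.sR 2448 (.leaf 0x5800028280001500000000a4001008) (.leaf 0x58000382800e1500000000a8001008))))) (.leaf 0x6000044280081600000000a4001008)) (.sR 2688 (.leaf 0x6c0002c28009178000000098001008) (.leaf 0x70000302800a1800000000a0001008))) (.sR 2592 (.sR 2304 (.sR 2160 (.sR 2064 (.sr 2752 (.sR 1968 (.leaf 0x45c3808000240011000000000a844d044) (.sR 2016 (.leaf 0x400340c004280191080000000b0401006) (.leaf 0x4003800008280051100000000ac401006))) (.sR 1968 (.leaf 0x45c3808000240031000000000a844d044) (.sR 2016 (.leaf 0x400340c0042801a1080000000a8401006) (.leaf 0x4003800008280051100000000a8401006)))) (.sR 2112 (.leaf 0x3c0000c280131180000000a8001008) (.leaf 0x4000010280141200000000ac001008))) (.sR 2208 (.leaf 0x4400014280151280000000a4001008) (.sR 2256 (.leaf 0x4800018280161300000000ac001008) (.leaf 0x4c0001c28017138000000098001008)))) (.sR 2448 (.sR 2352 (.leaf 0x4c00020280031380000000ac001008) (.sR 2400 (.leaf 0x5800024280181500000000a4001008) (.leaf 0x5400028280001480000000a8001008)))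 (.sR 2496 (.leaf 0x580003c280001500000000a8001008) (.sR 2544 (.leaf 0x6000040280041600000000a0001008) (.leaf 0x64000482800416800000009c001008))))) (.sR 2688 (.leaf 0x680002c280111700000000a4001008) (.leaf 0x740003028012188000000094001008)))) (.leaf 0x780004c280061900000000a0001008)) (.sR 2976 (.leaf 0x8414050280071a8000000098001008) (.leaf 3)))
theorem k72 : ChunkP 4 4 2688 2816 20 24 1920 3072 :=
  chkY_sound (Q := 40) (C := [c394.c, c395.c, c458.c, c459.c]) (Z := [z2458, z2454, z2455, z2456, z2470, z2472, z2447, z2448, z2449, z2450, z2451, z2452, z2453, z2457, z2459, z2460, z2461, z2462, z2463, z2464, z2465, z2466, z2467, z2468, z2469, z2471, z2473])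
    (T := [f_w480_492_4_60_10q, f_w492_504_0_70_10q, f_w504_516_0_60_10q, f_w516_528_0_60_10q, f_w528_540_0_60_10q, f_w540_552_0_60_10q, f_w552_564_0_60_10q, f_w564_576_0_60_10q, f_w576_588_0_60_10q, f_w588_600_0_60_10q, f_w600_612_0_60_20q, f_w648_672_0_60_0q, f_w672_696_0_60_0q, f_w492_504_0_50_20q, f_w612_624_0_50_20q, f_w612_624_0_60_20q, f_w624_636_0_60_10q, f_w624_648_0_60_0q, f_w636_648_0_60_10q, f_w696_720_0_60_0q, f_w720_744_0_60_0q]) (t := t72)
    (all_cons p394 (all_cons p395 (all_cons p458 (all_cons p459 all_nil))))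
    (all_cons z2458P (all_cons z2454P (all_cons z2455P (all_cons z2456P (all_cons z2470P (all_cons z2472P (all_cons z2447P (all_cons z2448P (all_cons z2449P (all_cons z2450P (all_cons z2451P (all_cons z2452P (all_cons z2453P (all_cons z2457P (all_cons z2459P (all_cons z2460P (all_cons z2461P (all_cons z2462P (all_cons z2463P (all_cons z2464P (all_cons z2465P (all_cons z2466P (all_cons z2467P (all_cons z2468P (all_cons z2469P (all_cons z2471P (all_cons z2473P all_nil)))))))))))))))))))))))))))
    (all_cons f_w480_492_4_60_10q_p (all_cons f_w492_504_0_70_10q_p (all_cons f_w504_516_0_60_10q_p (all_cons f_w516_528_0_60_10q_p (all_cons f_w528_540_0_60_10q_p (all_cons f_w540_552_0_60_10q_p (all_cons f_w552_564_0_60_10q_p (all_cons f_w564_576_0_60_10q_p (all_cons f_w576_588_0_60_10q_p (all_cons f_w588_600_0_60_10q_p (all_cons f_w600_612_0_60_20q_p (all_cons f_w648_672_0_60_0q_p (all_cons f_w672_696_0_60_0q_p (all_cons f_w492_504_0_50_20q_p (all_cons f_w612_624_0_50_20q_p (all_cons f_w612_624_0_60_20q_p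 (all_cons f_w624_636_0_60_10q_p (all_cons f_w624_648_0_60_0q_p (all_cons f_w636_648_0_60_10q_p (all_cons f_w696_720_0_60_0q_p (all_cons f_w720_744_0_60_0q_p all_nil)))))))))))))))))))))
    (by decide +kernel)
def t73 : Tree := (.sR 2784 (.sr 2944 (.sR 2496 (.sR 2400 (.sg 18 (.sR 2304 (.sR 2112 (.sR 2016 (.sR 1968 (.leaf 0x45c380c00c240021000000000b044d044) (.leaf 0x400340c0002800e1080000000ac401006)) (.sR 2064 (.leaf 0x4003800040280011100000000ac401006) (.leaf 0x4003c00014280011180000000b0401006))) (.sR 2208 (.sR 2160 (.leaf 0x4000004280021200000000a0001008) (.leaf 0x4400008280021280000000a4001008)) (.sR 2256 (.leaf 0x4800018280001300000000a4001008) (.leaf 0x4c0001c2800013800000009c001008)))) (.leaf 0x54140202800d1480000000a4001008)) (.sR 2160 (.sR 2064 (.sR 2016 (.sr 2880 (.sR 1968 (.leaf 0x45c3808038240011000000000a844d044) (.leaf 0x400340c000280111080000000a0401006)) (.sR 1968 (.leaf 0x4003800034240041000000000b0401004) (.leaf 0x400340c000280121080000000ac401006))) (.leaf 0x40038100102800f1100000000b0401006))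 (.sR 2112 (.leaf 0x3c00014280101180000000a8001008) (.leaf 0x4000004280031200000000ac001008))) (.sR 2256 (.sR 2208 (.leaf 0x4400008280031280000000ac001008) (.leaf 0x4800018280001300000000a4001008)) (.sR 2304 (.leaf 0x4c0001c280001380000000a0001008) (.sR 2352 (.leaf 0x500004c28004140000000098001008) (.leaf 0x5800050280041500000000a0001008)))))) (.leaf 0x5800024280091500000000a8001008)) (.sR 2592 (.leaf 0x60000282800a1600000000a4001008) (.sR 2688 (.leaf 0x6c0002c2800b178000000098001008) (.leaf 0x7c000302800c1980000000a0001008)))) (.sR 2496 (.sR 2400 (.sg 18 (.sR 2208 (.sR 2064 (.sR 1968 (.leaf 0x45c380c00c240051000000000a844d044) (.sR 2016 (.leaf 0x400340c000280191080000000ac401006) (.leaf 0x38100102801a1100000000a4001008))) (.sR 2112 (.leaf 0x3c000142801b1180000000ac001008) (.sR 2160 (.leaf 0x4000004280051200000000a0001008) (.leaf 0x4400008280051280000000a0001008)))) (.sR 2304 (.leaf 0x4c14048280171380000000a4001008) (.leaf 0x5414020280181480000000a0001008))) (.sR 2304 (.sR 2112 (.sR 2016 (.sR 1968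 (.leaf 0x45c380c00c240001000000000a844d044) (.leaf 0x45c3c0c03c240001080000000ac44d044)) (.sR 2064 (.leaf 0x4003810010280061100000000b0401006) (.leaf 0x3c14044280061180000000ac001008))) (.sR 2208 (.sR 2160 (.leaf 0x4000004280071200000000ac001008) (.leaf 0x4400008280071280000000ac001008)) (.sR 2256 (.leaf 0x4800018280081300000000ac001008) (.leaf 0x4c0001c280081380000000a4001008)))) (.leaf 0x54140202801c14800000009c001008))) (.leaf 0x5800024280131500000000a8001008)) (.sR 2592 (.leaf 0x6400028280141680000000a4001008) (.sR 2688 (.leaf 0x700002c2801518000000009c001008) (.leaf 0x7c000302801619800000008c001008))))) (.leaf 0x8c000541e00319000000009c001007))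
theorem k73 : ChunkP 4 4 2816 3072 16 20 1920 2880 :=
  chkY_sound (Q := 40) (C := [c641.c, c513.c, c530.c, c533.c, c578.c, c640.c]) (Z := [z2482, z2480, z2481, z2485, z2486, z2498, z2500, z2501, z2502, z2474, z2475, z2476, z2477, z2478, z2479, z2483, z2484, z2487, z2488, z2489, z2490, z2491, z2492, z2493, z2494, z2495, z2496, z2497, z2499])
    (T := [f_w492_504_0_70_10q, f_w528_540_0_60_10q, f_w540_552_0_60_10q, f_w480_492_4_70_10q, f_w504_516_0_70_20q, f_w516_528_0_60_10q, f_w552_564_0_60_10q, f_w564_576_0_60_10q, f_w576_600_0_70_0q, f_w600_624_0_60_0q, f_w624_648_0_60_0q, f_w648_672_0_60_0q, f_w672_696_0_60_0q, f_w480_492_0_70_10q, f_w480_492_4_60_10q, f_w492_504_4_70_20q, f_w504_516_0_60_10q, f_w516_528_0_70_20q, f_w552_576_0_70_10q, f_w576_588_0_60_10q, f_w588_600_0_60_10q, f_w696_720_0_65_20q]) (t := t73)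
    (all_cons p641 (all_cons p513 (all_cons p530 (all_cons p533 (all_cons p578 (all_cons p640 all_nil))))))
    (all_cons z2482P (all_cons z2480P (all_cons z2481P (all_cons z2485P (all_cons z2486P (all_cons z2498P (all_cons z2500P (all_cons z2501P (all_cons z2502P (all_cons z2474P (all_cons z2475P (all_cons z2476P (all_cons z2477P (all_cons z2478P (all_cons z2479P (all_cons z2483P (all_cons z2484P (all_cons z2487P (all_cons z2488P (all_cons z2489P (all_cons z2490P (all_cons z2491P (all_cons z2492P (all_cons z2493P (all_cons z2494P (all_cons z2495P (all_cons z2496P (all_cons z2497P (all_cons z2499P all_nil)))))))))))))))))))))))))))))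
    (all_cons f_w492_504_0_70_10q_p (all_cons f_w528_540_0_60_10q_p (all_cons f_w540_552_0_60_10q_p (all_cons f_w480_492_4_70_10q_p (all_cons f_w504_516_0_70_20q_p (all_cons f_w516_528_0_60_10q_p (all_cons f_w552_564_0_60_10q_p (all_cons f_w564_576_0_60_10q_p (all_cons f_w576_600_0_70_0q_p (all_cons f_w600_624_0_60_0q_p (all_cons f_w624_648_0_60_0q_p (all_cons f_w648_672_0_60_0q_p (all_cons f_w672_696_0_60_0q_p (all_cons f_w480_492_0_70_10q_p (all_cons f_w480_492_4_60_10q_p (all_cons f_w492_504_4_70_20q_p (all_cons f_w504_516_0_60_10q_p (all_cons f_w516_528_0_70_20q_p (all_cons f_w552_576_0_70_10q_p (all_cons f_w576_588_0_60_10q_p (all_cons f_w588_600_0_60_10q_p (all_cons f_w696_720_0_65_20q_p all_nil))))))))))))))))))))))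
    (by decide +kernel)
def t74 : Tree := (.sr 2944 (.sR 2688 (.sR 2592 (.sg 22 (.sR 2400 (.sR 2208 (.sR 2112 (.sR 2064 (.sr 2880 (.sR 1968 (.leaf 0x45c3808004240011000000000a844d044) (.sR 2016 (.leaf 0x400380c00c2800e1100000000b0401006) (.leaf 0x4003c000002800f1180000000b0401006))) (.sR 1968 (.leaf 0x45c3808004240031000000000a844d044) (.sR 2016 (.leaf 0x400340c00c280101080000000a0401006) (.leaf 0x3800000280111100000000a0001008)))) (.leaf 0x4003c000082800d1180000000b0401006)) (.sR 2160 (.leaf 0x4000010280021200000000ac001008) (.leaf 0x4400014280021280000000ac001008))) (.sR 2304 (.sR 2256 (.leaf 0x4800024280031300000000a0001008) (.leaf 0x4c000182800313800000009c001008)) (.sR 2352 (.leaf 0x4c0001c280001380000000ac001008) (.leaf 0x5400020280001480000000a4001008)))) (.sR 2496 (.leaf 0x58000282800b1500000000a8001008) (.leaf 0x64000302800c16800000009c001008))) (.sR 2496 (.sR 2256 (.sR 2160 (.sR 2112 (.sr 2880 (.sR 2016 (.sR 1968 (.leaf 0x45c3808004240021000000000a844d044) (.leaf 0x400340c00c280151080000000a4401006))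 (.sR 2064 (.leaf 0x3c00000280161180000000ac001008) (.leaf 0x4000008280171200000000ac001008))) (.sR 2016 (.sR 1968 (.leaf 0x45c3808004240041000000000ac44d044) (.leaf 0x400340c00c280181080000000ac401006)) (.sR 2064 (.leaf 0x3800000280191100000000a0001008) (.leaf 0x4003c000082801a1180000000b0401006)))) (.leaf 0x4000010280131200000000ac001008)) (.sR 2208 (.sr 2880 (.leaf 0x4400014280061280000000ac001008) (.leaf 0x4400014280061280000000a4001008)) (.leaf 0x4800024280041300000000ac001008))) (.sR 2352 (.sR 2304 (.leaf 0x4c00018280041380000000a8001008) (.leaf 0x4c0001c280001380000000ac001008)) (.sR 2400 (.leaf 0x5800020280141500000000a8001008) (.sR 2448 (.leaf 0x580004c280051500000000a0001008) (.leaf 0x5c000502800515800000009c001008))))) (.leaf 0x6000030280121600000000a4001008))) (.leaf 0x6c0005c280081780000000a0001008)) (.sR 2784 (.leaf 0x7400034280091880000000a0001008) (.leaf 0x84000602800a1a800000009c001008))) (.sR 2592 (.sR 2496 (.sg 22 (.sR 2400 (.sR 2160 (.sR 2016 (.sR 1968 (.leaf 0x45c380c038240001000000000ac44d044)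 (.leaf 0x45c3c0c02c240001080000000ac44d044)) (.sR 2064 (.sr 3008 (.leaf 0x3800000280221100000000a0001008) (.leaf 0x4003800000280231100000000a8401006)) (.sR 2112 (.leaf 0x3c1403c2801f1180000000ac001008) (.leaf 0x4000040280201200000000a4001008)))) (.sR 2256 (.sR 2208 (.leaf 0x4400014280211280000000a4001008) (.leaf 0x4800024280071300000000ac001008)) (.sR 2304 (.leaf 0x4c00018280071380000000a4001008) (.sR 2352 (.leaf 0x4c0001c280011380000000ac001008) (.leaf 0x5400020280011480000000a4001008))))) (.leaf 0x58000282801e1500000000a8001008)) (.sR 2400 (.sR 2208 (.sR 2016 (.sR 1968 (.sr 3008 (.leaf 0x45c3808004240051000000000ac44d044) (.leaf 0x45c3808004240071000000000ac44d044)) (.leaf 0x45c400802c220061080000000b044d044)) (.sR 2160 (.sr 3008 (.sR 2064 (.leaf 0x3800000280291100000000a4001008) (.sR 2112 (.leaf 0x3c000082802a11800000009c001008) (.leaf 0x44000102802b1280000000ac001008))) (.sR 2064 (.leaf 0x38000002802c1100000000a4001008) (.sR 2112 (.leaf 0x3c000082802d1180000000a8001008) (.leaf 0x44000102802e1280000000ac001008))))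 (.leaf 0x4414044280251280000000a0001008))) (.sR 2304 (.sR 2256 (.leaf 0x4800048280261300000000a4001008) (.leaf 0x4c000182802713800000009c001008)) (.sR 2352 (.leaf 0x4c0001c280011380000000ac001008) (.leaf 0x540002028028148000000098001008)))) (.leaf 0x5800028280241500000000a8001008))) (.leaf 0x60140542801b1600000000a4001008)) (.sR 2688 (.leaf 0x68000582801c1700000000a4001008) (.sR 2784 (.leaf 0x78000342801d190000000098001008) (.leaf 3)))))
theorem k74 : ChunkP 4 4 2816 3072 20 24 1920 2880 :=
  chkY_sound (Q := 40) (C := [c642.c, c514.c, c515.c, c577.c, c578.c, c627.c, c643.c, c680.c]) (Z := [z2511, z2536, z2509, z2510, z2518, z2520, z2527, z2535, z2503, z2504, z2505, z2506, z2507, z2508, z2512, z2513, z2514, z2515, z2516, z2517, z2519, z2521, z2522, z2523, z2524, z2525, z2526, z2528, z2529, z2530, z2531, z2532, z2533, z2534, z2537, z2538, z2539, z2540, z2541, z2542, z2543, z2544, z2545, z2546, z2547, z2548, z2549])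
    (T := [f_w504_516_0_60_10q, f_w480_492_4_60_10q, f_w516_528_0_60_10q, f_w492_504_0_70_10q, f_w528_540_0_60_10q, f_w540_552_0_60_10q, f_w564_576_0_60_10q, f_w576_588_0_60_10q, f_w588_600_0_60_10q, f_w552_564_0_60_10q, f_w600_624_0_60_0q, f_w492_504_4_70_20q, f_w624_648_0_60_0q, f_w672_696_0_60_0q, f_w480_492_4_70_10q, f_w516_528_0_70_20q, f_w528_540_0_70_20q, f_w540_552_0_70_20q, f_w552_564_0_70_30q, f_w600_612_0_60_20q, f_w612_624_0_60_20q, f_w624_648_0_70_10q, f_w648_672_0_60_0q, f_w648_672_0_65_20q, f_w696_720_0_60_0q]) (t := t74)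
    (all_cons p642 (all_cons p514 (all_cons p515 (all_cons p577 (all_cons p578 (all_cons p627 (all_cons p643 (all_cons p680 all_nil))))))))
    (all_cons z2511P (all_cons z2536P (all_cons z2509P (all_cons z2510P (all_cons z2518P (all_cons z2520P (all_cons z2527P (all_cons z2535P (all_cons z2503P (all_cons z2504P (all_cons z2505P (all_cons z2506P (all_cons z2507P (all_cons z2508P (all_cons z2512P (all_cons z2513P (all_cons z2514P (all_cons z2515P (all_cons z2516P (all_cons z2517P (all_cons z2519P (all_cons z2521P (all_cons z2522P (all_cons z2523P (all_cons z2524P (all_cons z2525P (all_cons z2526P (all_cons z2528P (all_cons z2529P (all_cons z2530P (all_cons z2531P (all_cons z2532P (all_cons z2533P (all_cons z2534P (all_cons z2537P (all_cons z2538P (all_cons z2539P (all_cons z2540P (all_cons z2541P (all_cons z2542P (all_cons z2543P (all_cons z2544P (all_cons z2545P (all_cons z2546P (all_cons z2547P (all_cons z2548P (all_cons z2549P all_nil)))))))))))))))))))))))))))))))))))))))))))))))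
    (all_cons f_w504_516_0_60_10q_p (all_cons f_w480_492_4_60_10q_p (all_cons f_w516_528_0_60_10q_p (all_cons f_w492_504_0_70_10q_p (all_cons f_w528_540_0_60_10q_p (all_cons f_w540_552_0_60_10q_p (all_cons f_w564_576_0_60_10q_p (all_cons f_w576_588_0_60_10q_p (all_cons f_w588_600_0_60_10q_p (all_cons f_w552_564_0_60_10q_p (all_cons f_w600_624_0_60_0q_p (all_cons f_w492_504_4_70_20q_p (all_cons f_w624_648_0_60_0q_p (all_cons f_w672_696_0_60_0q_p (all_cons f_w480_492_4_70_10q_p (all_cons f_w516_528_0_70_20q_p (all_cons f_w528_540_0_70_20q_p (all_cons f_w540_552_0_70_20q_p (all_cons f_w552_564_0_70_30q_p (all_cons f_w600_612_0_60_20q_p (all_cons f_w612_624_0_60_20q_p (all_cons f_w624_648_0_70_10q_p (all_cons f_w648_672_0_60_0q_p (all_cons f_w648_672_0_65_20q_p (all_cons f_w696_720_0_60_0q_p all_nil)))))))))))))))))))))))))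
    (by decide +kernel)
def t75 : Tree := (.sR 2976 (.leaf 0xa0000001c0001b000000009c001007) (.leaf 3))
theorem k75 : ChunkP 4 4 2816 3072 16 24 2880 3072 :=
  chkY_sound (Q := 40) (C := [c534.c]) (Z := [])
    (T := [f_w720_744_0_65_15q]) (t := t75)
    (all_cons p534 all_nil)
    all_nil
    (all_cons f_w720_744_0_65_15q_p all_nil)
    (by decide +kernel)
def t76 : Tree := (.sg 26 (.sR 2880 (.sR 2400 (.sR 2160 (.sR 2016 (.sR 1968 (.sr 2624 (.leaf 0x45c3808000240001000000000b044d044) (.leaf 0x45c3808000240021000000000ac44d044)) (.leaf 0x4003400048280061080000000b0401006)) (.sR 2064 (.leaf 0x400380000c280071100000000ac401006) (.sR 2112 (.leaf 0x4003c00010280081180000000b0401006) (.leaf 0x4000004280091200000000ac001008)))) (.sR 2256 (.sR 2208 (.leaf 0x44000142800a12800000009c001008) (.leaf 0x48000182800b1300000000a8001008)) (.sR 2304 (.leaf 0x4c0001c2800c13800000009c001008) (.sR 2352 (.leaf 0x50000202800d1400000000a8001008) (.leaf 0x58000242800e1500000000a4001008))))) (.sR 2640 (.sR 2496 (.sR 2448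 (.leaf 0x54000282800f1480000000a8001008) (.leaf 0x5c0002c280101580000000a8001008)) (.sR 2544 (.leaf 0x60000302800016000000009c001008) (.sR 2592 (.leaf 0x6400034280001680000000a0001008) (.leaf 0x6400038280111680000000a4001008)))) (.sR 2736 (.sR 2688 (.leaf 0x680003c280121700000000a4001008) (.leaf 0x7800040280131900000000a0001008)) (.sR 2784 (.leaf 0x7400044280141880000000a0001008) (.sR 2832 (.leaf 0x740004c280151880000000a0001008) (.leaf 0x78000542801619000000009c001008)))))) (.sR 2976 (.leaf 0x8000060280041a00000000a0001008) (.leaf 0x940006c280051c8000000094001008))) (.sR 2976 (.sR 2448 (.sR 2208 (.sR 2064 (.sR 2016 (.sr 2624 (.sR 1968 (.leaf 0x45c3808000240011000000000b044d044) (.leaf 0x4003800008280271100000000b0401006)) (.sR 1968 (.leaf 0x45c3808000240031000000000b044d044) (.leaf 0x4003400008280281080000000a4401006))) (.leaf 0x400380000c280181100000000b0401006)) (.sR 2112 (.leaf 0x3c00010280191180000000a4001008) (.sR 2160 (.sr 2624 (.leaf 0x4000004280031200000000ac001008) (.leaf 0x4000004280031200000000a0001008))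 (.leaf 0x44000142801a1280000000a4001008)))) (.sR 2304 (.sR 2256 (.leaf 0x48000182801b1300000000ac001008) (.leaf 0x4c0001c2801c1380000000a4001008)) (.sR 2352 (.leaf 0x4c000202801d1380000000ac001008) (.sR 2400 (.leaf 0x54000242801e1480000000a0001008) (.leaf 0x54000282801f1480000000a8001008))))) (.sR 2688 (.sR 2544 (.sR 2496 (.leaf 0x580002c280201500000000a8001008) (.leaf 0x5c00030280011580000000a8001008)) (.sR 2592 (.leaf 0x6000034280011600000000a4001008) (.sR 2640 (.leaf 0x6400038280211680000000a4001008) (.leaf 0x680003c280221700000000a4001008)))) (.sR 2832 (.sR 2736 (.leaf 0x6c00040280231780000000a0001008) (.sR 2784 (.leaf 0x7000044280241800000000a0001008) (.leaf 0x78000502800219000000009c001008))) (.sR 2880 (.leaf 0x8000058280021a000000009c001008) (.sR 2928 (.leaf 0x7c0005c2802519800000009c001008) (.leaf 0x8000064280261a000000009c001008)))))) (.leaf 0x9400068280171c8000000098001008)))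
theorem k76 : ChunkP 4 4 2560 2688 24 28 1920 3072 :=
  chkY_sound (Q := 40) (C := [c282.c, c283.c, c340.c, c341.c]) (Z := [z2563, z2580, z2585, z2590, z2550, z2551, z2552, z2553, z2554, z2555, z2556, z2557, z2558, z2559, z2560, z2561, z2562, z2564, z2565, z2566, z2567, z2568, z2569, z2570, z2571, z2572, z2573, z2574, z2575, z2576, z2577, z2578, z2579, z2581, z2582, z2583, z2584, z2586, z2587, z2588, z2589])
    (T := [f_w480_492_4_60_10q, f_w528_540_0_60_10q, f_w492_504_0_50_20q, f_w504_516_0_60_10q, f_w516_528_0_60_10q, f_w540_552_0_60_10q, f_w552_564_0_60_10q, f_w564_576_0_60_10q, f_w576_588_0_60_10q, f_w588_600_0_60_10q, f_w600_612_0_50_20q, f_w612_624_0_50_20q, f_w624_636_0_60_10q, f_w636_648_0_60_10q, f_w648_660_0_50_10q, f_w660_672_0_50_10q, f_w672_684_0_60_20q, f_w684_696_0_50_10q, f_w492_504_0_60_20q, f_w696_708_0_50_10q, f_w696_708_0_60_20q, f_w708_720_0_50_10q, f_w708_720_0_60_20q, f_w720_732_0_50_20q, f_w720_744_0_60_20q, f_w732_744_0_50_10q, f_w744_768_0_55_25q, f_w744_768_0_60_20q])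 (t := t76)
    (all_cons p282 (all_cons p283 (all_cons p340 (all_cons p341 all_nil))))
    (all_cons z2563P (all_cons z2580P (all_cons z2585P (all_cons z2590P (all_cons z2550P (all_cons z2551P (all_cons z2552P (all_cons z2553P (all_cons z2554P (all_cons z2555P (all_cons z2556P (all_cons z2557P (all_cons z2558P (all_cons z2559P (all_cons z2560P (all_cons z2561P (all_cons z2562P (all_cons z2564P (all_cons z2565P (all_cons z2566P (all_cons z2567P (all_cons z2568P (all_cons z2569P (all_cons z2570P (all_cons z2571P (all_cons z2572P (all_cons z2573P (all_cons z2574P (all_cons z2575P (all_cons z2576P (all_cons z2577P (all_cons z2578P (all_cons z2579P (all_cons z2581P (all_cons z2582P (all_cons z2583P (all_cons z2584P (all_cons z2586P (all_cons z2587P (all_cons z2588P (all_cons z2589P all_nil)))))))))))))))))))))))))))))))))))))))))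
    (all_cons f_w480_492_4_60_10q_p (all_cons f_w528_540_0_60_10q_p (all_cons f_w492_504_0_50_20q_p (all_cons f_w504_516_0_60_10q_p (all_cons f_w516_528_0_60_10q_p (all_cons f_w540_552_0_60_10q_p (all_cons f_w552_564_0_60_10q_p (all_cons f_w564_576_0_60_10q_p (all_cons f_w576_588_0_60_10q_p (all_cons f_w588_600_0_60_10q_p (all_cons f_w600_612_0_50_20q_p (all_cons f_w612_624_0_50_20q_p (all_cons f_w624_636_0_60_10q_p (all_cons f_w636_648_0_60_10q_p (all_cons f_w648_660_0_50_10q_p (all_cons f_w660_672_0_50_10q_p (all_cons f_w672_684_0_60_20q_p (all_cons f_w684_696_0_50_10q_p (all_cons f_w492_504_0_60_20q_p (all_cons f_w696_708_0_50_10q_p (all_cons f_w696_708_0_60_20q_p (all_cons f_w708_720_0_50_10q_p (all_cons f_w708_720_0_60_20q_p (all_cons f_w720_732_0_50_20q_p (all_cons f_w720_744_0_60_20q_p (all_cons f_w732_744_0_50_10q_p (all_cons f_w744_768_0_55_25q_p (all_cons f_w744_768_0_60_20q_p all_nil))))))))))))))))))))))))))))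
    (by decide +kernel)
def t77 : Tree := (.sR 2976 (.sg 26 (.sR 2784 (.sR 2688 (.sR 2400 (.sR 2256 (.sR 2160 (.sr 2752 (.sR 2016 (.sR 1968 (.leaf 0x45c3808000240001000000000ac44d044) (.leaf 0x4003400018280131080000000a8401006)) (.sR 2064 (.leaf 0x3c00004280141180000000ac001008) (.sR 2112 (.leaf 0x3c00008280021180000000ac001008) (.leaf 0x480000c280151300000000a8001008)))) (.sR 2016 (.sR 1968 (.leaf 0x45c3808000240031000000000ac44d044) (.leaf 0x400340001c280161080000000a4401006)) (.sR 2064 (.leaf 0x4003c00004280171180000000b0401006) (.sR 2112 (.leaf 0x3c00008280021180000000a8001008) (.leaf 0x400000c280181200000000a8001008))))) (.sR 2208 (.leaf 0x44000102800c1280000000ac001008) (.leaf 0x4800020280001300000000a8001008))) (.sR 2304 (.leaf 0x4c00014280001380000000ac001008) (.sR 2352 (.leaf 0x4c000242800d1380000000ac001008) (.leaf 0x54000282800e1480000000a0001008)))) (.sR 2544 (.sR 2448 (.leaf 0x540002c280011480000000a8001008) (.sR 2496 (.leaf 0x5800030280011500000000a8001008) (.leaf 0x5c000342800f1580000000a8001008)))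 (.sR 2592 (.leaf 0x6800038280101700000000a0001008) (.sR 2640 (.leaf 0x680003c28011170000000094001008) (.leaf 0x6800044280121700000000a4001008))))) (.leaf 0x7000050280091800000000a0001008)) (.sR 2880 (.leaf 0x80000402800a1a000000009c001008) (.leaf 0x8c140582800b1b8000000094001008))) (.sR 2784 (.sR 2448 (.sR 2304 (.sR 2208 (.sr 2752 (.sR 2064 (.sR 1968 (.sg 27 (.leaf 0x45c3808000240011000000000a844d044) (.leaf 0x45c3808000240021000000000a844d044)) (.sR 2016 (.leaf 0x40034000182801d1080000000ac401006) (.leaf 0x3c000042801e1180000000a4001008))) (.sR 2112 (.leaf 0x40000082801f1200000000a8001008) (.sR 2160 (.leaf 0x400000c280071200000000ac001008) (.leaf 0x48000102802013000000009c001008)))) (.sR 2064 (.sR 1968 (.sg 27 (.leaf 0x45c3808000240041000000000a844d044) (.leaf 0x45c3808000240051000000000ac44d044)) (.sR 2016 (.leaf 0x400340001c280211080000000ac401006) (.leaf 0x3800004280221100000000a0001008))) (.sR 2112 (.leaf 0x4003c00008280231180000000b0401006) (.sR 2160 (.leaf 0x400000c280071200000000a4001008)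 (.leaf 0x4400010280241280000000a8001008))))) (.sR 2256 (.leaf 0x48000202801a1300000000ac001008) (.sr 2752 (.leaf 0x4c00014280081380000000ac001008) (.leaf 0x4c000142800813800000009c001008)))) (.sR 2352 (.leaf 0x4c000242801b1380000000ac001008) (.sR 2400 (.leaf 0x54000282801c1480000000a4001008) (.leaf 0x580002c280031500000000a0001008)))) (.sR 2592 (.sR 2496 (.leaf 0x5c00030280031580000000a4001008) (.sR 2544 (.leaf 0x6400034280041680000000a4001008) (.leaf 0x6800038280041700000000a4001008))) (.sR 2688 (.sR 2640 (.leaf 0x680003c2800517000000009c001008) (.leaf 0x6c000482800517800000009c001008)) (.sR 2736 (.leaf 0x6c0004c280061780000000a0001008) (.leaf 0x7400054280061880000000a0001008))))) (.sR 2880 (.leaf 0x78000402801919000000009c001008) (.leaf 3)))) (.leaf 3))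
theorem k77 : ChunkP 4 4 2688 2816 24 28 1920 3072 :=
  chkY_sound (Q := 40) (C := [c396.c, c397.c, c398.c, c460.c, c461.c, c462.c]) (Z := [z2595, z2598, z2605, z2614, z2615, z2616, z2617, z2621, z2627, z2591, z2592, z2593, z2594, z2596, z2597, z2599, z2600, z2601, z2602, z2603, z2604, z2606, z2607, z2608, z2609, z2610, z2611, z2612, z2613, z2618, z2619, z2620, z2622, z2623, z2624, z2625, z2626])
    (T := [f_w480_492_4_60_10q, f_w504_516_0_60_10q, f_w516_528_0_60_10q, f_w528_540_0_60_10q, f_w540_552_0_60_10q, f_w564_576_0_60_10q, f_w492_504_0_50_20q, f_w492_504_0_60_20q, f_w552_564_0_60_10q, f_w576_588_0_60_10q, f_w588_600_0_60_10q, f_w600_612_0_60_20q, f_w612_624_0_60_20q, f_w624_636_0_60_10q, f_w636_648_0_60_10q, f_w648_660_0_60_30q, f_w696_720_0_60_0q, f_w660_672_0_50_10q, f_w660_672_0_60_30q, f_w672_684_0_60_20q, f_w672_696_0_60_0q, f_w684_696_0_60_20q, f_w720_744_0_60_0q]) (t := t77)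
    (all_cons p396 (all_cons p397 (all_cons p398 (all_cons p460 (all_cons p461 (all_cons p462 all_nil))))))
    (all_cons z2595P (all_cons z2598P (all_cons z2605P (all_cons z2614P (all_cons z2615P (all_cons z2616P (all_cons z2617P (all_cons z2621P (all_cons z2627P (all_cons z2591P (all_cons z2592P (all_cons z2593P (all_cons z2594P (all_cons z2596P (all_cons z2597P (all_cons z2599P (all_cons z2600P (all_cons z2601P (all_cons z2602P (all_cons z2603P (all_cons z2604P (all_cons z2606P (all_cons z2607P (all_cons z2608P (all_cons z2609P (all_cons z2610P (all_cons z2611P (all_cons z2612P (all_cons z2613P (all_cons z2618P (all_cons z2619P (all_cons z2620P (all_cons z2622P (all_cons z2623P (all_cons z2624P (all_cons z2625P (all_cons z2626P all_nil)))))))))))))))))))))))))))))))))))))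
    (all_cons f_w480_492_4_60_10q_p (all_cons f_w504_516_0_60_10q_p (all_cons f_w516_528_0_60_10q_p (all_cons f_w528_540_0_60_10q_p (all_cons f_w540_552_0_60_10q_p (all_cons f_w564_576_0_60_10q_p (all_cons f_w492_504_0_50_20q_p (all_cons f_w492_504_0_60_20q_p (all_cons f_w552_564_0_60_10q_p (all_cons f_w576_588_0_60_10q_p (all_cons f_w588_600_0_60_10q_p (all_cons f_w600_612_0_60_20q_p (all_cons f_w612_624_0_60_20q_p (all_cons f_w624_636_0_60_10q_p (all_cons f_w636_648_0_60_10q_p (all_cons f_w648_660_0_60_30q_p (all_cons f_w696_720_0_60_0q_p (all_cons f_w660_672_0_50_10q_p (all_cons f_w660_672_0_60_30q_p (all_cons f_w672_684_0_60_20q_p (all_cons f_w672_696_0_60_0q_p (all_cons f_w684_696_0_60_20q_p (all_cons f_w720_744_0_60_0q_p all_nil)))))))))))))))))))))))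
    (by decide +kernel)

end Pool.Agent.Lib.MP_af3a4a_an.P1.CHK.DATA.N4s
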