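import Pool.Agent.Lib.MP_af3a4a_an.P1.CHK.SWP.Pay
import Pool.Agent.Lib.MP_af3a4a_an.P1.CHK.DATA.N4s.C0
import Pool.Agent.Lib.MP_af3a4a_an.P1.CHK.DATA.N4s.C1
import Pool.Agent.Lib.MP_af3a4a_an.P1.CHK.DATA.N4s.Z8
import Pool.Agent.Lib.MP_af3a4a_an.P1.CHK.DATA.N4s.Z9
import Pool.Agent.Lib.MP_af3a4a_an.P1.CHK.DATA.F4.W480a
import Pool.Agent.Lib.MP_af3a4a_an.P1.CHK.DATA.F4.W480b
import Pool.Agent.Lib.MP_af3a4a_an.P1.CHK.DATA.F4.W528a
import Pool.Agent.Lib.MP_af3a4a_an.P1.CHK.DATA.F4.W528b
import Pool.Agent.Lib.MP_af3a4a_an.P1.CHK.DATA.F4.W576a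
import Pool.Agent.Lib.MP_af3a4a_an.P1.CHK.DATA.F4.W624a
import Pool.Agent.Lib.MP_af3a4a_an.P1.CHK.DATA.F4.W672a
import Pool.Agent.Lib.MP_af3a4a_an.P1.CHK.DATA.F4.W672b
import Pool.Agent.Lib.MP_af3a4a_an.P1.CHK.DATA.F4.W720a

/-! chunks for N = 4 (generated) -/

set_option autoImplicit false
set_option maxRecDepth 100000

namespace Pool.Agent.Lib.MP_af3a4a_an.P1.CHK.DATA.N4s

open BOX SWP

def t78 : Tree := (.sg 30 (.sR 2496 (.sR 2208 (.sR 2112 (.sR 2064 (.sr 2624 (.sR 1968 (.sg 29 (.leaf 0x45c3808000240001000000000a844d044) (.leaf 0x45c3808000240011000000000b044d044)) (.sR 2016 (.leaf 0x38000042801311000000009c001008) (.leaf 0x4003800008280001100000000b0401006))) (.sR 1968 (.sg 29 (.leaf 0x45c3808000240041000000000ac44d044) (.leaf 0x45c3808000240051000000000ac44d044)) (.sR 2016 (.leaf 0x4003400004280141080000000a4401006) (.leaf 0x4003800008280001100000000ac401006)))) (.leaf 0x3c00028280051180000000ac001008)) (.sR 2160 (.sr 2624 (.leaf 0x48000182801513000000009c001008) (.leaf 0x4000018280161200000000a8001008))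 (.leaf 0x440001c280061280000000ac001008))) (.sR 2352 (.sR 2304 (.sr 2624 (.sR 2256 (.leaf 0x5400020280171480000000a0001008) (.leaf 0x4c0000c280011380000000a8001008)) (.sR 2256 (.leaf 0x4800020280181300000000ac001008) (.leaf 0x4c0000c2800113800000009c001008))) (.leaf 0x4c0002c280071380000000ac001008)) (.sR 2400 (.sr 2624 (.leaf 0x5400010280021480000000a8001008) (.leaf 0x5800010280021500000000a4001008)) (.sR 2448 (.leaf 0x5400044280081480000000a8001008) (.leaf 0x5800030280091500000000a8001008))))) (.sR 2736 (.sR 2592 (.sR 2544 (.leaf 0x5c000242800a1580000000a8001008) (.leaf 0x600004c2800b1600000000a4001008)) (.sR 2640 (.leaf 0x64000342800c1680000000a4001008) (.sR 2688 (.sr 2624 (.leaf 0x780001428019190000000094001008) (.leaf 0x68000142801a1700000000a4001008)) (.leaf 0x6c000382800d1780000000a4001008)))) (.sR 2832 (.sR 2784 (.leaf 0x700003c2800e1800000000a0001008) (.leaf 0x74000542800f1880000000a0001008)) (.sR 2880 (.leaf 0x780005c280101900000000a0001008) (.sR 2928 (.leaf 0x8000064280111a000000009c001008)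 (.leaf 0x8000068280121a00000000a0001008)))))) (.sR 2496 (.sR 2256 (.sR 2112 (.sR 2064 (.sr 2624 (.sR 1968 (.sg 31 (.leaf 0x45c3808000240021000000000b044d044) (.leaf 0x45c3808000240031000000000b044d044)) (.sR 2016 (.leaf 0x4003400004280041080000000ac401006) (.leaf 0x4000008280271200000000a4001008))) (.sR 1968 (.sg 31 (.leaf 0x45c3808000240061000000000b044d044) (.leaf 0x45c3808000240071000000000b044d044)) (.sR 2016 (.leaf 0x4003400004280041080000000ac401006) (.leaf 0x3c00008280281180000000ac001008)))) (.leaf 0x4003c000282801b1180000000b0401006)) (.sR 2160 (.leaf 0x40000182801c1200000000ac001008) (.sR 2208 (.sr 2624 (.leaf 0x4c0001c280291380000000a8001008) (.leaf 0x440001c2802a1280000000ac001008)) (.leaf 0x48000202801d1300000000a8001008)))) (.sR 2352 (.sR 2304 (.sr 2624 (.leaf 0x540000c2802b1480000000a4001008) (.leaf 0x4c0000c2802c1380000000ac001008)) (.leaf 0x4c0002c280031380000000ac001008)) (.sR 2400 (.sr 2624 (.leaf 0x5c000102802d15800000009c001008) (.leaf 0x5400010280031480000000a8001008)) (.sR 2448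 (.leaf 0x54000402801e1480000000a8001008) (.leaf 0x58000302801f1500000000a8001008))))) (.sR 2736 (.sR 2592 (.sR 2544 (.sr 2624 (.leaf 0x70000242802e18000000009c001008) (.leaf 0x5c000242802f1580000000a8001008)) (.leaf 0x6000048280201600000000a4001008)) (.sR 2640 (.leaf 0x6400034280211680000000a4001008) (.sR 2688 (.sr 2624 (.leaf 0x7c0001428030198000000088001008) (.leaf 0x6800014280311700000000a4001008)) (.leaf 0x6c00038280221780000000a4001008)))) (.sR 2832 (.sR 2784 (.leaf 0x700003c280231800000000a0001008) (.leaf 0x7400050280241880000000a0001008)) (.sR 2880 (.leaf 0x7800058280251900000000a0001008) (.sR 2928 (.leaf 0x7c000602802619800000009c001008) (.leaf 3)))))))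
theorem k78 : ChunkP 4 4 2560 2688 28 32 1920 2976 :=
  chkY_sound (Q := 40) (C := [c284.c, c285.c, c286.c, c287.c, c342.c, c343.c, c344.c, c345.c]) (Z := [z2643, z2648, z2650, z2656, z2666, z2628, z2629, z2630, z2631, z2632, z2633, z2634, z2635, z2636, z2637, z2638, z2639, z2640, z2641, z2642, z2644, z2645, z2646, z2647, z2649, z2651, z2652, z2653, z2654, z2655, z2657, z2658, z2659, z2660, z2661, z2662, z2663, z2664, z2665, z2667, z2668, z2669, z2670, z2671, z2672, z2673, z2674, z2675, z2676, z2677])
    (T := [f_w480_492_4_60_10q, f_w492_504_0_50_20q, f_w504_516_0_60_10q, f_w564_576_0_60_10q, f_w588_600_0_60_10q, f_w660_672_0_50_10q, f_w528_540_0_60_10q, f_w540_552_0_60_10q, f_w552_564_0_60_10q, f_w624_636_0_60_10q, f_w516_528_0_60_10q, f_w576_588_0_60_10q, f_w612_624_0_50_20q, f_w648_660_0_50_10q, f_w672_684_0_50_10q, f_w684_696_0_50_30q, f_w600_612_0_50_20q, f_w600_612_0_60_20q, f_w636_648_0_50_10q, f_w636_648_0_60_10q, f_w696_708_0_55_30q, f_w696_708_0_60_20q, f_w708_720_0_50_10q, f_w708_720_0_50_30q,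 f_w720_732_0_50_30q, f_w720_732_0_60_20q, f_w732_744_0_50_20q]) (t := t78)
    (all_cons p284 (all_cons p285 (all_cons p286 (all_cons p287 (all_cons p342 (all_cons p343 (all_cons p344 (all_cons p345 all_nil))))))))
    (all_cons z2643P (all_cons z2648P (all_cons z2650P (all_cons z2656P (all_cons z2666P (all_cons z2628P (all_cons z2629P (all_cons z2630P (all_cons z2631P (all_cons z2632P (all_cons z2633P (all_cons z2634P (all_cons z2635P (all_cons z2636P (all_cons z2637P (all_cons z2638P (all_cons z2639P (all_cons z2640P (all_cons z2641P (all_cons z2642P (all_cons z2644P (all_cons z2645P (all_cons z2646P (all_cons z2647P (all_cons z2649P (all_cons z2651P (all_cons z2652P (all_cons z2653P (all_cons z2654P (all_cons z2655P (all_cons z2657P (all_cons z2658P (all_cons z2659P (all_cons z2660P (all_cons z2661P (all_cons z2662P (all_cons z2663P (all_cons z2664P (all_cons z2665P (all_cons z2667P (all_cons z2668P (all_cons z2669P (all_cons z2670P (all_cons z2671P (all_cons z2672P (all_cons z2673P (all_cons z2674P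 (all_cons z2675P (all_cons z2676P (all_cons z2677P all_nil))))))))))))))))))))))))))))))))))))))))))))))))))
    (all_cons f_w480_492_4_60_10q_p (all_cons f_w492_504_0_50_20q_p (all_cons f_w504_516_0_60_10q_p (all_cons f_w564_576_0_60_10q_p (all_cons f_w588_600_0_60_10q_p (all_cons f_w660_672_0_50_10q_p (all_cons f_w528_540_0_60_10q_p (all_cons f_w540_552_0_60_10q_p (all_cons f_w552_564_0_60_10q_p (all_cons f_w624_636_0_60_10q_p (all_cons f_w516_528_0_60_10q_p (all_cons f_w576_588_0_60_10q_p (all_cons f_w612_624_0_50_20q_p (all_cons f_w648_660_0_50_10q_p (all_cons f_w672_684_0_50_10q_p (all_cons f_w684_696_0_50_30q_p (all_cons f_w600_612_0_50_20q_p (all_cons f_w600_612_0_60_20q_p (all_cons f_w636_648_0_50_10q_p (all_cons f_w636_648_0_60_10q_p (all_cons f_w696_708_0_55_30q_p (all_cons f_w696_708_0_60_20q_p (all_cons f_w708_720_0_50_10q_p (all_cons f_w708_720_0_50_30q_p (all_cons f_w720_732_0_50_30q_p (all_cons f_w720_732_0_60_20q_p (all_cons f_w732_744_0_50_20q_p all_nil)))))))))))))))))))))))))))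
    (by decide +kernel)
def t79 : Tree := (.sR 2880 (.sg 30 (.sR 2784 (.sR 2496 (.sR 2352 (.sR 2304 (.sr 2752 (.sR 2112 (.sR 2016 (.sR 1968 (.sg 29 (.leaf 0x45c3808000240011000000000ac44d044) (.leaf 0x45c3808000240021000000000ac44d044)) (.leaf 0x4003400044280091080000000b0401006)) (.sR 2064 (.leaf 0x3c000042800a1180000000a8001008) (.leaf 0x3c000082800b11800000009c001008))) (.sR 2208 (.sR 2160 (.leaf 0x440000c2800c1280000000a0001008) (.leaf 0x4c000102800d1380000000a4001008)) (.sR 2256 (.leaf 0x50000142800e1400000000a8001008) (.leaf 0x54000182800f148000000098001008)))) (.sR 2112 (.sR 2016 (.sR 1968 (.sg 29 (.leaf 0x45c3808000240051000000000ac44d044) (.leaf 0x45c3808000240061000000000ac44d044)) (.leaf 0x4003400020280101080000000a0401006)) (.sR 2064 (.leaf 0x4003800004280111100000000a8401006) (.leaf 0x3c000082801211800000009c001008))) (.sR 2208 (.sR 2160 (.leaf 0x400000c280131200000000ac001008) (.leaf 0x4800010280141300000000a4001008)) (.sR 2256 (.leaf 0x4800014280151300000000ac001008) (.leaf 0x4c00018280161380000000a8001008)))))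 (.leaf 0x4c00024280001380000000ac001008)) (.sR 2400 (.sr 2752 (.leaf 0x600001c28017160000000098001008) (.leaf 0x540001c280001480000000a4001008)) (.sR 2448 (.leaf 0x5400028280011480000000a8001008) (.leaf 0x5800048280011500000000a8001008)))) (.sR 2640 (.sR 2544 (.leaf 0x600002c280021600000000a4001008) (.sR 2592 (.leaf 0x6000030280021600000000a4001008) (.leaf 0x6400034280031680000000a4001008))) (.sR 2688 (.leaf 0x6800038280031700000000a4001008) (.sR 2736 (.leaf 0x7c0003c280041980000000a0001008) (.leaf 0x8400054280041a8000000094001008))))) (.leaf 0x780005c2800819000000009c001008)) (.sR 2544 (.sR 2400 (.sR 2304 (.sr 2752 (.sR 2112 (.sR 2016 (.sR 1968 (.sg 31 (.leaf 0x45c3808000240031000000000ac44d044) (.sr 2720 (.leaf 0x45c3808000240001000000000a844d044) (.leaf 0x45c3808000240041000000000a844d044))) (.leaf 0x4003400020280201080000000a4401006)) (.sR 2064 (.leaf 0x3c00004280211180000000ac001008) (.leaf 0x4000008280221200000000a0001008))) (.sR 2208 (.sR 2160 (.leaf 0x440000c280231280000000a8001008) (.leaf 0x4c00010280241380000000ac001008))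 (.sR 2256 (.leaf 0x4c000142802513800000009c001008) (.leaf 0x4c00018280061380000000ac001008)))) (.sR 2112 (.sR 2016 (.sR 1968 (.sg 31 (.leaf 0x45c3808000240071000000000b044d044) (.leaf 0x45c3c04040220081000000000b044d044)) (.leaf 0x4003400020280261080000000a8401006)) (.sR 2064 (.leaf 0x4003c00004280271180000000b0401006) (.leaf 0x3c00008280281180000000a4001008))) (.sR 2208 (.sR 2160 (.leaf 0x440000c280291280000000a8001008) (.leaf 0x44000102802a1280000000a8001008)) (.sR 2256 (.leaf 0x48000142802b1300000000ac001008) (.leaf 0x4c00018280061380000000a0001008))))) (.sR 2352 (.leaf 0x4c00024280181380000000ac001008) (.sr 2752 (.leaf 0x540001c280071480000000a8001008) (.leaf 0x580001c280071500000000a4001008)))) (.sR 2448 (.leaf 0x5400028280191480000000a8001008) (.sR 2496 (.leaf 0x580004c2801a1500000000a8001008) (.leaf 0x5c0002c2801b1580000000a8001008)))) (.sR 2688 (.sR 2592 (.leaf 0x60000302801c1600000000a4001008) (.sR 2640 (.leaf 0x6800034280051700000000a0001008) (.leaf 0x6c00038280051780000000a0001008))) (.sR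 2784 (.sR 2736 (.leaf 0x6c0003c2801d1780000000a0001008) (.leaf 0x70000502801e1800000000a0001008)) (.sR 2832 (.leaf 0x84000582801f1b0000000090001008) (.leaf 3)))))) (.leaf 3))
theorem k79 : ChunkP 4 4 2688 2816 28 32 1920 2976 :=
  chkY_sound (Q := 40) (C := [c371.c, c399.c, c400.c, c401.c, c413.c, c463.c, c464.c, c465.c, c466.c]) (Z := [z2679, z2680, z2681, z2682, z2683, z2704, z2714, z2721, z2678, z2684, z2685, z2686, z2687, z2688, z2689, z2690, z2691, z2692, z2693, z2694, z2695, z2696, z2697, z2698, z2699, z2700, z2701, z2702, z2703, z2705, z2706, z2707, z2708, z2709, z2710, z2711, z2712, z2713, z2715, z2716, z2717, z2718, z2719, z2720])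
    (T := [f_w480_492_4_60_10q, f_w504_516_0_60_10q, f_w516_528_0_60_10q, f_w528_540_0_60_10q, f_w540_552_0_60_10q, f_w552_564_0_60_10q, f_w564_576_0_60_10q, f_w588_600_0_60_10q, f_w492_504_0_60_20q, f_w576_588_0_60_10q, f_w600_612_0_60_20q, f_w624_636_0_60_10q, f_w636_648_0_60_10q, f_w648_660_0_60_30q, f_w660_672_0_60_30q, f_w672_684_0_60_20q, f_w480_492_4_60_20q, f_w492_504_0_50_20q, f_w612_624_0_60_20q, f_w612_624_0_60_30q, f_w684_696_0_50_30q, f_w684_696_0_60_20q, f_w696_708_0_60_20q, f_w696_720_0_60_25q]) (t := t79)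
    (all_cons p371 (all_cons p399 (all_cons p400 (all_cons p401 (all_cons p413 (all_cons p463 (all_cons p464 (all_cons p465 (all_cons p466 all_nil)))))))))
    (all_cons z2679P (all_cons z2680P (all_cons z2681P (all_cons z2682P (all_cons z2683P (all_cons z2704P (all_cons z2714P (all_cons z2721P (all_cons z2678P (all_cons z2684P (all_cons z2685P (all_cons z2686P (all_cons z2687P (all_cons z2688P (all_cons z2689P (all_cons z2690P (all_cons z2691P (all_cons z2692P (all_cons z2693P (all_cons z2694P (all_cons z2695P (all_cons z2696P (all_cons z2697P (all_cons z2698P (all_cons z2699P (all_cons z2700P (all_cons z2701P (all_cons z2702P (all_cons z2703P (all_cons z2705P (all_cons z2706P (all_cons z2707P (all_cons z2708P (all_cons z2709P (all_cons z2710P (all_cons z2711P (all_cons z2712P (all_cons z2713P (all_cons z2715P (all_cons z2716P (all_cons z2717P (all_cons z2718P (all_cons z2719P (all_cons z2720P all_nil))))))))))))))))))))))))))))))))))))))))))))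
    (all_cons f_w480_492_4_60_10q_p (all_cons f_w504_516_0_60_10q_p (all_cons f_w516_528_0_60_10q_p (all_cons f_w528_540_0_60_10q_p (all_cons f_w540_552_0_60_10q_p (all_cons f_w552_564_0_60_10q_p (all_cons f_w564_576_0_60_10q_p (all_cons f_w588_600_0_60_10q_p (all_cons f_w492_504_0_60_20q_p (all_cons f_w576_588_0_60_10q_p (all_cons f_w600_612_0_60_20q_p (all_cons f_w624_636_0_60_10q_p (all_cons f_w636_648_0_60_10q_p (all_cons f_w648_660_0_60_30q_p (all_cons f_w660_672_0_60_30q_p (all_cons f_w672_684_0_60_20q_p (all_cons f_w480_492_4_60_20q_p (all_cons f_w492_504_0_50_20q_p (all_cons f_w612_624_0_60_20q_p (all_cons f_w612_624_0_60_30q_p (all_cons f_w684_696_0_50_30q_p (all_cons f_w684_696_0_60_20q_p (all_cons f_w696_708_0_60_20q_p (all_cons f_w696_720_0_60_25q_p all_nil))))))))))))))))))))))))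
    (by decide +kernel)
def t80 : Tree := (.leaf 3)
theorem k80 : ChunkP 4 4 2560 2816 28 32 2976 3072 :=
  chkY_sound (Q := 40) (C := []) (Z := [])
    (T := []) (t := t80)
    all_nil
    all_nil
    all_nil
    (by decide +kernel)
def t81 : Tree := (.sg 26 (.sR 2592 (.sR 2496 (.sR 2352 (.sR 2256 (.sr 2880 (.sR 2064 (.sR 1968 (.leaf 0x45c3808014240001000000000ac44d044) (.sR 2016 (.leaf 0x400340c020280091080000000b0401006) (.leaf 0x38000002800a1100000000a0001008))) (.sR 2160 (.sR 2112 (.leaf 0x3c000042800b1180000000a0001008) (.leaf 0x44000082800c1280000000a4001008)) (.sR 2208 (.leaf 0x4c0000c2800d1380000000ac001008) (.leaf 0x4800010280021300000000a8001008)))) (.sR 2064 (.sR 1968 (.leaf 0x45c3808014240021000000000b044d044) (.sR 2016 (.leaf 0x400340c0202800e1080000000ac401006) (.leaf 0x40038000002800f1100000000ac401006))) (.sR 2160 (.sR 2112 (.leaf 0x3c00004280101180000000a0001008) (.leaf 0x4000008280111200000000ac001008)) (.sR 2208 (.leaf 0x440000c280121280000000ac001008) (.leaf 0x4800010280021300000000a0001008)))))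 (.sR 2304 (.leaf 0x4c00024280081380000000a0001008) (.leaf 0x5000028280001400000000a8001008))) (.sR 2400 (.leaf 0x540002c280001480000000a4001008) (.sR 2448 (.leaf 0x5400030280011480000000a8001008) (.leaf 0x5800034280011500000000a8001008)))) (.leaf 0x6000040280051600000000a4001008)) (.sR 2688 (.leaf 0x6800048280061700000000a4001008) (.leaf 0x740003828007188000000090001008))) (.sR 2592 (.sR 2400 (.sR 2304 (.sR 2256 (.sr 2880 (.sR 2064 (.sR 1968 (.leaf 0x45c3808018240011000000000b044d044) (.sR 2016 (.leaf 0x400340001c280181080000000b0401006) (.leaf 0x3800000280191100000000a4001008))) (.sR 2160 (.sR 2112 (.leaf 0x40000042801a1200000000ac001008) (.leaf 0x44000082801b1280000000ac001008)) (.sR 2208 (.leaf 0x480000c2801c1300000000a0001008) (.leaf 0x50000102801d1400000000a4001008)))) (.sR 2064 (.sR 1968 (.leaf 0x45c3808018240031000000000b044d044) (.sR 2016 (.leaf 0x400340001c2801e1080000000b0401006) (.leaf 0x38000002801f1100000000a4001008))) (.sR 2160 (.sR 2112 (.leaf 0x3c00004280201180000000a8001008) (.leaf 0x40000082802112000000009c001008))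 (.sR 2208 (.leaf 0x440000c280221280000000a8001008) (.leaf 0x4800010280231300000000ac001008))))) (.leaf 0x4c00024280151380000000ac001008)) (.sR 2352 (.leaf 0x4c00028280161380000000ac001008) (.leaf 0x540002c2801714800000009c001008))) (.sR 2496 (.sR 2448 (.leaf 0x5800030280031500000000a8001008) (.leaf 0x5c00034280031580000000a4001008)) (.sR 2544 (.leaf 0x5c0003c280041580000000a8001008) (.leaf 0x6000044280041600000000a4001008)))) (.sR 2688 (.leaf 0x680004c280131700000000a4001008) (.leaf 0x74000382801418800000009c001008))))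
theorem k81 : ChunkP 4 4 2816 2944 24 28 1920 2784 :=
  chkY_sound (Q := 40) (C := [c516.c, c517.c, c579.c, c580.c]) (Z := [z2726, z2727, z2733, z2744, z2745, z2722, z2723, z2724, z2725, z2728, z2729, z2730, z2731, z2732, z2734, z2735, z2736, z2737, z2738, z2739, z2740, z2741, z2742, z2743, z2746, z2747, z2748, z2749, z2750, z2751, z2752, z2753, z2754, z2755, z2756, z2757])
    (T := [f_w504_516_0_60_10q, f_w516_528_0_60_10q, f_w528_540_0_60_10q, f_w540_552_0_60_10q, f_w552_564_0_60_10q, f_w480_492_4_60_10q, f_w480_492_4_60_20q, f_w492_504_0_60_20q, f_w492_504_0_70_10q, f_w564_576_0_60_10q, f_w576_588_0_60_10q, f_w588_600_0_60_10q, f_w600_612_0_60_20q, f_w612_624_0_60_20q, f_w672_696_0_60_0q, f_w624_636_0_60_10q, f_w624_648_0_65_25q, f_w636_648_0_60_10q, f_w648_672_0_60_0q, f_w648_672_0_60_30q]) (t := t81)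
    (all_cons p516 (all_cons p517 (all_cons p579 (all_cons p580 all_nil))))
    (all_cons z2726P (all_cons z2727P (all_cons z2733P (all_cons z2744P (all_cons z2745P (all_cons z2722P (all_cons z2723P (all_cons z2724P (all_cons z2725P (all_cons z2728P (all_cons z2729P (all_cons z2730P (all_cons z2731P (all_cons z2732P (all_cons z2734P (all_cons z2735P (all_cons z2736P (all_cons z2737P (all_cons z2738P (all_cons z2739P (all_cons z2740P (all_cons z2741P (all_cons z2742P (all_cons z2743P (all_cons z2746P (all_cons z2747P (all_cons z2748P (all_cons z2749P (all_cons z2750P (all_cons z2751P (all_cons z2752P (all_cons z2753P (all_cons z2754P (all_cons z2755P (all_cons z2756P (all_cons z2757P all_nil))))))))))))))))))))))))))))))))))))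
    (all_cons f_w504_516_0_60_10q_p (all_cons f_w516_528_0_60_10q_p (all_cons f_w528_540_0_60_10q_p (all_cons f_w540_552_0_60_10q_p (all_cons f_w552_564_0_60_10q_p (all_cons f_w480_492_4_60_10q_p (all_cons f_w480_492_4_60_20q_p (all_cons f_w492_504_0_60_20q_p (all_cons f_w492_504_0_70_10q_p (all_cons f_w564_576_0_60_10q_p (all_cons f_w576_588_0_60_10q_p (all_cons f_w588_600_0_60_10q_p (all_cons f_w600_612_0_60_20q_p (all_cons f_w612_624_0_60_20q_p (all_cons f_w672_696_0_60_0q_p (all_cons f_w624_636_0_60_10q_p (all_cons f_w624_648_0_65_25q_p (all_cons f_w636_648_0_60_10q_p (all_cons f_w648_672_0_60_0q_p (all_cons f_w648_672_0_60_30q_p all_nil))))))))))))))))))))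
    (by decide +kernel)
def t82 : Tree := (.sR 2592 (.sg 26 (.sR 2400 (.sR 2256 (.sR 2208 (.sr 3008 (.sR 2064 (.sR 1968 (.leaf 0x45c3808028240001000000000b044d044) (.sR 2016 (.leaf 0x45c3c08014240001080000000ac44d044) (.leaf 0x4003800000280081100000000ac401006))) (.sR 2112 (.leaf 0x3c00004280091180000000a0001008) (.sR 2160 (.leaf 0x44000082800a1280000000a8001008) (.leaf 0x480000c2800b1300000000a8001008)))) (.sR 2064 (.sR 1968 (.leaf 0x45c3808010240031000000000ac44d044) (.sR 2016 (.leaf 0x400340c02c2800c1080000000b0401006) (.leaf 0x40038000002800d1100000000ac401006))) (.sR 2112 (.leaf 0x3c000042800e1180000000a4001008) (.sR 2160 (.leaf 0x40000082800f1200000000a0001008) (.leaf 0x440000c280101280000000ac001008))))) (.leaf 0x4800018280041300000000ac001008)) (.sR 2304 (.leaf 0x4c0001c280051380000000a8001008) (.sR 2352 (.leaf 0x4c00020280061380000000ac001008) (.leaf 0x54000242800714800000009c001008)))) (.sR 2496 (.leaf 0x5818038280021500000000a8001008) (.leaf 0x600003c280031600000000a4001008))) (.sR 2400 (.sR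 2304 (.sr 3008 (.sR 2112 (.sR 2016 (.sR 1968 (.leaf 0x45c3808010240011000000000b044d044) (.leaf 0x45c3c08014240011080000000b044d044)) (.sR 2064 (.sg 27 (.leaf 0x3800000280181100000000a4001008) (.leaf 0x4003800000280191100000000a8401006)) (.leaf 0x3c00004280131180000000a8001008))) (.sR 2208 (.sR 2160 (.leaf 0x40000082801412000000009c001008) (.leaf 0x440000c2801512800000009c001008)) (.sR 2256 (.leaf 0x4c00018280161380000000a0001008) (.leaf 0x540001c280171480000000a0001008)))) (.sR 2112 (.sR 2016 (.sR 1968 (.leaf 0x45c3808010240021000000000b044d044) (.leaf 0x45c4004014220021080000000b044d044)) (.sR 2064 (.leaf 0x40038100302801a1100000000b0401006) (.leaf 0x3c000042801b1180000000ac001008))) (.sR 2208 (.sR 2160 (.leaf 0x40000082801c1200000000a8001008) (.leaf 0x440000c2801d12800000009c001008)) (.sR 2256 (.leaf 0x48000182801e1300000000ac001008) (.leaf 0x4c0001c2801f1380000000ac001008))))) (.sR 2352 (.leaf 0x4c00020280001380000000ac001008) (.leaf 0x5400024280001480000000a8001008))) (.sR 2496 (.leaf 0x5800034280111500000000a8001008)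 (.leaf 0x6000040280121600000000a4001008)))) (.sR 2688 (.leaf 0x6800044280011700000000a4001008) (.leaf 3)))
theorem k82 : ChunkP 4 4 2944 3072 24 28 1920 2784 :=
  chkY_sound (Q := 40) (C := [c628.c, c629.c, c682.c, c681.c]) (Z := [z2776, z2758, z2759, z2760, z2761, z2762, z2763, z2764, z2765, z2766, z2767, z2768, z2769, z2770, z2771, z2772, z2773, z2774, z2775, z2777, z2778, z2779, z2780, z2781, z2782, z2783, z2784, z2785, z2786, z2787, z2788, z2789])
    (T := [f_w504_516_0_60_10q, f_w516_528_0_60_10q, f_w528_540_0_60_10q, f_w540_552_0_60_10q, f_w480_492_4_60_20q, f_w492_504_4_60_20q, f_w552_564_0_60_10q, f_w564_576_0_60_10q, f_w576_588_0_60_10q, f_w588_600_0_60_10q, f_w480_492_4_60_10q, f_w492_504_0_70_10q, f_w504_516_0_70_20q, f_w600_624_0_65_30q, f_w600_624_0_70_10q, f_w624_648_0_60_0q, f_w624_648_0_60_30q, f_w648_672_0_65_20q]) (t := t82)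
    (all_cons p628 (all_cons p629 (all_cons p682 (all_cons p681 all_nil))))
    (all_cons z2776P (all_cons z2758P (all_cons z2759P (all_cons z2760P (all_cons z2761P (all_cons z2762P (all_cons z2763P (all_cons z2764P (all_cons z2765P (all_cons z2766P (all_cons z2767P (all_cons z2768P (all_cons z2769P (all_cons z2770P (all_cons z2771P (all_cons z2772P (all_cons z2773P (all_cons z2774P (all_cons z2775P (all_cons z2777P (all_cons z2778P (all_cons z2779P (all_cons z2780P (all_cons z2781P (all_cons z2782P (all_cons z2783P (all_cons z2784P (all_cons z2785P (all_cons z2786P (all_cons z2787P (all_cons z2788P (all_cons z2789P all_nil))))))))))))))))))))))))))))))))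
    (all_cons f_w504_516_0_60_10q_p (all_cons f_w516_528_0_60_10q_p (all_cons f_w528_540_0_60_10q_p (all_cons f_w540_552_0_60_10q_p (all_cons f_w480_492_4_60_20q_p (all_cons f_w492_504_4_60_20q_p (all_cons f_w552_564_0_60_10q_p (all_cons f_w564_576_0_60_10q_p (all_cons f_w576_588_0_60_10q_p (all_cons f_w588_600_0_60_10q_p (all_cons f_w480_492_4_60_10q_p (all_cons f_w492_504_0_70_10q_p (all_cons f_w504_516_0_70_20q_p (all_cons f_w600_624_0_65_30q_p (all_cons f_w600_624_0_70_10q_p (all_cons f_w624_648_0_60_0q_p (all_cons f_w624_648_0_60_30q_p (all_cons f_w648_672_0_65_20q_p all_nil))))))))))))))))))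
    (by decide +kernel)
def t83 : Tree := (.sg 30 (.sR 2688 (.sR 2448 (.sR 2352 (.sR 2304 (.sr 2880 (.sR 2112 (.sR 2016 (.sg 29 (.sR 1968 (.leaf 0x45c3808004240021000000000a844d044) (.leaf 0x4003400008280101080000000a8401006)) (.sR 1968 (.leaf 0x45c3808004240031000000000ac44d044) (.leaf 0x4003400008280111080000000ac401006))) (.sR 2064 (.leaf 0x40038000002800a1100000000a8401006) (.leaf 0x3c0000c2800b1180000000a0001008))) (.sR 2208 (.sR 2160 (.leaf 0x40000102800c1200000000a0001008) (.leaf 0x48000142800d1300000000a8001008)) (.sR 2256 (.leaf 0x50000182800e1400000000a8001008) (.leaf 0x540001c2800f1480000000a8001008)))) (.sR 2112 (.sR 2016 (.sR 1968 (.leaf 0x45c3c04044220001000000000b044d044) (.leaf 0x45c400404c220001080000000b044d044)) (.sR 2064 (.leaf 0x4003800000280121100000000ac401006) (.leaf 0x3c0000c280131180000000a0001008))) (.sR 2208 (.sR 2160 (.leaf 0x4000010280141200000000a4001008) (.leaf 0x4800014280151300000000a8001008)) (.sR 2256 (.leaf 0x4c00018280161380000000a8001008) (.leaf 0x4c0001c280171380000000a4001008)))))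 (.leaf 0x4c00024280081380000000ac001008)) (.sR 2400 (.leaf 0x5400020280091480000000a8001008) (.leaf 0x5400028280011480000000a8001008))) (.sR 2544 (.sR 2496 (.leaf 0x580002c280011500000000a8001008) (.leaf 0x6000030280021600000000a4001008)) (.sR 2592 (.leaf 0x6400034280021680000000a0001008) (.sR 2640 (.leaf 0x6400038280001680000000a4001008) (.leaf 0x740003c280001880000000a0001008))))) (.leaf 0x7000050280071800000000a0001008)) (.sR 2688 (.sR 2448 (.sR 2352 (.sR 2304 (.sr 2880 (.sR 2112 (.sR 2016 (.sR 1968 (.sg 31 (.leaf 0x45c3c04004220041000000000b044d044) (.leaf 0x45c3c04040220051000000000b044d044)) (.leaf 0x4003400008280191080000000ac401006)) (.sR 2064 (.sg 31 (.leaf 0x4003800000280061100000000b0401006) (.leaf 0x4003800000280061100000000b0401006)) (.leaf 0x3c0000c2801a1180000000a4001008))) (.sR 2208 (.sR 2160 (.leaf 0x44000102801b1280000000ac001008) (.leaf 0x48000142801c1300000000ac001008)) (.sR 2256 (.leaf 0x4c000182801d1380000000a0001008) (.leaf 0x500001c2801e1400000000a0001008)))) (.sR 2160 (.sR 2064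 (.sg 31 (.sR 1968 (.leaf 0x45c3c04004220061000000000b044d044) (.sR 2016 (.leaf 0x4003400008280241080000000b0401006) (.leaf 0x4003800000280251100000000b0401006))) (.sR 1968 (.leaf 0x45c3c04004220011000000000b044d044) (.sR 2016 (.leaf 0x45c4004048220011080000000b044d044) (.leaf 0x4003800000280261100000000a8401006)))) (.sR 2112 (.leaf 0x3c0000c2801f1180000000a8001008) (.leaf 0x4000010280201200000000ac001008))) (.sR 2208 (.leaf 0x44000142802112800000009c001008) (.sR 2256 (.leaf 0x4c00018280221380000000a0001008) (.leaf 0x500001c280231400000000a0001008))))) (.leaf 0x4c00024280031380000000ac001008)) (.sR 2400 (.sr 2880 (.leaf 0x5c000202802715800000009c001008) (.leaf 0x5400020280031480000000a8001008)) (.leaf 0x5400028280041480000000a8001008))) (.sR 2544 (.sR 2496 (.leaf 0x580002c280041500000000a8001008) (.leaf 0x5c00030280051580000000a8001008)) (.sR 2592 (.leaf 0x6000034280051600000000a4001008) (.sR 2640 (.leaf 0x700003828018180000000090001008) (.leaf 0x680003c280001700000000a4001008))))) (.leaf 3)))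
theorem k83 : ChunkP 4 4 2816 2944 28 32 1920 2784 :=
  chkY_sound (Q := 40) (C := [c581.c, c583.c, c518.c, c519.c, c520.c, c521.c, c582.c]) (Z := [z2795, z2793, z2794, z2810, z2811, z2812, z2820, z2790, z2791, z2792, z2796, z2797, z2798, z2799, z2800, z2801, z2802, z2803, z2804, z2805, z2806, z2807, z2808, z2809, z2813, z2814, z2815, z2816, z2817, z2818, z2819, z2821, z2822, z2823, z2824, z2825, z2826, z2827, z2828, z2829])
    (T := [f_w504_516_0_60_10q, f_w480_492_4_60_10q, f_w492_504_0_60_20q, f_w516_528_0_60_10q, f_w528_540_0_60_10q, f_w540_552_0_60_10q, f_w552_564_0_60_10q, f_w564_576_0_60_10q, f_w588_600_0_60_10q, f_w576_588_0_60_10q, f_w600_612_0_60_20q, f_w612_624_0_60_20q, f_w624_636_0_60_10q, f_w636_648_0_60_10q, f_w648_660_0_60_30q, f_w660_672_0_60_30q, f_w480_492_4_60_20q, f_w480_492_4_60_40q, f_w492_504_4_60_20q, f_w492_504_4_60_30q, f_w672_696_0_60_0q]) (t := t83)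
    (all_cons p581 (all_cons p583 (all_cons p518 (all_cons p519 (all_cons p520 (all_cons p521 (all_cons p582 all_nil)))))))
    (all_cons z2795P (all_cons z2793P (all_cons z2794P (all_cons z2810P (all_cons z2811P (all_cons z2812P (all_cons z2820P (all_cons z2790P (all_cons z2791P (all_cons z2792P (all_cons z2796P (all_cons z2797P (all_cons z2798P (all_cons z2799P (all_cons z2800P (all_cons z2801P (all_cons z2802P (all_cons z2803P (all_cons z2804P (all_cons z2805P (all_cons z2806P (all_cons z2807P (all_cons z2808P (all_cons z2809P (all_cons z2813P (all_cons z2814P (all_cons z2815P (all_cons z2816P (all_cons z2817P (all_cons z2818P (all_cons z2819P (all_cons z2821P (all_cons z2822P (all_cons z2823P (all_cons z2824P (all_cons z2825P (all_cons z2826P (all_cons z2827P (all_cons z2828P (all_cons z2829P all_nil))))))))))))))))))))))))))))))))))))))))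
    (all_cons f_w504_516_0_60_10q_p (all_cons f_w480_492_4_60_10q_p (all_cons f_w492_504_0_60_20q_p (all_cons f_w516_528_0_60_10q_p (all_cons f_w528_540_0_60_10q_p (all_cons f_w540_552_0_60_10q_p (all_cons f_w552_564_0_60_10q_p (all_cons f_w564_576_0_60_10q_p (all_cons f_w588_600_0_60_10q_p (all_cons f_w576_588_0_60_10q_p (all_cons f_w600_612_0_60_20q_p (all_cons f_w612_624_0_60_20q_p (all_cons f_w624_636_0_60_10q_p (all_cons f_w636_648_0_60_10q_p (all_cons f_w648_660_0_60_30q_p (all_cons f_w660_672_0_60_30q_p (all_cons f_w480_492_4_60_20q_p (all_cons f_w480_492_4_60_40q_p (all_cons f_w492_504_4_60_20q_p (all_cons f_w492_504_4_60_30q_p (all_cons f_w672_696_0_60_0q_p all_nil)))))))))))))))))))))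
    (by decide +kernel)

end Pool.Agent.Lib.MP_af3a4a_an.P1.CHK.DATA.N4s
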