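import Pool.Agent.Lib.MP_af3a4a_an.P1.CHK.SWP.Pay
import Pool.Agent.Lib.MP_af3a4a_an.P1.CHK.DATA.N4s.C0
import Pool.Agent.Lib.MP_af3a4a_an.P1.CHK.DATA.N4s.C1
import Pool.Agent.Lib.MP_af3a4a_an.P1.CHK.DATA.N4s.C2
import Pool.Agent.Lib.MP_af3a4a_an.P1.CHK.DATA.N4s.Z10
import Pool.Agent.Lib.MP_af3a4a_an.P1.CHK.DATA.N4s.Z9
import Pool.Agent.Lib.MP_af3a4a_an.P1.CHK.DATA.F4.W480a
import Pool.Agent.Lib.MP_af3a4a_an.P1.CHK.DATA.F4.W480b
import Pool.Agent.Lib.MP_af3a4a_an.P1.CHK.DATA.F4.W528a
import Pool.Agent.Lib.MP_af3a4a_an.P1.CHK.DATA.F4.W528b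
import Pool.Agent.Lib.MP_af3a4a_an.P1.CHK.DATA.F4.W576a
import Pool.Agent.Lib.MP_af3a4a_an.P1.CHK.DATA.F4.W624a
import Pool.Agent.Lib.MP_af3a4a_an.P1.CHK.DATA.F4.W672a
import Pool.Agent.Lib.MP_af3a4a_an.P1.CHK.DATA.F4.W672b

/-! chunks for N = 4 (generated) -/

set_option autoImplicit false
set_option maxRecDepth 100000

namespace Pool.Agent.Lib.MP_af3a4a_an.P1.CHK.DATA.N4s

open BOX SWP

def t84 : Tree := (.sR 2592 (.sg 30 (.sR 2496 (.sR 2352 (.sR 2304 (.sr 3008 (.sR 2112 (.sR 2016 (.sR 1968 (.leaf 0x45c3c0401c220001000000000b044d044) (.leaf 0x45c4004040220001080000000b044d044)) (.sR 2064 (.leaf 0x4003800004280051100000000b0401006) (.sg 29 (.leaf 0x4003c00000280021180000000b0401006) (.leaf 0x4003c00000280021180000000b0401006)))) (.sR 2208 (.sR 2160 (.leaf 0x4000008280061200000000a4001008) (.leaf 0x480000c280071300000000a8001008)) (.sR 2256 (.leaf 0x4c00010280081380000000a8001008) (.leaf 0x5400014280091480000000a8001008)))) (.sR 2112 (.sR 2016 (.sR 1968 (.leaf 0x45c3c0401c220031000000000b044d044) (.leaf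 0x45c4008024220031080000000ac44d044)) (.sR 2064 (.sg 29 (.leaf 0x40038000042800f1100000000b0401006) (.leaf 0x4003800028280101100000000ac401006)) (.leaf 0x4003c140442800a1180000000b0401006))) (.sR 2208 (.sR 2160 (.leaf 0x40000082800b1200000000a4001008) (.leaf 0x440000c2800c1280000000a4001008)) (.sR 2256 (.leaf 0x4c000102800d1380000000ac001008) (.leaf 0x50000142800e1400000000a4001008))))) (.leaf 0x4c0002c280001380000000ac001008)) (.sR 2400 (.sr 3008 (.leaf 0x5400030280111480000000a8001008) (.leaf 0x5400030280001480000000a4001008)) (.sR 2448 (.leaf 0x5800034280011500000000a8001008) (.leaf 0x5c00038280011580000000a4001008)))) (.leaf 0x6000050280041600000000a4001008)) (.sR 2400 (.sR 2304 (.sr 3008 (.sR 2160 (.sR 2112 (.sg 31 (.sR 2016 (.sR 1968 (.leaf 0x45c3808018240011000000000b044d044) (.leaf 0x45c4004020220011080000000ac44d044)) (.sR 2064 (.leaf 0x3800004280191100000000a4001008) (.leaf 0x3c000002801a1180000000a8001008))) (.sR 2016 (.sR 1968 (.leaf 0x45c3c04018220021000000000b044d044) (.leaf 0x45c4004020220021080000000b044d044))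 (.sR 2064 (.leaf 0x40038000042801b1100000000a8401006) (.leaf 0x3c000002801c11800000009c001008)))) (.leaf 0x4000008280151200000000ac001008)) (.sR 2208 (.leaf 0x440000c2801612800000009c001008) (.sR 2256 (.leaf 0x4800010280171300000000a0001008) (.leaf 0x50000142801814000000009c001008)))) (.sR 2112 (.sR 1968 (.leaf 0x45c3c0803c220041000000000b044d044) (.sR 2016 (.leaf 0x45c4008024220041080000000b044d044) (.sg 31 (.sR 2064 (.leaf 0x4003800028280211100000000b0401006) (.leaf 0x3c00000280221180000000ac001008)) (.sR 2064 (.leaf 0x4003800004280231100000000a8401006) (.leaf 0x3c00000280241180000000ac001008))))) (.sR 2208 (.sR 2160 (.leaf 0x40000082801d1200000000ac001008) (.leaf 0x440000c2801e1280000000ac001008)) (.sR 2256 (.leaf 0x48000102801f1300000000a0001008) (.leaf 0x4c00014280201380000000ac001008))))) (.sR 2352 (.leaf 0x4c0002c280121380000000ac001008) (.leaf 0x5400048280131480000000a8001008))) (.sR 2496 (.sR 2448 (.leaf 0x5400034280031480000000a8001008) (.leaf 0x5800038280031500000000a8001008)) (.sR 2544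 (.leaf 0x600004c280141600000000a4001008) (.leaf 3))))) (.leaf 3))
theorem k84 : ChunkP 4 4 2944 3072 28 32 1920 2784 :=
  chkY_sound (Q := 40) (C := [c630.c, c631.c, c632.c, c683.c, c684.c]) (Z := [z2831, z2832, z2838, z2849, z2830, z2833, z2834, z2835, z2836, z2837, z2839, z2840, z2841, z2842, z2843, z2844, z2845, z2846, z2847, z2848, z2850, z2851, z2852, z2853, z2854, z2855, z2856, z2857, z2858, z2859, z2860, z2861, z2862, z2863, z2864, z2865, z2866])
    (T := [f_w516_528_0_60_10q, f_w504_516_0_60_10q, f_w528_540_0_60_10q, f_w540_552_0_60_10q, f_w552_564_0_60_10q, f_w564_576_0_60_10q, f_w480_492_4_60_10q, f_w480_492_4_60_40q, f_w492_504_4_60_20q, f_w492_504_4_70_20q, f_w504_516_0_65_35q, f_w576_588_0_60_10q, f_w588_600_0_60_10q, f_w600_612_0_60_20q, f_w612_624_0_60_20q, f_w480_492_4_70_10q, f_w492_504_4_60_30q, f_w516_528_0_70_20q, f_w588_600_0_65_35q, f_w624_636_0_60_10q, f_w624_648_0_65_30q]) (t := t84)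
    (all_cons p630 (all_cons p631 (all_cons p632 (all_cons p683 (all_cons p684 all_nil)))))
    (all_cons z2831P (all_cons z2832P (all_cons z2838P (all_cons z2849P (all_cons z2830P (all_cons z2833P (all_cons z2834P (all_cons z2835P (all_cons z2836P (all_cons z2837P (all_cons z2839P (all_cons z2840P (all_cons z2841P (all_cons z2842P (all_cons z2843P (all_cons z2844P (all_cons z2845P (all_cons z2846P (all_cons z2847P (all_cons z2848P (all_cons z2850P (all_cons z2851P (all_cons z2852P (all_cons z2853P (all_cons z2854P (all_cons z2855P (all_cons z2856P (all_cons z2857P (all_cons z2858P (all_cons z2859P (all_cons z2860P (all_cons z2861P (all_cons z2862P (all_cons z2863P (all_cons z2864P (all_cons z2865P (all_cons z2866P all_nil)))))))))))))))))))))))))))))))))))))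
    (all_cons f_w516_528_0_60_10q_p (all_cons f_w504_516_0_60_10q_p (all_cons f_w528_540_0_60_10q_p (all_cons f_w540_552_0_60_10q_p (all_cons f_w552_564_0_60_10q_p (all_cons f_w564_576_0_60_10q_p (all_cons f_w480_492_4_60_10q_p (all_cons f_w480_492_4_60_40q_p (all_cons f_w492_504_4_60_20q_p (all_cons f_w492_504_4_70_20q_p (all_cons f_w504_516_0_65_35q_p (all_cons f_w576_588_0_60_10q_p (all_cons f_w588_600_0_60_10q_p (all_cons f_w600_612_0_60_20q_p (all_cons f_w612_624_0_60_20q_p (all_cons f_w480_492_4_70_10q_p (all_cons f_w492_504_4_60_30q_p (all_cons f_w516_528_0_70_20q_p (all_cons f_w588_600_0_65_35q_p (all_cons f_w624_636_0_60_10q_p (all_cons f_w624_648_0_65_30q_p all_nil)))))))))))))))))))))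
    (by decide +kernel)
def t85 : Tree := (.leaf 3)
theorem k85 : ChunkP 4 4 2816 3072 24 32 2784 3072 :=
  chkY_sound (Q := 40) (C := []) (Z := [])
    (T := []) (t := t85)
    all_nil
    all_nil
    all_nil
    (by decide +kernel)
def t86 : Tree := (.sg 34 (.sR 2448 (.sR 2256 (.sR 2160 (.sR 2112 (.sr 2624 (.sR 2016 (.sR 1968 (.sg 33 (.leaf 0x45c380404c240021000000000b044d044) (.leaf 0x45c3804018240031000000000b044d044)) (.leaf 0x4003400004280011080000000ac401006)) (.sR 2064 (.leaf 0x40000142800e1200000000a8001008) (.leaf 0x40000082800f1200000000a0001008))) (.sR 2016 (.sR 1968 (.sg 33 (.leaf 0x45c3804018240091000000000b044d044) (.sr 2656 (.leaf 0x45c3808000240061000000000a844d044) (.leaf 0x45c38080002400a1000000000a844d044))) (.leaf 0x4003400004280011080000000b0401006)) (.sR 2064 (.leaf 0x4003c00014280101180000000b0401006) (.leaf 0x3c00008280111180000000ac001008)))) (.leaf 0x400001c280041200000000a8001008)) (.sR 2208 (.sr 2624 (.leaf 0x500000c280121400000000a4001008) (.leaf 0x440000c280131280000000ac001008))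 (.leaf 0x4800020280051300000000ac001008))) (.sR 2352 (.sR 2304 (.sr 2624 (.leaf 0x5800024280141500000000a0001008) (.leaf 0x4c00024280151380000000ac001008)) (.leaf 0x4c00028280061380000000ac001008)) (.sR 2400 (.sr 2624 (.leaf 0x5c00010280161580000000a8001008) (.leaf 0x5c00010280171580000000a0001008)) (.leaf 0x540002c280071480000000a8001008)))) (.sR 2640 (.sR 2544 (.sR 2496 (.leaf 0x5800030280081500000000a8001008) (.sr 2624 (.leaf 0x6c0003428018178000000094001008) (.leaf 0x5c00034280191580000000a8001008))) (.sR 2592 (.leaf 0x6000038280091600000000a4001008) (.leaf 0x640003c2800a1680000000a4001008))) (.sR 2736 (.sR 2688 (.leaf 0x68000402800b1700000000a4001008) (.leaf 0x6c00044280001780000000a0001008)) (.sR 2784 (.leaf 0x7400048280001880000000a0001008) (.sR 2832 (.leaf 0x740005c2800c1880000000a0001008) (.leaf 0x80000602800d1b0000000094001008)))))) (.sR 2400 (.sR 2160 (.sR 2064 (.sR 2016 (.sr 2624 (.sR 1968 (.sg 35 (.sr 2592 (.leaf 0x45c3808000240001000000000a844d044) (.leaf 0x45c3808000240041000000000a844d044))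 (.sr 2592 (.leaf 0x45c3808000240011000000000ac44d044) (.leaf 0x45c3808000240051000000000ac44d044))) (.leaf 0x4003400004280031080000000ac401006)) (.sR 1968 (.sg 35 (.sr 2656 (.leaf 0x45c3c04000220071000000000ac44d044) (.leaf 0x45c38080002400b1000000000ac44d044)) (.sr 2656 (.leaf 0x45c3808000240081000000000ac44d044) (.leaf 0x45c38080002400c1000000000ac44d044))) (.leaf 0x4003400004280031080000000b0401006))) (.leaf 0x40038000142801a1100000000b0401006)) (.sR 2112 (.sr 2624 (.leaf 0x4800008280261300000000ac001008) (.leaf 0x4003c00008280271180000000b0401006)) (.leaf 0x400001c2801b1200000000a8001008))) (.sR 2256 (.sR 2208 (.sr 2624 (.leaf 0x500000c280281400000000a8001008) (.leaf 0x480000c280291300000000a4001008)) (.leaf 0x48000202801c1300000000a8001008)) (.sR 2304 (.leaf 0x4c000502801d13800000009c001008) (.sR 2352 (.leaf 0x4c000282801e1380000000ac001008) (.sr 2624 (.leaf 0x60000102802a1600000000a4001008) (.leaf 0x58000102802b15000000009c001008)))))) (.sR 2640 (.sR 2496 (.sR 2448 (.leaf 0x540002c2801f1480000000a8001008)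 (.leaf 0x5800030280201500000000a8001008)) (.sR 2544 (.leaf 0x5c00054280211580000000a8001008) (.sR 2592 (.leaf 0x6000038280221600000000a4001008) (.leaf 0x640003c280231680000000a4001008)))) (.sR 2736 (.sR 2688 (.leaf 0x6c00040280241780000000a4001008) (.leaf 0x6c00044280021780000000a0001008)) (.sR 2784 (.leaf 0x7000048280021800000000a0001008) (.sR 2832 (.leaf 0x7400058280251880000000a0001008) (.leaf 3)))))))
theorem k86 : ChunkP 4 4 2560 2688 32 36 1920 2880 :=
  chkY_sound (Q := 40) (C := [c265.c, c266.c, c288.c, c289.c, c306.c, c307.c, c320.c, c321.c, c322.c, c346.c, c354.c, c355.c, c356.c]) (Z := [z2875, z2878, z2902, z2904, z2867, z2868, z2869, z2870, z2871, z2872, z2873, z2874, z2876, z2877, z2879, z2880, z2881, z2882, z2883, z2884, z2885, z2886, z2887, z2888, z2889, z2890, z2891, z2892, z2893, z2894, z2895, z2896, z2897, z2898, z2899, z2900, z2901, z2903, z2905, z2906, z2907, z2908, z2909, z2910])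
    (T := [f_w480_492_4_60_10q, f_w492_504_0_50_20q, f_w516_528_0_60_10q, f_w540_552_0_60_10q, f_w588_600_0_60_10q, f_w504_516_0_60_10q, f_w480_492_4_55_30q, f_w528_540_0_50_30q, f_w552_564_0_50_30q, f_w564_576_0_60_10q, f_w576_588_0_60_10q, f_w600_612_0_50_20q, f_w612_624_0_50_20q, f_w624_636_0_60_10q, f_w636_648_0_50_10q, f_w648_660_0_50_30q, f_w660_672_0_50_10q, f_w672_684_0_55_30q, f_w684_696_0_55_30q, f_w480_492_4_50_40q, f_w564_576_0_50_30q, f_w624_636_0_50_10q, f_w696_708_0_50_10q, f_w696_708_0_55_30q, f_w708_720_0_50_30q]) (t := t86)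
    (all_cons p265 (all_cons p266 (all_cons p288 (all_cons p289 (all_cons p306 (all_cons p307 (all_cons p320 (all_cons p321 (all_cons p322 (all_cons p346 (all_cons p354 (all_cons p355 (all_cons p356 all_nil)))))))))))))
    (all_cons z2875P (all_cons z2878P (all_cons z2902P (all_cons z2904P (all_cons z2867P (all_cons z2868P (all_cons z2869P (all_cons z2870P (all_cons z2871P (all_cons z2872P (all_cons z2873P (all_cons z2874P (all_cons z2876P (all_cons z2877P (all_cons z2879P (all_cons z2880P (all_cons z2881P (all_cons z2882P (all_cons z2883P (all_cons z2884P (all_cons z2885P (all_cons z2886P (all_cons z2887P (all_cons z2888P (all_cons z2889P (all_cons z2890P (all_cons z2891P (all_cons z2892P (all_cons z2893P (all_cons z2894P (all_cons z2895P (all_cons z2896P (all_cons z2897P (all_cons z2898P (all_cons z2899P (all_cons z2900P (all_cons z2901P (all_cons z2903P (all_cons z2905P (all_cons z2906P (all_cons z2907P (all_cons z2908P (all_cons z2909P (all_cons z2910P all_nil))))))))))))))))))))))))))))))))))))))))))))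
    (all_cons f_w480_492_4_60_10q_p (all_cons f_w492_504_0_50_20q_p (all_cons f_w516_528_0_60_10q_p (all_cons f_w540_552_0_60_10q_p (all_cons f_w588_600_0_60_10q_p (all_cons f_w504_516_0_60_10q_p (all_cons f_w480_492_4_55_30q_p (all_cons f_w528_540_0_50_30q_p (all_cons f_w552_564_0_50_30q_p (all_cons f_w564_576_0_60_10q_p (all_cons f_w576_588_0_60_10q_p (all_cons f_w600_612_0_50_20q_p (all_cons f_w612_624_0_50_20q_p (all_cons f_w624_636_0_60_10q_p (all_cons f_w636_648_0_50_10q_p (all_cons f_w648_660_0_50_30q_p (all_cons f_w660_672_0_50_10q_p (all_cons f_w672_684_0_55_30q_p (all_cons f_w684_696_0_55_30q_p (all_cons f_w480_492_4_50_40q_p (all_cons f_w564_576_0_50_30q_p (all_cons f_w624_636_0_50_10q_p (all_cons f_w696_708_0_50_10q_p (all_cons f_w696_708_0_55_30q_p (all_cons f_w708_720_0_50_30q_p all_nil)))))))))))))))))))))))))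
    (by decide +kernel)
def t87 : Tree := (.sR 2784 (.sg 34 (.sR 2592 (.sR 2496 (.sR 2448 (.sr 2752 (.sR 2160 (.sR 2016 (.sR 1968 (.sg 33 (.sr 2720 (.leaf 0x45c3808000240001000000000a844d044) (.leaf 0x45c3808000240041000000000a844d044)) (.sr 2720 (.leaf 0x45c3c04000220011000000000a844d044) (.leaf 0x45c3c04000220051000000000a844d044))) (.leaf 0x400340002c280071080000000ac401006)) (.sR 2064 (.leaf 0x3800004280081100000000a0001008) (.sR 2112 (.leaf 0x4000008280091200000000a4001008) (.leaf 0x400000c2800a12000000009c001008)))) (.sR 2304 (.sR 2208 (.leaf 0x48000102800b1300000000a0001008) (.sR 2256 (.leaf 0x50000142800c14000000009c001008) (.leaf 0x54000182800d1480000000a8001008))) (.sR 2352 (.leaf 0x4c00028280011380000000ac001008) (.sR 2400 (.leaf 0x5c0001c2800e158000000098001008) (.leaf 0x5c000202800f15800000009c001008))))) (.sR 2160 (.sR 2016 (.sR 1968 (.sg 33 (.sr 2784 (.leaf 0x45c3c04000220081000000000a844d044) (.leaf 0x45c3c040002200c1000000000a844d044)) (.sr 2784 (.leaf 0x45c3c04000220091000000000a844d044)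 (.leaf 0x45c38080002400d1000000000a844d044))) (.leaf 0x400340002c280101080000000b0401006)) (.sR 2064 (.leaf 0x3800004280111100000000a0001008) (.sR 2112 (.leaf 0x4003c00008280121180000000b0401006) (.leaf 0x400000c2801312000000009c001008)))) (.sR 2304 (.sR 2208 (.leaf 0x4400010280141280000000ac001008) (.sR 2256 (.leaf 0x4c00014280151380000000a4001008) (.leaf 0x4c00018280161380000000a8001008))) (.sR 2352 (.leaf 0x4c00028280011380000000ac001008) (.sR 2400 (.leaf 0x540001c280171480000000a0001008) (.leaf 0x5c00020280181580000000a4001008)))))) (.leaf 0x5800040280021500000000a8001008)) (.sR 2544 (.leaf 0x5c00048280031580000000a8001008) (.leaf 0x6000034280041600000000a4001008))) (.sR 2688 (.sR 2640 (.leaf 0x6400038280001680000000a4001008) (.leaf 0x6800050280001700000000a4001008)) (.sR 2736 (.leaf 0x6c0003c280051780000000a4001008) (.leaf 0x7000054280061800000000a0001008)))) (.sR 2544 (.sR 2352 (.sR 2304 (.sr 2752 (.sR 2112 (.sR 2016 (.sR 1968 (.sg 35 (.sr 2720 (.leaf 0x45c3808000240021000000000a844d044) (.leaf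 0x45c3808000240061000000000a844d044)) (.sr 2720 (.leaf 0x45c3808000240031000000000ac44d044) (.leaf 0x45c3c04000220071000000000a844d044))) (.leaf 0x40034000242801f1080000000a0401006)) (.sR 2064 (.leaf 0x3800004280201100000000a4001008) (.leaf 0x4000008280211200000000a8001008))) (.sR 2208 (.sR 2160 (.leaf 0x440000c2802212800000009c001008) (.leaf 0x4800010280231300000000a4001008)) (.sR 2256 (.leaf 0x5000014280241400000000a0001008) (.leaf 0x50000182802514000000009c001008)))) (.sR 2112 (.sR 2016 (.sg 35 (.sR 1968 (.sr 2784 (.leaf 0x45c38080002400a1000000000a844d044) (.leaf 0x45c3c040002200e1000000000a844d044)) (.leaf 0x40034000242802c1080000000b0401006)) (.sR 1968 (.sr 2784 (.leaf 0x45c3c040002200b1000000000a844d044) (.leaf 0x45c3c040002200f1000000000a844d044)) (.leaf 0x40038000242802d1100000000ac401006))) (.sR 2064 (.leaf 0x4003800004280261100000000a8401006) (.leaf 0x4000008280271200000000ac001008))) (.sR 2208 (.sR 2160 (.leaf 0x400000c280281200000000a4001008) (.leaf 0x4800010280291300000000a4001008)) (.sR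 2256 (.leaf 0x48000142802a1300000000a8001008) (.leaf 0x50000182802b14000000009c001008))))) (.leaf 0x4c00028280191380000000ac001008)) (.sR 2496 (.sr 2752 (.sR 2400 (.leaf 0x5c0001c2802e1580000000a0001008) (.sR 2448 (.leaf 0x64000202802f168000000098001008) (.leaf 0x6800030280301700000000a0001008))) (.sR 2400 (.leaf 0x5c0001c2803115800000009c001008) (.sR 2448 (.leaf 0x5c00020280321580000000a0001008) (.leaf 0x5800030280331500000000a8001008)))) (.leaf 0x5c000442801a1580000000a8001008))) (.sR 2640 (.sR 2592 (.leaf 0x68000342801b17000000009c001008) (.leaf 0x64000382801c1680000000a4001008)) (.sR 2688 (.leaf 0x680004c2801d1700000000a4001008) (.sR 2736 (.leaf 0x6c0003c2801e1780000000a0001008) (.leaf 3)))))) (.leaf 3))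
theorem k87 : ChunkP 4 4 2688 2816 32 36 1920 2880 :=
  chkY_sound (Q := 40) (C := [c372.c, c373.c, c374.c, c375.c, c414.c, c415.c, c416.c, c417.c, c435.c, c436.c, c437.c, c438.c, c470.c, c471.c, c472.c, c473.c]) (Z := [z2914, z2924, z2911, z2912, z2913, z2915, z2916, z2917, z2918, z2919, z2920, z2921, z2922, z2923, z2925, z2926, z2927, z2928, z2929, z2930, z2931, z2932, z2933, z2934, z2935, z2936, z2937, z2938, z2939, z2940, z2941, z2942, z2943, z2944, z2945, z2946, z2947, z2948, z2949, z2950, z2951, z2952, z2953, z2954, z2955, z2956, z2957, z2958, z2959, z2960, z2961, z2962])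
    (T := [f_w480_492_4_60_10q, f_w504_516_0_60_10q, f_w516_528_0_60_10q, f_w528_540_0_60_10q, f_w540_552_0_60_10q, f_w552_564_0_60_10q, f_w564_576_0_60_10q, f_w588_600_0_60_10q, f_w600_612_0_50_20q, f_w492_504_0_50_20q, f_w576_588_0_60_10q, f_w492_504_0_60_20q, f_w612_624_0_50_20q, f_w636_648_0_55_35q, f_w648_660_0_60_30q, f_w672_684_0_60_20q, f_w612_624_0_60_20q, f_w624_636_0_55_35q, f_w624_636_0_60_10q, f_w660_672_0_55_30q, f_w660_672_0_60_30q, f_w684_696_0_50_30q]) (t := t87)
    (all_cons p372 (all_cons p373 (all_cons p374 (all_cons p375 (all_cons p414 (all_cons p415 (all_cons p416 (all_cons p417 (all_cons p435 (all_cons p436 (all_cons p437 (all_cons p438 (all_cons p470 (all_cons p471 (all_cons p472 (all_cons p473 all_nil))))))))))))))))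
    (all_cons z2914P (all_cons z2924P (all_cons z2911P (all_cons z2912P (all_cons z2913P (all_cons z2915P (all_cons z2916P (all_cons z2917P (all_cons z2918P (all_cons z2919P (all_cons z2920P (all_cons z2921P (all_cons z2922P (all_cons z2923P (all_cons z2925P (all_cons z2926P (all_cons z2927P (all_cons z2928P (all_cons z2929P (all_cons z2930P (all_cons z2931P (all_cons z2932P (all_cons z2933P (all_cons z2934P (all_cons z2935P (all_cons z2936P (all_cons z2937P (all_cons z2938P (all_cons z2939P (all_cons z2940P (all_cons z2941P (all_cons z2942P (all_cons z2943P (all_cons z2944P (all_cons z2945P (all_cons z2946P (all_cons z2947P (all_cons z2948P (all_cons z2949P (all_cons z2950P (all_cons z2951P (all_cons z2952P (all_cons z2953P (all_cons z2954P (all_cons z2955P (all_cons z2956P (all_cons z2957P (all_cons z2958P (all_cons z2959P (all_cons z2960P (all_cons z2961P (all_cons z2962P all_nil))))))))))))))))))))))))))))))))))))))))))))))))))))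
    (all_cons f_w480_492_4_60_10q_p (all_cons f_w504_516_0_60_10q_p (all_cons f_w516_528_0_60_10q_p (all_cons f_w528_540_0_60_10q_p (all_cons f_w540_552_0_60_10q_p (all_cons f_w552_564_0_60_10q_p (all_cons f_w564_576_0_60_10q_p (all_cons f_w588_600_0_60_10q_p (all_cons f_w600_612_0_50_20q_p (all_cons f_w492_504_0_50_20q_p (all_cons f_w576_588_0_60_10q_p (all_cons f_w492_504_0_60_20q_p (all_cons f_w612_624_0_50_20q_p (all_cons f_w636_648_0_55_35q_p (all_cons f_w648_660_0_60_30q_p (all_cons f_w672_684_0_60_20q_p (all_cons f_w612_624_0_60_20q_p (all_cons f_w624_636_0_55_35q_p (all_cons f_w624_636_0_60_10q_p (all_cons f_w660_672_0_55_30q_p (all_cons f_w660_672_0_60_30q_p (all_cons f_w684_696_0_50_30q_p all_nil))))))))))))))))))))))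
    (by decide +kernel)
def t88 : Tree := (.sg 38 (.sR 2352 (.sR 2160 (.sR 2064 (.sR 2016 (.sr 2624 (.sR 1968 (.sg 37 (.sr 2592 (.leaf 0x45c3808000240001000000000b044d044) (.leaf 0x45c3808000240041000000000b044d044)) (.sr 2592 (.leaf 0x45c3804004240011000000000ac44d044) (.leaf 0x45c3808000240051000000000b044d044))) (.leaf 0x4003400008280001080000000ac401006)) (.sR 1968 (.sg 37 (.sr 2656 (.leaf 0x45c3808000240081000000000b044d044) (.leaf 0x45c38080002400c1000000000b044d044)) (.sr 2656 (.leaf 0x45c3808000240091000000000b044d044) (.leaf 0x45c38080002400d1000000000b044d044))) (.leaf 0x4003400008280001080000000ac401006))) (.leaf 0x4003800010280031100000000ac401006)) (.sR 2112 (.leaf 0x3c00014280041180000000a8001008) (.leaf 0x4000018280051200000000a8001008))) (.sR 2256 (.sR 2208 (.leaf 0x480001c280061300000000ac001008) (.leaf 0x4800020280071300000000a8001008)) (.sR 2304 (.leaf 0x5000024280081400000000a8001008) (.leaf 0x4c00028280091380000000ac001008)))) (.sR 2544 (.sR 2448 (.sR 2400 (.leaf 0x580002c2800a1500000000a4001008)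 (.leaf 0x54000302800b1480000000a8001008)) (.sR 2496 (.leaf 0x58000342800c1500000000a8001008) (.leaf 0x5c000382800d1580000000a8001008))) (.sR 2640 (.sR 2592 (.leaf 0x600003c2800e1600000000a4001008) (.leaf 0x64000502800f1680000000a4001008)) (.sR 2688 (.leaf 0x6c00040280101780000000a0001008) (.sR 2736 (.leaf 0x6c00044280111780000000a4001008) (.leaf 0x7000054280121800000000a0001008)))))) (.sR 2352 (.sR 2112 (.sR 2016 (.sR 1968 (.sr 2624 (.sg 39 (.sr 2592 (.leaf 0x45c3804004240021000000000ac44d044) (.leaf 0x45c3c00004220061000000000ac44d044)) (.sr 2592 (.leaf 0x45c3804004240031000000000a844d044) (.leaf 0x45c3804004240071000000000ac44d044))) (.sg 39 (.sr 2656 (.leaf 0x45c3c000042200a1000000000b044d044) (.leaf 0x45c3c0000c2200e1000000000b044d044)) (.sr 2656 (.leaf 0x45c3c000482200b1000000000b044d044) (.leaf 0x45c3c0000c2200f1000000000b044d044)))) (.leaf 0x4003400008280131080000000b0401006)) (.sR 2064 (.leaf 0x4003800010280141100000000a8401006) (.leaf 0x3c00014280151180000000ac001008))) (.sR 2208 (.sR 2160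 (.leaf 0x4000018280161200000000ac001008) (.leaf 0x480001c280171300000000a4001008)) (.sR 2256 (.leaf 0x4800020280181300000000ac001008) (.sR 2304 (.leaf 0x5000024280191400000000a0001008) (.leaf 0x4c000282801a1380000000ac001008))))) (.sR 2544 (.sR 2448 (.sR 2400 (.leaf 0x5c0002c2801b1580000000a8001008) (.leaf 0x54000302801c1480000000a8001008)) (.sR 2496 (.leaf 0x64000342801d1680000000a0001008) (.leaf 0x6000038280011600000000a4001008))) (.sR 2640 (.sR 2592 (.leaf 0x600003c280011600000000a4001008) (.leaf 0x6c0004c280021780000000a4001008)) (.sR 2688 (.leaf 0x6800040280021700000000a4001008) (.sR 2736 (.leaf 0x6c000442801e1780000000a0001008) (.leaf 3)))))))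
theorem k88 : ChunkP 4 4 2560 2688 36 40 1920 2784 :=
  chkY_sound (Q := 40) (C := [c267.c, c268.c, c269.c, c270.c, c308.c, c309.c, c310.c, c311.c, c323.c, c324.c, c325.c, c326.c, c357.c, c358.c, c359.c, c360.c]) (Z := [z2979, z2991, z2992, z2963, z2964, z2965, z2966, z2967, z2968, z2969, z2970, z2971, z2972, z2973, z2974, z2975, z2976, z2977, z2978, z2980, z2981, z2982, z2983, z2984, z2985, z2986, z2987, z2988, z2989, z2990, z2993])
    (T := [f_w480_492_4_60_10q, f_w480_492_4_50_10q, f_w492_504_0_50_20q, f_w480_492_4_50_30q, f_w504_516_0_50_30q, f_w516_528_0_60_10q, f_w528_540_0_50_30q, f_w540_552_0_50_30q, f_w552_564_0_50_30q, f_w564_576_0_50_30q, f_w576_588_0_50_30q, f_w588_600_0_50_20q, f_w600_612_0_50_20q, f_w612_624_0_50_20q, f_w624_636_0_50_10q, f_w636_648_0_50_10q, f_w660_672_0_50_10q, f_w672_684_0_50_10q, f_w480_492_4_50_20q, f_w648_660_0_50_10q, f_w648_660_0_50_30q, f_w684_696_0_50_30q]) (t := t88)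
    (all_cons p267 (all_cons p268 (all_cons p269 (all_cons p270 (all_cons p308 (all_cons p309 (all_cons p310 (all_cons p311 (all_cons p323 (all_cons p324 (all_cons p325 (all_cons p326 (all_cons p357 (all_cons p358 (all_cons p359 (all_cons p360 all_nil))))))))))))))))
    (all_cons z2979P (all_cons z2991P (all_cons z2992P (all_cons z2963P (all_cons z2964P (all_cons z2965P (all_cons z2966P (all_cons z2967P (all_cons z2968P (all_cons z2969P (all_cons z2970P (all_cons z2971P (all_cons z2972P (all_cons z2973P (all_cons z2974P (all_cons z2975P (all_cons z2976P (all_cons z2977P (all_cons z2978P (all_cons z2980P (all_cons z2981P (all_cons z2982P (all_cons z2983P (all_cons z2984P (all_cons z2985P (all_cons z2986P (all_cons z2987P (all_cons z2988P (all_cons z2989P (all_cons z2990P (all_cons z2993P all_nil)))))))))))))))))))))))))))))))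
    (all_cons f_w480_492_4_60_10q_p (all_cons f_w480_492_4_50_10q_p (all_cons f_w492_504_0_50_20q_p (all_cons f_w480_492_4_50_30q_p (all_cons f_w504_516_0_50_30q_p (all_cons f_w516_528_0_60_10q_p (all_cons f_w528_540_0_50_30q_p (all_cons f_w540_552_0_50_30q_p (all_cons f_w552_564_0_50_30q_p (all_cons f_w564_576_0_50_30q_p (all_cons f_w576_588_0_50_30q_p (all_cons f_w588_600_0_50_20q_p (all_cons f_w600_612_0_50_20q_p (all_cons f_w612_624_0_50_20q_p (all_cons f_w624_636_0_50_10q_p (all_cons f_w636_648_0_50_10q_p (all_cons f_w660_672_0_50_10q_p (all_cons f_w672_684_0_50_10q_p (all_cons f_w480_492_4_50_20q_p (all_cons f_w648_660_0_50_10q_p (all_cons f_w648_660_0_50_30q_p (all_cons f_w684_696_0_50_30q_p all_nil))))))))))))))))))))))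
    (by decide +kernel)
def t89 : Tree := (.sR 2688 (.sg 38 (.sR 2448 (.sR 2352 (.sR 2304 (.sr 2752 (.sR 2112 (.sR 2016 (.sR 1968 (.sg 37 (.sr 2720 (.leaf 0x45c3c04000220001000000000ac44d044) (.leaf 0x45c3c04000220041000000000ac44d044)) (.sr 2720 (.leaf 0x45c3c04000220011000000000b044d044) (.leaf 0x45c3c04000220051000000000b044d044))) (.leaf 0x4003800008280061100000000b0401006)) (.sR 2064 (.leaf 0x3c0000c280071180000000a4001008) (.leaf 0x4000010280081200000000ac001008))) (.sR 2208 (.sR 2160 (.leaf 0x4400014280091280000000a0001008) (.leaf 0x48000182800a1300000000a8001008)) (.sR 2256 (.leaf 0x500001c2800b1400000000a4001008) (.leaf 0x50000202800c1400000000a4001008)))) (.sR 2112 (.sR 2016 (.sR 1968 (.sg 37 (.sr 2784 (.leaf 0x45c3c04000220081000000000ac44d044) (.leaf 0x45c3c040002200c1000000000ac44d044)) (.sr 2784 (.leaf 0x45c3c04000220091000000000ac44d044) (.leaf 0x45c3c040002200d1000000000ac44d044))) (.leaf 0x40034000082800d1080000000a4401006)) (.sR 2064 (.leaf 0x400380000c2800e1100000000ac401006) (.leaf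 0x3c000102800f11800000009c001008))) (.sR 2208 (.sR 2160 (.leaf 0x4400014280101280000000a4001008) (.leaf 0x4800018280111300000000a8001008)) (.sR 2256 (.leaf 0x480001c280121300000000ac001008) (.leaf 0x5000020280131400000000a0001008))))) (.leaf 0x4c00038280001380000000ac001008)) (.sR 2400 (.sr 2752 (.leaf 0x5800024280141500000000a0001008) (.leaf 0x5c00024280151580000000a4001008)) (.leaf 0x540002c280011480000000a8001008))) (.sR 2544 (.sR 2496 (.leaf 0x5800030280021500000000a8001008) (.leaf 0x5c00040280031580000000a8001008)) (.sR 2592 (.leaf 0x70000482800418800000009c001008) (.sR 2640 (.leaf 0x640004c280051680000000a4001008) (.leaf 3))))) (.sR 2592 (.sR 2400 (.sR 2304 (.sr 2752 (.sR 2112 (.sR 2016 (.sR 1968 (.sg 39 (.sr 2720 (.leaf 0x45c3c00028220021000000000b044d044) (.leaf 0x45c3c00004220061000000000ac44d044)) (.sr 2720 (.leaf 0x45c3c00028220031000000000b044d044) (.leaf 0x45c3c00004220071000000000b044d044))) (.leaf 0x40038000082801b1100000000ac401006)) (.sR 2064 (.leaf 0x3c0000c2801c1180000000a4001008)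 (.leaf 0x44000102801d1280000000a4001008))) (.sR 2208 (.sR 2160 (.leaf 0x44000142801e1280000000a4001008) (.leaf 0x4c000182801f1380000000a0001008)) (.sR 2256 (.leaf 0x500001c280201400000000a8001008) (.leaf 0x5800020280211500000000a8001008)))) (.sR 2112 (.sR 2016 (.sR 1968 (.sg 39 (.sr 2784 (.leaf 0x45c3c040002200a1000000000b044d044) (.leaf 0x45c3c000042200e1000000000b044d044)) (.sr 2784 (.leaf 0x45c3c000042200b1000000000b044d044) (.leaf 0x45c3c000042200f1000000000b044d044))) (.leaf 0x4003400008280221080000000a0401006)) (.sR 2064 (.leaf 0x3c0000c280231180000000a8001008) (.leaf 0x3c00010280241180000000a0001008))) (.sR 2208 (.sR 2160 (.leaf 0x4400014280251280000000a4001008) (.leaf 0x4800018280261300000000ac001008)) (.sR 2256 (.leaf 0x500001c280271400000000a8001008) (.leaf 0x5000020280281400000000a8001008))))) (.sR 2352 (.leaf 0x4c00034280161380000000ac001008) (.sr 2752 (.leaf 0x60000242802916000000009c001008) (.leaf 0x58000242802a15000000009c001008)))) (.sR 2496 (.sR 2448 (.leaf 0x540002c280171480000000a8001008)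 (.leaf 0x5800030280181500000000a8001008)) (.sR 2544 (.leaf 0x5c0003c280191580000000a8001008) (.leaf 0x60000442801a1600000000a4001008)))) (.leaf 3))) (.leaf 3))
theorem k89 : ChunkP 4 4 2688 2816 36 40 1920 2784 :=
  chkY_sound (Q := 40) (C := [c376.c, c377.c, c378.c, c379.c, c418.c, c419.c, c420.c, c421.c, c439.c, c440.c, c441.c, c442.c, c474.c, c475.c, c476.c, c477.c]) (Z := [z2994, z2995, z2996, z2997, z2998, z2999, z3000, z3001, z3002, z3003, z3004, z3005, z3006, z3007, z3008, z3009, z3010, z3011, z3012, z3013, z3014, z3015, z3016, z3017, z3018, z3019, z3020, z3021, z3022, z3023, z3024, z3025, z3026, z3027, z3028, z3029, z3030, z3031, z3032, z3033, z3034, z3035, z3036])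
    (T := [f_w480_492_4_60_10q, f_w480_492_4_55_30q, f_w492_504_0_50_20q, f_w504_516_0_60_10q, f_w516_528_0_60_10q, f_w528_540_0_60_10q, f_w540_552_0_60_10q, f_w552_564_0_60_10q, f_w564_576_0_60_10q, f_w588_600_0_60_10q, f_w480_492_4_50_40q, f_w600_612_0_50_20q, f_w612_624_0_55_35q, f_w576_588_0_50_30q, f_w576_588_0_60_10q, f_w624_636_0_50_10q, f_w624_636_0_55_35q, f_w636_648_0_50_10q, f_w636_648_0_55_35q, f_w648_660_0_50_30q]) (t := t89)
    (all_cons p376 (all_cons p377 (all_cons p378 (all_cons p379 (all_cons p418 (all_cons p419 (all_cons p420 (all_cons p421 (all_cons p439 (all_cons p440 (all_cons p441 (all_cons p442 (all_cons p474 (all_cons p475 (all_cons p476 (all_cons p477 all_nil))))))))))))))))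
    (all_cons z2994P (all_cons z2995P (all_cons z2996P (all_cons z2997P (all_cons z2998P (all_cons z2999P (all_cons z3000P (all_cons z3001P (all_cons z3002P (all_cons z3003P (all_cons z3004P (all_cons z3005P (all_cons z3006P (all_cons z3007P (all_cons z3008P (all_cons z3009P (all_cons z3010P (all_cons z3011P (all_cons z3012P (all_cons z3013P (all_cons z3014P (all_cons z3015P (all_cons z3016P (all_cons z3017P (all_cons z3018P (all_cons z3019P (all_cons z3020P (all_cons z3021P (all_cons z3022P (all_cons z3023P (all_cons z3024P (all_cons z3025P (all_cons z3026P (all_cons z3027P (all_cons z3028P (all_cons z3029P (all_cons z3030P (all_cons z3031P (all_cons z3032P (all_cons z3033P (all_cons z3034P (all_cons z3035P (all_cons z3036P all_nil)))))))))))))))))))))))))))))))))))))))))))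
    (all_cons f_w480_492_4_60_10q_p (all_cons f_w480_492_4_55_30q_p (all_cons f_w492_504_0_50_20q_p (all_cons f_w504_516_0_60_10q_p (all_cons f_w516_528_0_60_10q_p (all_cons f_w528_540_0_60_10q_p (all_cons f_w540_552_0_60_10q_p (all_cons f_w552_564_0_60_10q_p (all_cons f_w564_576_0_60_10q_p (all_cons f_w588_600_0_60_10q_p (all_cons f_w480_492_4_50_40q_p (all_cons f_w600_612_0_50_20q_p (all_cons f_w612_624_0_55_35q_p (all_cons f_w576_588_0_50_30q_p (all_cons f_w576_588_0_60_10q_p (all_cons f_w624_636_0_50_10q_p (all_cons f_w624_636_0_55_35q_p (all_cons f_w636_648_0_50_10q_p (all_cons f_w636_648_0_55_35q_p (all_cons f_w648_660_0_50_30q_p all_nil))))))))))))))))))))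
    (by decide +kernel)

end Pool.Agent.Lib.MP_af3a4a_an.P1.CHK.DATA.N4s
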