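import Pool.Agent.Lib.MP_af3a4a_an.P1.CHK.SWP.Pay
import Pool.Agent.Lib.MP_af3a4a_an.P1.CHK.DATA.N4s.C1
import Pool.Agent.Lib.MP_af3a4a_an.P1.CHK.DATA.N4s.C2
import Pool.Agent.Lib.MP_af3a4a_an.P1.CHK.DATA.N4s.Z10
import Pool.Agent.Lib.MP_af3a4a_an.P1.CHK.DATA.F4.W480a
import Pool.Agent.Lib.MP_af3a4a_an.P1.CHK.DATA.F4.W480b
import Pool.Agent.Lib.MP_af3a4a_an.P1.CHK.DATA.F4.W528a
import Pool.Agent.Lib.MP_af3a4a_an.P1.CHK.DATA.F4.W528b
import Pool.Agent.Lib.MP_af3a4a_an.P1.CHK.DATA.F4.W576a
import Pool.Agent.Lib.MP_af3a4a_an.P1.CHK.DATA.F4.W624a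

/-! chunks for N = 4 (generated) -/

set_option autoImplicit false
set_option maxRecDepth 100000

namespace Pool.Agent.Lib.MP_af3a4a_an.P1.CHK.DATA.N4s

open BOX SWP

def t90 : Tree := (.leaf 3)
theorem k90 : ChunkP 4 4 2560 2816 36 40 2784 2880 :=
  chkY_sound (Q := 40) (C := []) (Z := [])
    (T := []) (t := t90)
    all_nil
    all_nil
    all_nil
    (by decide +kernel)
def t91 : Tree := (.sg 34 (.sR 2448 (.sR 2352 (.sR 2304 (.sr 2880 (.sR 2112 (.sR 2016 (.sg 33 (.sR 1968 (.leaf 0x45c3c04028220031000000000b044d044) (.leaf 0x4003400004280011080000000b0401006)) (.sR 1968 (.sr 2848 (.leaf 0x45c3c04000220001000000000a844d044) (.leaf 0x45c3c04000220041000000000a844d044)) (.leaf 0x4003400004280011080000000b0401006))) (.sR 2064 (.leaf 0x3800008280061100000000a4001008) (.leaf 0x3c0000c280071180000000ac001008))) (.sR 2208 (.sR 2160 (.leaf 0x40000102800812000000009c001008) (.leaf 0x4400014280091280000000a4001008)) (.sR 2256 (.leaf 0x4c000182800a1380000000a4001008) (.leaf 0x540001c2800b1480000000a4001008)))) (.sR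 2160 (.sR 2064 (.sg 33 (.sR 1968 (.leaf 0x45c3c04000220091000000000b044d044) (.sR 2016 (.leaf 0x4003400004280111080000000a4401006) (.leaf 0x4003800008280121100000000a8401006))) (.sR 1968 (.leaf 0x45c3c040282200a1000000000b044d044) (.sR 2016 (.leaf 0x4003400004280131080000000a8401006) (.leaf 0x4003800008280141100000000ac401006)))) (.sR 2112 (.leaf 0x3c0000c2800c1180000000ac001008) (.leaf 0x40000102800d1200000000a0001008))) (.sR 2208 (.leaf 0x44000142800e1280000000a4001008) (.sR 2256 (.leaf 0x4c000182800f1380000000a4001008) (.leaf 0x500001c280101400000000a8001008))))) (.leaf 0x4c00024280021380000000ac001008)) (.sR 2400 (.sr 2880 (.leaf 0x6000020280151600000000a0001008) (.leaf 0x5c00020280161580000000a4001008)) (.leaf 0x5400030280031480000000a8001008))) (.sR 2544 (.sR 2496 (.leaf 0x580003c280041500000000a8001008) (.leaf 0x5c0002c280001580000000a8001008)) (.sR 2592 (.leaf 0x6000044280001600000000a4001008) (.sR 2640 (.leaf 0x700004828005180000000098001008) (.leaf 3))))) (.sR 2592 (.sR 2448 (.sR 2400 (.sr 2880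 (.sR 2160 (.sR 2064 (.sR 2016 (.sg 35 (.sR 1968 (.sr 2848 (.leaf 0x45c3c04000220011000000000a844d044) (.leaf 0x45c3c04000220051000000000a844d044)) (.leaf 0x4003400004280231080000000a8401006)) (.sR 1968 (.sr 2848 (.leaf 0x45c3c04000220021000000000a844d044) (.leaf 0x45c3c04000220061000000000a844d044)) (.leaf 0x4003400004280241080000000a8401006))) (.leaf 0x40038000082801b1100000000a8401006)) (.sR 2112 (.leaf 0x4003c0000c2801c1180000000b0401006) (.leaf 0x40000102801d1200000000a4001008))) (.sR 2256 (.sR 2208 (.leaf 0x48000142801e1300000000a4001008) (.leaf 0x4c000182801f1380000000ac001008)) (.sR 2304 (.leaf 0x500001c2802014000000009c001008) (.sR 2352 (.leaf 0x54000242802114800000009c001008) (.leaf 0x5c0002028022158000000098001008))))) (.sR 2160 (.sR 2064 (.sR 2016 (.sg 35 (.sR 1968 (.sr 2912 (.leaf 0x45c3c04000220071000000000a844d044) (.leaf 0x45c3c040002200b1000000000a844d044)) (.leaf 0x40034000042802c1080000000ac401006)) (.sR 1968 (.sr 2912 (.leaf 0x45c3c04000220081000000000a844d044) (.leaf 0x45c3c040002200c1000000000a844d044))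 (.leaf 0x40034000042802d1080000000ac401006))) (.leaf 0x4003800008280251100000000ac401006)) (.sR 2112 (.sg 35 (.leaf 0x4003c0000c2802e1180000000b0401006) (.leaf 0x3c0000c2802f1180000000a4001008)) (.leaf 0x4000010280261200000000a4001008))) (.sR 2256 (.sR 2208 (.leaf 0x4400014280271280000000a8001008) (.leaf 0x4c00018280281380000000ac001008)) (.sR 2304 (.leaf 0x4c0001c280291380000000ac001008) (.sR 2352 (.leaf 0x4c000242802a1380000000ac001008) (.leaf 0x54000202802b1480000000a0001008)))))) (.leaf 0x5400034280171480000000a8001008)) (.sR 2496 (.leaf 0x5800038280181500000000a8001008) (.sR 2544 (.leaf 0x5c0002c280191580000000a8001008) (.leaf 0x60000402801a1600000000a4001008)))) (.leaf 3)))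
theorem k91 : ChunkP 4 4 2816 2944 32 36 1920 2688 :=
  chkY_sound (Q := 40) (C := [c492.c, c493.c, c494.c, c522.c, c535.c, c536.c, c537.c, c556.c, c557.c, c584.c, c585.c, c586.c, c587.c]) (Z := [z3040, z3048, z3037, z3038, z3039, z3041, z3042, z3043, z3044, z3045, z3046, z3047, z3049, z3050, z3051, z3052, z3053, z3054, z3055, z3056, z3057, z3058, z3059, z3060, z3061, z3062, z3063, z3064, z3065, z3066, z3067, z3068, z3069, z3070, z3071, z3072, z3073, z3074, z3075, z3076, z3077, z3078, z3079, z3080, z3081, z3082, z3083, z3084])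
    (T := [f_w480_492_4_60_10q, f_w492_504_0_60_20q, f_w504_516_0_60_10q, f_w516_528_0_60_10q, f_w528_540_0_60_10q, f_w540_552_0_60_10q, f_w552_564_0_60_10q, f_w564_576_0_60_10q, f_w588_600_0_60_10q, f_w576_588_0_60_10q, f_w480_492_4_60_20q, f_w624_636_0_60_10q, f_w600_612_0_60_20q, f_w600_612_0_60_30q, f_w612_624_0_55_35q, f_w612_624_0_60_20q, f_w636_648_0_55_35q, f_w636_648_0_60_10q, f_w648_660_0_60_30q]) (t := t91)
    (all_cons p492 (all_cons p493 (all_cons p494 (all_cons p522 (all_cons p535 (all_cons p536 (all_cons p537 (all_cons p556 (all_cons p557 (all_cons p584 (all_cons p585 (all_cons p586 (all_cons p587 all_nil)))))))))))))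
    (all_cons z3040P (all_cons z3048P (all_cons z3037P (all_cons z3038P (all_cons z3039P (all_cons z3041P (all_cons z3042P (all_cons z3043P (all_cons z3044P (all_cons z3045P (all_cons z3046P (all_cons z3047P (all_cons z3049P (all_cons z3050P (all_cons z3051P (all_cons z3052P (all_cons z3053P (all_cons z3054P (all_cons z3055P (all_cons z3056P (all_cons z3057P (all_cons z3058P (all_cons z3059P (all_cons z3060P (all_cons z3061P (all_cons z3062P (all_cons z3063P (all_cons z3064P (all_cons z3065P (all_cons z3066P (all_cons z3067P (all_cons z3068P (all_cons z3069P (all_cons z3070P (all_cons z3071P (all_cons z3072P (all_cons z3073P (all_cons z3074P (all_cons z3075P (all_cons z3076P (all_cons z3077P (all_cons z3078P (all_cons z3079P (all_cons z3080P (all_cons z3081P (all_cons z3082P (all_cons z3083P (all_cons z3084P all_nil))))))))))))))))))))))))))))))))))))))))))))))))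
    (all_cons f_w480_492_4_60_10q_p (all_cons f_w492_504_0_60_20q_p (all_cons f_w504_516_0_60_10q_p (all_cons f_w516_528_0_60_10q_p (all_cons f_w528_540_0_60_10q_p (all_cons f_w540_552_0_60_10q_p (all_cons f_w552_564_0_60_10q_p (all_cons f_w564_576_0_60_10q_p (all_cons f_w588_600_0_60_10q_p (all_cons f_w576_588_0_60_10q_p (all_cons f_w480_492_4_60_20q_p (all_cons f_w624_636_0_60_10q_p (all_cons f_w600_612_0_60_20q_p (all_cons f_w600_612_0_60_30q_p (all_cons f_w612_624_0_55_35q_p (all_cons f_w612_624_0_60_20q_p (all_cons f_w636_648_0_55_35q_p (all_cons f_w636_648_0_60_10q_p (all_cons f_w648_660_0_60_30q_p all_nil)))))))))))))))))))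
    (by decide +kernel)
def t92 : Tree := (.sR 2592 (.sg 34 (.sR 2448 (.sR 2400 (.sr 3008 (.sR 2208 (.sR 2112 (.sR 2064 (.sg 33 (.sR 1968 (.leaf 0x45c3c0400c220001000000000b044d044) (.sR 2016 (.leaf 0x45c400401c220001080000000b044d044) (.leaf 0x40038000002800a1100000000ac401006))) (.sR 1968 (.leaf 0x45c3c0403c220011000000000b044d044) (.sR 2016 (.leaf 0x45c400401c220011080000000b044d044) (.leaf 0x40038000002800b1100000000b0401006)))) (.leaf 0x4003c00004280041180000000b0401006)) (.sR 2160 (.sg 33 (.leaf 0x40000082800c1200000000a0001008) (.leaf 0x40000082800d1200000000a4001008)) (.leaf 0x4400010280051280000000a4001008))) (.sR 2304 (.sR 2256 (.leaf 0x4c00024280061380000000a8001008) (.leaf 0x5000014280071400000000a4001008)) (.sR 2352 (.leaf 0x5800030280081500000000a4001008) (.leaf 0x5c00018280091580000000a0001008)))) (.sR 2256 (.sR 2160 (.sg 33 (.sR 2016 (.sR 1968 (.leaf 0x45c3c0400c220021000000000b044d044) (.leaf 0x45c400401c220021080000000b044d044)) (.sR 2064 (.leaf 0x4003800000280131100000000ac401006) (.sR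 2112 (.leaf 0x4003c00004280141180000000b0401006) (.leaf 0x4000008280151200000000a0001008)))) (.sR 2016 (.sR 1968 (.leaf 0x45c3c04028220031000000000b044d044) (.leaf 0x45c4004020220031080000000b044d044)) (.sR 2064 (.leaf 0x4003800000280161100000000b0401006) (.sR 2112 (.leaf 0x3c00004280171180000000a4001008) (.leaf 0x4000008280181200000000a4001008))))) (.sR 2208 (.leaf 0x44000102800e1280000000a4001008) (.leaf 0x48000242800f1300000000a8001008))) (.sR 2304 (.leaf 0x5000014280101400000000a4001008) (.sR 2352 (.leaf 0x4c00030280111380000000ac001008) (.leaf 0x5400018280121480000000a4001008))))) (.leaf 0x5400034280011480000000a8001008)) (.sR 2496 (.leaf 0x5c00038280021580000000a8001008) (.sR 2544 (.leaf 0x5c00054280031580000000a8001008) (.leaf 3)))) (.sR 2496 (.sR 2352 (.sR 2304 (.sr 3008 (.sR 2160 (.sR 2112 (.sg 35 (.sR 2064 (.sr 2976 (.sR 1968 (.leaf 0x45c3c0400c220061000000000a844d044) (.sR 2016 (.leaf 0x400340c044280201080000000b0401006) (.leaf 0x4003800000280001100000000b0401006))) (.sR 1968 (.leaf 0x45c3c0400c220081000000000a844d044)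 (.sR 2016 (.leaf 0x400340002c280211080000000b0401006) (.leaf 0x4003800000280001100000000ac401006)))) (.leaf 0x3c000042801f1180000000a4001008)) (.sR 2016 (.sR 1968 (.sr 2976 (.leaf 0x45c3c0400c220071000000000ac44d044) (.leaf 0x45c3c0400c220091000000000a844d044)) (.leaf 0x400340002c280221080000000b0401006)) (.sR 2064 (.sr 2976 (.leaf 0x3800000280241100000000a0001008) (.leaf 0x4003800000280251100000000b0401006)) (.leaf 0x3c00004280231180000000a8001008)))) (.leaf 0x40000082801b1200000000a4001008)) (.sR 2208 (.leaf 0x44000102801c1280000000ac001008) (.sR 2256 (.leaf 0x4c000242801d1380000000ac001008) (.leaf 0x4c000142801e13800000009c001008)))) (.sR 2208 (.sR 2160 (.sg 35 (.sR 2016 (.sR 1968 (.leaf 0x45c3c04040220041000000000b044d044) (.leaf 0x45c4004020220041080000000b044d044)) (.sR 2064 (.sr 3040 (.leaf 0x38000002802b1100000000a0001008) (.leaf 0x40038000002802c1100000000b0401006)) (.sR 2112 (.leaf 0x3c00004280291180000000a4001008) (.leaf 0x40000082802a1200000000a8001008)))) (.sR 2016 (.sR 1968 (.leaf 0x45c3c04028220051000000000b044d044)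 (.leaf 0x45c4004020220051080000000b044d044)) (.sR 2064 (.sr 3040 (.leaf 0x38000002802f1100000000a4001008) (.leaf 0x3800000280301100000000a4001008)) (.sR 2112 (.leaf 0x3c000042802d1180000000a8001008) (.leaf 0x40000082802e1200000000ac001008))))) (.leaf 0x4400010280261280000000ac001008)) (.sR 2256 (.leaf 0x4800048280271300000000ac001008) (.leaf 0x4c000142802813800000009c001008)))) (.leaf 0x4c0004c280191380000000ac001008)) (.sR 2448 (.sr 3008 (.sR 2400 (.leaf 0x5c00018280311580000000a8001008) (.leaf 0x5800050280321500000000a8001008)) (.sR 2400 (.leaf 0x5c00018280331580000000a8001008) (.leaf 0x5400034280341480000000a8001008))) (.leaf 0x58000382801a1500000000a8001008))) (.leaf 3))) (.leaf 3))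
theorem k92 : ChunkP 4 4 2944 3072 32 36 1920 2688 :=
  chkY_sound (Q := 40) (C := [c633.c, c634.c, c685.c, c686.c, c687.c, c688.c, c606.c, c607.c, c644.c, c645.c]) (Z := [z3117, z3085, z3086, z3087, z3088, z3089, z3090, z3091, z3092, z3093, z3094, z3095, z3096, z3097, z3098, z3099, z3100, z3101, z3102, z3103, z3104, z3105, z3106, z3107, z3108, z3109, z3110, z3111, z3112, z3113, z3114, z3115, z3116, z3118, z3119, z3120, z3121, z3122, z3123, z3124, z3125, z3126, z3127, z3128, z3129, z3130, z3131, z3132, z3133, z3134, z3135, z3136, z3137])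
    (T := [f_w504_516_0_60_10q, f_w516_528_0_60_10q, f_w528_540_0_60_10q, f_w480_492_4_60_10q, f_w540_552_0_60_10q, f_w564_576_0_60_10q, f_w588_600_0_60_10q, f_w492_504_4_60_20q, f_w492_504_4_60_30q, f_w552_564_0_60_10q, f_w480_492_4_60_30q, f_w492_504_0_60_20q, f_w576_588_0_60_10q, f_w600_612_0_60_20q, f_w612_624_0_60_20q, f_w480_492_4_60_20q, f_w480_492_4_60_40q, f_w492_504_0_70_10q, f_w552_564_0_60_40q, f_w576_588_0_60_35q, f_w600_612_0_50_20q, f_w624_636_0_60_10q]) (t := t92)
    (all_cons p633 (all_cons p634 (all_cons p685 (all_cons p686 (all_cons p687 (all_cons p688 (all_cons p606 (all_cons p607 (all_cons p644 (all_cons p645 all_nil))))))))))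
    (all_cons z3117P (all_cons z3085P (all_cons z3086P (all_cons z3087P (all_cons z3088P (all_cons z3089P (all_cons z3090P (all_cons z3091P (all_cons z3092P (all_cons z3093P (all_cons z3094P (all_cons z3095P (all_cons z3096P (all_cons z3097P (all_cons z3098P (all_cons z3099P (all_cons z3100P (all_cons z3101P (all_cons z3102P (all_cons z3103P (all_cons z3104P (all_cons z3105P (all_cons z3106P (all_cons z3107P (all_cons z3108P (all_cons z3109P (all_cons z3110P (all_cons z3111P (all_cons z3112P (all_cons z3113P (all_cons z3114P (all_cons z3115P (all_cons z3116P (all_cons z3118P (all_cons z3119P (all_cons z3120P (all_cons z3121P (all_cons z3122P (all_cons z3123P (all_cons z3124P (all_cons z3125P (all_cons z3126P (all_cons z3127P (all_cons z3128P (all_cons z3129P (all_cons z3130P (all_cons z3131P (all_cons z3132P (all_cons z3133P (all_cons z3134P (all_cons z3135P (all_cons z3136P (all_cons z3137P all_nil)))))))))))))))))))))))))))))))))))))))))))))))))))))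
    (all_cons f_w504_516_0_60_10q_p (all_cons f_w516_528_0_60_10q_p (all_cons f_w528_540_0_60_10q_p (all_cons f_w480_492_4_60_10q_p (all_cons f_w540_552_0_60_10q_p (all_cons f_w564_576_0_60_10q_p (all_cons f_w588_600_0_60_10q_p (all_cons f_w492_504_4_60_20q_p (all_cons f_w492_504_4_60_30q_p (all_cons f_w552_564_0_60_10q_p (all_cons f_w480_492_4_60_30q_p (all_cons f_w492_504_0_60_20q_p (all_cons f_w576_588_0_60_10q_p (all_cons f_w600_612_0_60_20q_p (all_cons f_w612_624_0_60_20q_p (all_cons f_w480_492_4_60_20q_p (all_cons f_w480_492_4_60_40q_p (all_cons f_w492_504_0_70_10q_p (all_cons f_w552_564_0_60_40q_p (all_cons f_w576_588_0_60_35q_p (all_cons f_w600_612_0_50_20q_p (all_cons f_w624_636_0_60_10q_p all_nil))))))))))))))))))))))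
    (by decide +kernel)
def t93 : Tree := (.sg 38 (.sR 2496 (.sR 2448 (.sr 2880 (.sR 2208 (.sR 2064 (.sR 2016 (.sg 37 (.sR 1968 (.sr 2848 (.leaf 0x45c3c04000220001000000000ac44d044) (.leaf 0x45c3c04000220041000000000ac44d044)) (.leaf 0x400340002c2800d1080000000ac401006)) (.sR 1968 (.sr 2848 (.leaf 0x45c3c04000220011000000000b044d044) (.leaf 0x45c3c04000220051000000000b044d044)) (.leaf 0x400340002c2800e1080000000b0401006))) (.leaf 0x4003800008280041100000000b0401006)) (.sR 2112 (.leaf 0x3c0000c280051180000000a0001008) (.sR 2160 (.leaf 0x4000010280061200000000a8001008) (.leaf 0x4800014280071300000000ac001008)))) (.sR 2304 (.sR 2256 (.leaf 0x4800018280081300000000a0001008) (.leaf 0x500001c280091400000000a0001008)) (.sR 2352 (.leaf 0x54000202800a1480000000a4001008) (.sR 2400 (.leaf 0x5c000242800b1580000000a0001008) (.leaf 0x5c000282800c1580000000a4001008))))) (.sR 2256 (.sR 2160 (.sR 2112 (.sg 37 (.sR 2016 (.sR 1968 (.sr 2912 (.leaf 0x45c3c04000220081000000000ac44d044) (.leaf 0x45c3c040002200c1000000000ac44d044))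 (.leaf 0x400340002c280161080000000b0401006)) (.sR 2064 (.leaf 0x4003800008280001100000000ac401006) (.leaf 0x3c0000c280171180000000a4001008))) (.sR 2016 (.sr 2912 (.sR 1968 (.leaf 0x45c3c04000220091000000000ac44d044) (.leaf 0x4003400004280191080000000ac401006)) (.sR 1968 (.leaf 0x45c3c040002200d1000000000ac44d044) (.leaf 0x40034000042801a1080000000b0401006))) (.sR 2064 (.leaf 0x4003800008280001100000000b0401006) (.leaf 0x400000c280181200000000a4001008)))) (.leaf 0x40000102800f1200000000a8001008)) (.sR 2208 (.leaf 0x4800014280101300000000ac001008) (.leaf 0x4800018280111300000000a0001008))) (.sR 2352 (.sR 2304 (.leaf 0x500001c280121400000000a0001008) (.leaf 0x4c00020280131380000000ac001008)) (.sR 2400 (.leaf 0x5c0002428014158000000098001008) (.leaf 0x58000282801515000000009c001008))))) (.leaf 0x5800034280021500000000a8001008)) (.sR 2544 (.leaf 0x5c00038280031580000000a8001008) (.leaf 3))) (.sR 2496 (.sR 2448 (.sr 2880 (.sR 2160 (.sR 2016 (.sR 1968 (.sg 39 (.sr 2848 (.leaf 0x45c3c04000220021000000000b044d044)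 (.leaf 0x45c3c04000220061000000000b044d044)) (.sr 2848 (.leaf 0x45c3c04000220031000000000b044d044) (.leaf 0x45c3c04000220071000000000b044d044))) (.leaf 0x40034000042801c1080000000ac401006)) (.sR 2064 (.sg 39 (.leaf 0x4003800008280251100000000b0401006) (.leaf 0x3800008280261100000000a0001008)) (.sR 2112 (.leaf 0x3c0000c2801d1180000000a4001008) (.leaf 0x44000102801e1280000000a8001008)))) (.sR 2304 (.sR 2208 (.leaf 0x44000142801f12800000009c001008) (.sR 2256 (.leaf 0x5000018280201400000000a8001008) (.leaf 0x500001c280211400000000a4001008))) (.sR 2352 (.leaf 0x5c00020280221580000000a8001008) (.sR 2400 (.leaf 0x5c00024280231580000000a4001008) (.leaf 0x640002828024168000000098001008))))) (.sR 2208 (.sR 2112 (.sR 2064 (.sg 39 (.sR 2016 (.sr 2912 (.sR 1968 (.leaf 0x45c3c040002200a1000000000b044d044) (.leaf 0x40034000042802f1080000000a8401006)) (.sR 1968 (.leaf 0x45c3c040002200e1000000000ac44d044) (.leaf 0x4003400004280301080000000b0401006))) (.leaf 0x38000082802e1100000000a4001008)) (.sR 2016 (.sr 2912 (.sR 1968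 (.leaf 0x45c3c040002200b1000000000b044d044) (.leaf 0x3800004280321100000000a4001008)) (.sR 1968 (.leaf 0x45c3c040002200f1000000000b044d044) (.leaf 0x4003400004280331080000000ac401006))) (.leaf 0x3800008280311100000000a4001008))) (.leaf 0x3c0000c280271180000000a4001008)) (.sR 2160 (.sg 39 (.leaf 0x4000010280011200000000a8001008) (.leaf 0x4000010280011200000000ac001008)) (.leaf 0x4400014280281280000000a0001008))) (.sR 2304 (.sR 2256 (.leaf 0x4800018280291300000000a4001008) (.leaf 0x500001c2802a1400000000a4001008)) (.sR 2352 (.leaf 0x54000202802b1480000000a8001008) (.sR 2400 (.leaf 0x5c000242802c1580000000a0001008) (.leaf 0x5c000282802d1580000000a8001008)))))) (.leaf 0x6c000302801b1780000000a0001008)) (.leaf 3)))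
theorem k93 : ChunkP 4 4 2816 2944 36 40 1920 2592 :=
  chkY_sound (Q := 40) (C := [c495.c, c496.c, c497.c, c498.c, c538.c, c539.c, c540.c, c541.c, c558.c, c559.c, c560.c, c561.c, c588.c, c589.c, c590.c, c591.c]) (Z := [z3159, z3189, z3138, z3139, z3140, z3141, z3142, z3143, z3144, z3145, z3146, z3147, z3148, z3149, z3150, z3151, z3152, z3153, z3154, z3155, z3156, z3157, z3158, z3160, z3161, z3162, z3163, z3164, z3165, z3166, z3167, z3168, z3169, z3170, z3171, z3172, z3173, z3174, z3175, z3176, z3177, z3178, z3179, z3180, z3181, z3182, z3183, z3184, z3185, z3186, z3187, z3188])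
    (T := [f_w480_492_4_60_10q, f_w492_504_0_50_20q, f_w504_516_0_60_10q, f_w516_528_0_60_10q, f_w528_540_0_60_10q, f_w540_552_0_60_10q, f_w552_564_0_60_10q, f_w564_576_0_60_10q, f_w576_588_0_60_10q, f_w588_600_0_60_10q, f_w600_612_0_50_20q, f_w492_504_0_60_20q, f_w612_624_0_55_35q, f_w612_624_0_60_20q, f_w624_636_0_60_30q]) (t := t93)
    (all_cons p495 (all_cons p496 (all_cons p497 (all_cons p498 (all_cons p538 (all_cons p539 (all_cons p540 (all_cons p541 (all_cons p558 (all_cons p559 (all_cons p560 (all_cons p561 (all_cons p588 (all_cons p589 (all_cons p590 (all_cons p591 all_nil))))))))))))))))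
    (all_cons z3159P (all_cons z3189P (all_cons z3138P (all_cons z3139P (all_cons z3140P (all_cons z3141P (all_cons z3142P (all_cons z3143P (all_cons z3144P (all_cons z3145P (all_cons z3146P (all_cons z3147P (all_cons z3148P (all_cons z3149P (all_cons z3150P (all_cons z3151P (all_cons z3152P (all_cons z3153P (all_cons z3154P (all_cons z3155P (all_cons z3156P (all_cons z3157P (all_cons z3158P (all_cons z3160P (all_cons z3161P (all_cons z3162P (all_cons z3163P (all_cons z3164P (all_cons z3165P (all_cons z3166P (all_cons z3167P (all_cons z3168P (all_cons z3169P (all_cons z3170P (all_cons z3171P (all_cons z3172P (all_cons z3173P (all_cons z3174P (all_cons z3175P (all_cons z3176P (all_cons z3177P (all_cons z3178P (all_cons z3179P (all_cons z3180P (all_cons z3181P (all_cons z3182P (all_cons z3183P (all_cons z3184P (all_cons z3185P (all_cons z3186P (all_cons z3187P (all_cons z3188P all_nil))))))))))))))))))))))))))))))))))))))))))))))))))))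
    (all_cons f_w480_492_4_60_10q_p (all_cons f_w492_504_0_50_20q_p (all_cons f_w504_516_0_60_10q_p (all_cons f_w516_528_0_60_10q_p (all_cons f_w528_540_0_60_10q_p (all_cons f_w540_552_0_60_10q_p (all_cons f_w552_564_0_60_10q_p (all_cons f_w564_576_0_60_10q_p (all_cons f_w576_588_0_60_10q_p (all_cons f_w588_600_0_60_10q_p (all_cons f_w600_612_0_50_20q_p (all_cons f_w492_504_0_60_20q_p (all_cons f_w612_624_0_55_35q_p (all_cons f_w612_624_0_60_20q_p (all_cons f_w624_636_0_60_30q_p all_nil)))))))))))))))
    (by decide +kernel)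
def t94 : Tree := (.sR 2400 (.sr 3008 (.sR 2208 (.sR 2112 (.sg 37 (.sR 2064 (.sr 2976 (.sR 1968 (.leaf 0x45c3c04000220011000000000a844d044) (.sR 2016 (.leaf 0x4003400004280001080000000b0401006) (.leaf 0x3c00008280081180000000a4001008))) (.sR 1968 (.leaf 0x45c3c04000220031000000000a844d044) (.sR 2016 (.leaf 0x4003400004280001080000000b0401006) (.leaf 0x3800008280091100000000a4001008)))) (.leaf 0x3c0000c280071180000000a8001008)) (.sR 2016 (.sr 2976 (.sR 1968 (.leaf 0x45c3c04000220021000000000ac44d044) (.leaf 0x40034000042800c1080000000a0401006)) (.sR 1968 (.leaf 0x45c3c04000220041000000000ac44d044) (.leaf 0x40034000042800d1080000000b0401006))) (.sR 2064 (.leaf 0x38000082800a1100000000a4001008) (.leaf 0x3c0000c2800b1180000000ac001008)))) (.sR 2160 (.leaf 0x4000014280021200000000ac001008) (.sg 37 (.leaf 0x44000102800e1280000000ac001008) (.leaf 0x4c000102800f1380000000ac001008)))) (.sR 2304 (.sR 2256 (.leaf 0x4800018280031300000000a0001008) (.leaf 0x500001c2800414000000009c001008)) (.sR 2352 (.leaf 0x5400020280051480000000a0001008)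 (.leaf 0x5800024280061500000000a0001008)))) (.sR 2208 (.sR 2112 (.sg 37 (.sR 2064 (.sr 3040 (.sR 1968 (.leaf 0x45c3c04000220051000000000a844d044) (.sR 2016 (.leaf 0x4003400004280161080000000a0401006) (.leaf 0x3800008280171100000000a4001008))) (.sR 1968 (.leaf 0x45c3c04000220001000000000a844d044) (.sR 2016 (.leaf 0x45c4004028220001080000000ac44d044) (.leaf 0x4003800008280181100000000a8401006)))) (.leaf 0x3c0000c280151180000000ac001008)) (.sR 2064 (.sr 3040 (.sR 1968 (.leaf 0x45c3c04000220061000000000ac44d044) (.sR 2016 (.leaf 0x40034000042801a1080000000a0401006) (.leaf 0x40038000082801b1100000000a8401006))) (.sR 1968 (.leaf 0x45c3c04000220071000000000ac44d044) (.sR 2016 (.leaf 0x40034000042801c1080000000a4401006) (.leaf 0x40038000082801d1100000000a8401006)))) (.leaf 0x3c0000c280191180000000ac001008))) (.sR 2160 (.leaf 0x4000014280101200000000ac001008) (.sg 37 (.leaf 0x44000102801e1280000000ac001008) (.leaf 0x44000102801f1280000000a0001008)))) (.sR 2304 (.sR 2256 (.leaf 0x4800018280111300000000a0001008) (.leaf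 0x4c0001c280121380000000a4001008)) (.sR 2352 (.leaf 0x4c00020280131380000000ac001008) (.leaf 0x58000242801415000000009c001008))))) (.sR 2448 (.leaf 0x540002c280011480000000a8001008) (.leaf 3)))
theorem k94 : ChunkP 4 4 2944 3072 36 38 1920 2496 :=
  chkY_sound (Q := 40) (C := [c689.c, c608.c, c609.c, c646.c, c647.c, c663.c, c664.c, c690.c]) (Z := [z3197, z3190, z3191, z3192, z3193, z3194, z3195, z3196, z3198, z3199, z3200, z3201, z3202, z3203, z3204, z3205, z3206, z3207, z3208, z3209, z3210, z3211, z3212, z3213, z3214, z3215, z3216, z3217, z3218, z3219, z3220, z3221])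
    (T := [f_w480_492_4_60_10q, f_w492_504_0_60_20q, f_w504_516_0_60_10q, f_w516_528_0_60_10q, f_w540_552_0_60_10q, f_w528_540_0_60_10q, f_w552_564_0_60_10q, f_w564_576_0_60_10q, f_w576_588_0_60_10q, f_w588_600_0_60_10q, f_w492_504_4_60_20q, f_w600_612_0_60_30q]) (t := t94)
    (all_cons p689 (all_cons p608 (all_cons p609 (all_cons p646 (all_cons p647 (all_cons p663 (all_cons p664 (all_cons p690 all_nil))))))))
    (all_cons z3197P (all_cons z3190P (all_cons z3191P (all_cons z3192P (all_cons z3193P (all_cons z3194P (all_cons z3195P (all_cons z3196P (all_cons z3198P (all_cons z3199P (all_cons z3200P (all_cons z3201P (all_cons z3202P (all_cons z3203P (all_cons z3204P (all_cons z3205P (all_cons z3206P (all_cons z3207P (all_cons z3208P (all_cons z3209P (all_cons z3210P (all_cons z3211P (all_cons z3212P (all_cons z3213P (all_cons z3214P (all_cons z3215P (all_cons z3216P (all_cons z3217P (all_cons z3218P (all_cons z3219P (all_cons z3220P (all_cons z3221P all_nil))))))))))))))))))))))))))))))))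
    (all_cons f_w480_492_4_60_10q_p (all_cons f_w492_504_0_60_20q_p (all_cons f_w504_516_0_60_10q_p (all_cons f_w516_528_0_60_10q_p (all_cons f_w540_552_0_60_10q_p (all_cons f_w528_540_0_60_10q_p (all_cons f_w552_564_0_60_10q_p (all_cons f_w564_576_0_60_10q_p (all_cons f_w576_588_0_60_10q_p (all_cons f_w588_600_0_60_10q_p (all_cons f_w492_504_4_60_20q_p (all_cons f_w600_612_0_60_30q_p all_nil))))))))))))
    (by decide +kernel)
def t95 : Tree := (.sR 2400 (.sr 3008 (.sR 2256 (.sR 2160 (.sg 39 (.sR 2064 (.sR 2016 (.sr 2976 (.sR 1968 (.leaf 0x45c3c04004220001000000000ac44d044) (.leaf 0x4003400000280081080000000a0401006)) (.sR 1968 (.leaf 0x45c3c04004220021000000000ac44d044) (.leaf 0x4003400000280091080000000a4401006))) (.leaf 0x3800008280051100000000a4001008)) (.sR 2112 (.leaf 0x3c0000c280061180000000ac001008) (.leaf 0x4000010280071200000000ac001008))) (.sR 2064 (.sR 2016 (.sr 2976 (.sR 1968 (.leaf 0x45c3c04004220011000000000b044d044) (.leaf 0x40034000002800d1080000000a4401006)) (.sR 1968 (.leaf 0x45c3c04018220031000000000b044d044)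 (.leaf 0x40034000002800e1080000000a4401006))) (.leaf 0x40038000082800a1100000000a8401006)) (.sR 2112 (.leaf 0x400000c2800b1200000000a8001008) (.leaf 0x40000102800c12000000009c001008)))) (.sR 2208 (.leaf 0x4400014280001280000000a0001008) (.leaf 0x480001c280011300000000a4001008))) (.sR 2304 (.leaf 0x5000020280021400000000a0001008) (.sR 2352 (.leaf 0x5400024280031480000000a4001008) (.leaf 0x5c000282800415800000009c001008)))) (.sR 2256 (.sR 2208 (.sg 39 (.sR 2112 (.sR 2064 (.sr 3040 (.sR 1968 (.leaf 0x45c3c04004220041000000000b044d044) (.sR 2016 (.leaf 0x4003400000280151080000000a4401006) (.leaf 0x3c00008280161180000000a8001008))) (.sR 1968 (.leaf 0x45c3c04004220061000000000b044d044) (.sR 2016 (.leaf 0x4003400000280171080000000a4401006) (.leaf 0x4003800008280181100000000ac401006)))) (.leaf 0x4003c0000c280121180000000b0401006)) (.sR 2160 (.leaf 0x4000010280131200000000ac001008) (.leaf 0x4400014280141280000000a0001008))) (.sR 2064 (.sR 2016 (.sr 3040 (.sR 1968 (.leaf 0x45c3c04018220051000000000b044d044) (.leaf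 0x40034000002801d1080000000a4401006)) (.sR 1968 (.leaf 0x45c3c04004220071000000000b044d044) (.leaf 0x40034000002801e1080000000a8401006))) (.leaf 0x4003800008280191100000000ac401006)) (.sR 2112 (.leaf 0x4003c0000c2801a1180000000b0401006) (.sR 2160 (.leaf 0x40000102801b12000000009c001008) (.leaf 0x4c000142801c1380000000ac001008))))) (.leaf 0x480001c2800f1300000000a4001008)) (.sR 2304 (.leaf 0x4c00020280101380000000a8001008) (.sR 2352 (.leaf 0x4c00024280111380000000ac001008) (.leaf 3))))) (.leaf 3))
theorem k95 : ChunkP 4 4 2944 3072 38 40 1920 2496 :=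
  chkY_sound (Q := 40) (C := [c610.c, c611.c, c648.c, c649.c, c665.c, c666.c, c691.c, c692.c]) (Z := [z3222, z3223, z3224, z3225, z3226, z3227, z3228, z3229, z3230, z3231, z3232, z3233, z3234, z3235, z3236, z3237, z3238, z3239, z3240, z3241, z3242, z3243, z3244, z3245, z3246, z3247, z3248, z3249, z3250, z3251, z3252])
    (T := [f_w492_504_0_60_20q, f_w480_492_4_60_10q, f_w504_516_0_60_10q, f_w516_528_0_60_10q, f_w528_540_0_60_10q, f_w540_552_0_60_10q, f_w480_492_4_60_20q, f_w552_564_0_60_10q, f_w564_576_0_60_10q, f_w576_588_0_60_10q, f_w588_600_0_60_10q]) (t := t95)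
    (all_cons p610 (all_cons p611 (all_cons p648 (all_cons p649 (all_cons p665 (all_cons p666 (all_cons p691 (all_cons p692 all_nil))))))))
    (all_cons z3222P (all_cons z3223P (all_cons z3224P (all_cons z3225P (all_cons z3226P (all_cons z3227P (all_cons z3228P (all_cons z3229P (all_cons z3230P (all_cons z3231P (all_cons z3232P (all_cons z3233P (all_cons z3234P (all_cons z3235P (all_cons z3236P (all_cons z3237P (all_cons z3238P (all_cons z3239P (all_cons z3240P (all_cons z3241P (all_cons z3242P (all_cons z3243P (all_cons z3244P (all_cons z3245P (all_cons z3246P (all_cons z3247P (all_cons z3248P (all_cons z3249P (all_cons z3250P (all_cons z3251P (all_cons z3252P all_nil)))))))))))))))))))))))))))))))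
    (all_cons f_w492_504_0_60_20q_p (all_cons f_w480_492_4_60_10q_p (all_cons f_w504_516_0_60_10q_p (all_cons f_w516_528_0_60_10q_p (all_cons f_w528_540_0_60_10q_p (all_cons f_w540_552_0_60_10q_p (all_cons f_w480_492_4_60_20q_p (all_cons f_w552_564_0_60_10q_p (all_cons f_w564_576_0_60_10q_p (all_cons f_w576_588_0_60_10q_p (all_cons f_w588_600_0_60_10q_p all_nil)))))))))))
    (by decide +kernel)

end Pool.Agent.Lib.MP_af3a4a_an.P1.CHK.DATA.N4s
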