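import Pool.Agent.Lib.MP_af3a4a_an.P1.CHK.SWP.Pay
import Pool.Agent.Lib.MP_af3a4a_an.P1.CHK.DATA.N4s.C0
import Pool.Agent.Lib.MP_af3a4a_an.P1.CHK.DATA.N4s.C1
import Pool.Agent.Lib.MP_af3a4a_an.P1.CHK.DATA.N4s.Z10
import Pool.Agent.Lib.MP_af3a4a_an.P1.CHK.DATA.N4s.Z11
import Pool.Agent.Lib.MP_af3a4a_an.P1.CHK.DATA.F4.W480a
import Pool.Agent.Lib.MP_af3a4a_an.P1.CHK.DATA.F4.W480b
import Pool.Agent.Lib.MP_af3a4a_an.P1.CHK.DATA.F4.W528a
import Pool.Agent.Lib.MP_af3a4a_an.P1.CHK.DATA.F4.W528b
import Pool.Agent.Lib.MP_af3a4a_an.P1.CHK.DATA.F4.W576a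
import Pool.Agent.Lib.MP_af3a4a_an.P1.CHK.DATA.F4.W624a

/-! chunks for N = 4 (generated) -/

set_option autoImplicit false
set_option maxRecDepth 100000

namespace Pool.Agent.Lib.MP_af3a4a_an.P1.CHK.DATA.N4s

open BOX SWP

def t96 : Tree := (.leaf 3)
theorem k96 : ChunkP 4 4 2944 3072 36 40 2496 2592 :=
  chkY_sound (Q := 40) (C := []) (Z := [])
    (T := []) (t := t96)
    all_nil
    all_nil
    all_nil
    (by decide +kernel)
def t97 : Tree := (.leaf 3)
theorem k97 : ChunkP 4 4 2816 3072 36 40 2592 2688 :=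
  chkY_sound (Q := 40) (C := []) (Z := [])
    (T := []) (t := t97)
    all_nil
    all_nil
    all_nil
    (by decide +kernel)
def t98 : Tree := (.leaf 3)
theorem k98 : ChunkP 4 4 2816 3072 32 40 2688 2880 :=
  chkY_sound (Q := 40) (C := []) (Z := [])
    (T := []) (t := t98)
    all_nil
    all_nil
    all_nil
    (by decide +kernel)
def t99 : Tree := (.sg 42 (.sR 2304 (.sR 2112 (.sR 2016 (.sR 1968 (.sr 2624 (.sg 41 (.sr 2592 (.leaf 0x45c3c00000220001000000000a844d044) (.leaf 0x45c3c00000220041000000000ac44d044)) (.sr 2592 (.leaf 0x45c3c00000220011000000000a844d044) (.leaf 0x45c3c00000220051000000000ac44d044))) (.sg 41 (.sr 2656 (.leaf 0x45c3c00000220081000000000b044d044) (.leaf 0x45c3c000302200c1000000000b044d044)) (.sr 2656 (.leaf 0x45c3c00004220091000000000b044d044) (.leaf 0x45c38040342400d1000000000b044d044)))) (.leaf 0x4003c00008280051180000000b0401006)) (.sR 2064 (.leaf 0x3800038280061100000000a4001008) (.leaf 0x3c0000c280071180000000ac001008))) (.sR 2208 (.sR 2160 (.leaf 0x4000010280081200000000a8001008)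 (.leaf 0x4800014280091300000000a4001008)) (.sR 2256 (.leaf 0x48000182800a1300000000a4001008) (.leaf 0x500001c2800b1400000000a4001008)))) (.sR 2496 (.sR 2400 (.sR 2352 (.leaf 0x4c00020280001380000000ac001008) (.leaf 0x5800024280001500000000a0001008)) (.sR 2448 (.leaf 0x5800040280011500000000a4001008) (.leaf 0x5800048280011500000000a8001008))) (.sR 2592 (.sR 2544 (.leaf 0x60000282800216000000009c001008) (.leaf 0x600002c280021600000000a4001008)) (.sR 2640 (.leaf 0x6c0004c28003178000000098001008) (.leaf 0x6c000542800317800000009c001008))))) (.sR 2496 (.sR 2400 (.sR 2160 (.sR 2016 (.sR 1968 (.sr 2624 (.sg 43 (.sr 2592 (.leaf 0x45c3c00000220021000000000a844d044) (.leaf 0x45c3c00000220061000000000b044d044)) (.sr 2592 (.leaf 0x45c3804000240031000000000a844d044) (.leaf 0x45c3c00000220071000000000ac44d044))) (.sg 43 (.sr 2656 (.leaf 0x45c38040002400a1000000000b044d044) (.leaf 0x45c3c000042200e1000000000b044d044)) (.sr 2656 (.leaf 0x45c3c000002200b1000000000b044d044) (.leaf 0x45c3c000002200f1000000000b044d044))))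 (.leaf 0x3c000082800e1180000000a8001008)) (.sR 2064 (.leaf 0x400380003c2800f1100000000a8401006) (.sR 2112 (.leaf 0x3c0000c280101180000000ac001008) (.leaf 0x4000010280111200000000ac001008)))) (.sR 2256 (.sR 2208 (.leaf 0x4c00014280121380000000ac001008) (.leaf 0x4800018280131300000000a8001008)) (.sR 2304 (.leaf 0x540001c280141480000000a4001008) (.sR 2352 (.leaf 0x4c00020280151380000000ac001008) (.leaf 0x5c000242801615800000009c001008))))) (.leaf 0x58000442800c1500000000a8001008)) (.sR 2592 (.sR 2544 (.leaf 0x6800028280041700000000a4001008) (.leaf 0x640002c280041680000000a0001008)) (.leaf 0x6c000502800d1780000000a4001008))))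
theorem k99 : ChunkP 4 4 2560 2688 40 44 1920 2688 :=
  chkY_sound (Q := 40) (C := [c271.c, c272.c, c273.c, c274.c, c312.c, c313.c, c314.c, c315.c, c327.c, c328.c, c329.c, c330.c, c361.c, c362.c, c363.c, c364.c]) (Z := [z3260, z3261, z3262, z3263, z3275, z3253, z3254, z3255, z3256, z3257, z3258, z3259, z3264, z3265, z3266, z3267, z3268, z3269, z3270, z3271, z3272, z3273, z3274])
    (T := [f_w480_492_4_50_10q, f_w480_492_4_50_20q, f_w492_504_0_50_20q, f_w516_528_0_60_10q, f_w528_540_0_60_10q, f_w540_552_0_50_30q, f_w552_564_0_60_10q, f_w564_576_0_50_30q, f_w576_588_0_60_10q, f_w588_600_0_50_20q, f_w624_636_0_50_10q, f_w636_648_0_50_10q, f_w480_492_4_50_30q, f_w480_492_4_51_39q, f_w504_516_0_50_30q, f_w504_516_0_60_10q, f_w600_612_0_50_20q, f_w600_624_0_50_10q, f_w612_624_0_50_20q, f_w648_660_0_50_10q, f_w648_672_0_50_35q, f_w660_672_0_50_10q]) (t := t99)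
    (all_cons p271 (all_cons p272 (all_cons p273 (all_cons p274 (all_cons p312 (all_cons p313 (all_cons p314 (all_cons p315 (all_cons p327 (all_cons p328 (all_cons p329 (all_cons p330 (all_cons p361 (all_cons p362 (all_cons p363 (all_cons p364 all_nil))))))))))))))))
    (all_cons z3260P (all_cons z3261P (all_cons z3262P (all_cons z3263P (all_cons z3275P (all_cons z3253P (all_cons z3254P (all_cons z3255P (all_cons z3256P (all_cons z3257P (all_cons z3258P (all_cons z3259P (all_cons z3264P (all_cons z3265P (all_cons z3266P (all_cons z3267P (all_cons z3268P (all_cons z3269P (all_cons z3270P (all_cons z3271P (all_cons z3272P (all_cons z3273P (all_cons z3274P all_nil)))))))))))))))))))))))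
    (all_cons f_w480_492_4_50_10q_p (all_cons f_w480_492_4_50_20q_p (all_cons f_w492_504_0_50_20q_p (all_cons f_w516_528_0_60_10q_p (all_cons f_w528_540_0_60_10q_p (all_cons f_w540_552_0_50_30q_p (all_cons f_w552_564_0_60_10q_p (all_cons f_w564_576_0_50_30q_p (all_cons f_w576_588_0_60_10q_p (all_cons f_w588_600_0_50_20q_p (all_cons f_w624_636_0_50_10q_p (all_cons f_w636_648_0_50_10q_p (all_cons f_w480_492_4_50_30q_p (all_cons f_w480_492_4_51_39q_p (all_cons f_w504_516_0_50_30q_p (all_cons f_w504_516_0_60_10q_p (all_cons f_w600_612_0_50_20q_p (all_cons f_w600_624_0_50_10q_p (all_cons f_w612_624_0_50_20q_p (all_cons f_w648_660_0_50_10q_p (all_cons f_w648_672_0_50_35q_p (all_cons f_w660_672_0_50_10q_p all_nil))))))))))))))))))))))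
    (by decide +kernel)
def t100 : Tree := (.sR 2592 (.sg 42 (.sR 2304 (.sR 2160 (.sR 2064 (.sr 2752 (.sR 1968 (.sg 41 (.sr 2720 (.sR 1944 (.leaf 0x45c3c04008220001000000000a4451044) (.leaf 0x4644004010220001080000000b0459044)) (.leaf 0x45c3c00000220061000000000b044d044)) (.sr 2720 (.leaf 0x45c3c00040220031000000000b044d044) (.leaf 0x45c3c0000c220071000000000b044d044))) (.sR 2016 (.leaf 0x3800004280091100000000a4001008) (.leaf 0x3c000182800a1180000000a4001008))) (.sR 1968 (.sg 41 (.sr 2784 (.leaf 0x45c3c000002200a1000000000b044d044) (.leaf 0x45c3c000002200d1000000000b044d044)) (.sr 2784 (.leaf 0x45c3c000002200b1000000000b044d044) (.leaf 0x45c3c000002200e1000000000b044d044))) (.sR 2016 (.leaf 0x40034000042800b1080000000a0401006) (.leaf 0x3c000182800c1180000000a8001008)))) (.sR 2112 (.leaf 0x3c0001c280011180000000a4001008) (.sr 2752 (.leaf 0x44000202800d1280000000a4001008) (.leaf 0x44000202800e1280000000a8001008)))) (.sR 2208 (.leaf 0x4400024280021280000000a4001008) (.sR 2256 (.sr 2752 (.leaf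 0x50000282800f1400000000a8001008) (.leaf 0x5000028280101400000000a8001008)) (.leaf 0x4c0002c280031380000000a0001008)))) (.sR 2448 (.sR 2352 (.leaf 0x4c00030280041380000000ac001008) (.sR 2400 (.leaf 0x5800034280051500000000a4001008) (.leaf 0x5400038280061480000000a8001008))) (.sR 2496 (.leaf 0x580003c280071500000000a8001008) (.sR 2544 (.leaf 0x6000050280081600000000a4001008) (.leaf 3))))) (.sR 2496 (.sR 2208 (.sR 2064 (.sR 2016 (.sr 2752 (.sR 1968 (.sg 43 (.sr 2720 (.leaf 0x45c3c00014220041000000000b044d044) (.leaf 0x45c3c0000c220081000000000b044d044)) (.sr 2720 (.leaf 0x45c3c00014220051000000000b044d044) (.leaf 0x45c3c0000c220091000000000b044d044))) (.leaf 0x4000004280191200000000a0001008)) (.sR 1968 (.sg 43 (.sr 2784 (.leaf 0x45c3c000002200c1000000000b044d044) (.leaf 0x45c3c000002200f1000000000b044d044)) (.sr 2784 (.sR 1944 (.leaf 0x45c3c04008220011000000000a4451044) (.leaf 0x4644004010220011080000000b0459044)) (.sR 1944 (.leaf 0x45c3c04008220021000000000a4451044) (.leaf 0x4543c04010220021000000000a844d044))))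 (.leaf 0x40038000042801a1100000000ac401006))) (.leaf 0x4003800044280111100000000ac401006)) (.sR 2112 (.leaf 0x3c0001c2801211800000009c001008) (.sR 2160 (.leaf 0x4000048280131200000000ac001008) (.leaf 0x4800024280141300000000a8001008)))) (.sR 2352 (.sR 2256 (.leaf 0x480004c280151300000000a8001008) (.sR 2304 (.leaf 0x500002c280161400000000a4001008) (.leaf 0x4c00030280171380000000ac001008))) (.sR 2400 (.leaf 0x5c00034280181580000000a4001008) (.sR 2448 (.leaf 0x5800038280001500000000a8001008) (.leaf 0x580003c280001500000000a8001008))))) (.leaf 3))) (.leaf 3))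
theorem k100 : ChunkP 4 4 2688 2816 40 44 1920 2688 :=
  chkY_sound (Q := 40) (C := [c380.c, c446.c, c481.c, c381.c, c382.c, c383.c, c422.c, c423.c, c424.c, c425.c, c443.c, c444.c, c445.c, c478.c, c479.c, c480.c]) (Z := [z3300, z3276, z3277, z3278, z3279, z3280, z3281, z3282, z3283, z3284, z3285, z3286, z3287, z3288, z3289, z3290, z3291, z3292, z3293, z3294, z3295, z3296, z3297, z3298, z3299, z3301, z3302])
    (T := [f_w480_492_4_55_30q, f_w492_504_0_50_20q, f_w480_486_4_54_39q, f_w480_492_4_50_40q, f_w486_492_4_54_39q, f_w480_492_4_50_20q, f_w504_516_0_60_10q, f_w516_528_0_50_30q, f_w528_540_0_60_10q, f_w540_552_0_50_30q, f_w552_564_0_60_10q, f_w564_576_0_50_30q, f_w576_588_0_50_30q, f_w588_600_0_50_20q, f_w600_612_0_50_20q, f_w612_624_0_50_20q, f_w480_492_4_51_39q, f_w504_516_0_50_30q, f_w528_540_0_50_30q, f_w552_564_0_50_30q, f_w624_636_0_50_10q]) (t := t100)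
    (all_cons p380 (all_cons p446 (all_cons p481 (all_cons p381 (all_cons p382 (all_cons p383 (all_cons p422 (all_cons p423 (all_cons p424 (all_cons p425 (all_cons p443 (all_cons p444 (all_cons p445 (all_cons p478 (all_cons p479 (all_cons p480 all_nil))))))))))))))))
    (all_cons z3300P (all_cons z3276P (all_cons z3277P (all_cons z3278P (all_cons z3279P (all_cons z3280P (all_cons z3281P (all_cons z3282P (all_cons z3283P (all_cons z3284P (all_cons z3285P (all_cons z3286P (all_cons z3287P (all_cons z3288P (all_cons z3289P (all_cons z3290P (all_cons z3291P (all_cons z3292P (all_cons z3293P (all_cons z3294P (all_cons z3295P (all_cons z3296P (all_cons z3297P (all_cons z3298P (all_cons z3299P (all_cons z3301P (all_cons z3302P all_nil)))))))))))))))))))))))))))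
    (all_cons f_w480_492_4_55_30q_p (all_cons f_w492_504_0_50_20q_p (all_cons f_w480_486_4_54_39q_p (all_cons f_w480_492_4_50_40q_p (all_cons f_w486_492_4_54_39q_p (all_cons f_w480_492_4_50_20q_p (all_cons f_w504_516_0_60_10q_p (all_cons f_w516_528_0_50_30q_p (all_cons f_w528_540_0_60_10q_p (all_cons f_w540_552_0_50_30q_p (all_cons f_w552_564_0_60_10q_p (all_cons f_w564_576_0_50_30q_p (all_cons f_w576_588_0_50_30q_p (all_cons f_w588_600_0_50_20q_p (all_cons f_w600_612_0_50_20q_p (all_cons f_w612_624_0_50_20q_p (all_cons f_w480_492_4_51_39q_p (all_cons f_w504_516_0_50_30q_p (all_cons f_w528_540_0_50_30q_p (all_cons f_w552_564_0_50_30q_p (all_cons f_w624_636_0_50_10q_p all_nil)))))))))))))))))))))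
    (by decide +kernel)
def t101 : Tree := (.sR 2592 (.sr 2688 (.sg 46 (.sR 2208 (.sR 2016 (.sR 1968 (.sr 2624 (.sg 45 (.sr 2592 (.leaf 0x45c3c00000220091000000000a844d044) (.leaf 0x45c3c000002200d1000000000a844d044)) (.sr 2592 (.leaf 0x45c3c000002200a1000000000a844d044) (.leaf 0x45c3c000002200e1000000000a844d044))) (.sg 45 (.sr 2656 (.leaf 0x45c3c00000220111000000000ac44d044) (.leaf 0x45c3c00000220151000000000ac44d044)) (.sr 2656 (.leaf 0x45c3c00000220121000000000a844d044) (.leaf 0x45c3c00000220161000000000ac44d044)))) (.leaf 0x400000c280051200000000ac001008)) (.sR 2112 (.leaf 0x4003c00018280001180000000b0401006) (.sR 2160 (.leaf 0x4000010280061200000000ac001008) (.leaf 0x4800048280071300000000a4001008)))) (.sR 2400 (.sR 2304 (.leaf 0x4c00020280011380000000ac001008) (.leaf 0x5400024280021480000000a4001008)) (.sR 2496 (.leaf 0x5800028280031500000000a8001008) (.leaf 0x6000064280041600000000a4001008)))) (.sR 2208 (.sR 2016 (.sR 1968 (.sr 2624 (.sg 47 (.sr 2592 (.leaf 0x45c3c000002200b1000000000a844d044)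 (.leaf 0x45c3c000002200f1000000000a844d044)) (.sr 2592 (.leaf 0x45c3c000002200c1000000000a844d044) (.leaf 0x45c3c00000220101000000000a844d044))) (.sg 47 (.sr 2656 (.leaf 0x45c3c00000220131000000000a844d044) (.leaf 0x45c3c00000220171000000000ac44d044)) (.sr 2656 (.leaf 0x45c3c00000220141000000000a844d044) (.leaf 0x45c3c00000220181000000000ac44d044)))) (.leaf 0x480000c2800d13000000009c001008)) (.sR 2112 (.leaf 0x3c00018280081180000000a4001008) (.leaf 0x4400044280091280000000a4001008))) (.sR 2400 (.sR 2304 (.leaf 0x4c000502800a1380000000a0001008) (.leaf 0x54000582800b1480000000a4001008)) (.sR 2496 (.leaf 0x60000282800c1600000000a0001008) (.leaf 3))))) (.sR 2496 (.sg 46 (.sR 2304 (.sR 2112 (.sR 2016 (.sR 1968 (.sr 2752 (.sg 45 (.sr 2720 (.leaf 0x45c3c00000220191000000000b044d044) (.leaf 0x45c3c000142201d1000000000b044d044)) (.sr 2720 (.leaf 0x45c3c000002201a1000000000b044d044) (.leaf 0x45c3c000142201e1000000000b044d044))) (.sg 45 (.sr 2784 (.sR 1944 (.leaf 0x45c3c04004220021000000000a4451044)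 (.leaf 0x4543c04008220021000000000a844d044)) (.sR 1944 (.leaf 0x45c3c04004220051000000000a8451044) (.leaf 0x4543c04008220051000000000a844d044))) (.sr 2784 (.sR 1944 (.leaf 0x45c3c04004220031000000000a8451044) (.leaf 0x4543c04008220031000000000a844d044)) (.sR 1944 (.leaf 0x45c3c04004220061000000000a8451044) (.leaf 0x4543c04008220061000000000a844d044))))) (.leaf 0x400380000c2800f1100000000a8401006)) (.sR 2064 (.leaf 0x4003800034280101100000000b0401006) (.leaf 0x400003c280111200000000a4001008))) (.sR 2208 (.sR 2160 (.leaf 0x4000010280121200000000ac001008) (.leaf 0x480001c280131300000000a8001008)) (.sR 2256 (.leaf 0x480004c280141300000000a4001008) (.leaf 0x5000054280151400000000a0001008)))) (.sR 2400 (.leaf 0x54000242800e1480000000a8001008) (.sR 2448 (.leaf 0x5c00060280161580000000a8001008) (.leaf 3)))) (.sR 2304 (.sR 2208 (.sR 2064 (.sR 1968 (.sr 2752 (.sg 47 (.sr 2720 (.leaf 0x45c3c000002201b1000000000b044d044) (.sR 1944 (.leaf 0x45c3c04004220001000000000a8451044) (.leaf 0x4543c04008220001000000000a844d044)))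 (.sr 2720 (.leaf 0x45c3c0002c2201c1000000000b044d044) (.sR 1944 (.leaf 0x45c3c04004220011000000000a8451044) (.leaf 0x4543c04008220011000000000a844d044)))) (.sg 47 (.sr 2784 (.sR 1944 (.leaf 0x45c3c04004220041000000000a8451044) (.leaf 0x4543c04008220041000000000a844d044)) (.sR 1944 (.leaf 0x45c3c04004220071000000000a8451044) (.leaf 0x4543c04008220071000000000a844d044))) (.sr 2784 (.leaf 0x45c3c000302201f1000000000b044d044) (.sR 1944 (.leaf 0x45c3c04004220081000000000a8451044) (.leaf 0x4543c04008220081000000000a844d044))))) (.sR 2016 (.leaf 0x3c0000c280191180000000ac001008) (.leaf 0x40038000382801a1100000000ac401006))) (.sR 2112 (.leaf 0x4003c000402801b1180000000b0401006) (.sR 2160 (.leaf 0x40000102801c1200000000a8001008) (.leaf 0x4c0001c2801d1380000000a8001008)))) (.leaf 0x4c00020280171380000000ac001008)) (.sR 2400 (.leaf 0x540005c280181480000000a8001008) (.leaf 3)))) (.leaf 3))) (.leaf 3))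
theorem k101 : ChunkP 4 4 2560 2816 44 48 1920 2688 :=
  chkY_sound (Q := 40) (C := [c428.c, c429.c, c447.c, c448.c, c449.c, c482.c, c483.c, c484.c, c485.c, c275.c, c276.c, c277.c, c278.c, c316.c, c317.c, c318.c, c319.c, c331.c, c332.c, c333.c, c334.c, c365.c, c366.c, c367.c, c368.c, c384.c, c385.c, c386.c, c387.c, c426.c, c427.c, c450.c]) (Z := [z3303, z3304, z3305, z3306, z3307, z3308, z3309, z3310, z3311, z3312, z3313, z3314, z3315, z3316, z3317, z3318, z3319, z3320, z3321, z3322, z3323, z3324, z3325, z3326, z3327, z3328, z3329, z3330, z3331, z3332])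
    (T := [f_w480_492_4_50_10q, f_w480_486_4_54_39q, f_w486_492_4_54_39q, f_w492_504_0_50_20q, f_w528_540_0_60_10q, f_w480_492_4_50_30q, f_w504_528_0_50_0q, f_w540_552_0_50_30q, f_w552_576_0_50_40q, f_w576_600_0_50_40q, f_w600_624_0_40_0q, f_w480_492_4_50_20q, f_w480_492_4_50_40q, f_w504_516_0_50_30q, f_w504_516_0_60_10q, f_w516_528_0_50_30q, f_w516_528_0_60_10q, f_w528_552_0_50_0q, f_w540_552_0_60_10q, f_w552_564_0_60_10q, f_w552_576_0_50_0q, f_w564_576_0_50_30q, f_w576_600_0_40_0q, f_w576_600_0_50_10q, f_w600_612_0_50_20q, f_w624_648_0_40_0q]) (t := t101)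
    (all_cons p428 (all_cons p429 (all_cons p447 (all_cons p448 (all_cons p449 (all_cons p482 (all_cons p483 (all_cons p484 (all_cons p485 (all_cons p275 (all_cons p276 (all_cons p277 (all_cons p278 (all_cons p316 (all_cons p317 (all_cons p318 (all_cons p319 (all_cons p331 (all_cons p332 (all_cons p333 (all_cons p334 (all_cons p365 (all_cons p366 (all_cons p367 (all_cons p368 (all_cons p384 (all_cons p385 (all_cons p386 (all_cons p387 (all_cons p426 (all_cons p427 (all_cons p450 all_nil))))))))))))))))))))))))))))))))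
    (all_cons z3303P (all_cons z3304P (all_cons z3305P (all_cons z3306P (all_cons z3307P (all_cons z3308P (all_cons z3309P (all_cons z3310P (all_cons z3311P (all_cons z3312P (all_cons z3313P (all_cons z3314P (all_cons z3315P (all_cons z3316P (all_cons z3317P (all_cons z3318P (all_cons z3319P (all_cons z3320P (all_cons z3321P (all_cons z3322P (all_cons z3323P (all_cons z3324P (all_cons z3325P (all_cons z3326P (all_cons z3327P (all_cons z3328P (all_cons z3329P (all_cons z3330P (all_cons z3331P (all_cons z3332P all_nil))))))))))))))))))))))))))))))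
    (all_cons f_w480_492_4_50_10q_p (all_cons f_w480_486_4_54_39q_p (all_cons f_w486_492_4_54_39q_p (all_cons f_w492_504_0_50_20q_p (all_cons f_w528_540_0_60_10q_p (all_cons f_w480_492_4_50_30q_p (all_cons f_w504_528_0_50_0q_p (all_cons f_w540_552_0_50_30q_p (all_cons f_w552_576_0_50_40q_p (all_cons f_w576_600_0_50_40q_p (all_cons f_w600_624_0_40_0q_p (all_cons f_w480_492_4_50_20q_p (all_cons f_w480_492_4_50_40q_p (all_cons f_w504_516_0_50_30q_p (all_cons f_w504_516_0_60_10q_p (all_cons f_w516_528_0_50_30q_p (all_cons f_w516_528_0_60_10q_p (all_cons f_w528_552_0_50_0q_p (all_cons f_w540_552_0_60_10q_p (all_cons f_w552_564_0_60_10q_p (all_cons f_w552_576_0_50_0q_p (all_cons f_w564_576_0_50_30q_p (all_cons f_w576_600_0_40_0q_p (all_cons f_w576_600_0_50_10q_p (all_cons f_w600_612_0_50_20q_p (all_cons f_w624_648_0_40_0q_p all_nil))))))))))))))))))))))))))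
    (by decide +kernel)

end Pool.Agent.Lib.MP_af3a4a_an.P1.CHK.DATA.N4s
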