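import Pool.Agent.Lib.MP_af3a4a_an.P1.CHK.SWP.Pay
import Pool.Agent.Lib.MP_af3a4a_an.P1.CHK.DATA.N4s.C0
import Pool.Agent.Lib.MP_af3a4a_an.P1.CHK.DATA.N4s.C1
import Pool.Agent.Lib.MP_af3a4a_an.P1.CHK.DATA.N4s.C2
import Pool.Agent.Lib.MP_af3a4a_an.P1.CHK.DATA.N4s.Z11
import Pool.Agent.Lib.MP_af3a4a_an.P1.CHK.DATA.F4.W480a
import Pool.Agent.Lib.MP_af3a4a_an.P1.CHK.DATA.F4.W480b
import Pool.Agent.Lib.MP_af3a4a_an.P1.CHK.DATA.F4.W528a
import Pool.Agent.Lib.MP_af3a4a_an.P1.CHK.DATA.F4.W576a

/-! chunks for N = 4 (generated) -/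

set_option autoImplicit false
set_option maxRecDepth 100000

namespace Pool.Agent.Lib.MP_af3a4a_an.P1.CHK.DATA.N4s

open BOX SWP

def t108 : Tree := (.leaf 3)
theorem k108 : ChunkP 4 4 2560 3072 40 48 2688 2880 :=
  chkY_sound (Q := 40) (C := []) (Z := [])
    (T := []) (t := t108)
    all_nil
    all_nil
    all_nil
    (by decide +kernel)
def t109 : Tree := (.leaf 3)
theorem k109 : ChunkP 4 4 2560 3072 32 48 2880 3072 :=
  chkY_sound (Q := 40) (C := []) (Z := [])
    (T := []) (t := t109)
    all_nil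
    all_nil
    all_nil
    (by decide +kernel)
def t110 : Tree := (.sg 52 (.sr 2688 (.sR 2112 (.sR 2016 (.sg 50 (.sR 1968 (.sr 2624 (.sg 49 (.leaf 0x45c3c00014220021000000000b044d044) (.leaf 0x45c3c00014220031000000000b044d044)) (.sg 49 (.sr 2656 (.leaf 0x45c3c00000220091000000000a844d044) (.leaf 0x45c3c00000220111000000000ac44d044)) (.sr 2656 (.leaf 0x45c3c000002200a1000000000a844d044) (.leaf 0x45c3c00000220121000000000ac44d044)))) (.leaf 0x48000042800413000000008c001008)) (.sR 1968 (.sr 2624 (.sg 51 (.leaf 0x45c3c00000220041000000000b044d044) (.leaf 0x45c3c00000220051000000000ac44d044)) (.sg 51 (.leaf 0x45c3c0002c2200b1000000000b044d044) (.leaf 0x45c3c000002200c1000000000b044d044))) (.leaf 0x4204c0000428005139c8001bc7a421005))) (.leaf 0x4000008280001200000000a4001008)) (.sR 2208 (.leaf 0x480000c280011300000000a0001008) (.sR 2304 (.leaf 0x5000010280021400000000a0001008) (.leaf 0x6000038280031600000000a0001008)))) (.sR 2304 (.sg 50 (.sR 2112 (.sR 2016 (.sR 1968 (.sr 2752 (.sg 49 (.sr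 2720 (.leaf 0x45c3c00000220131000000000ac44d044) (.leaf 0x45c3c000002201b1000000000b044d044)) (.sr 2720 (.leaf 0x45c3c00000220141000000000ac44d044) (.leaf 0x45c3c000002201c1000000000ac44d044))) (.sg 49 (.sr 2784 (.leaf 0x45c3c00000220201000000000b044d044) (.sR 1944 (.leaf 0x45c3c04018220001000000000a8451044) (.leaf 0x4543c04020220001000000000a844d044))) (.sr 2784 (.leaf 0x45c3c00000220211000000000b044d044) (.sR 1944 (.leaf 0x45c3c04018220011000000000a8451044) (.leaf 0x4543c04020220011000000000a844d044))))) (.leaf 0x4000004280091200000000ac001008)) (.leaf 0x3c00008280061180000000ac001008)) (.sR 2208 (.leaf 0x440000c280071280000000a8001008) (.leaf 0x4c00010280081380000000a0001008))) (.sR 2112 (.sR 2016 (.sR 1968 (.sr 2752 (.sg 51 (.sr 2720 (.leaf 0x45c3c00000220151000000000a844d044) (.leaf 0x45c3c000002201d1000000000ac44d044)) (.sr 2720 (.leaf 0x45c3c00000220161000000000a844d044) (.leaf 0x45c3c000002201e1000000000a844d044))) (.sg 51 (.sr 2784 (.leaf 0x45c3c00000220221000000000b044d044) (.leaf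 0x45c3c00034220281000000000b044d044)) (.sr 2784 (.leaf 0x45c3c00000220231000000000ac44d044) (.leaf 0x45c3c00000220291000000000b044d044)))) (.leaf 0x48000042800d130000000090001008)) (.leaf 0x40000082800a1200000000ac001008)) (.sR 2208 (.leaf 0x540000c2800b1480000000a0001008) (.leaf 0x54000102800c1480000000a4001008)))) (.leaf 3))) (.sR 2304 (.sr 2688 (.sR 2112 (.sR 2016 (.sg 54 (.sR 1968 (.sr 2624 (.sg 53 (.leaf 0x45c3c00000220061000000000a844d044) (.leaf 0x45c3c00000220071000000000a844d044)) (.sg 53 (.leaf 0x45c3c000002200d1000000000b044d044) (.leaf 0x45c3c000002200e1000000000ac44d044))) (.leaf 0x3e05400004280111490456ef97a3e1005)) (.sR 1968 (.sr 2624 (.leaf 0x45c3c00024220081000000000ac44d044) (.sg 55 (.leaf 0x45c3c000002200f1000000000ac44d044) (.leaf 0x45c3c00000220101000000000a844d044))) (.leaf 0x3d0540000428012149045ca6c653d1005))) (.leaf 0x4c000082800e1380000000a4001008)) (.sR 2208 (.leaf 0x540000c2800f148000000098001008) (.leaf 0x5c000102801015800000008c001008))) (.sR 2112 (.sR 2016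 (.sg 54 (.sR 1968 (.sr 2752 (.sg 53 (.sr 2720 (.leaf 0x45c3c00000220171000000000a844d044) (.leaf 0x45c3c000002201f1000000000a844d044)) (.leaf 0x45c3c00030220181000000000b044d044)) (.sg 53 (.sr 2784 (.leaf 0x45c3c00000220241000000000a844d044) (.leaf 0x45c3c000002202a1000000000b044d044)) (.sr 2784 (.leaf 0x45c3c00000220251000000000a844d044) (.leaf 0x45c3c000002202b1000000000b044d044)))) (.leaf 0x4404c0000428015139c8006bb7a441005)) (.sR 1968 (.sr 2752 (.sg 55 (.leaf 0x45c3c00014220191000000000b044d044) (.leaf 0x45c3c000282201a1000000000b044d044)) (.sg 55 (.leaf 0x45c3c0001c220261000000000b044d044) (.leaf 0x45c3c0001c220271000000000a844d044))) (.leaf 0x40050000042801614144000027a401005))) (.leaf 0x4800008280131300000000ac001008)) (.sR 2208 (.leaf 0x500000c2801414000000009c001008) (.leaf 3)))) (.leaf 3)))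
theorem k110 : ChunkP 4 4 2560 2816 48 56 1920 2400 :=
  chkY_sound (Q := 40) (C := [c486.c, c487.c, c290.c, c291.c, c292.c, c293.c, c294.c, c295.c, c296.c, c335.c, c336.c, c347.c, c348.c, c349.c, c350.c, c351.c, c352.c, c369.c, c370.c, c388.c, c389.c, c390.c, c391.c, c392.c, c402.c, c403.c, c404.c, c430.c, c431.c, c432.c, c433.c, c434.c, c451.c, c452.c, c453.c, c454.c, c455.c, c456.c, c467.c, c468.c, c488.c, c489.c, c490.c, c491.c]) (Z := [z3445, z3446, z3447, z3448, z3449, z3450, z3451, z3452, z3453, z3454, z3455, z3456, z3457, z3458, z3459, z3460, z3461, z3462, z3463, z3464, z3465, z3466, z3467])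
    (T := [f_w480_492_4_50_10q, f_w492_504_0_50_20q, f_w504_528_0_50_0q, f_w528_552_0_50_0q, f_w552_576_0_50_0q, f_w480_492_4_45_35q, f_w480_486_4_54_39q, f_w480_492_4_40_50q, f_w486_492_4_54_39q, f_w480_492_4_40_20q, f_w480_492_4_40_40q, f_w480_492_4_45_40q, f_w480_492_4_45_50q, f_w480_492_4_50_50q, f_w576_600_0_40_0q]) (t := t110)
    (all_cons p486 (all_cons p487 (all_cons p290 (all_cons p291 (all_cons p292 (all_cons p293 (all_cons p294 (all_cons p295 (all_cons p296 (all_cons p335 (all_cons p336 (all_cons p347 (all_cons p348 (all_cons p349 (all_cons p350 (all_cons p351 (all_cons p352 (all_cons p369 (all_cons p370 (all_cons p388 (all_cons p389 (all_cons p390 (all_cons p391 (all_cons p392 (all_cons p402 (all_cons p403 (all_cons p404 (all_cons p430 (all_cons p431 (all_cons p432 (all_cons p433 (all_cons p434 (all_cons p451 (all_cons p452 (all_cons p453 (all_cons p454 (all_cons p455 (all_cons p456 (all_cons p467 (all_cons p468 (all_cons p488 (all_cons p489 (all_cons p490 (all_cons p491 all_nil))))))))))))))))))))))))))))))))))))))))))))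
    (all_cons z3445P (all_cons z3446P (all_cons z3447P (all_cons z3448P (all_cons z3449P (all_cons z3450P (all_cons z3451P (all_cons z3452P (all_cons z3453P (all_cons z3454P (all_cons z3455P (all_cons z3456P (all_cons z3457P (all_cons z3458P (all_cons z3459P (all_cons z3460P (all_cons z3461P (all_cons z3462P (all_cons z3463P (all_cons z3464P (all_cons z3465P (all_cons z3466P (all_cons z3467P all_nil)))))))))))))))))))))))
    (all_cons f_w480_492_4_50_10q_p (all_cons f_w492_504_0_50_20q_p (all_cons f_w504_528_0_50_0q_p (all_cons f_w528_552_0_50_0q_p (all_cons f_w552_576_0_50_0q_p (all_cons f_w480_492_4_45_35q_p (all_cons f_w480_486_4_54_39q_p (all_cons f_w480_492_4_40_50q_p (all_cons f_w486_492_4_54_39q_p (all_cons f_w480_492_4_40_20q_p (all_cons f_w480_492_4_40_40q_p (all_cons f_w480_492_4_45_40q_p (all_cons f_w480_492_4_45_50q_p (all_cons f_w480_492_4_50_50q_p (all_cons f_w576_600_0_40_0q_p all_nil)))))))))))))))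
    (by decide +kernel)
def t111 : Tree := (.sr 2944 (.sg 50 (.sR 2112 (.sR 2016 (.sR 1968 (.sr 2880 (.sg 49 (.sr 2848 (.sR 1944 (.leaf 0x45c3c04000220001000000000a8451044) (.leaf 0x4543c04004220001000000000a844d044)) (.sR 1944 (.leaf 0x45c3c04000220031000000000a8451044) (.leaf 0x4543c04004220031000000000a844d044))) (.sr 2848 (.sR 1944 (.leaf 0x45c3c04000220011000000000a8451044) (.leaf 0x4543c04004220011000000000a844d044)) (.sR 1944 (.leaf 0x45c3c04000220041000000000ac451044) (.leaf 0x4543c04004220041000000000a844d044)))) (.sg 49 (.sr 2912 (.sR 1944 (.leaf 0x45c3c04000220071000000000ac451044) (.leaf 0x4543c04004220071000000000a844d044)) (.sR 1944 (.leaf 0x45c40000002000b1000000000b0451044) (.leaf 0x45440000042000b1000000000ac44d044))) (.sr 2912 (.sR 1944 (.leaf 0x45c3c04000220081000000000b0451044) (.leaf 0x4543c04004220081000000000ac44d044)) (.sR 1944 (.leaf 0x45c3c040002200c1000000000b0451044) (.leaf 0x4543c040042200c1000000000a844d044))))) (.leaf 0x3800008280011100000000a4001008)) (.sR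 2064 (.leaf 0x400380000c280021100000000ac401006) (.leaf 0x4003c00024280031180000000b0401006))) (.leaf 0x440002c280001280000000a8001008)) (.sR 2016 (.sR 1968 (.sr 2880 (.sg 51 (.sr 2848 (.leaf 0x45c3c000142201c1000000000b044d044) (.sR 1944 (.leaf 0x45c3c04000220051000000000b0451044) (.leaf 0x4543c04004220051000000000a844d044))) (.sr 2848 (.sR 1944 (.leaf 0x45c3c04000220021000000000ac451044) (.leaf 0x4543c04004220021000000000a844d044)) (.sR 1944 (.leaf 0x45c3c04000220061000000000b0451044) (.leaf 0x4543c04004220061000000000ac44d044)))) (.sg 51 (.sr 2912 (.sR 1944 (.leaf 0x45c3c04000220091000000000b0451044) (.leaf 0x4543c04004220091000000000a844d044)) (.sR 1944 (.leaf 0x45c3c040002200d1000000000b0451044) (.leaf 0x4543c040042200d1000000000a844d044))) (.sr 2912 (.sR 1944 (.leaf 0x45c3c040002200a1000000000ac451044) (.leaf 0x4543c040042200a1000000000a844d044)) (.leaf 0x45c3c000102201d1000000000b044d044)))) (.leaf 0x3c00008280061180000000a4001008)) (.sR 2112 (.leaf 0x3c0001c280041180000000ac001008)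 (.leaf 0x4400028280051280000000a4001008)))) (.sR 2112 (.sg 50 (.sR 2064 (.sr 3008 (.sR 1968 (.sg 49 (.sr 2976 (.sR 1944 (.leaf 0x45c3c040002200e1000000000b0451044) (.leaf 0x4543c040042200e1000000000a844d044)) (.sR 1944 (.leaf 0x45c3c04000220121000000000b0451044) (.leaf 0x4543c04004220121000000000a844d044))) (.sr 2976 (.sR 1944 (.leaf 0x45c3c040002200f1000000000b0451044) (.leaf 0x4543c040042200f1000000000a844d044)) (.sR 1944 (.leaf 0x45c3c04000220131000000000b0451044) (.leaf 0x4543c04004220131000000000a844d044)))) (.sR 2016 (.leaf 0x4000008280081200000000a8001008) (.leaf 0x3c0000c280091180000000a8001008))) (.sR 1968 (.sg 49 (.sr 3040 (.sR 1944 (.leaf 0x45c3c040002201f1000000000b0451044) (.leaf 0x45440000042001e1000000000a844d044)) (.sR 1944 (.leaf 0x45c4000000200191000000000b0451044) (.leaf 0x4544000004200191000000000a844d044))) (.sr 3040 (.sR 1944 (.leaf 0x45c4000000200161000000000b0451044) (.leaf 0x4544000004200161000000000a844d044)) (.sR 1944 (.leaf 0x45c40000002001a1000000000b0451044)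 (.leaf 0x45440000042001a1000000000a844d044)))) (.sR 2016 (.leaf 0x40034000082800a1080000000a4401006) (.leaf 0x3c0000c2800b1180000000ac001008)))) (.leaf 0x3c00020280071180000000a0001008)) (.sR 2016 (.sR 1968 (.sr 3008 (.sg 51 (.sr 2976 (.sR 1944 (.leaf 0x45c3c04000220101000000000b0451044) (.leaf 0x4543c04004220101000000000a844d044)) (.sR 1944 (.leaf 0x45c4000000200141000000000b0451044) (.leaf 0x4544000004200141000000000a844d044))) (.sr 2976 (.sR 1944 (.leaf 0x45c3c04000220111000000000b0451044) (.leaf 0x4543c04004220111000000000a844d044)) (.sR 1944 (.leaf 0x45c3c04000220151000000000b0451044) (.leaf 0x4543c04004220151000000000ac44d044)))) (.sg 51 (.sr 3040 (.sR 1944 (.leaf 0x45c4000000200171000000000b0451044) (.leaf 0x4544000004200171000000000a844d044)) (.sR 1944 (.leaf 0x45c40000002001b1000000000b0451044) (.leaf 0x45440000042001b1000000000a844d044))) (.sr 3040 (.sR 1944 (.leaf 0x45c4000000200181000000000b0451044) (.leaf 0x4544000004200181000000000ac44d044)) (.sR 1944 (.leaf 0x44c3c00000200200f80000000b4445044)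 (.leaf 3))))) (.leaf 0x40038000082800c1100000000ac401006)) (.sR 2064 (.leaf 0x40038000182800d1100000000a8401006) (.leaf 3)))) (.leaf 3)))
theorem k111 : ChunkP 4 4 2816 3072 48 52 1920 2208 :=
  chkY_sound (Q := 40) (C := [c507.c, c508.c, c510.c, c550.c, c551.c, c552.c, c553.c, c570.c, c571.c, c572.c, c573.c, c600.c, c601.c, c602.c, c621.c, c622.c, c623.c, c624.c, c658.c, c659.c, c660.c, c661.c, c677.c, c678.c, c679.c, c701.c, c702.c, c703.c, c509.c, c603.c, c675.c, c676.c, c704.c]) (Z := [z3468, z3469, z3470, z3471, z3472, z3473, z3474, z3475, z3476, z3477, z3478, z3479, z3480, z3481])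
    (T := [f_w480_486_4_54_39q, f_w486_492_4_54_39q, f_w492_504_0_50_20q, f_w504_516_0_60_10q, f_w480_492_4_48_51q, f_w480_492_4_50_50q, f_w504_516_0_50_30q, f_w504_528_0_50_0q, f_w516_528_0_50_30q, f_w516_528_0_60_10q, f_w528_552_0_50_0q, f_w528_552_0_50_45q]) (t := t111)
    (all_cons p507 (all_cons p508 (all_cons p510 (all_cons p550 (all_cons p551 (all_cons p552 (all_cons p553 (all_cons p570 (all_cons p571 (all_cons p572 (all_cons p573 (all_cons p600 (all_cons p601 (all_cons p602 (all_cons p621 (all_cons p622 (all_cons p623 (all_cons p624 (all_cons p658 (all_cons p659 (all_cons p660 (all_cons p661 (all_cons p677 (all_cons p678 (all_cons p679 (all_cons p701 (all_cons p702 (all_cons p703 (all_cons p509 (all_cons p603 (all_cons p675 (all_cons p676 (all_cons p704 all_nil)))))))))))))))))))))))))))))))))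
    (all_cons z3468P (all_cons z3469P (all_cons z3470P (all_cons z3471P (all_cons z3472P (all_cons z3473P (all_cons z3474P (all_cons z3475P (all_cons z3476P (all_cons z3477P (all_cons z3478P (all_cons z3479P (all_cons z3480P (all_cons z3481P all_nil))))))))))))))
    (all_cons f_w480_486_4_54_39q_p (all_cons f_w486_492_4_54_39q_p (all_cons f_w492_504_0_50_20q_p (all_cons f_w504_516_0_60_10q_p (all_cons f_w480_492_4_48_51q_p (all_cons f_w480_492_4_50_50q_p (all_cons f_w504_516_0_50_30q_p (all_cons f_w504_528_0_50_0q_p (all_cons f_w516_528_0_50_30q_p (all_cons f_w516_528_0_60_10q_p (all_cons f_w528_552_0_50_0q_p (all_cons f_w528_552_0_50_45q_p all_nil))))))))))))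
    (by decide +kernel)
def t112 : Tree := (.sR 2112 (.sr 2944 (.sg 54 (.sR 2016 (.sR 1968 (.sr 2880 (.sg 53 (.sr 2848 (.leaf 0x45c3c00000220001000000000b044d044) (.leaf 0x45c3c00000220041000000000b044d044)) (.sr 2848 (.leaf 0x45c3c00014220011000000000b044d044) (.leaf 0x45c3c00000220051000000000ac44d044))) (.sg 53 (.sr 2912 (.leaf 0x45c3c00000220061000000000b044d044) (.leaf 0x45c3c00000220091000000000b044d044)) (.sr 2912 (.leaf 0x45c3c00000220071000000000ac44d044) (.leaf 0x45c3c000002200a1000000000b044d044)))) (.leaf 0x480000828001130000000090001008)) (.leaf 0x4000018280001200000000ac001008)) (.sR 2016 (.sR 1968 (.sr 2880 (.sg 55 (.leaf 0x45c3c00010220021000000000ac44d044) (.leaf 0x45c3c0000c220031000000000ac44d044)) (.sg 55 (.sr 2912 (.leaf 0x45c3c00000220081000000000ac44d044) (.leaf 3)) (.leaf 3))) (.leaf 0x4204c0000828002139c8001bc7a421005)) (.leaf 3))) (.sR 2016 (.sg 54 (.sR 1968 (.sr 3008 (.sg 53 (.sr 2976 (.leaf 0x45c3c000042200b1000000000b044d044) (.leaf 0x45c3c000042200d1000000000b044d044))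 (.sr 2976 (.leaf 0x45c3c000002200c1000000000b044d044) (.leaf 3))) (.leaf 3)) (.leaf 3)) (.leaf 3)) (.leaf 3))) (.leaf 3))
theorem k112 : ChunkP 4 4 2816 3072 52 56 1920 2208 :=
  chkY_sound (Q := 40) (C := [c511.c, c512.c, c523.c, c524.c, c554.c, c555.c, c574.c, c575.c, c576.c, c604.c, c605.c, c625.c, c626.c, c662.c]) (Z := [z3482, z3483, z3484])
    (T := [f_w480_492_4_50_50q, f_w480_492_4_51_51q, f_w492_504_0_50_20q, f_w480_492_4_40_50q, f_w480_492_4_45_50q, f_w480_492_4_50_10q, f_w504_528_0_50_0q]) (t := t112)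
    (all_cons p511 (all_cons p512 (all_cons p523 (all_cons p524 (all_cons p554 (all_cons p555 (all_cons p574 (all_cons p575 (all_cons p576 (all_cons p604 (all_cons p605 (all_cons p625 (all_cons p626 (all_cons p662 all_nil))))))))))))))
    (all_cons z3482P (all_cons z3483P (all_cons z3484P all_nil)))
    (all_cons f_w480_492_4_50_50q_p (all_cons f_w480_492_4_51_51q_p (all_cons f_w492_504_0_50_20q_p (all_cons f_w480_492_4_40_50q_p (all_cons f_w480_492_4_45_50q_p (all_cons f_w480_492_4_50_10q_p (all_cons f_w504_528_0_50_0q_p all_nil)))))))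
    (by decide +kernel)
def t113 : Tree := (.leaf 3)
theorem k113 : ChunkP 4 4 2816 3072 48 56 2208 2400 :=
  chkY_sound (Q := 40) (C := []) (Z := [])
    (T := []) (t := t113)
    all_nil
    all_nil
    all_nil
    (by decide +kernel)

end Pool.Agent.Lib.MP_af3a4a_an.P1.CHK.DATA.N4s
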