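import Pool.Agent.Lib.MP_af3a4a_an.P1.CHK.SWP.Pay
import Pool.Agent.Lib.MP_af3a4a_an.P1.CHK.DATA.N4s.C0
import Pool.Agent.Lib.MP_af3a4a_an.P1.CHK.DATA.N4s.C1
import Pool.Agent.Lib.MP_af3a4a_an.P1.CHK.DATA.N4s.C2
import Pool.Agent.Lib.MP_af3a4a_an.P1.CHK.DATA.N4s.Z11
import Pool.Agent.Lib.MP_af3a4a_an.P1.CHK.DATA.F4.W480a
import Pool.Agent.Lib.MP_af3a4a_an.P1.CHK.DATA.F4.W480b
import Pool.Agent.Lib.MP_af3a4a_an.P1.CHK.DATA.F4.W528a
import Pool.Agent.Lib.MP_af3a4a_an.P1.CHK.DATA.F4.W528b
import Pool.Agent.Lib.MP_af3a4a_an.P1.CHK.DATA.F4.W576a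
import Pool.Agent.Lib.MP_af3a4a_an.P1.CHK.DATA.F4.W624a
import Pool.Agent.Lib.MP_af3a4a_an.P1.CHK.DATA.F4.W672a

/-! chunks for N = 4 (generated) -/

set_option autoImplicit false
set_option maxRecDepth 100000

namespace Pool.Agent.Lib.MP_af3a4a_an.P1.CHK.DATA.N4s

open BOX SWP

def t114 : Tree := (.sR 2112 (.sr 2816 (.sg 60 (.sR 2016 (.sr 2688 (.sg 58 (.sR 1968 (.sr 2624 (.leaf 0x45c3c00010220001000000000b044d044) (.leaf 0x45c3c00008220031000000000b044d044)) (.leaf 0x3d0540000428001149045c95c513d1005)) (.sR 1968 (.leaf 0x45c3c00000220011000000000ac44d044) (.leaf 0x3f0540000428002149044de5d283f1005))) (.sg 58 (.sR 1968 (.sr 2752 (.leaf 0x45c3c00000220041000000000a844d044) (.leaf 0x45c3c00000220061000000000ac44d044)) (.leaf 0x430540000428003149045c95c51431005)) (.sR 1968 (.sr 2752 (.leaf 0x45c3c00008220051000000000ac44d044) (.leaf 3)) (.leaf 3)))) (.leaf 0x3c00014280001180000000ac001008)) (.sR 2016 (.sr 2688 (.sg 62 (.sR 1968 (.leaf 0x4003c0000c220021000000000b0401004) (.leaf 3)) (.leaf 3)) (.leaf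 3)) (.leaf 3))) (.leaf 3)) (.leaf 3))
theorem k114 : ChunkP 4 4 2560 3072 56 64 1920 2400 :=
  chkY_sound (Q := 40) (C := [c297.c, c304.c, c305.c, c353.c, c405.c, c406.c, c469.c]) (Z := [z3485, z3486, z3487, z3488])
    (T := [f_w480_492_4_40_50q, f_w492_504_0_50_20q, f_w480_492_4_40_20q, f_w480_492_0_40_50q, f_w480_492_4_50_10q, f_w504_528_0_50_0q]) (t := t114)
    (all_cons p297 (all_cons p304 (all_cons p305 (all_cons p353 (all_cons p405 (all_cons p406 (all_cons p469 all_nil)))))))
    (all_cons z3485P (all_cons z3486P (all_cons z3487P (all_cons z3488P all_nil))))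
    (all_cons f_w480_492_4_40_50q_p (all_cons f_w492_504_0_50_20q_p (all_cons f_w480_492_4_40_20q_p (all_cons f_w480_492_0_40_50q_p (all_cons f_w480_492_4_50_10q_p (all_cons f_w504_528_0_50_0q_p all_nil))))))
    (by decide +kernel)
def t115 : Tree := (.leaf 3)
theorem k115 : ChunkP 4 4 2560 3072 48 64 2400 3072 :=
  chkY_sound (Q := 40) (C := []) (Z := [])
    (T := []) (t := t115)
    all_nil
    all_nil
    all_nil
    (by decide +kernel)
def t116 : Tree := (.sg 96 (.sg 80 (.leaf 3) (.leaf 3)) (.leaf 3))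
theorem k116 : ChunkP 4 4 2560 3072 64 101 1920 3072 :=
  chkY_sound (Q := 40) (C := []) (Z := [])
    (T := []) (t := t116)
    all_nil
    all_nil
    all_nil
    (by decide +kernel)
def t117 : Tree := (.sR 2688 (.sR 2592 (.sg 8 (.sR 2496 (.sr 3328 (.sR 2304 (.sR 2208 (.sg 4 (.sR 2112 (.sr 3200 (.sR 2016 (.leaf 0x400380001c260061080000000a0401004) (.leaf 0x4008004280051200000000ac001008)) (.sR 2016 (.leaf 0x400380001c2600e1080000000a0401004) (.leaf 0x3c080042800611800000009c001008))) (.leaf 0x4400008280041280000000a4001008)) (.sr 3200 (.sR 2016 (.sg 6 (.leaf 0x400380001c260071080000000a8401004) (.sR 1968 (.leaf 0x400380400c260081080000000a4401004) (.leaf 0x380c01028009110000000098001008))) (.sR 2112 (.leaf 0x3c080042800711800000009c001008) (.leaf 0x4800008280081300000000a0001008))) (.sR 2016 (.leaf 0x40038080002600f1080000000a0401004) (.sR 2112 (.leaf 0x3c080042800a11800000009c001008) (.leaf 0x48000082800b1300000000a0001008))))) (.leaf 0x4c14014280011380000000a4001008)) (.sR 2400 (.leaf 0x5814018280021500000000a4001008)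 (.leaf 0x5800034280031500000000a8001008))) (.sR 2208 (.sR 2016 (.sg 4 (.leaf 0x40038080002601a1080000000ac401004) (.sr 3456 (.leaf 0x4003808000260151080000000a0401004) (.leaf 0x40038080002601c1080000000a0401004))) (.sR 2112 (.leaf 0x4808020220001180000000a4001007) (.leaf 0x5410030220001300000000ac001007))) (.sR 2304 (.leaf 0x580801422000138000000098001007) (.sR 2400 (.leaf 0x680401820000150000000094001007) (.leaf 0x58000342800c1500000000a8001008))))) (.leaf 0x78000281e00d1680000000a0001007)) (.sr 3328 (.sR 2400 (.sg 12 (.sR 2304 (.sr 3200 (.sR 2112 (.sR 2016 (.sg 10 (.sR 1968 (.leaf 0x400380400c260091080000000ac401004) (.leaf 0x380c010280111100000000a0001008)) (.sR 1968 (.leaf 0x400340400c2600a1000000000a0401004) (.leaf 0x400380c010280121100000000a8401006))) (.leaf 0x4003c080042800e1180000000b0401006)) (.sR 2208 (.leaf 0x44000082800f12800000009c001008) (.leaf 0x501401428010140000000098001008))) (.sR 2112 (.sR 2016 (.sg 10 (.leaf 0x4003808000260101080000000a8401004) (.leaf 0x4003c04000240121080000000b0401004))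 (.leaf 0x4400004240111180000000ac001007)) (.sR 2208 (.leaf 0x44000082801312800000009c001008) (.leaf 0x501401428014140000000090001008)))) (.leaf 0x54140182800d14800000009c001008)) (.sr 3200 (.sR 2208 (.sR 2112 (.sg 14 (.sR 2016 (.sR 1968 (.leaf 0x400380000c2400b1000000000a0401004) (.leaf 0x400340c010280181080000000a0401006)) (.sR 2064 (.leaf 0x4003800040280001100000000b0401006) (.leaf 0x4003c00024280001180000000b0401006))) (.sR 2016 (.sR 1968 (.leaf 0x400380000c2400c1000000000a8401004) (.leaf 0x400340c010280191080000000a0401006)) (.sR 2064 (.leaf 0x4003c1002c2801a1180000000b0401006) (.leaf 0x4003c000242801b1180000000b0401006)))) (.leaf 0x4400008280151280000000ac001008)) (.sR 2304 (.leaf 0x4c1401428016138000000098001008) (.leaf 0x581401828017150000000094001008))) (.sR 2208 (.sR 2112 (.sg 14 (.sR 2016 (.sR 1968 (.leaf 0x400380000c240131000000000a0401004) (.leaf 0x400380c010280201100000000b0401006)) (.leaf 0x3c080042801f1180000000ac001008)) (.sR 2016 (.sR 1968 (.leaf 0x400380000c240141000000000a4401004)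 (.leaf 0x400340c010280211080000000a0401006)) (.sR 2064 (.leaf 0x3c1002c280221180000000a8001008) (.leaf 0x4003c00024280231180000000b0401006)))) (.leaf 0x44000082801c1280000000a8001008)) (.sR 2304 (.leaf 0x50140142801d1400000000a4001008) (.leaf 0x5c140182801e1580000000a4001008))))) (.sR 2496 (.leaf 0x70040381e0021580000000a4001007) (.leaf 0x80000281e0021780000000a0001007))) (.sR 2304 (.sR 2208 (.sg 12 (.sR 2112 (.sr 3456 (.sR 2016 (.leaf 0x4003c04000240161080000000a4401004) (.leaf 0x3c08004280241180000000a8001008)) (.sR 2016 (.leaf 0x4003c04000240041080000000a0401004) (.leaf 0x4400004240041180000000a8001007))) (.leaf 0x540c0302001b12800000009c001007)) (.sr 3456 (.sR 2016 (.sg 14 (.leaf 0x4003c04000240181080000000a8401004) (.leaf 0x4703c1003c240171080000000b044d044)) (.sR 2112 (.leaf 0x4808020220191180000000a4001007) (.leaf 0x4400008280251280000000a0001008))) (.sR 2016 (.leaf 0x4004000000220051080000000b0401004) (.sR 2112 (.leaf 0x48080202200511800000009c001007) (.leaf 0x44000082802612800000009c001008)))))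 (.leaf 0x60040441e00113800000009c001007)) (.sR 2400 (.leaf 0x68000181e0011480000000a0001007) (.sR 2496 (.leaf 0x74040381e00116000000009c001007) (.leaf 0x3e084000281e00118100010d67a3e1000)))))) (.leaf 0x80000481c0031700000000a4001007)) (.sR 2784 (.leaf 0x3b0980004c1a0031a110053f77a3b1000) (.leaf 3)))
theorem k117 : ChunkP 4 4 3072 3584 0 16 1920 3072 :=
  chkY_sound (Q := 40) (C := [c899.c, c901.c, c739.c, c745.c, c919.c, c920.c, c726.c, c727.c, c728.c, c729.c, c730.c, c731.c, c732.c, c744.c, c808.c, c809.c, c810.c, c811.c, c812.c, c813.c, c814.c, c880.c, c881.c, c882.c, c883.c, c884.c, c898.c, c900.c, c918.c]) (Z := [z3513, z3489, z3490, z3491, z3492, z3493, z3494, z3495, z3496, z3497, z3498, z3499, z3500, z3501, z3502, z3503, z3504, z3505, z3506, z3507, z3508, z3509, z3510, z3511, z3512, z3514, z3515, z3516, z3517, z3518, z3519, z3520, z3521, z3522, z3523, z3524, z3525, z3526, z3527])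
    (T := [f_w480_504_0_80_0q, f_w504_528_0_70_10q, f_w528_552_0_70_10q, f_w480_492_0_70_10q, f_w492_504_0_70_10q, f_w552_576_0_70_10q, f_w576_600_0_70_0q, f_w480_504_0_70_0q, f_w504_528_0_80_0q, f_w516_528_0_60_10q, f_w624_648_0_70_10q, f_w504_516_0_70_20q, f_w528_552_0_80_0q, f_w600_624_0_60_0q, f_w600_624_0_70_10q, f_w480_504_4_80_0q, f_w504_516_0_60_10q, f_w552_576_0_80_10q, f_w648_672_0_70_10q, f_w672_696_0_70_10q]) (t := t117)
    (all_cons p899 (all_cons p901 (all_cons p739 (all_cons p745 (all_cons p919 (all_cons p920 (all_cons p726 (all_cons p727 (all_cons p728 (all_cons p729 (all_cons p730 (all_cons p731 (all_cons p732 (all_cons p744 (all_cons p808 (all_cons p809 (all_cons p810 (all_cons p811 (all_cons p812 (all_cons p813 (all_cons p814 (all_cons p880 (all_cons p881 (all_cons p882 (all_cons p883 (all_cons p884 (all_cons p898 (all_cons p900 (all_cons p918 all_nil)))))))))))))))))))))))))))))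
    (all_cons z3513P (all_cons z3489P (all_cons z3490P (all_cons z3491P (all_cons z3492P (all_cons z3493P (all_cons z3494P (all_cons z3495P (all_cons z3496P (all_cons z3497P (all_cons z3498P (all_cons z3499P (all_cons z3500P (all_cons z3501P (all_cons z3502P (all_cons z3503P (all_cons z3504P (all_cons z3505P (all_cons z3506P (all_cons z3507P (all_cons z3508P (all_cons z3509P (all_cons z3510P (all_cons z3511P (all_cons z3512P (all_cons z3514P (all_cons z3515P (all_cons z3516P (all_cons z3517P (all_cons z3518P (all_cons z3519P (all_cons z3520P (all_cons z3521P (all_cons z3522P (all_cons z3523P (all_cons z3524P (all_cons z3525P (all_cons z3526P (all_cons z3527P all_nil)))))))))))))))))))))))))))))))))))))))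
    (all_cons f_w480_504_0_80_0q_p (all_cons f_w504_528_0_70_10q_p (all_cons f_w528_552_0_70_10q_p (all_cons f_w480_492_0_70_10q_p (all_cons f_w492_504_0_70_10q_p (all_cons f_w552_576_0_70_10q_p (all_cons f_w576_600_0_70_0q_p (all_cons f_w480_504_0_70_0q_p (all_cons f_w504_528_0_80_0q_p (all_cons f_w516_528_0_60_10q_p (all_cons f_w624_648_0_70_10q_p (all_cons f_w504_516_0_70_20q_p (all_cons f_w528_552_0_80_0q_p (all_cons f_w600_624_0_60_0q_p (all_cons f_w600_624_0_70_10q_p (all_cons f_w480_504_4_80_0q_p (all_cons f_w504_516_0_60_10q_p (all_cons f_w552_576_0_80_10q_p (all_cons f_w648_672_0_70_10q_p (all_cons f_w672_696_0_70_10q_p all_nil))))))))))))))))))))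
    (by decide +kernel)
def t118 : Tree := (.sR 2496 (.sg 20 (.sR 2400 (.sr 3200 (.sR 2304 (.sg 18 (.sR 2208 (.sR 2064 (.sR 1968 (.leaf 0x45c380c008240041000000000a844d044) (.sR 2016 (.leaf 0x400340c018280091080000000a0401006) (.leaf 0x38100002800a1100000000a0001008))) (.sR 2112 (.leaf 0x40140042800b1200000000a8001008) (.sR 2160 (.leaf 0x4000034280001200000000a8001008) (.leaf 0x440002c280001280000000a8001008)))) (.leaf 0x4c1401028008138000000098001008)) (.sR 2208 (.sR 2064 (.sR 1968 (.leaf 0x45c380c008240051000000000a844d044) (.sR 2016 (.leaf 0x400340c0182800d1080000000b0401006) (.leaf 0x3810000280011100000000a4001008))) (.sR 2112 (.leaf 0x3c14004280011180000000a0001008) (.sR 2160 (.leaf 0x400000c2800e12000000009c001008) (.leaf 0x440002c2800f1280000000a4001008)))) (.leaf 0x4c140102800c13800000009c001008))) (.leaf 0x541401428007148000000094001008)) (.sR 2208 (.sg 18 (.sR 2112 (.sR 2016 (.sR 1968 (.leaf 0x4003800030240001000000000ac401004) (.leaf 0x4004000018220001080000000a4401004)) (.sR 2064 (.leaf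 0x3810000280131100000000a0001008) (.leaf 0x4014004280141200000000a0001008))) (.leaf 0x4400028280121280000000a8001008)) (.sR 2112 (.sR 2016 (.sR 1968 (.leaf 0x45c380c008240091000000000a844d044) (.leaf 0x4004000018220011080000000b0401004)) (.sR 2064 (.leaf 0x3810000280161100000000a0001008) (.leaf 0x4014004280171200000000ac001008))) (.leaf 0x4400028280151280000000ac001008))) (.sR 2304 (.leaf 0x4c14010280101380000000a0001008) (.leaf 0x5814014280111500000000a0001008)))) (.leaf 0x6c040241e0071500000000a8001007)) (.sr 3200 (.sR 2400 (.sg 22 (.sR 2208 (.sR 2064 (.sR 1968 (.leaf 0x45c380c008240021000000000a844d044) (.sR 2016 (.leaf 0x45c400801c220021080000000ac44d044) (.leaf 0x4003810000280021100000000b0401006))) (.sR 2112 (.leaf 0x3c14004280021180000000ac001008) (.sR 2160 (.leaf 0x400000c2800312000000009c001008) (.leaf 0x44140202800312800000009c001008)))) (.sR 2304 (.leaf 0x4c14010280191380000000ac001008) (.leaf 0x54140142801a1480000000a8001008))) (.sR 2304 (.sR 2112 (.sR 2016 (.sR 1968 (.leaf 0x45c380c008240031000000000a844d044)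 (.leaf 0x45c400801c220031080000000ac44d044)) (.sR 2064 (.sr 3136 (.leaf 0x38100002801f1100000000a0001008) (.leaf 0x4003c10000280201180000000b0401006)) (.leaf 0x3c140042801c1180000000ac001008))) (.sR 2208 (.sR 2160 (.leaf 0x400000c280041200000000ac001008) (.leaf 0x4414020280041280000000a8001008)) (.sR 2256 (.leaf 0x48000382801d1300000000a0001008) (.leaf 0x4c000402801e1380000000a8001008)))) (.leaf 0x54140142801b1480000000a0001008))) (.leaf 0x5c180242801815800000009c001008)) (.sR 2304 (.sg 22 (.sR 2208 (.sR 2064 (.sR 1968 (.leaf 0x45c380c008240001000000000a844d044) (.sR 2016 (.leaf 0x45c400801c220001080000000ac44d044) (.leaf 0x4003810000280241100000000ac401006))) (.sR 2112 (.leaf 0x3c140042802511800000009c001008) (.sR 2160 (.leaf 0x440000c280051280000000a8001008) (.leaf 0x4814020280051300000000a0001008)))) (.leaf 0x4c14010280231380000000a0001008)) (.sR 2208 (.sR 2064 (.sR 1968 (.leaf 0x45c3c08008220011000000000a844d044) (.sR 2016 (.leaf 0x45c400801c220011080000000ac44d044) (.sr 3264 (.leaf 0x3c10000280271180000000ac001008)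 (.leaf 0x3810000280281100000000a0001008)))) (.sR 2112 (.leaf 0x3c14004280261180000000a8001008) (.sR 2160 (.leaf 0x400000c2800612000000009c001008) (.leaf 0x44140202800612800000009c001008)))) (.leaf 0x4305c0403c200011388c346b97a431040))) (.sR 2400 (.leaf 0x5414014280211480000000a4001008) (.leaf 0x60180242802216000000009c001008))))) (.sR 2592 (.leaf 0x42078000441c006160807bb6c7a421040) (.leaf 0x80000481c0081700000000a4001007)))
theorem k118 : ChunkP 4 4 3072 3328 16 24 1920 2688 :=
  chkY_sound (Q := 40) (C := [c815.c, c816.c, c733.c, c734.c, c731.c, c732.c, c740.c, c741.c, c742.c, c814.c]) (Z := [z3533, z3536, z3550, z3551, z3554, z3564, z3566, z3528, z3529, z3530, z3531, z3532, z3534, z3535, z3537, z3538, z3539, z3540, z3541, z3542, z3543, z3544, z3545, z3546, z3547, z3548, z3549, z3552, z3553, z3555, z3556, z3557, z3558, z3559, z3560, z3561, z3562, z3563, z3565, z3567, z3568])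
    (T := [f_w504_516_0_70_20q, f_w516_528_0_70_20q, f_w480_492_4_70_10q, f_w528_540_0_70_20q, f_w552_576_0_70_10q, f_w576_600_0_70_0q, f_w492_504_0_70_10q, f_w492_504_4_70_20q, f_w540_552_0_70_20q, f_w600_624_0_70_10q, f_w528_552_0_70_10q, f_w540_552_0_60_10q, f_w480_492_0_70_10q, f_w528_540_0_60_10q, f_w552_564_0_70_30q, f_w552_576_4_70_20q, f_w564_576_0_60_10q, f_w624_648_4_70_10q, f_w648_672_0_70_10q]) (t := t118)
    (all_cons p815 (all_cons p816 (all_cons p733 (all_cons p734 (all_cons p731 (all_cons p732 (all_cons p740 (all_cons p741 (all_cons p742 (all_cons p814 all_nil))))))))))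
    (all_cons z3533P (all_cons z3536P (all_cons z3550P (all_cons z3551P (all_cons z3554P (all_cons z3564P (all_cons z3566P (all_cons z3528P (all_cons z3529P (all_cons z3530P (all_cons z3531P (all_cons z3532P (all_cons z3534P (all_cons z3535P (all_cons z3537P (all_cons z3538P (all_cons z3539P (all_cons z3540P (all_cons z3541P (all_cons z3542P (all_cons z3543P (all_cons z3544P (all_cons z3545P (all_cons z3546P (all_cons z3547P (all_cons z3548P (all_cons z3549P (all_cons z3552P (all_cons z3553P (all_cons z3555P (all_cons z3556P (all_cons z3557P (all_cons z3558P (all_cons z3559P (all_cons z3560P (all_cons z3561P (all_cons z3562P (all_cons z3563P (all_cons z3565P (all_cons z3567P (all_cons z3568P all_nil)))))))))))))))))))))))))))))))))))))))))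
    (all_cons f_w504_516_0_70_20q_p (all_cons f_w516_528_0_70_20q_p (all_cons f_w480_492_4_70_10q_p (all_cons f_w528_540_0_70_20q_p (all_cons f_w552_576_0_70_10q_p (all_cons f_w576_600_0_70_0q_p (all_cons f_w492_504_0_70_10q_p (all_cons f_w492_504_4_70_20q_p (all_cons f_w540_552_0_70_20q_p (all_cons f_w600_624_0_70_10q_p (all_cons f_w528_552_0_70_10q_p (all_cons f_w540_552_0_60_10q_p (all_cons f_w480_492_0_70_10q_p (all_cons f_w528_540_0_60_10q_p (all_cons f_w552_564_0_70_30q_p (all_cons f_w552_576_4_70_20q_p (all_cons f_w564_576_0_60_10q_p (all_cons f_w624_648_4_70_10q_p (all_cons f_w648_672_0_70_10q_p all_nil)))))))))))))))))))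
    (by decide +kernel)
def t119 : Tree := (.sR 2400 (.sR 2304 (.sg 20 (.sR 2208 (.sr 3456 (.sR 2112 (.sg 18 (.sR 2016 (.leaf 0x4703c10004240051080000000b044d044) (.leaf 0x4808018220011180000000a8001007)) (.sR 2016 (.sR 1968 (.leaf 0x45c380c000240061000000000a844d044) (.leaf 0x4004000020220001080000000a8401004)) (.sR 2064 (.leaf 0x4404008220001100000000a0001007) (.leaf 0x401400c280001200000000ac001008)))) (.leaf 0x540c010200031280000000a4001007)) (.sR 2016 (.leaf 0x470400801c2200d1080000000b044d044) (.sR 2112 (.leaf 0x4c04018200021180000000a4001007) (.leaf 0x5c080101e0021300000000a8001007)))) (.leaf 0x60040341e00b1380000000ac001007)) (.sr 3456 (.sR 2112 (.sg 22 (.sR 2016 (.sR 1968 (.leaf 0x45c3c08000220011000000000a844d044) (.leaf 0x45c4008014220011080000000ac44d044)) (.sR 2064 (.leaf 0x4800008200071100000000a4001007) (.leaf 0x3c1400c2800111800000009c001008))) (.sR 2016 (.sR 1968 (.leaf 0x45c3c08000220001000000000a844d044) (.leaf 0x45c4008014220001080000000ac44d044)) (.sR 2064 (.leaf 0x4004800008200091100000000ac401004)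 (.leaf 0x3c1400c280021180000000a0001008)))) (.sR 2208 (.leaf 0x4405408028200031288c1ee457a441040) (.leaf 0x60000301e0081380000000a0001007))) (.sR 2112 (.sR 2016 (.sg 22 (.leaf 0x470400c0042200e1080000000b044d044) (.leaf 0x47044080042000f1080000000b044d044)) (.leaf 0x4504c0c024200021188c0b9f37a451040)) (.sR 2208 (.leaf 0x58080101e0041280000000a8001007) (.leaf 0x600002c1e0041380000000a4001007))))) (.leaf 0x4106c000381c00a148905d58f7a411040)) (.sR 2496 (.leaf 0x700003c1c00c1500000000a8001007) (.leaf 3)))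
theorem k119 : ChunkP 4 4 3328 3584 16 24 1920 2688 :=
  chkY_sound (Q := 40) (C := [c888.c, c886.c, c922.c, c887.c, c925.c, c883.c, c885.c, c889.c, c891.c, c892.c, c902.c, c903.c, c904.c, c920.c, c921.c, c923.c]) (Z := [z3569, z3570, z3571])
    (T := [f_w480_492_4_70_10q, f_w480_504_4_80_0q, f_w504_516_0_70_20q, f_w516_528_0_70_20q, f_w528_552_0_80_0q, f_w492_504_4_70_20q, f_w504_528_0_80_0q, f_w480_504_4_80_10q, f_w492_504_0_70_10q, f_w504_528_4_80_10q, f_w528_552_4_80_0q, f_w552_576_0_70_10q, f_w552_576_0_75_30q, f_w552_576_0_80_10q, f_w576_600_4_80_10q, f_w600_624_0_70_10q]) (t := t119)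
    (all_cons p888 (all_cons p886 (all_cons p922 (all_cons p887 (all_cons p925 (all_cons p883 (all_cons p885 (all_cons p889 (all_cons p891 (all_cons p892 (all_cons p902 (all_cons p903 (all_cons p904 (all_cons p920 (all_cons p921 (all_cons p923 all_nil))))))))))))))))
    (all_cons z3569P (all_cons z3570P (all_cons z3571P all_nil)))
    (all_cons f_w480_492_4_70_10q_p (all_cons f_w480_504_4_80_0q_p (all_cons f_w504_516_0_70_20q_p (all_cons f_w516_528_0_70_20q_p (all_cons f_w528_552_0_80_0q_p (all_cons f_w492_504_4_70_20q_p (all_cons f_w504_528_0_80_0q_p (all_cons f_w480_504_4_80_10q_p (all_cons f_w492_504_0_70_10q_p (all_cons f_w504_528_4_80_10q_p (all_cons f_w528_552_4_80_0q_p (all_cons f_w552_576_0_70_10q_p (all_cons f_w552_576_0_75_30q_p (all_cons f_w552_576_0_80_10q_p (all_cons f_w576_600_4_80_10q_p (all_cons f_w600_624_0_70_10q_p all_nil))))))))))))))))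
    (by decide +kernel)

end Pool.Agent.Lib.MP_af3a4a_an.P1.CHK.DATA.N4s
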