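import Pool.Agent.Lib.MP_af3a4a_an.P1.CHK.SWP.Pay
import Pool.Agent.Lib.MP_af3a4a_an.P1.CHK.DATA.N4s.C0
import Pool.Agent.Lib.MP_af3a4a_an.P1.CHK.DATA.N4s.Z1
import Pool.Agent.Lib.MP_af3a4a_an.P1.CHK.DATA.F4.W480a
import Pool.Agent.Lib.MP_af3a4a_an.P1.CHK.DATA.F4.W480b
import Pool.Agent.Lib.MP_af3a4a_an.P1.CHK.DATA.F4.W528a
import Pool.Agent.Lib.MP_af3a4a_an.P1.CHK.DATA.F4.W576a
import Pool.Agent.Lib.MP_af3a4a_an.P1.CHK.DATA.F4.W624a
import Pool.Agent.Lib.MP_af3a4a_an.P1.CHK.DATA.F4.W672a
import Pool.Agent.Lib.MP_af3a4a_an.P1.CHK.DATA.F4.W672b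
import Pool.Agent.Lib.MP_af3a4a_an.P1.CHK.DATA.F4.W720a
import Pool.Agent.Lib.MP_af3a4a_an.P1.CHK.DATA.F4.W720b

/-! chunks for N = 4 (generated) -/

set_option autoImplicit false
set_option maxRecDepth 100000

namespace Pool.Agent.Lib.MP_af3a4a_an.P1.CHK.DATA.N4s

open BOX SWP

def t12 : Tree := (.sr 1920 (.sR 2304 (.sR 2112 (.sR 2016 (.leaf 0x400400803c260001180000000b0401004) (.leaf 0x3c00020280001180000000a0001008)) (.sR 2208 (.leaf 0x5000024280011400000000a8001008) (.leaf 0x5000028280021400000000a0001008))) (.sR 2496 (.sR 2400 (.leaf 0x540002c280031480000000a4001008) (.leaf 0x68000302800b17000000008c001008)) (.sR 2592 (.leaf 0x70000342800c1800000000a0001008) (.sR 2688 (.leaf 0x70000382800d1800000000a0001008) (.sg 4 (.sr 1856 (.sR 2880 (.sR 2784 (.leaf 0x7000000280041800000000a0001008) (.leaf 0x840000c2800e1a800000009c001008)) (.sR 2976 (.leaf 0x80000482800f1a000000009c001008) (.sR 3024 (.leaf 0x9400008280051c8000000094001008) (.leaf 0x9000004280051c000000009c001008)))) (.sR 2784 (.leaf 0x78000002800419000000009c001008)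 (.sR 2880 (.leaf 0x800000c280101a00000000a0001008) (.sR 2976 (.sR 2928 (.leaf 0x8000010280061a00000000a0001008) (.leaf 0x8000014280111a000000009c001008)) (.sR 3024 (.leaf 0x9000008280071c0000000090001008) (.leaf 0x9000004280071c000000009c001008)))))) (.sr 1856 (.sR 2784 (.leaf 0x3d08000000280121a11001ed27a3d1005) (.sR 2880 (.leaf 0x7c0000c2801319800000009c001008) (.sR 2976 (.sR 2928 (.leaf 0x9000010280081c0000000078001008) (.leaf 0x9400014280081c8000000094001008)) (.sR 3024 (.leaf 0x8c00008280141b8000000098001008) (.leaf 0x8c00004280151b800000009c001008))))) (.sR 2784 (.leaf 0x7000000280161800000000a0001008) (.sR 2880 (.leaf 0x780000c2801719000000009c001008) (.sR 2976 (.sR 2928 (.leaf 0x7c000102800619800000009c001008) (.leaf 0x8800014280181b000000009c001008)) (.sR 3024 (.leaf 0x8800008280191b0000000098001008) (.leaf 0x8c000042801a1b800000009c001008))))))))))) (.sR 2304 (.sR 2112 (.sR 2016 (.leaf 0x4003804040260011080000000b0401004) (.leaf 0x4000020280001200000000ac001008)) (.sR 2208 (.leaf 0x5000024280011400000000a4001008)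 (.leaf 0x5400028280021480000000a0001008))) (.sR 2496 (.sR 2400 (.leaf 0x540002c280031480000000a4001008) (.leaf 0x58000302801b1500000000a8001008)) (.sR 2592 (.leaf 0x64000342801c1680000000a4001008) (.sg 4 (.sR 2688 (.leaf 0x68000382801d1700000000a4001008) (.sr 1984 (.sR 2880 (.sR 2784 (.leaf 0x7c000002801e198000000098001008) (.leaf 0x7c0000c2801f1980000000a0001008)) (.sR 2976 (.leaf 0x800001c280201a000000009c001008) (.sR 3024 (.leaf 0x9000008280091c0000000098001008) (.leaf 0x9000004280091c000000009c001008)))) (.sR 2880 (.sR 2784 (.leaf 0x7000000280211800000000a0001008) (.leaf 0x78000182802219000000009c001008)) (.sR 2976 (.leaf 0x880001c280231b0000000094001008) (.sR 3024 (.leaf 0x8400008280241a800000009c001008) (.leaf 0x9400004280251c8000000098001008)))))) (.sR 2688 (.leaf 0x6800044280261700000000a4001008) (.sr 1984 (.sR 2784 (.leaf 0x7800000280271900000000a0001008) (.sR 2880 (.leaf 0x7c00018280281980000000a0001008) (.sR 2976 (.sR 2928 (.leaf 0x8c000102800a1b800000009c001008) (.leaf 0x84000142800a1a8000000098001008))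 (.sR 3024 (.leaf 0x8400008280291a8000000098001008) (.leaf 0x88000042802a1b0000000098001008))))) (.sR 2880 (.sR 2784 (.leaf 0x70000002802b1800000000a0001008) (.leaf 0x7c000182802c1980000000a0001008)) (.sR 2976 (.leaf 0x800001c2802d1a000000009c001008) (.sR 3024 (.leaf 0x880004c2802e1b000000009c001008) (.leaf 0x88000042802f1b0000000098001008)))))))))))
theorem k12 : ChunkP 4 4 1792 2048 0 8 1920 3072 :=
  chkY_sound (Q := 40) (C := [c46.c, c69.c]) (Z := [z367, z368, z369, z370, z374, z377, z379, z381, z384, z398, z407, z371, z372, z373, z375, z376, z378, z380, z382, z383, z385, z386, z387, z388, z389, z390, z391, z392, z393, z394, z395, z396, z397, z399, z400, z401, z402, z403, z404, z405, z406, z408, z409, z410, z411, z412, z413, z414])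
    (T := [f_w672_696_0_40_0q, f_w756_768_0_40_0q, f_w744_756_0_40_0q, f_w696_720_0_40_0q, f_w720_732_0_40_0q, f_w732_744_0_40_0q, f_w696_720_0_50_0q, f_w720_744_0_50_0q, f_w504_528_0_50_0q, f_w528_552_0_50_0q, f_w552_576_0_50_0q, f_w576_600_0_40_0q, f_w600_624_0_40_0q, f_w624_648_0_40_0q, f_w648_672_0_40_0q, f_w480_504_0_40_0q, f_w480_504_0_50_0q, f_w648_672_0_50_0q, f_w720_744_0_40_0q, f_w744_756_0_50_0q]) (t := t12)
    (all_cons p46 (all_cons p69 all_nil))
    (all_cons z367P (all_cons z368P (all_cons z369P (all_cons z370P (all_cons z374P (all_cons z377P (all_cons z379P (all_cons z381P (all_cons z384P (all_cons z398P (all_cons z407P (all_cons z371P (all_cons z372P (all_cons z373P (all_cons z375P (all_cons z376P (all_cons z378P (all_cons z380P (all_cons z382P (all_cons z383P (all_cons z385P (all_cons z386P (all_cons z387P (all_cons z388P (all_cons z389P (all_cons z390P (all_cons z391P (all_cons z392P (all_cons z393P (all_cons z394P (all_cons z395P (all_cons z396P (all_cons z397P (all_cons z399P (all_cons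 z400P (all_cons z401P (all_cons z402P (all_cons z403P (all_cons z404P (all_cons z405P (all_cons z406P (all_cons z408P (all_cons z409P (all_cons z410P (all_cons z411P (all_cons z412P (all_cons z413P (all_cons z414P all_nil))))))))))))))))))))))))))))))))))))))))))))))))
    (all_cons f_w672_696_0_40_0q_p (all_cons f_w756_768_0_40_0q_p (all_cons f_w744_756_0_40_0q_p (all_cons f_w696_720_0_40_0q_p (all_cons f_w720_732_0_40_0q_p (all_cons f_w732_744_0_40_0q_p (all_cons f_w696_720_0_50_0q_p (all_cons f_w720_744_0_50_0q_p (all_cons f_w504_528_0_50_0q_p (all_cons f_w528_552_0_50_0q_p (all_cons f_w552_576_0_50_0q_p (all_cons f_w576_600_0_40_0q_p (all_cons f_w600_624_0_40_0q_p (all_cons f_w624_648_0_40_0q_p (all_cons f_w648_672_0_40_0q_p (all_cons f_w480_504_0_40_0q_p (all_cons f_w480_504_0_50_0q_p (all_cons f_w648_672_0_50_0q_p (all_cons f_w720_744_0_40_0q_p (all_cons f_w744_756_0_50_0q_p all_nil))))))))))))))))))))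
    (by decide +kernel)
def t13 : Tree := (.sr 1920 (.leaf 0x4003c04000240001080000000ac401004) (.sg 12 (.leaf 0x4003804004260021080000000b0401004) (.sr 1984 (.leaf 0x4003c08000260011100000000ac401004) (.leaf 0x4003808000260031080000000a8401004))))
theorem k13 : ChunkP 4 4 1792 2048 8 16 1920 2016 :=
  chkY_sound (Q := 40) (C := [c47.c, c60.c, c70.c, c73.c]) (Z := [])
    (T := [f_w480_504_0_40_0q, f_w480_504_0_50_0q]) (t := t13)
    (all_cons p47 (all_cons p60 (all_cons p70 (all_cons p73 all_nil))))
    all_nil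
    (all_cons f_w480_504_0_40_0q_p (all_cons f_w480_504_0_50_0q_p all_nil))
    (by decide +kernel)
def t14 : Tree := (.leaf 0x4003c00000280001180000000b0401006)
theorem k14 : ChunkP 4 4 1792 2048 8 16 2016 2112 :=
  chkY_sound (Q := 40) (C := []) (Z := [z367])
    (T := [f_w504_528_0_50_0q]) (t := t14)
    all_nil
    (all_cons z367P all_nil)
    (all_cons f_w504_528_0_50_0q_p all_nil)
    (by decide +kernel)
def t15 : Tree := (.sR 2400 (.sR 2208 (.leaf 0x4400020280041280000000a4001008) (.sR 2304 (.leaf 0x5c0002428005158000000094001008) (.leaf 0x600002828006160000000088001008))) (.sR 2496 (.leaf 0x680002c28007170000000098001008) (.sR 2592 (.leaf 0x6000030280081600000000a4001008) (.sg 12 (.sR 2688 (.leaf 0x6c000182800917800000009c001008) (.sr 1856 (.sR 2784 (.leaf 0x80000082800a1a000000008c001008) (.sR 2880 (.leaf 0x78000342800b1900000000a0001008) (.sR 2976 (.sR 2928 (.leaf 0x900000c280001c0000000088001008) (.leaf 0x9000010280001c000000009c001008)) (.sR 3024 (.leaf 0x8c000042800c1b800000009c001008) (.sg 10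 (.leaf 0x90000002800d1c000000009c001008) (.leaf 0x8c000002800e1b800000009c001008)))))) (.sR 2784 (.leaf 0x74000082800f188000000098001008) (.sR 2928 (.sR 2832 (.leaf 0x8000014280101a0000000094001008) (.sR 2880 (.leaf 0x840001c280111a800000009c001008) (.leaf 0x880000c280011b0000000098001008))) (.sR 2976 (.leaf 0x8000010280011a00000000a0001008) (.sR 3024 (.leaf 0x8800004280121b000000009c001008) (.sg 10 (.leaf 0x8c00000280131b8000000098001008) (.leaf 0x8c00000280141b800000009c001008)))))))) (.sR 2688 (.leaf 0x6c00018280151780000000a4001008) (.sr 1856 (.sR 2784 (.leaf 0x8000008280161a0000000094001008) (.sR 2928 (.sR 2832 (.leaf 0x8000014280021a000000009c001008) (.sR 2880 (.leaf 0x8c00038280021b8000000094001008) (.leaf 0x900000c280031c0000000090001008))) (.sR 2976 (.leaf 0x8800010280031b0000000098001008) (.sR 3024 (.leaf 0x8400004280171a800000009c001008) (.sg 14 (.leaf 0x8800000280181b0000000098001008) (.leaf 0x8800000280191b000000009c001008)))))) (.sR 2784 (.leaf 0x70000082801a1800000000a0001008) (.sR 2880 (.sR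 2832 (.leaf 0x78000142801b1900000000a0001008) (.leaf 0x780001c2801c1900000000a0001008)) (.sR 2928 (.leaf 0x800000c2801d1a0000000098001008) (.sR 2976 (.leaf 0x8c000102801e1b8000000098001008) (.sg 14 (.sR 3024 (.leaf 0x84000042801f1a800000009c001008) (.leaf 0x8800000280201b0000000098001008)) (.sR 3024 (.leaf 0x9000004280211c000000009c001008) (.leaf 0x8800000280221b000000009c001008)))))))))))))
theorem k15 : ChunkP 4 4 1792 1920 8 16 2112 3072 :=
  chkY_sound (Q := 40) (C := []) (Z := [z423, z430, z436, z437, z415, z416, z417, z418, z419, z420, z421, z422, z424, z425, z426, z427, z428, z429, z431, z432, z433, z434, z435, z438, z439, z440, z441, z442, z443, z444, z445, z446, z447, z448, z449])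
    (T := [f_w756_768_0_40_0q, f_w744_756_0_40_0q, f_w672_696_0_40_0q, f_w720_732_0_40_0q, f_w732_744_0_40_0q, f_w696_708_0_50_10q, f_w648_672_0_40_0q, f_w708_720_0_50_10q, f_w528_552_0_50_0q, f_w552_576_0_50_0q, f_w576_600_0_40_0q, f_w600_624_0_40_0q, f_w624_648_0_40_0q, f_w696_720_0_40_0q, f_w708_720_0_40_10q]) (t := t15)
    all_nil
    (all_cons z423P (all_cons z430P (all_cons z436P (all_cons z437P (all_cons z415P (all_cons z416P (all_cons z417P (all_cons z418P (all_cons z419P (all_cons z420P (all_cons z421P (all_cons z422P (all_cons z424P (all_cons z425P (all_cons z426P (all_cons z427P (all_cons z428P (all_cons z429P (all_cons z431P (all_cons z432P (all_cons z433P (all_cons z434P (all_cons z435P (all_cons z438P (all_cons z439P (all_cons z440P (all_cons z441P (all_cons z442P (all_cons z443P (all_cons z444P (all_cons z445P (all_cons z446P (all_cons z447P (all_cons z448P (all_cons z449P all_nil)))))))))))))))))))))))))))))))))))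
    (all_cons f_w756_768_0_40_0q_p (all_cons f_w744_756_0_40_0q_p (all_cons f_w672_696_0_40_0q_p (all_cons f_w720_732_0_40_0q_p (all_cons f_w732_744_0_40_0q_p (all_cons f_w696_708_0_50_10q_p (all_cons f_w648_672_0_40_0q_p (all_cons f_w708_720_0_50_10q_p (all_cons f_w528_552_0_50_0q_p (all_cons f_w552_576_0_50_0q_p (all_cons f_w576_600_0_40_0q_p (all_cons f_w600_624_0_40_0q_p (all_cons f_w624_648_0_40_0q_p (all_cons f_w696_720_0_40_0q_p (all_cons f_w708_720_0_40_10q_p all_nil)))))))))))))))
    (by decide +kernel)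
def t16 : Tree := (.sR 2304 (.sR 2208 (.leaf 0x4800028280031300000000ac001008) (.leaf 0x540002c280041480000000a4001008)) (.sR 2400 (.leaf 0x5400030280051480000000a4001008) (.sR 2496 (.leaf 0x5800034280061500000000a8001008) (.sg 12 (.sR 2592 (.leaf 0x6000038280071600000000a4001008) (.sr 1984 (.sR 2688 (.leaf 0x7800004280081900000000a0001008) (.sR 2784 (.leaf 0x7000044280091800000000a0001008) (.sR 2928 (.sR 2832 (.leaf 0x780000c2800a190000000098001008) (.sR 2880 (.leaf 0x88000102800b1b0000000090001008) (.leaf 0x84000082800c1a800000009c001008))) (.sR 2976 (.leaf 0x80000142800d1a000000009c001008) (.sR 3024 (.leaf 0x84000182800e1a800000009c001008) (.sg 10 (.leaf 0x8c000002800f1b8000000098001008) (.leaf 0x8800000280101b0000000098001008))))))) (.sR 2784 (.sR 2688 (.leaf 0x6c00004280111780000000a4001008) (.leaf 0x780001c280121900000000a0001008)) (.sR 2880 (.leaf 0x780004c2801319000000009c001008) (.sR 2976 (.sR 2928 (.leaf 0x8000008280141a000000009c001008) (.leaf 0x8000014280151a00000000a0001008)) (.sR 3024 (.leaf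 0x8800020280161b0000000094001008) (.leaf 0x9400024280171c8000000098001008))))))) (.sR 2592 (.leaf 0x600003c280181600000000a4001008) (.sr 1984 (.sR 2688 (.leaf 0x74000042801918800000009c001008) (.sR 2832 (.sR 2736 (.leaf 0x74000402801a1880000000a0001008) (.sR 2784 (.leaf 0x80000482801b1a0000000090001008) (.leaf 0x880000c280001b0000000094001008))) (.sR 2928 (.sR 2880 (.leaf 0x8000010280001a0000000098001008) (.leaf 0x7c000082801c19800000009c001008)) (.sR 2976 (.leaf 0x88000142801d1b000000009c001008) (.sg 14 (.sR 3024 (.leaf 0x8c000182801e1b8000000098001008) (.leaf 0x88000002801f1b000000009c001008)) (.sR 3024 (.leaf 0x8c00018280201b800000009c001008) (.sr 1952 (.leaf 0x8800000280011b000000009c001008) (.leaf 0x9000000280011c0000000098001008)))))))) (.sR 2688 (.leaf 0x6800004280211700000000a4001008) (.sR 2784 (.leaf 0x700001c280221800000000a0001008) (.sR 2928 (.sR 2832 (.leaf 0x800000c280021a0000000098001008) (.sR 2880 (.leaf 0x7c00010280021980000000a0001008) (.leaf 0x8000008280231a000000009c001008))) (.sR 2976 (.leaf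 0x8000050280241a00000000a0001008) (.sR 3024 (.leaf 0x8400020280251a8000000098001008) (.sg 14 (.leaf 0x8800054280261b000000009c001008) (.leaf 0x9000024280271c0000000094001008)))))))))))))
theorem k16 : ChunkP 4 4 1920 2048 8 16 2112 3072 :=
  chkY_sound (Q := 40) (C := []) (Z := [z474, z480, z483, z415, z450, z451, z452, z453, z454, z455, z456, z457, z458, z459, z460, z461, z462, z463, z464, z465, z466, z467, z468, z469, z470, z471, z472, z473, z475, z476, z477, z478, z479, z481, z482, z484, z485, z486, z487, z488])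
    (T := [f_w756_768_0_40_0q, f_w648_672_0_40_0q, f_w720_732_0_40_0q, f_w696_708_0_50_10q, f_w708_720_0_50_10q, f_w732_744_0_40_0q, f_w744_756_0_40_0q, f_w672_696_0_50_10q, f_w744_756_0_50_0q, f_w756_768_0_50_10q, f_w528_552_0_50_0q, f_w552_576_0_50_0q, f_w576_600_0_40_0q, f_w600_624_0_40_0q, f_w624_648_0_40_0q, f_w624_648_0_50_10q, f_w672_684_0_50_10q, f_w672_696_0_40_0q, f_w684_696_0_50_10q, f_w696_720_0_50_0q, f_w732_744_0_50_10q, f_w756_768_0_40_10q]) (t := t16)
    all_nil
    (all_cons z474P (all_cons z480P (all_cons z483P (all_cons z415P (all_cons z450P (all_cons z451P (all_cons z452P (all_cons z453P (all_cons z454P (all_cons z455P (all_cons z456P (all_cons z457P (all_cons z458P (all_cons z459P (all_cons z460P (all_cons z461P (all_cons z462P (all_cons z463P (all_cons z464P (all_cons z465P (all_cons z466P (all_cons z467P (all_cons z468P (all_cons z469P (all_cons z470P (all_cons z471P (all_cons z472P (all_cons z473P (all_cons z475P (all_cons z476P (all_cons z477P (all_cons z478P (all_cons z479P (all_cons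 z481P (all_cons z482P (all_cons z484P (all_cons z485P (all_cons z486P (all_cons z487P (all_cons z488P all_nil))))))))))))))))))))))))))))))))))))))))
    (all_cons f_w756_768_0_40_0q_p (all_cons f_w648_672_0_40_0q_p (all_cons f_w720_732_0_40_0q_p (all_cons f_w696_708_0_50_10q_p (all_cons f_w708_720_0_50_10q_p (all_cons f_w732_744_0_40_0q_p (all_cons f_w744_756_0_40_0q_p (all_cons f_w672_696_0_50_10q_p (all_cons f_w744_756_0_50_0q_p (all_cons f_w756_768_0_50_10q_p (all_cons f_w528_552_0_50_0q_p (all_cons f_w552_576_0_50_0q_p (all_cons f_w576_600_0_40_0q_p (all_cons f_w600_624_0_40_0q_p (all_cons f_w624_648_0_40_0q_p (all_cons f_w624_648_0_50_10q_p (all_cons f_w672_684_0_50_10q_p (all_cons f_w672_696_0_40_0q_p (all_cons f_w684_696_0_50_10q_p (all_cons f_w696_720_0_50_0q_p (all_cons f_w732_744_0_50_10q_p (all_cons f_w756_768_0_40_10q_p all_nil))))))))))))))))))))))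
    (by decide +kernel)
def t17 : Tree := (.sR 2016 (.sg 24 (.sr 1664 (.leaf 0x4804000240001200000000a8001007) (.leaf 0x4004004000240021100000000b0401004)) (.sr 1664 (.leaf 0x4404000240011180000000a8001007) (.leaf 0x4003c04000240031080000000ac401004))) (.leaf 0x4400004280001280000000a8001008))
theorem k17 : ChunkP 4 4 1536 1792 16 32 1920 2112 :=
  chkY_sound (Q := 40) (C := [c30.c, c31.c, c39.c, c40.c]) (Z := [z489])
    (T := [f_w480_504_0_40_0q, f_w504_528_0_50_0q]) (t := t17)
    (all_cons p30 (all_cons p31 (all_cons p39 (all_cons p40 all_nil))))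
    (all_cons z489P all_nil)
    (all_cons f_w480_504_0_40_0q_p (all_cons f_w504_528_0_50_0q_p all_nil))
    (by decide +kernel)

end Pool.Agent.Lib.MP_af3a4a_an.P1.CHK.DATA.N4s
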