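import Pool.Agent.Lib.MP_af3a4a_an.P1.CHK.SWP.Pay
import Pool.Agent.Lib.MP_af3a4a_an.P1.CHK.DATA.N4s.C2
import Pool.Agent.Lib.MP_af3a4a_an.P1.CHK.DATA.N4s.Z11
import Pool.Agent.Lib.MP_af3a4a_an.P1.CHK.DATA.N4s.Z12
import Pool.Agent.Lib.MP_af3a4a_an.P1.CHK.DATA.F4.W480a
import Pool.Agent.Lib.MP_af3a4a_an.P1.CHK.DATA.F4.W480b
import Pool.Agent.Lib.MP_af3a4a_an.P1.CHK.DATA.F4.W528a
import Pool.Agent.Lib.MP_af3a4a_an.P1.CHK.DATA.F4.W528b
import Pool.Agent.Lib.MP_af3a4a_an.P1.CHK.DATA.F4.W576a
import Pool.Agent.Lib.MP_af3a4a_an.P1.CHK.DATA.F4.W624a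

/-! chunks for N = 4 (generated) -/

set_option autoImplicit false
set_option maxRecDepth 100000

namespace Pool.Agent.Lib.MP_af3a4a_an.P1.CHK.DATA.N4s

open BOX SWP

def t120 : Tree := (.sR 2496 (.sr 3200 (.sR 2400 (.sg 26 (.sR 2160 (.sR 2016 (.sR 1968 (.leaf 0x45c3c0800c220021000000000ac44d044) (.leaf 0x45c4008008220021080000000ac44d044)) (.sR 2112 (.sr 3136 (.sR 2064 (.leaf 0x4003810000280071100000000a8401006) (.leaf 0x4003c00038280081180000000b0401006)) (.sR 2064 (.leaf 0x3810000280091100000000a4001008) (.leaf 0x40140042800a1200000000ac001008))) (.leaf 0x400001c280031200000000ac001008))) (.sR 2256 (.sR 2208 (.leaf 0x4414010280041280000000ac001008) (.leaf 0x4800014280051300000000a0001008)) (.sR 2304 (.leaf 0x4c00048280061380000000a4001008) (.sR 2352 (.leaf 0x5000028280001400000000a8001008) (.leaf 0x540002c280001480000000a0001008))))) (.sR 2208 (.sR 1968 (.sr 3136 (.leaf 0x45c3808030240031000000000b044d044) (.leaf 0x45c3c04034220071000000000a844d044)) (.sR 2016 (.leaf 0x45c4008008220051080000000ac44d044)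 (.sr 3136 (.sR 2112 (.sR 2064 (.leaf 0x40038100002800f1100000000a8401006) (.leaf 0x3c14004280101180000000a8001008)) (.sR 2160 (.leaf 0x4000018280111200000000a8001008) (.leaf 0x44000202801212800000009c001008))) (.sR 2112 (.sR 2064 (.leaf 0x4003810000280131100000000b0401006) (.leaf 0x3c14004280141180000000a0001008)) (.sR 2160 (.leaf 0x4000018280151200000000a8001008) (.leaf 0x44000202801612800000009c001008)))))) (.sR 2304 (.sR 2256 (.leaf 0x48000142800b1300000000ac001008) (.leaf 0x4c000242800c1380000000ac001008)) (.sR 2352 (.leaf 0x4c000282800d1380000000ac001008) (.leaf 0x540002c2800e14800000009c001008))))) (.leaf 0x4206c000541e00415080756ad7a421040)) (.sR 2304 (.sg 26 (.sR 2208 (.sR 2064 (.sR 1968 (.leaf 0x45c3c0800c220001000000000a844d044) (.sR 2016 (.leaf 0x45c4008008220001080000000ac44d044) (.sr 3264 (.leaf 0x3810000280181100000000a0001008) (.leaf 0x3810000280191100000000a0001008)))) (.sR 2112 (.leaf 0x4504c0403c200001188c0b9f37a451040) (.sR 2160 (.leaf 0x400001c280011200000000ac001008) (.leaf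 0x4414010280011280000000a4001008)))) (.leaf 0x4505c04044200001388c114207a451040)) (.sR 2112 (.sR 1968 (.leaf 0x45c3c0800c220011000000000a844d044) (.sR 2016 (.leaf 0x45c4008008220011080000000ac44d044) (.sr 3264 (.sR 2064 (.leaf 0x40038100002801b1100000000ac401006) (.leaf 0x3c140042801c11800000009c001008)) (.sR 2064 (.leaf 0x38100002801d1100000000a4001008) (.leaf 0x3c140042801e11800000009c001008))))) (.sR 2208 (.sR 2160 (.leaf 0x4305004040200011208c2f1ea7a431040) (.leaf 0x44140102801a1280000000a8001008)) (.sR 2256 (.leaf 0x48000142800213000000009c001008) (.leaf 0x5000024280021400000000a8001008))))) (.sR 2400 (.leaf 0x440680004c1e0081489026b1c7a441040) (.leaf 0x5c18050280171580000000a8001008)))) (.leaf 0x44078000581c0061608051e267a441040))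
theorem k120 : ChunkP 4 4 3072 3328 24 28 1920 2592 :=
  chkY_sound (Q := 40) (C := [c817.c, c819.c, c735.c, c719.c, c736.c, c737.c, c743.c, c770.c, c818.c]) (Z := [z3576, z3594, z3598, z3572, z3573, z3574, z3575, z3577, z3578, z3579, z3580, z3581, z3582, z3583, z3584, z3585, z3586, z3587, z3588, z3589, z3590, z3591, z3592, z3593, z3595, z3596, z3597, z3599, z3600, z3601, z3602])
    (T := [f_w504_516_0_70_20q, f_w516_528_0_70_20q, f_w492_504_4_70_20q, f_w480_492_4_70_10q, f_w540_552_0_70_20q, f_w552_564_0_70_30q, f_w528_540_0_60_10q, f_w528_540_0_70_20q, f_w540_552_0_60_10q, f_w564_576_0_70_30q, f_w576_588_0_60_10q, f_w588_600_0_60_10q, f_w480_492_4_60_20q, f_w480_492_4_60_40q, f_w516_528_0_60_10q, f_w516_528_4_70_20q, f_w528_540_4_70_30q, f_w552_576_4_70_20q, f_w564_576_0_60_10q, f_w576_600_4_70_10q, f_w600_624_0_70_10q, f_w600_624_4_70_10q, f_w624_648_4_70_10q]) (t := t120)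
    (all_cons p817 (all_cons p819 (all_cons p735 (all_cons p719 (all_cons p736 (all_cons p737 (all_cons p743 (all_cons p770 (all_cons p818 all_nil)))))))))
    (all_cons z3576P (all_cons z3594P (all_cons z3598P (all_cons z3572P (all_cons z3573P (all_cons z3574P (all_cons z3575P (all_cons z3577P (all_cons z3578P (all_cons z3579P (all_cons z3580P (all_cons z3581P (all_cons z3582P (all_cons z3583P (all_cons z3584P (all_cons z3585P (all_cons z3586P (all_cons z3587P (all_cons z3588P (all_cons z3589P (all_cons z3590P (all_cons z3591P (all_cons z3592P (all_cons z3593P (all_cons z3595P (all_cons z3596P (all_cons z3597P (all_cons z3599P (all_cons z3600P (all_cons z3601P (all_cons z3602P all_nil)))))))))))))))))))))))))))))))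
    (all_cons f_w504_516_0_70_20q_p (all_cons f_w516_528_0_70_20q_p (all_cons f_w492_504_4_70_20q_p (all_cons f_w480_492_4_70_10q_p (all_cons f_w540_552_0_70_20q_p (all_cons f_w552_564_0_70_30q_p (all_cons f_w528_540_0_60_10q_p (all_cons f_w528_540_0_70_20q_p (all_cons f_w540_552_0_60_10q_p (all_cons f_w564_576_0_70_30q_p (all_cons f_w576_588_0_60_10q_p (all_cons f_w588_600_0_60_10q_p (all_cons f_w480_492_4_60_20q_p (all_cons f_w480_492_4_60_40q_p (all_cons f_w516_528_0_60_10q_p (all_cons f_w516_528_4_70_20q_p (all_cons f_w528_540_4_70_30q_p (all_cons f_w552_576_4_70_20q_p (all_cons f_w564_576_0_60_10q_p (all_cons f_w576_600_4_70_10q_p (all_cons f_w600_624_0_70_10q_p (all_cons f_w600_624_4_70_10q_p (all_cons f_w624_648_4_70_10q_p all_nil)))))))))))))))))))))))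
    (by decide +kernel)
def t121 : Tree := (.sR 2496 (.sr 3200 (.sg 30 (.sR 2400 (.sR 2304 (.sR 2256 (.sr 3136 (.sR 2064 (.sR 1968 (.leaf 0x45c3c0400c220021000000000ac44d044) (.sR 2016 (.leaf 0x45c4008010220021080000000ac44d044) (.sg 29 (.leaf 0x3810000280091100000000a4001008) (.leaf 0x40038100002800a1100000000ac401006)))) (.sR 2160 (.sR 2112 (.leaf 0x3c14004280051180000000a8001008) (.leaf 0x4000008280061200000000a8001008)) (.sR 2208 (.leaf 0x4400020280071280000000a4001008) (.leaf 0x4c00018280081380000000ac001008)))) (.sR 2064 (.sR 1968 (.leaf 0x45c3c04038220041000000000b044d044) (.sR 2016 (.leaf 0x45c4004040220041080000000b044d044) (.sg 29 (.leaf 0x4003810000280001100000000ac401006) (.leaf 0x4003810000280001100000000b0401006)))) (.sR 2160 (.sR 2112 (.leaf 0x4003c140042800b1180000000b0401006) (.leaf 0x40000082800c1200000000a0001008)) (.sR 2208 (.leaf 0x44000202800d1280000000a4001008) (.leaf 0x48000182800e1300000000a4001008))))) (.leaf 0x4c00024280021380000000ac001008)) (.sR 2352 (.leaf 0x4c00028280031380000000ac001008)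 (.leaf 0x5400068280041480000000a4001008))) (.leaf 0x4206c000741e00715080756ad7a421040)) (.sR 2352 (.sR 2304 (.sr 3136 (.sR 2112 (.sR 1968 (.leaf 0x45c3c0400c220031000000000b044d044) (.sR 2016 (.leaf 0x45c4008010220031080000000ac44d044) (.sg 31 (.sR 2064 (.leaf 0x4003800044280161100000000b0401006) (.leaf 0x3c00030280171180000000ac001008)) (.sR 2064 (.sr 3104 (.leaf 0x4003800014280191100000000a8401006) (.leaf 0x40038000142801a1100000000ac401006)) (.leaf 0x4003c00030280181180000000b0401006))))) (.sR 2208 (.sR 2160 (.leaf 0x400001c280121200000000ac001008) (.leaf 0x4400020280131280000000ac001008)) (.sR 2256 (.leaf 0x4800018280141300000000a0001008) (.leaf 0x4c0003428015138000000098001008)))) (.sR 2112 (.sR 2016 (.sR 1968 (.leaf 0x45c3c0400c220051000000000b044d044) (.leaf 0x45c4404010200051080000000ac44d044)) (.sR 2064 (.sg 31 (.leaf 0x40038100002801f1100000000ac401006) (.sr 3168 (.leaf 0x4003800014280201100000000ac401006) (.leaf 0x4003800014280211100000000ac401006))) (.leaf 0x4003c140042801b1180000000b0401006)))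 (.sR 2208 (.sR 2160 (.sg 31 (.leaf 0x400001c280221200000000a8001008) (.leaf 0x400001c280231200000000ac001008)) (.leaf 0x44140502801c1280000000a0001008)) (.sR 2256 (.leaf 0x48000182801d1300000000a0001008) (.leaf 0x4c000342801e138000000098001008))))) (.leaf 0x4c000282800f1380000000ac001008)) (.sR 2400 (.leaf 0x540006c280101480000000a0001008) (.sR 2448 (.leaf 0x5400070280111480000000a8001008) (.leaf 3))))) (.sR 2400 (.sg 30 (.sR 2304 (.sR 2160 (.sR 1968 (.leaf 0x45c400403c200001000000000b044d044) (.sR 2016 (.leaf 0x45c4404010200001080000000ac44d044) (.sr 3264 (.sR 2064 (.leaf 0x450480002c20008110880c7b47a451040) (.sR 2112 (.leaf 0x3c14004280241180000000a8001008) (.leaf 0x40000082802512000000009c001008))) (.sR 2064 (.leaf 0x43048040482000c110882c4107a431040) (.sR 2112 (.leaf 0x3c14004280261180000000a4001008) (.leaf 0x40000082802712000000009c001008)))))) (.sR 2208 (.leaf 0x4405404054200001288c1ee457a441040) (.sR 2256 (.leaf 0x480005c280011300000000ac001008) (.leaf 0x4c00024280011380000000a8001008))))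 (.leaf 0x44068000641e00b1489026b1c7a441040)) (.sR 2208 (.sR 2016 (.sR 1968 (.sr 3264 (.leaf 0x45c3c0400c220091000000000b044d044) (.leaf 0x45c3c0400c220011000000000ac44d044)) (.leaf 0x45c4404010200061080000000ac44d044)) (.sR 2160 (.sr 3264 (.sR 2112 (.sg 31 (.sR 2064 (.leaf 0x40038100002802b1100000000a8401006) (.leaf 0x3c140042802c1180000000a4001008)) (.sR 2064 (.leaf 0x40038100002802d1100000000b0401006) (.leaf 0x3c140042802e1180000000ac001008))) (.leaf 0x40000082802a1200000000a8001008)) (.sR 2064 (.leaf 0x450480002c20001110880c7b47a451040) (.sR 2112 (.leaf 0x4304c0404c200011188c2d9b87a431040) (.leaf 0x40000082802f1200000000a0001008)))) (.leaf 0x47058000582000a13080850d37a471080))) (.sR 2304 (.sR 2256 (.leaf 0x4305800060200061308c328a67a431040) (.leaf 0x4c00024280281380000000a4001008)) (.sR 2352 (.leaf 0x4c00028280291380000000ac001008) (.leaf 3))))) (.leaf 3))) (.leaf 3))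
theorem k121 : ChunkP 4 4 3072 3328 28 32 1920 2592 :=
  chkY_sound (Q := 40) (C := [c821.c, c844.c, c720.c, c721.c, c771.c, c772.c, c822.c, c738.c, c797.c, c799.c, c819.c, c820.c, c842.c]) (Z := [z3616, z3638, z3603, z3604, z3605, z3606, z3607, z3608, z3609, z3610, z3611, z3612, z3613, z3614, z3615, z3617, z3618, z3619, z3620, z3621, z3622, z3623, z3624, z3625, z3626, z3627, z3628, z3629, z3630, z3631, z3632, z3633, z3634, z3635, z3636, z3637, z3639, z3640, z3641, z3642, z3643, z3644, z3645, z3646, z3647, z3648, z3649, z3650])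
    (T := [f_w504_516_0_70_20q, f_w516_528_0_70_20q, f_w528_540_0_70_20q, f_w480_492_4_60_40q, f_w492_504_4_70_20q, f_w504_516_0_60_10q, f_w552_564_0_60_10q, f_w528_540_0_60_10q, f_w540_552_0_60_10q, f_w564_576_0_70_30q, f_w576_588_0_60_10q, f_w504_516_4_70_30q, f_w516_528_0_60_10q, f_w564_576_0_60_10q, f_w480_492_4_60_30q, f_w480_492_4_70_10q, f_w492_504_4_60_20q, f_w504_516_0_65_35q, f_w504_516_4_70_20q, f_w516_528_4_70_20q, f_w540_552_0_70_20q, f_w540_552_4_70_20q, f_w540_552_8_70_30q, f_w552_564_0_70_30q, f_w552_564_4_70_30q, f_w576_600_4_70_0q, f_w588_600_0_60_10q, f_w588_600_0_65_35q, f_w600_612_0_60_20q, f_w600_624_4_70_10q]) (t := t121)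
    (all_cons p821 (all_cons p844 (all_cons p720 (all_cons p721 (all_cons p771 (all_cons p772 (all_cons p822 (all_cons p738 (all_cons p797 (all_cons p799 (all_cons p819 (all_cons p820 (all_cons p842 all_nil)))))))))))))
    (all_cons z3616P (all_cons z3638P (all_cons z3603P (all_cons z3604P (all_cons z3605P (all_cons z3606P (all_cons z3607P (all_cons z3608P (all_cons z3609P (all_cons z3610P (all_cons z3611P (all_cons z3612P (all_cons z3613P (all_cons z3614P (all_cons z3615P (all_cons z3617P (all_cons z3618P (all_cons z3619P (all_cons z3620P (all_cons z3621P (all_cons z3622P (all_cons z3623P (all_cons z3624P (all_cons z3625P (all_cons z3626P (all_cons z3627P (all_cons z3628P (all_cons z3629P (all_cons z3630P (all_cons z3631P (all_cons z3632P (all_cons z3633P (all_cons z3634P (all_cons z3635P (all_cons z3636P (all_cons z3637P (all_cons z3639P (all_cons z3640P (all_cons z3641P (all_cons z3642P (all_cons z3643P (all_cons z3644P (all_cons z3645P (all_cons z3646P (all_cons z3647P (all_cons z3648P (all_cons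 z3649P (all_cons z3650P all_nil))))))))))))))))))))))))))))))))))))))))))))))))
    (all_cons f_w504_516_0_70_20q_p (all_cons f_w516_528_0_70_20q_p (all_cons f_w528_540_0_70_20q_p (all_cons f_w480_492_4_60_40q_p (all_cons f_w492_504_4_70_20q_p (all_cons f_w504_516_0_60_10q_p (all_cons f_w552_564_0_60_10q_p (all_cons f_w528_540_0_60_10q_p (all_cons f_w540_552_0_60_10q_p (all_cons f_w564_576_0_70_30q_p (all_cons f_w576_588_0_60_10q_p (all_cons f_w504_516_4_70_30q_p (all_cons f_w516_528_0_60_10q_p (all_cons f_w564_576_0_60_10q_p (all_cons f_w480_492_4_60_30q_p (all_cons f_w480_492_4_70_10q_p (all_cons f_w492_504_4_60_20q_p (all_cons f_w504_516_0_65_35q_p (all_cons f_w504_516_4_70_20q_p (all_cons f_w516_528_4_70_20q_p (all_cons f_w540_552_0_70_20q_p (all_cons f_w540_552_4_70_20q_p (all_cons f_w540_552_8_70_30q_p (all_cons f_w552_564_0_70_30q_p (all_cons f_w552_564_4_70_30q_p (all_cons f_w576_600_4_70_0q_p (all_cons f_w588_600_0_60_10q_p (all_cons f_w588_600_0_65_35q_p (all_cons f_w600_612_0_60_20q_p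 (all_cons f_w600_624_4_70_10q_p all_nil))))))))))))))))))))))))))))))
    (by decide +kernel)
def t122 : Tree := (.sR 2400 (.sg 28 (.sR 2304 (.sr 3456 (.sR 2208 (.sg 26 (.sR 2112 (.sR 2016 (.sR 1968 (.leaf 0x45c3c080002200a1000000000a844d044) (.leaf 0x45c4404004200051080000000ac44d044)) (.sR 2064 (.leaf 0x440480400820005110881ab527a441040) (.leaf 0x3c14010280001180000000ac001008))) (.leaf 0x4405408018200051288c1ee457a441040)) (.sR 2064 (.sR 1968 (.leaf 0x45c3c08000220021000000000a844d044) (.sR 2016 (.leaf 0x45c4404004200021080000000ac44d044) (.leaf 0x450480400820002110880c7b47a451040))) (.sR 2112 (.leaf 0x4304c0400c200021188c2d9b87a431040) (.sR 2160 (.leaf 0x4000038280011200000000ac001008) (.leaf 0x580001c1e0001280000000a0001007))))) (.leaf 0x42060000201e00b1388c46bd97a421040)) (.sR 2112 (.sg 26 (.sR 2016 (.leaf 0x4704408024200061080000000b044d044) (.leaf 0x4404c08030200061188c1bdb77a441040)) (.sR 2016 (.sR 1968 (.leaf 0x45c4004000200081000000000a844d044) (.leaf 0x45c4404004200081080000000ac44d044))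 (.sR 2064 (.leaf 0x400480002c200011100000000b0401004) (.leaf 0x40050000101e0011180000000b0401004)))) (.sR 2208 (.leaf 0x42058040181e0071288c432687a421040) (.leaf 0x60000441e0101380000000a8001007)))) (.leaf 0x4506c0004c1c00d14890157b07a451040)) (.sR 2304 (.sr 3456 (.sg 30 (.sR 2208 (.sR 2064 (.sR 1968 (.leaf 0x45c4004000200031000000000a844d044) (.sR 2016 (.leaf 0x45c4404004200031080000000ac44d044) (.sr 3392 (.leaf 0x4003810028280031100000000b0401006) (.leaf 0x42048040082000e110883e9827a421040)))) (.sR 2112 (.leaf 0x4504c0400c200031188c0b9f37a451040) (.sR 2160 (.leaf 0x4205004014200031208c418337a421040) (.leaf 0x441401c280021280000000a8001008)))) (.leaf 0x44060000201e00c1388c229287a441040)) (.sR 2208 (.sR 2064 (.sR 1968 (.leaf 0x45c4004000200001000000000a844d044) (.sR 2016 (.leaf 0x45c4404004200001080000000ac44d044) (.sr 3392 (.leaf 0x430480400820009110882c4107a431040) (.leaf 0x42048040082000f110883e9827a421040)))) (.sR 2112 (.leaf 0x45050000341e0001188c0b9f37a451040) (.sR 2160 (.leaf 0x43054000141e0001208c2f1ea7a431040)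 (.leaf 0x4405c000401e000130a01513b7a441040)))) (.leaf 0x45060000481e0001388c114207a451040))) (.sR 2112 (.sg 30 (.sR 2016 (.sR 1968 (.leaf 0x45c4004000200041000000000a844d044) (.leaf 0x45c4404004200041080000000ac44d044)) (.sR 2064 (.leaf 0x440480400820004110881ab527a441040) (.leaf 0x420500000c1e0041188c3ffd77a421040))) (.sR 2016 (.sR 1968 (.leaf 0x45c4004000200011000000000a844d044) (.leaf 0x45c4404004200011080000000ac44d044)) (.sR 2064 (.leaf 0x4504c000081e001110880c7b47a451040) (.leaf 0x430500000c1e0011188c2d9b87a431040)))) (.sR 2208 (.leaf 0x4905c0003c1e00713080527957a491080) (.leaf 3)))) (.leaf 3))) (.leaf 3))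
theorem k122 : ChunkP 4 4 3328 3584 24 32 1920 2592 :=
  chkY_sound (Q := 40) (C := [c895.c, c929.c, c892.c, c894.c, c927.c, c889.c, c924.c, c925.c, c926.c, c865.c, c890.c, c891.c, c893.c, c905.c, c906.c, c907.c, c928.c]) (Z := [z3651, z3652, z3653, z3654])
    (T := [f_w480_492_4_70_10q, f_w492_504_4_70_20q, f_w504_516_4_70_20q, f_w516_528_4_70_20q, f_w516_528_0_70_20q, f_w528_540_4_70_30q, f_w528_552_4_80_0q, f_w540_552_0_70_20q, f_w552_576_4_80_0q, f_w480_504_4_80_0q, f_w504_516_0_70_20q, f_w504_516_0_80_30q, f_w504_528_4_80_0q, f_w516_528_4_70_40q, f_w528_540_0_70_20q, f_w528_552_8_80_10q, f_w540_552_4_70_20q, f_w552_576_0_75_30q, f_w552_576_4_70_20q, f_w576_600_4_80_0q]) (t := t122)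
    (all_cons p895 (all_cons p929 (all_cons p892 (all_cons p894 (all_cons p927 (all_cons p889 (all_cons p924 (all_cons p925 (all_cons p926 (all_cons p865 (all_cons p890 (all_cons p891 (all_cons p893 (all_cons p905 (all_cons p906 (all_cons p907 (all_cons p928 all_nil)))))))))))))))))
    (all_cons z3651P (all_cons z3652P (all_cons z3653P (all_cons z3654P all_nil))))
    (all_cons f_w480_492_4_70_10q_p (all_cons f_w492_504_4_70_20q_p (all_cons f_w504_516_4_70_20q_p (all_cons f_w516_528_4_70_20q_p (all_cons f_w516_528_0_70_20q_p (all_cons f_w528_540_4_70_30q_p (all_cons f_w528_552_4_80_0q_p (all_cons f_w540_552_0_70_20q_p (all_cons f_w552_576_4_80_0q_p (all_cons f_w480_504_4_80_0q_p (all_cons f_w504_516_0_70_20q_p (all_cons f_w504_516_0_80_30q_p (all_cons f_w504_528_4_80_0q_p (all_cons f_w516_528_4_70_40q_p (all_cons f_w528_540_0_70_20q_p (all_cons f_w528_552_8_80_10q_p (all_cons f_w540_552_4_70_20q_p (all_cons f_w552_576_0_75_30q_p (all_cons f_w552_576_4_70_20q_p (all_cons f_w576_600_4_80_0q_p all_nil))))))))))))))))))))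
    (by decide +kernel)
def t123 : Tree := (.leaf 3)
theorem k123 : ChunkP 4 4 3072 3584 24 32 2592 2688 :=
  chkY_sound (Q := 40) (C := []) (Z := [])
    (T := []) (t := t123)
    all_nil
    all_nil
    all_nil
    (by decide +kernel)
def t124 : Tree := (.leaf 3)
theorem k124 : ChunkP 4 4 3072 3584 16 32 2688 3072 :=
  chkY_sound (Q := 40) (C := []) (Z := [])
    (T := []) (t := t124)
    all_nil
    all_nil
    all_nil
    (by decide +kernel)
def t125 : Tree := (.sg 34 (.sR 2304 (.sr 3136 (.sR 2016 (.sR 1968 (.leaf 0x45c3c08020220001000000000b044d044) (.leaf 0x45c4008010220001080000000b044d044)) (.sR 2208 (.sg 33 (.sR 2112 (.sR 2064 (.sr 3104 (.leaf 0x3800000280081100000000a0001008) (.leaf 0x4003800000280091100000000b0401006)) (.leaf 0x4003c1401c280051180000000b0401006)) (.sR 2160 (.leaf 0x4000008280061200000000a0001008) (.leaf 0x440000c280071280000000a4001008))) (.sR 2112 (.sR 2064 (.sr 3104 (.leaf 0x38000002800d1100000000a0001008) (.leaf 0x40038000182800e1100000000ac401006)) (.leaf 0x4003c000502800a1180000000b0401006))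 (.sR 2160 (.leaf 0x40000082800b1200000000a4001008) (.leaf 0x480000c2800c1300000000a8001008)))) (.sR 2256 (.leaf 0x4800028280031300000000a8001008) (.leaf 0x5000014280041400000000a4001008)))) (.sR 2160 (.sR 1968 (.leaf 0x45c3c04040220031000000000b044d044) (.sR 2016 (.leaf 0x45c4008010220031080000000ac44d044) (.sg 33 (.sR 2064 (.sr 3168 (.leaf 0x4003800000280141100000000b0401006) (.leaf 0x4003800000280151100000000b0401006)) (.sR 2112 (.leaf 0x3c1401c280121180000000a8001008) (.leaf 0x4000008280131200000000a4001008))) (.sR 2064 (.sr 3168 (.leaf 0x4003810024280181100000000b0401006) (.leaf 0x4003810024280191100000000ac401006)) (.sR 2112 (.leaf 0x4003c1401c280161180000000b0401006) (.leaf 0x4000008280171200000000a4001008)))))) (.sR 2208 (.leaf 0x44000542800f1280000000ac001008) (.sR 2256 (.leaf 0x4800028280101300000000a8001008) (.leaf 0x4c00014280111380000000a0001008))))) (.sR 2352 (.leaf 0x4c00058280011380000000ac001008) (.leaf 0x5400034280021480000000a8001008))) (.sR 2352 (.sr 3136 (.sR 2208 (.sR 2160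 (.sg 35 (.sR 2016 (.sR 1968 (.leaf 0x45c3c04038220011000000000b044d044) (.leaf 0x45c4004044220011080000000b044d044)) (.sR 2112 (.sr 3104 (.sR 2064 (.leaf 0x3800000280201100000000a4001008) (.leaf 0x3c00004280211180000000a4001008)) (.sR 2064 (.leaf 0x3800000280221100000000a4001008) (.leaf 0x3c00004280231180000000a8001008))) (.leaf 0x40000082801f1200000000a8001008))) (.sR 2016 (.sR 1968 (.leaf 0x45c3c0403c220021000000000b044d044) (.leaf 0x45c4008010220021080000000b044d044)) (.sR 2112 (.sr 3104 (.sR 2064 (.leaf 0x3800000280251100000000a4001008) (.leaf 0x4000004280261200000000ac001008)) (.sR 2064 (.leaf 0x3800000280271100000000a4001008) (.leaf 0x3c00004280281180000000a8001008))) (.leaf 0x4000008280241200000000ac001008)))) (.leaf 0x440000c2801b1280000000ac001008)) (.sR 2256 (.leaf 0x480002c2801c1300000000ac001008) (.sR 2304 (.leaf 0x4c000142801d13800000009c001008) (.leaf 0x50000302801e14000000009c001008)))) (.sR 2208 (.sR 1968 (.leaf 0x45c4004020200041000000000b044d044) (.sR 2016 (.leaf 0x45c4404010200041080000000b044d044)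 (.sg 35 (.sR 2112 (.sr 3168 (.sR 2064 (.leaf 0x40038000182802e1100000000b0401006) (.leaf 0x3c000042802f1180000000a8001008)) (.sR 2064 (.leaf 0x4003800018280301100000000b0401006) (.leaf 0x3c00004280311180000000a8001008))) (.sR 2160 (.leaf 0x40000082802c1200000000a8001008) (.leaf 0x440000c2802d1280000000ac001008))) (.sR 2112 (.sr 3168 (.sR 2064 (.leaf 0x4003800000280341100000000a8401006) (.leaf 0x3c00004280351180000000ac001008)) (.sR 2064 (.sR 2040 (.leaf 0x4003400048280001080000000ac401006) (.leaf 0x400380004c280001100000000b0401006)) (.leaf 0x3c00004280361180000000ac001008))) (.sR 2160 (.leaf 0x4000008280321200000000ac001008) (.leaf 0x440000c2803312800000009c001008)))))) (.sR 2256 (.leaf 0x480002c280291300000000a8001008) (.sR 2304 (.leaf 0x4c000142802a138000000098001008) (.leaf 0x4c000302802b1380000000ac001008))))) (.leaf 0x54000342801a1480000000a8001008)))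
theorem k125 : ChunkP 4 4 3072 3200 32 36 1920 2400 :=
  chkY_sound (Q := 40) (C := [c722.c, c723.c, c724.c, c773.c, c774.c]) (Z := [z3709, z3655, z3656, z3657, z3658, z3659, z3660, z3661, z3662, z3663, z3664, z3665, z3666, z3667, z3668, z3669, z3670, z3671, z3672, z3673, z3674, z3675, z3676, z3677, z3678, z3679, z3680, z3681, z3682, z3683, z3684, z3685, z3686, z3687, z3688, z3689, z3690, z3691, z3692, z3693, z3694, z3695, z3696, z3697, z3698, z3699, z3700, z3701, z3702, z3703, z3704, z3705, z3706, z3707, z3708])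
    (T := [f_w504_516_0_60_10q, f_w516_528_0_60_10q, f_w528_540_0_60_10q, f_w540_552_0_60_10q, f_w492_504_4_70_20q, f_w564_576_0_60_10q, f_w504_516_0_65_35q, f_w516_528_0_70_20q, f_w480_492_4_70_10q, f_w504_516_0_70_20q, f_w552_564_0_60_10q, f_w552_564_0_60_40q, f_w576_588_0_60_10q, f_w588_600_0_65_35q, f_w480_492_4_60_20q, f_w480_492_4_60_30q, f_w480_492_4_60_40q, f_w492_504_4_60_20q, f_w504_510_0_66_42q, f_w510_516_0_66_42q, f_w516_528_0_65_40q, f_w540_552_0_65_40q, f_w576_588_0_65_35q]) (t := t125)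
    (all_cons p722 (all_cons p723 (all_cons p724 (all_cons p773 (all_cons p774 all_nil)))))
    (all_cons z3709P (all_cons z3655P (all_cons z3656P (all_cons z3657P (all_cons z3658P (all_cons z3659P (all_cons z3660P (all_cons z3661P (all_cons z3662P (all_cons z3663P (all_cons z3664P (all_cons z3665P (all_cons z3666P (all_cons z3667P (all_cons z3668P (all_cons z3669P (all_cons z3670P (all_cons z3671P (all_cons z3672P (all_cons z3673P (all_cons z3674P (all_cons z3675P (all_cons z3676P (all_cons z3677P (all_cons z3678P (all_cons z3679P (all_cons z3680P (all_cons z3681P (all_cons z3682P (all_cons z3683P (all_cons z3684P (all_cons z3685P (all_cons z3686P (all_cons z3687P (all_cons z3688P (all_cons z3689P (all_cons z3690P (all_cons z3691P (all_cons z3692P (all_cons z3693P (all_cons z3694P (all_cons z3695P (all_cons z3696P (all_cons z3697P (all_cons z3698P (all_cons z3699P (all_cons z3700P (all_cons z3701P (all_cons z3702P (all_cons z3703P (all_cons z3704P (all_cons z3705P (all_cons z3706P (all_cons z3707P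 (all_cons z3708P all_nil)))))))))))))))))))))))))))))))))))))))))))))))))))))))
    (all_cons f_w504_516_0_60_10q_p (all_cons f_w516_528_0_60_10q_p (all_cons f_w528_540_0_60_10q_p (all_cons f_w540_552_0_60_10q_p (all_cons f_w492_504_4_70_20q_p (all_cons f_w564_576_0_60_10q_p (all_cons f_w504_516_0_65_35q_p (all_cons f_w516_528_0_70_20q_p (all_cons f_w480_492_4_70_10q_p (all_cons f_w504_516_0_70_20q_p (all_cons f_w552_564_0_60_10q_p (all_cons f_w552_564_0_60_40q_p (all_cons f_w576_588_0_60_10q_p (all_cons f_w588_600_0_65_35q_p (all_cons f_w480_492_4_60_20q_p (all_cons f_w480_492_4_60_30q_p (all_cons f_w480_492_4_60_40q_p (all_cons f_w492_504_4_60_20q_p (all_cons f_w504_510_0_66_42q_p (all_cons f_w510_516_0_66_42q_p (all_cons f_w516_528_0_65_40q_p (all_cons f_w540_552_0_65_40q_p (all_cons f_w576_588_0_65_35q_p all_nil)))))))))))))))))))))))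
    (by decide +kernel)

end Pool.Agent.Lib.MP_af3a4a_an.P1.CHK.DATA.N4s
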