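import Pool.Agent.Lib.MP_af3a4a_an.P1.CHK.SWP.Pay
import Pool.Agent.Lib.MP_af3a4a_an.P1.CHK.DATA.N4s.C2
import Pool.Agent.Lib.MP_af3a4a_an.P1.CHK.DATA.N4s.Z12
import Pool.Agent.Lib.MP_af3a4a_an.P1.CHK.DATA.F4.W480a
import Pool.Agent.Lib.MP_af3a4a_an.P1.CHK.DATA.F4.W480b
import Pool.Agent.Lib.MP_af3a4a_an.P1.CHK.DATA.F4.W528a
import Pool.Agent.Lib.MP_af3a4a_an.P1.CHK.DATA.F4.W528b
import Pool.Agent.Lib.MP_af3a4a_an.P1.CHK.DATA.F4.W576a

/-! chunks for N = 4 (generated) -/

set_option autoImplicit false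
set_option maxRecDepth 100000

namespace Pool.Agent.Lib.MP_af3a4a_an.P1.CHK.DATA.N4s

open BOX SWP

def t126 : Tree := (.sR 2304 (.sg 34 (.sR 2208 (.sr 3264 (.sR 2016 (.sR 1968 (.leaf 0x45c3c0400c220011000000000b044d044) (.leaf 0x45c4404000200011080000000ac44d044)) (.sR 2112 (.sg 33 (.sR 2064 (.sr 3232 (.leaf 0x4003800024280021100000000b0401006) (.leaf 0x4003810004280031100000000b0401006)) (.leaf 0x3c14018280011180000000a4001008)) (.sR 2064 (.sr 3232 (.leaf 0x4003810004280051100000000a8401006) (.leaf 0x4003810004280061100000000a8401006)) (.leaf 0x3c14018280041180000000a8001008))) (.sR 2160 (.leaf 0x470540401c20006128806fe8d7a471080) (.leaf 0x4414020280001280000000a8001008)))) (.sR 2064 (.sR 1968 (.leaf 0x45c3c0400c220001000000000b044d044) (.sR 2016 (.leaf 0x45c4404000200001080000000ac44d044) (.leaf 0x4804c0402c2000d118844c4387a481080))) (.sR 2112 (.leaf 0x4504c04034200001188c0b9f37a451040) (.sR 2160 (.leaf 0x4305004044200001208c2f1ea7a431040) (.leaf 0x4414020280071280000000a0001008))))) (.sR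 2256 (.leaf 0x47060000581e009138809e3147a471080) (.leaf 0x440600005c1e00b1388c229287a441040))) (.sR 2256 (.sr 3264 (.sR 2016 (.sR 1968 (.leaf 0x45c3c08010220021000000000ac44d044) (.leaf 0x45c4404000200021080000000ac44d044)) (.sR 2160 (.sg 35 (.sR 2064 (.sr 3232 (.leaf 0x40038000282800a1100000000b0401006) (.leaf 0x40038100042800b1100000000b0401006)) (.sR 2112 (.leaf 0x4003c00030280091180000000b0401006) (.leaf 0x4505000040200081208c0c3d67a451040))) (.sR 2112 (.sr 3232 (.sR 2064 (.leaf 0x4604c04008200051188472d847a461080) (.leaf 0x3c000142800d1180000000ac001008)) (.sR 2064 (.leaf 0x4504c040082000c11884874d57a451080) (.leaf 0x3c000142800e1180000000ac001008))) (.leaf 0x400003c2800c1200000000ac001008))) (.sR 2208 (.leaf 0x470580404c2000713080850d37a471080) (.leaf 0x4800054280081300000000a8001008)))) (.sR 2064 (.sR 1968 (.leaf 0x45c4004010200041000000000a844d044) (.sR 2016 (.leaf 0x45c4404000200041080000000ac44d044) (.sg 35 (.leaf 0x4504c040082000e11884874d57a451080) (.leaf 0x4804c040082000f118844c4387a481080))))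 (.sR 2160 (.sR 2112 (.leaf 0x47050040382000312084675c07a471080) (.leaf 0x460540401c2000312880ac00f7a461080)) (.sR 2208 (.leaf 0x44000482800f1280000000a8001008) (.leaf 0x4800050280101300000000a0001008))))) (.leaf 0x47064000601e00a14080b78ff7a471080))) (.leaf 3))
theorem k126 : ChunkP 4 4 3200 3328 32 36 1920 2400 :=
  chkY_sound (Q := 40) (C := [c847.c, c800.c, c802.c, c844.c, c850.c, c788.c, c797.c, c798.c, c801.c, c820.c, c822.c, c823.c, c824.c, c842.c, c843.c, c845.c]) (Z := [z3710, z3711, z3712, z3713, z3714, z3715, z3716, z3717, z3718, z3719, z3720, z3721, z3722, z3723, z3724, z3725, z3726])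
    (T := [f_w492_504_4_70_20q, f_w504_516_0_70_20q, f_w504_516_8_70_20q, f_w480_492_4_60_40q, f_w480_492_4_70_10q, f_w516_528_0_60_10q, f_w516_528_0_70_20q, f_w528_540_8_70_30q, f_w540_552_0_70_20q, f_w504_516_0_60_10q, f_w504_516_0_65_35q, f_w504_516_8_70_30q, f_w516_528_0_65_40q, f_w516_528_4_70_20q, f_w516_528_8_70_20q, f_w528_540_0_60_10q, f_w528_540_4_65_40q, f_w528_540_4_70_30q, f_w540_552_0_65_40q, f_w540_552_8_70_20q, f_w552_564_0_65_40q, f_w552_564_0_70_30q, f_w552_564_8_70_30q, f_w564_576_4_70_30q, f_w564_576_8_70_30q]) (t := t126)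
    (all_cons p847 (all_cons p800 (all_cons p802 (all_cons p844 (all_cons p850 (all_cons p788 (all_cons p797 (all_cons p798 (all_cons p801 (all_cons p820 (all_cons p822 (all_cons p823 (all_cons p824 (all_cons p842 (all_cons p843 (all_cons p845 all_nil))))))))))))))))
    (all_cons z3710P (all_cons z3711P (all_cons z3712P (all_cons z3713P (all_cons z3714P (all_cons z3715P (all_cons z3716P (all_cons z3717P (all_cons z3718P (all_cons z3719P (all_cons z3720P (all_cons z3721P (all_cons z3722P (all_cons z3723P (all_cons z3724P (all_cons z3725P (all_cons z3726P all_nil)))))))))))))))))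
    (all_cons f_w492_504_4_70_20q_p (all_cons f_w504_516_0_70_20q_p (all_cons f_w504_516_8_70_20q_p (all_cons f_w480_492_4_60_40q_p (all_cons f_w480_492_4_70_10q_p (all_cons f_w516_528_0_60_10q_p (all_cons f_w516_528_0_70_20q_p (all_cons f_w528_540_8_70_30q_p (all_cons f_w540_552_0_70_20q_p (all_cons f_w504_516_0_60_10q_p (all_cons f_w504_516_0_65_35q_p (all_cons f_w504_516_8_70_30q_p (all_cons f_w516_528_0_65_40q_p (all_cons f_w516_528_4_70_20q_p (all_cons f_w516_528_8_70_20q_p (all_cons f_w528_540_0_60_10q_p (all_cons f_w528_540_4_65_40q_p (all_cons f_w528_540_4_70_30q_p (all_cons f_w540_552_0_65_40q_p (all_cons f_w540_552_8_70_20q_p (all_cons f_w552_564_0_65_40q_p (all_cons f_w552_564_0_70_30q_p (all_cons f_w552_564_8_70_30q_p (all_cons f_w564_576_4_70_30q_p (all_cons f_w564_576_8_70_30q_p all_nil)))))))))))))))))))))))))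
    (by decide +kernel)
def t127 : Tree := (.sR 2352 (.sr 3136 (.sR 2256 (.sg 37 (.sR 2064 (.sR 1968 (.leaf 0x45c3c04008220011000000000b044d044) (.sR 2016 (.leaf 0x45c440002c200011080000000b044d044) (.sr 3104 (.leaf 0x4003800000280061100000000a8401006) (.leaf 0x4003800000280071100000000a8401006)))) (.sR 2160 (.sR 2112 (.leaf 0x3c00004280021180000000ac001008) (.leaf 0x400000c280031200000000ac001008)) (.sR 2208 (.leaf 0x440001c280041280000000ac001008) (.leaf 0x4800020280051300000000a0001008)))) (.sR 2112 (.sR 2064 (.sr 3104 (.sR 1968 (.leaf 0x45c3c04010220001000000000ac44d044) (.sR 2016 (.leaf 0x45c4004014220001080000000ac44d044) (.leaf 0x40038000002800b1100000000a8401006))) (.sR 1968 (.leaf 0x45c3c04010220021000000000ac44d044) (.sR 2016 (.leaf 0x45c4004014220021080000000ac44d044) (.leaf 0x40038000002800c1100000000ac401006)))) (.leaf 0x4003c00004280081180000000b0401006)) (.sR 2160 (.sr 3104 (.leaf 0x48000182800d1300000000ac001008) (.leaf 0x40000182800e1200000000ac001008)) (.sR 2208 (.leaf 0x440001c280091280000000a0001008)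 (.leaf 0x4c000202800a13800000009c001008))))) (.sR 2304 (.leaf 0x4c00024280001380000000a0001008) (.leaf 0x54000402800114800000009c001008))) (.sR 2208 (.sR 2160 (.sg 37 (.sR 2016 (.sR 1968 (.leaf 0x45c4000008200031000000000b044d044) (.leaf 0x45c4404030200031080000000ac44d044)) (.sR 2112 (.sr 3168 (.sR 2064 (.leaf 0x4003800000280131100000000a8401006) (.leaf 0x3c00004280141180000000ac001008)) (.sR 2064 (.leaf 0x4003800000280151100000000ac401006) (.leaf 0x4003c00004280161180000000b0401006))) (.leaf 0x400000c280121200000000a8001008))) (.sR 2016 (.sR 1968 (.leaf 0x45c3c04008220041000000000b044d044) (.leaf 0x45c4004028220041080000000b044d044)) (.sR 2112 (.sr 3168 (.sR 2064 (.leaf 0x4003800000280181100000000ac401006) (.leaf 0x3c000042801911800000009c001008)) (.sR 2064 (.leaf 0x40038000002801a1100000000b0401006) (.leaf 0x3c000342801b1180000000ac001008))) (.leaf 0x400000c280171200000000ac001008)))) (.leaf 0x44000382800f1280000000ac001008)) (.sR 2256 (.leaf 0x480003c280101300000000a4001008) (.sR 2304 (.leaf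 0x4c00024280111380000000a0001008) (.leaf 3))))) (.leaf 3))
theorem k127 : ChunkP 4 4 3072 3200 36 38 1920 2400 :=
  chkY_sound (Q := 40) (C := [c705.c, c725.c, c746.c, c775.c, c776.c]) (Z := [z3727, z3728, z3729, z3730, z3731, z3732, z3733, z3734, z3735, z3736, z3737, z3738, z3739, z3740, z3741, z3742, z3743, z3744, z3745, z3746, z3747, z3748, z3749, z3750, z3751, z3752, z3753, z3754])
    (T := [f_w504_516_0_60_10q, f_w516_528_0_60_10q, f_w480_492_4_60_40q, f_w528_540_0_65_40q, f_w480_492_4_60_10q, f_w492_504_4_60_20q, f_w528_540_0_60_10q, f_w540_552_0_60_10q, f_w552_564_0_60_10q, f_w564_576_0_60_10q, f_w492_504_4_60_30q, f_w492_504_4_60_40q, f_w492_504_4_70_20q, f_w516_528_0_65_40q, f_w540_552_0_65_40q, f_w552_564_0_65_40q, f_w576_588_0_60_10q]) (t := t127)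
    (all_cons p705 (all_cons p725 (all_cons p746 (all_cons p775 (all_cons p776 all_nil)))))
    (all_cons z3727P (all_cons z3728P (all_cons z3729P (all_cons z3730P (all_cons z3731P (all_cons z3732P (all_cons z3733P (all_cons z3734P (all_cons z3735P (all_cons z3736P (all_cons z3737P (all_cons z3738P (all_cons z3739P (all_cons z3740P (all_cons z3741P (all_cons z3742P (all_cons z3743P (all_cons z3744P (all_cons z3745P (all_cons z3746P (all_cons z3747P (all_cons z3748P (all_cons z3749P (all_cons z3750P (all_cons z3751P (all_cons z3752P (all_cons z3753P (all_cons z3754P all_nil))))))))))))))))))))))))))))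
    (all_cons f_w504_516_0_60_10q_p (all_cons f_w516_528_0_60_10q_p (all_cons f_w480_492_4_60_40q_p (all_cons f_w528_540_0_65_40q_p (all_cons f_w480_492_4_60_10q_p (all_cons f_w492_504_4_60_20q_p (all_cons f_w528_540_0_60_10q_p (all_cons f_w540_552_0_60_10q_p (all_cons f_w552_564_0_60_10q_p (all_cons f_w564_576_0_60_10q_p (all_cons f_w492_504_4_60_30q_p (all_cons f_w492_504_4_60_40q_p (all_cons f_w492_504_4_70_20q_p (all_cons f_w516_528_0_65_40q_p (all_cons f_w540_552_0_65_40q_p (all_cons f_w552_564_0_65_40q_p (all_cons f_w576_588_0_60_10q_p all_nil)))))))))))))))))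
    (by decide +kernel)
def t128 : Tree := (.sR 2304 (.sr 3136 (.sR 2208 (.sg 39 (.sR 2112 (.sR 2064 (.sr 3104 (.sR 1968 (.leaf 0x45c3c0400c220041000000000b044d044) (.sR 2016 (.leaf 0x4003400014280071080000000a8401006) (.leaf 0x4003800004280081100000000ac401006))) (.sR 1968 (.leaf 0x45c3c0400c220001000000000b044d044) (.sR 2016 (.leaf 0x45c4400018200001080000000ac44d044) (.leaf 0x4003800004280091100000000b0401006)))) (.leaf 0x4003c00000280041180000000b0401006)) (.sR 2160 (.leaf 0x4000008280051200000000ac001008) (.leaf 0x4400010280061280000000a0001008))) (.sR 2112 (.sr 3104 (.sR 2016 (.sR 1968 (.leaf 0x45c3c04024220051000000000b044d044) (.leaf 0x40034000142800c1080000000a8401006)) (.sR 2064 (.leaf 0x40038000042800d1100000000b0401006) (.leaf 0x4003c00000280001180000000b0401006))) (.sR 2016 (.sR 1968 (.leaf 0x45c3c0400c220061000000000b044d044) (.leaf 0x40034000142800e1080000000ac401006)) (.sR 2064 (.leaf 0x40038000042800f1100000000b0401006) (.leaf 0x4003c00000280001180000000b0401006)))) (.sR 2160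 (.leaf 0x40000082800a1200000000a0001008) (.leaf 0x44000102800b1280000000a4001008)))) (.sR 2256 (.leaf 0x4800020280021300000000a4001008) (.leaf 0x4c00030280031380000000a8001008))) (.sR 2256 (.sg 39 (.sR 2016 (.sR 1968 (.leaf 0x45c3c04028220021000000000b044d044) (.leaf 0x45c440002c200021080000000b044d044)) (.sR 2160 (.sr 3168 (.sR 2064 (.leaf 0x4003800004280121100000000b0401006) (.sR 2112 (.leaf 0x4003c00000280011180000000b0401006) (.leaf 0x4000008280131200000000a0001008))) (.sR 2064 (.leaf 0x4003800004280141100000000b0401006) (.sR 2112 (.leaf 0x4003c00000280011180000000b0401006) (.leaf 0x4000008280151200000000a0001008)))) (.sR 2208 (.leaf 0x4400010280101280000000a0001008) (.leaf 0x4800020280111300000000a4001008)))) (.sR 2160 (.sr 3168 (.sR 2016 (.sR 1968 (.leaf 0x45c3c0400c220011000000000ac44d044) (.leaf 0x45c4004018220011080000000ac44d044)) (.sR 2064 (.leaf 0x400380001c280171100000000b0401006) (.sR 2112 (.leaf 0x3c00000280181180000000a0001008) (.leaf 0x44000082801912800000009c001008)))) (.sR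 2016 (.sR 1968 (.leaf 0x45c3c0400c220031000000000ac44d044) (.leaf 0x45c4400018200031080000000ac44d044)) (.sR 2064 (.leaf 0x400380001c2801a1100000000b0401006) (.sR 2112 (.leaf 0x4003c000002801b1180000000b0401006) (.leaf 0x40000082801c1200000000a0001008))))) (.sR 2208 (.leaf 0x4400010280161280000000a4001008) (.leaf 3)))) (.leaf 3))) (.leaf 3))
theorem k128 : ChunkP 4 4 3072 3200 38 40 1920 2400 :=
  chkY_sound (Q := 40) (C := [c747.c, c759.c, c777.c, c778.c, c706.c, c707.c, c748.c]) (Z := [z3767, z3773, z3755, z3756, z3757, z3758, z3759, z3760, z3761, z3762, z3763, z3764, z3765, z3766, z3768, z3769, z3770, z3771, z3772, z3774, z3775, z3776, z3777, z3778, z3779, z3780, z3781, z3782, z3783])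
    (T := [f_w516_528_0_60_10q, f_w504_516_0_60_10q, f_w528_540_0_60_10q, f_w480_492_4_60_10q, f_w540_552_0_60_10q, f_w492_504_0_60_20q, f_w492_504_4_60_20q, f_w504_516_0_63_45q, f_w552_564_0_60_10q, f_w480_492_4_60_20q, f_w480_492_4_65_35q, f_w492_504_4_65_35q, f_w564_576_0_60_10q]) (t := t128)
    (all_cons p747 (all_cons p759 (all_cons p777 (all_cons p778 (all_cons p706 (all_cons p707 (all_cons p748 all_nil)))))))
    (all_cons z3767P (all_cons z3773P (all_cons z3755P (all_cons z3756P (all_cons z3757P (all_cons z3758P (all_cons z3759P (all_cons z3760P (all_cons z3761P (all_cons z3762P (all_cons z3763P (all_cons z3764P (all_cons z3765P (all_cons z3766P (all_cons z3768P (all_cons z3769P (all_cons z3770P (all_cons z3771P (all_cons z3772P (all_cons z3774P (all_cons z3775P (all_cons z3776P (all_cons z3777P (all_cons z3778P (all_cons z3779P (all_cons z3780P (all_cons z3781P (all_cons z3782P (all_cons z3783P all_nil)))))))))))))))))))))))))))))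
    (all_cons f_w516_528_0_60_10q_p (all_cons f_w504_516_0_60_10q_p (all_cons f_w528_540_0_60_10q_p (all_cons f_w480_492_4_60_10q_p (all_cons f_w540_552_0_60_10q_p (all_cons f_w492_504_0_60_20q_p (all_cons f_w492_504_4_60_20q_p (all_cons f_w504_516_0_63_45q_p (all_cons f_w552_564_0_60_10q_p (all_cons f_w480_492_4_60_20q_p (all_cons f_w480_492_4_65_35q_p (all_cons f_w492_504_4_65_35q_p (all_cons f_w564_576_0_60_10q_p all_nil)))))))))))))
    (by decide +kernel)
def t129 : Tree := (.sR 2304 (.sg 38 (.sR 2256 (.sr 3264 (.sR 2016 (.sR 1968 (.sg 37 (.leaf 0x45c3c04028220061000000000b044d044) (.leaf 0x45c3c04004220081000000000b044d044)) (.leaf 0x45c4404010200071080000000b044d044)) (.sR 2160 (.sg 37 (.sR 2112 (.sr 3232 (.sR 2064 (.sR 2040 (.leaf 0x4003400038280031080000000ac401006) (.leaf 0x3800040280041100000000a4001008)) (.leaf 0x4003c00014280021180000000b0401006)) (.sR 2064 (.leaf 0x4604c04000200091188472d847a461080) (.leaf 0x4003c00014280051180000000b0401006))) (.leaf 0x400001c280011200000000a8001008))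 (.sR 2112 (.sr 3232 (.sR 2064 (.leaf 0x400380003c280071100000000b0401006) (.leaf 0x3c0000c280081180000000ac001008)) (.sR 2064 (.leaf 0x4604c040002000a1188472d847a461080) (.leaf 0x4003c14044280091180000000b0401006))) (.leaf 0x400001c280061200000000a8001008))) (.sR 2208 (.leaf 0x4805800050200051308064f677a481080) (.leaf 0x4800058280001300000000ac001008)))) (.sR 2112 (.sR 1968 (.leaf 0x45c400402c200041000000000ac44d044) (.sR 2016 (.leaf 0x45c4404010200041080000000ac44d044) (.sg 37 (.sR 2064 (.leaf 0x4704c0400020002118845f0fb7a471080) (.leaf 0x44050040182000212084a547c7a441080)) (.sR 2064 (.sr 3296 (.leaf 0x4404c040002000b118849c4377a441080) (.leaf 0x4404c0400020012118849c4377a441080)) (.leaf 0x45050040182000d12084901a47a451080))))) (.sR 2160 (.leaf 0x470540404820003128806fe8d7a471080) (.sR 2208 (.leaf 0x4605c000541e00313080c5d467a461080) (.leaf 3))))) (.leaf 3)) (.sR 2208 (.sr 3264 (.sR 2160 (.sg 39 (.sR 2016 (.sR 1968 (.leaf 0x45c4000004200001000000000b044d044) (.leaf 0x45c4404010200001080000000ac44d044))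 (.sR 2112 (.sr 3232 (.sR 2064 (.leaf 0x40038000082800c1100000000ac401006) (.leaf 0x4003c0000c2800d1180000000b0401006)) (.sR 2064 (.leaf 0x40038000082800e1100000000ac401006) (.leaf 0x4003c0000c2800f1180000000b0401006))) (.leaf 0x400001c2800b1200000000ac001008))) (.sR 2016 (.sR 1968 (.leaf 0x45c4000004200011000000000b044d044) (.leaf 0x45c4400030200011080000000b044d044)) (.sR 2112 (.sr 3232 (.sR 2064 (.leaf 0x4003800008280111100000000b0401006) (.leaf 0x3c00014280121180000000a0001008)) (.sR 2064 (.leaf 0x4003800008280131100000000b0401006) (.leaf 0x3c00020280141180000000ac001008))) (.leaf 0x4000024280101200000000ac001008)))) (.leaf 0x440004c2800a1280000000ac001008)) (.sR 2016 (.sR 1968 (.sg 39 (.leaf 0x45c40000042000f1000000000ac44d044) (.leaf 0x45c4000004200111000000000b044d044)) (.leaf 0x45c4400034200101080000000b044d044)) (.sR 2160 (.sg 39 (.sR 2064 (.sr 3296 (.leaf 0x4504c040002000c11884874d57a451080) (.leaf 0x4404c0400020013118849c4377a441080)) (.sR 2112 (.leaf 0x46050040182000e120847b68b7a461080)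 (.leaf 0x4000024280151200000000ac001008))) (.sR 2112 (.sr 3296 (.sR 2064 (.leaf 0x4003800008280161100000000b0401006) (.leaf 0x3c00020280171180000000a8001008)) (.sR 2064 (.leaf 0x4504c040002001411884874d57a451080) (.leaf 0x4003c0000c280181180000000b0401006))) (.leaf 3))) (.leaf 3)))) (.leaf 3))) (.leaf 3))
theorem k129 : ChunkP 4 4 3200 3328 36 40 1920 2400 :=
  chkY_sound (Q := 40) (C := [c806.c, c807.c, c846.c, c847.c, c851.c, c800.c, c803.c, c804.c, c805.c, c825.c, c826.c, c835.c, c836.c, c848.c, c849.c, c852.c, c853.c, c854.c, c857.c, c858.c, c859.c]) (Z := [z3784, z3785, z3786, z3787, z3788, z3789, z3790, z3791, z3792, z3793, z3794, z3795, z3796, z3797, z3798, z3799, z3800, z3801, z3802, z3803, z3804, z3805, z3806, z3807, z3808])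
    (T := [f_w504_516_8_70_20q, f_w480_492_4_60_40q, f_w504_516_0_65_35q, f_w516_528_0_65_40q, f_w492_504_4_70_20q, f_w516_528_0_60_10q, f_w516_528_8_70_20q, f_w528_540_0_65_40q, f_w516_528_0_65_45q, f_w528_540_0_60_45q, f_w480_492_4_60_30q, f_w480_492_4_70_10q, f_w492_504_4_60_40q, f_w492_504_4_65_40q, f_w504_510_0_66_42q, f_w504_516_0_60_10q, f_w510_516_0_66_42q, f_w516_528_0_70_20q, f_w528_540_8_70_30q, f_w540_552_0_65_40q, f_w540_552_8_65_35q, f_w540_552_8_70_20q, f_w552_564_0_60_40q]) (t := t129)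
    (all_cons p806 (all_cons p807 (all_cons p846 (all_cons p847 (all_cons p851 (all_cons p800 (all_cons p803 (all_cons p804 (all_cons p805 (all_cons p825 (all_cons p826 (all_cons p835 (all_cons p836 (all_cons p848 (all_cons p849 (all_cons p852 (all_cons p853 (all_cons p854 (all_cons p857 (all_cons p858 (all_cons p859 all_nil)))))))))))))))))))))
    (all_cons z3784P (all_cons z3785P (all_cons z3786P (all_cons z3787P (all_cons z3788P (all_cons z3789P (all_cons z3790P (all_cons z3791P (all_cons z3792P (all_cons z3793P (all_cons z3794P (all_cons z3795P (all_cons z3796P (all_cons z3797P (all_cons z3798P (all_cons z3799P (all_cons z3800P (all_cons z3801P (all_cons z3802P (all_cons z3803P (all_cons z3804P (all_cons z3805P (all_cons z3806P (all_cons z3807P (all_cons z3808P all_nil)))))))))))))))))))))))))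
    (all_cons f_w504_516_8_70_20q_p (all_cons f_w480_492_4_60_40q_p (all_cons f_w504_516_0_65_35q_p (all_cons f_w516_528_0_65_40q_p (all_cons f_w492_504_4_70_20q_p (all_cons f_w516_528_0_60_10q_p (all_cons f_w516_528_8_70_20q_p (all_cons f_w528_540_0_65_40q_p (all_cons f_w516_528_0_65_45q_p (all_cons f_w528_540_0_60_45q_p (all_cons f_w480_492_4_60_30q_p (all_cons f_w480_492_4_70_10q_p (all_cons f_w492_504_4_60_40q_p (all_cons f_w492_504_4_65_40q_p (all_cons f_w504_510_0_66_42q_p (all_cons f_w504_516_0_60_10q_p (all_cons f_w510_516_0_66_42q_p (all_cons f_w516_528_0_70_20q_p (all_cons f_w528_540_8_70_30q_p (all_cons f_w540_552_0_65_40q_p (all_cons f_w540_552_8_65_35q_p (all_cons f_w540_552_8_70_20q_p (all_cons f_w552_564_0_60_40q_p all_nil)))))))))))))))))))))))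
    (by decide +kernel)
def t130 : Tree := (.sR 2304 (.sg 36 (.sr 3456 (.sg 34 (.sR 2208 (.sR 2064 (.sR 1968 (.leaf 0x45c4004000200001000000000ac44d044) (.sR 2016 (.leaf 0x45c4404004200001080000000ac44d044) (.sr 3392 (.leaf 0x4504c040082000d11884874d57a451080) (.leaf 0x4404c0000c1e009110881ab527a441040)))) (.sR 2112 (.leaf 0x47050040182001312084675c07a471080) (.sR 2160 (.leaf 0x45054000341e0001208c0c3d67a451040) (.leaf 0x43058000201e0001288c30c507a431040)))) (.leaf 0x490640003c1e012140807641e7a491080)) (.sR 2208 (.sR 2064 (.sR 1968 (.leaf 0x45c4000024200021000000000b044d044) (.sR 2016 (.leaf 0x45c4404004200021080000000ac44d044) (.sr 3392 (.leaf 0x4604c040082000e1188472d847a461080) (.leaf 0x450480400c2000a110880c7b47a451040)))) (.sR 2112 (.leaf 0x48054000181e00812084543ac7a481080) (.sR 2160 (.leaf 0x460580001c1e00812880ac00f7a461080) (.leaf 0x46058000201e0021288c0699d7a461040)))) (.leaf 3))) (.sR 2208 (.sg 34 (.sR 2112 (.sR 2016 (.sR 1968 (.leaf 0x45c4004000200011000000000a844d044) (.leaf 0x45c48000041e0011080000000ac44d044))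 (.sR 2064 (.leaf 0x4504c000281e001110880c7b47a451040) (.leaf 0x44050000301e0011188c1bdb77a441040))) (.leaf 0x4705c000381e01513080c97bf7a471080)) (.sR 2112 (.sR 2016 (.sR 1968 (.leaf 0x45c44000001e0041000000000ac44d044) (.leaf 0x45c48000041e0041080000000ac44d044)) (.sR 2064 (.leaf 0x48050000081e016118844c4387a481080) (.leaf 0x45050000101e0041188c0b9f37a451040))) (.leaf 3))) (.leaf 3))) (.sR 2208 (.sr 3456 (.sg 38 (.sR 2112 (.sr 3392 (.sR 2016 (.sR 1968 (.leaf 0x45c4004000200061000000000a844d044) (.leaf 0x45c4404004200061080000000ac44d044)) (.sR 2064 (.leaf 0x480500002c1e005118844c4387a481080) (.leaf 0x45054000141e00512084901a47a451080))) (.sR 2016 (.sR 1968 (.leaf 0x45c4004000200031000000000a844d044) (.leaf 0x45c48000041e0031080000000ac44d044)) (.sR 2064 (.leaf 0x45050000081e00911884874d57a451080) (.leaf 0x45050000101e0031188c0b9f37a451040)))) (.sR 2160 (.leaf 0x470580001c1e000128806fe8d7a471080) (.leaf 3))) (.sR 2112 (.sr 3392 (.sR 2016 (.sR 1968 (.leaf 0x45c4004000200071000000000b044d044) (.leaf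 0x45c4404004200071080000000ac44d044)) (.sR 2064 (.sg 39 (.leaf 0x46050000081e00f1188472d847a461080) (.leaf 0x4604c04008200111188472d847a461080)) (.leaf 0x48054000141e01012084543ac7a481080))) (.sR 2016 (.sR 1968 (.leaf 0x45c40040002000b1000000000a844d044) (.leaf 0x45c44040042000b1080000000ac44d044)) (.sR 2064 (.leaf 0x46050000081e00a1188472d847a461080) (.leaf 3)))) (.leaf 3))) (.sR 2112 (.sg 38 (.sR 2016 (.sR 1968 (.leaf 0x45c44000001e00c1000000000b044d044) (.leaf 0x45c48000041e00c1080000000ac44d044)) (.sR 2064 (.leaf 0x48050000081e001118844c4387a481080) (.leaf 3))) (.sR 2016 (.sR 1968 (.sr 3520 (.leaf 0x45c4004000200141000000000a844d044) (.leaf 0x45c44000001e0181000000000a844d044)) (.leaf 0x45c48000041e0171080000000ac44d044)) (.leaf 3))) (.leaf 3))) (.leaf 3))) (.leaf 3))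
theorem k130 : ChunkP 4 4 3328 3584 32 40 1920 2400 :=
  chkY_sound (Q := 40) (C := [c896.c, c930.c, c897.c, c910.c, c931.c, c866.c, c871.c, c872.c, c895.c, c908.c, c909.c, c911.c, c932.c, c864.c, c865.c, c867.c, c868.c, c869.c, c893.c, c894.c, c915.c, c927.c, c929.c, c933.c, c934.c]) (Z := [])
    (T := [f_w480_492_4_70_10q, f_w492_504_4_70_20q, f_w504_516_8_70_20q, f_w504_516_4_70_20q, f_w516_528_4_70_40q, f_w516_528_8_70_20q, f_w516_528_8_70_35q, f_w528_540_8_70_30q, f_w540_552_4_70_20q, f_w480_492_4_70_20q, f_w504_516_4_70_40q, f_w504_516_8_70_30q, f_w516_528_4_70_20q, f_w528_540_4_70_30q, f_w528_552_8_80_10q, f_w552_576_8_80_0q]) (t := t130)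
    (all_cons p896 (all_cons p930 (all_cons p897 (all_cons p910 (all_cons p931 (all_cons p866 (all_cons p871 (all_cons p872 (all_cons p895 (all_cons p908 (all_cons p909 (all_cons p911 (all_cons p932 (all_cons p864 (all_cons p865 (all_cons p867 (all_cons p868 (all_cons p869 (all_cons p893 (all_cons p894 (all_cons p915 (all_cons p927 (all_cons p929 (all_cons p933 (all_cons p934 all_nil)))))))))))))))))))))))))
    all_nil
    (all_cons f_w480_492_4_70_10q_p (all_cons f_w492_504_4_70_20q_p (all_cons f_w504_516_8_70_20q_p (all_cons f_w504_516_4_70_20q_p (all_cons f_w516_528_4_70_40q_p (all_cons f_w516_528_8_70_20q_p (all_cons f_w516_528_8_70_35q_p (all_cons f_w528_540_8_70_30q_p (all_cons f_w540_552_4_70_20q_p (all_cons f_w480_492_4_70_20q_p (all_cons f_w504_516_4_70_40q_p (all_cons f_w504_516_8_70_30q_p (all_cons f_w516_528_4_70_20q_p (all_cons f_w528_540_4_70_30q_p (all_cons f_w528_552_8_80_10q_p (all_cons f_w552_576_8_80_0q_p all_nil))))))))))))))))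
    (by decide +kernel)
def t131 : Tree := (.sR 2256 (.sr 3136 (.sR 2208 (.sg 41 (.sR 2112 (.sr 3104 (.sR 2016 (.sR 1968 (.leaf 0x45c3c04008220011000000000b044d044) (.leaf 0x4003400004280051080000000ac401006)) (.sR 2064 (.leaf 0x3c00020280061180000000ac001008) (.leaf 0x3c000002800711800000009c001008))) (.sR 2016 (.sR 1968 (.leaf 0x45c3c04008220031000000000b044d044) (.leaf 0x4003400004280081080000000ac401006)) (.sR 2064 (.sR 2040 (.leaf 0x400340000c2800a1080000000ac401006) (.leaf 0x40038000102800b1100000000a8401006)) (.leaf 0x4003c00000280091180000000b0401006)))) (.sR 2160 (.leaf 0x4000014280031200000000a0001008) (.leaf 0x4400018280041280000000a4001008))) (.sR 2064 (.sR 2016 (.sr 3104 (.sR 1968 (.leaf 0x45c3c0401c220021000000000b044d044) (.leaf 0x40034000042800f1080000000ac401006)) (.sR 1968 (.leaf 0x45c400001c200041000000000b044d044) (.leaf 0x4003400004280101080000000ac401006))) (.leaf 0x40038000202800c1100000000b0401006)) (.sR 2112 (.sr 3104 (.leaf 0x3c00000280111180000000a0001008) (.leaf 0x3c00000280121180000000a0001008))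 (.sR 2160 (.leaf 0x40000142800d1200000000a0001008) (.leaf 0x48000182800e13000000009c001008))))) (.leaf 0x4800028280021300000000a8001008)) (.sR 2208 (.sg 41 (.sR 2112 (.sr 3168 (.sR 2016 (.sR 1968 (.leaf 0x45c3c04008220051000000000b044d044) (.leaf 0x4003400004280151080000000b0401006)) (.sR 2064 (.sR 2040 (.leaf 0x400340000c280001080000000b0401006) (.leaf 0x3800010280171100000000a4001008)) (.leaf 0x3c00000280161180000000a0001008))) (.sR 2016 (.sR 1968 (.leaf 0x45c4000008200001000000000b044d044) (.leaf 0x45c4400024200001080000000ac44d044)) (.sR 2064 (.sR 2040 (.leaf 0x400340000c280001080000000ac401006) (.leaf 0x3800010280191100000000a4001008)) (.leaf 0x3c00000280181180000000a0001008)))) (.sR 2160 (.leaf 0x4000014280131200000000a0001008) (.leaf 0x4400018280141280000000a4001008))) (.sR 2112 (.sr 3168 (.sR 2016 (.sR 1968 (.leaf 0x45c4000008200061000000000b044d044) (.leaf 0x40034000042801b1080000000b0401006)) (.sR 2064 (.sR 2040 (.leaf 0x400340000c280011080000000ac401006) (.leaf 0x4003800010280011100000000a8401006))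 (.leaf 0x3c000002801c1180000000a0001008))) (.sR 2016 (.sR 1968 (.leaf 0x45c4000008200071000000000b044d044) (.leaf 0x40034000042801d1080000000b0401006)) (.sR 2064 (.sR 2040 (.leaf 0x400340000c2801f1080000000b0401006) (.leaf 0x4003800010280201100000000a8401006)) (.leaf 0x3c000002801e1180000000a0001008)))) (.sR 2160 (.leaf 0x40000142801a1200000000a0001008) (.leaf 3)))) (.leaf 3))) (.leaf 3))
theorem k131 : ChunkP 4 4 3072 3200 40 42 1920 2304 :=
  chkY_sound (Q := 40) (C := [c779.c, c708.c, c709.c, c749.c, c750.c, c760.c, c761.c, c780.c]) (Z := [z3830, z3837, z3809, z3810, z3811, z3812, z3813, z3814, z3815, z3816, z3817, z3818, z3819, z3820, z3821, z3822, z3823, z3824, z3825, z3826, z3827, z3828, z3829, z3831, z3832, z3833, z3834, z3835, z3836, z3838, z3839, z3840, z3841])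
    (T := [f_w516_528_0_60_10q, f_w492_504_0_60_20q, f_w480_492_4_60_10q, f_w504_510_0_66_42q, f_w510_516_0_66_42q, f_w528_540_0_60_10q, f_w540_552_0_60_10q, f_w480_492_4_60_20q, f_w504_516_0_60_10q, f_w492_504_4_60_20q, f_w552_564_0_60_10q]) (t := t131)
    (all_cons p779 (all_cons p708 (all_cons p709 (all_cons p749 (all_cons p750 (all_cons p760 (all_cons p761 (all_cons p780 all_nil))))))))
    (all_cons z3830P (all_cons z3837P (all_cons z3809P (all_cons z3810P (all_cons z3811P (all_cons z3812P (all_cons z3813P (all_cons z3814P (all_cons z3815P (all_cons z3816P (all_cons z3817P (all_cons z3818P (all_cons z3819P (all_cons z3820P (all_cons z3821P (all_cons z3822P (all_cons z3823P (all_cons z3824P (all_cons z3825P (all_cons z3826P (all_cons z3827P (all_cons z3828P (all_cons z3829P (all_cons z3831P (all_cons z3832P (all_cons z3833P (all_cons z3834P (all_cons z3835P (all_cons z3836P (all_cons z3838P (all_cons z3839P (all_cons z3840P (all_cons z3841P all_nil)))))))))))))))))))))))))))))))))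
    (all_cons f_w516_528_0_60_10q_p (all_cons f_w492_504_0_60_20q_p (all_cons f_w480_492_4_60_10q_p (all_cons f_w504_510_0_66_42q_p (all_cons f_w510_516_0_66_42q_p (all_cons f_w528_540_0_60_10q_p (all_cons f_w540_552_0_60_10q_p (all_cons f_w480_492_4_60_20q_p (all_cons f_w504_516_0_60_10q_p (all_cons f_w492_504_4_60_20q_p (all_cons f_w552_564_0_60_10q_p all_nil)))))))))))
    (by decide +kernel)

end Pool.Agent.Lib.MP_af3a4a_an.P1.CHK.DATA.N4s
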