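import Pool.Agent.Lib.MP_af3a4a_an.P1.CHK.SWP.Pay
import Pool.Agent.Lib.MP_af3a4a_an.P1.CHK.DATA.N4s.C2
import Pool.Agent.Lib.MP_af3a4a_an.P1.CHK.DATA.N4s.Z12
import Pool.Agent.Lib.MP_af3a4a_an.P1.CHK.DATA.N4s.Z13
import Pool.Agent.Lib.MP_af3a4a_an.P1.CHK.DATA.F4.W480a
import Pool.Agent.Lib.MP_af3a4a_an.P1.CHK.DATA.F4.W480b
import Pool.Agent.Lib.MP_af3a4a_an.P1.CHK.DATA.F4.W528a

/-! chunks for N = 4 (generated) -/

set_option autoImplicit false
set_option maxRecDepth 100000

namespace Pool.Agent.Lib.MP_af3a4a_an.P1.CHK.DATA.N4s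

open BOX SWP

def t132 : Tree := (.sR 2208 (.sr 3136 (.sR 2112 (.sg 43 (.sR 2016 (.sr 3104 (.sR 1968 (.sR 1944 (.leaf 0x45c4000004200001000000000ac451044) (.leaf 0x4544000008200001000000000a844d044)) (.leaf 0x4003400000280041080000000ac401006)) (.sR 1968 (.leaf 0x45c4000024200061000000000b044d044) (.leaf 0x4003400000280051080000000b0401006))) (.sR 2064 (.leaf 0x4003800014280021100000000b0401006) (.leaf 0x4003c0001c280031180000000b0401006))) (.sR 2016 (.sr 3104 (.sR 1968 (.sR 1944 (.leaf 0x45c4000004200011000000000ac451044) (.leaf 0x4544000008200011000000000a844d044)) (.leaf 0x4003400000280081080000000ac401006)) (.sR 1968 (.sR 1944 (.leaf 0x45c4000004200021000000000b0451044) (.leaf 0x4544000008200021000000000a844d044)) (.leaf 0x4003400000280091080000000b0401006))) (.sR 2064 (.leaf 0x4003800014280061100000000b0401006) (.leaf 0x400000c280071200000000ac001008)))) (.sR 2160 (.leaf 0x4000020280001200000000ac001008) (.leaf 0x4400030280011280000000a4001008))) (.sR 2112 (.sg 43 (.sR 2016 (.sr 3168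 (.sR 1968 (.leaf 0x45c4000010200071000000000b044d044) (.leaf 0x40034000002800c1080000000b0401006)) (.sR 1968 (.leaf 0x45c4000010200041000000000b044d044) (.leaf 0x45c440002c200041080000000b044d044))) (.sR 2064 (.leaf 0x40038000182800b1100000000b0401006) (.sr 3168 (.leaf 0x3c0000c2800d1180000000a0001008) (.leaf 0x3c0000c2800e1180000000a0001008)))) (.sR 2016 (.sr 3168 (.sR 1968 (.sR 1944 (.leaf 0x44c3c00004200030f80000000b4445044) (.leaf 0x4544000008200031000000000a844d044)) (.leaf 0x4003400000280111080000000b0401006)) (.sR 1968 (.sR 1944 (.leaf 0x44c3804004220050f80000000b4445044) (.leaf 0x4544000008200051000000000a844d044)) (.leaf 0x4003400028280121080000000b0401006))) (.sR 2064 (.leaf 0x40038000182800f1100000000b0401006) (.leaf 0x4003c0001c280101180000000b0401006)))) (.sR 2160 (.leaf 0x40000202800a1200000000a8001008) (.leaf 3)))) (.leaf 3))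
theorem k132 : ChunkP 4 4 3072 3200 42 44 1920 2304 :=
  chkY_sound (Q := 40) (C := [c710.c, c711.c, c752.c, c763.c, c781.c, c782.c, c751.c, c762.c]) (Z := [z3842, z3843, z3844, z3845, z3846, z3847, z3848, z3849, z3850, z3851, z3852, z3853, z3854, z3855, z3856, z3857, z3858, z3859, z3860])
    (T := [f_w492_504_0_60_20q, f_w480_486_4_54_39q, f_w486_492_4_54_39q, f_w516_528_0_60_10q, f_w480_492_4_60_20q, f_w504_516_0_60_10q, f_w504_516_0_60_45q, f_w516_528_0_60_45q, f_w528_540_0_60_45q, f_w480_492_4_60_30q, f_w492_504_0_60_48q, f_w492_504_4_60_30q, f_w540_552_0_60_10q]) (t := t132)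
    (all_cons p710 (all_cons p711 (all_cons p752 (all_cons p763 (all_cons p781 (all_cons p782 (all_cons p751 (all_cons p762 all_nil))))))))
    (all_cons z3842P (all_cons z3843P (all_cons z3844P (all_cons z3845P (all_cons z3846P (all_cons z3847P (all_cons z3848P (all_cons z3849P (all_cons z3850P (all_cons z3851P (all_cons z3852P (all_cons z3853P (all_cons z3854P (all_cons z3855P (all_cons z3856P (all_cons z3857P (all_cons z3858P (all_cons z3859P (all_cons z3860P all_nil)))))))))))))))))))
    (all_cons f_w492_504_0_60_20q_p (all_cons f_w480_486_4_54_39q_p (all_cons f_w486_492_4_54_39q_p (all_cons f_w516_528_0_60_10q_p (all_cons f_w480_492_4_60_20q_p (all_cons f_w504_516_0_60_10q_p (all_cons f_w504_516_0_60_45q_p (all_cons f_w516_528_0_60_45q_p (all_cons f_w528_540_0_60_45q_p (all_cons f_w480_492_4_60_30q_p (all_cons f_w492_504_0_60_48q_p (all_cons f_w492_504_4_60_30q_p (all_cons f_w540_552_0_60_10q_p all_nil)))))))))))))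
    (by decide +kernel)
def t133 : Tree := (.sR 2208 (.sg 42 (.sR 2160 (.sr 3264 (.sg 41 (.sR 2064 (.sr 3232 (.sR 1968 (.leaf 0x45c400000c200001000000000ac44d044) (.sR 2016 (.leaf 0x45c4400000200001080000000ac44d044) (.sR 2040 (.leaf 0x4003400004280001080000000ac401006) (.leaf 0x3800008280061100000000a0001008)))) (.sR 1968 (.leaf 0x45c400000c200031000000000ac44d044) (.sR 2016 (.leaf 0x45c4400000200031080000000ac44d044) (.sR 2040 (.leaf 0x4003400004280001080000000ac401006) (.leaf 0x4003800008280001100000000b0401006))))) (.sR 2112 (.leaf 0x4003c00044280041180000000b0401006) (.leaf 0x4000048280051200000000a8001008))) (.sR 2112 (.sr 3232 (.sR 2016 (.sR 1968 (.leaf 0x45c400000c200011000000000b044d044) (.leaf 0x45c4400000200011080000000ac44d044)) (.sR 2064 (.sR 2040 (.leaf 0x4003400004280011080000000b0401006) (.leaf 0x3800008280081100000000a4001008)) (.leaf 0x3c00014280071180000000a4001008))) (.sR 2016 (.sR 1968 (.leaf 0x45c4000020200041000000000b044d044) (.leaf 0x45c4400000200041080000000b044d044))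 (.sR 2064 (.sR 2040 (.leaf 0x4003400004280011080000000ac401006) (.leaf 0x38000082800a1100000000a4001008)) (.leaf 0x3c00014280091180000000a4001008)))) (.leaf 3))) (.sR 2112 (.sg 41 (.sR 1968 (.leaf 0x45c400402c200091000000000b044d044) (.sR 2016 (.leaf 0x45c440403c200091080000000b044d044) (.sr 3296 (.sR 2064 (.leaf 0x400380001c2800b1100000000b0401006) (.leaf 0x3c000142800c1180000000a4001008)) (.sR 2064 (.leaf 0x400380001c2800d1100000000ac401006) (.leaf 3))))) (.sR 2016 (.sR 1968 (.leaf 0x45c40000282000a1000000000b044d044) (.leaf 0x45c44000382000a1080000000ac44d044)) (.sR 2064 (.sr 3296 (.sR 2040 (.leaf 0x40034000042800e1080000000b0401006) (.leaf 0x38000082800f1100000000a0001008)) (.leaf 0x400380001c280101100000000b0401006)) (.leaf 3)))) (.leaf 3))) (.leaf 3)) (.sR 2112 (.sr 3264 (.sg 43 (.sr 3232 (.sR 2016 (.sR 1968 (.leaf 0x45c4000024200021000000000b044d044) (.leaf 0x45c4400034200021080000000b044d044)) (.sR 2064 (.sR 2040 (.leaf 0x4003400004280021080000000ac401006) (.leaf 0x4003800008280021100000000a8401006))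 (.leaf 0x3c00014280111180000000a4001008))) (.sR 2016 (.sR 1968 (.leaf 0x45c4000010200051000000000b044d044) (.leaf 0x45c4400000200051080000000b044d044)) (.sR 2064 (.sR 2040 (.leaf 0x4003400004280031080000000ac401006) (.leaf 0x4003800008280031100000000a8401006)) (.leaf 3)))) (.sR 2064 (.sr 3232 (.sR 1968 (.leaf 0x45c40000102000d1000000000b044d044) (.sR 2016 (.leaf 0x4003400030280121080000000b0401006) (.leaf 0x3800040280131100000000a0001008))) (.sR 1968 (.leaf 0x45c4000010200061000000000b044d044) (.sR 2016 (.leaf 0x45c4400000200061080000000b044d044) (.leaf 0x4003800018280141100000000ac401006)))) (.leaf 3))) (.sR 2064 (.sg 43 (.sr 3296 (.sR 1968 (.leaf 0x45c400000c200071000000000b044d044) (.sR 2016 (.leaf 0x45c4400000200071080000000b044d044) (.leaf 0x4003800018280151100000000b0401006))) (.sR 1968 (.leaf 0x45c400000c2000b1000000000b044d044) (.sR 2016 (.leaf 0x45c44000002000b1080000000ac44d044) (.leaf 0x4003800018280161100000000b0401006)))) (.sR 2016 (.sr 3296 (.sR 1968 (.leaf 0x45c4000010200081000000000b044d044)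 (.leaf 0x45c4400000200081080000000b044d044)) (.sR 1968 (.leaf 0x45c400000c2000c1000000000b044d044) (.leaf 0x45c44000002000c1080000000b044d044))) (.leaf 3))) (.leaf 3))) (.leaf 3))) (.leaf 3))
theorem k133 : ChunkP 4 4 3200 3328 40 44 1920 2304 :=
  chkY_sound (Q := 40) (C := [c789.c, c790.c, c791.c, c827.c, c828.c, c829.c, c830.c, c837.c, c838.c, c855.c, c856.c, c860.c, c861.c, c792.c]) (Z := [z3863, z3866, z3877, z3878, z3861, z3862, z3864, z3865, z3867, z3868, z3869, z3870, z3871, z3872, z3873, z3874, z3875, z3876, z3879, z3880, z3881, z3882, z3883])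
    (T := [f_w492_504_4_60_20q, f_w504_510_0_66_42q, f_w510_516_0_66_42q, f_w480_492_4_60_10q, f_w480_492_4_60_20q, f_w516_528_0_60_10q, f_w504_516_0_60_48q, f_w504_516_0_65_45q, f_w480_492_4_60_30q, f_w480_492_4_60_40q, f_w480_492_4_65_35q, f_w480_492_4_70_10q, f_w492_504_0_60_48q, f_w492_504_4_60_40q, f_w492_504_4_65_35q, f_w492_504_4_70_20q, f_w504_516_0_60_10q, f_w516_528_0_65_45q, f_w528_540_0_60_45q]) (t := t133)
    (all_cons p789 (all_cons p790 (all_cons p791 (all_cons p827 (all_cons p828 (all_cons p829 (all_cons p830 (all_cons p837 (all_cons p838 (all_cons p855 (all_cons p856 (all_cons p860 (all_cons p861 (all_cons p792 all_nil))))))))))))))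
    (all_cons z3863P (all_cons z3866P (all_cons z3877P (all_cons z3878P (all_cons z3861P (all_cons z3862P (all_cons z3864P (all_cons z3865P (all_cons z3867P (all_cons z3868P (all_cons z3869P (all_cons z3870P (all_cons z3871P (all_cons z3872P (all_cons z3873P (all_cons z3874P (all_cons z3875P (all_cons z3876P (all_cons z3879P (all_cons z3880P (all_cons z3881P (all_cons z3882P (all_cons z3883P all_nil)))))))))))))))))))))))
    (all_cons f_w492_504_4_60_20q_p (all_cons f_w504_510_0_66_42q_p (all_cons f_w510_516_0_66_42q_p (all_cons f_w480_492_4_60_10q_p (all_cons f_w480_492_4_60_20q_p (all_cons f_w516_528_0_60_10q_p (all_cons f_w504_516_0_60_48q_p (all_cons f_w504_516_0_65_45q_p (all_cons f_w480_492_4_60_30q_p (all_cons f_w480_492_4_60_40q_p (all_cons f_w480_492_4_65_35q_p (all_cons f_w480_492_4_70_10q_p (all_cons f_w492_504_0_60_48q_p (all_cons f_w492_504_4_60_40q_p (all_cons f_w492_504_4_65_35q_p (all_cons f_w492_504_4_70_20q_p (all_cons f_w504_516_0_60_10q_p (all_cons f_w516_528_0_65_45q_p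 (all_cons f_w528_540_0_60_45q_p all_nil)))))))))))))))))))
    (by decide +kernel)
def t134 : Tree := (.sg 46 (.sr 3136 (.sR 2064 (.sg 45 (.sR 2016 (.sr 3104 (.sR 1968 (.sR 1944 (.leaf 0x45c4000000200001000000000b0451044) (.leaf 0x4544000004200001000000000a844d044)) (.leaf 0x4003800008280021100000000ac401006)) (.sR 1968 (.sR 1944 (.leaf 0x45c3c04000220041000000000b0451044) (.leaf 0x4544000004200041000000000a844d044)) (.leaf 0x4003400028280031080000000b0401006))) (.leaf 0x400380000c280011100000000b0401006)) (.sR 1968 (.sr 3104 (.sR 1944 (.leaf 0x45c3c04000220011000000000b0451044) (.leaf 0x4544000004200011000000000a844d044)) (.sR 1944 (.leaf 0x44c3c00000200050f80000000b4445044) (.leaf 0x4544000004200051000000000a844d044))) (.sR 2016 (.leaf 0x4003400008280041080000000ac401006) (.leaf 0x400380000c280051100000000b0401006)))) (.leaf 0x4003c00030280001180000000b0401006)) (.sR 2064 (.sg 45 (.sR 2016 (.sr 3168 (.sR 1968 (.sR 1944 (.leaf 0x44c3c00000200080f80000000b4445044) (.leaf 0x4544000004200081000000000a844d044))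 (.leaf 0x4003400010280081080000000b0401006)) (.sR 1968 (.leaf 0x45c400001c2000d1000000000b044d044) (.leaf 0x400340002c280091080000000b0401006))) (.leaf 0x4003800018280071100000000b0401006)) (.sR 2016 (.sr 3168 (.sR 1968 (.sR 1944 (.leaf 0x45c4000000200091000000000b0451044) (.leaf 0x4544000004200091000000000a844d044)) (.leaf 0x40034000202800b1080000000b0401006)) (.sR 1968 (.sR 1944 (.leaf 0x45c40000002000c1000000000b0451044) (.leaf 0x45440000042000c1000000000a844d044)) (.leaf 0x40034000102800c1080000000ac401006))) (.leaf 0x40038000182800a1100000000ac401006))) (.leaf 0x3c00034280061180000000a8001008))) (.sR 2064 (.sr 3136 (.sR 1968 (.sg 47 (.sr 3104 (.sR 1944 (.leaf 0x44c3c00000200020f80000000b4445044) (.leaf 0x4544000004200021000000000a844d044)) (.sR 1944 (.leaf 0x45c4000000200061000000000b0451044) (.leaf 0x4544000004200061000000000a844d044))) (.sr 3104 (.sR 1944 (.leaf 0x45c4000000200031000000000b0451044) (.leaf 0x4544000004200031000000000a844d044)) (.sR 1944 (.leaf 0x45c4000000200071000000000b0451044)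 (.leaf 0x4544000004200071000000000a844d044)))) (.sR 2016 (.leaf 0x40034000102800d1080000000b0401006) (.sg 47 (.leaf 0x400380000c2800e1100000000b0401006) (.leaf 0x400000c2800f1200000000ac001008)))) (.sR 2016 (.sg 47 (.sr 3168 (.sR 1968 (.sR 1944 (.leaf 0x45c40000002000a1000000000b0451044) (.leaf 0x45440000042000a1000000000a844d044)) (.leaf 0x4003800008280101100000000ac401006)) (.sR 1968 (.leaf 0x45c40000142000e1000000000b044d044) (.leaf 0x4003400024280111080000000b0401006))) (.sR 1968 (.sr 3168 (.sR 1944 (.leaf 0x45c40000002000b1000000000b0451044) (.leaf 0x45440000042000b1000000000a844d044)) (.leaf 0x45c40000142000f1000000000b044d044)) (.leaf 0x4003400008280121080000000a8401006))) (.leaf 3))) (.leaf 3)))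
theorem k134 : ChunkP 4 4 3072 3200 44 48 1920 2112 :=
  chkY_sound (Q := 40) (C := [c712.c, c713.c, c714.c, c715.c, c753.c, c754.c, c755.c, c756.c, c764.c, c765.c, c766.c, c767.c, c784.c, c783.c, c785.c, c786.c]) (Z := [z3884, z3885, z3886, z3887, z3888, z3889, z3890, z3891, z3892, z3893, z3894, z3895, z3896, z3897, z3898, z3899, z3900, z3901, z3902])
    (T := [f_w480_486_4_54_39q, f_w486_492_4_54_39q, f_w492_504_0_50_20q, f_w504_516_0_60_10q, f_w492_504_0_55_50q, f_w480_492_4_57_51q, f_w504_516_0_60_45q, f_w480_492_4_60_50q, f_w492_504_0_55_40q, f_w492_504_0_55_45q, f_w492_504_0_60_20q, f_w492_504_0_60_48q, f_w516_528_0_60_10q, f_w516_528_0_60_45q]) (t := t134)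
    (all_cons p712 (all_cons p713 (all_cons p714 (all_cons p715 (all_cons p753 (all_cons p754 (all_cons p755 (all_cons p756 (all_cons p764 (all_cons p765 (all_cons p766 (all_cons p767 (all_cons p784 (all_cons p783 (all_cons p785 (all_cons p786 all_nil))))))))))))))))
    (all_cons z3884P (all_cons z3885P (all_cons z3886P (all_cons z3887P (all_cons z3888P (all_cons z3889P (all_cons z3890P (all_cons z3891P (all_cons z3892P (all_cons z3893P (all_cons z3894P (all_cons z3895P (all_cons z3896P (all_cons z3897P (all_cons z3898P (all_cons z3899P (all_cons z3900P (all_cons z3901P (all_cons z3902P all_nil)))))))))))))))))))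
    (all_cons f_w480_486_4_54_39q_p (all_cons f_w486_492_4_54_39q_p (all_cons f_w492_504_0_50_20q_p (all_cons f_w504_516_0_60_10q_p (all_cons f_w492_504_0_55_50q_p (all_cons f_w480_492_4_57_51q_p (all_cons f_w504_516_0_60_45q_p (all_cons f_w480_492_4_60_50q_p (all_cons f_w492_504_0_55_40q_p (all_cons f_w492_504_0_55_45q_p (all_cons f_w492_504_0_60_20q_p (all_cons f_w492_504_0_60_48q_p (all_cons f_w516_528_0_60_10q_p (all_cons f_w516_528_0_60_45q_p all_nil))))))))))))))
    (by decide +kernel)
def t135 : Tree := (.sg 46 (.sR 2064 (.sr 3264 (.sg 45 (.sR 2016 (.sr 3232 (.sR 1968 (.leaf 0x45c4000004200021000000000b044d044) (.leaf 0x400340001c280011080000000b0401006)) (.sR 1968 (.leaf 0x45c4000010200001000000000b044d044) (.leaf 0x45c4400018200001080000000b044d044))) (.leaf 0x4003800020280001100000000b0401006)) (.sR 2016 (.sr 3232 (.sR 1968 (.leaf 0x45c4000014200031000000000b044d044) (.leaf 0x4003400008280021080000000ac401006)) (.sR 1968 (.leaf 0x45c4000004200061000000000b044d044) (.leaf 0x4003400008280031080000000ac401006)))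 (.leaf 3))) (.sR 2016 (.sg 45 (.sr 3296 (.sR 1968 (.leaf 0x45c400000c200011000000000b044d044) (.leaf 0x45c4400018200011080000000b044d044)) (.sR 1968 (.leaf 0x45c400000c2000b1000000000b044d044) (.leaf 3))) (.sR 1968 (.sr 3296 (.leaf 0x45c4000010200091000000000b044d044) (.leaf 0x45c40000042000c1000000000b044d044)) (.leaf 3))) (.leaf 3))) (.leaf 3)) (.sR 2016 (.sr 3264 (.sg 47 (.sr 3232 (.sR 1968 (.leaf 0x45c4000000200041000000000b044d044) (.leaf 0x4003400008280041080000000a4401006)) (.sR 1968 (.leaf 0x45c4000014200071000000000b044d044) (.leaf 3))) (.sR 1968 (.sr 3232 (.leaf 0x45c4000000200051000000000b044d044) (.leaf 0x45c4000000200081000000000b044d044)) (.leaf 3))) (.sR 1968 (.sg 47 (.sr 3296 (.leaf 0x45c40000002000a1000000000ac44d044) (.leaf 3)) (.leaf 3)) (.leaf 3))) (.leaf 3)))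
theorem k135 : ChunkP 4 4 3200 3328 44 48 1920 2112 :=
  chkY_sound (Q := 40) (C := [c831.c, c839.c, c793.c, c794.c, c795.c, c796.c, c832.c, c833.c, c834.c, c840.c, c841.c, c862.c, c863.c]) (Z := [z3903, z3904, z3905, z3906, z3907])
    (T := [f_w480_492_4_57_51q, f_w480_492_4_60_40q, f_w492_504_0_55_50q, f_w480_492_4_60_20q, f_w480_492_4_60_30q, f_w480_492_4_60_50q, f_w492_504_4_60_30q, f_w492_504_0_60_48q, f_w504_516_0_60_45q]) (t := t135)
    (all_cons p831 (all_cons p839 (all_cons p793 (all_cons p794 (all_cons p795 (all_cons p796 (all_cons p832 (all_cons p833 (all_cons p834 (all_cons p840 (all_cons p841 (all_cons p862 (all_cons p863 all_nil)))))))))))))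
    (all_cons z3903P (all_cons z3904P (all_cons z3905P (all_cons z3906P (all_cons z3907P all_nil)))))
    (all_cons f_w480_492_4_57_51q_p (all_cons f_w480_492_4_60_40q_p (all_cons f_w492_504_0_55_50q_p (all_cons f_w480_492_4_60_20q_p (all_cons f_w480_492_4_60_30q_p (all_cons f_w480_492_4_60_50q_p (all_cons f_w492_504_4_60_30q_p (all_cons f_w492_504_0_60_48q_p (all_cons f_w504_516_0_60_45q_p all_nil)))))))))
    (by decide +kernel)
def t136 : Tree := (.leaf 3)
theorem k136 : ChunkP 4 4 3072 3328 44 48 2112 2304 :=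
  chkY_sound (Q := 40) (C := []) (Z := [])
    (T := []) (t := t136)
    all_nil
    all_nil
    all_nil
    (by decide +kernel)
def t137 : Tree := (.sR 2112 (.sg 44 (.sr 3456 (.sg 42 (.sR 2064 (.sr 3392 (.sR 1968 (.sg 41 (.leaf 0x45c4000004200051000000000b044d044) (.leaf 0x45c4000004200071000000000b044d044)) (.sR 2016 (.leaf 0x45c4400018200061080000000b044d044) (.sg 41 (.leaf 0x47050000201e004118845f0fb7a471080) (.sr 3360 (.leaf 0x400380001c280001100000000b0401006) (.leaf 3))))) (.sR 1968 (.leaf 0x45c4004000200021000000000b044d044) (.sR 2016 (.leaf 0x45c48000081e0021080000000ac44d044) (.leaf 3)))) (.leaf 3)) (.sR 2016 (.sr 3392 (.sg 43 (.sR 1968 (.leaf 0x45c4004000200001000000000b044d044) (.leaf 0x45c4404008200001080000000b044d044)) (.sR 1968 (.leaf 0x45c4004010200011000000000b044d044) (.leaf 0x45c4400014200011080000000b044d044))) (.sR 1968 (.sg 43 (.leaf 0x45c40000042000a1000000000b044d044) (.leaf 0x45c44000001e00b1000000000b044d044)) (.leaf 3))) (.leaf 3))) (.sR 2016 (.sg 42 (.sr 3520 (.sR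 1968 (.leaf 0x45c44000001e0031000000000ac44d044) (.leaf 0x45c48000081e0031080000000ac44d044)) (.sR 1968 (.leaf 0x45c44000001e00d1000000000a844d044) (.leaf 3))) (.sR 1968 (.sr 3520 (.leaf 0x45c44000101e00c1000000000a844d044) (.leaf 3)) (.leaf 3))) (.leaf 3))) (.sR 2016 (.sr 3456 (.sg 46 (.sR 1968 (.sr 3392 (.sg 45 (.leaf 0x45c400000c200081000000000b044d044) (.leaf 0x45c400000c200091000000000b044d044)) (.leaf 3)) (.leaf 3)) (.leaf 3)) (.leaf 3)) (.leaf 3))) (.leaf 3))
theorem k137 : ChunkP 4 4 3328 3584 40 48 1920 2304 :=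
  chkY_sound (Q := 40) (C := [c876.c, c877.c, c912.c, c916.c, c870.c, c873.c, c874.c, c875.c, c878.c, c879.c, c913.c, c914.c, c917.c, c935.c]) (Z := [z3908])
    (T := [f_w480_492_4_70_10q, f_w480_492_4_60_40q, f_w492_504_4_70_20q, f_w480_492_4_60_51q, f_w480_492_4_65_50q, f_w492_504_4_65_35q, f_w492_504_4_65_40q, f_w504_516_0_65_45q, f_w504_516_8_70_20q]) (t := t137)
    (all_cons p876 (all_cons p877 (all_cons p912 (all_cons p916 (all_cons p870 (all_cons p873 (all_cons p874 (all_cons p875 (all_cons p878 (all_cons p879 (all_cons p913 (all_cons p914 (all_cons p917 (all_cons p935 all_nil))))))))))))))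
    (all_cons z3908P all_nil)
    (all_cons f_w480_492_4_70_10q_p (all_cons f_w480_492_4_60_40q_p (all_cons f_w492_504_4_70_20q_p (all_cons f_w480_492_4_60_51q_p (all_cons f_w480_492_4_65_50q_p (all_cons f_w492_504_4_65_35q_p (all_cons f_w492_504_4_65_40q_p (all_cons f_w504_516_0_65_45q_p (all_cons f_w504_516_8_70_20q_p all_nil)))))))))
    (by decide +kernel)

end Pool.Agent.Lib.MP_af3a4a_an.P1.CHK.DATA.N4s
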