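import Pool.Agent.Lib.MP_af3a4a_an.P1.CHK.SWP.Pay
import Pool.Agent.Lib.MP_af3a4a_an.P1.CHK.DATA.N4s.C2
import Pool.Agent.Lib.MP_af3a4a_an.P1.CHK.DATA.N4s.Z13
import Pool.Agent.Lib.MP_af3a4a_an.P1.CHK.DATA.F4.W480a
import Pool.Agent.Lib.MP_af3a4a_an.P1.CHK.DATA.F4.W480b
import Pool.Agent.Lib.MP_af3a4a_an.P1.CHK.DATA.F4.W528a
import Pool.Agent.Lib.MP_af3a4a_an.P1.CHK.DATA.F4.W576a

/-! chunks for N = 4 (generated) -/

set_option autoImplicit false
set_option maxRecDepth 100000

namespace Pool.Agent.Lib.MP_af3a4a_an.P1.CHK.DATA.N4s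

open BOX SWP

def t138 : Tree := (.leaf 3)
theorem k138 : ChunkP 4 4 3072 3584 40 48 2304 2400 :=
  chkY_sound (Q := 40) (C := []) (Z := [])
    (T := []) (t := t138)
    all_nil
    all_nil
    all_nil
    (by decide +kernel)
def t139 : Tree := (.leaf 3)
theorem k139 : ChunkP 4 4 3072 3584 32 48 2400 3072 :=
  chkY_sound (Q := 40) (C := []) (Z := [])
    (T := []) (t := t139)
    all_nil
    all_nil
    all_nil
    (by decide +kernel)
def t140 : Tree := (.sR 2016 (.sg 56 (.sr 3328 (.sg 52 (.sr 3200 (.sg 50 (.sr 3136 (.sR 1968 (.sg 49 (.sr 3104 (.sR 1944 (.leaf 0x45c4000000200001000000000b0451044) (.leaf 0x4544000004200001000000000a844d044)) (.sR 1944 (.leaf 0x45c4000000200021000000000b0451044) (.leaf 0x4544000004200021000000000a844d044))) (.sr 3104 (.sR 1944 (.leaf 0x45c4000000200011000000000b0451044) (.leaf 0x4544000004200011000000000a844d044)) (.sR 1944 (.leaf 0x45c4000000200031000000000b0451044) (.leaf 0x4544000004200031000000000a844d044)))) (.leaf 0x400340000c280001080000000b0401006))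 (.sR 1968 (.sg 49 (.sr 3168 (.sR 1944 (.leaf 0x45c4000000200041000000000b0451044) (.leaf 0x4544000004200041000000000a844d044)) (.leaf 0x45c4000008200071000000000b044d044)) (.sr 3168 (.leaf 0x45c4000008200061000000000b044d044) (.leaf 3))) (.leaf 3))) (.sR 1968 (.sr 3136 (.sg 51 (.sr 3104 (.sR 1944 (.leaf 0x45c4000000200051000000000b0451044) (.leaf 3)) (.leaf 3)) (.leaf 3)) (.leaf 3)) (.leaf 3))) (.leaf 3)) (.leaf 3)) (.leaf 3)) (.leaf 3)) (.leaf 3))
theorem k140 : ChunkP 4 4 3072 3584 48 64 1920 3072 :=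
  chkY_sound (Q := 40) (C := [c716.c, c717.c, c757.c, c758.c, c768.c, c718.c, c769.c, c787.c]) (Z := [z3909])
    (T := [f_w480_486_4_54_39q, f_w486_492_4_54_39q, f_w480_492_4_54_51q, f_w492_504_0_50_20q]) (t := t140)
    (all_cons p716 (all_cons p717 (all_cons p757 (all_cons p758 (all_cons p768 (all_cons p718 (all_cons p769 (all_cons p787 all_nil))))))))
    (all_cons z3909P all_nil)
    (all_cons f_w480_486_4_54_39q_p (all_cons f_w486_492_4_54_39q_p (all_cons f_w480_492_4_54_51q_p (all_cons f_w492_504_0_50_20q_p all_nil))))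
    (by decide +kernel)
def t141 : Tree := (.sg 96 (.sg 80 (.leaf 3) (.leaf 3)) (.leaf 3))
theorem k141 : ChunkP 4 4 3072 3584 64 101 1920 3072 :=
  chkY_sound (Q := 40) (C := []) (Z := [])
    (T := []) (t := t141)
    all_nil
    all_nil
    all_nil
    (by decide +kernel)
def t142 : Tree := (.sg 64 (.sg 32 (.sg 16 (.sR 2304 (.sg 8 (.sR 2112 (.sr 3840 (.sR 2016 (.leaf 0x4003c0c0102400a1080000000a8401004) (.leaf 0x48080002200a11800000009c001007)) (.sR 2016 (.leaf 0x1fff000400340c02c280001080000000a0401006) (.leaf 0x10000003c140002800111800000009c001008))) (.sR 2208 (.leaf 0x58000441e00d1280000000a4001007) (.leaf 0x64000241c00d138000000098001007))) (.sr 3840 (.sR 2112 (.sg 12 (.sR 2016 (.sr 3712 (.leaf 0x4003c0400c240111080000000a0401004) (.leaf 0x400380800c2601a1080000000a0401004)) (.leaf 0x4c040002001511800000009c001007)) (.sR 2016 (.sr 3712 (.leaf 0x400400000c220041080000000a4401004) (.leaf 0x400400000c2201b1080000000a0401004)) (.leaf 0x4c04000200161180000000a8001007)))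 (.sR 2208 (.leaf 0x58080201e00b12800000009c001007) (.leaf 0x68000241c00b140000000094001007))) (.sR 2112 (.sR 2016 (.sg 12 (.leaf 0x40044040102001d1080000000a0401004) (.leaf 0x40048000101e00f1080000000a0401004)) (.leaf 0x50000001e00e1180000000ac001007)) (.sR 2208 (.leaf 0x5c040201c00e12800000009c001007) (.leaf 3))))) (.sR 2400 (.leaf 0x70000541a019148000000094001007) (.leaf 3))) (.sR 2304 (.sg 24 (.sr 3840 (.sR 2112 (.sg 20 (.sr 3712 (.sR 2016 (.leaf 0x470400c004220041080000000b044d044) (.leaf 0x50000001e00511800000009c001007)) (.sR 2016 (.leaf 0x4004404010200011080000000b0401004) (.leaf 0x50000001e00111800000009c001007))) (.sr 3712 (.sR 2016 (.leaf 0x4704408004200051080000000b044d044) (.leaf 0x50000001e0001180000000ac001007)) (.sR 2016 (.leaf 0x4704408004200011080000000b044d044) (.leaf 0x50000001e00211800000009c001007)))) (.sR 2208 (.leaf 0x4505c0004c1c0171288c0d9a87a451040) (.leaf 0x64000241c0181380000000a4001007))) (.sR 2112 (.sR 2016 (.sg 20 (.leaf 0x44048040141e00f1088819ecc7a441040)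 (.leaf 0x4504c000141c01f108880f3c27a451040)) (.leaf 0x420540003c1c01e1188c3ffd77a421040)) (.sR 2208 (.leaf 0x60000201a0201280000000ac001007) (.leaf 3)))) (.sR 2208 (.sr 3840 (.sg 28 (.sR 2112 (.sr 3712 (.sR 2016 (.leaf 0x47048000301e0001080000000b044d044) (.leaf 0x440500401c1e0001188c1bdb77a441040)) (.sR 2016 (.leaf 0x47048040041e0021080000000b044d044) (.leaf 0x420500401c1e0021188c3ffd77a421040))) (.leaf 0x4505c000481c00c1288c0d9a87a451040)) (.sR 2112 (.sr 3712 (.sR 2016 (.sg 30 (.leaf 0x47048040041e0061080000000b044d044) (.leaf 0x47048040041e0131080000000b044d044)) (.leaf 0x46054000401e000120847b68b7a461080)) (.sR 2016 (.leaf 0x47048040041e0031080000000b044d044) (.leaf 0x440540001c1c0031188c1bdb77a441040))) (.leaf 0x49060000501c00c13080527957a491080))) (.sR 2112 (.sg 28 (.sR 2016 (.leaf 0x4704c000141c0101080000000b044d044) (.leaf 0x45058000381a0101188c0b9f37a451040)) (.sR 2016 (.sr 3968 (.leaf 0x4704c000041c01c1080000000b044d044) (.leaf 3)) (.leaf 3))) (.leaf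 3))) (.leaf 3))) (.leaf 3))) (.sg 48 (.sR 2112 (.sg 40 (.sr 3840 (.sg 36 (.sr 3712 (.sg 34 (.sR 2016 (.sR 1968 (.leaf 0x45c44000081e0071000000000a844d044) (.leaf 0x45c48000181e0071080000000ac44d044)) (.leaf 0x45054040281e006120849fae37a451080)) (.sR 2016 (.sR 1968 (.leaf 0x45c44000081e0081000000000a844d044) (.leaf 0x45c48000181e0081080000000ac44d044)) (.leaf 0x45058000281c012120849fae37a451080))) (.sR 2016 (.leaf 0x49050000341c003110843433c7a491080) (.leaf 3))) (.sR 2016 (.sr 3712 (.sg 38 (.sR 1968 (.leaf 0x45c44000081e0091000000000a844d044) (.leaf 0x45c48000181e0091080000000ac44d044)) (.sR 1968 (.leaf 0x45c44000081e0141000000000a844d044) (.leaf 3))) (.leaf 3)) (.leaf 3))) (.leaf 3)) (.leaf 3)) (.leaf 3)) (.leaf 3))) (.sg 96 (.sg 80 (.leaf 3) (.leaf 3)) (.leaf 3)))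
theorem k142 : ChunkP 4 4 3584 4096 0 101 1920 3072 :=
  chkY_sound (Q := 40) (C := [c939.c, c958.c, c959.c, c960.c, c937.c, c938.c, c940.c, c943.c, c944.c, c945.c, c947.c, c949.c, c953.c, c954.c, c963.c, c964.c, c968.c, c936.c, c941.c, c942.c, c946.c, c948.c, c950.c, c951.c, c952.c, c955.c, c956.c, c957.c, c961.c, c962.c, c965.c, c966.c, c967.c]) (Z := [z3910, z3911])
    (T := [f_w504_528_0_80_0q, f_w480_504_4_80_0q, f_w480_492_4_70_10q, f_w480_504_0_80_0q, f_w480_504_0_90_10q, f_w480_504_4_90_10q, f_w492_504_4_70_20q, f_w504_528_4_80_0q, f_w528_552_0_80_0q, f_w552_576_0_80_10q, f_w504_528_8_80_10q, f_w480_504_0_5_0q, f_w480_504_4_80_10q, f_w480_504_8_80_35q, f_w504_528_4_80_10q, f_w504_528_4_90_10q, f_w504_528_8_80_20q, f_w528_552_0_90_10q, f_w528_552_4_80_0q, f_w528_552_4_80_30q, f_w528_552_8_80_20q, f_w576_600_0_80_10q]) (t := t142)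
    (all_cons p939 (all_cons p958 (all_cons p959 (all_cons p960 (all_cons p937 (all_cons p938 (all_cons p940 (all_cons p943 (all_cons p944 (all_cons p945 (all_cons p947 (all_cons p949 (all_cons p953 (all_cons p954 (all_cons p963 (all_cons p964 (all_cons p968 (all_cons p936 (all_cons p941 (all_cons p942 (all_cons p946 (all_cons p948 (all_cons p950 (all_cons p951 (all_cons p952 (all_cons p955 (all_cons p956 (all_cons p957 (all_cons p961 (all_cons p962 (all_cons p965 (all_cons p966 (all_cons p967 all_nil)))))))))))))))))))))))))))))))))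
    (all_cons z3910P (all_cons z3911P all_nil))
    (all_cons f_w504_528_0_80_0q_p (all_cons f_w480_504_4_80_0q_p (all_cons f_w480_492_4_70_10q_p (all_cons f_w480_504_0_80_0q_p (all_cons f_w480_504_0_90_10q_p (all_cons f_w480_504_4_90_10q_p (all_cons f_w492_504_4_70_20q_p (all_cons f_w504_528_4_80_0q_p (all_cons f_w528_552_0_80_0q_p (all_cons f_w552_576_0_80_10q_p (all_cons f_w504_528_8_80_10q_p (all_cons f_w480_504_0_5_0q_p (all_cons f_w480_504_4_80_10q_p (all_cons f_w480_504_8_80_35q_p (all_cons f_w504_528_4_80_10q_p (all_cons f_w504_528_4_90_10q_p (all_cons f_w504_528_8_80_20q_p (all_cons f_w528_552_0_90_10q_p (all_cons f_w528_552_4_80_0q_p (all_cons f_w528_552_4_80_30q_p (all_cons f_w528_552_8_80_20q_p (all_cons f_w576_600_0_80_10q_p all_nil))))))))))))))))))))))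
    (by decide +kernel)

end Pool.Agent.Lib.MP_af3a4a_an.P1.CHK.DATA.N4s
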