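import Pool.Agent.Lib.MP_af3a4a_an.P1.CHK.SWP.Pay
import Pool.Agent.Lib.MP_af3a4a_an.P1.CHK.DATA.N4s.C0
import Pool.Agent.Lib.MP_af3a4a_an.P1.CHK.DATA.N4s.Z1
import Pool.Agent.Lib.MP_af3a4a_an.P1.CHK.DATA.N4s.Z2
import Pool.Agent.Lib.MP_af3a4a_an.P1.CHK.DATA.F4.W480a
import Pool.Agent.Lib.MP_af3a4a_an.P1.CHK.DATA.F4.W480b
import Pool.Agent.Lib.MP_af3a4a_an.P1.CHK.DATA.F4.W528a
import Pool.Agent.Lib.MP_af3a4a_an.P1.CHK.DATA.F4.W576a
import Pool.Agent.Lib.MP_af3a4a_an.P1.CHK.DATA.F4.W624a
import Pool.Agent.Lib.MP_af3a4a_an.P1.CHK.DATA.F4.W672a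
import Pool.Agent.Lib.MP_af3a4a_an.P1.CHK.DATA.F4.W672b
import Pool.Agent.Lib.MP_af3a4a_an.P1.CHK.DATA.F4.W720a
import Pool.Agent.Lib.MP_af3a4a_an.P1.CHK.DATA.F4.W720b

/-! chunks for N = 4 (generated) -/

set_option autoImplicit false
set_option maxRecDepth 100000

namespace Pool.Agent.Lib.MP_af3a4a_an.P1.CHK.DATA.N4s

open BOX SWP

def t18 : Tree := (.leaf 0x4400000280001280000000ac001008)
theorem k18 : ChunkP 4 4 1536 1792 16 32 2112 2208 :=
  chkY_sound (Q := 40) (C := []) (Z := [z490])
    (T := [f_w528_552_0_50_0q]) (t := t18)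
    all_nil
    (all_cons z490P all_nil)
    (all_cons f_w528_552_0_50_0q_p all_nil)
    (by decide +kernel)
def t19 : Tree := (.sR 2400 (.sR 2304 (.leaf 0x5800028280041500000000a8001008) (.leaf 0x580002c280051500000000a8001008)) (.sR 2496 (.leaf 0x6000030280061600000000a4001008) (.sr 1664 (.sR 2592 (.leaf 0x390780001c28007191600a6e57a391005) (.sR 2688 (.leaf 0x3f07c000182800819948001777a3f1005) (.sg 20 (.sR 2784 (.leaf 0x7000014280091800000000a0001008) (.sr 1600 (.sR 2880 (.leaf 0x88000102800a1b000000007c001008) (.sR 2976 (.leaf 0x8c000242800b1b800000009c001008) (.sR 3024 (.leaf 0x98000002800c1d0000000084001008) (.leaf 0x90000042800d1c000000009c001008)))) (.sR 2880 (.leaf 0x84000102800e1a8000000098001008) (.sR 2976 (.sR 2928 (.leaf 0x80000082800f1a00000000a0001008) (.leaf 0x840000c280101a800000009c001008)) (.sR 3024 (.leaf 0x8400000280111a8000000098001008) (.leaf 0x8c00004280121b8000000098001008)))))) (.sR 2784 (.leaf 0x3a08000014280131a110077587a3a1005) (.sr 1600 (.sR 2880 (.leaf 0x78000102800019000000009c001008)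 (.sR 2976 (.leaf 0x9000024280141c0000000090001008) (.sR 3024 (.leaf 0x9800000280151d0000000080001008) (.leaf 0x9000004280161c000000009c001008)))) (.sR 2880 (.leaf 0x7c000102800019800000009c001008) (.sR 2976 (.sR 2928 (.leaf 0x9000008280011c000000008c001008) (.leaf 0x800000c280011a000000009c001008)) (.sR 3024 (.leaf 0x8400000280171a8000000098001008) (.leaf 0x8c00004280181b800000009c001008))))))))) (.sR 2592 (.leaf 0x640001c2801916800000009c001008) (.sg 20 (.sR 2688 (.leaf 0x68000182801a1700000000a4001008) (.sR 2784 (.leaf 0x70000142801b1800000000a0001008) (.sr 1728 (.sR 2880 (.leaf 0x88000202801c1b0000000094001008) (.sR 2976 (.sR 2928 (.leaf 0x9000008280021c000000007c001008) (.leaf 0x900000c280021c0000000098001008)) (.sR 3024 (.leaf 0x94000002801d1c8000000098001008) (.leaf 0x88000042801e1b0000000098001008)))) (.sR 2928 (.sR 2832 (.leaf 0x74000342801f1880000000a0001008) (.sR 2880 (.leaf 0x8400038280201a800000009c001008) (.leaf 0x8800008280211b000000009c001008))) (.sR 2976 (.leaf 0x8c0000c280221b800000009c001008) (.sR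 3024 (.leaf 0x8400000280231a800000009c001008) (.leaf 0x8800004280241b000000009c001008))))))) (.sR 2688 (.leaf 0x4007c000182802519948000027a401005) (.sR 2784 (.leaf 0x7000014280261800000000a0001008) (.sr 1728 (.sR 2880 (.leaf 0x78000102802719000000009c001008) (.sR 2976 (.sR 2928 (.leaf 0x9000008280031c000000007c001008) (.leaf 0x900000c280031c0000000098001008)) (.sR 3024 (.leaf 0x9400000280281c8000000094001008) (.leaf 0x8800004280291b0000000098001008)))) (.sR 2880 (.leaf 0x84000202802a1a8000000098001008) (.sR 2928 (.leaf 0x84000082802b1a8000000098001008) (.sR 2976 (.leaf 0x8c0000c2802c1b800000009c001008) (.sg 22 (.sR 3024 (.leaf 0x88000002802d1b0000000098001008) (.leaf 0x90000042802e1c000000009c001008)) (.sR 3024 (.leaf 0x98000002802f1d000000006c001008) (.leaf 0x9c00004280301d8000000090001008))))))))))))))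
theorem k19 : ChunkP 4 4 1536 1792 16 24 2208 3072 :=
  chkY_sound (Q := 40) (C := []) (Z := [z507, z511, z518, z530, z491, z492, z493, z494, z495, z496, z497, z498, z499, z500, z501, z502, z503, z504, z505, z506, z508, z509, z510, z512, z513, z514, z515, z516, z517, z519, z520, z521, z522, z523, z524, z525, z526, z527, z528, z529, z531, z532, z533, z534, z535, z536, z537, z538, z539])
    (T := [f_w744_756_0_40_0q, f_w756_768_0_40_0q, f_w720_732_0_40_0q, f_w732_744_0_40_0q, f_w696_720_0_30_0q, f_w672_696_0_40_0q, f_w648_672_0_40_0q, f_w624_648_0_40_0q, f_w696_720_0_40_0q, f_w720_744_0_30_0q, f_w552_576_0_50_0q, f_w576_600_0_40_0q, f_w600_624_0_40_0q, f_w696_708_0_50_10q, f_w708_720_0_40_10q]) (t := t19)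
    all_nil
    (all_cons z507P (all_cons z511P (all_cons z518P (all_cons z530P (all_cons z491P (all_cons z492P (all_cons z493P (all_cons z494P (all_cons z495P (all_cons z496P (all_cons z497P (all_cons z498P (all_cons z499P (all_cons z500P (all_cons z501P (all_cons z502P (all_cons z503P (all_cons z504P (all_cons z505P (all_cons z506P (all_cons z508P (all_cons z509P (all_cons z510P (all_cons z512P (all_cons z513P (all_cons z514P (all_cons z515P (all_cons z516P (all_cons z517P (all_cons z519P (all_cons z520P (all_cons z521P (all_cons z522P (all_cons z523P (all_cons z524P (all_cons z525P (all_cons z526P (all_cons z527P (all_cons z528P (all_cons z529P (all_cons z531P (all_cons z532P (all_cons z533P (all_cons z534P (all_cons z535P (all_cons z536P (all_cons z537P (all_cons z538P (all_cons z539P all_nil)))))))))))))))))))))))))))))))))))))))))))))))))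
    (all_cons f_w744_756_0_40_0q_p (all_cons f_w756_768_0_40_0q_p (all_cons f_w720_732_0_40_0q_p (all_cons f_w732_744_0_40_0q_p (all_cons f_w696_720_0_30_0q_p (all_cons f_w672_696_0_40_0q_p (all_cons f_w648_672_0_40_0q_p (all_cons f_w624_648_0_40_0q_p (all_cons f_w696_720_0_40_0q_p (all_cons f_w720_744_0_30_0q_p (all_cons f_w552_576_0_50_0q_p (all_cons f_w576_600_0_40_0q_p (all_cons f_w600_624_0_40_0q_p (all_cons f_w696_708_0_50_10q_p (all_cons f_w708_720_0_40_10q_p all_nil)))))))))))))))
    (by decide +kernel)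
def t20 : Tree := (.sR 2400 (.sR 2304 (.leaf 0x4c00020280041380000000a0001008) (.leaf 0x5400024280031480000000a4001008)) (.sR 2496 (.leaf 0x6000028280051600000000a4001008) (.sr 1664 (.sR 2688 (.sR 2592 (.leaf 0x6000030280061600000000a4001008) (.leaf 0x3d07c0001c280071994800d147a3d1005)) (.sR 2784 (.leaf 0x7c00014280081980000000a0001008) (.sg 28 (.sR 2880 (.leaf 0x8000008280091a00000000a0001008) (.sr 1600 (.sR 2976 (.leaf 0x90000182800a1c0000000078001008) (.sR 3024 (.leaf 0x98000002800b1d000000007c001008) (.leaf 0x90000042800c1c000000009c001008))) (.sR 2976 (.leaf 0x8c000182800d1b8000000098001008) (.sR 3024 (.leaf 0x88000002800e1b0000000098001008) (.leaf 0x8c000042800f1b8000000098001008))))) (.sR 2880 (.leaf 0x8800008280101b000000008c001008) (.sR 2976 (.leaf 0x8000018280111a00000000a0001008) (.sr 1600 (.sR 3024 (.leaf 0x9800000280001d0000000070001008) (.leaf 0x8800004280001b0000000098001008)) (.sR 3024 (.leaf 0x9000000280121c0000000098001008) (.leaf 0x8800004280131b000000009c001008)))))))) (.sR 2592 (.leaf 0x640002c280141680000000a0001008)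 (.sR 2688 (.leaf 0x700001c280151800000000a0001008) (.sg 28 (.sR 2784 (.leaf 0x7000014280161800000000a0001008) (.sr 1728 (.sR 2880 (.leaf 0x8400008280171a800000009c001008) (.sR 2976 (.sR 2928 (.leaf 0x900000c280011c0000000078001008) (.leaf 0x9000010280011c0000000094001008)) (.sR 3024 (.leaf 0x9800000280181d0000000098001008) (.leaf 0x8800004280191b0000000098001008)))) (.sR 2880 (.leaf 0x78000342801a19000000009c001008) (.sR 2976 (.sR 2928 (.leaf 0x880000c2801b1b000000009c001008) (.leaf 0x8c000102801c1b800000009c001008)) (.sR 3024 (.leaf 0x90000002801d1c0000000094001008) (.leaf 0x88000042801e1b000000009c001008)))))) (.sR 2784 (.leaf 0x78000142801f1900000000a0001008) (.sr 1728 (.sR 2880 (.leaf 0x8800008280201b0000000084001008) (.sR 2976 (.sR 2928 (.leaf 0x7c0000c280021980000000a0001008) (.leaf 0x9400010280211c8000000090001008)) (.sR 3024 (.leaf 0x9800000280221d0000000084001008) (.leaf 0x9000004280231c0000000098001008)))) (.sR 2880 (.leaf 0x8000008280241a0000000098001008) (.sR 2976 (.sR 2928 (.leaf 0x8c0000c280021b8000000098001008)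 (.leaf 0x9000010280251c0000000094001008)) (.sR 3024 (.leaf 0x9800000280261d0000000090001008) (.leaf 0x8c00004280271b8000000098001008))))))))))))
theorem k20 : ChunkP 4 4 1536 1792 24 32 2208 3072 :=
  chkY_sound (Q := 40) (C := []) (Z := [z554, z561, z571, z492, z540, z541, z542, z543, z544, z545, z546, z547, z548, z549, z550, z551, z552, z553, z555, z556, z557, z558, z559, z560, z562, z563, z564, z565, z566, z567, z568, z569, z570, z572, z573, z574, z575, z576, z577, z578])
    (T := [f_w744_756_0_40_0q, f_w756_768_0_40_0q, f_w696_720_0_30_0q, f_w720_732_0_40_0q, f_w732_744_0_40_0q, f_w672_696_0_40_0q, f_w720_744_0_30_0q, f_w648_672_0_40_0q, f_w552_576_0_5_0q, f_w576_600_0_40_0q, f_w600_624_0_40_0q, f_w624_648_0_40_0q, f_w624_648_0_5_0q, f_w696_720_0_40_0q]) (t := t20)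
    all_nil
    (all_cons z554P (all_cons z561P (all_cons z571P (all_cons z492P (all_cons z540P (all_cons z541P (all_cons z542P (all_cons z543P (all_cons z544P (all_cons z545P (all_cons z546P (all_cons z547P (all_cons z548P (all_cons z549P (all_cons z550P (all_cons z551P (all_cons z552P (all_cons z553P (all_cons z555P (all_cons z556P (all_cons z557P (all_cons z558P (all_cons z559P (all_cons z560P (all_cons z562P (all_cons z563P (all_cons z564P (all_cons z565P (all_cons z566P (all_cons z567P (all_cons z568P (all_cons z569P (all_cons z570P (all_cons z572P (all_cons z573P (all_cons z574P (all_cons z575P (all_cons z576P (all_cons z577P (all_cons z578P all_nil))))))))))))))))))))))))))))))))))))))))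
    (all_cons f_w744_756_0_40_0q_p (all_cons f_w756_768_0_40_0q_p (all_cons f_w696_720_0_30_0q_p (all_cons f_w720_732_0_40_0q_p (all_cons f_w732_744_0_40_0q_p (all_cons f_w672_696_0_40_0q_p (all_cons f_w720_744_0_30_0q_p (all_cons f_w648_672_0_40_0q_p (all_cons f_w552_576_0_5_0q_p (all_cons f_w576_600_0_40_0q_p (all_cons f_w600_624_0_40_0q_p (all_cons f_w624_648_0_40_0q_p (all_cons f_w624_648_0_5_0q_p (all_cons f_w696_720_0_40_0q_p all_nil))))))))))))))
    (by decide +kernel)
def t21 : Tree := (.sR 2208 (.sR 2016 (.sg 20 (.leaf 0x4003c0401c240001080000000ac401004) (.leaf 0x4003c0401c240011080000000b0401004)) (.sR 2112 (.leaf 0x3c000282800c1180000000ac001008) (.leaf 0x440002c2800d1280000000ac001008))) (.sR 2400 (.sR 2304 (.leaf 0x58000302800e15000000009c001008) (.leaf 0x60000342800f160000000094001008)) (.sR 2496 (.leaf 0x6400038280101680000000a0001008) (.sg 20 (.sR 2592 (.leaf 0x6c00020280111780000000a4001008) (.sR 2688 (.leaf 0x6800024280121700000000a4001008) (.sr 1856 (.sR 2784 (.leaf 0x8000008280131a000000009c001008)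 (.sR 2880 (.sR 2832 (.leaf 0x7400018280001880000000a0001008) (.leaf 0x8c0000c280001b800000009c001008)) (.sR 2928 (.leaf 0x9000010280011c0000000098001008) (.sR 2976 (.leaf 0x8400014280011a8000000098001008) (.sg 18 (.sR 3024 (.leaf 0x8400004280141a800000009c001008) (.sr 1824 (.leaf 0x8800000280021b000000009c001008) (.leaf 0x9000000280021c0000000094001008))) (.sR 3024 (.leaf 0x9000004280151c0000000094001008) (.sr 1824 (.leaf 0x8800000280031b000000009c001008) (.leaf 0x9000000280031c0000000094001008)))))))) (.sR 2784 (.leaf 0x780000828016190000000098001008) (.sR 2880 (.sR 2832 (.leaf 0x7c000182800419800000009c001008) (.leaf 0x840000c280041a8000000098001008)) (.sR 2928 (.leaf 0x8c00010280051b800000009c001008) (.sR 2976 (.leaf 0x8000014280051a000000009c001008) (.sg 18 (.sR 3024 (.leaf 0x8c00004280171b8000000094001008) (.sr 1888 (.leaf 0x8800000280061b000000009c001008) (.leaf 0x9000000280061c0000000098001008))) (.sR 3024 (.leaf 0x9000004280181c000000009c001008) (.sr 1888 (.leaf 0x8800000280071b000000009c001008) (.leaf 0x9000000280071c0000000098001008)))))))))))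 (.sR 2592 (.leaf 0x700002028019180000000090001008) (.sR 2688 (.leaf 0x68000242801a1700000000a4001008) (.sr 1856 (.sR 2784 (.leaf 0x80000082801b1a0000000098001008) (.sR 2880 (.sR 2832 (.leaf 0x740003c2801c1880000000a0001008) (.leaf 0x8c0000c2801d1b800000009c001008)) (.sR 2928 (.leaf 0x9000010280081c000000009c001008) (.sR 2976 (.leaf 0x8400014280081a800000009c001008) (.sg 22 (.sR 3024 (.leaf 0x84000042801e1a800000009c001008) (.sr 1824 (.leaf 0x8800000280091b000000009c001008) (.leaf 0x9000000280091c0000000094001008))) (.sR 3024 (.leaf 0x94000042801f1c8000000098001008) (.leaf 0x9c00000280201d8000000098001008))))))) (.sR 2784 (.leaf 0x780000828021190000000098001008) (.sR 2880 (.sR 2832 (.leaf 0x78000182802219000000009c001008) (.leaf 0x840000c280231a800000009c001008)) (.sR 2928 (.leaf 0x88000102800a1b0000000094001008) (.sR 2976 (.leaf 0x80000142800a1a00000000a0001008) (.sg 22 (.sR 3024 (.leaf 0x9000004280241c000000009c001008) (.sr 1888 (.leaf 0x9800000280251d000000008c001008) (.leaf 0x9000000280261c0000000098001008))) (.sR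 3024 (.leaf 0x9000004280271c0000000098001008) (.sr 1888 (.leaf 0x88000002800b1b000000009c001008) (.leaf 0x90000002800b1c0000000098001008)))))))))))))))
theorem k21 : ChunkP 4 4 1792 1920 16 24 1920 3072 :=
  chkY_sound (Q := 40) (C := [c48.c, c49.c]) (Z := [z587, z588, z590, z592, z594, z595, z597, z599, z605, z607, z613, z618, z579, z580, z581, z582, z583, z584, z585, z586, z589, z591, z593, z596, z598, z600, z601, z602, z603, z604, z606, z608, z609, z610, z611, z612, z614, z615, z616, z617])
    (T := [f_w756_768_0_40_0q, f_w744_756_0_40_0q, f_w672_696_0_40_0q, f_w708_720_0_40_10q, f_w720_732_0_40_0q, f_w732_744_0_40_0q, f_w696_708_0_50_10q, f_w480_504_0_40_0q, f_w624_648_0_40_0q, f_w648_672_0_40_0q, f_w504_528_0_50_0q, f_w528_552_0_50_0q, f_w552_576_0_50_0q, f_w576_600_0_40_0q, f_w600_624_0_40_0q, f_w696_708_0_40_20q]) (t := t21)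
    (all_cons p48 (all_cons p49 all_nil))
    (all_cons z587P (all_cons z588P (all_cons z590P (all_cons z592P (all_cons z594P (all_cons z595P (all_cons z597P (all_cons z599P (all_cons z605P (all_cons z607P (all_cons z613P (all_cons z618P (all_cons z579P (all_cons z580P (all_cons z581P (all_cons z582P (all_cons z583P (all_cons z584P (all_cons z585P (all_cons z586P (all_cons z589P (all_cons z591P (all_cons z593P (all_cons z596P (all_cons z598P (all_cons z600P (all_cons z601P (all_cons z602P (all_cons z603P (all_cons z604P (all_cons z606P (all_cons z608P (all_cons z609P (all_cons z610P (all_cons z611P (all_cons z612P (all_cons z614P (all_cons z615P (all_cons z616P (all_cons z617P all_nil))))))))))))))))))))))))))))))))))))))))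
    (all_cons f_w756_768_0_40_0q_p (all_cons f_w744_756_0_40_0q_p (all_cons f_w672_696_0_40_0q_p (all_cons f_w708_720_0_40_10q_p (all_cons f_w720_732_0_40_0q_p (all_cons f_w732_744_0_40_0q_p (all_cons f_w696_708_0_50_10q_p (all_cons f_w480_504_0_40_0q_p (all_cons f_w624_648_0_40_0q_p (all_cons f_w648_672_0_40_0q_p (all_cons f_w504_528_0_50_0q_p (all_cons f_w528_552_0_50_0q_p (all_cons f_w552_576_0_50_0q_p (all_cons f_w576_600_0_40_0q_p (all_cons f_w600_624_0_40_0q_p (all_cons f_w696_708_0_40_20q_p all_nil))))))))))))))))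
    (by decide +kernel)
def t22 : Tree := (.sR 2112 (.sR 2016 (.sg 20 (.sr 1984 (.leaf 0x4003808028260001080000000a4401004) (.leaf 0x4003c00038240021080000000b0401004)) (.sr 1984 (.leaf 0x4003c04028240011080000000ac401004) (.sR 1968 (.leaf 0x4000034240031100000000a4001007) (.leaf 0x3e0500003c2800814144062017a3e1005)))) (.leaf 0x3c00040280051180000000a8001008)) (.sR 2208 (.leaf 0x4400044280061280000000a4001008) (.sR 2304 (.leaf 0x5000048280071400000000a4001008) (.sg 20 (.sR 2400 (.leaf 0x5c0002c280091580000000a8001008) (.sR 2496 (.leaf 0x5c000302800a1580000000a0001008) (.sr 1984 (.sR 2592 (.leaf 0x6000010280011600000000a4001008) (.sR 2688 (.leaf 0x74000142800b1880000000a0001008) (.sR 2832 (.sR 2736 (.leaf 0x6c00018280001780000000a4001008) (.sR 2784 (.leaf 0x7c0001c2800c19800000009c001008) (.leaf 0x80000202800d1a0000000094001008))) (.sR 2928 (.sR 2880 (.leaf 0x7c000242800e19800000009c001008) (.leaf 0x800000c2800f1a00000000a0001008)) (.sR 2976 (.leaf 0x8000008280101a000000009c001008) (.sg 18 (.sR 3024 (.leaf 0x8c00004280111b800000009c001008)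 (.sr 1952 (.leaf 0x8800000280021b000000009c001008) (.leaf 0x9000000280021c000000009c001008))) (.sR 3024 (.leaf 0x8800004280121b0000000094001008) (.sr 1952 (.leaf 0x9800000280131d0000000090001008) (.leaf 0x9000000280141c000000009c001008))))))))) (.sR 2592 (.leaf 0x6000010280011600000000a4001008) (.sR 2688 (.leaf 0x6c000142801517800000009c001008) (.sR 2832 (.sR 2736 (.leaf 0x780001828000190000000098001008) (.sR 2784 (.leaf 0x700001c280001800000000a0001008) (.leaf 0x7800020280161900000000a0001008))) (.sR 2880 (.leaf 0x8000024280171a00000000a0001008) (.sR 2928 (.leaf 0x7c0000c280181980000000a0001008) (.sg 18 (.sR 2976 (.leaf 0x8000008280191a000000009c001008) (.sR 3024 (.leaf 0x84000042801a1a8000000098001008) (.leaf 0x8c000502801b1b800000009c001008))) (.sR 2976 (.leaf 0x80000082801c1a000000009c001008) (.sR 3024 (.leaf 0x84000042801d1a8000000098001008) (.sr 2016 (.leaf 0x98000002801e1d0000000098001008) (.leaf 0x8c000002801f1b800000009c001008))))))))))))) (.sR 2400 (.leaf 0x600002c2802016000000009c001008) (.sR 2496 (.leaf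 0x5c00030280211580000000a4001008) (.sr 1984 (.sR 2592 (.leaf 0x70000102802218000000009c001008) (.sR 2688 (.leaf 0x7400014280231880000000a0001008) (.sR 2832 (.sR 2736 (.leaf 0x7c0001828003198000000098001008) (.sR 2784 (.leaf 0x700001c280031800000000a0001008) (.leaf 0x78000202800419000000009c001008))) (.sR 2928 (.sR 2880 (.leaf 0x7c0004c2800419800000009c001008) (.leaf 0x7c0000c280241980000000a0001008)) (.sR 2976 (.leaf 0x8000008280251a000000009c001008) (.sg 22 (.sR 3024 (.leaf 0x8c00004280261b800000009c001008) (.sr 1952 (.leaf 0x9800000280271d0000000090001008) (.leaf 0x9000000280281c000000009c001008))) (.sR 3024 (.leaf 0x8c00004280291b8000000098001008) (.sr 1952 (.leaf 0x98000002802a1d000000008c001008) (.leaf 0x90000002802b1c000000009c001008))))))))) (.sR 2592 (.leaf 0x60000102802c1600000000a4001008) (.sR 2688 (.leaf 0x6c000142802d1780000000a0001008) (.sR 2784 (.sR 2736 (.leaf 0x70000182802e18000000009c001008) (.leaf 0x740001c2802f188000000098001008)) (.sR 2832 (.leaf 0x8000020280301a00000000a0001008) (.sR 2880 (.leaf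 0x78000242803119000000009c001008) (.sg 22 (.sR 2976 (.sR 2928 (.leaf 0x7c0000c2803219800000009c001008) (.leaf 0x8000008280331a000000009c001008)) (.sR 3024 (.leaf 0x8400004280341a8000000098001008) (.sr 2016 (.leaf 0x9800000280351d0000000098001008) (.leaf 0x8c00000280361b800000009c001008)))) (.sR 2976 (.sR 2928 (.leaf 0x8c0000c280371b800000009c001008) (.leaf 0x9000008280381c0000000094001008)) (.sR 3024 (.leaf 0x8800004280391b000000009c001008) (.sr 2016 (.leaf 0x98000002803a1d0000000094001008) (.leaf 0x8c000002803b1b8000000098001008)))))))))))))))))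
theorem k22 : ChunkP 4 4 1920 2048 16 24 1920 3072 :=
  chkY_sound (Q := 40) (C := [c61.c, c62.c, c74.c, c75.c]) (Z := [z625, z623, z632, z651, z652, z579, z580, z619, z620, z621, z622, z624, z626, z627, z628, z629, z630, z631, z633, z634, z635, z636, z637, z638, z639, z640, z641, z642, z643, z644, z645, z646, z647, z648, z649, z650, z653, z654, z655, z656, z657, z658, z659, z660, z661, z662, z663, z664, z665, z666, z667, z668, z669, z670, z671, z672, z673, z674, z675, z676])
    (T := [f_w756_768_0_40_0q, f_w744_756_0_40_0q, f_w732_744_0_40_0q, f_w720_732_0_40_0q, f_w624_648_0_40_0q, f_w648_672_0_40_0q, f_w672_684_0_50_10q, f_w684_696_0_50_10q, f_w696_708_0_50_10q, f_w708_720_0_50_10q, f_w480_504_0_40_0q, f_w576_600_0_40_0q, f_w600_624_0_40_0q, f_w480_492_0_50_20q, f_w480_504_0_50_0q, f_w492_504_0_50_20q, f_w504_528_0_50_0q, f_w528_552_0_50_0q, f_w552_576_0_50_0q, f_w708_720_0_40_10q, f_w756_768_0_50_10q]) (t := t22)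
    (all_cons p61 (all_cons p62 (all_cons p74 (all_cons p75 all_nil))))
    (all_cons z625P (all_cons z623P (all_cons z632P (all_cons z651P (all_cons z652P (all_cons z579P (all_cons z580P (all_cons z619P (all_cons z620P (all_cons z621P (all_cons z622P (all_cons z624P (all_cons z626P (all_cons z627P (all_cons z628P (all_cons z629P (all_cons z630P (all_cons z631P (all_cons z633P (all_cons z634P (all_cons z635P (all_cons z636P (all_cons z637P (all_cons z638P (all_cons z639P (all_cons z640P (all_cons z641P (all_cons z642P (all_cons z643P (all_cons z644P (all_cons z645P (all_cons z646P (all_cons z647P (all_cons z648P (all_cons z649P (all_cons z650P (all_cons z653P (all_cons z654P (all_cons z655P (all_cons z656P (all_cons z657P (all_cons z658P (all_cons z659P (all_cons z660P (all_cons z661P (all_cons z662P (all_cons z663P (all_cons z664P (all_cons z665P (all_cons z666P (all_cons z667P (all_cons z668P (all_cons z669P (all_cons z670P (all_cons z671P (all_cons z672P (all_cons z673P (all_cons z674P (all_cons z675P (all_cons z676P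 all_nil))))))))))))))))))))))))))))))))))))))))))))))))))))))))))))
    (all_cons f_w756_768_0_40_0q_p (all_cons f_w744_756_0_40_0q_p (all_cons f_w732_744_0_40_0q_p (all_cons f_w720_732_0_40_0q_p (all_cons f_w624_648_0_40_0q_p (all_cons f_w648_672_0_40_0q_p (all_cons f_w672_684_0_50_10q_p (all_cons f_w684_696_0_50_10q_p (all_cons f_w696_708_0_50_10q_p (all_cons f_w708_720_0_50_10q_p (all_cons f_w480_504_0_40_0q_p (all_cons f_w576_600_0_40_0q_p (all_cons f_w600_624_0_40_0q_p (all_cons f_w480_492_0_50_20q_p (all_cons f_w480_504_0_50_0q_p (all_cons f_w492_504_0_50_20q_p (all_cons f_w504_528_0_50_0q_p (all_cons f_w528_552_0_50_0q_p (all_cons f_w552_576_0_50_0q_p (all_cons f_w708_720_0_40_10q_p (all_cons f_w756_768_0_50_10q_p all_nil)))))))))))))))))))))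
    (by decide +kernel)
def t23 : Tree := (.sR 2304 (.sR 2112 (.sR 2016 (.sg 28 (.leaf 0x4003c04014240011080000000b0401004) (.sr 1856 (.leaf 0x4404014240001180000000ac001007) (.leaf 0x4004004014240021100000000b0401004))) (.leaf 0x4003c00028280041180000000b0401006)) (.sR 2208 (.leaf 0x440002c280051280000000a4001008) (.leaf 0x5400030280061480000000a4001008))) (.sR 2496 (.sR 2400 (.leaf 0x600003428007160000000094001008) (.leaf 0x6400038280081680000000a0001008)) (.sR 2592 (.leaf 0x600003c280091600000000a4001008) (.sg 28 (.sR 2688 (.leaf 0x68000182800a1700000000a4001008) (.sr 1856 (.sR 2784 (.leaf 0x80000082800b1a0000000090001008) (.sR 2880 (.leaf 0x80000202800c1a0000000098001008) (.sR 2928 (.leaf 0x900000c280001c0000000094001008) (.sR 2976 (.leaf 0x8400010280001a8000000098001008) (.sg 26 (.sR 3024 (.leaf 0x84000002800d1a8000000098001008) (.leaf 0x90000042800e1c000000009c001008)) (.sR 3024 (.leaf 0x98000002800f1d0000000094001008) (.leaf 0x9c00004280101d8000000084001008))))))) (.sR 2784 (.leaf 0x7c000082801119800000009c001008)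 (.sR 2880 (.sR 2832 (.leaf 0x800001c280121a000000009c001008) (.leaf 0x8400024280131a8000000098001008)) (.sR 2928 (.leaf 0x8c0000c280011b8000000098001008) (.sR 2976 (.leaf 0x8000010280011a00000000a0001008) (.sg 26 (.sR 3024 (.leaf 0x9000000280141c0000000090001008) (.sr 1888 (.leaf 0x8800004280021b000000009c001008) (.leaf 0x9000004280021c0000000094001008))) (.sR 3024 (.leaf 0x9400000280151c8000000090001008) (.leaf 0x8800004280161b000000009c001008))))))))) (.sR 2688 (.leaf 0x6c000182801717800000009c001008) (.sr 1856 (.sR 2784 (.leaf 0x3f08000008280181a110003767a3f1005) (.sR 2880 (.leaf 0x8800020280191b000000009c001008) (.sR 2976 (.sR 2928 (.leaf 0x900000c280031c0000000084001008) (.leaf 0x8c00010280031b800000009c001008)) (.sR 3024 (.leaf 0x94000002801a1c8000000098001008) (.leaf 0x88000042801b1b0000000098001008))))) (.sR 2784 (.leaf 0x74000082801c1880000000a0001008) (.sR 2928 (.sR 2832 (.leaf 0x840001c2801d1a8000000098001008) (.sR 2880 (.leaf 0x8c000242801e1b800000009c001008) (.leaf 0x7c0000c2801f1980000000a0001008))) (.sR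 2976 (.leaf 0x8400010280201a800000009c001008) (.sR 3024 (.sg 30 (.leaf 0x8800000280221b000000009c001008) (.leaf 0x9800000280231d0000000084001008)) (.leaf 0x8800004280211b000000009c001008)))))))))))
theorem k23 : ChunkP 4 4 1792 1920 24 32 1920 3072 :=
  chkY_sound (Q := 40) (C := [c43.c, c50.c, c57.c]) (Z := [z686, z694, z696, z702, z677, z678, z679, z680, z681, z682, z683, z684, z685, z687, z688, z689, z690, z691, z692, z693, z695, z697, z698, z699, z700, z701, z703, z704, z705, z706, z707, z708, z709, z710, z711, z712])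
    (T := [f_w744_756_0_40_0q, f_w756_768_0_40_0q, f_w672_696_0_40_0q, f_w720_732_0_40_0q, f_w732_744_0_40_0q, f_w480_504_0_40_0q, f_w648_672_0_40_0q, f_w696_708_0_40_20q, f_w696_720_0_40_0q, f_w708_720_0_40_10q, f_w504_528_0_5_0q, f_w528_552_0_5_0q, f_w552_576_0_50_0q, f_w576_600_0_40_0q, f_w600_624_0_40_0q, f_w624_648_0_40_0q]) (t := t23)
    (all_cons p43 (all_cons p50 (all_cons p57 all_nil)))
    (all_cons z686P (all_cons z694P (all_cons z696P (all_cons z702P (all_cons z677P (all_cons z678P (all_cons z679P (all_cons z680P (all_cons z681P (all_cons z682P (all_cons z683P (all_cons z684P (all_cons z685P (all_cons z687P (all_cons z688P (all_cons z689P (all_cons z690P (all_cons z691P (all_cons z692P (all_cons z693P (all_cons z695P (all_cons z697P (all_cons z698P (all_cons z699P (all_cons z700P (all_cons z701P (all_cons z703P (all_cons z704P (all_cons z705P (all_cons z706P (all_cons z707P (all_cons z708P (all_cons z709P (all_cons z710P (all_cons z711P (all_cons z712P all_nil))))))))))))))))))))))))))))))))))))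
    (all_cons f_w744_756_0_40_0q_p (all_cons f_w756_768_0_40_0q_p (all_cons f_w672_696_0_40_0q_p (all_cons f_w720_732_0_40_0q_p (all_cons f_w732_744_0_40_0q_p (all_cons f_w480_504_0_40_0q_p (all_cons f_w648_672_0_40_0q_p (all_cons f_w696_708_0_40_20q_p (all_cons f_w696_720_0_40_0q_p (all_cons f_w708_720_0_40_10q_p (all_cons f_w504_528_0_5_0q_p (all_cons f_w528_552_0_5_0q_p (all_cons f_w552_576_0_50_0q_p (all_cons f_w576_600_0_40_0q_p (all_cons f_w600_624_0_40_0q_p (all_cons f_w624_648_0_40_0q_p all_nil))))))))))))))))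
    (by decide +kernel)

end Pool.Agent.Lib.MP_af3a4a_an.P1.CHK.DATA.N4s
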