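import Pool.Agent.Lib.MP_af3a4a_an.P1.CHK.SWP.Pay
import Pool.Agent.Lib.MP_af3a4a_an.P1.CHK.DATA.N4s.C0
import Pool.Agent.Lib.MP_af3a4a_an.P1.CHK.DATA.N4s.Z2
import Pool.Agent.Lib.MP_af3a4a_an.P1.CHK.DATA.N4s.Z3
import Pool.Agent.Lib.MP_af3a4a_an.P1.CHK.DATA.F4.W480a
import Pool.Agent.Lib.MP_af3a4a_an.P1.CHK.DATA.F4.W480b
import Pool.Agent.Lib.MP_af3a4a_an.P1.CHK.DATA.F4.W528a
import Pool.Agent.Lib.MP_af3a4a_an.P1.CHK.DATA.F4.W576a
import Pool.Agent.Lib.MP_af3a4a_an.P1.CHK.DATA.F4.W624a
import Pool.Agent.Lib.MP_af3a4a_an.P1.CHK.DATA.F4.W672a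
import Pool.Agent.Lib.MP_af3a4a_an.P1.CHK.DATA.F4.W720a
import Pool.Agent.Lib.MP_af3a4a_an.P1.CHK.DATA.F4.W720b

/-! chunks for N = 4 (generated) -/

set_option autoImplicit false
set_option maxRecDepth 100000

namespace Pool.Agent.Lib.MP_af3a4a_an.P1.CHK.DATA.N4s

open BOX SWP

def t24 : Tree := (.sR 2208 (.sR 2016 (.sg 28 (.sr 1984 (.leaf 0x4003c04030240001080000000b0401004) (.sR 1968 (.leaf 0x4004000018240021100000000a8401004) (.leaf 0x3c0500001c28009141440cf3f7a3c1005))) (.sr 1984 (.sR 1968 (.leaf 0x4004000018240011100000000a8401004) (.leaf 0x400540001c2800a149045bd5f65401005)) (.sR 1968 (.leaf 0x4003c00018240031080000000a4401004) (.leaf 0x3e0540001c2800b1490456ef97a3e1005)))) (.sR 2112 (.leaf 0x3c00034280051180000000a4001008) (.leaf 0x4c00038280061380000000ac001008))) (.sR 2304 (.leaf 0x4c0003c280071380000000a8001008) (.sR 2400 (.leaf 0x5400040280081480000000a8001008) (.sg 28 (.sR 2496 (.leaf 0x580002c2800c1500000000a8001008) (.sr 1984 (.sR 2688 (.sR 2592 (.leaf 0x6000020280001600000000a4001008) (.leaf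 0x74000102800d188000000098001008)) (.sR 2784 (.leaf 0x74000242800e18800000009c001008) (.sR 2880 (.sR 2832 (.leaf 0x78000282800f1900000000a0001008) (.leaf 0x8000014280101a00000000a0001008)) (.sR 2928 (.leaf 0x8400008280111a8000000098001008) (.sR 2976 (.leaf 0x800000c280121a000000009c001008) (.sg 26 (.sR 3024 (.leaf 0x9000004280131c000000009c001008) (.sr 1952 (.leaf 0x8800000280011b000000009c001008) (.leaf 0x9000000280011c0000000098001008))) (.sR 3024 (.leaf 0x9000004280141c0000000094001008) (.leaf 0x8800000280151b000000009c001008)))))))) (.sR 2592 (.leaf 0x6000020280001600000000a4001008) (.sR 2688 (.leaf 0x6c000102801617800000009c001008) (.sR 2784 (.sR 2736 (.leaf 0x6c00044280171780000000a4001008) (.leaf 0x8000048280181a0000000094001008)) (.sR 2832 (.leaf 0x7400028280191880000000a0001008) (.sR 2880 (.leaf 0x7c000142801a19800000009c001008) (.sg 26 (.sR 2976 (.sR 2928 (.leaf 0x7c000082801b19800000009c001008) (.leaf 0x840000c2801c1a800000009c001008)) (.sR 3024 (.leaf 0x8c000042801d1b800000009c001008) (.sr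 2016 (.leaf 0x98000002801e1d000000008c001008) (.leaf 0x90000002801f1c000000009c001008)))) (.sR 2976 (.sR 2928 (.leaf 0x8c00008280201b8000000090001008) (.leaf 0x940000c280211c8000000090001008)) (.sR 3024 (.leaf 0x9000004280221c000000009c001008) (.sr 2016 (.leaf 0x8800000280021b000000009c001008) (.leaf 0x9000000280021c0000000098001008)))))))))))) (.sR 2496 (.leaf 0x680002c28023170000000098001008) (.sR 2592 (.leaf 0x6000020280241600000000a4001008) (.sr 1984 (.sR 2688 (.leaf 0x780001028025190000000098001008) (.sR 2784 (.leaf 0x7c00024280261980000000a0001008) (.sR 2880 (.sR 2832 (.leaf 0x880004c280031b0000000088001008) (.leaf 0x8400014280031a800000009c001008)) (.sR 2928 (.leaf 0x8c00008280041b800000009c001008) (.sR 2976 (.leaf 0x800000c280041a00000000a0001008) (.sg 30 (.sR 3024 (.leaf 0x9400004280271c8000000090001008) (.leaf 0x8c00000280281b800000009c001008)) (.sR 3024 (.leaf 0x9800004280291d0000000090001008) (.leaf 0x90000002802a1c0000000098001008)))))))) (.sR 2688 (.leaf 0x70000102802b18000000009c001008)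 (.sR 2784 (.leaf 0x74000242802c1880000000a0001008) (.sR 2880 (.sR 2832 (.leaf 0x74000282802d1880000000a0001008) (.leaf 0x7c000142802e1980000000a0001008)) (.sR 2928 (.leaf 0x84000082802f1a8000000098001008) (.sR 2976 (.leaf 0x800000c280301a000000009c001008) (.sg 30 (.sR 3024 (.leaf 0x9000004280311c0000000090001008) (.leaf 0x8800000280321b0000000098001008)) (.sR 3024 (.leaf 0x9400004280331c800000008c001008) (.leaf 0x9000000280341c000000009c001008)))))))))))))))
theorem k24 : ChunkP 4 4 1920 2048 24 32 1920 3072 :=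
  chkY_sound (Q := 40) (C := [c63.c, c64.c, c76.c, c77.c]) (Z := [z721, z729, z745, z750, z751, z713, z714, z715, z716, z717, z718, z719, z720, z722, z723, z724, z725, z726, z727, z728, z730, z731, z732, z733, z734, z735, z736, z737, z738, z739, z740, z741, z742, z743, z744, z746, z747, z748, z749, z752, z753, z754, z755, z756, z757, z758, z759, z760, z761, z762, z763, z764, z765])
    (T := [f_w756_768_0_40_0q, f_w744_756_0_40_0q, f_w720_732_0_40_0q, f_w732_744_0_40_0q, f_w648_672_0_40_0q, f_w708_720_0_40_10q, f_w480_492_0_50_20q, f_w492_504_0_50_20q, f_w624_648_0_40_0q, f_w672_696_0_40_0q, f_w696_708_0_50_10q, f_w600_624_0_40_0q, f_w480_504_0_40_0q, f_w504_528_0_50_0q, f_w528_552_0_50_0q, f_w552_576_0_50_0q, f_w576_600_0_40_0q, f_w672_684_0_50_10q, f_w684_696_0_50_10q, f_w696_708_0_40_20q]) (t := t24)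
    (all_cons p63 (all_cons p64 (all_cons p76 (all_cons p77 all_nil))))
    (all_cons z721P (all_cons z729P (all_cons z745P (all_cons z750P (all_cons z751P (all_cons z713P (all_cons z714P (all_cons z715P (all_cons z716P (all_cons z717P (all_cons z718P (all_cons z719P (all_cons z720P (all_cons z722P (all_cons z723P (all_cons z724P (all_cons z725P (all_cons z726P (all_cons z727P (all_cons z728P (all_cons z730P (all_cons z731P (all_cons z732P (all_cons z733P (all_cons z734P (all_cons z735P (all_cons z736P (all_cons z737P (all_cons z738P (all_cons z739P (all_cons z740P (all_cons z741P (all_cons z742P (all_cons z743P (all_cons z744P (all_cons z746P (all_cons z747P (all_cons z748P (all_cons z749P (all_cons z752P (all_cons z753P (all_cons z754P (all_cons z755P (all_cons z756P (all_cons z757P (all_cons z758P (all_cons z759P (all_cons z760P (all_cons z761P (all_cons z762P (all_cons z763P (all_cons z764P (all_cons z765P all_nil)))))))))))))))))))))))))))))))))))))))))))))))))))))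
    (all_cons f_w756_768_0_40_0q_p (all_cons f_w744_756_0_40_0q_p (all_cons f_w720_732_0_40_0q_p (all_cons f_w732_744_0_40_0q_p (all_cons f_w648_672_0_40_0q_p (all_cons f_w708_720_0_40_10q_p (all_cons f_w480_492_0_50_20q_p (all_cons f_w492_504_0_50_20q_p (all_cons f_w624_648_0_40_0q_p (all_cons f_w672_696_0_40_0q_p (all_cons f_w696_708_0_50_10q_p (all_cons f_w600_624_0_40_0q_p (all_cons f_w480_504_0_40_0q_p (all_cons f_w504_528_0_50_0q_p (all_cons f_w528_552_0_50_0q_p (all_cons f_w552_576_0_50_0q_p (all_cons f_w576_600_0_40_0q_p (all_cons f_w672_684_0_50_10q_p (all_cons f_w684_696_0_50_10q_p (all_cons f_w696_708_0_40_20q_p all_nil))))))))))))))))))))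
    (by decide +kernel)
def t25 : Tree := (.sR 2208 (.sR 2016 (.sg 40 (.sr 1664 (.leaf 0x4404018240001180000000a4001007) (.leaf 0x4003c04024240021080000000b0401004)) (.sr 1664 (.leaf 0x4003c04028240011080000000a0401004) (.leaf 0x4003c04018240031080000000b0401004))) (.sR 2112 (.leaf 0x400002c280031200000000a0001008) (.leaf 0x4c0003028004138000000094001008))) (.sR 2304 (.sg 40 (.leaf 0x540001c280061480000000a0001008) (.leaf 0x4c0001c2800713800000009c001008)) (.sR 2400 (.leaf 0x5800034280051500000000a8001008) (.sg 40 (.sR 2496 (.leaf 0x5800038280081500000000a8001008) (.sR 2592 (.leaf 0x6000040280091600000000a4001008) (.sr 1664 (.sR 2784 (.sR 2688 (.leaf 0x390800000c2800a1a1540e3e67a391005) (.leaf 0x80000202800b1a0000000088001008)) (.sR 2880 (.leaf 0x80000082800c1a000000009c001008) (.sg 36 (.sR 2976 (.leaf 0x90000042800d1c0000000088001008) (.sr 1600 (.leaf 0x98000002800e1d000000008c001008) (.leaf 0x88000002800f1b000000009c001008))) (.sR 2976 (.leaf 0x9000004280101c0000000060001008) (.sr 1600 (.leaf 0x9800000280111d0000000044001008)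 (.leaf 0x9000000280121c000000009c001008)))))) (.sR 2688 (.leaf 0x780000c28013190000000090001008) (.sR 2784 (.leaf 0x7000020280141800000000a0001008) (.sg 36 (.sR 2880 (.leaf 0x7c00008280151980000000a0001008) (.sr 1728 (.sR 2976 (.leaf 0x9000004280161c0000000074001008) (.sR 3024 (.leaf 0x9800010280001d0000000070001008) (.leaf 0x9000014280001c0000000098001008))) (.sR 2976 (.sR 2928 (.leaf 0x900004c280011c000000008c001008) (.leaf 0x8000050280011a000000009c001008)) (.sR 3024 (.leaf 0x9000010280171c000000009c001008) (.leaf 0x9000014280181c000000009c001008))))) (.sR 2880 (.leaf 0x8800008280191b0000000080001008) (.sR 2976 (.leaf 0x90000042801a1c000000009c001008) (.sr 1728 (.leaf 0x98000002801b1d0000000098001008) (.sR 3024 (.leaf 0x98000102801c1d0000000088001008) (.leaf 0x9c000142801d1d8000000090001008))))))))))) (.sR 2592 (.sR 2496 (.leaf 0x640003c2801e168000000098001008) (.leaf 0x68000442801f1700000000a4001008)) (.sR 2688 (.leaf 0x680000c280201700000000a4001008) (.sR 2784 (.leaf 0x8000048280211a0000000088001008)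 (.sr 1664 (.sR 2880 (.leaf 0x8800008280221b0000000040001008) (.sR 2976 (.leaf 0x9000004280231c0000000068001008) (.leaf 0x9800000280241d0000000078001008))) (.sR 2880 (.leaf 0x8800008280251b0000000090001008) (.sR 2976 (.leaf 0x8400004280261a800000009c001008) (.sg 44 (.sr 1728 (.leaf 0x8800000280021b000000009c001008) (.leaf 0x9000000280021c0000000098001008)) (.leaf 0x9800000280271d0000000064001008))))))))))))
theorem k25 : ChunkP 4 4 1536 1792 32 48 1920 3072 :=
  chkY_sound (Q := 40) (C := [c32.c, c33.c, c41.c, c42.c]) (Z := [z786, z787, z804, z766, z767, z768, z769, z770, z771, z772, z773, z774, z775, z776, z777, z778, z779, z780, z781, z782, z783, z784, z785, z788, z789, z790, z791, z792, z793, z794, z795, z796, z797, z798, z799, z800, z801, z802, z803, z805])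
    (T := [f_w744_768_0_30_0q, f_w720_744_0_30_0q, f_w696_720_0_30_0q, f_w648_672_0_40_0q, f_w744_756_0_40_0q, f_w756_768_0_40_0q, f_w480_504_0_40_0q, f_w552_576_0_5_0q, f_w672_696_0_40_0q, f_w480_504_0_30_20q, f_w480_504_0_5_0q, f_w504_528_0_5_0q, f_w528_552_0_5_0q, f_w576_600_0_40_0q, f_w600_624_0_40_0q, f_w600_624_0_5_0q, f_w624_648_0_40_0q, f_w624_648_0_5_0q, f_w672_696_0_30_10q, f_w720_732_0_40_0q, f_w732_744_0_40_0q]) (t := t25)
    (all_cons p32 (all_cons p33 (all_cons p41 (all_cons p42 all_nil))))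
    (all_cons z786P (all_cons z787P (all_cons z804P (all_cons z766P (all_cons z767P (all_cons z768P (all_cons z769P (all_cons z770P (all_cons z771P (all_cons z772P (all_cons z773P (all_cons z774P (all_cons z775P (all_cons z776P (all_cons z777P (all_cons z778P (all_cons z779P (all_cons z780P (all_cons z781P (all_cons z782P (all_cons z783P (all_cons z784P (all_cons z785P (all_cons z788P (all_cons z789P (all_cons z790P (all_cons z791P (all_cons z792P (all_cons z793P (all_cons z794P (all_cons z795P (all_cons z796P (all_cons z797P (all_cons z798P (all_cons z799P (all_cons z800P (all_cons z801P (all_cons z802P (all_cons z803P (all_cons z805P all_nil))))))))))))))))))))))))))))))))))))))))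
    (all_cons f_w744_768_0_30_0q_p (all_cons f_w720_744_0_30_0q_p (all_cons f_w696_720_0_30_0q_p (all_cons f_w648_672_0_40_0q_p (all_cons f_w744_756_0_40_0q_p (all_cons f_w756_768_0_40_0q_p (all_cons f_w480_504_0_40_0q_p (all_cons f_w552_576_0_5_0q_p (all_cons f_w672_696_0_40_0q_p (all_cons f_w480_504_0_30_20q_p (all_cons f_w480_504_0_5_0q_p (all_cons f_w504_528_0_5_0q_p (all_cons f_w528_552_0_5_0q_p (all_cons f_w576_600_0_40_0q_p (all_cons f_w600_624_0_40_0q_p (all_cons f_w600_624_0_5_0q_p (all_cons f_w624_648_0_40_0q_p (all_cons f_w624_648_0_5_0q_p (all_cons f_w672_696_0_30_10q_p (all_cons f_w720_732_0_40_0q_p (all_cons f_w732_744_0_40_0q_p all_nil)))))))))))))))))))))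
    (by decide +kernel)
def t26 : Tree := (.sr 1920 (.sR 2304 (.sR 2112 (.sR 2016 (.sg 36 (.sr 1856 (.leaf 0x4004404018240011180000000b0401004) (.leaf 0x4004004018240031100000000b0401004)) (.sr 1856 (.leaf 0x4404018240021180000000a4001007) (.leaf 0x4004004018240041100000000ac401004))) (.leaf 0x3c000482800f11800000009c001008)) (.sR 2208 (.leaf 0x4c00050280101380000000a8001008) (.leaf 0x4c00058280111380000000a0001008))) (.sR 2496 (.sR 2400 (.leaf 0x3b06800030280121717c0307c7a3b1005) (.leaf 0x680003428013170000000094001008)) (.sR 2592 (.leaf 0x6c00024280141780000000a0001008) (.sg 36 (.sR 2688 (.leaf 0x7000014280001800000000a0001008) (.sr 1856 (.sR 2784 (.leaf 0x7000008280011800000000a0001008) (.sR 2880 (.leaf 0x8400038280151a8000000098001008) (.sR 2976 (.sR 2928 (.leaf 0x900000c280021c0000000074001008) (.leaf 0x9400010280021c8000000094001008)) (.sR 3024 (.leaf 0x9800000280031d0000000080001008) (.leaf 0x8c00004280031b800000009c001008))))) (.sR 2784 (.leaf 0x7c00008280011980000000a0001008) (.sR 2880 (.leaf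 0x780003c280161900000000a0001008) (.sR 2976 (.sR 2928 (.leaf 0x840000c280171a8000000098001008) (.leaf 0x9000010280181c0000000098001008)) (.sR 3024 (.leaf 0x9800000280041d0000000090001008) (.leaf 0x8800004280041b0000000098001008))))))) (.sR 2784 (.sR 2688 (.leaf 0x6800014280001700000000a4001008) (.leaf 0x7c000082801919800000009c001008)) (.sR 2880 (.leaf 0x780003c2801a19000000009c001008) (.sr 1856 (.sR 2976 (.leaf 0x800005c2801b1a00000000a0001008) (.sR 3024 (.leaf 0x9800000280051d0000000064001008) (.leaf 0x9c00004280051d8000000090001008))) (.sR 2976 (.sR 2928 (.leaf 0x900000c280061c000000008c001008) (.leaf 0x8400010280061a800000009c001008)) (.sR 3024 (.leaf 0x94000002801c1c8000000098001008) (.leaf 0x9c000042801d1d8000000098001008)))))))))) (.sR 2208 (.sR 2016 (.sg 36 (.sr 1984 (.sR 1968 (.leaf 0x400400001c240001100000000a8401004) (.leaf 0x3b0540002028023149045de1c653b1005)) (.sR 1968 (.leaf 0x4003c0001c240051080000000ac401004) (.leaf 0x3a0540002028024149045ca567a3a1005))) (.sr 1984 (.leaf 0x4703c00040240001080000000b044d044)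 (.sR 1968 (.leaf 0x4003c0001c240061080000000b0401004) (.leaf 0x3c0540002028025149045d38d653c1005)))) (.sR 2112 (.leaf 0x3c000442801e1180000000a8001008) (.leaf 0x480004c2801f1300000000a8001008))) (.sR 2400 (.sR 2304 (.leaf 0x4c00054280201380000000ac001008) (.leaf 0x5800030280211500000000a0001008)) (.sR 2496 (.leaf 0x5800034280221500000000a8001008) (.sg 36 (.sR 2592 (.leaf 0x700002428026180000000094001008) (.sr 1984 (.sR 2688 (.leaf 0x6800014280071700000000a4001008) (.sR 2784 (.leaf 0x8000008280271a0000000094001008) (.sR 2928 (.sR 2832 (.leaf 0x8800028280081b0000000078001008) (.sR 2880 (.leaf 0x8c0002c280081b8000000098001008) (.leaf 0x900000c280091c000000008c001008))) (.sR 2976 (.leaf 0x8800010280091b0000000098001008) (.sR 3024 (.leaf 0x8400000280281a800000009c001008) (.leaf 0x9000004280291c0000000098001008)))))) (.sR 2688 (.leaf 0x6c00014280071780000000a4001008) (.sR 2784 (.leaf 0x7c000082802a19800000009c001008) (.sR 2880 (.sR 2832 (.leaf 0x78000282802b19000000009c001008) (.leaf 0x840002c2802c1a8000000098001008))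 (.sR 2928 (.leaf 0x8c0000c2800a1b8000000090001008) (.sR 2976 (.leaf 0x84000102800a1a800000009c001008) (.sg 34 (.sR 3024 (.leaf 0x8c000002802d1b8000000098001008) (.leaf 0x94000042802e1c8000000094001008)) (.sR 3024 (.leaf 0x98000002802f1d0000000078001008) (.leaf 0x9c00004280301d8000000098001008)))))))))) (.sR 2592 (.leaf 0x3f074000242803118940001b37a3f1005) (.sR 2688 (.leaf 0x6c000142803217800000009c001008) (.sr 1984 (.sR 2784 (.leaf 0x70000082800b1800000000a0001008) (.sR 2880 (.leaf 0x8000038280331a000000009c001008) (.sR 2976 (.sR 2928 (.leaf 0x900000c2800c1c0000000070001008) (.leaf 0x94000102800c1c800000008c001008)) (.sR 3024 (.leaf 0x98000002800d1d0000000070001008) (.leaf 0x98000042800d1d000000008c001008))))) (.sR 2784 (.leaf 0x78000082800b1900000000a0001008) (.sR 2928 (.sR 2832 (.leaf 0x88000282800e1b0000000090001008) (.sR 2880 (.leaf 0x7c0002c2800e1980000000a0001008) (.leaf 0x880000c280341b000000009c001008))) (.sR 2976 (.leaf 0x9400010280351c8000000098001008) (.sR 3024 (.leaf 0x8400000280361a8000000098001008)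 (.leaf 0x9c00004280371d8000000080001008)))))))))))))
theorem k26 : ChunkP 4 4 1792 2048 32 40 1920 3072 :=
  chkY_sound (Q := 40) (C := [c65.c, c44.c, c45.c, c58.c, c59.c, c78.c, c79.c]) (Z := [z812, z813, z815, z816, z820, z824, z825, z837, z839, z840, z846, z853, z855, z856, z857, z806, z807, z808, z809, z810, z811, z814, z817, z818, z819, z821, z822, z823, z826, z827, z828, z829, z830, z831, z832, z833, z834, z835, z836, z838, z841, z842, z843, z844, z845, z847, z848, z849, z850, z851, z852, z854, z858, z859, z860, z861])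
    (T := [f_w744_756_0_40_0q, f_w756_768_0_40_0q, f_w672_696_0_40_0q, f_w720_732_0_40_0q, f_w732_744_0_40_0q, f_w648_672_0_40_0q, f_w480_504_0_40_0q, f_w480_492_0_50_20q, f_w492_504_0_50_20q, f_w624_648_0_40_0q, f_w696_708_0_40_20q, f_w708_720_0_40_10q, f_w576_600_0_40_0q, f_w600_624_0_40_0q, f_w696_720_0_30_0q, f_w696_720_0_40_0q, f_w480_504_4_40_10q, f_w504_528_0_50_0q, f_w504_528_0_5_0q, f_w528_552_0_50_0q, f_w528_552_0_5_0q, f_w552_576_0_50_0q, f_w552_576_0_5_0q, f_w720_744_0_30_0q]) (t := t26)
    (all_cons p65 (all_cons p44 (all_cons p45 (all_cons p58 (all_cons p59 (all_cons p78 (all_cons p79 all_nil)))))))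
    (all_cons z812P (all_cons z813P (all_cons z815P (all_cons z816P (all_cons z820P (all_cons z824P (all_cons z825P (all_cons z837P (all_cons z839P (all_cons z840P (all_cons z846P (all_cons z853P (all_cons z855P (all_cons z856P (all_cons z857P (all_cons z806P (all_cons z807P (all_cons z808P (all_cons z809P (all_cons z810P (all_cons z811P (all_cons z814P (all_cons z817P (all_cons z818P (all_cons z819P (all_cons z821P (all_cons z822P (all_cons z823P (all_cons z826P (all_cons z827P (all_cons z828P (all_cons z829P (all_cons z830P (all_cons z831P (all_cons z832P (all_cons z833P (all_cons z834P (all_cons z835P (all_cons z836P (all_cons z838P (all_cons z841P (all_cons z842P (all_cons z843P (all_cons z844P (all_cons z845P (all_cons z847P (all_cons z848P (all_cons z849P (all_cons z850P (all_cons z851P (all_cons z852P (all_cons z854P (all_cons z858P (all_cons z859P (all_cons z860P (all_cons z861P all_nil))))))))))))))))))))))))))))))))))))))))))))))))))))))))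
    (all_cons f_w744_756_0_40_0q_p (all_cons f_w756_768_0_40_0q_p (all_cons f_w672_696_0_40_0q_p (all_cons f_w720_732_0_40_0q_p (all_cons f_w732_744_0_40_0q_p (all_cons f_w648_672_0_40_0q_p (all_cons f_w480_504_0_40_0q_p (all_cons f_w480_492_0_50_20q_p (all_cons f_w492_504_0_50_20q_p (all_cons f_w624_648_0_40_0q_p (all_cons f_w696_708_0_40_20q_p (all_cons f_w708_720_0_40_10q_p (all_cons f_w576_600_0_40_0q_p (all_cons f_w600_624_0_40_0q_p (all_cons f_w696_720_0_30_0q_p (all_cons f_w696_720_0_40_0q_p (all_cons f_w480_504_4_40_10q_p (all_cons f_w504_528_0_50_0q_p (all_cons f_w504_528_0_5_0q_p (all_cons f_w528_552_0_50_0q_p (all_cons f_w528_552_0_5_0q_p (all_cons f_w552_576_0_50_0q_p (all_cons f_w552_576_0_5_0q_p (all_cons f_w720_744_0_30_0q_p all_nil))))))))))))))))))))))))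
    (by decide +kernel)
def t27 : Tree := (.sR 2208 (.sR 2016 (.sr 1920 (.sg 44 (.leaf 0x4003c04000240001080000000b0401004) (.leaf 0x4003c04000240011080000000a4401004)) (.sg 44 (.sr 1984 (.leaf 0x4003c04000240021080000000ac401004) (.sR 1968 (.leaf 0x4003c00014240041080000000b0401004) (.leaf 0x390540001828004149045d04951391005))) (.sr 1984 (.leaf 0x4003c04000240031080000000a4401004) (.sR 1968 (.leaf 0x4003800014240051000000000a4401004) (.leaf 0x3a054000182800514904575ed3d3a1005))))) (.sR 2112 (.leaf 0x3c00028280001180000000ac001008) (.leaf 0x440002c280011280000000a0001008))) (.sR 2400 (.sR 2304 (.sr 1920 (.leaf 0x4c0001c280061380000000ac001008) (.leaf 0x4c0001c28007138000000098001008)) (.leaf 0x600003028002160000000098001008)) (.sR 2496 (.leaf 0x6000034280031600000000a0001008) (.sr 1920 (.sR 2688 (.sR 2592 (.leaf 0x600003c280081600000000a4001008) (.leaf 0x41078000202800919108003d67a411005)) (.sR 2784 (.leaf 0x7c000042800a1980000000a0001008) (.sg 44 (.sR 2880 (.leaf 0x88000082800b1b0000000080001008) (.sR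 2976 (.leaf 0x900000c2800c1c0000000090001008) (.sr 1856 (.leaf 0x98000102800d1d0000000084001008) (.leaf 0x94000102800e1c8000000098001008)))) (.sR 2880 (.leaf 0x88000082800f1b0000000054001008) (.sR 2976 (.leaf 0x900000c280101c0000000054001008) (.leaf 0x9800010280111d0000000094001008)))))) (.sR 2592 (.leaf 0x6c000382801217800000009c001008) (.sR 2688 (.leaf 0x6c00020280131780000000a4001008) (.sg 44 (.sR 2784 (.leaf 0x7c0000428014198000000098001008) (.sR 2880 (.leaf 0x8000040280151a000000009c001008) (.sr 1984 (.sR 2976 (.leaf 0x840000c280161a8000000098001008) (.leaf 0x9000024280171c0000000098001008)) (.sR 2976 (.leaf 0x8800048280181b0000000094001008) (.leaf 0x9000024280191c0000000094001008))))) (.sR 2880 (.sR 2784 (.leaf 0x38080000042801a1a1100cd6a7a381005) (.leaf 0x88000082801b1b0000000070001008)) (.sR 2976 (.leaf 0x80000442801c1a000000009c001008) (.leaf 0x980004c2801d1d0000000088001008))))))))))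
theorem k27 : ChunkP 4 4 1792 2048 40 48 1920 3072 :=
  chkY_sound (Q := 40) (C := [c51.c, c52.c, c66.c, c67.c, c80.c, c81.c]) (Z := [z862, z863, z864, z865, z866, z867, z868, z869, z870, z871, z872, z873, z874, z875, z876, z877, z878, z879, z880, z881, z882, z883, z884, z885, z886, z887, z888, z889, z890, z891])
    (T := [f_w480_504_0_40_0q, f_w672_696_0_40_0q, f_w696_720_0_30_0q, f_w720_744_0_30_0q, f_w744_768_0_30_0q, f_w480_492_0_50_20q, f_w492_504_0_50_20q, f_w552_576_0_5_0q, f_w648_672_0_40_0q, f_w744_768_0_40_0q, f_w504_528_0_5_0q, f_w528_552_0_5_0q, f_w576_600_0_40_0q, f_w600_624_0_40_0q, f_w624_648_0_40_0q, f_w624_648_0_5_0q, f_w696_720_0_40_0q, f_w720_744_0_30_30q, f_w720_744_0_40_0q, f_w744_768_0_35_30q]) (t := t27)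
    (all_cons p51 (all_cons p52 (all_cons p66 (all_cons p67 (all_cons p80 (all_cons p81 all_nil))))))
    (all_cons z862P (all_cons z863P (all_cons z864P (all_cons z865P (all_cons z866P (all_cons z867P (all_cons z868P (all_cons z869P (all_cons z870P (all_cons z871P (all_cons z872P (all_cons z873P (all_cons z874P (all_cons z875P (all_cons z876P (all_cons z877P (all_cons z878P (all_cons z879P (all_cons z880P (all_cons z881P (all_cons z882P (all_cons z883P (all_cons z884P (all_cons z885P (all_cons z886P (all_cons z887P (all_cons z888P (all_cons z889P (all_cons z890P (all_cons z891P all_nil))))))))))))))))))))))))))))))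
    (all_cons f_w480_504_0_40_0q_p (all_cons f_w672_696_0_40_0q_p (all_cons f_w696_720_0_30_0q_p (all_cons f_w720_744_0_30_0q_p (all_cons f_w744_768_0_30_0q_p (all_cons f_w480_492_0_50_20q_p (all_cons f_w492_504_0_50_20q_p (all_cons f_w552_576_0_5_0q_p (all_cons f_w648_672_0_40_0q_p (all_cons f_w744_768_0_40_0q_p (all_cons f_w504_528_0_5_0q_p (all_cons f_w528_552_0_5_0q_p (all_cons f_w576_600_0_40_0q_p (all_cons f_w600_624_0_40_0q_p (all_cons f_w624_648_0_40_0q_p (all_cons f_w624_648_0_5_0q_p (all_cons f_w696_720_0_40_0q_p (all_cons f_w720_744_0_30_30q_p (all_cons f_w720_744_0_40_0q_p (all_cons f_w744_768_0_35_30q_p all_nil))))))))))))))))))))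
    (by decide +kernel)
def t28 : Tree := (.sR 2112 (.sR 2016 (.sr 1792 (.sg 56 (.leaf 0x4004400004220001100000000b0401004) (.leaf 0x440001c2200111000000009c001007)) (.sg 56 (.sr 1920 (.leaf 0x4004000004220021080000000b0401004) (.sg 52 (.sr 1984 (.leaf 0x4004004008240041100000000a8401004) (.leaf 0x4003c04008240071080000000a8401004)) (.leaf 0x4004000008220051080000000b0401004))) (.sr 1920 (.leaf 0x400440001c220031100000000b0401004) (.leaf 0x4004000004220061080000000a4401004)))) (.leaf 0x3c00038280001180000000ac001008)) (.sR 2208 (.leaf 0x440003c280011280000000a0001008) (.sr 1792 (.sR 2592 (.sR 2400 (.sR 2304 (.leaf 0x50000202800214000000009c001008) (.leaf 0x3e06800024280031717c00b5e653e1005)) (.sR 2496 (.leaf 0x3f06c0000c2800417934001a6513f1005) (.leaf 0x3b070000102800518100066457a3b1005))) (.sR 2784 (.sR 2688 (.leaf 0x3f078000282800619108003d67a3f1005) (.leaf 0x700002c280071800000000a0001008)) (.sR 2880 (.leaf 0x8800014280081b0000000084001008) (.sg 56 (.sR 2976 (.leaf 0x9000018280091c0000000074001008)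 (.leaf 0x98000002800a1d0000000084001008)) (.sR 2976 (.leaf 0x90000302800b1c0000000070001008) (.leaf 0x94000342800c1c800000005c001008)))))) (.sR 2304 (.leaf 0x54000202800d148000000094001008) (.sR 2400 (.leaf 0x58000242800e150000000094001008) (.sg 56 (.sR 2592 (.sR 2496 (.leaf 0x600000c2800f160000000098001008) (.leaf 0x64000102801016800000009c001008)) (.sR 2688 (.leaf 0x6800040280111700000000a4001008) (.sR 2784 (.leaf 0x3f08000044280121a110003767a3f1005) (.sr 1920 (.sR 2880 (.leaf 0x8800014280131b000000003c001008) (.sR 2976 (.leaf 0x9000018280141c0000000050001008) (.leaf 0x9800000280151d0000000094001008))) (.sR 2880 (.leaf 0x8800014280161b000000006c001008) (.sR 2976 (.leaf 0x9000018280171c0000000068001008) (.sg 52 (.leaf 0x9000000280181c0000000098001008) (.leaf 0x9800000280191d0000000034001008)))))))) (.sR 2688 (.sR 2496 (.leaf 0x580000c2801a1500000000a8001008) (.sR 2592 (.leaf 0x3a078000102801b19160087947a3a1005) (.leaf 0x39080000282801c1a1540e3e67a391005))) (.sR 2880 (.sR 2784 (.leaf 0x380800002c2801d1a1100cd6a7a381005)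 (.leaf 0x7c000482801e198000000084001008)) (.sR 2976 (.leaf 0x80000302801f1a000000009c001008) (.leaf 0x8c00034280201b800000009c001008))))))))))
theorem k28 : ChunkP 4 4 1536 2048 48 64 1920 3072 :=
  chkY_sound (Q := 40) (C := [c35.c, c36.c, c53.c, c54.c, c68.c, c71.c, c72.c, c82.c]) (Z := [z892, z893, z894, z895, z896, z897, z898, z899, z900, z901, z902, z903, z904, z905, z906, z907, z908, z909, z910, z911, z912, z913, z914, z915, z916, z917, z918, z919, z920, z921, z922, z923, z924])
    (T := [f_w744_768_0_30_0q, f_w480_504_0_30_20q, f_w480_504_0_40_0q, f_w600_624_0_5_0q, f_w624_648_0_5_0q, f_w696_720_0_30_0q, f_w720_744_0_30_0q, f_w480_504_0_5_0q, f_w552_576_0_5_0q, f_w576_600_0_5_0q, f_w648_672_0_5_0q, f_w672_696_0_5_0q, f_w720_744_0_5_0q, f_w744_768_0_5_0q, f_w504_528_0_5_0q, f_w528_552_0_5_0q, f_w648_672_0_40_0q, f_w672_696_0_30_10q, f_w696_720_0_5_0q]) (t := t28)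
    (all_cons p35 (all_cons p36 (all_cons p53 (all_cons p54 (all_cons p68 (all_cons p71 (all_cons p72 (all_cons p82 all_nil))))))))
    (all_cons z892P (all_cons z893P (all_cons z894P (all_cons z895P (all_cons z896P (all_cons z897P (all_cons z898P (all_cons z899P (all_cons z900P (all_cons z901P (all_cons z902P (all_cons z903P (all_cons z904P (all_cons z905P (all_cons z906P (all_cons z907P (all_cons z908P (all_cons z909P (all_cons z910P (all_cons z911P (all_cons z912P (all_cons z913P (all_cons z914P (all_cons z915P (all_cons z916P (all_cons z917P (all_cons z918P (all_cons z919P (all_cons z920P (all_cons z921P (all_cons z922P (all_cons z923P (all_cons z924P all_nil)))))))))))))))))))))))))))))))))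
    (all_cons f_w744_768_0_30_0q_p (all_cons f_w480_504_0_30_20q_p (all_cons f_w480_504_0_40_0q_p (all_cons f_w600_624_0_5_0q_p (all_cons f_w624_648_0_5_0q_p (all_cons f_w696_720_0_30_0q_p (all_cons f_w720_744_0_30_0q_p (all_cons f_w480_504_0_5_0q_p (all_cons f_w552_576_0_5_0q_p (all_cons f_w576_600_0_5_0q_p (all_cons f_w648_672_0_5_0q_p (all_cons f_w672_696_0_5_0q_p (all_cons f_w720_744_0_5_0q_p (all_cons f_w744_768_0_5_0q_p (all_cons f_w504_528_0_5_0q_p (all_cons f_w528_552_0_5_0q_p (all_cons f_w648_672_0_40_0q_p (all_cons f_w672_696_0_30_10q_p (all_cons f_w696_720_0_5_0q_p all_nil)))))))))))))))))))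
    (by decide +kernel)
def t29 : Tree := (.sg 96 (.sg 80 (.sR 2496 (.sR 2208 (.sR 2016 (.sr 1792 (.leaf 0x50000002200012800000009c001007) (.sg 72 (.leaf 0x4004400000220011100000000a8401004) (.leaf 0x420540000022002131540049265421000))) (.sR 2112 (.leaf 0x3c0540000428000149400fc787a3c1005) (.leaf 0x3c0600000828001168d4b007e3d3c1005))) (.sR 2304 (.leaf 0x3806c0000c28002178d0cb64951381005) (.sR 2400 (.leaf 0x3a06c000102800317924363a5513a1005) (.leaf 0x3807400014280041891c3e8e765381005)))) (.sR 2784 (.sR 2592 (.leaf 0x3807c00018280051a0e8a350a7a381005) (.sR 2688 (.leaf 0x380800001c280061a154107867a381005) (.leaf 0x3808000020280071a1100cd6a7a381005))) (.sR 2880 (.leaf 0x8800024280081b000000004c001008) (.sR 2976 (.leaf 0x9000028280091c000000006c001008) (.leaf 3))))) (.leaf 3)) (.leaf 3))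
theorem k29 : ChunkP 4 4 1536 2048 64 101 1920 3072 :=
  chkY_sound (Q := 40) (C := [c37.c, c55.c, c56.c]) (Z := [z925, z926, z927, z928, z929, z930, z931, z932, z933, z934])
    (T := [f_w480_504_0_5_0q, f_w504_528_0_5_0q, f_w528_552_0_5_0q, f_w552_576_0_5_0q, f_w576_600_0_5_0q, f_w600_624_0_5_0q, f_w624_648_0_5_0q, f_w648_672_0_5_0q, f_w672_696_0_5_0q, f_w696_720_0_5_0q, f_w720_744_0_5_0q]) (t := t29)
    (all_cons p37 (all_cons p55 (all_cons p56 all_nil)))
    (all_cons z925P (all_cons z926P (all_cons z927P (all_cons z928P (all_cons z929P (all_cons z930P (all_cons z931P (all_cons z932P (all_cons z933P (all_cons z934P all_nil))))))))))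
    (all_cons f_w480_504_0_5_0q_p (all_cons f_w504_528_0_5_0q_p (all_cons f_w528_552_0_5_0q_p (all_cons f_w552_576_0_5_0q_p (all_cons f_w576_600_0_5_0q_p (all_cons f_w600_624_0_5_0q_p (all_cons f_w624_648_0_5_0q_p (all_cons f_w648_672_0_5_0q_p (all_cons f_w672_696_0_5_0q_p (all_cons f_w696_720_0_5_0q_p (all_cons f_w720_744_0_5_0q_p all_nil)))))))))))
    (by decide +kernel)

end Pool.Agent.Lib.MP_af3a4a_an.P1.CHK.DATA.N4s
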