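import Pool.Agent.Lib.MP_af3a4a_an.P1.CHK.SWP.Pay
import Pool.Agent.Lib.MP_af3a4a_an.P1.CHK.DATA.N4s.C0
import Pool.Agent.Lib.MP_af3a4a_an.P1.CHK.DATA.N4s.Z3
import Pool.Agent.Lib.MP_af3a4a_an.P1.CHK.DATA.F4.W480a
import Pool.Agent.Lib.MP_af3a4a_an.P1.CHK.DATA.F4.W480b
import Pool.Agent.Lib.MP_af3a4a_an.P1.CHK.DATA.F4.W528a
import Pool.Agent.Lib.MP_af3a4a_an.P1.CHK.DATA.F4.W528b
import Pool.Agent.Lib.MP_af3a4a_an.P1.CHK.DATA.F4.W576a
import Pool.Agent.Lib.MP_af3a4a_an.P1.CHK.DATA.F4.W624a
import Pool.Agent.Lib.MP_af3a4a_an.P1.CHK.DATA.F4.W672a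
import Pool.Agent.Lib.MP_af3a4a_an.P1.CHK.DATA.F4.W672b
import Pool.Agent.Lib.MP_af3a4a_an.P1.CHK.DATA.F4.W720a
import Pool.Agent.Lib.MP_af3a4a_an.P1.CHK.DATA.F4.W720b

/-! chunks for N = 4 (generated) -/

set_option autoImplicit false
set_option maxRecDepth 100000

namespace Pool.Agent.Lib.MP_af3a4a_an.P1.CHK.DATA.N4s

open BOX SWP

def t30 : Tree := (.sg 4 (.sR 2112 (.sR 2016 (.sr 2176 (.leaf 0x4003804010260001080000000a4401004) (.sg 2 (.leaf 0x4003804010260021080000000a8401004) (.leaf 0x4003804010260031080000000a8401004))) (.leaf 0x3c0003c2800a1180000000a0001008)) (.sR 2208 (.leaf 0x44000242800b1280000000ac001008) (.sr 2176 (.sR 2496 (.sR 2304 (.leaf 0x4c00014280071380000000ac001008) (.sR 2400 (.leaf 0x58000402800c15000000009c001008) (.leaf 0x5c000482800d1580000000a8001008))) (.sR 2688 (.sR 2592 (.leaf 0x6c000182800e1780000000a0001008) (.leaf 0x700001c2800f18000000009c001008)) (.sR 2784 (.leaf 0x7000028280101800000000a0001008) (.sg 2 (.sR 2880 (.leaf 0x78000202801119000000009c001008) (.sR 2976 (.sR 2928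 (.leaf 0x7c00058280121980000000a0001008) (.leaf 0x8c00000280061b800000008c001008)) (.sR 3024 (.leaf 0x9000004280001c0000000094001008) (.leaf 0x9000008280001c0000000098001008)))) (.sR 2928 (.sR 2832 (.leaf 0x880002c280081b0000000098001008) (.sR 2880 (.leaf 0x8800030280081b0000000094001008) (.leaf 0x880000c280061b0000000088001008))) (.sR 2976 (.leaf 0x8c00000280061b800000008c001008) (.sR 3024 (.leaf 0x9000004280001c0000000098001008) (.leaf 0x9000008280001c0000000098001008)))))))) (.sR 2592 (.sR 2400 (.sR 2304 (.leaf 0x4c00014280071380000000a0001008) (.leaf 0x5400044280131480000000a8001008)) (.sR 2496 (.leaf 0x580004c280141500000000a8001008) (.leaf 0x6c00018280151780000000a4001008))) (.sR 2784 (.sR 2688 (.leaf 0x700001c280161800000000a0001008) (.leaf 0x740002828017188000000094001008)) (.sR 2880 (.leaf 0x8000020280181a00000000a0001008) (.sR 2976 (.leaf 0x800005c280191a000000009c001008) (.leaf 0x88000602801a1b0000000098001008)))))))) (.sR 2016 (.sr 2176 (.leaf 0x4003804010260011080000000b0401004) (.sg 6 (.sR 1968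 (.leaf 0x4003c04034260041100000000a8401004) (.leaf 0x48000382801c1300000000a8001008)) (.sR 1968 (.leaf 0x4003c04034260051100000000ac401004) (.leaf 0x48000382801d1300000000ac001008)))) (.sR 2112 (.leaf 0x4003c0003c2801b1180000000b0401006) (.sr 2176 (.sR 2400 (.sR 2208 (.leaf 0x50000242801e140000000098001008) (.sR 2304 (.leaf 0x58000142801f15000000009c001008) (.leaf 0x54000402802014800000009c001008))) (.sR 2592 (.sR 2496 (.leaf 0x5800048280211500000000a8001008) (.leaf 0x64000182802216800000009c001008)) (.sR 2688 (.leaf 0x6c0001c280231780000000a4001008) (.sg 6 (.sR 2880 (.sR 2784 (.sR 2736 (.leaf 0x7c0005028001198000000090001008) (.leaf 0x8000054280011a00000000a0001008)) (.sR 2832 (.leaf 0x840002c280021a800000009c001008) (.leaf 0x8400030280021a800000009c001008))) (.sR 2976 (.sR 2928 (.leaf 0x880000c280031b000000009c001008) (.leaf 0x8800000280031b000000009c001008)) (.sR 3024 (.leaf 0x8400004280091a8000000098001008) (.leaf 0x8c00008280241b800000009c001008)))) (.sR 2880 (.sR 2784 (.sR 2736 (.leaf 0x7c0005028001198000000094001008)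 (.leaf 0x7c0005428001198000000098001008)) (.sR 2832 (.leaf 0x800002c280021a0000000094001008) (.leaf 0x8000030280021a0000000098001008))) (.sR 2976 (.sR 2928 (.leaf 0x840000c280031a8000000094001008) (.leaf 0x8400000280031a8000000098001008)) (.sR 3024 (.leaf 0x8400004280091a800000009c001008) (.leaf 0x8c00008280251b800000009c001008)))))))) (.sR 2496 (.sR 2304 (.sR 2208 (.leaf 0x4400024280261280000000a8001008) (.leaf 0x5000014280271400000000a0001008)) (.sR 2400 (.leaf 0x5800044280281500000000a0001008) (.leaf 0x5c0004c28029158000000098001008))) (.sR 2688 (.sR 2592 (.leaf 0x64000182802a16800000009c001008) (.leaf 0x680001c2802b1700000000a4001008)) (.sR 2784 (.leaf 0x70000282802c1800000000a0001008) (.sg 6 (.sR 2880 (.leaf 0x78000202802d1900000000a0001008) (.sR 2976 (.sR 2928 (.leaf 0x880000c280041b000000008c001008) (.leaf 0x9000000280041c0000000098001008)) (.sR 3024 (.leaf 0x9400004280051c8000000094001008) (.leaf 0x9800008280051d000000008c001008)))) (.sR 2880 (.leaf 0x78000202802e19000000009c001008) (.sR 2976 (.sR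 2928 (.leaf 0x880000c280041b0000000090001008) (.leaf 0x9000000280041c000000009c001008)) (.sR 3024 (.leaf 0x9000004280051c000000008c001008) (.leaf 0x9800008280051d0000000090001008))))))))))))
theorem k30 : ChunkP 4 4 2048 2304 0 8 1920 3072 :=
  chkY_sound (Q := 40) (C := [c83.c, c84.c, c119.c, c120.c, c121.c, c122.c]) (Z := [z946, z965, z966, z967, z979, z980, z945, z937, z947, z968, z935, z936, z938, z939, z940, z941, z942, z943, z944, z948, z949, z950, z951, z952, z953, z954, z955, z956, z957, z958, z959, z960, z961, z962, z963, z964, z969, z970, z971, z972, z973, z974, z975, z976, z977, z978, z981])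
    (T := [f_w732_744_0_50_10q, f_w744_756_0_50_0q, f_w756_768_0_50_10q, f_w720_732_0_50_20q, f_w480_504_0_50_0q, f_w552_576_0_50_0q, f_w624_648_0_50_10q, f_w648_672_0_50_0q, f_w696_720_0_50_0q, f_w528_552_0_50_0q, f_w672_696_0_50_10q, f_w696_708_0_50_10q, f_w708_720_0_50_10q, f_w480_492_0_50_20q, f_w492_504_0_50_20q, f_w504_528_0_50_0q, f_w576_600_0_40_0q, f_w576_600_0_50_10q, f_w600_624_0_40_0q, f_w600_624_0_50_10q, f_w672_684_0_50_10q, f_w684_696_0_50_10q, f_w720_732_0_40_0q, f_w720_744_0_50_0q, f_w744_768_0_50_0q]) (t := t30)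
    (all_cons p83 (all_cons p84 (all_cons p119 (all_cons p120 (all_cons p121 (all_cons p122 all_nil))))))
    (all_cons z946P (all_cons z965P (all_cons z966P (all_cons z967P (all_cons z979P (all_cons z980P (all_cons z945P (all_cons z937P (all_cons z947P (all_cons z968P (all_cons z935P (all_cons z936P (all_cons z938P (all_cons z939P (all_cons z940P (all_cons z941P (all_cons z942P (all_cons z943P (all_cons z944P (all_cons z948P (all_cons z949P (all_cons z950P (all_cons z951P (all_cons z952P (all_cons z953P (all_cons z954P (all_cons z955P (all_cons z956P (all_cons z957P (all_cons z958P (all_cons z959P (all_cons z960P (all_cons z961P (all_cons z962P (all_cons z963P (all_cons z964P (all_cons z969P (all_cons z970P (all_cons z971P (all_cons z972P (all_cons z973P (all_cons z974P (all_cons z975P (all_cons z976P (all_cons z977P (all_cons z978P (all_cons z981P all_nil)))))))))))))))))))))))))))))))))))))))))))))))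
    (all_cons f_w732_744_0_50_10q_p (all_cons f_w744_756_0_50_0q_p (all_cons f_w756_768_0_50_10q_p (all_cons f_w720_732_0_50_20q_p (all_cons f_w480_504_0_50_0q_p (all_cons f_w552_576_0_50_0q_p (all_cons f_w624_648_0_50_10q_p (all_cons f_w648_672_0_50_0q_p (all_cons f_w696_720_0_50_0q_p (all_cons f_w528_552_0_50_0q_p (all_cons f_w672_696_0_50_10q_p (all_cons f_w696_708_0_50_10q_p (all_cons f_w708_720_0_50_10q_p (all_cons f_w480_492_0_50_20q_p (all_cons f_w492_504_0_50_20q_p (all_cons f_w504_528_0_50_0q_p (all_cons f_w576_600_0_40_0q_p (all_cons f_w576_600_0_50_10q_p (all_cons f_w600_624_0_40_0q_p (all_cons f_w600_624_0_50_10q_p (all_cons f_w672_684_0_50_10q_p (all_cons f_w684_696_0_50_10q_p (all_cons f_w720_732_0_40_0q_p (all_cons f_w720_744_0_50_0q_p (all_cons f_w744_768_0_50_0q_p all_nil)))))))))))))))))))))))))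
    (by decide +kernel)
def t31 : Tree := (.sg 4 (.sr 2432 (.sR 2496 (.sR 2208 (.sR 2016 (.sg 2 (.leaf 0x4003800034260001080000000b0401004) (.sR 1968 (.leaf 0x38040002600110800000009c001007) (.leaf 0x40000042800b12000000009c001008))) (.sR 2112 (.leaf 0x4000020280001200000000a8001008) (.leaf 0x4800024280011300000000ac001008))) (.sR 2304 (.leaf 0x4c0002828002138000000098001008) (.sR 2400 (.leaf 0x580002c280031500000000a8001008) (.leaf 0x5c0000828004158000000098001008)))) (.sR 2784 (.sR 2592 (.leaf 0x680000c280051700000000a4001008) (.sR 2688 (.leaf 0x70000102800618000000009c001008) (.leaf 0x780001428007190000000094001008))) (.sR 2880 (.leaf 0x8000018280081a0000000094001008) (.sR 2976 (.leaf 0x880001c280091b0000000098001008) (.leaf 0x90000302800a1c0000000094001008))))) (.sR 2496 (.sR 2208 (.sR 2016 (.sg 2 (.sR 1968 (.leaf 0x4003804000260041080000000b0401004) (.leaf 0x3c0000428017118000000098001008)) (.sR 1968 (.leaf 0x4003804000260051080000000b0401004) (.leaf 0x3c000042801811800000009c001008))) (.sR 2112 (.leaf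 0x3c000202800c1180000000ac001008) (.leaf 0x44000242800d1280000000a8001008))) (.sR 2304 (.leaf 0x4c000282800e1380000000a4001008) (.sR 2400 (.leaf 0x540002c2800f1480000000a0001008) (.leaf 0x5c00008280101580000000a0001008)))) (.sR 2784 (.sR 2592 (.leaf 0x640000c28011168000000098001008) (.sR 2688 (.leaf 0x6c0001028012178000000094001008) (.leaf 0x780001428013190000000098001008))) (.sR 2880 (.leaf 0x8400018280141a8000000098001008) (.sR 2976 (.leaf 0x880001c280151b0000000090001008) (.leaf 0x9400030280161c800000008c001008)))))) (.sr 2432 (.sR 2496 (.sR 2208 (.sR 2016 (.sg 6 (.sR 1968 (.leaf 0x4003804000260021080000000a8401004) (.leaf 0x4000004280241200000000a0001008)) (.sR 1968 (.leaf 0x4003804000260031080000000ac401004) (.leaf 0x4000004280251200000000a8001008))) (.sR 2112 (.leaf 0x3c00020280191180000000a0001008) (.leaf 0x44000242801a1280000000a4001008))) (.sR 2304 (.leaf 0x4c000282801b13800000009c001008) (.sR 2400 (.leaf 0x540002c2801c14800000009c001008) (.leaf 0x58000082801d1500000000a8001008)))) (.sR 2784 (.sR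 2592 (.leaf 0x600000c2801e1600000000a4001008) (.sR 2688 (.leaf 0x6c000102801f1780000000a4001008) (.leaf 0x7400014280201880000000a0001008))) (.sR 2880 (.leaf 0x78000182802119000000009c001008) (.sR 2976 (.leaf 0x800001c280221a00000000a0001008) (.leaf 0x8810048280231b000000009c001008))))) (.sR 2496 (.sR 2208 (.sR 2016 (.sg 6 (.sR 1968 (.leaf 0x4003404000260061000000000a0401004) (.leaf 0x3c00004280311180000000a4001008)) (.sR 1968 (.leaf 0x4003404000260071000000000a8401004) (.leaf 0x3c00004280321180000000a8001008))) (.sR 2112 (.leaf 0x3c00038280261180000000a8001008) (.leaf 0x440003c2802712800000009c001008))) (.sR 2304 (.leaf 0x4c0004028028138000000098001008) (.sR 2400 (.leaf 0x5800044280291500000000a4001008) (.leaf 0x58000082802a1500000000a8001008)))) (.sR 2784 (.sR 2592 (.leaf 0x600000c2802b1600000000a4001008) (.sR 2688 (.leaf 0x68000102802c1700000000a4001008) (.leaf 0x74000142802d1880000000a0001008))) (.sR 2880 (.leaf 0x7c000182802e198000000094001008) (.sR 2976 (.leaf 0x800001c2802f1a000000009c001008) (.leaf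 0x8c00030280301b8000000090001008)))))))
theorem k31 : ChunkP 4 4 2304 2560 0 8 1920 3072 :=
  chkY_sound (Q := 40) (C := [c163.c, c164.c, c165.c, c166.c, c219.c, c220.c, c221.c, c222.c]) (Z := [z982, z983, z984, z985, z986, z987, z988, z989, z990, z991, z992, z993, z994, z995, z996, z997, z998, z999, z1000, z1001, z1002, z1003, z1004, z1005, z1006, z1007, z1008, z1009, z1010, z1011, z1012, z1013, z1014, z1015, z1016, z1017, z1018, z1019, z1020, z1021, z1022, z1023, z1024, z1025, z1026, z1027, z1028, z1029, z1030, z1031, z1032])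
    (T := [f_w480_492_0_50_20q, f_w492_504_0_50_20q, f_w600_624_0_50_10q, f_w624_648_0_50_10q, f_w648_672_0_50_0q, f_w672_696_0_50_10q, f_w696_720_0_50_0q, f_w720_744_0_50_0q, f_w504_528_0_50_0q, f_w528_552_0_50_0q, f_w552_576_0_50_0q, f_w576_600_0_50_10q, f_w744_768_0_50_0q, f_w480_504_0_60_0q, f_w504_528_0_60_0q, f_w528_552_0_60_10q, f_w552_576_0_60_0q, f_w576_600_0_60_0q, f_w744_768_0_60_0q]) (t := t31)
    (all_cons p163 (all_cons p164 (all_cons p165 (all_cons p166 (all_cons p219 (all_cons p220 (all_cons p221 (all_cons p222 all_nil))))))))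
    (all_cons z982P (all_cons z983P (all_cons z984P (all_cons z985P (all_cons z986P (all_cons z987P (all_cons z988P (all_cons z989P (all_cons z990P (all_cons z991P (all_cons z992P (all_cons z993P (all_cons z994P (all_cons z995P (all_cons z996P (all_cons z997P (all_cons z998P (all_cons z999P (all_cons z1000P (all_cons z1001P (all_cons z1002P (all_cons z1003P (all_cons z1004P (all_cons z1005P (all_cons z1006P (all_cons z1007P (all_cons z1008P (all_cons z1009P (all_cons z1010P (all_cons z1011P (all_cons z1012P (all_cons z1013P (all_cons z1014P (all_cons z1015P (all_cons z1016P (all_cons z1017P (all_cons z1018P (all_cons z1019P (all_cons z1020P (all_cons z1021P (all_cons z1022P (all_cons z1023P (all_cons z1024P (all_cons z1025P (all_cons z1026P (all_cons z1027P (all_cons z1028P (all_cons z1029P (all_cons z1030P (all_cons z1031P (all_cons z1032P all_nil)))))))))))))))))))))))))))))))))))))))))))))))))))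
    (all_cons f_w480_492_0_50_20q_p (all_cons f_w492_504_0_50_20q_p (all_cons f_w600_624_0_50_10q_p (all_cons f_w624_648_0_50_10q_p (all_cons f_w648_672_0_50_0q_p (all_cons f_w672_696_0_50_10q_p (all_cons f_w696_720_0_50_0q_p (all_cons f_w720_744_0_50_0q_p (all_cons f_w504_528_0_50_0q_p (all_cons f_w528_552_0_50_0q_p (all_cons f_w552_576_0_50_0q_p (all_cons f_w576_600_0_50_10q_p (all_cons f_w744_768_0_50_0q_p (all_cons f_w480_504_0_60_0q_p (all_cons f_w504_528_0_60_0q_p (all_cons f_w528_552_0_60_10q_p (all_cons f_w552_576_0_60_0q_p (all_cons f_w576_600_0_60_0q_p (all_cons f_w744_768_0_60_0q_p all_nil)))))))))))))))))))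
    (by decide +kernel)
def t32 : Tree := (.sr 2176 (.sR 2304 (.sR 2112 (.sR 2016 (.sg 10 (.leaf 0x4003804044260001080000000b0401004) (.sR 1968 (.leaf 0x3c04020260011100000000a4001007) (.leaf 0x48000242800f130000000084001008))) (.leaf 0x4003c0002c280071180000000b0401006)) (.sR 2208 (.leaf 0x50000302800a1400000000a4001008) (.leaf 0x54000342800b148000000098001008))) (.sR 2496 (.sR 2400 (.leaf 0x54000482800c1480000000a8001008) (.leaf 0x5c000382800d1580000000a0001008)) (.sR 2592 (.leaf 0x600003c2800e1600000000a4001008) (.sg 10 (.sR 2688 (.leaf 0x6c00028280101780000000a4001008) (.sR 2880 (.sR 2784 (.sR 2736 (.leaf 0x7c0000428000198000000094001008) (.leaf 0x7c0000828000198000000098001008)) (.sR 2832 (.leaf 0x7c0000c2800519800000009c001008) (.leaf 0x78000102800519000000009c001008))) (.sR 2976 (.sR 2928 (.leaf 0x7c000142800819800000009c001008) (.leaf 0x8400018280111a8000000098001008)) (.sR 3024 (.leaf 0x8800000280121b0000000098001008) (.sr 2112 (.leaf 0x8c00040280131b800000009c001008) (.leaf 0x940001c280061c8000000098001008))))))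 (.sR 2688 (.leaf 0x6800028280141700000000a4001008) (.sR 2832 (.sR 2736 (.leaf 0x7c000042800019800000009c001008) (.sR 2784 (.leaf 0x7c00008280001980000000a0001008) (.leaf 0x780000c2800519000000009c001008))) (.sR 2928 (.sR 2880 (.leaf 0x7c000102801519800000009c001008) (.leaf 0x7c00014280081980000000a0001008)) (.sR 2976 (.leaf 0x8000018280161a000000009c001008) (.sr 2112 (.sR 3024 (.leaf 0x8400000280171a8000000098001008) (.leaf 0x8800040280181b000000009c001008)) (.sR 3024 (.leaf 0x9000000280061c000000009c001008) (.leaf 0x900001c280061c0000000098001008))))))))))) (.sR 2304 (.sR 2112 (.sR 2016 (.sg 10 (.sR 1968 (.leaf 0x4003804020260021080000000a4401004) (.leaf 0x44000242801e128000000098001008)) (.sR 1968 (.leaf 0x4003804020260031080000000a8401004) (.leaf 0x44000242801f12800000009c001008))) (.leaf 0x4003c0002c280071180000000b0401006)) (.sR 2208 (.leaf 0x4800030280191300000000a8001008) (.leaf 0x4c000342801a13800000009c001008))) (.sR 2496 (.sR 2400 (.leaf 0x540004c2801b1480000000a4001008) (.leaf 0x58000382801c1500000000a8001008))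 (.sR 2592 (.leaf 0x600003c2801d1600000000a4001008) (.sg 10 (.sR 2688 (.leaf 0x6800028280201700000000a4001008) (.sR 2880 (.sR 2784 (.sR 2736 (.leaf 0x780000428001190000000094001008) (.leaf 0x7c0000828001198000000098001008)) (.sR 2832 (.leaf 0x800000c280021a0000000094001008) (.leaf 0x8400010280021a800000009c001008))) (.sR 2976 (.sR 2928 (.leaf 0x8400014280031a800000009c001008) (.leaf 0x8800018280031b000000009c001008)) (.sR 3024 (.leaf 0x8c00000280041b800000009c001008) (.leaf 0x900001c280041c000000009c001008))))) (.sR 2832 (.sR 2688 (.sR 2640 (.leaf 0x700005028009180000000094001008) (.leaf 0x7400054280091880000000a0001008)) (.sR 2736 (.leaf 0x780000428001190000000098001008) (.sR 2784 (.leaf 0x7c00008280011980000000a0001008) (.leaf 0x800000c280021a000000009c001008)))) (.sR 2928 (.sR 2880 (.leaf 0x8000010280021a0000000098001008) (.leaf 0x8000014280031a0000000098001008)) (.sR 2976 (.leaf 0x8400018280031a800000009c001008) (.sR 3024 (.leaf 0x8800000280041b000000009c001008) (.leaf 0x880001c280041b0000000098001008))))))))))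
theorem k32 : ChunkP 4 4 2048 2304 8 12 1920 3072 :=
  chkY_sound (Q := 40) (C := [c85.c, c86.c, c123.c, c124.c]) (Z := [z1041, z1061, z1062, z1063, z1064, z1042, z1047, z1033, z1043, z1065, z1034, z1035, z1036, z1037, z1038, z1039, z1040, z1044, z1045, z1046, z1048, z1049, z1050, z1051, z1052, z1053, z1054, z1055, z1056, z1057, z1058, z1059, z1060])
    (T := [f_w744_756_0_50_0q, f_w672_684_0_50_10q, f_w684_696_0_50_10q, f_w696_708_0_50_10q, f_w708_720_0_50_10q, f_w720_732_0_50_20q, f_w732_744_0_50_10q, f_w756_768_0_50_10q, f_w480_492_0_50_20q, f_w492_504_0_50_20q, f_w648_672_0_50_0q, f_w504_528_0_50_0q, f_w528_552_0_50_0q, f_w552_576_0_50_0q, f_w600_624_0_50_10q, f_w624_648_0_50_10q, f_w756_768_0_40_0q, f_w480_504_0_50_0q, f_w576_600_0_40_0q, f_w576_600_0_50_10q, f_w648_660_0_50_10q, f_w660_672_0_50_10q]) (t := t32)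
    (all_cons p85 (all_cons p86 (all_cons p123 (all_cons p124 all_nil))))
    (all_cons z1041P (all_cons z1061P (all_cons z1062P (all_cons z1063P (all_cons z1064P (all_cons z1042P (all_cons z1047P (all_cons z1033P (all_cons z1043P (all_cons z1065P (all_cons z1034P (all_cons z1035P (all_cons z1036P (all_cons z1037P (all_cons z1038P (all_cons z1039P (all_cons z1040P (all_cons z1044P (all_cons z1045P (all_cons z1046P (all_cons z1048P (all_cons z1049P (all_cons z1050P (all_cons z1051P (all_cons z1052P (all_cons z1053P (all_cons z1054P (all_cons z1055P (all_cons z1056P (all_cons z1057P (all_cons z1058P (all_cons z1059P (all_cons z1060P all_nil)))))))))))))))))))))))))))))))))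
    (all_cons f_w744_756_0_50_0q_p (all_cons f_w672_684_0_50_10q_p (all_cons f_w684_696_0_50_10q_p (all_cons f_w696_708_0_50_10q_p (all_cons f_w708_720_0_50_10q_p (all_cons f_w720_732_0_50_20q_p (all_cons f_w732_744_0_50_10q_p (all_cons f_w756_768_0_50_10q_p (all_cons f_w480_492_0_50_20q_p (all_cons f_w492_504_0_50_20q_p (all_cons f_w648_672_0_50_0q_p (all_cons f_w504_528_0_50_0q_p (all_cons f_w528_552_0_50_0q_p (all_cons f_w552_576_0_50_0q_p (all_cons f_w600_624_0_50_10q_p (all_cons f_w624_648_0_50_10q_p (all_cons f_w756_768_0_40_0q_p (all_cons f_w480_504_0_50_0q_p (all_cons f_w576_600_0_40_0q_p (all_cons f_w576_600_0_50_10q_p (all_cons f_w648_660_0_50_10q_p (all_cons f_w660_672_0_50_10q_p all_nil))))))))))))))))))))))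
    (by decide +kernel)
def t33 : Tree := (.sr 2176 (.sR 2208 (.sR 2016 (.sg 14 (.sR 1968 (.leaf 0x4003c04008260001100000000ac401004) (.leaf 0x480000c2800f130000000084001008)) (.sR 1968 (.leaf 0x4003c00008240011080000000a4401004) (.leaf 0x480000c28010130000000088001008))) (.sR 2112 (.leaf 0x480003c2800a1300000000a8001008) (.leaf 0x4c000402800b13800000009c001008))) (.sR 2400 (.sR 2304 (.leaf 0x54000442800c1480000000a8001008) (.leaf 0x58000282800d1500000000a4001008)) (.sR 2496 (.leaf 0x5c0002c2800e1580000000a0001008) (.sg 14 (.sR 2592 (.leaf 0x6000010280111600000000a4001008) (.sR 2784 (.sR 2688 (.sR 2640 (.leaf 0x7400030280001880000000a0001008) (.leaf 0x7400034280001880000000a0001008)) (.sR 2736 (.leaf 0x78000142800119000000009c001008) (.leaf 0x74000182800118800000009c001008))) (.sR 2880 (.sR 2832 (.leaf 0x7c0001c2800419800000009c001008) (.leaf 0x78000202800419000000009c001008)) (.sR 2928 (.leaf 0x7c000242801219800000009c001008) (.sR 2976 (.leaf 0x8000038280131a00000000a0001008) (.sr 2112 (.sR 3024 (.leaf 0x9800000280141d000000008c001008)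 (.leaf 0x9c00004280151d800000007c001008)) (.sR 3024 (.leaf 0x8400000280161a8000000098001008) (.leaf 0x9000004280171c0000000094001008)))))))) (.sR 2592 (.leaf 0x6000010280181600000000a4001008) (.sR 2784 (.sR 2688 (.sR 2640 (.leaf 0x70000302800018000000009c001008) (.leaf 0x7000034280001800000000a0001008)) (.sR 2736 (.leaf 0x74000142800118800000009c001008) (.leaf 0x7000018280011800000000a0001008))) (.sR 2880 (.sR 2832 (.leaf 0x780001c280191900000000a0001008) (.leaf 0x78000202801a19000000009c001008)) (.sR 2928 (.leaf 0x80000242801b1a00000000a0001008) (.sr 2112 (.sR 2976 (.leaf 0x80000482801c1a000000009c001008) (.sR 3024 (.leaf 0x94000002801d1c8000000088001008) (.leaf 0x9c000042801e1d8000000084001008))) (.sR 2976 (.leaf 0x80000482801f1a00000000a0001008) (.sR 3024 (.leaf 0x8c00000280051b800000009c001008) (.leaf 0x8800004280051b0000000098001008)))))))))))) (.sR 2112 (.sR 2016 (.sg 14 (.sR 1968 (.leaf 0x4003800008240021000000000a0401004) (.leaf 0x440000c280231280000000a0001008)) (.sR 1968 (.leaf 0x4003800008240031000000000a0401004)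 (.leaf 0x440000c280241280000000a4001008))) (.leaf 0x3c0003c2802011800000009c001008)) (.sR 2208 (.leaf 0x4400040280211280000000a4001008) (.sR 2304 (.leaf 0x4c00044280221380000000ac001008) (.sg 14 (.sR 2496 (.sR 2400 (.leaf 0x54000282802514800000009c001008) (.leaf 0x580002c280261500000000a8001008)) (.sR 2592 (.leaf 0x6000010280271600000000a4001008) (.sR 2688 (.leaf 0x680004c280281700000000a4001008) (.sR 2880 (.sR 2784 (.sR 2736 (.leaf 0x7400014280021880000000a0001008) (.leaf 0x7400018280021880000000a0001008)) (.sR 2832 (.leaf 0x780001c2800319000000009c001008) (.leaf 0x78000202800319000000009c001008))) (.sR 2976 (.sR 2928 (.leaf 0x8400024280061a800000009c001008) (.leaf 0x8400038280061a8000000098001008)) (.sR 3024 (.leaf 0x8800000280071b0000000094001008) (.leaf 0x8c00004280071b8000000098001008))))))) (.sR 2496 (.sR 2400 (.leaf 0x5400028280291480000000a4001008) (.leaf 0x580002c2802a1500000000a8001008)) (.sR 2592 (.leaf 0x60000102802b1600000000a4001008) (.sR 2832 (.sR 2688 (.sR 2640 (.leaf 0x70000302800818000000009c001008)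 (.leaf 0x70000342800818000000009c001008)) (.sR 2736 (.leaf 0x70000142800218000000009c001008) (.sR 2784 (.leaf 0x7000018280021800000000a0001008) (.leaf 0x740001c280031880000000a0001008)))) (.sR 2928 (.sR 2880 (.leaf 0x80000202802c1a000000009c001008) (.leaf 0x8000024280091a00000000a0001008)) (.sR 2976 (.leaf 0x8000038280091a000000009c001008) (.sR 3024 (.leaf 0x84000002802d1a8000000098001008) (.leaf 0x8c000042802e1b8000000098001008))))))))))))
theorem k33 : ChunkP 4 4 2048 2304 12 16 1920 3072 :=
  chkY_sound (Q := 40) (C := [c87.c, c88.c, c125.c, c126.c]) (Z := [z1074, z1075, z1101, z1102, z1076, z1091, z1103, z1104, z1108, z1110, z1066, z1067, z1068, z1069, z1070, z1071, z1072, z1073, z1077, z1078, z1079, z1080, z1081, z1082, z1083, z1084, z1085, z1086, z1087, z1088, z1089, z1090, z1092, z1093, z1094, z1095, z1096, z1097, z1098, z1099, z1100, z1105, z1106, z1107, z1109, z1111, z1112])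
    (T := [f_w744_756_0_50_0q, f_w756_768_0_50_10q, f_w480_492_0_50_20q, f_w492_504_0_50_20q, f_w624_648_0_50_10q, f_w672_684_0_50_10q, f_w684_696_0_50_10q, f_w696_708_0_50_10q, f_w708_720_0_50_10q, f_w720_732_0_50_20q, f_w576_600_0_50_10q, f_w600_624_0_50_10q, f_w648_660_0_50_10q, f_w660_672_0_50_10q, f_w732_744_0_50_10q, f_w504_528_0_50_0q, f_w528_552_0_50_0q, f_w552_576_0_50_0q, f_w732_744_0_40_0q, f_w648_672_0_50_0q]) (t := t33)
    (all_cons p87 (all_cons p88 (all_cons p125 (all_cons p126 all_nil))))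
    (all_cons z1074P (all_cons z1075P (all_cons z1101P (all_cons z1102P (all_cons z1076P (all_cons z1091P (all_cons z1103P (all_cons z1104P (all_cons z1108P (all_cons z1110P (all_cons z1066P (all_cons z1067P (all_cons z1068P (all_cons z1069P (all_cons z1070P (all_cons z1071P (all_cons z1072P (all_cons z1073P (all_cons z1077P (all_cons z1078P (all_cons z1079P (all_cons z1080P (all_cons z1081P (all_cons z1082P (all_cons z1083P (all_cons z1084P (all_cons z1085P (all_cons z1086P (all_cons z1087P (all_cons z1088P (all_cons z1089P (all_cons z1090P (all_cons z1092P (all_cons z1093P (all_cons z1094P (all_cons z1095P (all_cons z1096P (all_cons z1097P (all_cons z1098P (all_cons z1099P (all_cons z1100P (all_cons z1105P (all_cons z1106P (all_cons z1107P (all_cons z1109P (all_cons z1111P (all_cons z1112P all_nil)))))))))))))))))))))))))))))))))))))))))))))))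
    (all_cons f_w744_756_0_50_0q_p (all_cons f_w756_768_0_50_10q_p (all_cons f_w480_492_0_50_20q_p (all_cons f_w492_504_0_50_20q_p (all_cons f_w624_648_0_50_10q_p (all_cons f_w672_684_0_50_10q_p (all_cons f_w684_696_0_50_10q_p (all_cons f_w696_708_0_50_10q_p (all_cons f_w708_720_0_50_10q_p (all_cons f_w720_732_0_50_20q_p (all_cons f_w576_600_0_50_10q_p (all_cons f_w600_624_0_50_10q_p (all_cons f_w648_660_0_50_10q_p (all_cons f_w660_672_0_50_10q_p (all_cons f_w732_744_0_50_10q_p (all_cons f_w504_528_0_50_0q_p (all_cons f_w528_552_0_50_0q_p (all_cons f_w552_576_0_50_0q_p (all_cons f_w732_744_0_40_0q_p (all_cons f_w648_672_0_50_0q_p all_nil))))))))))))))))))))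
    (by decide +kernel)
def t34 : Tree := (.sr 2432 (.sR 2208 (.sR 2016 (.sg 10 (.sR 1968 (.leaf 0x4003404004260001000000000a0401004) (.leaf 0x4000000280081200000000ac001008)) (.sR 1968 (.leaf 0x4003404004260011000000000a4401004) (.leaf 0x4000000280091200000000a4001008))) (.sR 2112 (.leaf 0x4003c00038280041180000000b0401006) (.sg 10 (.leaf 0x440000c2800a1280000000a8001008) (.leaf 0x440000c2800b1280000000a0001008)))) (.sR 2400 (.sR 2304 (.leaf 0x4c0003c280051380000000ac001008) (.leaf 0x5400018280061480000000a8001008)) (.sR 2496 (.leaf 0x580001c280071500000000a8001008) (.sg 10 (.sR 2784 (.sR 2592 (.leaf 0x60000202800c1600000000a4001008) (.sR 2688 (.leaf 0x68000242800d1700000000a4001008) (.leaf 0x74000282800e1880000000a0001008))) (.sR 2880 (.leaf 0x78000502800f19000000009c001008) (.sR 2976 (.leaf 0x8000060280101a00000000a0001008) (.sR 3024 (.leaf 0x900002c280001c0000000094001008) (.leaf 0x9c00030280001d8000000098001008))))) (.sR 2688 (.sR 2592 (.leaf 0x6000020280111600000000a4001008) (.leaf 0x6800024280121700000000a4001008))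 (.sR 2784 (.leaf 0x7000028280131800000000a0001008) (.sR 2928 (.sR 2832 (.leaf 0x800004c280011a00000000a0001008) (.sR 2880 (.leaf 0x8400058280011a800000009c001008) (.leaf 0x880005c280021b0000000094001008))) (.sR 2976 (.leaf 0x9000068280021c0000000098001008) (.sR 3024 (.leaf 0x8c0002c280001b8000000090001008) (.leaf 0x9800030280001d0000000090001008)))))))))) (.sR 2592 (.sR 2400 (.sR 2304 (.sg 10 (.sR 2112 (.sR 2016 (.sR 1968 (.leaf 0x4003404004260021000000000b0401004) (.leaf 0x4003c000002801e1180000000b0401006)) (.leaf 0x3c000082801c1180000000ac001008)) (.sR 2208 (.leaf 0x44000102801d1280000000ac001008) (.leaf 0x4c00014280031380000000ac001008))) (.sR 2112 (.sR 2016 (.sR 1968 (.leaf 0x4003404034260031000000000a4401004) (.leaf 0x38000002802111000000009c001008)) (.leaf 0x3c000082801f1180000000a8001008)) (.sR 2208 (.leaf 0x4400010280201280000000a8001008) (.leaf 0x4c00014280031380000000ac001008)))) (.leaf 0x5400018280141480000000a8001008)) (.sR 2496 (.leaf 0x5c0001c280151580000000a4001008) (.leaf 0x640004028016168000000098001008)))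 (.sR 2784 (.sR 2688 (.leaf 0x70000442801718000000009c001008) (.leaf 0x7800048280181900000000a0001008)) (.sR 2880 (.leaf 0x8400054280191a8000000098001008) (.sR 2976 (.leaf 0x90140642801a1c0000000094001008) (.leaf 0x981006c2801b1d0000000070001008))))))
theorem k34 : ChunkP 4 4 2304 2560 8 12 1920 3072 :=
  chkY_sound (Q := 40) (C := [c167.c, c168.c, c223.c, c224.c]) (Z := [z1126, z1130, z1131, z1142, z1113, z1114, z1115, z1116, z1117, z1118, z1119, z1120, z1121, z1122, z1123, z1124, z1125, z1127, z1128, z1129, z1132, z1133, z1134, z1135, z1136, z1137, z1138, z1139, z1140, z1141, z1143, z1144, z1145, z1146])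
    (T := [f_w492_504_0_50_20q, f_w480_492_0_50_20q, f_w504_528_0_60_0q, f_w528_552_0_50_0q, f_w528_552_0_60_10q, f_w552_576_0_60_0q, f_w576_600_0_60_0q, f_w600_624_0_60_0q, f_w624_648_0_50_10q, f_w648_672_0_50_0q, f_w672_696_0_50_10q, f_w744_756_0_50_0q, f_w756_768_0_50_10q, f_w480_492_0_60_10q, f_w504_528_0_50_0q, f_w552_576_0_50_0q, f_w624_648_0_60_0q, f_w648_672_0_60_0q, f_w672_696_0_60_0q, f_w696_708_0_50_10q, f_w696_720_0_50_0q, f_w696_720_0_60_0q, f_w708_720_0_50_10q, f_w720_732_0_50_20q, f_w720_744_0_50_0q, f_w720_744_0_60_0q, f_w732_744_0_50_10q, f_w744_768_0_60_0q]) (t := t34)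
    (all_cons p167 (all_cons p168 (all_cons p223 (all_cons p224 all_nil))))
    (all_cons z1126P (all_cons z1130P (all_cons z1131P (all_cons z1142P (all_cons z1113P (all_cons z1114P (all_cons z1115P (all_cons z1116P (all_cons z1117P (all_cons z1118P (all_cons z1119P (all_cons z1120P (all_cons z1121P (all_cons z1122P (all_cons z1123P (all_cons z1124P (all_cons z1125P (all_cons z1127P (all_cons z1128P (all_cons z1129P (all_cons z1132P (all_cons z1133P (all_cons z1134P (all_cons z1135P (all_cons z1136P (all_cons z1137P (all_cons z1138P (all_cons z1139P (all_cons z1140P (all_cons z1141P (all_cons z1143P (all_cons z1144P (all_cons z1145P (all_cons z1146P all_nil))))))))))))))))))))))))))))))))))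
    (all_cons f_w492_504_0_50_20q_p (all_cons f_w480_492_0_50_20q_p (all_cons f_w504_528_0_60_0q_p (all_cons f_w528_552_0_50_0q_p (all_cons f_w528_552_0_60_10q_p (all_cons f_w552_576_0_60_0q_p (all_cons f_w576_600_0_60_0q_p (all_cons f_w600_624_0_60_0q_p (all_cons f_w624_648_0_50_10q_p (all_cons f_w648_672_0_50_0q_p (all_cons f_w672_696_0_50_10q_p (all_cons f_w744_756_0_50_0q_p (all_cons f_w756_768_0_50_10q_p (all_cons f_w480_492_0_60_10q_p (all_cons f_w504_528_0_50_0q_p (all_cons f_w552_576_0_50_0q_p (all_cons f_w624_648_0_60_0q_p (all_cons f_w648_672_0_60_0q_p (all_cons f_w672_696_0_60_0q_p (all_cons f_w696_708_0_50_10q_p (all_cons f_w696_720_0_50_0q_p (all_cons f_w696_720_0_60_0q_p (all_cons f_w708_720_0_50_10q_p (all_cons f_w720_732_0_50_20q_p (all_cons f_w720_744_0_50_0q_p (all_cons f_w720_744_0_60_0q_p (all_cons f_w732_744_0_50_10q_p (all_cons f_w744_768_0_60_0q_p all_nil))))))))))))))))))))))))))))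
    (by decide +kernel)
def t35 : Tree := (.sr 2432 (.sg 14 (.sR 2208 (.sR 2016 (.sR 1968 (.leaf 0x4003404000260011000000000ac401004) (.leaf 0x4000004280111200000000a8001008)) (.sR 2112 (.leaf 0x3c0006c2800c1180000000ac001008) (.leaf 0x44000142800d1280000000a4001008))) (.sR 2400 (.sR 2304 (.leaf 0x4c0001c2800e1380000000a8001008) (.leaf 0x54000802800f1480000000a8001008)) (.sR 2496 (.leaf 0x5800028280101500000000a8001008) (.sR 2784 (.sR 2640 (.sR 2544 (.leaf 0x6400030280001680000000a0001008) (.sR 2592 (.leaf 0x6400038280001680000000a4001008) (.leaf 0x6c0003c28001178000000098001008))) (.sR 2688 (.leaf 0x6c0004028001178000000098001008) (.sR 2736 (.leaf 0x7400044280021880000000a0001008) (.leaf 0x780004c280021900000000a0001008)))) (.sR 2928 (.sR 2832 (.leaf 0x7800050280031900000000a0001008) (.sR 2880 (.leaf 0x7c000542800319800000009c001008) (.leaf 0x8000058280041a000000009c001008))) (.sR 2976 (.leaf 0x840005c280041a8000000094001008) (.sR 3024 (.leaf 0x8400060280061a8000000098001008) (.leaf 0x8c00064280061b8000000098001008))))))))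 (.sR 2304 (.sR 2112 (.sR 2016 (.sR 1968 (.sr 2368 (.leaf 0x4003804000260001080000000a8401004) (.leaf 0x4003404000260021000000000a0401004)) (.leaf 0x4000004280151200000000ac001008)) (.sR 2064 (.leaf 0x3c00008280071180000000a0001008) (.leaf 0x400000c280071200000000a4001008))) (.sR 2208 (.leaf 0x4400014280121280000000a8001008) (.leaf 0x4c0001c280131380000000ac001008))) (.sR 2400 (.sR 2352 (.leaf 0x5800020280081500000000a4001008) (.leaf 0x5800024280081500000000a4001008)) (.sR 2496 (.leaf 0x5800028280141500000000a8001008) (.sR 2784 (.sR 2640 (.sR 2544 (.leaf 0x6000030280001600000000a0001008) (.sR 2592 (.leaf 0x6000038280001600000000a4001008) (.leaf 0x6c0003c280011780000000a0001008))) (.sR 2688 (.leaf 0x6c000402800117800000009c001008) (.sR 2736 (.leaf 0x700004428002180000000098001008) (.leaf 0x740004c2800218800000009c001008)))) (.sR 2928 (.sR 2832 (.leaf 0x7400050280031880000000a0001008) (.sR 2880 (.leaf 0x78000542800319000000009c001008) (.leaf 0x7c000582800419800000009c001008))) (.sR 2976 (.leaf 0x800005c280041a000000009c001008)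 (.sR 3024 (.leaf 0x8c00060280091b8000000098001008) (.leaf 0x9400064280091c8000000094001008))))))))) (.sR 2784 (.sR 2592 (.sg 14 (.sR 2208 (.sR 2016 (.sR 1968 (.leaf 0x4003404068260041000000000ac401004) (.leaf 0x38000042801f1100000000a4001008)) (.sR 2112 (.leaf 0x3c000702801a1180000000ac001008) (.sR 2160 (.leaf 0x4400010280051280000000a0001008) (.leaf 0x4800018280051300000000a4001008)))) (.sR 2400 (.sR 2304 (.leaf 0x4c000782801b1380000000ac001008) (.leaf 0x54000842801c1480000000a8001008)) (.sR 2496 (.leaf 0x580002c2801d1500000000a8001008) (.leaf 0x60000342801e1600000000a4001008)))) (.sR 2400 (.sR 2160 (.sR 2016 (.sR 1968 (.sr 2496 (.leaf 0x4003404000260031000000000a4401004) (.leaf 0x4003404000260051000000000ac401004)) (.leaf 0x4003800004280221100000000a8401006)) (.sR 2064 (.leaf 0x3c000082800a1180000000a4001008) (.sR 2112 (.leaf 0x400000c2800a1200000000a8001008) (.leaf 0x4400010280051280000000a0001008)))) (.sR 2256 (.sR 2208 (.leaf 0x4800018280051300000000a4001008) (.leaf 0x4c000742800b13800000009c001008))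 (.sR 2304 (.leaf 0x500007c2800b1400000000a4001008) (.sR 2352 (.leaf 0x4c00020280231380000000ac001008) (.leaf 0x5800024280241500000000a0001008))))) (.sR 2496 (.leaf 0x580002c280201500000000a8001008) (.leaf 0x6000034280211600000000a4001008)))) (.sR 2688 (.leaf 0x6800088280161700000000a4001008) (.sg 14 (.leaf 0x7000048280251800000000a0001008) (.leaf 0x7000048280261800000000a0001008)))) (.sR 2880 (.leaf 0x780008c280171900000000a0001008) (.sR 2976 (.leaf 0x8014090280181a00000000a0001008) (.leaf 0x8c10094280191b8000000098001008)))))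
theorem k35 : ChunkP 4 4 2304 2560 12 16 1920 3072 :=
  chkY_sound (Q := 40) (C := [c147.c, c169.c, c177.c, c193.c, c225.c, c234.c]) (Z := [z1153, z1154, z1155, z1156, z1157, z1176, z1158, z1163, z1164, z1165, z1180, z1181, z1147, z1148, z1149, z1150, z1151, z1152, z1159, z1160, z1161, z1162, z1166, z1167, z1168, z1169, z1170, z1171, z1172, z1173, z1174, z1175, z1177, z1178, z1179, z1182, z1183, z1184, z1185])
    (T := [f_w480_492_0_50_20q, f_w492_504_0_50_20q, f_w504_516_0_60_10q, f_w516_528_0_60_10q, f_w528_540_0_60_10q, f_w528_552_0_50_0q, f_w540_552_0_60_10q, f_w552_576_0_50_0q, f_w576_588_0_60_10q, f_w588_600_0_60_10q, f_w600_624_0_50_10q, f_w600_624_0_60_0q, f_w624_636_0_60_10q, f_w624_648_0_60_0q, f_w636_648_0_60_10q, f_w648_660_0_50_10q, f_w660_672_0_50_10q, f_w672_684_0_50_10q, f_w672_696_0_60_0q, f_w684_696_0_50_10q, f_w696_708_0_50_10q, f_w708_720_0_50_10q, f_w720_732_0_50_20q, f_w732_744_0_50_10q, f_w744_756_0_50_0q, f_w756_768_0_50_10q, f_w480_492_0_60_10q, f_w504_528_0_50_0q, f_w504_528_0_60_0q,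 f_w552_564_0_60_10q, f_w552_576_0_60_0q, f_w564_576_0_60_10q, f_w576_600_0_50_10q, f_w576_600_0_60_0q, f_w648_672_0_60_0q, f_w696_720_0_60_0q, f_w720_744_0_60_0q, f_w744_768_0_60_0q]) (t := t35)
    (all_cons p147 (all_cons p169 (all_cons p177 (all_cons p193 (all_cons p225 (all_cons p234 all_nil))))))
    (all_cons z1153P (all_cons z1154P (all_cons z1155P (all_cons z1156P (all_cons z1157P (all_cons z1176P (all_cons z1158P (all_cons z1163P (all_cons z1164P (all_cons z1165P (all_cons z1180P (all_cons z1181P (all_cons z1147P (all_cons z1148P (all_cons z1149P (all_cons z1150P (all_cons z1151P (all_cons z1152P (all_cons z1159P (all_cons z1160P (all_cons z1161P (all_cons z1162P (all_cons z1166P (all_cons z1167P (all_cons z1168P (all_cons z1169P (all_cons z1170P (all_cons z1171P (all_cons z1172P (all_cons z1173P (all_cons z1174P (all_cons z1175P (all_cons z1177P (all_cons z1178P (all_cons z1179P (all_cons z1182P (all_cons z1183P (all_cons z1184P (all_cons z1185P all_nil)))))))))))))))))))))))))))))))))))))))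
    (all_cons f_w480_492_0_50_20q_p (all_cons f_w492_504_0_50_20q_p (all_cons f_w504_516_0_60_10q_p (all_cons f_w516_528_0_60_10q_p (all_cons f_w528_540_0_60_10q_p (all_cons f_w528_552_0_50_0q_p (all_cons f_w540_552_0_60_10q_p (all_cons f_w552_576_0_50_0q_p (all_cons f_w576_588_0_60_10q_p (all_cons f_w588_600_0_60_10q_p (all_cons f_w600_624_0_50_10q_p (all_cons f_w600_624_0_60_0q_p (all_cons f_w624_636_0_60_10q_p (all_cons f_w624_648_0_60_0q_p (all_cons f_w636_648_0_60_10q_p (all_cons f_w648_660_0_50_10q_p (all_cons f_w660_672_0_50_10q_p (all_cons f_w672_684_0_50_10q_p (all_cons f_w672_696_0_60_0q_p (all_cons f_w684_696_0_50_10q_p (all_cons f_w696_708_0_50_10q_p (all_cons f_w708_720_0_50_10q_p (all_cons f_w720_732_0_50_20q_p (all_cons f_w732_744_0_50_10q_p (all_cons f_w744_756_0_50_0q_p (all_cons f_w756_768_0_50_10q_p (all_cons f_w480_492_0_60_10q_p (all_cons f_w504_528_0_50_0q_p (all_cons f_w504_528_0_60_0q_p (all_cons f_w552_564_0_60_10q_p (all_cons f_w552_576_0_60_0q_p (all_cons f_w564_576_0_60_10q_p (all_cons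 f_w576_600_0_50_10q_p (all_cons f_w576_600_0_60_0q_p (all_cons f_w648_672_0_60_0q_p (all_cons f_w696_720_0_60_0q_p (all_cons f_w720_744_0_60_0q_p (all_cons f_w744_768_0_60_0q_p all_nil))))))))))))))))))))))))))))))))))))))
    (by decide +kernel)

end Pool.Agent.Lib.MP_af3a4a_an.P1.CHK.DATA.N4s
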