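import Pool.Agent.Lib.MP_af3a4a_an.P1.CHK.SWP.Pay
import Pool.Agent.Lib.MP_af3a4a_an.P1.CHK.DATA.N4s.C0
import Pool.Agent.Lib.MP_af3a4a_an.P1.CHK.DATA.N4s.Z3
import Pool.Agent.Lib.MP_af3a4a_an.P1.CHK.DATA.N4s.Z4
import Pool.Agent.Lib.MP_af3a4a_an.P1.CHK.DATA.F4.W480a
import Pool.Agent.Lib.MP_af3a4a_an.P1.CHK.DATA.F4.W480b
import Pool.Agent.Lib.MP_af3a4a_an.P1.CHK.DATA.F4.W528a
import Pool.Agent.Lib.MP_af3a4a_an.P1.CHK.DATA.F4.W528b
import Pool.Agent.Lib.MP_af3a4a_an.P1.CHK.DATA.F4.W576a
import Pool.Agent.Lib.MP_af3a4a_an.P1.CHK.DATA.F4.W624a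
import Pool.Agent.Lib.MP_af3a4a_an.P1.CHK.DATA.F4.W672a
import Pool.Agent.Lib.MP_af3a4a_an.P1.CHK.DATA.F4.W672b
import Pool.Agent.Lib.MP_af3a4a_an.P1.CHK.DATA.F4.W720a
import Pool.Agent.Lib.MP_af3a4a_an.P1.CHK.DATA.F4.W720b

/-! chunks for N = 4 (generated) -/

set_option autoImplicit false
set_option maxRecDepth 100000

namespace Pool.Agent.Lib.MP_af3a4a_an.P1.CHK.DATA.N4s

open BOX SWP

def t36 : Tree := (.sR 2208 (.sR 2016 (.sg 18 (.sR 1968 (.leaf 0x4003c0000c240001080000000a4401004) (.leaf 0x480001028008130000000088001008)) (.sR 1968 (.leaf 0x4003c0000c240011080000000ac401004) (.leaf 0x480001028009130000000088001008))) (.sR 2112 (.leaf 0x440003c280031280000000a0001008) (.leaf 0x4c00040280041380000000a8001008))) (.sR 2400 (.sR 2304 (.leaf 0x5000044280051400000000a0001008) (.leaf 0x5400048280061480000000a0001008)) (.sR 2496 (.leaf 0x580004c280071500000000a8001008) (.sg 18 (.sR 2688 (.sR 2592 (.sR 2544 (.leaf 0x6c00014280001780000000a4001008) (.leaf 0x68000182800017000000009c001008)) (.sR 2640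 (.leaf 0x6c0001c2800117800000009c001008) (.leaf 0x6c00020280011780000000a0001008))) (.sR 2784 (.sR 2736 (.leaf 0x70000242800218000000009c001008) (.leaf 0x78000282800a1900000000a0001008)) (.sR 2832 (.leaf 0x740002c2800b1880000000a0001008) (.sR 2880 (.leaf 0x7c000302800c19800000009c001008) (.sr 2112 (.sR 2976 (.sR 2928 (.leaf 0x84000002800d1a8000000094001008) (.leaf 0x80000342800e1a00000000a0001008)) (.sR 3024 (.leaf 0x94000042800f1c8000000098001008) (.leaf 0x9c00008280101d8000000094001008))) (.sR 2976 (.sR 2928 (.leaf 0x8400000280111a800000009c001008) (.leaf 0x8800038280121b0000000098001008)) (.sR 3024 (.leaf 0x8400004280131a8000000098001008) (.leaf 0x8800008280141b0000000098001008)))))))) (.sR 2688 (.sR 2592 (.sR 2544 (.leaf 0x6800014280001700000000a0001008) (.leaf 0x6800018280001700000000a4001008)) (.sR 2640 (.leaf 0x6c0001c280011780000000a4001008) (.leaf 0x6800020280011700000000a4001008))) (.sR 2784 (.sR 2736 (.leaf 0x6c00024280021780000000a0001008) (.leaf 0x7400028280151880000000a0001008)) (.sR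 2832 (.leaf 0x740002c280161880000000a0001008) (.sR 2880 (.leaf 0x78000302801719000000009c001008) (.sr 2112 (.sR 2976 (.sR 2928 (.leaf 0x8400000280181a8000000094001008) (.leaf 0x8000034280191a00000000a0001008)) (.sR 3024 (.leaf 0x90000042801a1c000000009c001008) (.leaf 0x98000082801b1d0000000094001008))) (.sR 2976 (.sR 2928 (.leaf 0x80000002801c1a0000000098001008) (.leaf 0x80000382801d1a000000009c001008)) (.sR 3024 (.leaf 0x84000042801e1a8000000098001008) (.leaf 0x8c000082801f1b8000000098001008))))))))))))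
theorem k36 : ChunkP 4 4 2048 2176 16 20 1920 3072 :=
  chkY_sound (Q := 40) (C := [c89.c, c90.c]) (Z := [z1193, z1194, z1195, z1186, z1187, z1188, z1189, z1190, z1191, z1192, z1196, z1197, z1198, z1199, z1200, z1201, z1202, z1203, z1204, z1205, z1206, z1207, z1208, z1209, z1210, z1211, z1212, z1213, z1214, z1215, z1216, z1217])
    (T := [f_w720_732_0_40_0q, f_w744_756_0_50_0q, f_w756_768_0_50_10q, f_w480_492_0_50_20q, f_w492_504_0_50_20q, f_w624_636_0_50_10q, f_w636_648_0_50_10q, f_w648_660_0_50_10q, f_w660_672_0_50_10q, f_w672_684_0_50_10q, f_w684_696_0_50_10q, f_w696_708_0_50_10q, f_w708_720_0_50_10q, f_w732_744_0_40_0q, f_w732_744_0_50_10q, f_w504_528_0_50_0q, f_w528_552_0_50_0q, f_w552_576_0_50_0q, f_w576_600_0_50_10q, f_w600_624_0_50_10q]) (t := t36)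
    (all_cons p89 (all_cons p90 all_nil))
    (all_cons z1193P (all_cons z1194P (all_cons z1195P (all_cons z1186P (all_cons z1187P (all_cons z1188P (all_cons z1189P (all_cons z1190P (all_cons z1191P (all_cons z1192P (all_cons z1196P (all_cons z1197P (all_cons z1198P (all_cons z1199P (all_cons z1200P (all_cons z1201P (all_cons z1202P (all_cons z1203P (all_cons z1204P (all_cons z1205P (all_cons z1206P (all_cons z1207P (all_cons z1208P (all_cons z1209P (all_cons z1210P (all_cons z1211P (all_cons z1212P (all_cons z1213P (all_cons z1214P (all_cons z1215P (all_cons z1216P (all_cons z1217P all_nil))))))))))))))))))))))))))))))))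
    (all_cons f_w720_732_0_40_0q_p (all_cons f_w744_756_0_50_0q_p (all_cons f_w756_768_0_50_10q_p (all_cons f_w480_492_0_50_20q_p (all_cons f_w492_504_0_50_20q_p (all_cons f_w624_636_0_50_10q_p (all_cons f_w636_648_0_50_10q_p (all_cons f_w648_660_0_50_10q_p (all_cons f_w660_672_0_50_10q_p (all_cons f_w672_684_0_50_10q_p (all_cons f_w684_696_0_50_10q_p (all_cons f_w696_708_0_50_10q_p (all_cons f_w708_720_0_50_10q_p (all_cons f_w732_744_0_40_0q_p (all_cons f_w732_744_0_50_10q_p (all_cons f_w504_528_0_50_0q_p (all_cons f_w528_552_0_50_0q_p (all_cons f_w552_576_0_50_0q_p (all_cons f_w576_600_0_50_10q_p (all_cons f_w600_624_0_50_10q_p all_nil))))))))))))))))))))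
    (by decide +kernel)
def t37 : Tree := (.sR 2016 (.sg 18 (.sR 1968 (.leaf 0x4003800008240001000000000a4401004) (.leaf 0x440000c2800a1280000000a4001008)) (.sR 1968 (.leaf 0x4003800008240011000000000ac401004) (.leaf 0x480000c2800b1300000000ac001008))) (.sR 2112 (.leaf 0x3c00040280091180000000a4001008) (.sg 18 (.sR 2304 (.sR 2208 (.leaf 0x4400010280011280000000ac001008) (.leaf 0x4c000142800c1380000000a0001008)) (.sR 2400 (.leaf 0x54000482800d1480000000a8001008) (.sR 2496 (.leaf 0x58000182800e1500000000a8001008) (.sR 2784 (.sR 2640 (.sR 2544 (.leaf 0x5c00054280021580000000a8001008) (.sR 2592 (.leaf 0x6c0001c28002178000000094001008) (.leaf 0x6c000202800017800000009c001008))) (.sR 2688 (.leaf 0x6c00024280001780000000a0001008) (.sR 2736 (.leaf 0x6c000282800f1780000000a4001008) (.leaf 0x740002c2801018800000009c001008)))) (.sR 2928 (.sR 2832 (.leaf 0x7c00030280031980000000a0001008) (.sR 2880 (.leaf 0x7c00034280031980000000a0001008) (.leaf 0x8000038280111a00000000a0001008))) (.sR 2976 (.leaf 0x880003c280121b000000009c001008)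 (.sR 3024 (.leaf 0x8400004280131a8000000098001008) (.sr 2240 (.leaf 0x8800000280041b000000009c001008) (.leaf 0x9c00000280041d8000000084001008))))))))) (.sR 2304 (.sR 2208 (.leaf 0x4400010280011280000000ac001008) (.leaf 0x5000014280141400000000a4001008)) (.sR 2400 (.sR 2352 (.leaf 0x4c00044280161380000000ac001008) (.leaf 0x540004c2801714800000009c001008)) (.sR 2496 (.leaf 0x5800018280151500000000a8001008) (.sR 2736 (.sR 2592 (.sR 2544 (.leaf 0x64000502800516800000009c001008) (.leaf 0x640001c2800516800000009c001008)) (.sR 2640 (.leaf 0x6c00020280001780000000a4001008) (.sR 2688 (.leaf 0x6800024280001700000000a4001008) (.leaf 0x700002828006180000000098001008)))) (.sR 2880 (.sR 2784 (.leaf 0x700002c280061800000000a0001008) (.sR 2832 (.leaf 0x7800030280071900000000a0001008) (.leaf 0x7800034280071900000000a0001008))) (.sR 2928 (.sr 2240 (.leaf 0x8000058280191a00000000a0001008) (.leaf 0x88000382801a1b0000000098001008)) (.sR 2976 (.leaf 0x800003c280181a000000009c001008) (.sr 2240 (.sR 3024 (.leaf 0x98000042801b1d0000000084001008)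 (.leaf 0x9c000002801c1d8000000078001008)) (.sR 3024 (.leaf 0x9000004280081c000000009c001008) (.leaf 0x9400000280081c8000000094001008)))))))))))))
theorem k37 : ChunkP 4 4 2176 2304 16 20 1920 3072 :=
  chkY_sound (Q := 40) (C := [c127.c, c128.c]) (Z := [z1226, z1221, z1225, z1229, z1233, z1238, z1239, z1240, z1246, z1218, z1219, z1220, z1222, z1223, z1224, z1227, z1228, z1230, z1231, z1232, z1234, z1235, z1236, z1237, z1241, z1242, z1243, z1244, z1245])
    (T := [f_w756_768_0_50_10q, f_w744_756_0_50_0q, f_w480_492_0_50_20q, f_w492_504_0_50_20q, f_w528_552_0_50_0q, f_w552_576_0_50_0q, f_w600_624_0_50_10q, f_w636_648_0_50_10q, f_w648_660_0_50_10q, f_w660_672_0_50_10q, f_w672_684_0_50_10q, f_w684_696_0_50_10q, f_w696_708_0_50_10q, f_w708_720_0_50_10q, f_w720_732_0_50_20q, f_w732_744_0_50_10q, f_w504_528_0_50_0q, f_w576_588_0_60_10q, f_w576_600_0_50_10q, f_w588_600_0_60_10q, f_w624_636_0_50_10q, f_w624_636_0_60_10q, f_w720_732_0_40_0q]) (t := t37)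
    (all_cons p127 (all_cons p128 all_nil))
    (all_cons z1226P (all_cons z1221P (all_cons z1225P (all_cons z1229P (all_cons z1233P (all_cons z1238P (all_cons z1239P (all_cons z1240P (all_cons z1246P (all_cons z1218P (all_cons z1219P (all_cons z1220P (all_cons z1222P (all_cons z1223P (all_cons z1224P (all_cons z1227P (all_cons z1228P (all_cons z1230P (all_cons z1231P (all_cons z1232P (all_cons z1234P (all_cons z1235P (all_cons z1236P (all_cons z1237P (all_cons z1241P (all_cons z1242P (all_cons z1243P (all_cons z1244P (all_cons z1245P all_nil)))))))))))))))))))))))))))))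
    (all_cons f_w756_768_0_50_10q_p (all_cons f_w744_756_0_50_0q_p (all_cons f_w480_492_0_50_20q_p (all_cons f_w492_504_0_50_20q_p (all_cons f_w528_552_0_50_0q_p (all_cons f_w552_576_0_50_0q_p (all_cons f_w600_624_0_50_10q_p (all_cons f_w636_648_0_50_10q_p (all_cons f_w648_660_0_50_10q_p (all_cons f_w660_672_0_50_10q_p (all_cons f_w672_684_0_50_10q_p (all_cons f_w684_696_0_50_10q_p (all_cons f_w696_708_0_50_10q_p (all_cons f_w708_720_0_50_10q_p (all_cons f_w720_732_0_50_20q_p (all_cons f_w732_744_0_50_10q_p (all_cons f_w504_528_0_50_0q_p (all_cons f_w576_588_0_60_10q_p (all_cons f_w576_600_0_50_10q_p (all_cons f_w588_600_0_60_10q_p (all_cons f_w624_636_0_50_10q_p (all_cons f_w624_636_0_60_10q_p (all_cons f_w720_732_0_40_0q_p all_nil)))))))))))))))))))))))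
    (by decide +kernel)
def t38 : Tree := (.sR 2112 (.sR 2016 (.sg 22 (.sR 1968 (.leaf 0x4003c00014240001080000000b0401004) (.leaf 0x480001828007130000000088001008)) (.sR 1968 (.leaf 0x4003800014240011000000000a0401004) (.leaf 0x480001828008130000000088001008))) (.leaf 0x4400040280041280000000a4001008)) (.sR 2208 (.leaf 0x4800044280051300000000a0001008) (.sR 2304 (.leaf 0x4c000482800613800000009c001008) (.sg 22 (.sR 2496 (.sR 2400 (.leaf 0x540001c280091480000000a4001008) (.leaf 0x58000202800a1500000000a8001008)) (.sR 2592 (.leaf 0x60000242800b1600000000a4001008) (.sR 2688 (.sR 2640 (.leaf 0x6800028280001700000000a4001008) (.leaf 0x700002c2800c1800000000a0001008)) (.sR 2736 (.leaf 0x74000302800118800000009c001008) (.sR 2784 (.leaf 0x7000034280011800000000a0001008) (.sr 2112 (.sR 2928 (.sR 2832 (.leaf 0x7400000280021880000000a0001008) (.sR 2880 (.leaf 0x7800004280031900000000a0001008) (.leaf 0x84000082800d1a8000000094001008))) (.sR 2976 (.leaf 0x80000382800e1a00000000a0001008) (.sR 3024 (.leaf 0x94000102800f1c8000000090001008)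 (.leaf 0x900000c280101c0000000098001008)))) (.sR 2928 (.sR 2832 (.leaf 0x8400000280021a800000009c001008) (.sR 2880 (.leaf 0x8800004280031b0000000094001008) (.leaf 0x8000008280111a0000000098001008))) (.sR 2976 (.leaf 0x800003c280121a000000009c001008) (.sR 3024 (.leaf 0x9400010280131c8000000098001008) (.leaf 0x9c0000c280141d8000000084001008)))))))))) (.sR 2496 (.sR 2400 (.leaf 0x540001c280151480000000a0001008) (.leaf 0x5800020280161500000000a8001008)) (.sR 2592 (.leaf 0x6000024280171600000000a4001008) (.sR 2688 (.sR 2640 (.leaf 0x6400028280001680000000a4001008) (.leaf 0x6c0002c280181780000000a0001008)) (.sR 2736 (.leaf 0x7400030280191880000000a0001008) (.sR 2784 (.leaf 0x70000342801a1800000000a0001008) (.sr 2112 (.sR 2928 (.sR 2832 (.leaf 0x88000002801b1b0000000074001008) (.sR 2880 (.leaf 0x8c000042801c1b8000000088001008) (.leaf 0x88000082801d1b000000009c001008))) (.sR 2976 (.leaf 0x80000382801e1a00000000a0001008) (.sR 3024 (.leaf 0x840004c2801f1a800000009c001008) (.leaf 0x880000c280201b0000000098001008))))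 (.sR 2928 (.sR 2832 (.leaf 0x7c00000280211980000000a0001008) (.sR 2880 (.leaf 0x8800004280221b000000009c001008) (.leaf 0x8000008280231a0000000094001008))) (.sR 2976 (.leaf 0x940003c280241c8000000098001008) (.sR 3024 (.leaf 0x9000010280251c0000000098001008) (.leaf 0x9c0000c280261d8000000090001008))))))))))))))
theorem k38 : ChunkP 4 4 2048 2176 20 24 1920 3072 :=
  chkY_sound (Q := 40) (C := [c91.c, c92.c]) (Z := [z1255, z1257, z1258, z1259, z1247, z1248, z1249, z1250, z1251, z1252, z1253, z1254, z1256, z1260, z1261, z1262, z1263, z1264, z1265, z1266, z1267, z1268, z1269, z1270, z1271, z1272, z1273, z1274, z1275, z1276, z1277, z1278, z1279, z1280, z1281, z1282, z1283, z1284, z1285])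
    (T := [f_w696_708_0_50_10q, f_w708_720_0_50_10q, f_w720_732_0_40_0q, f_w756_768_0_50_10q, f_w744_756_0_50_0q, f_w480_492_0_50_20q, f_w492_504_0_50_20q, f_w576_600_0_40_0q, f_w600_624_0_40_0q, f_w624_648_0_50_10q, f_w648_660_0_50_10q, f_w660_672_0_50_10q, f_w672_684_0_50_10q, f_w684_696_0_50_10q, f_w732_744_0_40_0q, f_w732_744_0_50_10q, f_w504_528_0_50_0q, f_w528_552_0_50_0q, f_w552_576_0_50_0q, f_w744_756_0_40_0q]) (t := t38)
    (all_cons p91 (all_cons p92 all_nil))
    (all_cons z1255P (all_cons z1257P (all_cons z1258P (all_cons z1259P (all_cons z1247P (all_cons z1248P (all_cons z1249P (all_cons z1250P (all_cons z1251P (all_cons z1252P (all_cons z1253P (all_cons z1254P (all_cons z1256P (all_cons z1260P (all_cons z1261P (all_cons z1262P (all_cons z1263P (all_cons z1264P (all_cons z1265P (all_cons z1266P (all_cons z1267P (all_cons z1268P (all_cons z1269P (all_cons z1270P (all_cons z1271P (all_cons z1272P (all_cons z1273P (all_cons z1274P (all_cons z1275P (all_cons z1276P (all_cons z1277P (all_cons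 z1278P (all_cons z1279P (all_cons z1280P (all_cons z1281P (all_cons z1282P (all_cons z1283P (all_cons z1284P (all_cons z1285P all_nil)))))))))))))))))))))))))))))))))))))))
    (all_cons f_w696_708_0_50_10q_p (all_cons f_w708_720_0_50_10q_p (all_cons f_w720_732_0_40_0q_p (all_cons f_w756_768_0_50_10q_p (all_cons f_w744_756_0_50_0q_p (all_cons f_w480_492_0_50_20q_p (all_cons f_w492_504_0_50_20q_p (all_cons f_w576_600_0_40_0q_p (all_cons f_w600_624_0_40_0q_p (all_cons f_w624_648_0_50_10q_p (all_cons f_w648_660_0_50_10q_p (all_cons f_w660_672_0_50_10q_p (all_cons f_w672_684_0_50_10q_p (all_cons f_w684_696_0_50_10q_p (all_cons f_w732_744_0_40_0q_p (all_cons f_w732_744_0_50_10q_p (all_cons f_w504_528_0_50_0q_p (all_cons f_w528_552_0_50_0q_p (all_cons f_w552_576_0_50_0q_p (all_cons f_w744_756_0_40_0q_p all_nil))))))))))))))))))))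
    (by decide +kernel)
def t39 : Tree := (.sR 2112 (.sR 2016 (.sg 22 (.sR 1968 (.leaf 0x4003800044240011000000000b0401004) (.leaf 0x4800014280071300000000ac001008)) (.sR 1968 (.leaf 0x45c3804048240001000000000b044d044) (.leaf 0x4800014280081300000000ac001008))) (.leaf 0x4003c0004c280051180000000b0401006)) (.sR 2208 (.leaf 0x4400050280061280000000a8001008) (.sg 22 (.sR 2304 (.leaf 0x4c00018280091380000000ac001008) (.sR 2400 (.leaf 0x540001c2800a1480000000a0001008) (.sR 2640 (.sR 2496 (.sR 2448 (.leaf 0x5c00020280001580000000a0001008) (.leaf 0x5c00024280001580000000a0001008)) (.sR 2544 (.leaf 0x60000282800116000000009c001008) (.sR 2592 (.leaf 0x600002c280011600000000a4001008) (.leaf 0x6800030280021700000000a4001008)))) (.sR 2784 (.sR 2688 (.leaf 0x70000342800b18000000009c001008) (.sR 2736 (.leaf 0x6c000382800c1780000000a0001008) (.leaf 0x7c0003c2800d1980000000a0001008))) (.sR 2832 (.leaf 0x74000402800e1880000000a0001008) (.sR 2880 (.leaf 0x780000c2800f1900000000a0001008) (.sr 2240 (.sR 2976 (.sR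 2928 (.leaf 0x8000010280101a00000000a0001008) (.leaf 0x8000000280111a00000000a0001008)) (.sR 3024 (.leaf 0x9800004280121d0000000090001008) (.leaf 0x9c00008280131d8000000084001008))) (.sR 2976 (.sR 2928 (.leaf 0x8000054280031a0000000098001008) (.leaf 0x8400000280031a800000009c001008)) (.sR 3024 (.leaf 0x8800004280041b0000000094001008) (.leaf 0x8c00008280041b8000000098001008)))))))))) (.sR 2304 (.leaf 0x5000018280141400000000a8001008) (.sR 2400 (.leaf 0x540001c280151480000000a4001008) (.sR 2640 (.sR 2496 (.sR 2448 (.leaf 0x5c00020280001580000000a4001008) (.leaf 0x5c00024280001580000000a8001008)) (.sR 2544 (.leaf 0x6000028280011600000000a0001008) (.sR 2592 (.leaf 0x600002c280011600000000a4001008) (.leaf 0x6400030280021680000000a4001008)))) (.sR 2736 (.sR 2688 (.leaf 0x6c000342801617800000009c001008) (.leaf 0x6c00038280171780000000a0001008)) (.sR 2784 (.leaf 0x780003c280181900000000a0001008) (.sR 2832 (.leaf 0x7400040280191880000000a0001008) (.sr 2240 (.sR 2928 (.sR 2880 (.leaf 0x8c0000c2801a1b8000000074001008)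 (.leaf 0x80000102801b1a00000000a0001008)) (.sR 2976 (.leaf 0x94000002801c1c800000007c001008) (.sR 3024 (.leaf 0x94000042801d1c800000008c001008) (.leaf 0x9c000082801e1d8000000094001008)))) (.sR 2928 (.sR 2880 (.leaf 0x800000c2801f1a000000009c001008) (.leaf 0x7c00010280201980000000a0001008)) (.sR 2976 (.leaf 0x8800000280211b0000000098001008) (.sR 3024 (.leaf 0x8400004280221a8000000098001008) (.leaf 0x8c00008280231b800000009c001008))))))))))))))
theorem k39 : ChunkP 4 4 2176 2304 20 24 1920 3072 :=
  chkY_sound (Q := 40) (C := [c128.c, c129.c]) (Z := [z1292, z1293, z1294, z1304, z1305, z1286, z1287, z1288, z1289, z1290, z1291, z1295, z1296, z1297, z1298, z1299, z1300, z1301, z1302, z1303, z1306, z1307, z1308, z1309, z1310, z1311, z1312, z1313, z1314, z1315, z1316, z1317, z1318, z1319, z1320, z1321])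
    (T := [f_w732_744_0_50_10q, f_w744_756_0_50_0q, f_w756_768_0_50_10q, f_w708_720_0_50_10q, f_w720_732_0_40_0q, f_w492_504_0_50_20q, f_w552_576_0_50_0q, f_w576_600_0_50_10q, f_w600_612_0_50_20q, f_w612_624_0_50_20q, f_w624_636_0_50_10q, f_w636_648_0_50_10q, f_w648_660_0_50_10q, f_w660_672_0_50_10q, f_w672_684_0_50_10q, f_w684_696_0_50_10q, f_w696_708_0_50_10q, f_w480_492_0_50_20q, f_w480_492_4_50_10q, f_w504_528_0_50_0q, f_w528_552_0_50_0q, f_w720_732_0_50_20q]) (t := t39)
    (all_cons p128 (all_cons p129 all_nil))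
    (all_cons z1292P (all_cons z1293P (all_cons z1294P (all_cons z1304P (all_cons z1305P (all_cons z1286P (all_cons z1287P (all_cons z1288P (all_cons z1289P (all_cons z1290P (all_cons z1291P (all_cons z1295P (all_cons z1296P (all_cons z1297P (all_cons z1298P (all_cons z1299P (all_cons z1300P (all_cons z1301P (all_cons z1302P (all_cons z1303P (all_cons z1306P (all_cons z1307P (all_cons z1308P (all_cons z1309P (all_cons z1310P (all_cons z1311P (all_cons z1312P (all_cons z1313P (all_cons z1314P (all_cons z1315P (all_cons z1316P (all_cons z1317P (all_cons z1318P (all_cons z1319P (all_cons z1320P (all_cons z1321P all_nil))))))))))))))))))))))))))))))))))))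
    (all_cons f_w732_744_0_50_10q_p (all_cons f_w744_756_0_50_0q_p (all_cons f_w756_768_0_50_10q_p (all_cons f_w708_720_0_50_10q_p (all_cons f_w720_732_0_40_0q_p (all_cons f_w492_504_0_50_20q_p (all_cons f_w552_576_0_50_0q_p (all_cons f_w576_600_0_50_10q_p (all_cons f_w600_612_0_50_20q_p (all_cons f_w612_624_0_50_20q_p (all_cons f_w624_636_0_50_10q_p (all_cons f_w636_648_0_50_10q_p (all_cons f_w648_660_0_50_10q_p (all_cons f_w660_672_0_50_10q_p (all_cons f_w672_684_0_50_10q_p (all_cons f_w684_696_0_50_10q_p (all_cons f_w696_708_0_50_10q_p (all_cons f_w480_492_0_50_20q_p (all_cons f_w480_492_4_50_10q_p (all_cons f_w504_528_0_50_0q_p (all_cons f_w528_552_0_50_0q_p (all_cons f_w720_732_0_50_20q_p all_nil))))))))))))))))))))))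
    (by decide +kernel)
def t40 : Tree := (.sg 18 (.sR 2496 (.sR 2208 (.sR 2064 (.sR 1968 (.sr 2368 (.leaf 0x4003c00000240001080000000b0401004) (.leaf 0x4003800000240021000000000a4401004)) (.sR 2016 (.leaf 0x3c000042800e11800000009c001008) (.leaf 0x3c00058280051180000000ac001008))) (.sR 2112 (.leaf 0x3c00060280051180000000a4001008) (.sR 2160 (.leaf 0x4400008280001280000000a4001008) (.leaf 0x480000c280001300000000a8001008)))) (.sR 2352 (.sR 2256 (.leaf 0x4c00010280011380000000a0001008) (.sR 2304 (.leaf 0x4c00014280011380000000a0001008) (.leaf 0x5400018280031480000000a8001008))) (.sR 2400 (.leaf 0x540001c280031480000000a8001008) (.sR 2448 (.leaf 0x5c00020280021580000000a0001008) (.leaf 0x5c000242800215800000009c001008))))) (.sR 2784 (.sR 2640 (.sR 2544 (.leaf 0x5c000282800f1580000000a8001008) (.sR 2592 (.leaf 0x600002c280101600000000a4001008) (.leaf 0x6800030280041700000000a4001008))) (.sR 2688 (.leaf 0x6800034280041700000000a4001008) (.sR 2736 (.leaf 0x6c00038280111780000000a0001008) (.leaf 0x780003c28012190000000098001008))))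 (.sR 2928 (.sR 2832 (.leaf 0x780004028006190000000098001008) (.sR 2880 (.leaf 0x7c000442800619800000009c001008) (.leaf 0x8400048280071a800000009c001008))) (.sR 2976 (.leaf 0x880004c280071b000000009c001008) (.sR 3024 (.leaf 0x8400050280081a8000000098001008) (.leaf 0x8c00054280081b8000000098001008)))))) (.sR 2016 (.sR 1968 (.sr 2368 (.leaf 0x4003800000240011000000000a0401004) (.leaf 0x4003404000260031000000000a8401004)) (.leaf 0x3c00004280141180000000a0001008)) (.sR 2112 (.leaf 0x3c0005c280131180000000ac001008) (.sR 2592 (.sR 2352 (.sR 2208 (.sR 2160 (.leaf 0x4400008280001280000000a8001008) (.leaf 0x440000c2800012800000009c001008)) (.sR 2256 (.leaf 0x4c00010280011380000000a8001008) (.sR 2304 (.leaf 0x4c00014280011380000000a8001008) (.leaf 0x5000018280031400000000a0001008)))) (.sR 2448 (.sR 2400 (.leaf 0x540001c280151480000000a0001008) (.leaf 0x5c00020280021580000000a4001008)) (.sR 2496 (.leaf 0x5c00024280021580000000a0001008) (.sR 2544 (.leaf 0x6400028280091680000000a4001008) (.leaf 0x600002c280091600000000a4001008)))))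 (.sR 2832 (.sR 2688 (.sR 2640 (.leaf 0x6400030280041680000000a4001008) (.leaf 0x6c000342801617800000009c001008)) (.sR 2736 (.leaf 0x74000382800a1880000000a0001008) (.sR 2784 (.leaf 0x740003c2800a188000000098001008) (.leaf 0x74000402800b1880000000a0001008)))) (.sR 2928 (.sR 2880 (.leaf 0x78000442800b19000000009c001008) (.leaf 0x7c000482800c19800000009c001008)) (.sR 2976 (.leaf 0x800004c2800c1a000000009c001008) (.sR 3024 (.leaf 0x84000502800d1a8000000098001008) (.leaf 0x8c000542800d1b800000009c001008)))))))))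
theorem k40 : ChunkP 4 4 2304 2432 16 20 1920 3072 :=
  chkY_sound (Q := 40) (C := [c148.c, c149.c, c178.c, c179.c]) (Z := [z1324, z1325, z1327, z1326, z1330, z1323, z1333, z1334, z1335, z1339, z1341, z1342, z1343, z1344, z1322, z1328, z1329, z1331, z1332, z1336, z1337, z1338, z1340])
    (T := [f_w480_492_0_50_20q, f_w492_504_0_50_20q, f_w528_540_0_60_10q, f_w540_552_0_60_10q, f_w552_564_0_60_10q, f_w564_576_0_60_10q, f_w576_588_0_60_10q, f_w588_600_0_60_10q, f_w600_612_0_50_20q, f_w612_624_0_50_20q, f_w624_636_0_60_10q, f_w636_648_0_60_10q, f_w648_660_0_50_10q, f_w660_672_0_50_10q, f_w672_684_0_50_10q, f_w684_696_0_50_10q, f_w696_708_0_50_10q, f_w708_720_0_50_10q, f_w720_732_0_50_20q, f_w732_744_0_50_10q, f_w744_756_0_50_0q, f_w756_768_0_50_10q, f_w504_516_0_60_10q, f_w504_528_0_50_0q, f_w516_528_0_60_10q]) (t := t40)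
    (all_cons p148 (all_cons p149 (all_cons p178 (all_cons p179 all_nil))))
    (all_cons z1324P (all_cons z1325P (all_cons z1327P (all_cons z1326P (all_cons z1330P (all_cons z1323P (all_cons z1333P (all_cons z1334P (all_cons z1335P (all_cons z1339P (all_cons z1341P (all_cons z1342P (all_cons z1343P (all_cons z1344P (all_cons z1322P (all_cons z1328P (all_cons z1329P (all_cons z1331P (all_cons z1332P (all_cons z1336P (all_cons z1337P (all_cons z1338P (all_cons z1340P all_nil)))))))))))))))))))))))
    (all_cons f_w480_492_0_50_20q_p (all_cons f_w492_504_0_50_20q_p (all_cons f_w528_540_0_60_10q_p (all_cons f_w540_552_0_60_10q_p (all_cons f_w552_564_0_60_10q_p (all_cons f_w564_576_0_60_10q_p (all_cons f_w576_588_0_60_10q_p (all_cons f_w588_600_0_60_10q_p (all_cons f_w600_612_0_50_20q_p (all_cons f_w612_624_0_50_20q_p (all_cons f_w624_636_0_60_10q_p (all_cons f_w636_648_0_60_10q_p (all_cons f_w648_660_0_50_10q_p (all_cons f_w660_672_0_50_10q_p (all_cons f_w672_684_0_50_10q_p (all_cons f_w684_696_0_50_10q_p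 (all_cons f_w696_708_0_50_10q_p (all_cons f_w708_720_0_50_10q_p (all_cons f_w720_732_0_50_20q_p (all_cons f_w732_744_0_50_10q_p (all_cons f_w744_756_0_50_0q_p (all_cons f_w756_768_0_50_10q_p (all_cons f_w504_516_0_60_10q_p (all_cons f_w504_528_0_50_0q_p (all_cons f_w516_528_0_60_10q_p all_nil)))))))))))))))))))))))))
    (by decide +kernel)
def t41 : Tree := (.sg 18 (.sR 2688 (.sR 2496 (.sR 2400 (.sR 2160 (.sR 2016 (.sR 1968 (.sr 2496 (.leaf 0x4003404030260001000000000ac401004) (.leaf 0x4003404000260021000000000a4401004)) (.leaf 0x4003800004280101100000000ac401006)) (.sR 2064 (.leaf 0x3800008280001100000000a0001008) (.sR 2112 (.leaf 0x3c0000c280001180000000a4001008) (.leaf 0x4000010280011200000000a0001008)))) (.sR 2256 (.sR 2208 (.leaf 0x4400014280011280000000a4001008) (.leaf 0x48000182800213000000009c001008)) (.sR 2304 (.leaf 0x4c0001c280021380000000a4001008) (.sR 2352 (.leaf 0x50000202800314000000009c001008) (.leaf 0x5400024280031480000000a4001008))))) (.leaf 0x58000382800a1500000000a8001008))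 (.sR 2592 (.leaf 0x60000442800b1600000000a4001008) (.leaf 0x68000502800c1700000000a4001008))) (.sR 2880 (.sR 2784 (.sR 2736 (.leaf 0x700002828004180000000098001008) (.leaf 0x780002c280041900000000a0001008)) (.leaf 0x780005c2800d19000000009c001008)) (.sR 2976 (.leaf 0x80140682800e1a000000009c001008) (.leaf 0x8c100742800f1b8000000098001008)))) (.sR 2496 (.sR 2208 (.sR 2064 (.sR 1968 (.sr 2496 (.leaf 0x4003800000240011000000000ac401004) (.leaf 0x4003800000240031000000000ac401004)) (.sR 2016 (.leaf 0x4003400004280111080000000a0401006) (.leaf 0x3800008280001100000000a0001008))) (.sR 2112 (.leaf 0x3c0000c280001180000000a8001008) (.sR 2160 (.leaf 0x4000010280011200000000a4001008) (.leaf 0x4400014280011280000000a8001008)))) (.sR 2352 (.sR 2256 (.leaf 0x4800018280021300000000a0001008) (.sR 2304 (.leaf 0x4c0001c280021380000000ac001008) (.leaf 0x5000020280031400000000a4001008))) (.sR 2400 (.leaf 0x5800024280121500000000a8001008) (.sR 2448 (.leaf 0x5400034280131480000000a8001008) (.leaf 0x5c0003c280141580000000a4001008)))))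 (.sR 2784 (.sR 2640 (.sR 2544 (.leaf 0x6000040280051600000000a0001008) (.sR 2592 (.leaf 0x6000048280051600000000a4001008) (.leaf 0x640004c280151680000000a4001008))) (.sR 2688 (.leaf 0x6c0005428016178000000098001008) (.sR 2736 (.leaf 0x6c00028280061780000000a0001008) (.leaf 0x740002c280061880000000a0001008)))) (.sR 2928 (.sR 2832 (.leaf 0x78000582800719000000009c001008) (.sR 2880 (.leaf 0x7c0006028007198000000098001008) (.leaf 0x8400064280081a800000009c001008))) (.sR 2976 (.leaf 0x8c0006c280081b8000000098001008) (.sR 3024 (.leaf 0x8800070280091b0000000094001008) (.leaf 0x9800078280091d0000000098001008)))))))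
theorem k41 : ChunkP 4 4 2432 2560 16 20 1920 3072 :=
  chkY_sound (Q := 40) (C := [c194.c, c195.c, c235.c, c236.c]) (Z := [z1352, z1353, z1354, z1355, z1356, z1361, z1364, z1365, z1366, z1367, z1345, z1346, z1347, z1348, z1349, z1350, z1351, z1357, z1358, z1359, z1360, z1362, z1363])
    (T := [f_w480_492_0_60_10q, f_w492_504_0_50_20q, f_w504_516_0_60_10q, f_w516_528_0_60_10q, f_w528_540_0_60_10q, f_w540_552_0_60_10q, f_w552_564_0_60_10q, f_w564_576_0_60_10q, f_w576_588_0_60_10q, f_w588_600_0_60_10q, f_w672_684_0_50_10q, f_w684_696_0_50_10q, f_w480_492_0_50_20q, f_w600_612_0_50_20q, f_w600_624_0_60_0q, f_w612_624_0_50_20q, f_w624_636_0_60_10q, f_w624_648_0_60_0q, f_w636_648_0_60_10q, f_w648_660_0_50_10q, f_w648_672_0_60_0q, f_w660_672_0_50_10q, f_w696_708_0_50_10q, f_w696_720_0_60_0q, f_w708_720_0_50_10q, f_w720_732_0_50_20q, f_w720_744_0_60_0q, f_w732_744_0_50_10q, f_w744_756_0_50_0q, f_w744_768_0_60_0q, f_w756_768_0_50_10q]) (t := t41)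
    (all_cons p194 (all_cons p195 (all_cons p235 (all_cons p236 all_nil))))
    (all_cons z1352P (all_cons z1353P (all_cons z1354P (all_cons z1355P (all_cons z1356P (all_cons z1361P (all_cons z1364P (all_cons z1365P (all_cons z1366P (all_cons z1367P (all_cons z1345P (all_cons z1346P (all_cons z1347P (all_cons z1348P (all_cons z1349P (all_cons z1350P (all_cons z1351P (all_cons z1357P (all_cons z1358P (all_cons z1359P (all_cons z1360P (all_cons z1362P (all_cons z1363P all_nil)))))))))))))))))))))))
    (all_cons f_w480_492_0_60_10q_p (all_cons f_w492_504_0_50_20q_p (all_cons f_w504_516_0_60_10q_p (all_cons f_w516_528_0_60_10q_p (all_cons f_w528_540_0_60_10q_p (all_cons f_w540_552_0_60_10q_p (all_cons f_w552_564_0_60_10q_p (all_cons f_w564_576_0_60_10q_p (all_cons f_w576_588_0_60_10q_p (all_cons f_w588_600_0_60_10q_p (all_cons f_w672_684_0_50_10q_p (all_cons f_w684_696_0_50_10q_p (all_cons f_w480_492_0_50_20q_p (all_cons f_w600_612_0_50_20q_p (all_cons f_w600_624_0_60_0q_p (all_cons f_w612_624_0_50_20q_p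 (all_cons f_w624_636_0_60_10q_p (all_cons f_w624_648_0_60_0q_p (all_cons f_w636_648_0_60_10q_p (all_cons f_w648_660_0_50_10q_p (all_cons f_w648_672_0_60_0q_p (all_cons f_w660_672_0_50_10q_p (all_cons f_w696_708_0_50_10q_p (all_cons f_w696_720_0_60_0q_p (all_cons f_w708_720_0_50_10q_p (all_cons f_w720_732_0_50_20q_p (all_cons f_w720_744_0_60_0q_p (all_cons f_w732_744_0_50_10q_p (all_cons f_w744_756_0_50_0q_p (all_cons f_w744_768_0_60_0q_p (all_cons f_w756_768_0_50_10q_p all_nil)))))))))))))))))))))))))))))))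
    (by decide +kernel)

end Pool.Agent.Lib.MP_af3a4a_an.P1.CHK.DATA.N4s
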