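import Pool.Agent.Lib.MP_af3a4a_an.P1.CHK.SWP.Pay
import Pool.Agent.Lib.MP_af3a4a_an.P1.CHK.DATA.N4s.C0
import Pool.Agent.Lib.MP_af3a4a_an.P1.CHK.DATA.N4s.Z4
import Pool.Agent.Lib.MP_af3a4a_an.P1.CHK.DATA.N4s.Z5
import Pool.Agent.Lib.MP_af3a4a_an.P1.CHK.DATA.F4.W480a
import Pool.Agent.Lib.MP_af3a4a_an.P1.CHK.DATA.F4.W480b
import Pool.Agent.Lib.MP_af3a4a_an.P1.CHK.DATA.F4.W528a
import Pool.Agent.Lib.MP_af3a4a_an.P1.CHK.DATA.F4.W528b
import Pool.Agent.Lib.MP_af3a4a_an.P1.CHK.DATA.F4.W576a
import Pool.Agent.Lib.MP_af3a4a_an.P1.CHK.DATA.F4.W624a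
import Pool.Agent.Lib.MP_af3a4a_an.P1.CHK.DATA.F4.W672a
import Pool.Agent.Lib.MP_af3a4a_an.P1.CHK.DATA.F4.W672b
import Pool.Agent.Lib.MP_af3a4a_an.P1.CHK.DATA.F4.W720a
import Pool.Agent.Lib.MP_af3a4a_an.P1.CHK.DATA.F4.W720b

/-! chunks for N = 4 (generated) -/

set_option autoImplicit false
set_option maxRecDepth 100000

namespace Pool.Agent.Lib.MP_af3a4a_an.P1.CHK.DATA.N4s

open BOX SWP

def t42 : Tree := (.sg 22 (.sR 2016 (.sR 1968 (.sr 2368 (.leaf 0x4003800000240001000000000a4401004) (.leaf 0x4003800000240031000000000b0401004)) (.leaf 0x3c000102800d1180000000a0001008)) (.sR 2112 (.leaf 0x4003c000142800c1180000000b0401006) (.sR 2592 (.sR 2352 (.sR 2208 (.sR 2160 (.leaf 0x4000018280011200000000a4001008) (.leaf 0x440001c280011280000000ac001008)) (.sR 2256 (.leaf 0x4800020280021300000000a4001008) (.sR 2304 (.leaf 0x4c000242800e1380000000a0001008) (.leaf 0x4c00028280031380000000ac001008)))) (.sR 2448 (.sR 2400 (.leaf 0x540002c2800f1480000000a0001008) (.leaf 0x5800030280001500000000a0001008)) (.sR 2496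 (.leaf 0x5800034280001500000000a8001008) (.sR 2544 (.leaf 0x5c00038280041580000000a8001008) (.leaf 0x680003c2800417000000009c001008))))) (.sR 2832 (.sR 2688 (.sR 2640 (.leaf 0x6c00040280051780000000a4001008) (.leaf 0x6c00044280051780000000a4001008)) (.sR 2736 (.leaf 0x70000482800618000000009c001008) (.sR 2784 (.leaf 0x700004c280061800000000a0001008) (.leaf 0x78000502800719000000009c001008)))) (.sR 2928 (.sR 2880 (.leaf 0x7c00054280071980000000a0001008) (.leaf 0x8000004280101a00000000a0001008)) (.sR 2976 (.leaf 0x8000008280111a000000009c001008) (.sR 3024 (.leaf 0x840005c280121a8000000098001008) (.leaf 0x880000c280131b0000000098001008)))))))) (.sR 2016 (.sR 1968 (.sr 2368 (.leaf 0x4003800000240011000000000ac401004) (.leaf 0x45c3808058240021000000000a844d044)) (.leaf 0x3c00010280151180000000a4001008)) (.sR 2112 (.leaf 0x4003c00014280141180000000b0401006) (.sR 2544 (.sR 2304 (.sR 2208 (.sR 2160 (.leaf 0x4000018280011200000000a8001008) (.leaf 0x440001c280161280000000a0001008)) (.sR 2256 (.leaf 0x4800020280021300000000ac001008)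 (.leaf 0x4c00024280171380000000ac001008))) (.sR 2400 (.sR 2352 (.leaf 0x4c00028280031380000000ac001008) (.leaf 0x580002c280181500000000a8001008)) (.sR 2448 (.leaf 0x5800030280001500000000a8001008) (.sR 2496 (.leaf 0x5800034280001500000000a8001008) (.leaf 0x5c00038280081580000000a8001008))))) (.sR 2784 (.sR 2640 (.sR 2592 (.leaf 0x680003c280081700000000a4001008) (.leaf 0x6800040280091700000000a0001008)) (.sR 2688 (.leaf 0x6800044280091700000000a4001008) (.sR 2736 (.leaf 0x6c000482800a1780000000a0001008) (.leaf 0x700004c2800a1800000000a0001008)))) (.sR 2880 (.sR 2832 (.leaf 0x7400050280191880000000a0001008) (.leaf 0x7c000542801a1980000000a0001008)) (.sR 2976 (.sr 2368 (.sR 2928 (.leaf 0x7c000042800b19800000009c001008) (.leaf 0x94000082801c1c8000000064001008)) (.sR 2928 (.leaf 0x90000042800b1c0000000098001008) (.leaf 0x8c000082801d1b8000000098001008))) (.sR 3024 (.leaf 0x84000602801b1a800000009c001008) (.sr 2368 (.leaf 0x9c0000c2801e1d8000000064001008) (.leaf 0x9c0000c2801f1d8000000094001008))))))))))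
theorem k42 : ChunkP 4 4 2304 2432 20 24 1920 3072 :=
  chkY_sound (Q := 40) (C := [c150.c, c151.c, c179.c, c180.c]) (Z := [z1375, z1370, z1371, z1373, z1376, z1377, z1378, z1379, z1389, z1390, z1391, z1395, z1368, z1369, z1372, z1374, z1380, z1381, z1382, z1383, z1384, z1385, z1386, z1387, z1388, z1392, z1393, z1394, z1396, z1397, z1398, z1399])
    (T := [f_w480_492_0_50_20q, f_w720_732_0_50_20q, f_w732_744_0_50_10q, f_w756_768_0_50_10q, f_w492_504_0_50_20q, f_w504_528_0_50_0q, f_w528_540_0_60_10q, f_w540_552_0_60_10q, f_w552_564_0_60_10q, f_w564_576_0_60_10q, f_w576_588_0_60_10q, f_w588_600_0_60_10q, f_w600_612_0_50_20q, f_w612_624_0_50_20q, f_w624_636_0_60_10q, f_w636_648_0_50_10q, f_w648_660_0_50_10q, f_w660_672_0_50_10q, f_w672_684_0_50_10q, f_w684_696_0_50_10q, f_w696_708_0_50_10q, f_w708_720_0_50_10q, f_w480_492_4_60_10q, f_w744_756_0_50_0q, f_w744_756_0_50_20q]) (t := t42)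
    (all_cons p150 (all_cons p151 (all_cons p179 (all_cons p180 all_nil))))
    (all_cons z1375P (all_cons z1370P (all_cons z1371P (all_cons z1373P (all_cons z1376P (all_cons z1377P (all_cons z1378P (all_cons z1379P (all_cons z1389P (all_cons z1390P (all_cons z1391P (all_cons z1395P (all_cons z1368P (all_cons z1369P (all_cons z1372P (all_cons z1374P (all_cons z1380P (all_cons z1381P (all_cons z1382P (all_cons z1383P (all_cons z1384P (all_cons z1385P (all_cons z1386P (all_cons z1387P (all_cons z1388P (all_cons z1392P (all_cons z1393P (all_cons z1394P (all_cons z1396P (all_cons z1397P (all_cons z1398P (all_cons z1399P all_nil))))))))))))))))))))))))))))))))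
    (all_cons f_w480_492_0_50_20q_p (all_cons f_w720_732_0_50_20q_p (all_cons f_w732_744_0_50_10q_p (all_cons f_w756_768_0_50_10q_p (all_cons f_w492_504_0_50_20q_p (all_cons f_w504_528_0_50_0q_p (all_cons f_w528_540_0_60_10q_p (all_cons f_w540_552_0_60_10q_p (all_cons f_w552_564_0_60_10q_p (all_cons f_w564_576_0_60_10q_p (all_cons f_w576_588_0_60_10q_p (all_cons f_w588_600_0_60_10q_p (all_cons f_w600_612_0_50_20q_p (all_cons f_w612_624_0_50_20q_p (all_cons f_w624_636_0_60_10q_p (all_cons f_w636_648_0_50_10q_p (all_cons f_w648_660_0_50_10q_p (all_cons f_w660_672_0_50_10q_p (all_cons f_w672_684_0_50_10q_p (all_cons f_w684_696_0_50_10q_p (all_cons f_w696_708_0_50_10q_p (all_cons f_w708_720_0_50_10q_p (all_cons f_w480_492_4_60_10q_p (all_cons f_w744_756_0_50_0q_p (all_cons f_w744_756_0_50_20q_p all_nil)))))))))))))))))))))))))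
    (by decide +kernel)
def t43 : Tree := (.sg 22 (.sR 2496 (.sR 2208 (.sR 2064 (.sR 1968 (.sr 2496 (.leaf 0x45c340c000260001000000000a844d044) (.leaf 0x45c340c000260021000000000a844d044)) (.sR 2016 (.leaf 0x4003400004280101080000000a0401006) (.leaf 0x4003800008280111100000000b0401006))) (.sR 2112 (.leaf 0x3c0000c280121180000000a4001008) (.sR 2160 (.leaf 0x40000102800012000000009c001008) (.leaf 0x4400014280001280000000a4001008)))) (.sR 2352 (.sR 2256 (.leaf 0x4c00018280011380000000ac001008) (.sR 2304 (.leaf 0x4c0001c280011380000000a4001008) (.leaf 0x4c00020280021380000000ac001008))) (.sR 2400 (.leaf 0x5400024280131480000000a4001008) (.sR 2448 (.leaf 0x5800028280031500000000a4001008) (.leaf 0x580002c280031500000000a8001008))))) (.sR 2784 (.sR 2640 (.sR 2544 (.leaf 0x5c00030280141580000000a8001008) (.sR 2592 (.leaf 0x6400034280151680000000a4001008) (.leaf 0x68000382800417000000009c001008))) (.sR 2688 (.leaf 0x6c0003c280041780000000a4001008) (.sR 2736 (.leaf 0x70000402800518000000009c001008) (.leaf 0x74000442800518800000009c001008))))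 (.sR 2928 (.sR 2832 (.leaf 0x7400048280061880000000a0001008) (.sR 2880 (.leaf 0x780004c2800619000000009c001008) (.leaf 0x8000050280071a00000000a0001008))) (.sR 2976 (.leaf 0x8400054280071a8000000098001008) (.sR 3024 (.leaf 0x8400058280081a800000009c001008) (.leaf 0x8c0005c280081b8000000098001008)))))) (.sR 2496 (.sR 2208 (.sR 2064 (.sR 1968 (.sr 2496 (.leaf 0x45c3808000240011000000000a844d044) (.leaf 0x45c3808000240031000000000a844d044)) (.sR 2016 (.leaf 0x4003400004280161080000000a4401006) (.leaf 0x3800008280091100000000a0001008))) (.sR 2112 (.leaf 0x3c0000c280091180000000a8001008) (.sR 2160 (.leaf 0x40000102800a1200000000a4001008) (.leaf 0x44000142800a1280000000ac001008)))) (.sR 2352 (.sR 2256 (.leaf 0x4c000182800b1380000000a4001008) (.sR 2304 (.leaf 0x4c0001c2800b1380000000a0001008) (.leaf 0x4c00020280021380000000ac001008))) (.sR 2400 (.leaf 0x5400024280171480000000a0001008) (.sR 2448 (.leaf 0x58000282800c1500000000a8001008) (.leaf 0x580002c2800c1500000000a8001008))))) (.sR 2784 (.sR 2640 (.sR 2544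 (.leaf 0x5c00030280181580000000a8001008) (.sR 2592 (.leaf 0x640003428019168000000098001008) (.leaf 0x68000382800d1700000000a4001008))) (.sR 2688 (.leaf 0x680003c2800d1700000000a4001008) (.sR 2736 (.leaf 0x6c000402800e1780000000a0001008) (.leaf 0x70000442800e1800000000a0001008)))) (.sR 2928 (.sR 2832 (.leaf 0x74000482801a1880000000a0001008) (.sR 2880 (.leaf 0x800004c2801b1a000000009c001008) (.leaf 0x7c000502800f1980000000a0001008))) (.sR 2976 (.leaf 0x80000542800f1a000000009c001008) (.sR 3024 (.leaf 0x84000582801c1a800000009c001008) (.leaf 0x940005c2801d1c8000000094001008)))))))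
theorem k43 : ChunkP 4 4 2432 2560 20 24 1920 3072 :=
  chkY_sound (Q := 40) (C := [c194.c, c195.c, c235.c, c236.c]) (Z := [z1403, z1404, z1405, z1407, z1410, z1411, z1412, z1413, z1414, z1416, z1417, z1418, z1420, z1423, z1424, z1427, z1400, z1401, z1402, z1406, z1408, z1409, z1415, z1419, z1421, z1422, z1425, z1426, z1428, z1429])
    (T := [f_w480_492_4_60_10q, f_w492_504_0_50_20q, f_w504_516_0_60_10q, f_w516_528_0_60_10q, f_w528_540_0_60_10q, f_w540_552_0_60_10q, f_w552_564_0_60_10q, f_w564_576_0_60_10q, f_w576_588_0_60_10q, f_w588_600_0_60_10q, f_w600_612_0_50_20q, f_w612_624_0_50_20q, f_w624_636_0_60_10q, f_w636_648_0_60_10q, f_w648_660_0_50_10q, f_w660_672_0_50_10q, f_w672_684_0_50_10q, f_w684_696_0_50_10q, f_w696_708_0_50_10q, f_w708_720_0_50_10q, f_w720_732_0_50_20q, f_w732_744_0_50_10q, f_w744_756_0_50_0q, f_w756_768_0_50_10q]) (t := t43)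
    (all_cons p194 (all_cons p195 (all_cons p235 (all_cons p236 all_nil))))
    (all_cons z1403P (all_cons z1404P (all_cons z1405P (all_cons z1407P (all_cons z1410P (all_cons z1411P (all_cons z1412P (all_cons z1413P (all_cons z1414P (all_cons z1416P (all_cons z1417P (all_cons z1418P (all_cons z1420P (all_cons z1423P (all_cons z1424P (all_cons z1427P (all_cons z1400P (all_cons z1401P (all_cons z1402P (all_cons z1406P (all_cons z1408P (all_cons z1409P (all_cons z1415P (all_cons z1419P (all_cons z1421P (all_cons z1422P (all_cons z1425P (all_cons z1426P (all_cons z1428P (all_cons z1429P all_nil))))))))))))))))))))))))))))))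
    (all_cons f_w480_492_4_60_10q_p (all_cons f_w492_504_0_50_20q_p (all_cons f_w504_516_0_60_10q_p (all_cons f_w516_528_0_60_10q_p (all_cons f_w528_540_0_60_10q_p (all_cons f_w540_552_0_60_10q_p (all_cons f_w552_564_0_60_10q_p (all_cons f_w564_576_0_60_10q_p (all_cons f_w576_588_0_60_10q_p (all_cons f_w588_600_0_60_10q_p (all_cons f_w600_612_0_50_20q_p (all_cons f_w612_624_0_50_20q_p (all_cons f_w624_636_0_60_10q_p (all_cons f_w636_648_0_60_10q_p (all_cons f_w648_660_0_50_10q_p (all_cons f_w660_672_0_50_10q_p (all_cons f_w672_684_0_50_10q_p (all_cons f_w684_696_0_50_10q_p (all_cons f_w696_708_0_50_10q_p (all_cons f_w708_720_0_50_10q_p (all_cons f_w720_732_0_50_20q_p (all_cons f_w732_744_0_50_10q_p (all_cons f_w744_756_0_50_0q_p (all_cons f_w756_768_0_50_10q_p all_nil))))))))))))))))))))))))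
    (by decide +kernel)
def t44 : Tree := (.sR 2112 (.sR 2016 (.sg 26 (.sR 1968 (.leaf 0x4003800018240001000000000ac401004) (.leaf 0x3c0480001c2800813154013bc7a3c1005)) (.sR 1968 (.leaf 0x4003800018240011000000000ac401004) (.leaf 0x3c0480001c2800913154013bc7a3c1005))) (.leaf 0x440003c280051280000000a8001008)) (.sR 2208 (.leaf 0x4800040280061300000000a4001008) (.sR 2304 (.leaf 0x4c00044280071380000000a4001008) (.sg 26 (.sR 2496 (.sR 2400 (.leaf 0x54000202800a1480000000a0001008) (.leaf 0x58000242800b1500000000a8001008)) (.sR 2592 (.leaf 0x600004c2800c1600000000a4001008) (.sR 2736 (.sR 2640 (.leaf 0x6c000282800017800000009c001008) (.sR 2688 (.leaf 0x680002c280001700000000a4001008) (.leaf 0x7000030280011800000000a0001008))) (.sR 2784 (.sr 2112 (.leaf 0x70000002800e1800000000a0001008) (.leaf 0x7c000002800119800000009c001008)) (.sR 2832 (.leaf 0x74000342800d1880000000a0001008) (.sr 2112 (.sR 2928 (.sR 2880 (.leaf 0x8c000042800f1b8000000090001008) (.leaf 0x8800008280101b0000000098001008)) (.sR 2976 (.leaf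 0x8000010280111a000000009c001008) (.sR 3024 (.leaf 0x8400014280121a8000000098001008) (.sg 25 (.leaf 0x900000c280131c0000000098001008) (.leaf 0x900000c280141c0000000094001008))))) (.sR 2928 (.sR 2880 (.leaf 0x7c000042801519800000009c001008) (.leaf 0x8400008280161a800000009c001008)) (.sR 2976 (.leaf 0x9000054280171c0000000098001008) (.sR 3024 (.leaf 0x8c00058280181b800000009c001008) (.leaf 0x9800038280191d0000000098001008)))))))))) (.sR 2400 (.leaf 0x58000202801a1500000000a8001008) (.sR 2496 (.leaf 0x5c000242801b1580000000a8001008) (.sR 2688 (.sR 2592 (.sR 2544 (.leaf 0x6800048280021700000000a0001008) (.leaf 0x6400050280021680000000a0001008)) (.sR 2640 (.leaf 0x6c00028280031780000000a4001008) (.leaf 0x680002c280031700000000a4001008))) (.sR 2784 (.sR 2736 (.leaf 0x6c00030280041780000000a0001008) (.sr 2112 (.leaf 0x84000002801d1a8000000070001008) (.leaf 0x78000002800419000000009c001008))) (.sR 2832 (.leaf 0x74000342801c1880000000a0001008) (.sr 2112 (.sR 2928 (.sR 2880 (.leaf 0x8c000042801e1b8000000098001008)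 (.leaf 0x88000082801f1b0000000094001008)) (.sR 2976 (.leaf 0x9000010280201c0000000090001008) (.sR 3024 (.leaf 0x8800014280211b0000000098001008) (.sg 27 (.leaf 0x880000c280221b0000000098001008) (.leaf 0x940000c280231c8000000090001008))))) (.sR 2928 (.sR 2880 (.leaf 0x78000042802419000000009c001008) (.leaf 0x8400008280251a8000000094001008)) (.sR 2976 (.leaf 0x8000010280261a00000000a0001008) (.sR 3024 (.leaf 0x8400014280271a8000000098001008) (.leaf 0x9000038280281c000000009c001008))))))))))))))
theorem k44 : ChunkP 4 4 2048 2176 24 28 1920 3072 :=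
  chkY_sound (Q := 40) (C := [c93.c, c94.c]) (Z := [z1438, z1439, z1455, z1456, z1457, z1430, z1431, z1432, z1433, z1434, z1435, z1436, z1437, z1440, z1441, z1442, z1443, z1444, z1445, z1446, z1447, z1448, z1449, z1450, z1451, z1452, z1453, z1454, z1458, z1459, z1460, z1461, z1462, z1463, z1464, z1465, z1466, z1467, z1468, z1469, z1470])
    (T := [f_w684_696_0_50_10q, f_w708_720_0_50_10q, f_w720_732_0_40_0q, f_w756_768_0_40_0q, f_w732_744_0_40_0q, f_w744_756_0_40_0q, f_w480_492_0_50_20q, f_w492_504_0_50_20q, f_w576_600_0_40_0q, f_w600_624_0_40_0q, f_w648_660_0_50_10q, f_w660_672_0_50_10q, f_w672_684_0_50_10q, f_w696_708_0_50_10q, f_w756_768_0_50_10q, f_w504_528_0_50_0q, f_w528_552_0_50_0q, f_w552_576_0_50_0q, f_w624_636_0_50_10q, f_w624_648_0_50_10q, f_w636_648_0_50_10q, f_w732_744_0_50_10q, f_w744_756_0_50_0q]) (t := t44)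
    (all_cons p93 (all_cons p94 all_nil))
    (all_cons z1438P (all_cons z1439P (all_cons z1455P (all_cons z1456P (all_cons z1457P (all_cons z1430P (all_cons z1431P (all_cons z1432P (all_cons z1433P (all_cons z1434P (all_cons z1435P (all_cons z1436P (all_cons z1437P (all_cons z1440P (all_cons z1441P (all_cons z1442P (all_cons z1443P (all_cons z1444P (all_cons z1445P (all_cons z1446P (all_cons z1447P (all_cons z1448P (all_cons z1449P (all_cons z1450P (all_cons z1451P (all_cons z1452P (all_cons z1453P (all_cons z1454P (all_cons z1458P (all_cons z1459P (all_cons z1460P (all_cons z1461P (all_cons z1462P (all_cons z1463P (all_cons z1464P (all_cons z1465P (all_cons z1466P (all_cons z1467P (all_cons z1468P (all_cons z1469P (all_cons z1470P all_nil)))))))))))))))))))))))))))))))))))))))))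
    (all_cons f_w684_696_0_50_10q_p (all_cons f_w708_720_0_50_10q_p (all_cons f_w720_732_0_40_0q_p (all_cons f_w756_768_0_40_0q_p (all_cons f_w732_744_0_40_0q_p (all_cons f_w744_756_0_40_0q_p (all_cons f_w480_492_0_50_20q_p (all_cons f_w492_504_0_50_20q_p (all_cons f_w576_600_0_40_0q_p (all_cons f_w600_624_0_40_0q_p (all_cons f_w648_660_0_50_10q_p (all_cons f_w660_672_0_50_10q_p (all_cons f_w672_684_0_50_10q_p (all_cons f_w696_708_0_50_10q_p (all_cons f_w756_768_0_50_10q_p (all_cons f_w504_528_0_50_0q_p (all_cons f_w528_552_0_50_0q_p (all_cons f_w552_576_0_50_0q_p (all_cons f_w624_636_0_50_10q_p (all_cons f_w624_648_0_50_10q_p (all_cons f_w636_648_0_50_10q_p (all_cons f_w732_744_0_50_10q_p (all_cons f_w744_756_0_50_0q_p all_nil)))))))))))))))))))))))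
    (by decide +kernel)
def t45 : Tree := (.sR 2112 (.sR 2016 (.sg 26 (.sR 1968 (.leaf 0x45c3804044240011000000000b044d044) (.leaf 0x480001c280081300000000ac001008)) (.sR 1968 (.sr 2240 (.leaf 0x4003c00018240001080000000b0401004) (.leaf 0x4003800018240021000000000a8401004)) (.leaf 0x480001c280091300000000a8001008))) (.leaf 0x3c00048280061180000000a0001008)) (.sR 2208 (.leaf 0x440004c280071280000000ac001008) (.sg 26 (.sR 2400 (.sR 2304 (.leaf 0x4c000202800a13800000009c001008) (.leaf 0x54000242800b1480000000a4001008)) (.sR 2496 (.leaf 0x58000282800c1500000000a8001008) (.sR 2640 (.sR 2544 (.leaf 0x5c0002c280001580000000a8001008) (.sR 2592 (.leaf 0x68000302800d1700000000a0001008) (.leaf 0x6c000342800117800000009c001008))) (.sR 2736 (.sR 2688 (.leaf 0x6c00038280011780000000a0001008) (.leaf 0x740003c280021880000000a0001008)) (.sR 2784 (.leaf 0x7000040280021800000000a0001008) (.sr 2240 (.sR 2928 (.sR 2832 (.leaf 0x7400000280031880000000a0001008) (.sR 2880 (.leaf 0x8c000042800e1b8000000078001008) (.leaf 0x80000082800f1a000000009c001008)))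 (.sR 2976 (.leaf 0x940000c280101c8000000084001008) (.sR 3024 (.leaf 0x9400010280111c8000000098001008) (.leaf 0x9c00014280121d800000007c001008)))) (.sR 2928 (.sR 2832 (.leaf 0x8000000280031a0000000094001008) (.sR 2880 (.leaf 0x7c00004280131980000000a0001008) (.leaf 0x7c000082801419800000009c001008))) (.sR 2976 (.leaf 0x800000c280151a000000009c001008) (.sR 3024 (.leaf 0x8400010280161a8000000098001008) (.leaf 0x9c00014280171d8000000080001008)))))))))) (.sR 2400 (.sR 2304 (.leaf 0x4c000202801813800000009c001008) (.leaf 0x5400024280191480000000a8001008)) (.sR 2496 (.leaf 0x58000282801a1500000000a8001008) (.sR 2640 (.sR 2544 (.leaf 0x5c0002c280001580000000a8001008) (.sR 2592 (.leaf 0x64000302801b16800000009c001008) (.leaf 0x6c00034280041780000000a0001008))) (.sR 2736 (.sR 2688 (.leaf 0x6800038280041700000000a4001008) (.leaf 0x700003c2801c18000000009c001008)) (.sR 2784 (.leaf 0x70000402801d1800000000a0001008) (.sr 2240 (.sR 2928 (.sR 2832 (.leaf 0x88000002801e1b0000000088001008) (.sR 2880 (.leaf 0x8c000042801f1b8000000078001008)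 (.leaf 0x8000008280201a0000000098001008))) (.sR 2976 (.leaf 0x940000c280211c800000008c001008) (.sR 3024 (.leaf 0x9000010280221c0000000098001008) (.leaf 0x9c00014280231d8000000084001008)))) (.sR 2928 (.sR 2832 (.leaf 0x7c00000280051980000000a0001008) (.sR 2880 (.leaf 0x7800004280051900000000a0001008) (.leaf 0x8000008280241a00000000a0001008))) (.sR 2976 (.leaf 0x840000c280251a800000009c001008) (.sR 3024 (.leaf 0x9400010280261c800000008c001008) (.leaf 0x9c00014280271d800000008c001008)))))))))))))
theorem k45 : ChunkP 4 4 2176 2304 24 28 1920 3072 :=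
  chkY_sound (Q := 40) (C := [c111.c, c129.c, c141.c]) (Z := [z1478, z1480, z1481, z1482, z1497, z1506, z1471, z1472, z1473, z1474, z1475, z1476, z1477, z1479, z1483, z1484, z1485, z1486, z1487, z1488, z1489, z1490, z1491, z1492, z1493, z1494, z1495, z1496, z1498, z1499, z1500, z1501, z1502, z1503, z1504, z1505, z1507, z1508, z1509, z1510])
    (T := [f_w696_708_0_50_10q, f_w708_720_0_50_10q, f_w720_732_0_40_0q, f_w732_744_0_50_10q, f_w744_756_0_50_0q, f_w756_768_0_50_10q, f_w480_492_0_50_20q, f_w492_504_0_50_20q, f_w552_576_0_50_0q, f_w576_600_0_50_10q, f_w600_624_0_50_10q, f_w624_636_0_50_10q, f_w636_648_0_50_10q, f_w648_660_0_50_10q, f_w660_672_0_50_10q, f_w672_684_0_50_10q, f_w684_696_0_50_10q, f_w480_492_4_50_10q, f_w504_528_0_50_0q, f_w528_552_0_50_0q]) (t := t45)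
    (all_cons p111 (all_cons p129 (all_cons p141 all_nil)))
    (all_cons z1478P (all_cons z1480P (all_cons z1481P (all_cons z1482P (all_cons z1497P (all_cons z1506P (all_cons z1471P (all_cons z1472P (all_cons z1473P (all_cons z1474P (all_cons z1475P (all_cons z1476P (all_cons z1477P (all_cons z1479P (all_cons z1483P (all_cons z1484P (all_cons z1485P (all_cons z1486P (all_cons z1487P (all_cons z1488P (all_cons z1489P (all_cons z1490P (all_cons z1491P (all_cons z1492P (all_cons z1493P (all_cons z1494P (all_cons z1495P (all_cons z1496P (all_cons z1498P (all_cons z1499P (all_cons z1500P (all_cons z1501P (all_cons z1502P (all_cons z1503P (all_cons z1504P (all_cons z1505P (all_cons z1507P (all_cons z1508P (all_cons z1509P (all_cons z1510P all_nil))))))))))))))))))))))))))))))))))))))))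
    (all_cons f_w696_708_0_50_10q_p (all_cons f_w708_720_0_50_10q_p (all_cons f_w720_732_0_40_0q_p (all_cons f_w732_744_0_50_10q_p (all_cons f_w744_756_0_50_0q_p (all_cons f_w756_768_0_50_10q_p (all_cons f_w480_492_0_50_20q_p (all_cons f_w492_504_0_50_20q_p (all_cons f_w552_576_0_50_0q_p (all_cons f_w576_600_0_50_10q_p (all_cons f_w600_624_0_50_10q_p (all_cons f_w624_636_0_50_10q_p (all_cons f_w636_648_0_50_10q_p (all_cons f_w648_660_0_50_10q_p (all_cons f_w660_672_0_50_10q_p (all_cons f_w672_684_0_50_10q_p (all_cons f_w684_696_0_50_10q_p (all_cons f_w480_492_4_50_10q_p (all_cons f_w504_528_0_50_0q_p (all_cons f_w528_552_0_50_0q_p all_nil))))))))))))))))))))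
    (by decide +kernel)
def t46 : Tree := (.sR 2112 (.sR 2016 (.sg 30 (.sR 1968 (.leaf 0x4003800034240011000000000b0401004) (.leaf 0x4004c0001828006139c8000027a401005)) (.sR 1968 (.leaf 0x45c3804038240001000000000a844d044) (.leaf 0x3e04c0001828007139c8001bc7a3e1005))) (.leaf 0x480003c280031300000000a0001008)) (.sR 2208 (.leaf 0x5000040280041400000000a8001008) (.sR 2304 (.leaf 0x5400044280051480000000a8001008) (.sg 30 (.sR 2400 (.leaf 0x580001c280081500000000a0001008) (.sR 2496 (.leaf 0x5c00020280091580000000a0001008) (.sR 2688 (.sR 2592 (.sR 2544 (.leaf 0x68000482800017000000009c001008) (.leaf 0x6800050280001700000000a4001008)) (.sR 2640 (.leaf 0x6800024280011700000000a0001008) (.leaf 0x74000282800a1880000000a0001008))) (.sR 2784 (.sR 2736 (.leaf 0x6c0002c280021780000000a0001008) (.sr 2112 (.leaf 0x84000142800c1a8000000070001008) (.leaf 0x74000142800218800000009c001008))) (.sR 2832 (.leaf 0x74000302800b1880000000a0001008) (.sr 2112 (.sR 2928 (.sR 2880 (.leaf 0x8c000002800d1b800000009c001008) (.leaf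 0x8c000042800e1b8000000094001008)) (.sR 2976 (.leaf 0x94000082800f1c8000000090001008) (.sR 3024 (.leaf 0x900000c280101c000000009c001008) (.leaf 0x8800010280111b000000009c001008)))) (.sR 2928 (.sR 2880 (.leaf 0x7c000002801219800000009c001008) (.leaf 0x8800004280131b0000000094001008)) (.sR 2976 (.leaf 0x8000008280141a000000009c001008) (.sR 3024 (.leaf 0x8c0000c280151b800000009c001008) (.leaf 0x8800010280161b000000009c001008)))))))))) (.sR 2496 (.sR 2400 (.leaf 0x600001c28017160000000094001008) (.leaf 0x6000020280181600000000a4001008)) (.sR 2592 (.leaf 0x600004c280191600000000a4001008) (.sR 2736 (.sR 2640 (.leaf 0x6400024280011680000000a4001008) (.sR 2688 (.leaf 0x74000282801a1880000000a0001008) (.leaf 0x6c0002c2801b1780000000a0001008))) (.sR 2784 (.leaf 0x78000142801c1900000000a0001008) (.sR 2832 (.leaf 0x7c000302801d1980000000a0001008) (.sr 2112 (.sR 2928 (.sR 2880 (.leaf 0x88000002801e1b0000000094001008) (.leaf 0x90000042801f1c0000000098001008)) (.sR 2976 (.leaf 0x9400008280201c8000000080001008) (.sR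 3024 (.leaf 0x940000c280211c8000000098001008) (.leaf 0x9000010280221c000000009c001008)))) (.sR 2928 (.sR 2880 (.leaf 0x7c00000280231980000000a0001008) (.leaf 0x8c00004280241b8000000094001008)) (.sR 2976 (.leaf 0x8000008280251a000000009c001008) (.sR 3024 (.leaf 0x900000c280261c0000000094001008) (.leaf 0x8c00010280271b8000000098001008))))))))))))))
theorem k46 : ChunkP 4 4 2048 2176 28 32 1920 3072 :=
  chkY_sound (Q := 40) (C := [c94.c, c95.c]) (Z := [z1518, z1519, z1521, z1511, z1512, z1513, z1514, z1515, z1516, z1517, z1520, z1522, z1523, z1524, z1525, z1526, z1527, z1528, z1529, z1530, z1531, z1532, z1533, z1534, z1535, z1536, z1537, z1538, z1539, z1540, z1541, z1542, z1543, z1544, z1545, z1546, z1547, z1548, z1549, z1550])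
    (T := [f_w708_720_0_50_10q, f_w720_732_0_40_0q, f_w732_744_0_40_0q, f_w744_756_0_40_0q, f_w756_768_0_40_0q, f_w684_696_0_50_10q, f_w492_504_0_50_20q, f_w576_600_0_40_0q, f_w600_624_0_40_0q, f_w648_660_0_50_10q, f_w660_672_0_50_10q, f_w672_684_0_50_10q, f_w696_708_0_40_20q, f_w480_492_0_50_20q, f_w480_492_4_50_10q, f_w504_528_0_50_0q, f_w528_552_0_50_0q, f_w552_576_0_50_0q, f_w624_636_0_50_10q, f_w624_648_0_40_0q, f_w636_648_0_50_10q]) (t := t46)
    (all_cons p94 (all_cons p95 all_nil))
    (all_cons z1518P (all_cons z1519P (all_cons z1521P (all_cons z1511P (all_cons z1512P (all_cons z1513P (all_cons z1514P (all_cons z1515P (all_cons z1516P (all_cons z1517P (all_cons z1520P (all_cons z1522P (all_cons z1523P (all_cons z1524P (all_cons z1525P (all_cons z1526P (all_cons z1527P (all_cons z1528P (all_cons z1529P (all_cons z1530P (all_cons z1531P (all_cons z1532P (all_cons z1533P (all_cons z1534P (all_cons z1535P (all_cons z1536P (all_cons z1537P (all_cons z1538P (all_cons z1539P (all_cons z1540P (all_cons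 z1541P (all_cons z1542P (all_cons z1543P (all_cons z1544P (all_cons z1545P (all_cons z1546P (all_cons z1547P (all_cons z1548P (all_cons z1549P (all_cons z1550P all_nil))))))))))))))))))))))))))))))))))))))))
    (all_cons f_w708_720_0_50_10q_p (all_cons f_w720_732_0_40_0q_p (all_cons f_w732_744_0_40_0q_p (all_cons f_w744_756_0_40_0q_p (all_cons f_w756_768_0_40_0q_p (all_cons f_w684_696_0_50_10q_p (all_cons f_w492_504_0_50_20q_p (all_cons f_w576_600_0_40_0q_p (all_cons f_w600_624_0_40_0q_p (all_cons f_w648_660_0_50_10q_p (all_cons f_w660_672_0_50_10q_p (all_cons f_w672_684_0_50_10q_p (all_cons f_w696_708_0_40_20q_p (all_cons f_w480_492_0_50_20q_p (all_cons f_w480_492_4_50_10q_p (all_cons f_w504_528_0_50_0q_p (all_cons f_w528_552_0_50_0q_p (all_cons f_w552_576_0_50_0q_p (all_cons f_w624_636_0_50_10q_p (all_cons f_w624_648_0_40_0q_p (all_cons f_w636_648_0_50_10q_p all_nil)))))))))))))))))))))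
    (by decide +kernel)
def t47 : Tree := (.sR 2016 (.sg 30 (.sR 1968 (.sr 2240 (.leaf 0x400380000c240001000000000a0401004) (.leaf 0x400380000c240031000000000b0401004)) (.leaf 0x480001c280061300000000a8001008)) (.sR 1968 (.sr 2240 (.leaf 0x400380000c240011000000000a8401004) (.leaf 0x45c380404c240021000000000a844d044)) (.leaf 0x480001c280071300000000a4001008))) (.sR 2112 (.leaf 0x3c00050280051180000000a4001008) (.sg 30 (.sR 2304 (.sR 2208 (.leaf 0x4400020280011280000000ac001008) (.leaf 0x4c000242800813800000009c001008)) (.sR 2400 (.leaf 0x5400028280091480000000a8001008) (.sR 2496 (.leaf 0x580002c2800a1500000000a8001008) (.sR 2640 (.sR 2544 (.leaf 0x6400030280001680000000a0001008) (.sR 2592 (.leaf 0x6400034280001680000000a4001008) (.leaf 0x6c00038280021780000000a4001008))) (.sR 2736 (.sR 2688 (.leaf 0x680003c280021700000000a4001008) (.leaf 0x70000402800b1800000000a0001008)) (.sR 2784 (.leaf 0x70000102800c1800000000a0001008) (.sr 2240 (.sR 2928 (.sR 2832 (.leaf 0x88000002800d1b000000006c001008) (.sR 2880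 (.leaf 0x8c000042800e1b800000007c001008) (.leaf 0x84000082800f1a8000000098001008))) (.sR 2976 (.leaf 0x9400014280101c8000000098001008) (.sR 3024 (.leaf 0x8c00018280111b8000000098001008) (.leaf 0x9c00048280121d800000008c001008)))) (.sR 2928 (.sR 2832 (.leaf 0x7800000280131900000000a0001008) (.sR 2880 (.leaf 0x8800004280141b0000000098001008) (.leaf 0x8000008280151a0000000098001008))) (.sR 2976 (.leaf 0x8000014280161a000000009c001008) (.sR 3024 (.leaf 0x9400018280171c8000000094001008) (.leaf 0x8800048280181b000000009c001008))))))))))) (.sR 2304 (.sR 2208 (.leaf 0x4400020280011280000000ac001008) (.leaf 0x5000024280191400000000a8001008)) (.sR 2400 (.leaf 0x54000282801a1480000000a8001008) (.sR 2496 (.leaf 0x580002c2801b1500000000a8001008) (.sR 2640 (.sR 2544 (.leaf 0x6000030280001600000000a0001008) (.sR 2592 (.leaf 0x70000342801c1800000000a0001008) (.leaf 0x68000382800317000000009c001008))) (.sR 2688 (.leaf 0x680003c280031700000000a4001008) (.sR 2736 (.leaf 0x7000040280041800000000a0001008) (.sr 2240 (.sR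 2880 (.sR 2784 (.leaf 0x70000102801d1800000000a0001008) (.sR 2832 (.leaf 0x88000002801e1b000000006c001008) (.leaf 0x8c000042801f1b800000007c001008))) (.sR 2976 (.sR 2928 (.leaf 0x8800008280201b0000000094001008) (.leaf 0x8000054280211a000000009c001008)) (.sR 3024 (.leaf 0x8c00058280221b8000000094001008) (.leaf 0x8c00044280231b800000009c001008)))) (.sR 2880 (.sR 2784 (.leaf 0x7c00010280041980000000a0001008) (.sR 2832 (.leaf 0x7400000280241880000000a0001008) (.leaf 0x8800004280251b000000009c001008))) (.sR 2976 (.sR 2928 (.leaf 0x8400008280261a8000000098001008) (.leaf 0x9400014280271c8000000084001008)) (.sR 3024 (.leaf 0x9000018280281c0000000090001008) (.leaf 0x8800044280291b0000000098001008))))))))))))))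
theorem k47 : ChunkP 4 4 2176 2304 28 32 1920 3072 :=
  chkY_sound (Q := 40) (C := [c112.c, c113.c, c141.c, c142.c]) (Z := [z1558, z1554, z1559, z1578, z1579, z1551, z1552, z1553, z1555, z1556, z1557, z1560, z1561, z1562, z1563, z1564, z1565, z1566, z1567, z1568, z1569, z1570, z1571, z1572, z1573, z1574, z1575, z1576, z1577, z1580, z1581, z1582, z1583, z1584, z1585, z1586, z1587, z1588, z1589, z1590, z1591, z1592])
    (T := [f_w696_708_0_50_10q, f_w708_720_0_50_10q, f_w720_732_0_40_0q, f_w480_492_0_50_20q, f_w684_696_0_50_10q, f_w732_744_0_50_10q, f_w744_756_0_50_0q, f_w492_504_0_50_20q, f_w528_552_0_50_0q, f_w552_576_0_50_0q, f_w576_600_0_50_10q, f_w600_624_0_50_10q, f_w624_636_0_50_10q, f_w636_648_0_50_10q, f_w648_660_0_50_10q, f_w660_672_0_50_10q, f_w672_684_0_50_10q, f_w756_768_0_40_0q, f_w756_768_0_50_10q, f_w480_492_4_50_10q, f_w504_528_0_50_0q, f_w732_744_0_40_0q, f_w744_756_0_40_0q]) (t := t47)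
    (all_cons p112 (all_cons p113 (all_cons p141 (all_cons p142 all_nil))))
    (all_cons z1558P (all_cons z1554P (all_cons z1559P (all_cons z1578P (all_cons z1579P (all_cons z1551P (all_cons z1552P (all_cons z1553P (all_cons z1555P (all_cons z1556P (all_cons z1557P (all_cons z1560P (all_cons z1561P (all_cons z1562P (all_cons z1563P (all_cons z1564P (all_cons z1565P (all_cons z1566P (all_cons z1567P (all_cons z1568P (all_cons z1569P (all_cons z1570P (all_cons z1571P (all_cons z1572P (all_cons z1573P (all_cons z1574P (all_cons z1575P (all_cons z1576P (all_cons z1577P (all_cons z1580P (all_cons z1581P (all_cons z1582P (all_cons z1583P (all_cons z1584P (all_cons z1585P (all_cons z1586P (all_cons z1587P (all_cons z1588P (all_cons z1589P (all_cons z1590P (all_cons z1591P (all_cons z1592P all_nil))))))))))))))))))))))))))))))))))))))))))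
    (all_cons f_w696_708_0_50_10q_p (all_cons f_w708_720_0_50_10q_p (all_cons f_w720_732_0_40_0q_p (all_cons f_w480_492_0_50_20q_p (all_cons f_w684_696_0_50_10q_p (all_cons f_w732_744_0_50_10q_p (all_cons f_w744_756_0_50_0q_p (all_cons f_w492_504_0_50_20q_p (all_cons f_w528_552_0_50_0q_p (all_cons f_w552_576_0_50_0q_p (all_cons f_w576_600_0_50_10q_p (all_cons f_w600_624_0_50_10q_p (all_cons f_w624_636_0_50_10q_p (all_cons f_w636_648_0_50_10q_p (all_cons f_w648_660_0_50_10q_p (all_cons f_w660_672_0_50_10q_p (all_cons f_w672_684_0_50_10q_p (all_cons f_w756_768_0_40_0q_p (all_cons f_w756_768_0_50_10q_p (all_cons f_w480_492_4_50_10q_p (all_cons f_w504_528_0_50_0q_p (all_cons f_w732_744_0_40_0q_p (all_cons f_w744_756_0_40_0q_p all_nil)))))))))))))))))))))))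
    (by decide +kernel)

end Pool.Agent.Lib.MP_af3a4a_an.P1.CHK.DATA.N4s
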