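import Pool.Agent.Lib.MP_af3a4a_an.P1.CHK.SWP.Pay
import Pool.Agent.Lib.MP_af3a4a_an.P1.CHK.DATA.N4s.C0
import Pool.Agent.Lib.MP_af3a4a_an.P1.CHK.DATA.N4s.Z6
import Pool.Agent.Lib.MP_af3a4a_an.P1.CHK.DATA.F4.W480a
import Pool.Agent.Lib.MP_af3a4a_an.P1.CHK.DATA.F4.W480b
import Pool.Agent.Lib.MP_af3a4a_an.P1.CHK.DATA.F4.W528a
import Pool.Agent.Lib.MP_af3a4a_an.P1.CHK.DATA.F4.W528b
import Pool.Agent.Lib.MP_af3a4a_an.P1.CHK.DATA.F4.W576a
import Pool.Agent.Lib.MP_af3a4a_an.P1.CHK.DATA.F4.W624a
import Pool.Agent.Lib.MP_af3a4a_an.P1.CHK.DATA.F4.W672a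
import Pool.Agent.Lib.MP_af3a4a_an.P1.CHK.DATA.F4.W672b
import Pool.Agent.Lib.MP_af3a4a_an.P1.CHK.DATA.F4.W720a
import Pool.Agent.Lib.MP_af3a4a_an.P1.CHK.DATA.F4.W720b

/-! chunks for N = 4 (generated) -/

set_option autoImplicit false
set_option maxRecDepth 100000

namespace Pool.Agent.Lib.MP_af3a4a_an.P1.CHK.DATA.N4s

open BOX SWP

def t54 : Tree := (.sR 2016 (.sr 2176 (.sg 38 (.sR 1968 (.leaf 0x4003c0001c220001000000000b0401004) (.leaf 0x41054000082800714904564137a411005)) (.sR 1968 (.leaf 0x4003c0001c220011000000000ac401004) (.leaf 0x3d054000082800814904580137a3d1005))) (.sg 38 (.sR 1968 (.sr 2240 (.leaf 0x400380004c240021000000000b0401004) (.leaf 0x45c3804028240041000000000a844d044)) (.leaf 0x3e048000082800913154004fe7a3e1005)) (.sR 1968 (.sr 2240 (.leaf 0x4003c0001c220031000000000ac401004) (.leaf 0x45c3804028240051000000000a844d044)) (.leaf 0x4004c000082800a139c8000027a401005)))) (.sR 2112 (.leaf 0x4003c00050280061180000000b0401006) (.sr 2176 (.sR 2304 (.sR 2208 (.leaf 0x540002c2800b1480000000a4001008)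 (.leaf 0x58000302800c1500000000a4001008)) (.sR 2400 (.leaf 0x60000342800d160000000090001008) (.sR 2496 (.leaf 0x68000202800e170000000098001008) (.sg 38 (.sR 2688 (.sR 2592 (.leaf 0x600000c280001600000000a4001008) (.leaf 0x70000242800f180000000098001008)) (.sR 2784 (.leaf 0x740003c28010188000000098001008) (.sR 2880 (.sR 2832 (.leaf 0x8800044280011b000000008c001008) (.leaf 0x8000010280011a00000000a0001008)) (.sR 2928 (.leaf 0x8c00004280021b8000000098001008) (.sR 2976 (.leaf 0x8000014280021a000000009c001008) (.sr 2112 (.sR 3024 (.leaf 0x9800018280111d000000006c001008) (.leaf 0x9c00000280121d8000000080001008)) (.sR 3024 (.leaf 0x8c00018280131b8000000098001008) (.leaf 0x9c00000280141d8000000084001008)))))))) (.sR 2688 (.sR 2592 (.leaf 0x600000c280001600000000a4001008) (.leaf 0x780002428015190000000098001008)) (.sR 2784 (.leaf 0x800003c280161a00000000a0001008) (.sR 2928 (.sR 2832 (.leaf 0x8800044280031b0000000078001008) (.sR 2880 (.leaf 0x8800010280031b0000000094001008) (.leaf 0x9000004280041c0000000088001008)))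 (.sR 2976 (.leaf 0x8c00014280041b8000000094001008) (.sR 3024 (.leaf 0x8800018280171b0000000098001008) (.sr 2112 (.leaf 0x9c00000280181d8000000044001008) (.leaf 0x9000000280191c000000009c001008))))))))))) (.sR 2304 (.sR 2208 (.leaf 0x4c0002c2801a1380000000a8001008) (.leaf 0x50000302801b1400000000a8001008)) (.sR 2400 (.leaf 0x58000342801c1500000000a8001008) (.sg 38 (.sR 2496 (.leaf 0x5c000202801d1580000000a0001008) (.sR 2592 (.leaf 0x600000c2801e1600000000a4001008) (.sR 2832 (.sR 2688 (.sR 2640 (.leaf 0x68000542801f1700000000a0001008) (.leaf 0x7800058280201900000000a0001008)) (.sR 2736 (.leaf 0x7000038280211800000000a0001008) (.sR 2784 (.leaf 0x8000040280221a0000000098001008) (.leaf 0x7400048280231880000000a0001008)))) (.sR 2928 (.sR 2880 (.leaf 0x78000102802419000000009c001008) (.sr 2240 (.leaf 0x9000004280271c0000000078001008) (.leaf 0x8000004280281a000000009c001008))) (.sR 2976 (.leaf 0x8000014280251a000000009c001008) (.sR 3024 (.leaf 0x8c0005c280261b8000000098001008) (.sr 2240 (.leaf 0x9c00000280291d8000000084001008)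 (.leaf 0x9c000002802a1d8000000084001008)))))))) (.sR 2592 (.sR 2496 (.leaf 0x68000202802b170000000088001008) (.leaf 0x680000c2802c1700000000a4001008)) (.sR 2688 (.leaf 0x6c000242802d17800000009c001008) (.sR 2880 (.sR 2784 (.sR 2736 (.leaf 0x70000382802e18000000009c001008) (.leaf 0x84000402802f1a800000009c001008)) (.sR 2832 (.leaf 0x7400048280051880000000a0001008) (.leaf 0x7c000102800519800000009c001008))) (.sR 2976 (.sR 2928 (.leaf 0x7c000042803019800000009c001008) (.leaf 0x9000014280311c000000009c001008)) (.sR 3024 (.leaf 0x8400018280321a800000009c001008) (.leaf 0x9000060280331c000000009c001008))))))))))))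
theorem k54 : ChunkP 4 4 2048 2304 36 40 1920 3072 :=
  chkY_sound (Q := 40) (C := [c97.c, c98.c, c116.c, c117.c, c144.c, c145.c]) (Z := [z1849, z1852, z1853, z1860, z1861, z1887, z1840, z1841, z1842, z1843, z1844, z1845, z1846, z1847, z1848, z1850, z1851, z1854, z1855, z1856, z1857, z1858, z1859, z1862, z1863, z1864, z1865, z1866, z1867, z1868, z1869, z1870, z1871, z1872, z1873, z1874, z1875, z1876, z1877, z1878, z1879, z1880, z1881, z1882, z1883, z1884, z1885, z1886, z1888, z1889, z1890, z1891])
    (T := [f_w756_768_0_40_0q, f_w720_732_0_40_0q, f_w492_504_0_50_20q, f_w624_648_0_40_0q, f_w708_720_0_40_10q, f_w732_744_0_40_0q, f_w744_756_0_40_0q, f_w480_492_0_40_20q, f_w600_624_0_40_0q, f_w648_672_0_40_0q, f_w480_492_4_50_10q, f_w528_552_0_50_0q, f_w552_576_0_50_0q, f_w576_600_0_40_0q, f_w672_684_0_50_10q, f_w672_696_0_40_0q, f_w684_696_0_50_10q, f_w696_708_0_40_20q, f_w696_708_0_50_10q, f_w480_492_0_50_20q, f_w504_528_0_40_20q, f_w648_660_0_50_10q, f_w660_672_0_50_10q, f_w744_756_0_45_30q, f_w756_768_0_45_30q])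 (t := t54)
    (all_cons p97 (all_cons p98 (all_cons p116 (all_cons p117 (all_cons p144 (all_cons p145 all_nil))))))
    (all_cons z1849P (all_cons z1852P (all_cons z1853P (all_cons z1860P (all_cons z1861P (all_cons z1887P (all_cons z1840P (all_cons z1841P (all_cons z1842P (all_cons z1843P (all_cons z1844P (all_cons z1845P (all_cons z1846P (all_cons z1847P (all_cons z1848P (all_cons z1850P (all_cons z1851P (all_cons z1854P (all_cons z1855P (all_cons z1856P (all_cons z1857P (all_cons z1858P (all_cons z1859P (all_cons z1862P (all_cons z1863P (all_cons z1864P (all_cons z1865P (all_cons z1866P (all_cons z1867P (all_cons z1868P (all_cons z1869P (all_cons z1870P (all_cons z1871P (all_cons z1872P (all_cons z1873P (all_cons z1874P (all_cons z1875P (all_cons z1876P (all_cons z1877P (all_cons z1878P (all_cons z1879P (all_cons z1880P (all_cons z1881P (all_cons z1882P (all_cons z1883P (all_cons z1884P (all_cons z1885P (all_cons z1886P (all_cons z1888P (all_cons z1889P (all_cons z1890P (all_cons z1891P all_nil))))))))))))))))))))))))))))))))))))))))))))))))))))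
    (all_cons f_w756_768_0_40_0q_p (all_cons f_w720_732_0_40_0q_p (all_cons f_w492_504_0_50_20q_p (all_cons f_w624_648_0_40_0q_p (all_cons f_w708_720_0_40_10q_p (all_cons f_w732_744_0_40_0q_p (all_cons f_w744_756_0_40_0q_p (all_cons f_w480_492_0_40_20q_p (all_cons f_w600_624_0_40_0q_p (all_cons f_w648_672_0_40_0q_p (all_cons f_w480_492_4_50_10q_p (all_cons f_w528_552_0_50_0q_p (all_cons f_w552_576_0_50_0q_p (all_cons f_w576_600_0_40_0q_p (all_cons f_w672_684_0_50_10q_p (all_cons f_w672_696_0_40_0q_p (all_cons f_w684_696_0_50_10q_p (all_cons f_w696_708_0_40_20q_p (all_cons f_w696_708_0_50_10q_p (all_cons f_w480_492_0_50_20q_p (all_cons f_w504_528_0_40_20q_p (all_cons f_w648_660_0_50_10q_p (all_cons f_w660_672_0_50_10q_p (all_cons f_w744_756_0_45_30q_p (all_cons f_w756_768_0_45_30q_p all_nil)))))))))))))))))))))))))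
    (by decide +kernel)
def t55 : Tree := (.sg 34 (.sR 2112 (.sR 2016 (.sR 1968 (.sr 2368 (.leaf 0x45c3804000240001000000000a844d044) (.leaf 0x45c3804000240021000000000ac44d044)) (.leaf 0x40000142800912000000009c001008)) (.leaf 0x3c00018280071180000000a0001008)) (.sR 2208 (.leaf 0x440001c280081280000000a8001008) (.sR 2496 (.sR 2352 (.sR 2256 (.leaf 0x4800054280011300000000a4001008) (.sR 2304 (.leaf 0x580005c280011500000000a4001008) (.leaf 0x4c00020280021380000000ac001008))) (.sR 2400 (.leaf 0x6000024280021600000000a4001008) (.sR 2448 (.leaf 0x5800028280001500000000a0001008) (.leaf 0x580002c280001500000000a8001008)))) (.sR 2640 (.sR 2544 (.leaf 0x6400030280031680000000a4001008) (.sR 2592 (.leaf 0x6000034280031600000000a4001008) (.leaf 0x6800038280041700000000a0001008))) (.sR 2736 (.sR 2688 (.leaf 0x680003c280041700000000a4001008) (.leaf 0x70000402800a1800000000a0001008)) (.sR 2784 (.leaf 0x70000442800b1800000000a0001008) (.sr 2368 (.sR 2928 (.sR 2832 (.leaf 0x88000042800c1b0000000080001008) (.sR 2880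 (.leaf 0x8c0000c2800d1b800000006c001008) (.leaf 0x88000482800e1b000000009c001008))) (.sR 2976 (.leaf 0x80000102800f1a000000009c001008) (.sR 3024 (.leaf 0x9400008280101c800000008c001008) (.leaf 0x900004c280111c000000009c001008)))) (.sR 2928 (.sR 2832 (.leaf 0x78000042801219000000009c001008) (.sR 2880 (.leaf 0x7c0000c2801319800000009c001008) (.leaf 0x8400048280141a800000009c001008))) (.sR 2976 (.leaf 0x8000064280151a000000009c001008) (.sR 3024 (.leaf 0x8400008280161a8000000098001008) (.leaf 0x9c00050280171d8000000070001008))))))))))) (.sR 2112 (.sR 2016 (.sR 1968 (.sr 2368 (.leaf 0x45c3804000240011000000000a844d044) (.leaf 0x45c3804000240031000000000b044d044)) (.leaf 0x44000142801b1280000000a8001008)) (.leaf 0x3c000182801811800000009c001008)) (.sR 2208 (.leaf 0x440001c280191280000000a4001008) (.sR 2304 (.leaf 0x4c000582801a1380000000ac001008) (.sR 2640 (.sR 2448 (.sR 2352 (.leaf 0x4c000202801c1380000000ac001008) (.sR 2400 (.leaf 0x60000242801d1600000000a4001008) (.leaf 0x5800028280001500000000a8001008)))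 (.sR 2544 (.sR 2496 (.leaf 0x680002c2801e1700000000a0001008) (.leaf 0x6400030280051680000000a4001008)) (.sR 2592 (.leaf 0x6000034280051600000000a4001008) (.leaf 0x6800038280061700000000a0001008)))) (.sR 2784 (.sR 2688 (.leaf 0x680003c280061700000000a4001008) (.sR 2736 (.leaf 0x70000402801f18000000009c001008) (.leaf 0x7000044280201800000000a0001008))) (.sR 2880 (.sR 2832 (.sr 2368 (.leaf 0x8800004280231b0000000080001008) (.leaf 0x78000042802419000000009c001008)) (.leaf 0x7c0000c280211980000000a0001008)) (.sR 2928 (.leaf 0x7c00060280221980000000a0001008) (.sr 2368 (.sR 2976 (.leaf 0x8800010280251b000000009c001008) (.sR 3024 (.leaf 0x9400008280261c800000008c001008) (.leaf 0x980004c280271d0000000098001008))) (.sR 2976 (.leaf 0x8400010280281a8000000098001008) (.sR 3024 (.leaf 0x9800008280291d0000000084001008) (.leaf 0x9c000502802a1d8000000070001008))))))))))))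
theorem k55 : ChunkP 4 4 2304 2432 32 36 1920 3072 :=
  chkY_sound (Q := 40) (C := [c154.c, c155.c, c184.c, c185.c]) (Z := [z1897, z1895, z1896, z1898, z1899, z1921, z1922, z1892, z1893, z1894, z1900, z1901, z1902, z1903, z1904, z1905, z1906, z1907, z1908, z1909, z1910, z1911, z1912, z1913, z1914, z1915, z1916, z1917, z1918, z1919, z1920, z1923, z1924, z1925, z1926, z1927, z1928, z1929, z1930, z1931, z1932, z1933, z1934])
    (T := [f_w480_492_4_50_10q, f_w696_708_0_50_10q, f_w744_756_0_50_0q, f_w708_720_0_50_10q, f_w732_744_0_40_0q, f_w492_504_0_50_20q, f_w504_528_0_50_0q, f_w528_552_0_50_0q, f_w576_588_0_60_10q, f_w588_600_0_50_20q, f_w600_612_0_50_20q, f_w612_624_0_50_20q, f_w624_636_0_50_10q, f_w636_648_0_50_10q, f_w648_660_0_50_10q, f_w660_672_0_50_10q, f_w672_684_0_50_10q, f_w684_696_0_50_10q, f_w720_732_0_40_0q, f_w756_768_0_40_0q, f_w756_768_0_50_10q, f_w552_564_0_60_10q, f_w552_576_0_50_0q, f_w564_576_0_50_30q, f_w720_732_0_50_30q, f_w732_744_0_50_10q]) (t := t55)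
    (all_cons p154 (all_cons p155 (all_cons p184 (all_cons p185 all_nil))))
    (all_cons z1897P (all_cons z1895P (all_cons z1896P (all_cons z1898P (all_cons z1899P (all_cons z1921P (all_cons z1922P (all_cons z1892P (all_cons z1893P (all_cons z1894P (all_cons z1900P (all_cons z1901P (all_cons z1902P (all_cons z1903P (all_cons z1904P (all_cons z1905P (all_cons z1906P (all_cons z1907P (all_cons z1908P (all_cons z1909P (all_cons z1910P (all_cons z1911P (all_cons z1912P (all_cons z1913P (all_cons z1914P (all_cons z1915P (all_cons z1916P (all_cons z1917P (all_cons z1918P (all_cons z1919P (all_cons z1920P (all_cons z1923P (all_cons z1924P (all_cons z1925P (all_cons z1926P (all_cons z1927P (all_cons z1928P (all_cons z1929P (all_cons z1930P (all_cons z1931P (all_cons z1932P (all_cons z1933P (all_cons z1934P all_nil)))))))))))))))))))))))))))))))))))))))))))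
    (all_cons f_w480_492_4_50_10q_p (all_cons f_w696_708_0_50_10q_p (all_cons f_w744_756_0_50_0q_p (all_cons f_w708_720_0_50_10q_p (all_cons f_w732_744_0_40_0q_p (all_cons f_w492_504_0_50_20q_p (all_cons f_w504_528_0_50_0q_p (all_cons f_w528_552_0_50_0q_p (all_cons f_w576_588_0_60_10q_p (all_cons f_w588_600_0_50_20q_p (all_cons f_w600_612_0_50_20q_p (all_cons f_w612_624_0_50_20q_p (all_cons f_w624_636_0_50_10q_p (all_cons f_w636_648_0_50_10q_p (all_cons f_w648_660_0_50_10q_p (all_cons f_w660_672_0_50_10q_p (all_cons f_w672_684_0_50_10q_p (all_cons f_w684_696_0_50_10q_p (all_cons f_w720_732_0_40_0q_p (all_cons f_w756_768_0_40_0q_p (all_cons f_w756_768_0_50_10q_p (all_cons f_w552_564_0_60_10q_p (all_cons f_w552_576_0_50_0q_p (all_cons f_w564_576_0_50_30q_p (all_cons f_w720_732_0_50_30q_p (all_cons f_w732_744_0_50_10q_p all_nil))))))))))))))))))))))))))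
    (by decide +kernel)
def t56 : Tree := (.sg 34 (.sR 2496 (.sR 2208 (.sR 2064 (.sR 1968 (.sr 2496 (.leaf 0x45c3804008240001000000000b044d044) (.sg 33 (.leaf 0x45c3804000240031000000000b044d044) (.leaf 0x45c3804000240041000000000b044d044))) (.sR 2016 (.leaf 0x400380000c280081100000000b0401006) (.leaf 0x4003800010280091100000000b0401006))) (.sR 2112 (.leaf 0x40000142800a1200000000ac001008) (.sR 2160 (.leaf 0x40000182800b12000000009c001008) (.leaf 0x440001c2800c1280000000a4001008)))) (.sR 2352 (.sR 2256 (.leaf 0x480005c280001300000000a0001008) (.sR 2304 (.leaf 0x4c00020280001380000000ac001008) (.leaf 0x4c000682800d1380000000ac001008))) (.sR 2400 (.leaf 0x5c000242800e1580000000a4001008) (.sR 2448 (.leaf 0x5800028280011500000000a4001008) (.leaf 0x580002c280011500000000a8001008))))) (.sR 2784 (.sR 2640 (.sR 2544 (.leaf 0x6000030280021600000000a4001008) (.sR 2592 (.leaf 0x6000034280021600000000a4001008) (.leaf 0x6800038280031700000000a0001008))) (.sR 2688 (.leaf 0x680003c280031700000000a4001008) (.sR 2736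 (.leaf 0x6c000402800f1780000000a4001008) (.leaf 0x74000442801018800000009c001008)))) (.sR 2928 (.sR 2832 (.leaf 0x7400048280111880000000a0001008) (.sR 2880 (.leaf 0x7c0004c280121980000000a0001008) (.sr 2496 (.leaf 0x8000050280161a000000009c001008) (.leaf 0x8000054280171a0000000098001008)))) (.sR 2976 (.leaf 0x8000058280131a00000000a0001008) (.sR 3024 (.leaf 0x840006c280141a800000009c001008) (.leaf 0x8800070280151b000000009c001008)))))) (.sR 2976 (.sR 2448 (.sR 2160 (.sR 2016 (.sR 1968 (.sr 2496 (.sg 35 (.leaf 0x45c3804004240011000000000ac44d044) (.leaf 0x45c3804004240021000000000ac44d044)) (.sg 35 (.leaf 0x45c3804000240051000000000b044d044) (.leaf 0x45c3804008240061000000000b044d044))) (.leaf 0x3c0000c280181180000000a8001008)) (.sR 2064 (.leaf 0x4003800010280191100000000a8401006) (.sR 2112 (.leaf 0x3c000142801a1180000000a0001008) (.leaf 0x44000182801b1280000000ac001008)))) (.sR 2304 (.sR 2208 (.leaf 0x440001c2801c1280000000ac001008) (.sR 2256 (.leaf 0x4800060280041300000000a8001008) (.leaf 0x5000020280041400000000a0001008)))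 (.sR 2352 (.leaf 0x50000642801d1400000000a4001008) (.sR 2400 (.leaf 0x5c000242801e1580000000a0001008) (.leaf 0x5800028280051500000000a4001008))))) (.sR 2688 (.sR 2544 (.sR 2496 (.leaf 0x580002c280051500000000a8001008) (.leaf 0x6000030280061600000000a4001008)) (.sR 2592 (.leaf 0x6000034280061600000000a4001008) (.sR 2640 (.leaf 0x6800038280071700000000a0001008) (.leaf 0x680003c280071700000000a4001008)))) (.sR 2832 (.sR 2736 (.leaf 0x6c000402801f1780000000a4001008) (.sR 2784 (.leaf 0x740004428020188000000098001008) (.leaf 0x7400048280211880000000a0001008))) (.sR 2880 (.leaf 0x7c0004c2802219800000009c001008) (.sR 2928 (.sr 2496 (.leaf 0x8800050280241b0000000098001008) (.leaf 0x8000054280251a000000009c001008)) (.leaf 0x8000058280231a00000000a0001008)))))) (.leaf 3)))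
theorem k56 : ChunkP 4 4 2432 2560 32 36 1920 3072 :=
  chkY_sound (Q := 40) (C := [c201.c, c202.c, c203.c, c243.c, c244.c, c245.c, c246.c]) (Z := [z1940, z1943, z1944, z1945, z1960, z1963, z1964, z1965, z1935, z1936, z1937, z1938, z1939, z1941, z1942, z1946, z1947, z1948, z1949, z1950, z1951, z1952, z1953, z1954, z1955, z1956, z1957, z1958, z1959, z1961, z1962, z1966, z1967, z1968, z1969, z1970, z1971, z1972])
    (T := [f_w480_492_4_50_20q, f_w480_492_4_50_10q, f_w480_492_4_50_40q, f_w492_504_0_50_20q, f_w504_516_0_60_10q, f_w516_528_0_60_10q, f_w528_540_0_50_30q, f_w540_552_0_60_10q, f_w564_576_0_50_30q, f_w588_600_0_50_20q, f_w600_612_0_50_20q, f_w612_624_0_50_20q, f_w624_636_0_50_10q, f_w636_648_0_50_10q, f_w648_660_0_50_10q, f_w660_672_0_50_10q, f_w672_684_0_50_10q, f_w684_696_0_50_10q, f_w696_708_0_50_10q, f_w708_720_0_50_30q, f_w720_732_0_40_0q, f_w720_732_0_50_20q, f_w732_744_0_50_20q, f_w552_564_0_50_30q, f_w552_564_0_60_10q, f_w576_588_0_50_30q, f_w576_588_0_60_10q, f_w744_756_0_50_25q,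 f_w756_768_0_50_25q]) (t := t56)
    (all_cons p201 (all_cons p202 (all_cons p203 (all_cons p243 (all_cons p244 (all_cons p245 (all_cons p246 all_nil)))))))
    (all_cons z1940P (all_cons z1943P (all_cons z1944P (all_cons z1945P (all_cons z1960P (all_cons z1963P (all_cons z1964P (all_cons z1965P (all_cons z1935P (all_cons z1936P (all_cons z1937P (all_cons z1938P (all_cons z1939P (all_cons z1941P (all_cons z1942P (all_cons z1946P (all_cons z1947P (all_cons z1948P (all_cons z1949P (all_cons z1950P (all_cons z1951P (all_cons z1952P (all_cons z1953P (all_cons z1954P (all_cons z1955P (all_cons z1956P (all_cons z1957P (all_cons z1958P (all_cons z1959P (all_cons z1961P (all_cons z1962P (all_cons z1966P (all_cons z1967P (all_cons z1968P (all_cons z1969P (all_cons z1970P (all_cons z1971P (all_cons z1972P all_nil))))))))))))))))))))))))))))))))))))))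
    (all_cons f_w480_492_4_50_20q_p (all_cons f_w480_492_4_50_10q_p (all_cons f_w480_492_4_50_40q_p (all_cons f_w492_504_0_50_20q_p (all_cons f_w504_516_0_60_10q_p (all_cons f_w516_528_0_60_10q_p (all_cons f_w528_540_0_50_30q_p (all_cons f_w540_552_0_60_10q_p (all_cons f_w564_576_0_50_30q_p (all_cons f_w588_600_0_50_20q_p (all_cons f_w600_612_0_50_20q_p (all_cons f_w612_624_0_50_20q_p (all_cons f_w624_636_0_50_10q_p (all_cons f_w636_648_0_50_10q_p (all_cons f_w648_660_0_50_10q_p (all_cons f_w660_672_0_50_10q_p (all_cons f_w672_684_0_50_10q_p (all_cons f_w684_696_0_50_10q_p (all_cons f_w696_708_0_50_10q_p (all_cons f_w708_720_0_50_30q_p (all_cons f_w720_732_0_40_0q_p (all_cons f_w720_732_0_50_20q_p (all_cons f_w732_744_0_50_20q_p (all_cons f_w552_564_0_50_30q_p (all_cons f_w552_564_0_60_10q_p (all_cons f_w576_588_0_50_30q_p (all_cons f_w576_588_0_60_10q_p (all_cons f_w744_756_0_50_25q_p (all_cons f_w756_768_0_50_25q_p all_nil)))))))))))))))))))))))))))))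
    (by decide +kernel)
def t57 : Tree := (.sg 38 (.sR 2208 (.sR 2016 (.sR 1968 (.sr 2368 (.leaf 0x45c3804000240001000000000a844d044) (.leaf 0x45c3804000240021000000000b044d044)) (.leaf 0x4400004280091280000000a4001008)) (.sR 2112 (.leaf 0x4000008280051200000000ac001008) (.leaf 0x440000c280061280000000a0001008))) (.sR 2400 (.sR 2304 (.leaf 0x4c00010280071380000000a8001008) (.sR 2352 (.leaf 0x5800014280001500000000a8001008) (.leaf 0x5400018280001480000000a4001008))) (.sR 2496 (.leaf 0x5800040280081500000000a8001008) (.sR 2784 (.sR 2640 (.sR 2544 (.leaf 0x60000442800116000000009c001008) (.sR 2592 (.leaf 0x600004c280011600000000a4001008) (.leaf 0x680001c2800217000000009c001008))) (.sR 2688 (.leaf 0x6800020280021700000000a4001008) (.sR 2736 (.leaf 0x74000242800a1880000000a0001008) (.leaf 0x74000282800b1880000000a0001008)))) (.sR 2928 (.sR 2832 (.leaf 0x74000542800c1880000000a0001008) (.sR 2880 (.leaf 0x7c0002c2800d1980000000a0001008) (.leaf 0x80000302800e1a000000009c001008))) (.sR 2976 (.leaf 0x80000342800f1a00000000a0001008)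 (.sR 3024 (.sr 2368 (.leaf 0x9800038280111d0000000078001008) (.leaf 0x8800038280121b0000000098001008)) (.leaf 0x900005c280101c0000000080001008)))))))) (.sR 2304 (.sR 2112 (.sR 2016 (.sR 1968 (.sr 2368 (.leaf 0x45c3c00000220011000000000a844d044) (.leaf 0x45c3804000240031000000000b044d044)) (.leaf 0x480000428018130000000090001008)) (.leaf 0x4000008280131200000000a8001008)) (.sR 2208 (.leaf 0x480000c280141300000000ac001008) (.leaf 0x4c00010280151380000000a4001008))) (.sR 2496 (.sR 2400 (.sR 2352 (.leaf 0x5400014280001480000000a4001008) (.leaf 0x6400018280191680000000a0001008)) (.leaf 0x580003c280161500000000a8001008)) (.sR 2592 (.leaf 0x6000048280171600000000a4001008) (.sR 2832 (.sR 2688 (.sR 2640 (.leaf 0x6c0001c280031780000000a0001008) (.leaf 0x6800020280031700000000a4001008)) (.sR 2736 (.leaf 0x78000242801a1900000000a0001008) (.sR 2784 (.leaf 0x74000282801b18800000009c001008) (.leaf 0x80000502801c1a0000000098001008)))) (.sR 2928 (.sR 2880 (.leaf 0x800002c2801d1a00000000a0001008) (.leaf 0x7c00030280041980000000a0001008))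 (.sR 2976 (.leaf 0x8000034280041a00000000a0001008) (.sR 3024 (.leaf 0x84000582801e1a8000000098001008) (.leaf 3)))))))))
theorem k57 : ChunkP 4 4 2304 2432 36 40 1920 3072 :=
  chkY_sound (Q := 40) (C := [c156.c, c157.c, c186.c, c187.c]) (Z := [z1978, z1979, z1980, z1997, z2002, z1973, z1974, z1975, z1976, z1977, z1981, z1982, z1983, z1984, z1985, z1986, z1987, z1988, z1989, z1990, z1991, z1992, z1993, z1994, z1995, z1996, z1998, z1999, z2000, z2001, z2003])
    (T := [f_w480_492_4_50_10q, f_w492_504_0_50_20q, f_w504_528_0_50_0q, f_w528_552_0_50_0q, f_w552_576_0_50_0q, f_w576_588_0_50_30q, f_w588_600_0_50_20q, f_w648_660_0_50_10q, f_w660_672_0_50_10q, f_w672_684_0_50_10q, f_w684_696_0_50_10q, f_w708_720_0_50_10q, f_w720_732_0_50_30q, f_w732_744_0_45_30q, f_w744_756_0_40_0q, f_w600_624_0_40_0q, f_w600_624_0_50_10q, f_w624_636_0_50_10q, f_w624_648_0_50_10q, f_w636_648_0_50_10q, f_w696_708_0_50_10q, f_w696_708_0_50_30q, f_w744_756_0_50_0q, f_w756_768_0_45_30q]) (t := t57)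
    (all_cons p156 (all_cons p157 (all_cons p186 (all_cons p187 all_nil))))
    (all_cons z1978P (all_cons z1979P (all_cons z1980P (all_cons z1997P (all_cons z2002P (all_cons z1973P (all_cons z1974P (all_cons z1975P (all_cons z1976P (all_cons z1977P (all_cons z1981P (all_cons z1982P (all_cons z1983P (all_cons z1984P (all_cons z1985P (all_cons z1986P (all_cons z1987P (all_cons z1988P (all_cons z1989P (all_cons z1990P (all_cons z1991P (all_cons z1992P (all_cons z1993P (all_cons z1994P (all_cons z1995P (all_cons z1996P (all_cons z1998P (all_cons z1999P (all_cons z2000P (all_cons z2001P (all_cons z2003P all_nil)))))))))))))))))))))))))))))))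
    (all_cons f_w480_492_4_50_10q_p (all_cons f_w492_504_0_50_20q_p (all_cons f_w504_528_0_50_0q_p (all_cons f_w528_552_0_50_0q_p (all_cons f_w552_576_0_50_0q_p (all_cons f_w576_588_0_50_30q_p (all_cons f_w588_600_0_50_20q_p (all_cons f_w648_660_0_50_10q_p (all_cons f_w660_672_0_50_10q_p (all_cons f_w672_684_0_50_10q_p (all_cons f_w684_696_0_50_10q_p (all_cons f_w708_720_0_50_10q_p (all_cons f_w720_732_0_50_30q_p (all_cons f_w732_744_0_45_30q_p (all_cons f_w744_756_0_40_0q_p (all_cons f_w600_624_0_40_0q_p (all_cons f_w600_624_0_50_10q_p (all_cons f_w624_636_0_50_10q_p (all_cons f_w624_648_0_50_10q_p (all_cons f_w636_648_0_50_10q_p (all_cons f_w696_708_0_50_10q_p (all_cons f_w696_708_0_50_30q_p (all_cons f_w744_756_0_50_0q_p (all_cons f_w756_768_0_45_30q_p all_nil))))))))))))))))))))))))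
    (by decide +kernel)
def t58 : Tree := (.sR 2976 (.sg 38 (.sR 2448 (.sR 2160 (.sR 2016 (.sR 1968 (.sr 2496 (.sg 37 (.leaf 0x45c3804000240001000000000ac44d044) (.leaf 0x45c3804000240011000000000b044d044)) (.sg 37 (.leaf 0x45c3804008240041000000000b044d044) (.leaf 0x45c3804004240051000000000b044d044))) (.leaf 0x3c0000c2800a1180000000a4001008)) (.sR 2064 (.leaf 0x40038000502800b1100000000b0401006) (.sR 2112 (.leaf 0x3c000582800c1180000000a0001008) (.leaf 0x4000010280001200000000ac001008)))) (.sR 2304 (.sR 2208 (.leaf 0x4c00014280001380000000a8001008) (.sR 2256 (.leaf 0x4800018280011300000000ac001008) (.leaf 0x540001c280011480000000a8001008))) (.sR 2352 (.leaf 0x4c00020280021380000000ac001008) (.sR 2400 (.leaf 0x5c00024280021580000000a8001008) (.leaf 0x5800028280031500000000a0001008))))) (.sR 2688 (.sR 2544 (.sR 2496 (.leaf 0x580002c280031500000000a8001008) (.leaf 0x6000030280041600000000a0001008)) (.sR 2592 (.leaf 0x6000034280041600000000a4001008) (.sR 2640 (.leaf 0x68000382800517000000009c001008)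 (.leaf 0x680003c280051700000000a4001008)))) (.sR 2832 (.sR 2736 (.leaf 0x6c000402800d1780000000a4001008) (.sR 2784 (.leaf 0x78000442800e19000000009c001008) (.leaf 0x74000482800f1880000000a0001008))) (.sR 2880 (.leaf 0x7c0004c28010198000000098001008) (.sR 2928 (.leaf 0x7c0005c280111980000000a0001008) (.leaf 3)))))) (.sR 2112 (.sR 2016 (.sR 1968 (.sr 2496 (.sg 39 (.leaf 0x45c3804000240021000000000ac44d044) (.leaf 0x45c3804000240031000000000ac44d044)) (.sg 39 (.leaf 0x45c3804008240061000000000b044d044) (.leaf 0x45c3c00004220071000000000b044d044))) (.leaf 0x400000c280131200000000ac001008)) (.leaf 0x3c00054280121180000000ac001008)) (.sR 2880 (.sR 2496 (.sR 2304 (.sR 2208 (.sR 2160 (.leaf 0x4000010280141200000000a4001008) (.leaf 0x4400014280151280000000ac001008)) (.sR 2256 (.leaf 0x4800018280161300000000a4001008) (.leaf 0x540001c280171480000000a0001008))) (.sR 2400 (.sR 2352 (.leaf 0x4c00020280181380000000ac001008) (.leaf 0x5c00024280191580000000a0001008)) (.sR 2448 (.leaf 0x6800028280061700000000a0001008)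 (.leaf 0x680002c280061700000000a4001008)))) (.sR 2688 (.sR 2592 (.sR 2544 (.leaf 0x6400030280071680000000a4001008) (.leaf 0x6000034280071600000000a4001008)) (.sR 2640 (.leaf 0x6c00038280081780000000a0001008) (.leaf 0x680003c280081700000000a4001008))) (.sR 2784 (.sR 2736 (.leaf 0x78000402800919000000009c001008) (.leaf 0x74000442800918800000009c001008)) (.sR 2832 (.leaf 0x78000482801a1900000000a0001008) (.leaf 0x7c0004c2801b1980000000a0001008))))) (.leaf 3)))) (.leaf 3))
theorem k58 : ChunkP 4 4 2432 2560 36 40 1920 3072 :=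
  chkY_sound (Q := 40) (C := [c204.c, c205.c, c206.c, c207.c, c247.c, c248.c, c249.c, c250.c]) (Z := [z2007, z2008, z2009, z2010, z2011, z2012, z2026, z2027, z2028, z2029, z2004, z2005, z2006, z2013, z2014, z2015, z2016, z2017, z2018, z2019, z2020, z2021, z2022, z2023, z2024, z2025, z2030, z2031])
    (T := [f_w480_492_4_50_10q, f_w480_492_4_50_30q, f_w480_492_4_50_40q, f_w492_504_0_50_20q, f_w528_540_0_60_10q, f_w540_552_0_50_30q, f_w552_564_0_60_10q, f_w564_576_0_50_30q, f_w576_588_0_60_10q, f_w588_600_0_50_20q, f_w600_612_0_50_20q, f_w612_624_0_50_20q, f_w624_636_0_50_10q, f_w636_648_0_50_10q, f_w648_660_0_50_10q, f_w660_672_0_50_10q, f_w672_684_0_50_10q, f_w684_696_0_50_10q, f_w696_708_0_50_10q, f_w708_720_0_50_30q, f_w504_516_0_60_10q, f_w504_528_0_50_0q, f_w516_528_0_60_10q, f_w720_732_0_50_20q]) (t := t58)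
    (all_cons p204 (all_cons p205 (all_cons p206 (all_cons p207 (all_cons p247 (all_cons p248 (all_cons p249 (all_cons p250 all_nil))))))))
    (all_cons z2007P (all_cons z2008P (all_cons z2009P (all_cons z2010P (all_cons z2011P (all_cons z2012P (all_cons z2026P (all_cons z2027P (all_cons z2028P (all_cons z2029P (all_cons z2004P (all_cons z2005P (all_cons z2006P (all_cons z2013P (all_cons z2014P (all_cons z2015P (all_cons z2016P (all_cons z2017P (all_cons z2018P (all_cons z2019P (all_cons z2020P (all_cons z2021P (all_cons z2022P (all_cons z2023P (all_cons z2024P (all_cons z2025P (all_cons z2030P (all_cons z2031P all_nil))))))))))))))))))))))))))))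
    (all_cons f_w480_492_4_50_10q_p (all_cons f_w480_492_4_50_30q_p (all_cons f_w480_492_4_50_40q_p (all_cons f_w492_504_0_50_20q_p (all_cons f_w528_540_0_60_10q_p (all_cons f_w540_552_0_50_30q_p (all_cons f_w552_564_0_60_10q_p (all_cons f_w564_576_0_50_30q_p (all_cons f_w576_588_0_60_10q_p (all_cons f_w588_600_0_50_20q_p (all_cons f_w600_612_0_50_20q_p (all_cons f_w612_624_0_50_20q_p (all_cons f_w624_636_0_50_10q_p (all_cons f_w636_648_0_50_10q_p (all_cons f_w648_660_0_50_10q_p (all_cons f_w660_672_0_50_10q_p (all_cons f_w672_684_0_50_10q_p (all_cons f_w684_696_0_50_10q_p (all_cons f_w696_708_0_50_10q_p (all_cons f_w708_720_0_50_30q_p (all_cons f_w504_516_0_60_10q_p (all_cons f_w504_528_0_50_0q_p (all_cons f_w516_528_0_60_10q_p (all_cons f_w720_732_0_50_20q_p all_nil))))))))))))))))))))))))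
    (by decide +kernel)
def t59 : Tree := (.sg 44 (.sR 2112 (.sR 2016 (.sr 2176 (.sg 42 (.sR 1968 (.leaf 0x4003c00010220001000000000ac401004) (.leaf 0x410540000028005149045bee665411005)) (.sR 1968 (.leaf 0x4003c00010220011000000000a8401004) (.leaf 0x3d0540000028006149045ca6c653d1005))) (.sg 42 (.sR 1968 (.sr 2240 (.leaf 0x4003800044240041000000000b0401004) (.leaf 0x45c3c00048220081000000000a844d044)) (.leaf 0x3d04c0000028007139c8003da7a3d1005)) (.sR 1968 (.leaf 0x45c3c00018220051000000000b044d044) (.leaf 0x40054000002800814904560547a401005)))) (.leaf 0x4003c00038280031180000000b0401006)) (.sR 2208 (.leaf 0x440004c280041280000000a8001008) (.sr 2176 (.sR 2496 (.sR 2304 (.leaf 0x3e05c0001c2800915924009eb7a3e1005) (.sR 2400 (.leaf 0x3e064000202800a1692c008ca7a3e1005) (.leaf 0x3f06c000242800b17934001f27a3f1005))) (.sR 2688 (.sR 2592 (.leaf 0x42074000042800c18940006c17a421005) (.leaf 0x6c000082800d17800000009c001008)) (.sR 2784 (.leaf 0x700000c2800e1800000000a0001008) (.sg 42 (.sR 2880 (.leaf 0x78000582800f1900000000a0001008)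 (.sR 2976 (.leaf 0x8000060280101a00000000a0001008) (.sR 3024 (.leaf 0x8c00014280111b8000000098001008) (.leaf 0x9800068280121d000000008c001008)))) (.sR 2880 (.leaf 0x8800028280131b0000000094001008) (.sR 2976 (.leaf 0x8800030280141b0000000098001008) (.sR 3024 (.leaf 0x9800014280001d000000008c001008) (.leaf 0x8c00034280001b8000000098001008)))))))) (.sR 2400 (.sR 2304 (.leaf 0x540001c280151480000000a4001008) (.leaf 0x6000020280161600000000a0001008)) (.sR 2496 (.leaf 0x6800024280171700000000a4001008) (.sg 42 (.sR 2784 (.sR 2592 (.leaf 0x6000004280181600000000a4001008) (.sR 2688 (.leaf 0x740000828019188000000098001008) (.leaf 0x800000c2801a1a00000000a0001008))) (.sR 2880 (.sR 2832 (.leaf 0x78000542800119000000009c001008) (.leaf 0x8c0005c280011b800000009c001008)) (.sR 2976 (.leaf 0x80000642801b1a00000000a0001008) (.sR 3024 (.leaf 0x8c000142801c1b800000009c001008) (.leaf 0x88000342801d1b0000000098001008))))) (.sR 2784 (.sR 2592 (.leaf 0x3c078000042801e19160049557a3c1005) (.sR 2688 (.leaf 0x41078000082801f19108003d67a411005)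 (.leaf 0x3e0800000c280201a11000dc97a3e1005))) (.sR 2880 (.leaf 0x7c0003c280211980000000a0001008) (.sR 2976 (.leaf 0x8800030280221b0000000098001008) (.sR 3024 (.leaf 0x9800014280021d0000000090001008) (.leaf 0x9000034280021c0000000094001008))))))))))) (.sR 2208 (.sR 2016 (.sr 2176 (.sg 46 (.sR 1968 (.leaf 0x4004000010220021080000000ac401004) (.leaf 0x3a0540000028028149045cf10513a1005)) (.sR 1968 (.leaf 0x4004400010220031100000000b0401004) (.leaf 0x3f054000002802914904580173d3f1005))) (.sg 46 (.sR 1968 (.leaf 0x45c3c00018220061000000000ac44d044) (.leaf 0x3c054000002802a14904596067a3c1005)) (.sR 1968 (.leaf 0x45c3c00018220071000000000a844d044) (.leaf 0x3d054000002802b149045ca6c653d1005)))) (.sR 2112 (.leaf 0x4800038280231300000000a0001008) (.leaf 0x4c00050280241380000000a0001008))) (.sR 2400 (.sR 2304 (.leaf 0x4c0001c280251380000000a0001008) (.leaf 0x5400020280261480000000a4001008)) (.sR 2496 (.leaf 0x5800024280271500000000a8001008) (.sr 2176 (.sR 2784 (.sR 2592 (.leaf 0x3c07c000042802c199143cce97a3c1005)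 (.sR 2688 (.leaf 0x38080000082802d1a154107867a381005) (.leaf 0x420800000c2802e1a11000dc97a421005))) (.sR 2880 (.leaf 0x84000282802f1a8000000094001008) (.sR 2976 (.sg 46 (.leaf 0x880002c280311b0000000094001008) (.leaf 0x900002c280321c0000000070001008)) (.leaf 0x9000040280301c000000009c001008)))) (.sR 2688 (.sR 2592 (.leaf 0x6000004280331600000000a4001008) (.leaf 0x74000082803418800000009c001008)) (.sR 2784 (.leaf 0x7c0000c28035198000000098001008) (.sg 46 (.sR 2880 (.leaf 0x880003c280361b0000000094001008) (.sR 2976 (.leaf 0x8000030280371a00000000a0001008) (.leaf 0x9800040280381d000000007c001008))) (.sR 2880 (.leaf 0x8400028280391a800000009c001008) (.sR 2976 (.leaf 0x900002c2803a1c0000000084001008) (.leaf 3)))))))))))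
theorem k59 : ChunkP 4 4 2048 2304 40 48 1920 3072 :=
  chkY_sound (Q := 40) (C := [c99.c, c100.c, c101.c, c102.c, c118.c, c130.c, c131.c, c132.c, c146.c]) (Z := [z2050, z2058, z2066, z2032, z2033, z2034, z2035, z2036, z2037, z2038, z2039, z2040, z2041, z2042, z2043, z2044, z2045, z2046, z2047, z2048, z2049, z2051, z2052, z2053, z2054, z2055, z2056, z2057, z2059, z2060, z2061, z2062, z2063, z2064, z2065, z2067, z2068, z2069, z2070, z2071, z2072, z2073, z2074, z2075, z2076, z2077, z2078, z2079, z2080, z2081, z2082, z2083, z2084, z2085, z2086, z2087, z2088, z2089, z2090])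
    (T := [f_w492_504_0_50_20q, f_w624_648_0_40_0q, f_w648_672_0_40_0q, f_w672_696_0_40_0q, f_w480_492_0_40_20q, f_w744_756_0_40_0q, f_w480_492_4_40_20q, f_w552_576_0_50_0q, f_w576_600_0_40_0q, f_w600_624_0_40_0q, f_w696_720_0_30_0q, f_w720_744_0_30_0q, f_w720_744_0_40_0q, f_w756_768_0_40_0q, f_w504_528_0_50_0q, f_w696_720_0_40_0q, f_w744_768_0_40_30q, f_w480_492_0_50_20q, f_w480_492_4_50_10q, f_w528_552_0_40_20q, f_w528_552_0_50_0q, f_w696_708_0_50_10q, f_w696_720_0_40_30q, f_w708_720_0_40_10q, f_w720_744_0_40_30q, f_w720_744_0_45_30q, f_w756_768_0_40_30q]) (t := t59)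
    (all_cons p99 (all_cons p100 (all_cons p101 (all_cons p102 (all_cons p118 (all_cons p130 (all_cons p131 (all_cons p132 (all_cons p146 all_nil)))))))))
    (all_cons z2050P (all_cons z2058P (all_cons z2066P (all_cons z2032P (all_cons z2033P (all_cons z2034P (all_cons z2035P (all_cons z2036P (all_cons z2037P (all_cons z2038P (all_cons z2039P (all_cons z2040P (all_cons z2041P (all_cons z2042P (all_cons z2043P (all_cons z2044P (all_cons z2045P (all_cons z2046P (all_cons z2047P (all_cons z2048P (all_cons z2049P (all_cons z2051P (all_cons z2052P (all_cons z2053P (all_cons z2054P (all_cons z2055P (all_cons z2056P (all_cons z2057P (all_cons z2059P (all_cons z2060P (all_cons z2061P (all_cons z2062P (all_cons z2063P (all_cons z2064P (all_cons z2065P (all_cons z2067P (all_cons z2068P (all_cons z2069P (all_cons z2070P (all_cons z2071P (all_cons z2072P (all_cons z2073P (all_cons z2074P (all_cons z2075P (all_cons z2076P (all_cons z2077P (all_cons z2078P (all_cons z2079P (all_cons z2080P (all_cons z2081P (all_cons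 z2082P (all_cons z2083P (all_cons z2084P (all_cons z2085P (all_cons z2086P (all_cons z2087P (all_cons z2088P (all_cons z2089P (all_cons z2090P all_nil)))))))))))))))))))))))))))))))))))))))))))))))))))))))))))
    (all_cons f_w492_504_0_50_20q_p (all_cons f_w624_648_0_40_0q_p (all_cons f_w648_672_0_40_0q_p (all_cons f_w672_696_0_40_0q_p (all_cons f_w480_492_0_40_20q_p (all_cons f_w744_756_0_40_0q_p (all_cons f_w480_492_4_40_20q_p (all_cons f_w552_576_0_50_0q_p (all_cons f_w576_600_0_40_0q_p (all_cons f_w600_624_0_40_0q_p (all_cons f_w696_720_0_30_0q_p (all_cons f_w720_744_0_30_0q_p (all_cons f_w720_744_0_40_0q_p (all_cons f_w756_768_0_40_0q_p (all_cons f_w504_528_0_50_0q_p (all_cons f_w696_720_0_40_0q_p (all_cons f_w744_768_0_40_30q_p (all_cons f_w480_492_0_50_20q_p (all_cons f_w480_492_4_50_10q_p (all_cons f_w528_552_0_40_20q_p (all_cons f_w528_552_0_50_0q_p (all_cons f_w696_708_0_50_10q_p (all_cons f_w696_720_0_40_30q_p (all_cons f_w708_720_0_40_10q_p (all_cons f_w720_744_0_40_30q_p (all_cons f_w720_744_0_45_30q_p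 (all_cons f_w756_768_0_40_30q_p all_nil)))))))))))))))))))))))))))
    (by decide +kernel)

end Pool.Agent.Lib.MP_af3a4a_an.P1.CHK.DATA.N4s
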