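import Pool.Agent.Lib.MP_af3a4a_an.P1.CHK.DATA.N4s.K0
import Pool.Agent.Lib.MP_af3a4a_an.P1.CHK.DATA.N4s.K1
import Pool.Agent.Lib.MP_af3a4a_an.P1.CHK.DATA.N4s.K2
import Pool.Agent.Lib.MP_af3a4a_an.P1.CHK.DATA.N4s.K3
import Pool.Agent.Lib.MP_af3a4a_an.P1.CHK.DATA.N4s.K4
import Pool.Agent.Lib.MP_af3a4a_an.P1.CHK.DATA.N4s.K5
import Pool.Agent.Lib.MP_af3a4a_an.P1.CHK.DATA.N4s.K6
import Pool.Agent.Lib.MP_af3a4a_an.P1.CHK.DATA.N4s.K7
import Pool.Agent.Lib.MP_af3a4a_an.P1.CHK.DATA.N4s.K8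
import Pool.Agent.Lib.MP_af3a4a_an.P1.CHK.DATA.N4s.K9
import Pool.Agent.Lib.MP_af3a4a_an.P1.CHK.DATA.N4s.K10
import Pool.Agent.Lib.MP_af3a4a_an.P1.CHK.DATA.N4s.K11
import Pool.Agent.Lib.MP_af3a4a_an.P1.CHK.DATA.N4s.K12
import Pool.Agent.Lib.MP_af3a4a_an.P1.CHK.DATA.N4s.K13
import Pool.Agent.Lib.MP_af3a4a_an.P1.CHK.DATA.N4s.K14
import Pool.Agent.Lib.MP_af3a4a_an.P1.CHK.DATA.N4s.K15
import Pool.Agent.Lib.MP_af3a4a_an.P1.CHK.DATA.N4s.K16
import Pool.Agent.Lib.MP_af3a4a_an.P1.CHK.DATA.N4s.K17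
import Pool.Agent.Lib.MP_af3a4a_an.P1.CHK.DATA.N4s.K18
import Pool.Agent.Lib.MP_af3a4a_an.P1.CHK.DATA.N4s.K19
import Pool.Agent.Lib.MP_af3a4a_an.P1.CHK.DATA.N4s.K20
import Pool.Agent.Lib.MP_af3a4a_an.P1.CHK.DATA.N4s.K21
import Pool.Agent.Lib.MP_af3a4a_an.P1.CHK.DATA.N4s.K22
import Pool.Agent.Lib.MP_af3a4a_an.P1.CHK.DATA.N4s.K23

/-! glue for N = 4 (generated) -/

set_option autoImplicit false
set_option maxRecDepth 100000

namespace Pool.Agent.Lib.MP_af3a4a_an.P1.CHK.DATA.N4s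

open BOX

theorem g0 : ChunkP 4 4 0 512 0 64 1920 3072 := ChunkP.g k0 k1
theorem g1 : ChunkP 4 4 0 512 0 101 1920 3072 := ChunkP.g g0 k2
theorem g2 : ChunkP 4 4 0 1024 0 101 1920 3072 := ChunkP.r g1 k3
theorem g3 : ChunkP 4 4 1024 1536 0 32 1920 3072 := ChunkP.g k4 k5
theorem g4 : ChunkP 4 4 1024 1536 0 64 1920 3072 := ChunkP.g g3 k6
theorem g5 : ChunkP 4 4 1024 1536 0 101 1920 3072 := ChunkP.g g4 k7
theorem g6 : ChunkP 4 4 1536 1792 0 16 2208 3072 := ChunkP.g k10 k11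
theorem g7 : ChunkP 4 4 1536 1792 0 16 2112 3072 := ChunkP.R k9 g6
theorem g8 : ChunkP 4 4 1536 1792 0 16 1920 3072 := ChunkP.R k8 g7
theorem g9 : ChunkP 4 4 1792 2048 8 16 2112 3072 := ChunkP.r k15 k16
theorem g10 : ChunkP 4 4 1792 2048 8 16 2016 3072 := ChunkP.R k14 g9
theorem g11 : ChunkP 4 4 1792 2048 8 16 1920 3072 := ChunkP.R k13 g10
theorem g12 : ChunkP 4 4 1792 2048 0 16 1920 3072 := ChunkP.g k12 g11
theorem g13 : ChunkP 4 4 1536 2048 0 16 1920 3072 := ChunkP.r g8 g12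
theorem g14 : ChunkP 4 4 1536 1792 16 32 2208 3072 := ChunkP.g k19 k20
theorem g15 : ChunkP 4 4 1536 1792 16 32 2112 3072 := ChunkP.R k18 g14
theorem g16 : ChunkP 4 4 1536 1792 16 32 1920 3072 := ChunkP.R k17 g15
theorem g17 : ChunkP 4 4 1792 2048 16 24 1920 3072 := ChunkP.r k21 k22
theorem g18 : ChunkP 4 4 1792 2048 24 32 1920 3072 := ChunkP.r k23 k24
theorem g19 : ChunkP 4 4 1792 2048 16 32 1920 3072 := ChunkP.g g17 g18
theorem g20 : ChunkP 4 4 1536 2048 16 32 1920 3072 := ChunkP.r g16 g19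
theorem g21 : ChunkP 4 4 1536 2048 0 32 1920 3072 := ChunkP.g g13 g20
theorem g22 : ChunkP 4 4 1792 2048 32 48 1920 3072 := ChunkP.g k26 k27
theorem g23 : ChunkP 4 4 1536 2048 32 48 1920 3072 := ChunkP.r k25 g22
theorem g24 : ChunkP 4 4 1536 2048 32 64 1920 3072 := ChunkP.g g23 k28
theorem g25 : ChunkP 4 4 1536 2048 0 64 1920 3072 := ChunkP.g g21 g24
theorem g26 : ChunkP 4 4 1536 2048 0 101 1920 3072 := ChunkP.g g25 k29
theorem g27 : ChunkP 4 4 1024 2048 0 101 1920 3072 := ChunkP.r g5 g26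
theorem g28 : ChunkP 4 4 0 2048 0 101 1920 3072 := ChunkP.r g2 g27
theorem g29 : ChunkP 4 4 2048 2560 0 8 1920 3072 := ChunkP.r k30 k31
theorem g30 : ChunkP 4 4 2048 2304 8 16 1920 3072 := ChunkP.g k32 k33
theorem g31 : ChunkP 4 4 2304 2560 8 16 1920 3072 := ChunkP.g k34 k35
theorem g32 : ChunkP 4 4 2048 2560 8 16 1920 3072 := ChunkP.r g30 g31
theorem g33 : ChunkP 4 4 2048 2560 0 16 1920 3072 := ChunkP.g g29 g32
theorem g34 : ChunkP 4 4 2048 2304 16 20 1920 3072 := ChunkP.r k36 k37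
theorem g35 : ChunkP 4 4 2048 2304 20 24 1920 3072 := ChunkP.r k38 k39
theorem g36 : ChunkP 4 4 2048 2304 16 24 1920 3072 := ChunkP.g g34 g35
theorem g37 : ChunkP 4 4 2304 2560 16 20 1920 3072 := ChunkP.r k40 k41
theorem g38 : ChunkP 4 4 2304 2560 20 24 1920 3072 := ChunkP.r k42 k43
theorem g39 : ChunkP 4 4 2304 2560 16 24 1920 3072 := ChunkP.g g37 g38
theorem g40 : ChunkP 4 4 2048 2560 16 24 1920 3072 := ChunkP.r g36 g39
theorem g41 : ChunkP 4 4 2048 2304 24 28 1920 3072 := ChunkP.r k44 k45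
theorem g42 : ChunkP 4 4 2048 2304 28 32 1920 3072 := ChunkP.r k46 k47
theorem g43 : ChunkP 4 4 2048 2304 24 32 1920 3072 := ChunkP.g g41 g42
theorem g44 : ChunkP 4 4 2304 2560 24 28 1920 3072 := ChunkP.r k48 k49
theorem g45 : ChunkP 4 4 2304 2560 28 32 1920 3072 := ChunkP.r k50 k51
theorem g46 : ChunkP 4 4 2304 2560 24 32 1920 3072 := ChunkP.g g44 g45
theorem g47 : ChunkP 4 4 2048 2560 24 32 1920 3072 := ChunkP.r g43 g46
theorem g48 : ChunkP 4 4 2048 2560 16 32 1920 3072 := ChunkP.g g40 g47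
theorem g49 : ChunkP 4 4 2048 2560 0 32 1920 3072 := ChunkP.g g33 g48
theorem g50 : ChunkP 4 4 2048 2304 32 36 1920 3072 := ChunkP.r k52 k53
theorem g51 : ChunkP 4 4 2048 2304 32 40 1920 3072 := ChunkP.g g50 k54
theorem g52 : ChunkP 4 4 2304 2560 32 36 1920 3072 := ChunkP.r k55 k56
theorem g53 : ChunkP 4 4 2304 2560 36 40 1920 3072 := ChunkP.r k57 k58
theorem g54 : ChunkP 4 4 2304 2560 32 40 1920 3072 := ChunkP.g g52 g53
theorem g55 : ChunkP 4 4 2048 2560 32 40 1920 3072 := ChunkP.r g51 g54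
theorem g56 : ChunkP 4 4 2304 2560 40 48 1920 2976 := ChunkP.g k60 k61
theorem g57 : ChunkP 4 4 2304 2560 40 48 1920 3072 := ChunkP.R g56 k62
theorem g58 : ChunkP 4 4 2048 2560 40 48 1920 3072 := ChunkP.r k59 g57
theorem g59 : ChunkP 4 4 2048 2560 32 48 1920 3072 := ChunkP.g g55 g58
theorem g60 : ChunkP 4 4 2048 2560 48 64 1920 3072 := ChunkP.g k63 k64
theorem g61 : ChunkP 4 4 2048 2560 32 64 1920 3072 := ChunkP.g g59 g60
theorem g62 : ChunkP 4 4 2048 2560 0 64 1920 3072 := ChunkP.g g49 g61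
theorem g63 : ChunkP 4 4 2048 2560 0 101 1920 3072 := ChunkP.g g62 k65
theorem g64 : ChunkP 4 4 2560 2816 8 16 1920 3072 := ChunkP.g k67 k68
theorem g65 : ChunkP 4 4 2560 3072 8 16 1920 3072 := ChunkP.r g64 k69
theorem g66 : ChunkP 4 4 2560 3072 0 16 1920 3072 := ChunkP.g k66 g65
theorem g67 : ChunkP 4 4 2560 2816 20 24 1920 3072 := ChunkP.r k71 k72
theorem g68 : ChunkP 4 4 2560 2816 16 24 1920 3072 := ChunkP.g k70 g67
theorem g69 : ChunkP 4 4 2816 3072 16 24 1920 2880 := ChunkP.g k73 k74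
theorem g70 : ChunkP 4 4 2816 3072 16 24 1920 3072 := ChunkP.R g69 k75
theorem g71 : ChunkP 4 4 2560 3072 16 24 1920 3072 := ChunkP.r g68 g70
theorem g72 : ChunkP 4 4 2560 2816 24 28 1920 3072 := ChunkP.r k76 k77
theorem g73 : ChunkP 4 4 2560 2816 28 32 1920 2976 := ChunkP.r k78 k79
theorem g74 : ChunkP 4 4 2560 2816 28 32 1920 3072 := ChunkP.R g73 k80
theorem g75 : ChunkP 4 4 2560 2816 24 32 1920 3072 := ChunkP.g g72 g74
theorem g76 : ChunkP 4 4 2816 3072 24 28 1920 2784 := ChunkP.r k81 k82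
theorem g77 : ChunkP 4 4 2816 3072 28 32 1920 2784 := ChunkP.r k83 k84
theorem g78 : ChunkP 4 4 2816 3072 24 32 1920 2784 := ChunkP.g g76 g77
theorem g79 : ChunkP 4 4 2816 3072 24 32 1920 3072 := ChunkP.R g78 k85
theorem g80 : ChunkP 4 4 2560 3072 24 32 1920 3072 := ChunkP.r g75 g79
theorem g81 : ChunkP 4 4 2560 3072 16 32 1920 3072 := ChunkP.g g71 g80
theorem g82 : ChunkP 4 4 2560 3072 0 32 1920 3072 := ChunkP.g g66 g81
theorem g83 : ChunkP 4 4 2560 2816 32 36 1920 2880 := ChunkP.r k86 k87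
theorem g84 : ChunkP 4 4 2560 2816 36 40 1920 2784 := ChunkP.r k88 k89
theorem g85 : ChunkP 4 4 2560 2816 36 40 1920 2880 := ChunkP.R g84 k90
theorem g86 : ChunkP 4 4 2560 2816 32 40 1920 2880 := ChunkP.g g83 g85
theorem g87 : ChunkP 4 4 2816 3072 32 36 1920 2688 := ChunkP.r k91 k92
theorem g88 : ChunkP 4 4 2944 3072 36 40 1920 2496 := ChunkP.g k94 k95
theorem g89 : ChunkP 4 4 2944 3072 36 40 1920 2592 := ChunkP.R g88 k96
theorem g90 : ChunkP 4 4 2816 3072 36 40 1920 2592 := ChunkP.r k93 g89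
theorem g91 : ChunkP 4 4 2816 3072 36 40 1920 2688 := ChunkP.R g90 k97
theorem g92 : ChunkP 4 4 2816 3072 32 40 1920 2688 := ChunkP.g g87 g91
theorem g93 : ChunkP 4 4 2816 3072 32 40 1920 2880 := ChunkP.R g92 k98
theorem g94 : ChunkP 4 4 2560 3072 32 40 1920 2880 := ChunkP.r g86 g93
theorem g95 : ChunkP 4 4 2560 2816 40 44 1920 2688 := ChunkP.r k99 k100
theorem g96 : ChunkP 4 4 2560 2816 40 48 1920 2688 := ChunkP.g g95 k101
theorem g97 : ChunkP 4 4 2816 3072 40 44 1920 2496 := ChunkP.r k102 k103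
theorem g98 : ChunkP 4 4 2816 3072 44 48 1920 2304 := ChunkP.r k104 k105
theorem g99 : ChunkP 4 4 2816 3072 44 48 1920 2496 := ChunkP.R g98 k106
theorem g100 : ChunkP 4 4 2816 3072 40 48 1920 2496 := ChunkP.g g97 g99
theorem g101 : ChunkP 4 4 2816 3072 40 48 1920 2688 := ChunkP.R g100 k107
theorem g102 : ChunkP 4 4 2560 3072 40 48 1920 2688 := ChunkP.r g96 g101
theorem g103 : ChunkP 4 4 2560 3072 40 48 1920 2880 := ChunkP.R g102 k108
theorem g104 : ChunkP 4 4 2560 3072 32 48 1920 2880 := ChunkP.g g94 g103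
theorem g105 : ChunkP 4 4 2560 3072 32 48 1920 3072 := ChunkP.R g104 k109
theorem g106 : ChunkP 4 4 2816 3072 48 56 1920 2208 := ChunkP.g k111 k112
theorem g107 : ChunkP 4 4 2816 3072 48 56 1920 2400 := ChunkP.R g106 k113
theorem g108 : ChunkP 4 4 2560 3072 48 56 1920 2400 := ChunkP.r k110 g107
theorem g109 : ChunkP 4 4 2560 3072 48 64 1920 2400 := ChunkP.g g108 k114
theorem g110 : ChunkP 4 4 2560 3072 48 64 1920 3072 := ChunkP.R g109 k115
theorem g111 : ChunkP 4 4 2560 3072 32 64 1920 3072 := ChunkP.g g105 g110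
theorem g112 : ChunkP 4 4 2560 3072 0 64 1920 3072 := ChunkP.g g82 g111
theorem g113 : ChunkP 4 4 2560 3072 0 101 1920 3072 := ChunkP.g g112 k116
theorem g114 : ChunkP 4 4 2048 3072 0 101 1920 3072 := ChunkP.r g63 g113
theorem g115 : ChunkP 4 4 3072 3584 16 24 1920 2688 := ChunkP.r k118 k119
theorem g116 : ChunkP 4 4 3072 3328 24 32 1920 2592 := ChunkP.g k120 k121
theorem g117 : ChunkP 4 4 3072 3584 24 32 1920 2592 := ChunkP.r g116 k122
theorem g118 : ChunkP 4 4 3072 3584 24 32 1920 2688 := ChunkP.R g117 k123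
theorem g119 : ChunkP 4 4 3072 3584 16 32 1920 2688 := ChunkP.g g115 g118
theorem g120 : ChunkP 4 4 3072 3584 16 32 1920 3072 := ChunkP.R g119 k124
theorem g121 : ChunkP 4 4 3072 3584 0 32 1920 3072 := ChunkP.g k117 g120
theorem g122 : ChunkP 4 4 3072 3328 32 36 1920 2400 := ChunkP.r k125 k126
theorem g123 : ChunkP 4 4 3072 3200 36 40 1920 2400 := ChunkP.g k127 k128
theorem g124 : ChunkP 4 4 3072 3328 36 40 1920 2400 := ChunkP.r g123 k129
theorem g125 : ChunkP 4 4 3072 3328 32 40 1920 2400 := ChunkP.g g122 g124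
theorem g126 : ChunkP 4 4 3072 3584 32 40 1920 2400 := ChunkP.r g125 k130
theorem g127 : ChunkP 4 4 3072 3200 40 44 1920 2304 := ChunkP.g k131 k132
theorem g128 : ChunkP 4 4 3072 3328 40 44 1920 2304 := ChunkP.r g127 k133
theorem g129 : ChunkP 4 4 3072 3328 44 48 1920 2112 := ChunkP.r k134 k135
theorem g130 : ChunkP 4 4 3072 3328 44 48 1920 2304 := ChunkP.R g129 k136
theorem g131 : ChunkP 4 4 3072 3328 40 48 1920 2304 := ChunkP.g g128 g130
theorem g132 : ChunkP 4 4 3072 3584 40 48 1920 2304 := ChunkP.r g131 k137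
theorem g133 : ChunkP 4 4 3072 3584 40 48 1920 2400 := ChunkP.R g132 k138
theorem g134 : ChunkP 4 4 3072 3584 32 48 1920 2400 := ChunkP.g g126 g133
theorem g135 : ChunkP 4 4 3072 3584 32 48 1920 3072 := ChunkP.R g134 k139
theorem g136 : ChunkP 4 4 3072 3584 32 64 1920 3072 := ChunkP.g g135 k140
theorem g137 : ChunkP 4 4 3072 3584 0 64 1920 3072 := ChunkP.g g121 g136
theorem g138 : ChunkP 4 4 3072 3584 0 101 1920 3072 := ChunkP.g g137 k141
theorem g139 : ChunkP 4 4 3072 4096 0 101 1920 3072 := ChunkP.r g138 k142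
theorem g140 : ChunkP 4 4 2048 4096 0 101 1920 3072 := ChunkP.r g114 g139
theorem g141 : ChunkP 4 4 0 4096 0 101 1920 3072 := ChunkP.r g28 g140

/-- the slab -/
theorem slab : ChunkP 4 4 0 4096 0 101 1920 3072 := g141

end Pool.Agent.Lib.MP_af3a4a_an.P1.CHK.DATA.N4s
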