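import Pool.Agent.Lib.MP_af3a4a_an.P1.CHK.SWP.Pay
import Pool.Agent.Lib.MP_af3a4a_an.P1.CHK.DATA.N4s.C0
import Pool.Agent.Lib.MP_af3a4a_an.P1.CHK.DATA.N4s.Z0
import Pool.Agent.Lib.MP_af3a4a_an.P1.CHK.DATA.F4.W480a
import Pool.Agent.Lib.MP_af3a4a_an.P1.CHK.DATA.F4.W480b
import Pool.Agent.Lib.MP_af3a4a_an.P1.CHK.DATA.F4.W528a
import Pool.Agent.Lib.MP_af3a4a_an.P1.CHK.DATA.F4.W576a
import Pool.Agent.Lib.MP_af3a4a_an.P1.CHK.DATA.F4.W624a
import Pool.Agent.Lib.MP_af3a4a_an.P1.CHK.DATA.F4.W672a
import Pool.Agent.Lib.MP_af3a4a_an.P1.CHK.DATA.F4.W720a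
import Pool.Agent.Lib.MP_af3a4a_an.P1.CHK.DATA.F4.W720b

/-! chunks for N = 4 (generated) -/

set_option autoImplicit false
set_option maxRecDepth 100000

namespace Pool.Agent.Lib.MP_af3a4a_an.P1.CHK.DATA.N4s

open BOX SWP

def t0 : Tree := (.sg 16 (.sr 256 (.sg 8 (.sr 128 (.sR 2496 (.sR 2208 (.sR 2016 (.leaf 0x3805c0400024000148dc6b24b14381000) (.sR 2112 (.leaf 0x3805c0000428000158d88c06e28381005) (.leaf 0x380600000828001168d4acbd03d381005))) (.sR 2304 (.leaf 0x3806c0000c28002178d0cb64951381005) (.sR 2400 (.leaf 0x380740001028003188cce97e365381005) (.leaf 0x3807c0001428004198c9080797a381005)))) (.sR 2784 (.sR 2592 (.leaf 0x3807c00018280051a0e8a350a7a381005) (.sR 2688 (.leaf 0x380800001c280061a154107867a381005) (.leaf 0x3808000020280071a1100cd6a7a381005))) (.sR 2880 (.leaf 0x8800024280081b000000003c001008) (.sR 2976 (.leaf 0x9000028280091c0000000038001008) (.leaf 0x980002c2800a1d0000000034001008))))) (.sR 2496 (.sR 2208 (.sR 2016 (.leaf 0x3805c0400024003148dc6b24b14381000) (.sR 2112 (.leaf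 0x3805c0000428000158d88c06e28381005) (.leaf 0x380600000828001168d4acbd03d381005))) (.sR 2304 (.leaf 0x3806c0000c28002178d0cb64951381005) (.sR 2400 (.leaf 0x380740001028003188cce97e365381005) (.leaf 0x3807c0001428004198c9080797a381005)))) (.sR 2784 (.sR 2592 (.leaf 0x3807c00018280051a0e8a350a7a381005) (.sR 2688 (.leaf 0x380800001c280061a154107867a381005) (.leaf 0x3808000020280071a1100cd6a7a381005))) (.sR 2880 (.leaf 0x8800024280081b000000003c001008) (.sR 2976 (.leaf 0x9000028280091c0000000038001008) (.leaf 0x980002c2800a1d0000000034001008)))))) (.sR 2496 (.sR 2208 (.sR 2016 (.leaf 0x3805c0400024001148dc6b24b14381000) (.sR 2112 (.leaf 0x3805c0000428000158d88c06e28381005) (.leaf 0x380600000828001168d4acbd03d381005))) (.sR 2304 (.leaf 0x3806c0000c28002178d0cb64951381005) (.sR 2400 (.leaf 0x380740001028003188cce97e365381005) (.leaf 0x3807c0001428004198c9080797a381005)))) (.sR 2784 (.sR 2592 (.leaf 0x3807c00018280051a0e8a350a7a381005) (.sR 2688 (.leaf 0x380800001c280061a154107867a381005) (.leaf 0x3808000020280071a1100cd6a7a381005)))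 (.sR 2880 (.leaf 0x8800024280081b000000003c001008) (.sR 2976 (.leaf 0x9000028280091c0000000038001008) (.leaf 0x980002c2800a1d0000000034001008)))))) (.sR 2496 (.sR 2208 (.sR 2016 (.leaf 0x3805c0400024004148dc6b24b14381000) (.sR 2112 (.leaf 0x3805c0000428000158d88c06e28381005) (.leaf 0x380600000828001168d4acbd03d381005))) (.sR 2304 (.leaf 0x3806c0000c28002178d0cb64951381005) (.sR 2400 (.leaf 0x380740001028003188cce97e365381005) (.leaf 0x3807c0001428004198c9080797a381005)))) (.sR 2784 (.sR 2592 (.leaf 0x3807c00018280051a0e8a350a7a381005) (.sR 2688 (.leaf 0x380800001c280061a154107867a381005) (.leaf 0x3808000020280071a1100cd6a7a381005))) (.sR 2880 (.leaf 0x8800024280081b000000003c001008) (.sR 2976 (.leaf 0x9000028280091c0000000038001008) (.leaf 0x980002c2800a1d0000000034001008)))))) (.sR 2496 (.sR 2208 (.sR 2016 (.leaf 0x380600000022002148dc6b24b14381000) (.sR 2112 (.leaf 0x3805c000042800b158d88c06e28381005) (.leaf 0x38060000082800c168d4acbd03d381005))) (.sR 2304 (.leaf 0x3806c0000c2800d178d0cb64951381005)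 (.sR 2400 (.leaf 0x38074000102800e188cce97e365381005) (.leaf 0x3807c000142800f198c9080797a381005)))) (.sR 2784 (.sR 2592 (.leaf 0x3807c00018280101a0e8a350a7a381005) (.sR 2688 (.leaf 0x380800001c280111a154107867a381005) (.leaf 0x3808000020280121a1100cd6a7a381005))) (.sR 2880 (.leaf 0x8800024280131b000000003c001008) (.sR 2976 (.leaf 0x9000028280141c0000000038001008) (.leaf 0x980002c280151d0000000034001008))))))
theorem k0 : ChunkP 4 4 0 512 0 32 1920 3072 :=
  chkY_sound (Q := 40) (C := [c0.c, c1.c, c2.c, c8.c, c9.c]) (Z := [z0, z1, z2, z3, z4, z5, z6, z7, z8, z9, z10, z11, z12, z13, z14, z15, z16, z17, z18, z19, z20, z21])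
    (T := [f_w480_504_0_5_0q, f_w504_528_0_5_0q, f_w528_552_0_5_0q, f_w552_576_0_5_0q, f_w576_600_0_5_0q, f_w600_624_0_5_0q, f_w624_648_0_5_0q, f_w648_672_0_5_0q, f_w672_696_0_5_0q, f_w696_720_0_5_0q, f_w720_744_0_5_0q, f_w744_768_0_5_0q]) (t := t0)
    (all_cons p0 (all_cons p1 (all_cons p2 (all_cons p8 (all_cons p9 all_nil)))))
    (all_cons z0P (all_cons z1P (all_cons z2P (all_cons z3P (all_cons z4P (all_cons z5P (all_cons z6P (all_cons z7P (all_cons z8P (all_cons z9P (all_cons z10P (all_cons z11P (all_cons z12P (all_cons z13P (all_cons z14P (all_cons z15P (all_cons z16P (all_cons z17P (all_cons z18P (all_cons z19P (all_cons z20P (all_cons z21P all_nil))))))))))))))))))))))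
    (all_cons f_w480_504_0_5_0q_p (all_cons f_w504_528_0_5_0q_p (all_cons f_w528_552_0_5_0q_p (all_cons f_w552_576_0_5_0q_p (all_cons f_w576_600_0_5_0q_p (all_cons f_w600_624_0_5_0q_p (all_cons f_w624_648_0_5_0q_p (all_cons f_w648_672_0_5_0q_p (all_cons f_w672_696_0_5_0q_p (all_cons f_w696_720_0_5_0q_p (all_cons f_w720_744_0_5_0q_p (all_cons f_w744_768_0_5_0q_p all_nil))))))))))))
    (by decide +kernel)
def t1 : Tree := (.sg 48 (.sR 2496 (.sR 2208 (.sR 2016 (.leaf 0x3805c0400024000148dc6b24b14381000) (.sR 2112 (.leaf 0x3805c0000428000158d88c06e28381005) (.leaf 0x380600000828001168d4acbd03d381005))) (.sR 2304 (.leaf 0x3806c0000c28002178d0cb64951381005) (.sR 2400 (.leaf 0x380740001028003188cce97e365381005) (.leaf 0x3807c0001428004198c9080797a381005)))) (.sR 2784 (.sR 2592 (.leaf 0x3807c00018280051a0e8a350a7a381005) (.sR 2688 (.leaf 0x380800001c280061a154107867a381005) (.leaf 0x3808000020280071a1100cd6a7a381005))) (.sR 2880 (.leaf 0x8800024280081b000000003c001008) (.sR 2976 (.leaf 0x9000028280091c0000000038001008)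 (.leaf 0x980002c2800a1d0000000034001008))))) (.sR 2496 (.sR 2208 (.sR 2016 (.leaf 0x380600000022001148dc6b24b14381000) (.sR 2112 (.leaf 0x3805c000042800b158d88c06e28381005) (.leaf 0x38060000082800c168d4acbd03d381005))) (.sR 2304 (.leaf 0x3806c0000c2800d178d0cb64951381005) (.sR 2400 (.leaf 0x38074000102800e188cce97e365381005) (.leaf 0x3807c000142800f198c9080797a381005)))) (.sR 2784 (.sR 2592 (.leaf 0x3807c00018280101a0e8a350a7a381005) (.sR 2688 (.leaf 0x380800001c280111a154107867a381005) (.leaf 0x3808000020280121a1100cd6a7a381005))) (.sR 2880 (.leaf 0x8800024280131b000000003c001008) (.sR 2976 (.leaf 0x9000028280141c0000000038001008) (.leaf 0x980002c280151d0000000034001008))))))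
theorem k1 : ChunkP 4 4 0 512 32 64 1920 3072 :=
  chkY_sound (Q := 40) (C := [c3.c, c4.c]) (Z := [z22, z23, z24, z25, z26, z27, z28, z29, z30, z31, z32, z33, z34, z35, z36, z37, z38, z39, z40, z41, z42, z43])
    (T := [f_w480_504_0_5_0q, f_w504_528_0_5_0q, f_w528_552_0_5_0q, f_w552_576_0_5_0q, f_w576_600_0_5_0q, f_w600_624_0_5_0q, f_w624_648_0_5_0q, f_w648_672_0_5_0q, f_w672_696_0_5_0q, f_w696_720_0_5_0q, f_w720_744_0_5_0q, f_w744_768_0_5_0q]) (t := t1)
    (all_cons p3 (all_cons p4 all_nil))
    (all_cons z22P (all_cons z23P (all_cons z24P (all_cons z25P (all_cons z26P (all_cons z27P (all_cons z28P (all_cons z29P (all_cons z30P (all_cons z31P (all_cons z32P (all_cons z33P (all_cons z34P (all_cons z35P (all_cons z36P (all_cons z37P (all_cons z38P (all_cons z39P (all_cons z40P (all_cons z41P (all_cons z42P (all_cons z43P all_nil))))))))))))))))))))))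
    (all_cons f_w480_504_0_5_0q_p (all_cons f_w504_528_0_5_0q_p (all_cons f_w528_552_0_5_0q_p (all_cons f_w552_576_0_5_0q_p (all_cons f_w576_600_0_5_0q_p (all_cons f_w600_624_0_5_0q_p (all_cons f_w624_648_0_5_0q_p (all_cons f_w648_672_0_5_0q_p (all_cons f_w672_696_0_5_0q_p (all_cons f_w696_720_0_5_0q_p (all_cons f_w720_744_0_5_0q_p (all_cons f_w744_768_0_5_0q_p all_nil))))))))))))
    (by decide +kernel)
def t2 : Tree := (.sg 96 (.sg 80 (.sR 2496 (.sR 2208 (.sR 2016 (.leaf 0x380600000022000148dc6b24b14381000) (.sR 2112 (.leaf 0x3805c0000428000158d88c06e28381005) (.leaf 0x380600000828001168d4acbd03d381005))) (.sR 2304 (.leaf 0x3806c0000c28002178d0cb64951381005) (.sR 2400 (.leaf 0x380740001028003188cce97e365381005) (.leaf 0x3807c0001428004198c9080797a381005)))) (.sR 2784 (.sR 2592 (.leaf 0x3807c00018280051a0e8a350a7a381005) (.sR 2688 (.leaf 0x380800001c280061a154107867a381005) (.leaf 0x3808000020280071a1100cd6a7a381005))) (.sR 2880 (.leaf 0x8800024280081b000000003c001008) (.sR 2976 (.leaf 0x9000028280091c0000000038001008)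 (.leaf 0x980002c2800a1d0000000034001008))))) (.sR 2496 (.sR 2208 (.sR 2016 (.leaf 0x380600000022001148dc6b24b14381000) (.sR 2112 (.leaf 0x3805c000042800b158d88c06e28381005) (.leaf 0x38060000082800c168d4acbd03d381005))) (.sR 2304 (.leaf 0x3806c0000c2800d178d0cb64951381005) (.sR 2400 (.leaf 0x38074000102800e188cce97e365381005) (.leaf 0x3807c000142800f198c9080797a381005)))) (.sR 2784 (.sR 2592 (.leaf 0x3807c00018280101a0e8a350a7a381005) (.sR 2688 (.leaf 0x380800001c280111a154107867a381005) (.leaf 0x3808000020280121a1100cd6a7a381005))) (.sR 2880 (.leaf 0x8800024280131b000000003c001008) (.sR 2976 (.leaf 0x9000028280141c0000000038001008) (.leaf 0x980002c280151d0000000034001008)))))) (.sR 2496 (.sR 2208 (.sR 2016 (.leaf 0x3805c0400024002148dc6b24b14381000) (.sR 2112 (.leaf 0x3805c0000428016158d88c06e28381005) (.leaf 0x380600000828017168d4acbd03d381005))) (.sR 2304 (.leaf 0x3806c0000c28018178d0cb64951381005) (.sR 2400 (.leaf 0x380740001028019188cce97e365381005) (.leaf 0x3807c000142801a198c9080797a381005))))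 (.sR 2784 (.sR 2592 (.leaf 0x3807c000182801b1a0e8a350a7a381005) (.sR 2688 (.leaf 0x380800001c2801c1a154107867a381005) (.leaf 0x38080000202801d1a1100cd6a7a381005))) (.sR 2880 (.leaf 0x88000242801e1b000000003c001008) (.sR 2976 (.leaf 0x90000282801f1c0000000038001008) (.leaf 0x980002c280201d0000000034001008))))))
theorem k2 : ChunkP 4 4 0 512 64 101 1920 3072 :=
  chkY_sound (Q := 40) (C := [c5.c, c6.c, c7.c]) (Z := [z44, z45, z46, z47, z48, z49, z50, z51, z52, z53, z54, z55, z56, z57, z58, z59, z60, z61, z62, z63, z64, z65, z66, z67, z68, z69, z70, z71, z72, z73, z74, z75, z76])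
    (T := [f_w480_504_0_5_0q, f_w504_528_0_5_0q, f_w528_552_0_5_0q, f_w552_576_0_5_0q, f_w576_600_0_5_0q, f_w600_624_0_5_0q, f_w624_648_0_5_0q, f_w648_672_0_5_0q, f_w672_696_0_5_0q, f_w696_720_0_5_0q, f_w720_744_0_5_0q, f_w744_768_0_5_0q]) (t := t2)
    (all_cons p5 (all_cons p6 (all_cons p7 all_nil)))
    (all_cons z44P (all_cons z45P (all_cons z46P (all_cons z47P (all_cons z48P (all_cons z49P (all_cons z50P (all_cons z51P (all_cons z52P (all_cons z53P (all_cons z54P (all_cons z55P (all_cons z56P (all_cons z57P (all_cons z58P (all_cons z59P (all_cons z60P (all_cons z61P (all_cons z62P (all_cons z63P (all_cons z64P (all_cons z65P (all_cons z66P (all_cons z67P (all_cons z68P (all_cons z69P (all_cons z70P (all_cons z71P (all_cons z72P (all_cons z73P (all_cons z74P (all_cons z75P (all_cons z76P all_nil)))))))))))))))))))))))))))))))))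
    (all_cons f_w480_504_0_5_0q_p (all_cons f_w504_528_0_5_0q_p (all_cons f_w528_552_0_5_0q_p (all_cons f_w552_576_0_5_0q_p (all_cons f_w576_600_0_5_0q_p (all_cons f_w600_624_0_5_0q_p (all_cons f_w624_648_0_5_0q_p (all_cons f_w648_672_0_5_0q_p (all_cons f_w672_696_0_5_0q_p (all_cons f_w696_720_0_5_0q_p (all_cons f_w720_744_0_5_0q_p (all_cons f_w744_768_0_5_0q_p all_nil))))))))))))
    (by decide +kernel)
def t3 : Tree := (.sg 64 (.sg 32 (.sg 16 (.sR 2496 (.sR 2208 (.sR 2016 (.leaf 0x38050040002400013154044fc65381000) (.sR 2112 (.leaf 0x38058000042800015100619a351381005) (.leaf 0x380600000828001168d4acbd03d381005))) (.sR 2304 (.leaf 0x3806c0000c28002178d0cb64951381005) (.sR 2400 (.leaf 0x380700001028003180f0858af65381005) (.leaf 0x3807c0001428004198c9080797a381005)))) (.sR 2784 (.sR 2592 (.leaf 0x3807c00018280051a0e8a350a7a381005) (.sR 2688 (.leaf 0x380800001c280061a154107867a381005) (.leaf 0x3808000020280071a1100cd6a7a381005))) (.sR 2880 (.leaf 0x8800024280081b0000000044001008) (.sR 2976 (.leaf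 0x9000028280091c0000000064001008) (.leaf 0x980002c2800a1d0000000074001008))))) (.sR 2496 (.sR 2208 (.sR 2016 (.leaf 0x3a054000002200113154027da653a1000) (.sR 2112 (.leaf 0x3d05c000042800b158d8b6de8513d1005) (.leaf 0x38060000082800c168d4acbd03d381005))) (.sR 2304 (.leaf 0x3806c0000c2800d178d0cb64951381005) (.sR 2400 (.leaf 0x3c074000102800e188ccebdd9653c1005) (.leaf 0x3807c000142800f198c9080797a381005)))) (.sR 2784 (.sR 2592 (.leaf 0x3807c00018280101a0e8a350a7a381005) (.sR 2688 (.leaf 0x380800001c280111a154107867a381005) (.leaf 0x3808000020280121a1100cd6a7a381005))) (.sR 2880 (.leaf 0x8800024280131b000000003c001008) (.sR 2976 (.leaf 0x9000028280141c0000000050001008) (.leaf 0x980002c280151d000000005c001008)))))) (.sg 48 (.sR 2496 (.sR 2208 (.sR 2016 (.leaf 0x3c05c0000022002141085374c7a3c1000) (.sR 2112 (.leaf 0x3805c0000428016158d88c06e28381005) (.leaf 0x380600000828017168d4acbd03d381005))) (.sR 2304 (.leaf 0x3806c0000c28018178d0cb64951381005) (.sR 2400 (.leaf 0x380740001028019188cce97e365381005)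 (.leaf 0x3807c000142801a198c9080797a381005)))) (.sR 2784 (.sR 2592 (.leaf 0x3807c000182801b1a0e8a350a7a381005) (.sR 2688 (.leaf 0x380800001c2801c1a154107867a381005) (.leaf 0x38080000202801d1a1100cd6a7a381005))) (.sR 2880 (.leaf 0x88000242801e1b000000003c001008) (.sR 2976 (.leaf 0x90000282801f1c0000000038001008) (.leaf 0x980002c280201d0000000034001008))))) (.sR 2496 (.sR 2208 (.sR 2016 (.leaf 0x380600000022003148dca8cb951381000) (.sR 2112 (.leaf 0x3805c0000428021158d88c06e28381005) (.leaf 0x380600000828022168d4acbd03d381005))) (.sR 2304 (.leaf 0x3806c0000c28023178d0cb64951381005) (.sR 2400 (.leaf 0x380740001028024188cce97e365381005) (.leaf 0x3807c0001428025198c9080797a381005)))) (.sR 2784 (.sR 2592 (.leaf 0x3807c00018280261a0e8a350a7a381005) (.sR 2688 (.leaf 0x380800001c280271a154107867a381005) (.leaf 0x3808000020280281a1100cd6a7a381005))) (.sR 2880 (.leaf 0x8800024280291b000000003c001008) (.sR 2976 (.leaf 0x90000282802a1c0000000038001008) (.leaf 0x980002c2802b1d0000000034001008))))))) (.sg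 96 (.sg 80 (.sR 2496 (.sR 2208 (.sR 2016 (.leaf 0x3d0600000022004148dc6d403143d1000) (.sR 2112 (.leaf 0x3805c000042802c158d88c06e28381005) (.leaf 0x38060000082802d168d4acbd03d381005))) (.sR 2304 (.leaf 0x3806c0000c2802e178d0cb64951381005) (.sR 2400 (.leaf 0x38074000102802f188cce97e365381005) (.leaf 0x3807c0001428030198c9080797a381005)))) (.sR 2784 (.sR 2592 (.leaf 0x3807c00018280311a0e8a350a7a381005) (.sR 2688 (.leaf 0x380800001c280321a154107867a381005) (.leaf 0x3808000020280331a1100cd6a7a381005))) (.sR 2880 (.leaf 0x8800024280341b000000003c001008) (.sR 2976 (.leaf 0x9000028280351c0000000038001008) (.leaf 0x980002c280361d0000000034001008))))) (.sR 2496 (.sR 2208 (.sR 2016 (.leaf 0x380600000022005148dc6b24b14381000) (.sR 2112 (.leaf 0x3805c0000428037158d88c06e28381005) (.leaf 0x380600000828038168d4acbd03d381005))) (.sR 2304 (.leaf 0x3806c0000c28039178d0cb64951381005) (.sR 2400 (.leaf 0x38074000102803a188cce97e365381005) (.leaf 0x3807c000142803b198c9080797a381005)))) (.sR 2784 (.sR 2592 (.leaf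 0x3807c000182803c1a0e8a350a7a381005) (.sR 2688 (.leaf 0x380800001c2803d1a154107867a381005) (.leaf 0x38080000202803e1a1100cd6a7a381005))) (.sR 2880 (.leaf 0x88000242803f1b000000003c001008) (.sR 2976 (.leaf 0x9000028280401c0000000038001008) (.leaf 0x980002c280411d0000000034001008)))))) (.leaf 3)))
theorem k3 : ChunkP 4 4 512 1024 0 101 1920 3072 :=
  chkY_sound (Q := 40) (C := [c10.c, c11.c, c12.c, c13.c, c14.c, c15.c]) (Z := [z77, z78, z79, z80, z81, z82, z83, z84, z85, z86, z87, z88, z89, z90, z91, z92, z93, z94, z95, z96, z97, z98, z99, z100, z101, z102, z103, z104, z105, z106, z107, z108, z109, z110, z111, z112, z113, z114, z115, z116, z117, z118, z119, z120, z121, z122, z123, z124, z125, z126, z127, z128, z129, z130, z131, z132, z133, z134, z135, z136, z137, z138, z139, z140, z141, z142])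
    (T := [f_w480_504_0_5_0q, f_w504_528_0_5_0q, f_w528_552_0_5_0q, f_w552_576_0_5_0q, f_w576_600_0_5_0q, f_w600_624_0_5_0q, f_w624_648_0_5_0q, f_w648_672_0_5_0q, f_w672_696_0_5_0q, f_w696_720_0_5_0q, f_w720_744_0_5_0q, f_w744_768_0_5_0q]) (t := t3)
    (all_cons p10 (all_cons p11 (all_cons p12 (all_cons p13 (all_cons p14 (all_cons p15 all_nil))))))
    (all_cons z77P (all_cons z78P (all_cons z79P (all_cons z80P (all_cons z81P (all_cons z82P (all_cons z83P (all_cons z84P (all_cons z85P (all_cons z86P (all_cons z87P (all_cons z88P (all_cons z89P (all_cons z90P (all_cons z91P (all_cons z92P (all_cons z93P (all_cons z94P (all_cons z95P (all_cons z96P (all_cons z97P (all_cons z98P (all_cons z99P (all_cons z100P (all_cons z101P (all_cons z102P (all_cons z103P (all_cons z104P (all_cons z105P (all_cons z106P (all_cons z107P (all_cons z108P (all_cons z109P (all_cons z110P (all_cons z111P (all_cons z112P (all_cons z113P (all_cons z114P (all_cons z115P (all_cons z116P (all_cons z117P (all_cons z118P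 (all_cons z119P (all_cons z120P (all_cons z121P (all_cons z122P (all_cons z123P (all_cons z124P (all_cons z125P (all_cons z126P (all_cons z127P (all_cons z128P (all_cons z129P (all_cons z130P (all_cons z131P (all_cons z132P (all_cons z133P (all_cons z134P (all_cons z135P (all_cons z136P (all_cons z137P (all_cons z138P (all_cons z139P (all_cons z140P (all_cons z141P (all_cons z142P all_nil))))))))))))))))))))))))))))))))))))))))))))))))))))))))))))))))))
    (all_cons f_w480_504_0_5_0q_p (all_cons f_w504_528_0_5_0q_p (all_cons f_w528_552_0_5_0q_p (all_cons f_w552_576_0_5_0q_p (all_cons f_w576_600_0_5_0q_p (all_cons f_w600_624_0_5_0q_p (all_cons f_w624_648_0_5_0q_p (all_cons f_w648_672_0_5_0q_p (all_cons f_w672_696_0_5_0q_p (all_cons f_w696_720_0_5_0q_p (all_cons f_w720_744_0_5_0q_p (all_cons f_w744_768_0_5_0q_p all_nil))))))))))))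
    (by decide +kernel)
def t4 : Tree := (.sR 2208 (.sR 2016 (.sr 1280 (.leaf 0x48040142400012000000008c001007) (.sg 8 (.leaf 0x4003c04014240011080000000a0401004) (.leaf 0x4003c04014240021080000000a0401004))) (.sR 2112 (.leaf 0x3f0440002c2800a128c400d8d7a3f1005) (.leaf 0x3b054000302800b1491c043df7a3b1005))) (.sR 2400 (.sR 2304 (.leaf 0x3d058000342800c150f0031b97a3d1005) (.leaf 0x58000382800d15000000008c001008)) (.sR 2496 (.leaf 0x5c0003c2800e1580000000a8001008) (.sr 1280 (.sR 2688 (.sR 2592 (.leaf 0x64000182800f16800000009c001008) (.leaf 0x3807c000242801019948058307a381005)) (.sR 2784 (.leaf 0x380800001c280111a1100cd6a7a381005) (.sg 8 (.sr 1152 (.sR 2880 (.leaf 0x78000402800019000000009c001008) (.sR 2976 (.leaf 0x8800044280121b0000000088001008) (.leaf 0x9800000280011d0000000094001008))) (.sR 2880 (.leaf 0x8800010280001b000000003c001008) (.sR 2976 (.leaf 0x9000004280021c0000000060001008) (.leaf 0x9800000280011d0000000070001008)))) (.sR 2880 (.leaf 0x8800010280131b000000004c001008) (.sR 2976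 (.leaf 0x9000004280021c000000008c001008) (.sr 1152 (.leaf 0x8c00000280031b800000009c001008) (.leaf 0x9800000280031d000000007c001008))))))) (.sg 8 (.sR 2592 (.leaf 0x64000182801416800000009c001008) (.sr 1408 (.sR 2784 (.sR 2688 (.leaf 0x3b0740002428015188dc0bd537a3b1005) (.leaf 0x700001c280161800000000a0001008)) (.sR 2880 (.leaf 0x8800010280171b0000000048001008) (.sR 2976 (.leaf 0x9000004280181c0000000070001008) (.sg 4 (.sr 1344 (.leaf 0x9800000280191d0000000054001008) (.leaf 0x90000002801a1c000000009c001008)) (.sr 1344 (.leaf 0x98000002801b1d0000000058001008) (.leaf 0x88000002801c1b0000000098001008)))))) (.sR 2784 (.sR 2688 (.leaf 0x78000202801d190000000094001008) (.leaf 0x8000028280041a0000000094001008)) (.sR 2880 (.leaf 0x78000102801e19000000009c001008) (.sg 4 (.sR 2976 (.leaf 0x84000042801f1a8000000098001008) (.sr 1472 (.leaf 0x8800000280201b000000009c001008) (.sR 3024 (.leaf 0x8400008280211a800000009c001008) (.leaf 0x900000c280221c0000000098001008)))) (.sR 2976 (.leaf 0x8000004280231a000000009c001008)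 (.sr 1472 (.sR 3024 (.leaf 0x8800008280051b0000000098001008) (.leaf 0x980000c280241d0000000090001008)) (.sR 3024 (.leaf 0x9800008280051d0000000080001008) (.leaf 0x980000c280251d0000000094001008))))))))) (.sR 2592 (.leaf 0x6000018280261600000000a4001008) (.sR 2688 (.leaf 0x7400020280271880000000a0001008) (.sr 1408 (.sR 2880 (.sR 2784 (.leaf 0x700001c280281800000000a0001008) (.leaf 0x8800010280291b0000000050001008)) (.sR 2976 (.leaf 0x90000042802a1c0000000080001008) (.sg 12 (.sr 1344 (.leaf 0x98000002802b1d0000000058001008) (.leaf 0x88000002802c1b000000009c001008)) (.sr 1344 (.leaf 0x98000002802d1d0000000054001008) (.leaf 0x88000002802e1b000000009c001008))))) (.sR 2784 (.leaf 0x7c00028280041980000000a0001008) (.sR 2880 (.leaf 0x80000102802f1a0000000098001008) (.sg 12 (.sr 1472 (.sR 2976 (.leaf 0x8400004280061a800000009c001008) (.sR 3024 (.leaf 0x9800008280071d000000006c001008) (.leaf 0x900000c280071c0000000094001008))) (.sR 2976 (.leaf 0x8c00004280061b800000009c001008) (.sR 3024 (.leaf 0x8c00008280081b8000000098001008)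 (.leaf 0x900000c280301c0000000098001008)))) (.sR 2976 (.leaf 0x8000004280311a00000000a0001008) (.sr 1472 (.sR 3024 (.leaf 0x9800008280091d0000000070001008) (.leaf 0x8c0000c280091b800000009c001008)) (.sR 3024 (.leaf 0x8400008280081a800000009c001008) (.leaf 0x880000c280321b0000000098001008)))))))))))))))
theorem k4 : ChunkP 4 4 1024 1536 0 16 1920 3072 :=
  chkY_sound (Q := 40) (C := [c16.c, c22.c, c23.c]) (Z := [z151, z153, z154, z156, z167, z174, z187, z188, z189, z192, z143, z144, z145, z146, z147, z148, z149, z150, z152, z155, z157, z158, z159, z160, z161, z162, z163, z164, z165, z166, z168, z169, z170, z171, z172, z173, z175, z176, z177, z178, z179, z180, z181, z182, z183, z184, z185, z186, z190, z191, z193])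
    (T := [f_w744_768_0_30_0q, f_w720_744_0_30_0q, f_w744_756_0_40_0q, f_w756_768_0_40_0q, f_w696_720_0_30_0q, f_w480_504_0_5_0q, f_w624_648_0_5_0q, f_w672_696_0_5_0q, f_w648_672_0_40_0q, f_w648_672_0_5_0q, f_w672_696_0_40_0q, f_w504_528_0_5_0q, f_w528_552_0_5_0q, f_w552_576_0_5_0q, f_w576_600_0_5_0q, f_w600_624_0_5_0q, f_w696_720_0_5_0q, f_w720_744_0_5_0q]) (t := t4)
    (all_cons p16 (all_cons p22 (all_cons p23 all_nil)))
    (all_cons z151P (all_cons z153P (all_cons z154P (all_cons z156P (all_cons z167P (all_cons z174P (all_cons z187P (all_cons z188P (all_cons z189P (all_cons z192P (all_cons z143P (all_cons z144P (all_cons z145P (all_cons z146P (all_cons z147P (all_cons z148P (all_cons z149P (all_cons z150P (all_cons z152P (all_cons z155P (all_cons z157P (all_cons z158P (all_cons z159P (all_cons z160P (all_cons z161P (all_cons z162P (all_cons z163P (all_cons z164P (all_cons z165P (all_cons z166P (all_cons z168P (all_cons z169P (all_cons z170P (all_cons z171P (all_cons z172P (all_cons z173P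 (all_cons z175P (all_cons z176P (all_cons z177P (all_cons z178P (all_cons z179P (all_cons z180P (all_cons z181P (all_cons z182P (all_cons z183P (all_cons z184P (all_cons z185P (all_cons z186P (all_cons z190P (all_cons z191P (all_cons z193P all_nil)))))))))))))))))))))))))))))))))))))))))))))))))))
    (all_cons f_w744_768_0_30_0q_p (all_cons f_w720_744_0_30_0q_p (all_cons f_w744_756_0_40_0q_p (all_cons f_w756_768_0_40_0q_p (all_cons f_w696_720_0_30_0q_p (all_cons f_w480_504_0_5_0q_p (all_cons f_w624_648_0_5_0q_p (all_cons f_w672_696_0_5_0q_p (all_cons f_w648_672_0_40_0q_p (all_cons f_w648_672_0_5_0q_p (all_cons f_w672_696_0_40_0q_p (all_cons f_w504_528_0_5_0q_p (all_cons f_w528_552_0_5_0q_p (all_cons f_w552_576_0_5_0q_p (all_cons f_w576_600_0_5_0q_p (all_cons f_w600_624_0_5_0q_p (all_cons f_w696_720_0_5_0q_p (all_cons f_w720_744_0_5_0q_p all_nil))))))))))))))))))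
    (by decide +kernel)
def t5 : Tree := (.sR 2208 (.sR 2016 (.sr 1280 (.leaf 0x48040142400012000000009c001007) (.sg 24 (.leaf 0x4003c04014240011080000000a8401004) (.leaf 0x4003c04014240021080000000ac401004))) (.sR 2112 (.leaf 0x440002828002128000000088001008) (.leaf 0x3e0540002c280031491c00b1f7a3e1005))) (.sR 2400 (.sR 2304 (.leaf 0x580003028004150000000084001008) (.leaf 0x5c0003428005158000000090001008)) (.sR 2496 (.leaf 0x5800038280061500000000a8001008) (.sr 1280 (.sR 2784 (.sR 2592 (.leaf 0x6000018280071600000000a4001008) (.sR 2688 (.leaf 0x3807c000202800819948058307a381005) (.leaf 0x380800001c280091a1100cd6a7a381005))) (.sR 2880 (.leaf 0x88000082800a1b0000000054001008) (.sR 2976 (.leaf 0x90000042800b1c0000000078001008) (.sg 24 (.sr 1152 (.leaf 0x88000402800c1b0000000098001008) (.leaf 0x90000002800d1c000000009c001008)) (.leaf 0x98000002800e1d000000008c001008))))) (.sg 24 (.sR 2592 (.leaf 0x64000182800f168000000098001008) (.sR 2688 (.leaf 0x780003c2801019000000009c001008) (.sr 1408 (.sR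 2880 (.sR 2784 (.leaf 0x740001c28011188000000094001008) (.leaf 0x8800008280121b000000004c001008)) (.sR 2976 (.leaf 0x9000004280131c0000000080001008) (.sg 20 (.leaf 0x8800000280141b000000009c001008) (.leaf 0x9800000280151d000000007c001008)))) (.sR 2784 (.leaf 0x8000024280161a00000000a0001008) (.sR 2880 (.leaf 0x8000008280171a0000000098001008) (.sg 20 (.sR 2976 (.leaf 0x8400004280181a800000009c001008) (.sr 1472 (.sR 3024 (.leaf 0x980000c280001d0000000070001008) (.leaf 0x8800010280001b000000009c001008)) (.sR 3024 (.leaf 0x940000c280191c8000000090001008) (.leaf 0x90000102801a1c0000000098001008)))) (.sR 2976 (.leaf 0x8c000042801b1b8000000098001008) (.sr 1472 (.leaf 0x90000002801c1c000000009c001008) (.sR 3024 (.leaf 0x980000c2801d1d0000000098001008) (.leaf 0x90000102801e1c000000009c001008)))))))))) (.sR 2688 (.sR 2592 (.leaf 0x6c000182801f1780000000a0001008) (.leaf 0x6c00020280201780000000a0001008)) (.sR 2784 (.sr 1408 (.leaf 0x7c0001c28022198000000088001008) (.leaf 0x8000024280231a000000009c001008))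 (.sR 2880 (.leaf 0x8000008280211a00000000a0001008) (.sr 1408 (.sR 2976 (.leaf 0x9000004280241c0000000068001008) (.leaf 0x9800000280251d0000000094001008)) (.sg 28 (.sR 2976 (.leaf 0x8400004280011a800000009c001008) (.sr 1472 (.leaf 0x9800000280261d0000000088001008) (.sR 3024 (.leaf 0x980000c280271d0000000090001008) (.leaf 0x9000010280281c0000000098001008)))) (.sR 2976 (.leaf 0x8000004280011a00000000a0001008) (.sr 1472 (.leaf 0x9800000280291d0000000050001008) (.leaf 0x98000002802a1d0000000094001008)))))))))))))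
theorem k5 : ChunkP 4 4 1024 1536 16 32 1920 3072 :=
  chkY_sound (Q := 40) (C := [c17.c, c24.c, c25.c]) (Z := [z217, z231, z194, z195, z196, z197, z198, z199, z200, z201, z202, z203, z204, z205, z206, z207, z208, z209, z210, z211, z212, z213, z214, z215, z216, z218, z219, z220, z221, z222, z223, z224, z225, z226, z227, z228, z229, z230, z232, z233, z234, z235, z236])
    (T := [f_w744_768_0_30_0q, f_w720_744_0_30_0q, f_w696_720_0_30_0q, f_w744_756_0_40_0q, f_w756_768_0_40_0q, f_w480_504_0_5_0q, f_w624_648_0_5_0q, f_w672_696_0_5_0q, f_w648_672_0_5_0q, f_w672_696_0_40_0q, f_w504_528_0_5_0q, f_w528_552_0_5_0q, f_w552_576_0_5_0q, f_w576_600_0_5_0q, f_w600_624_0_5_0q, f_w648_672_0_40_0q, f_w744_768_0_5_0q]) (t := t5)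
    (all_cons p17 (all_cons p24 (all_cons p25 all_nil)))
    (all_cons z217P (all_cons z231P (all_cons z194P (all_cons z195P (all_cons z196P (all_cons z197P (all_cons z198P (all_cons z199P (all_cons z200P (all_cons z201P (all_cons z202P (all_cons z203P (all_cons z204P (all_cons z205P (all_cons z206P (all_cons z207P (all_cons z208P (all_cons z209P (all_cons z210P (all_cons z211P (all_cons z212P (all_cons z213P (all_cons z214P (all_cons z215P (all_cons z216P (all_cons z218P (all_cons z219P (all_cons z220P (all_cons z221P (all_cons z222P (all_cons z223P (all_cons z224P (all_cons z225P (all_cons z226P (all_cons z227P (all_cons z228P (all_cons z229P (all_cons z230P (all_cons z232P (all_cons z233P (all_cons z234P (all_cons z235P (all_cons z236P all_nil)))))))))))))))))))))))))))))))))))))))))))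
    (all_cons f_w744_768_0_30_0q_p (all_cons f_w720_744_0_30_0q_p (all_cons f_w696_720_0_30_0q_p (all_cons f_w744_756_0_40_0q_p (all_cons f_w756_768_0_40_0q_p (all_cons f_w480_504_0_5_0q_p (all_cons f_w624_648_0_5_0q_p (all_cons f_w672_696_0_5_0q_p (all_cons f_w648_672_0_5_0q_p (all_cons f_w672_696_0_40_0q_p (all_cons f_w504_528_0_5_0q_p (all_cons f_w528_552_0_5_0q_p (all_cons f_w552_576_0_5_0q_p (all_cons f_w576_600_0_5_0q_p (all_cons f_w600_624_0_5_0q_p (all_cons f_w648_672_0_40_0q_p (all_cons f_w744_768_0_5_0q_p all_nil)))))))))))))))))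
    (by decide +kernel)

end Pool.Agent.Lib.MP_af3a4a_an.P1.CHK.DATA.N4s
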