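import Pool.Agent.Lib.MP_af3a4a_an.P1.CHK.SWP.Pay
import Pool.Agent.Lib.MP_af3a4a_an.P1.CHK.DATA.N4s.C1
import Pool.Agent.Lib.MP_af3a4a_an.P1.CHK.DATA.N4s.C2
import Pool.Agent.Lib.MP_af3a4a_an.P1.CHK.DATA.N4s.Z11
import Pool.Agent.Lib.MP_af3a4a_an.P1.CHK.DATA.F4.W480a
import Pool.Agent.Lib.MP_af3a4a_an.P1.CHK.DATA.F4.W480b
import Pool.Agent.Lib.MP_af3a4a_an.P1.CHK.DATA.F4.W528a
import Pool.Agent.Lib.MP_af3a4a_an.P1.CHK.DATA.F4.W528b
import Pool.Agent.Lib.MP_af3a4a_an.P1.CHK.DATA.F4.W576a

/-! chunks for N = 4 (generated) -/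

set_option autoImplicit false
set_option maxRecDepth 100000

namespace Pool.Agent.Lib.MP_af3a4a_an.P1.CHK.DATA.N4s

open BOX SWP

def t102 : Tree := (.sg 42 (.sR 2352 (.sR 2304 (.sr 2880 (.sR 2112 (.sR 2016 (.sR 1968 (.sg 41 (.sr 2848 (.leaf 0x45c3c000242200b1000000000b044d044) (.leaf 0x45c3c0002c2200d1000000000b044d044)) (.sr 2848 (.leaf 0x45c3c000242200c1000000000b044d044) (.sR 1944 (.leaf 0x45c3c04000220021000000000a4451044) (.leaf 0x4644004004220021080000000b0459044)))) (.leaf 0x4003400020280031080000000a8401006)) (.sR 2064 (.leaf 0x3c00008280041180000000ac001008) (.leaf 0x3c0000c280051180000000a4001008))) (.sR 2208 (.sR 2160 (.leaf 0x4400010280061280000000a8001008) (.leaf 0x4400014280071280000000a0001008)) (.sR 2256 (.leaf 0x5000018280081400000000a8001008) (.leaf 0x500001c280091400000000a8001008)))) (.sR 2112 (.sR 2016 (.sR 1968 (.sg 41 (.sr 2912 (.leaf 0x45c3c040342200e1000000000b044d044) (.leaf 0x45c3c000302200f1000000000b044d044)) (.sr 2912 (.sR 1944 (.leaf 0x45c3c04000220051000000000a8451044)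 (.leaf 0x4543c04004220051000000000a844d044)) (.sR 1944 (.leaf 0x45c3c04000220081000000000a8451044) (.leaf 0x4543c04004220081000000000a844d044)))) (.leaf 0x40034000382800a1080000000b0401006)) (.sR 2064 (.sg 41 (.leaf 0x3800008280101100000000a4001008) (.leaf 0x3800008280111100000000a4001008)) (.leaf 0x3c0000c2800b1180000000a8001008))) (.sR 2208 (.sR 2160 (.leaf 0x44000102800c1280000000ac001008) (.leaf 0x44000142800d1280000000a0001008)) (.sR 2256 (.leaf 0x50000182800e1400000000a8001008) (.leaf 0x500001c2800f1400000000a4001008))))) (.leaf 0x4c00028280001380000000ac001008)) (.sR 2400 (.leaf 0x5400040280011480000000a8001008) (.sR 2448 (.leaf 0x5400044280021480000000a8001008) (.leaf 3)))) (.sR 2400 (.sR 2304 (.sr 2880 (.sR 2112 (.sR 2016 (.sR 1968 (.sg 43 (.sr 2848 (.sR 1944 (.leaf 0x45c3c04000220001000000000a4451044) (.leaf 0x4644004004220001080000000b0459044)) (.sR 1944 (.leaf 0x45c3c04000220031000000000a8451044) (.leaf 0x4543c04004220031000000000a844d044))) (.sr 2848 (.sR 1944 (.leaf 0x45c3c04000220011000000000a8451044)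 (.leaf 0x4543c04004220011000000000a844d044)) (.sR 1944 (.leaf 0x45c3c04000220041000000000a8451044) (.leaf 0x4543c04004220041000000000a844d044)))) (.leaf 0x4003400020280141080000000a4401006)) (.sR 2064 (.leaf 0x3c00008280151180000000ac001008) (.leaf 0x440000c280161280000000a8001008))) (.sR 2208 (.sR 2160 (.leaf 0x4400010280171280000000a8001008) (.leaf 0x4c00014280181380000000a0001008)) (.sR 2256 (.leaf 0x5000018280191400000000a8001008) (.leaf 0x580001c2801a1500000000a4001008)))) (.sR 2112 (.sR 2016 (.sR 1968 (.sg 43 (.sr 2912 (.sR 1944 (.leaf 0x45c3c04000220061000000000a8451044) (.leaf 0x4543c04004220061000000000a844d044)) (.sR 1944 (.leaf 0x45c3c04000220091000000000a8451044) (.leaf 0x4543c04004220091000000000a844d044))) (.sr 2912 (.sR 1944 (.leaf 0x45c3c04000220071000000000a8451044) (.leaf 0x4543c04004220071000000000a844d044)) (.sR 1944 (.leaf 0x45c3c040002200a1000000000a8451044) (.leaf 0x4543c040042200a1000000000a844d044)))) (.leaf 0x40034000202801b1080000000b0401006)) (.sR 2064 (.leaf 0x4003c000082801c1180000000b0401006)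 (.leaf 0x3c0000c2801d1180000000a8001008))) (.sR 2208 (.sR 2160 (.leaf 0x44000102801e1280000000ac001008) (.leaf 0x44000142801f1280000000a0001008)) (.sR 2256 (.leaf 0x5000018280201400000000a8001008) (.leaf 0x500001c280211400000000a8001008))))) (.sR 2352 (.leaf 0x4c00028280121380000000ac001008) (.leaf 0x580003c280131500000000a8001008))) (.leaf 3)))
theorem k102 : ChunkP 4 4 2816 2944 40 44 1920 2496 :=
  chkY_sound (Q := 40) (C := [c501.c, c502.c, c543.c, c544.c, c545.c, c563.c, c564.c, c565.c, c593.c, c594.c, c595.c, c499.c, c500.c, c542.c, c562.c, c592.c]) (Z := [z3333, z3334, z3335, z3336, z3337, z3338, z3339, z3340, z3341, z3342, z3343, z3344, z3345, z3346, z3347, z3348, z3349, z3350, z3351, z3352, z3353, z3354, z3355, z3356, z3357, z3358, z3359, z3360, z3361, z3362, z3363, z3364, z3365, z3366])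
    (T := [f_w480_486_4_54_39q, f_w486_492_4_54_39q, f_w504_516_0_60_10q, f_w516_528_0_60_10q, f_w528_540_0_60_10q, f_w540_552_0_60_10q, f_w552_564_0_60_10q, f_w564_576_0_60_10q, f_w492_504_0_50_20q, f_w480_492_4_55_30q, f_w576_588_0_50_30q, f_w480_492_4_55_35q, f_w480_492_4_57_42q, f_w480_492_4_60_10q, f_w492_504_0_60_20q, f_w588_600_0_50_40q, f_w588_600_0_55_40q, f_w600_612_0_50_20q]) (t := t102)
    (all_cons p501 (all_cons p502 (all_cons p543 (all_cons p544 (all_cons p545 (all_cons p563 (all_cons p564 (all_cons p565 (all_cons p593 (all_cons p594 (all_cons p595 (all_cons p499 (all_cons p500 (all_cons p542 (all_cons p562 (all_cons p592 all_nil))))))))))))))))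
    (all_cons z3333P (all_cons z3334P (all_cons z3335P (all_cons z3336P (all_cons z3337P (all_cons z3338P (all_cons z3339P (all_cons z3340P (all_cons z3341P (all_cons z3342P (all_cons z3343P (all_cons z3344P (all_cons z3345P (all_cons z3346P (all_cons z3347P (all_cons z3348P (all_cons z3349P (all_cons z3350P (all_cons z3351P (all_cons z3352P (all_cons z3353P (all_cons z3354P (all_cons z3355P (all_cons z3356P (all_cons z3357P (all_cons z3358P (all_cons z3359P (all_cons z3360P (all_cons z3361P (all_cons z3362P (all_cons z3363P (all_cons z3364P (all_cons z3365P (all_cons z3366P all_nil))))))))))))))))))))))))))))))))))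
    (all_cons f_w480_486_4_54_39q_p (all_cons f_w486_492_4_54_39q_p (all_cons f_w504_516_0_60_10q_p (all_cons f_w516_528_0_60_10q_p (all_cons f_w528_540_0_60_10q_p (all_cons f_w540_552_0_60_10q_p (all_cons f_w552_564_0_60_10q_p (all_cons f_w564_576_0_60_10q_p (all_cons f_w492_504_0_50_20q_p (all_cons f_w480_492_4_55_30q_p (all_cons f_w576_588_0_50_30q_p (all_cons f_w480_492_4_55_35q_p (all_cons f_w480_492_4_57_42q_p (all_cons f_w480_492_4_60_10q_p (all_cons f_w492_504_0_60_20q_p (all_cons f_w588_600_0_50_40q_p (all_cons f_w588_600_0_55_40q_p (all_cons f_w600_612_0_50_20q_p all_nil))))))))))))))))))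
    (by decide +kernel)
def t103 : Tree := (.sR 2400 (.sg 42 (.sR 2352 (.sr 3008 (.sR 2160 (.sR 2064 (.sg 41 (.sR 2016 (.sr 2976 (.sR 1968 (.sR 1944 (.leaf 0x45c3c04000220001000000000ac451044) (.leaf 0x4543c04004220001000000000a844d044)) (.leaf 0x4003400020280071080000000b0401006)) (.sR 1968 (.sR 1944 (.leaf 0x45c3c04000220041000000000ac451044) (.leaf 0x4543c04004220041000000000a844d044)) (.leaf 0x4003400008280081080000000a4401006))) (.leaf 0x400380000c280061100000000a8401006)) (.sR 2016 (.sr 2976 (.sR 1968 (.sR 1944 (.leaf 0x45c3c04000220011000000000ac451044) (.leaf 0x4543c04004220011000000000a844d044)) (.leaf 0x40038000202800a1100000000a8401006)) (.sR 1968 (.sR 1944 (.leaf 0x45c3c04000220051000000000ac451044) (.leaf 0x4543c04004220051000000000a844d044)) (.leaf 0x40034000082800b1080000000a8401006))) (.leaf 0x400380000c280091100000000a8401006))) (.sR 2112 (.leaf 0x3c00014280011180000000a8001008) (.sg 41 (.leaf 0x40000102800c1200000000a0001008) (.leaf 0x40000102800d1200000000a0001008)))) (.sR 2256 (.sR 2208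 (.leaf 0x4400018280021280000000a0001008) (.leaf 0x480001c280031300000000a8001008)) (.sR 2304 (.leaf 0x5000024280041400000000a4001008) (.leaf 0x5400034280051480000000a8001008)))) (.sR 2208 (.sR 2160 (.sg 41 (.sR 2064 (.sR 2016 (.sr 3040 (.sR 1968 (.sR 1944 (.leaf 0x45c3c04000220081000000000ac451044) (.leaf 0x4543c04004220081000000000a844d044)) (.leaf 0x4003400008280131080000000a8401006)) (.sR 1968 (.leaf 0x45c3c040282200e1000000000b044d044) (.leaf 0x4003400008280141080000000a8401006))) (.leaf 0x400380000c280111100000000ac401006)) (.sR 2112 (.sr 3040 (.leaf 0x4003c00014280001180000000b0401006) (.leaf 0x3c00014280001180000000ac001008)) (.leaf 0x4000010280121200000000a0001008))) (.sR 2064 (.sR 2016 (.sr 3040 (.sR 1968 (.sR 1944 (.leaf 0x45c3c04000220091000000000ac451044) (.leaf 0x4543c04004220091000000000a844d044)) (.leaf 0x4003400008280181080000000a8401006)) (.sR 1968 (.leaf 0x45c3c0402c2200f1000000000b044d044) (.leaf 0x4003400008280191080000000a8401006))) (.leaf 0x400380000c280151100000000ac401006)) (.sR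 2112 (.leaf 0x4000014280161200000000ac001008) (.leaf 0x4000010280171200000000a0001008)))) (.leaf 0x44000182800e1280000000a4001008)) (.sR 2256 (.leaf 0x480001c2800f1300000000a8001008) (.sR 2304 (.leaf 0x5000024280101400000000a4001008) (.leaf 3))))) (.leaf 3)) (.sR 2304 (.sr 3008 (.sR 2112 (.sR 2016 (.sR 1968 (.sg 43 (.sr 2976 (.sR 1944 (.leaf 0x45c3c04000220021000000000a8451044) (.leaf 0x4543c04004220021000000000a844d044)) (.sR 1944 (.leaf 0x45c3c04000220061000000000ac451044) (.leaf 0x4543c04004220061000000000a844d044))) (.sr 2976 (.sR 1944 (.leaf 0x45c3c04000220031000000000a8451044) (.leaf 0x4543c04004220031000000000a844d044)) (.sR 1944 (.leaf 0x45c3c04000220071000000000ac451044) (.leaf 0x4543c04004220071000000000a844d044)))) (.leaf 0x40034000302801a1080000000b0401006)) (.sR 2064 (.sg 43 (.leaf 0x400380000c280201100000000a8401006) (.leaf 0x400380000c280211100000000a8401006)) (.leaf 0x3c000142801b1180000000ac001008))) (.sR 2208 (.sR 2160 (.leaf 0x44000102801c1280000000ac001008) (.leaf 0x44000182801d1280000000a4001008))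 (.sR 2256 (.leaf 0x500001c2801e1400000000a8001008) (.leaf 0x50000242801f1400000000a4001008)))) (.sR 2160 (.sR 2064 (.sg 43 (.sR 2016 (.sr 3040 (.sR 1968 (.sR 1944 (.leaf 0x45c3c040002200a1000000000ac451044) (.leaf 0x4543c040042200a1000000000a844d044)) (.leaf 0x4003400008280261080000000a8401006)) (.sR 1968 (.sR 1944 (.leaf 0x45c3c040002200c1000000000ac451044) (.leaf 0x4543c040042200c1000000000a844d044)) (.leaf 0x4003400008280271080000000ac401006))) (.leaf 0x400380000c280251100000000ac401006)) (.sR 1968 (.sr 3040 (.sR 1944 (.leaf 0x45c3c040002200b1000000000ac451044) (.leaf 0x4543c040042200b1000000000a844d044)) (.sR 1944 (.leaf 0x45c40000002000d1000000000ac451044) (.leaf 0x45440000042000d1000000000a844d044))) (.sR 2016 (.leaf 0x4003400020280281080000000ac401006) (.leaf 0x400380000c280291100000000ac401006)))) (.sR 2112 (.leaf 0x3c00014280221180000000ac001008) (.sg 43 (.leaf 0x40000102802a1200000000a0001008) (.leaf 0x48000102802b1300000000a4001008)))) (.sR 2208 (.leaf 0x4400018280231280000000a4001008) (.sR 2256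 (.leaf 0x480001c280241300000000a8001008) (.leaf 3))))) (.leaf 3))) (.leaf 3))
theorem k103 : ChunkP 4 4 2944 3072 40 44 1920 2496 :=
  chkY_sound (Q := 40) (C := [c612.c, c613.c, c614.c, c615.c, c650.c, c651.c, c652.c, c653.c, c667.c, c668.c, c669.c, c670.c, c695.c, c696.c, c693.c, c694.c]) (Z := [z3387, z3367, z3368, z3369, z3370, z3371, z3372, z3373, z3374, z3375, z3376, z3377, z3378, z3379, z3380, z3381, z3382, z3383, z3384, z3385, z3386, z3388, z3389, z3390, z3391, z3392, z3393, z3394, z3395, z3396, z3397, z3398, z3399, z3400, z3401, z3402, z3403, z3404, z3405, z3406, z3407, z3408, z3409, z3410])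
    (T := [f_w480_486_4_54_39q, f_w486_492_4_54_39q, f_w492_504_0_60_20q, f_w504_516_0_60_10q, f_w528_540_0_60_10q, f_w516_528_0_60_10q, f_w540_552_0_60_10q, f_w552_564_0_60_10q, f_w492_504_0_50_20q, f_w564_576_0_60_10q, f_w480_492_4_60_10q, f_w480_492_4_60_20q, f_w492_504_0_55_40q, f_w576_588_0_60_10q]) (t := t103)
    (all_cons p612 (all_cons p613 (all_cons p614 (all_cons p615 (all_cons p650 (all_cons p651 (all_cons p652 (all_cons p653 (all_cons p667 (all_cons p668 (all_cons p669 (all_cons p670 (all_cons p695 (all_cons p696 (all_cons p693 (all_cons p694 all_nil))))))))))))))))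
    (all_cons z3387P (all_cons z3367P (all_cons z3368P (all_cons z3369P (all_cons z3370P (all_cons z3371P (all_cons z3372P (all_cons z3373P (all_cons z3374P (all_cons z3375P (all_cons z3376P (all_cons z3377P (all_cons z3378P (all_cons z3379P (all_cons z3380P (all_cons z3381P (all_cons z3382P (all_cons z3383P (all_cons z3384P (all_cons z3385P (all_cons z3386P (all_cons z3388P (all_cons z3389P (all_cons z3390P (all_cons z3391P (all_cons z3392P (all_cons z3393P (all_cons z3394P (all_cons z3395P (all_cons z3396P (all_cons z3397P (all_cons z3398P (all_cons z3399P (all_cons z3400P (all_cons z3401P (all_cons z3402P (all_cons z3403P (all_cons z3404P (all_cons z3405P (all_cons z3406P (all_cons z3407P (all_cons z3408P (all_cons z3409P (all_cons z3410P all_nil))))))))))))))))))))))))))))))))))))))))))))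
    (all_cons f_w480_486_4_54_39q_p (all_cons f_w486_492_4_54_39q_p (all_cons f_w492_504_0_60_20q_p (all_cons f_w504_516_0_60_10q_p (all_cons f_w528_540_0_60_10q_p (all_cons f_w516_528_0_60_10q_p (all_cons f_w540_552_0_60_10q_p (all_cons f_w552_564_0_60_10q_p (all_cons f_w492_504_0_50_20q_p (all_cons f_w564_576_0_60_10q_p (all_cons f_w480_492_4_60_10q_p (all_cons f_w480_492_4_60_20q_p (all_cons f_w492_504_0_55_40q_p (all_cons f_w576_588_0_60_10q_p all_nil))))))))))))))
    (by decide +kernel)
def t104 : Tree := (.sg 46 (.sR 2160 (.sR 2064 (.sr 2880 (.sR 1968 (.sg 45 (.sr 2848 (.sR 1944 (.leaf 0x45c3c04000220001000000000a4451044) (.leaf 0x4543c04004220001000000000a844d044)) (.sR 1944 (.leaf 0x45c3c04000220041000000000a8451044) (.leaf 0x4543c04004220041000000000a844d044))) (.sr 2848 (.sR 1944 (.leaf 0x45c3c04000220011000000000a8451044) (.leaf 0x4543c04004220011000000000a844d044)) (.sR 1944 (.leaf 0x45c3c04000220051000000000a8451044) (.leaf 0x4543c04004220051000000000a844d044)))) (.sR 2016 (.leaf 0x3c00008280041180000000a0001008)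 (.leaf 0x3c0000c280051180000000ac001008))) (.sR 1968 (.sg 45 (.sr 2912 (.sR 1944 (.leaf 0x45c3c04000220081000000000a8451044) (.leaf 0x4543c04004220081000000000a844d044)) (.sR 1944 (.leaf 0x45c3c040002200c1000000000a8451044) (.leaf 0x4543c040042200c1000000000a844d044))) (.sr 2912 (.sR 1944 (.leaf 0x45c3c04000220091000000000a8451044) (.leaf 0x4543c04004220091000000000a844d044)) (.sR 1944 (.leaf 0x45c3c040002200d1000000000a8451044) (.leaf 0x4543c040042200d1000000000a844d044)))) (.sR 2016 (.leaf 0x4003400008280061080000000a8401006) (.leaf 0x4003c0000c280071180000000b0401006)))) (.sR 2112 (.leaf 0x3c00010280001180000000a8001008) (.sr 2880 (.leaf 0x4400014280081280000000a8001008) (.leaf 0x4400014280091280000000a8001008)))) (.sR 2208 (.leaf 0x4400018280011280000000a0001008) (.sR 2256 (.leaf 0x4800028280021300000000ac001008) (.leaf 0x500002c280031400000000a8001008)))) (.sR 2112 (.sR 2016 (.sR 1968 (.sr 2880 (.sg 47 (.sr 2848 (.sR 1944 (.leaf 0x45c3c04000220021000000000a8451044) (.leaf 0x4543c04004220021000000000a844d044))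 (.sR 1944 (.leaf 0x45c3c04000220061000000000a8451044) (.leaf 0x4543c04004220061000000000a844d044))) (.sr 2848 (.sR 1944 (.leaf 0x45c3c04000220031000000000a8451044) (.leaf 0x4543c04004220031000000000a844d044)) (.sR 1944 (.leaf 0x45c3c04000220071000000000a8451044) (.leaf 0x4543c04004220071000000000a844d044)))) (.sg 47 (.sr 2912 (.sR 1944 (.leaf 0x45c3c040002200a1000000000a8451044) (.leaf 0x4543c040042200a1000000000a844d044)) (.sR 1944 (.leaf 0x45c3c040002200e1000000000ac451044) (.leaf 0x4543c040042200e1000000000a844d044))) (.sr 2912 (.sR 1944 (.leaf 0x45c3c040002200b1000000000a8451044) (.leaf 0x4543c040042200b1000000000a844d044)) (.sR 1944 (.leaf 0x45c3c040002200f1000000000b0451044) (.leaf 0x4543c040042200f1000000000a844d044))))) (.leaf 0x40034000082800a1080000000a0401006)) (.sR 2064 (.leaf 0x400380001c2800b1100000000b0401006) (.leaf 0x40000102800c1200000000ac001008))) (.sR 2208 (.sR 2160 (.leaf 0x40000202800d1200000000ac001008) (.leaf 0x48000182800e1300000000a4001008)) (.sR 2256 (.leaf 0x48000242800f1300000000a4001008)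 (.leaf 3)))))
theorem k104 : ChunkP 4 4 2816 2944 44 48 1920 2304 :=
  chkY_sound (Q := 40) (C := [c503.c, c504.c, c505.c, c506.c, c546.c, c547.c, c548.c, c549.c, c566.c, c567.c, c568.c, c569.c, c596.c, c597.c, c598.c, c599.c]) (Z := [z3411, z3412, z3413, z3414, z3415, z3416, z3417, z3418, z3419, z3420, z3421, z3422, z3423, z3424, z3425, z3426])
    (T := [f_w480_486_4_54_39q, f_w486_492_4_54_39q, f_w492_504_0_50_20q, f_w504_516_0_60_10q, f_w516_528_0_50_30q, f_w528_540_0_60_10q, f_w540_552_0_50_30q, f_w504_516_0_50_30q, f_w528_540_0_50_30q, f_w552_564_0_50_30q, f_w552_564_0_50_40q, f_w564_576_0_50_30q]) (t := t104)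
    (all_cons p503 (all_cons p504 (all_cons p505 (all_cons p506 (all_cons p546 (all_cons p547 (all_cons p548 (all_cons p549 (all_cons p566 (all_cons p567 (all_cons p568 (all_cons p569 (all_cons p596 (all_cons p597 (all_cons p598 (all_cons p599 all_nil))))))))))))))))
    (all_cons z3411P (all_cons z3412P (all_cons z3413P (all_cons z3414P (all_cons z3415P (all_cons z3416P (all_cons z3417P (all_cons z3418P (all_cons z3419P (all_cons z3420P (all_cons z3421P (all_cons z3422P (all_cons z3423P (all_cons z3424P (all_cons z3425P (all_cons z3426P all_nil))))))))))))))))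
    (all_cons f_w480_486_4_54_39q_p (all_cons f_w486_492_4_54_39q_p (all_cons f_w492_504_0_50_20q_p (all_cons f_w504_516_0_60_10q_p (all_cons f_w516_528_0_50_30q_p (all_cons f_w528_540_0_60_10q_p (all_cons f_w540_552_0_50_30q_p (all_cons f_w504_516_0_50_30q_p (all_cons f_w528_540_0_50_30q_p (all_cons f_w552_564_0_50_30q_p (all_cons f_w552_564_0_50_40q_p (all_cons f_w564_576_0_50_30q_p all_nil))))))))))))
    (by decide +kernel)
def t105 : Tree := (.sR 2208 (.sg 46 (.sr 3008 (.sR 2064 (.sR 1968 (.sg 45 (.sr 2976 (.sR 1944 (.leaf 0x45c3c04000220001000000000a8451044) (.leaf 0x4543c04004220001000000000a844d044)) (.sR 1944 (.leaf 0x45c3c04000220031000000000ac451044) (.leaf 0x4543c04004220031000000000a844d044))) (.sr 2976 (.sR 1944 (.leaf 0x45c3c04000220011000000000ac451044) (.leaf 0x4543c04004220011000000000a844d044)) (.sR 1944 (.leaf 0x45c4000000200041000000000ac451044) (.leaf 0x4544000004200041000000000a844d044)))) (.sR 2016 (.leaf 0x400340000c280001080000000b0401006) (.leaf 0x3800008280011100000000a0001008)))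 (.sR 2112 (.leaf 0x3c00010280021180000000a8001008) (.sR 2160 (.leaf 0x4400014280031280000000ac001008) (.leaf 0x4400020280041280000000a0001008)))) (.sR 2112 (.sR 2064 (.sg 45 (.sR 1968 (.sr 3040 (.sR 1944 (.leaf 0x45c4000000200071000000000ac451044) (.leaf 0x4544000004200071000000000a844d044)) (.sR 1944 (.leaf 0x45c40000002000b1000000000ac451044) (.leaf 0x45440000042000b1000000000a844d044))) (.sR 2016 (.leaf 0x400340000c280071080000000a8401006) (.leaf 0x4003800008280081100000000ac401006))) (.sR 1968 (.sr 3040 (.sR 1944 (.leaf 0x45c4000000200081000000000ac451044) (.leaf 0x4544000004200081000000000a844d044)) (.sR 1944 (.leaf 0x45c40000002000c1000000000b0451044) (.leaf 0x45440000042000c1000000000a844d044))) (.sR 2016 (.leaf 0x400340000c280091080000000a0401006) (.leaf 0x3c000082800a1180000000a0001008)))) (.leaf 0x3c00010280051180000000ac001008)) (.sR 2160 (.leaf 0x4400014280061280000000ac001008) (.leaf 3)))) (.sR 2112 (.sr 3008 (.sR 2016 (.sR 1968 (.sg 47 (.sr 2976 (.sR 1944 (.leaf 0x45c4000000200021000000000b0451044)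 (.leaf 0x4544000004200021000000000a844d044)) (.sR 1944 (.leaf 0x45c4000000200051000000000b0451044) (.leaf 0x4544000004200051000000000a844d044))) (.sr 2976 (.sR 1944 (.leaf 0x45c3c04000220101000000000b0451044) (.leaf 0x45440000042000f1000000000a844d044)) (.sR 1944 (.leaf 0x45c4000000200061000000000b0451044) (.leaf 0x4544000004200061000000000a844d044)))) (.leaf 0x400340000c2800c1080000000a8401006)) (.sR 2064 (.leaf 0x4003c000082800d1180000000b0401006) (.leaf 0x44000102800e1280000000a4001008))) (.sR 2016 (.sR 1968 (.sg 47 (.sr 3040 (.sR 1944 (.leaf 0x45c4000000200091000000000b0451044) (.leaf 0x4544000004200091000000000a844d044)) (.sR 1944 (.leaf 0x45c40000002000d1000000000b0451044) (.leaf 0x45440000042000d1000000000a844d044))) (.sr 3040 (.sR 1944 (.leaf 0x44c38040002200a0f80000000b4445044) (.leaf 0x4543c040042200a1000000000a844d044)) (.sR 1944 (.leaf 0x44c3c000002000e0f80000000b4445044) (.leaf 0x45440000042000e1000000000a844d044)))) (.leaf 0x40034000182800f1080000000ac401006)) (.sR 2064 (.leaf 0x3800008280101100000000a0001008)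 (.leaf 0x3c00010280111180000000ac001008)))) (.sR 2160 (.leaf 0x400001c2800b1200000000a8001008) (.leaf 3)))) (.leaf 3))
theorem k105 : ChunkP 4 4 2944 3072 44 48 1920 2304 :=
  chkY_sound (Q := 40) (C := [c616.c, c617.c, c618.c, c654.c, c655.c, c656.c, c657.c, c671.c, c672.c, c673.c, c674.c, c697.c, c698.c, c699.c, c700.c, c619.c, c620.c]) (Z := [z3427, z3428, z3429, z3430, z3431, z3432, z3433, z3434, z3435, z3436, z3437, z3438, z3439, z3440, z3441, z3442, z3443, z3444])
    (T := [f_w480_486_4_54_39q, f_w486_492_4_54_39q, f_w504_516_0_60_10q, f_w492_504_0_50_20q, f_w516_528_0_60_10q, f_w528_540_0_60_10q, f_w492_504_0_55_40q, f_w528_540_0_55_45q, f_w540_552_0_60_10q]) (t := t105)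
    (all_cons p616 (all_cons p617 (all_cons p618 (all_cons p654 (all_cons p655 (all_cons p656 (all_cons p657 (all_cons p671 (all_cons p672 (all_cons p673 (all_cons p674 (all_cons p697 (all_cons p698 (all_cons p699 (all_cons p700 (all_cons p619 (all_cons p620 all_nil)))))))))))))))))
    (all_cons z3427P (all_cons z3428P (all_cons z3429P (all_cons z3430P (all_cons z3431P (all_cons z3432P (all_cons z3433P (all_cons z3434P (all_cons z3435P (all_cons z3436P (all_cons z3437P (all_cons z3438P (all_cons z3439P (all_cons z3440P (all_cons z3441P (all_cons z3442P (all_cons z3443P (all_cons z3444P all_nil))))))))))))))))))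
    (all_cons f_w480_486_4_54_39q_p (all_cons f_w486_492_4_54_39q_p (all_cons f_w504_516_0_60_10q_p (all_cons f_w492_504_0_50_20q_p (all_cons f_w516_528_0_60_10q_p (all_cons f_w528_540_0_60_10q_p (all_cons f_w492_504_0_55_40q_p (all_cons f_w528_540_0_55_45q_p (all_cons f_w540_552_0_60_10q_p all_nil)))))))))
    (by decide +kernel)
def t106 : Tree := (.leaf 3)
theorem k106 : ChunkP 4 4 2816 3072 44 48 2304 2496 :=
  chkY_sound (Q := 40) (C := []) (Z := [])
    (T := []) (t := t106)
    all_nil
    all_nil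
    all_nil
    (by decide +kernel)
def t107 : Tree := (.leaf 3)
theorem k107 : ChunkP 4 4 2816 3072 40 48 2496 2688 :=
  chkY_sound (Q := 40) (C := []) (Z := [])
    (T := []) (t := t107)
    all_nil
    all_nil
    all_nil
    (by decide +kernel)

end Pool.Agent.Lib.MP_af3a4a_an.P1.CHK.DATA.N4s
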