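import Pool.Agent.Lib.MP_af3a4a_an.P1.CHK.SWP.Pay
import Pool.Agent.Lib.MP_af3a4a_an.P1.CHK.DATA.N4s.C0
import Pool.Agent.Lib.MP_af3a4a_an.P1.CHK.DATA.N4s.Z5
import Pool.Agent.Lib.MP_af3a4a_an.P1.CHK.DATA.N4s.Z6
import Pool.Agent.Lib.MP_af3a4a_an.P1.CHK.DATA.F4.W480a
import Pool.Agent.Lib.MP_af3a4a_an.P1.CHK.DATA.F4.W480b
import Pool.Agent.Lib.MP_af3a4a_an.P1.CHK.DATA.F4.W528a
import Pool.Agent.Lib.MP_af3a4a_an.P1.CHK.DATA.F4.W528b
import Pool.Agent.Lib.MP_af3a4a_an.P1.CHK.DATA.F4.W576a
import Pool.Agent.Lib.MP_af3a4a_an.P1.CHK.DATA.F4.W624a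
import Pool.Agent.Lib.MP_af3a4a_an.P1.CHK.DATA.F4.W672a
import Pool.Agent.Lib.MP_af3a4a_an.P1.CHK.DATA.F4.W672b
import Pool.Agent.Lib.MP_af3a4a_an.P1.CHK.DATA.F4.W720a
import Pool.Agent.Lib.MP_af3a4a_an.P1.CHK.DATA.F4.W720b

/-! chunks for N = 4 (generated) -/

set_option autoImplicit false
set_option maxRecDepth 100000

namespace Pool.Agent.Lib.MP_af3a4a_an.P1.CHK.DATA.N4s

open BOX SWP

def t48 : Tree := (.sg 26 (.sR 2448 (.sR 2160 (.sR 2016 (.sR 1968 (.sr 2368 (.leaf 0x400380005c240011000000000b0401004) (.leaf 0x45c3808060240021000000000ac44d044)) (.leaf 0x3c000182800a1180000000a8001008)) (.sR 2064 (.leaf 0x400380001c280001100000000a8401006) (.sR 2112 (.leaf 0x4003c00020280001180000000b0401006) (.leaf 0x4400024280011280000000ac001008)))) (.sR 2304 (.sR 2208 (.leaf 0x4400028280011280000000a8001008) (.sR 2256 (.leaf 0x480002c2800b1300000000a0001008) (.leaf 0x50000302800c1400000000a8001008))) (.sR 2352 (.leaf 0x4c000342800d1380000000ac001008) (.sR 2400 (.leaf 0x54000682800e1480000000a4001008) (.leaf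 0x5400038280021480000000a8001008))))) (.sR 2736 (.sR 2592 (.sR 2496 (.leaf 0x5c0003c2800f15800000009c001008) (.sR 2544 (.leaf 0x5c00040280101580000000a8001008) (.leaf 0x64000442801116800000009c001008))) (.sR 2640 (.leaf 0x6c000482800317800000009c001008) (.sR 2688 (.leaf 0x6c0004c280031780000000a0001008) (.leaf 0x6c00050280121780000000a0001008)))) (.sR 2880 (.sR 2784 (.leaf 0x7000054280131800000000a0001008) (.sR 2832 (.leaf 0x7800058280141900000000a0001008) (.leaf 0x7800008280151900000000a0001008))) (.sR 2928 (.sr 2368 (.leaf 0x900000c280171c0000000078001008) (.leaf 0x800000c280181a0000000098001008)) (.sR 2976 (.leaf 0x8000010280161a00000000a0001008) (.sr 2368 (.sR 3024 (.leaf 0x9800000280191d0000000084001008) (.leaf 0x9c000042801a1d800000006c001008)) (.sR 3024 (.leaf 0x8c00000280041b800000009c001008) (.leaf 0x9400004280041c8000000098001008)))))))) (.sR 2400 (.sR 2160 (.sR 2016 (.sR 1968 (.sr 2368 (.leaf 0x45c3804014240001000000000a844d044) (.leaf 0x45c3804014240031000000000b044d044)) (.leaf 0x3c000182801b1180000000a8001008))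 (.sR 2064 (.leaf 0x400380001c280001100000000ac401006) (.sR 2112 (.leaf 0x3c000202801c1180000000a0001008) (.leaf 0x40000242801d1200000000a4001008)))) (.sR 2256 (.sR 2208 (.leaf 0x48000282801e1300000000a0001008) (.leaf 0x480002c2801f1300000000a8001008)) (.sR 2304 (.leaf 0x4c00030280201380000000a4001008) (.sR 2352 (.leaf 0x4c00034280051380000000ac001008) (.leaf 0x5800064280051500000000a8001008))))) (.sR 2640 (.sR 2496 (.sR 2448 (.leaf 0x5400038280021480000000a8001008) (.leaf 0x5c0003c280211580000000a0001008)) (.sR 2544 (.leaf 0x6400040280061680000000a0001008) (.sR 2592 (.leaf 0x6400044280061680000000a0001008) (.leaf 0x6c00048280071780000000a4001008)))) (.sR 2736 (.sR 2688 (.leaf 0x6c0004c280071780000000a4001008) (.leaf 0x6c00050280221780000000a0001008)) (.sR 2784 (.leaf 0x7800054280231900000000a0001008) (.sR 2832 (.leaf 0x7400058280241880000000a0001008) (.sr 2368 (.sR 2928 (.sR 2880 (.leaf 0x8c00008280251b8000000084001008) (.leaf 0x7c0006c280261980000000a0001008)) (.sR 2976 (.leaf 0x9400010280271c800000006c001008)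 (.sR 3024 (.leaf 0x9800000280281d000000008c001008) (.leaf 0x9c00004280291d8000000070001008)))) (.sR 2928 (.sR 2880 (.leaf 0x80000082802a1a00000000a0001008) (.leaf 0x7c0000c2800819800000009c001008)) (.sR 2976 (.leaf 0x8000010280081a00000000a0001008) (.sR 3024 (.leaf 0x8800000280091b000000009c001008) (.leaf 0x8c00004280091b800000009c001008)))))))))))
theorem k48 : ChunkP 4 4 2304 2432 24 28 1920 3072 :=
  chkY_sound (Q := 40) (C := [c151.c, c152.c, c180.c, c181.c]) (Z := [z1594, z1595, z1600, z1604, z1614, z1621, z1623, z1624, z1634, z1635, z1593, z1596, z1597, z1598, z1599, z1601, z1602, z1603, z1605, z1606, z1607, z1608, z1609, z1610, z1611, z1612, z1613, z1615, z1616, z1617, z1618, z1619, z1620, z1622, z1625, z1626, z1627, z1628, z1629, z1630, z1631, z1632, z1633])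
    (T := [f_w744_756_0_50_0q, f_w756_768_0_50_10q, f_w708_720_0_50_10q, f_w720_732_0_50_20q, f_w732_744_0_50_10q, f_w480_492_4_50_10q, f_w492_504_0_50_20q, f_w504_516_0_60_10q, f_w516_528_0_60_10q, f_w528_540_0_60_10q, f_w540_552_0_60_10q, f_w552_564_0_60_10q, f_w564_576_0_60_10q, f_w576_588_0_60_10q, f_w600_612_0_50_20q, f_w612_624_0_50_20q, f_w624_636_0_50_10q, f_w636_648_0_50_10q, f_w648_660_0_50_10q, f_w660_672_0_50_10q, f_w672_684_0_50_10q, f_w684_696_0_50_10q, f_w696_708_0_50_10q, f_w480_492_0_50_20q, f_w480_492_4_60_10q, f_w588_600_0_50_20q, f_w588_600_0_60_10q, f_w720_732_0_40_0q]) (t := t48)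
    (all_cons p151 (all_cons p152 (all_cons p180 (all_cons p181 all_nil))))
    (all_cons z1594P (all_cons z1595P (all_cons z1600P (all_cons z1604P (all_cons z1614P (all_cons z1621P (all_cons z1623P (all_cons z1624P (all_cons z1634P (all_cons z1635P (all_cons z1593P (all_cons z1596P (all_cons z1597P (all_cons z1598P (all_cons z1599P (all_cons z1601P (all_cons z1602P (all_cons z1603P (all_cons z1605P (all_cons z1606P (all_cons z1607P (all_cons z1608P (all_cons z1609P (all_cons z1610P (all_cons z1611P (all_cons z1612P (all_cons z1613P (all_cons z1615P (all_cons z1616P (all_cons z1617P (all_cons z1618P (all_cons z1619P (all_cons z1620P (all_cons z1622P (all_cons z1625P (all_cons z1626P (all_cons z1627P (all_cons z1628P (all_cons z1629P (all_cons z1630P (all_cons z1631P (all_cons z1632P (all_cons z1633P all_nil)))))))))))))))))))))))))))))))))))))))))))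
    (all_cons f_w744_756_0_50_0q_p (all_cons f_w756_768_0_50_10q_p (all_cons f_w708_720_0_50_10q_p (all_cons f_w720_732_0_50_20q_p (all_cons f_w732_744_0_50_10q_p (all_cons f_w480_492_4_50_10q_p (all_cons f_w492_504_0_50_20q_p (all_cons f_w504_516_0_60_10q_p (all_cons f_w516_528_0_60_10q_p (all_cons f_w528_540_0_60_10q_p (all_cons f_w540_552_0_60_10q_p (all_cons f_w552_564_0_60_10q_p (all_cons f_w564_576_0_60_10q_p (all_cons f_w576_588_0_60_10q_p (all_cons f_w600_612_0_50_20q_p (all_cons f_w612_624_0_50_20q_p (all_cons f_w624_636_0_50_10q_p (all_cons f_w636_648_0_50_10q_p (all_cons f_w648_660_0_50_10q_p (all_cons f_w660_672_0_50_10q_p (all_cons f_w672_684_0_50_10q_p (all_cons f_w684_696_0_50_10q_p (all_cons f_w696_708_0_50_10q_p (all_cons f_w480_492_0_50_20q_p (all_cons f_w480_492_4_60_10q_p (all_cons f_w588_600_0_50_20q_p (all_cons f_w588_600_0_60_10q_p (all_cons f_w720_732_0_40_0q_p all_nil))))))))))))))))))))))))))))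
    (by decide +kernel)
def t49 : Tree := (.sg 26 (.sR 2496 (.sR 2208 (.sR 2064 (.sR 1968 (.sr 2496 (.leaf 0x45c3808004240001000000000b044d044) (.leaf 0x45c3808004240021000000000b044d044)) (.sR 2016 (.leaf 0x400380000c280091100000000ac401006) (.leaf 0x40038000102800a1100000000a8401006))) (.sR 2112 (.leaf 0x40000142800b1200000000ac001008) (.sR 2160 (.leaf 0x40000182800012000000009c001008) (.leaf 0x440001c280001280000000a4001008)))) (.sR 2352 (.sR 2256 (.leaf 0x4c00020280011380000000ac001008) (.sR 2304 (.leaf 0x4c00024280011380000000a8001008) (.leaf 0x4c000282800c1380000000ac001008))) (.sR 2400 (.leaf 0x54000542800d1480000000a4001008) (.sR 2448 (.leaf 0x580002c2800215000000009c001008) (.leaf 0x5c00030280021580000000a8001008))))) (.sR 2784 (.sR 2640 (.sR 2544 (.leaf 0x5c0005c2800e1580000000a8001008) (.sR 2592 (.leaf 0x60000642800f1600000000a4001008) (.leaf 0x6400034280101680000000a4001008))) (.sR 2688 (.leaf 0x6800038280111700000000a4001008) (.sR 2736 (.leaf 0x6c0003c280121780000000a0001008) (.leaf 0x7000040280131800000000a0001008))))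 (.sR 2928 (.sR 2832 (.sr 2496 (.leaf 0x7400000280031880000000a0001008) (.leaf 0x7c0000028003198000000098001008)) (.sR 2880 (.leaf 0x7c000442801419800000009c001008) (.leaf 0x7c000082801519800000009c001008))) (.sR 2976 (.leaf 0x8000068280161a000000009c001008) (.sR 3024 (.leaf 0x8c00048280171b8000000098001008) (.leaf 0x8c00070280181b8000000098001008)))))) (.sR 2496 (.sR 2208 (.sR 2064 (.sR 1968 (.sr 2496 (.leaf 0x45c380404c240011000000000b044d044) (.leaf 0x45c3808004240031000000000b044d044)) (.sR 2016 (.leaf 0x400380000c280191100000000b0401006) (.leaf 0x4003c00010280041180000000b0401006))) (.sR 2112 (.leaf 0x3c00014280041180000000a8001008) (.sR 2160 (.leaf 0x4000018280051200000000a4001008) (.leaf 0x440001c280051280000000ac001008)))) (.sR 2352 (.sR 2256 (.leaf 0x48000202801a1300000000a4001008) (.sR 2304 (.leaf 0x4c000242801b1380000000ac001008) (.leaf 0x5000028280061400000000a8001008))) (.sR 2400 (.leaf 0x5400050280061480000000a8001008) (.sR 2448 (.leaf 0x580002c280071500000000a0001008) (.leaf 0x5800030280071500000000a8001008)))))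 (.sR 2784 (.sR 2640 (.sR 2544 (.leaf 0x5c000582801c1580000000a8001008) (.sR 2592 (.leaf 0x64000602801d16800000009c001008) (.leaf 0x64000342801e1680000000a4001008))) (.sR 2688 (.leaf 0x6c000382801f178000000098001008) (.sR 2736 (.leaf 0x6c0003c280201780000000a0001008) (.leaf 0x7000040280211800000000a0001008)))) (.sR 2928 (.sR 2832 (.sr 2496 (.leaf 0x8800000280251b000000007c001008) (.leaf 0x7400000280261880000000a0001008)) (.sR 2880 (.leaf 0x78000442802219000000009c001008) (.sr 2496 (.leaf 0x7c00008280271980000000a0001008) (.leaf 0x8000008280081a0000000098001008)))) (.sR 2976 (.leaf 0x800006c280081a00000000a0001008) (.sR 3024 (.leaf 0x8c00048280231b8000000098001008) (.leaf 0x9000074280241c0000000098001008)))))))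
theorem k49 : ChunkP 4 4 2432 2560 24 28 1920 3072 :=
  chkY_sound (Q := 40) (C := [c196.c, c197.c, c237.c, c238.c]) (Z := [z1639, z1640, z1643, z1655, z1657, z1658, z1661, z1662, z1670, z1636, z1637, z1638, z1641, z1642, z1644, z1645, z1646, z1647, z1648, z1649, z1650, z1651, z1652, z1653, z1654, z1656, z1659, z1660, z1663, z1664, z1665, z1666, z1667, z1668, z1669, z1671, z1672, z1673, z1674, z1675])
    (T := [f_w696_708_0_50_10q, f_w480_492_4_60_10q, f_w720_732_0_50_20q, f_w492_504_0_50_20q, f_w504_516_0_60_10q, f_w516_528_0_60_10q, f_w528_540_0_60_10q, f_w540_552_0_60_10q, f_w552_564_0_60_10q, f_w564_576_0_60_10q, f_w576_588_0_60_10q, f_w600_612_0_50_20q, f_w612_624_0_50_20q, f_w648_660_0_50_10q, f_w660_672_0_50_10q, f_w672_684_0_50_10q, f_w684_696_0_50_10q, f_w708_720_0_50_10q, f_w744_756_0_55_25q, f_w480_492_4_50_30q, f_w588_600_0_50_20q, f_w588_600_0_60_10q, f_w624_636_0_50_10q, f_w624_636_0_60_10q, f_w636_648_0_50_10q, f_w636_648_0_60_10q, f_w732_744_0_50_10q, f_w732_744_0_55_25q, f_w756_768_0_50_10q,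 f_w756_768_0_50_20q]) (t := t49)
    (all_cons p196 (all_cons p197 (all_cons p237 (all_cons p238 all_nil))))
    (all_cons z1639P (all_cons z1640P (all_cons z1643P (all_cons z1655P (all_cons z1657P (all_cons z1658P (all_cons z1661P (all_cons z1662P (all_cons z1670P (all_cons z1636P (all_cons z1637P (all_cons z1638P (all_cons z1641P (all_cons z1642P (all_cons z1644P (all_cons z1645P (all_cons z1646P (all_cons z1647P (all_cons z1648P (all_cons z1649P (all_cons z1650P (all_cons z1651P (all_cons z1652P (all_cons z1653P (all_cons z1654P (all_cons z1656P (all_cons z1659P (all_cons z1660P (all_cons z1663P (all_cons z1664P (all_cons z1665P (all_cons z1666P (all_cons z1667P (all_cons z1668P (all_cons z1669P (all_cons z1671P (all_cons z1672P (all_cons z1673P (all_cons z1674P (all_cons z1675P all_nil))))))))))))))))))))))))))))))))))))))))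
    (all_cons f_w696_708_0_50_10q_p (all_cons f_w480_492_4_60_10q_p (all_cons f_w720_732_0_50_20q_p (all_cons f_w492_504_0_50_20q_p (all_cons f_w504_516_0_60_10q_p (all_cons f_w516_528_0_60_10q_p (all_cons f_w528_540_0_60_10q_p (all_cons f_w540_552_0_60_10q_p (all_cons f_w552_564_0_60_10q_p (all_cons f_w564_576_0_60_10q_p (all_cons f_w576_588_0_60_10q_p (all_cons f_w600_612_0_50_20q_p (all_cons f_w612_624_0_50_20q_p (all_cons f_w648_660_0_50_10q_p (all_cons f_w660_672_0_50_10q_p (all_cons f_w672_684_0_50_10q_p (all_cons f_w684_696_0_50_10q_p (all_cons f_w708_720_0_50_10q_p (all_cons f_w744_756_0_55_25q_p (all_cons f_w480_492_4_50_30q_p (all_cons f_w588_600_0_50_20q_p (all_cons f_w588_600_0_60_10q_p (all_cons f_w624_636_0_50_10q_p (all_cons f_w624_636_0_60_10q_p (all_cons f_w636_648_0_50_10q_p (all_cons f_w636_648_0_60_10q_p (all_cons f_w732_744_0_50_10q_p (all_cons f_w732_744_0_55_25q_p (all_cons f_w756_768_0_50_10q_p (all_cons f_w756_768_0_50_20q_p all_nil))))))))))))))))))))))))))))))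
    (by decide +kernel)
def t50 : Tree := (.sg 30 (.sR 2112 (.sR 2016 (.sR 1968 (.sr 2368 (.leaf 0x45c3804000240001000000000a844d044) (.leaf 0x45c3804000240021000000000ac44d044)) (.leaf 0x400001c2800b1200000000a0001008)) (.sR 2064 (.leaf 0x4003c00020280001180000000b0401006) (.leaf 0x3c00024280001180000000a8001008))) (.sR 2208 (.leaf 0x44000282800a1280000000a8001008) (.sR 2544 (.sR 2352 (.sR 2256 (.leaf 0x4c0002c2800c1380000000a8001008) (.sR 2304 (.leaf 0x4c0005c2800d1380000000ac001008) (.leaf 0x4c000302800e1380000000ac001008))) (.sR 2448 (.sR 2400 (.leaf 0x58000342800f1500000000a8001008) (.leaf 0x5400038280101480000000a8001008)) (.sR 2496 (.leaf 0x5c0003c280111580000000a0001008) (.leaf 0x6400040280011680000000a4001008)))) (.sR 2688 (.sR 2592 (.leaf 0x6400044280011680000000a4001008) (.sR 2640 (.leaf 0x6c00048280021780000000a4001008) (.leaf 0x680004c280021700000000a4001008))) (.sR 2784 (.sR 2736 (.leaf 0x6c00050280121780000000a0001008) (.leaf 0x74000542801318800000009c001008)) (.sR 2832 (.leaf 0x7400014280141880000000a0001008)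 (.sr 2368 (.sR 2928 (.sR 2880 (.leaf 0x8c00004280151b8000000088001008) (.leaf 0x7c000182801619800000009c001008)) (.sR 2976 (.leaf 0x9400008280171c8000000070001008) (.sR 3024 (.leaf 0x980000c280181d0000000094001008) (.leaf 0x9c00010280191d800000007c001008)))) (.sR 2928 (.sR 2880 (.leaf 0x7c000042801a19800000009c001008) (.leaf 0x80000602801b1a000000009c001008)) (.sR 2976 (.leaf 0x90000082801c1c0000000094001008) (.sR 3024 (.leaf 0x840000c2801d1a800000009c001008) (.leaf 0x8c000102801e1b800000009c001008))))))))))) (.sR 2112 (.sR 2016 (.sR 1968 (.sr 2368 (.leaf 0x45c3804000240011000000000a844d044) (.leaf 0x45c3804000240031000000000ac44d044)) (.leaf 0x400001c280201200000000a0001008)) (.sR 2064 (.leaf 0x3800020280031100000000a0001008) (.leaf 0x3c00024280031180000000ac001008))) (.sR 2208 (.leaf 0x44000282801f1280000000a8001008) (.sR 2496 (.sR 2352 (.sR 2256 (.leaf 0x4c0002c280041380000000ac001008) (.sR 2304 (.leaf 0x5800058280041500000000a8001008) (.leaf 0x4c00030280051380000000ac001008))) (.sR 2400 (.leaf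 0x5c000342800515800000009c001008) (.sR 2448 (.leaf 0x5c00038280061580000000a0001008) (.leaf 0x5c0003c280061580000000a4001008)))) (.sR 2640 (.sR 2544 (.leaf 0x6400040280071680000000a4001008) (.sR 2592 (.leaf 0x6000044280071600000000a4001008) (.leaf 0x68000482800817000000009c001008))) (.sR 2736 (.sR 2688 (.leaf 0x680004c280081700000000a4001008) (.leaf 0x6c00050280211780000000a4001008)) (.sR 2784 (.leaf 0x7400054280221880000000a0001008) (.sr 2368 (.sR 2928 (.sR 2832 (.leaf 0x8800014280231b0000000080001008) (.sR 2880 (.leaf 0x8c00004280241b8000000090001008) (.leaf 0x8000018280251a0000000098001008))) (.sR 2976 (.leaf 0x9400008280261c8000000070001008) (.sR 3024 (.leaf 0x980000c280271d0000000098001008) (.leaf 0x9c00010280281d8000000084001008)))) (.sR 2928 (.sR 2832 (.leaf 0x780001428009190000000098001008) (.sR 2880 (.leaf 0x78000042800919000000009c001008) (.leaf 0x7c000182802919800000009c001008))) (.sR 2976 (.leaf 0x84000082802a1a800000009c001008) (.sR 3024 (.leaf 0x880000c2802b1b000000009c001008) (.leaf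 0x9c000102802c1d800000006c001008))))))))))))
theorem k50 : ChunkP 4 4 2304 2432 28 32 1920 3072 :=
  chkY_sound (Q := 40) (C := [c152.c, c153.c, c182.c, c183.c]) (Z := [z1678, z1685, z1686, z1702, z1703, z1704, z1705, z1706, z1707, z1716, z1676, z1677, z1679, z1680, z1681, z1682, z1683, z1684, z1687, z1688, z1689, z1690, z1691, z1692, z1693, z1694, z1695, z1696, z1697, z1698, z1699, z1700, z1701, z1708, z1709, z1710, z1711, z1712, z1713, z1714, z1715, z1717, z1718, z1719, z1720])
    (T := [f_w480_492_4_50_10q, f_w708_720_0_50_10q, f_w732_744_0_50_10q, f_w744_756_0_50_0q, f_w756_768_0_50_10q, f_w696_708_0_50_10q, f_w720_732_0_40_0q, f_w492_504_0_50_20q, f_w504_516_0_60_10q, f_w516_528_0_60_10q, f_w528_552_0_50_0q, f_w552_564_0_60_10q, f_w576_588_0_60_10q, f_w588_600_0_50_20q, f_w600_612_0_50_20q, f_w612_624_0_50_20q, f_w624_636_0_50_10q, f_w636_648_0_50_10q, f_w648_660_0_50_10q, f_w660_672_0_50_10q, f_w672_684_0_50_10q, f_w684_696_0_50_10q, f_w564_576_0_50_30q, f_w564_576_0_60_10q, f_w720_732_0_50_20q])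 (t := t50)
    (all_cons p152 (all_cons p153 (all_cons p182 (all_cons p183 all_nil))))
    (all_cons z1678P (all_cons z1685P (all_cons z1686P (all_cons z1702P (all_cons z1703P (all_cons z1704P (all_cons z1705P (all_cons z1706P (all_cons z1707P (all_cons z1716P (all_cons z1676P (all_cons z1677P (all_cons z1679P (all_cons z1680P (all_cons z1681P (all_cons z1682P (all_cons z1683P (all_cons z1684P (all_cons z1687P (all_cons z1688P (all_cons z1689P (all_cons z1690P (all_cons z1691P (all_cons z1692P (all_cons z1693P (all_cons z1694P (all_cons z1695P (all_cons z1696P (all_cons z1697P (all_cons z1698P (all_cons z1699P (all_cons z1700P (all_cons z1701P (all_cons z1708P (all_cons z1709P (all_cons z1710P (all_cons z1711P (all_cons z1712P (all_cons z1713P (all_cons z1714P (all_cons z1715P (all_cons z1717P (all_cons z1718P (all_cons z1719P (all_cons z1720P all_nil)))))))))))))))))))))))))))))))))))))))))))))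
    (all_cons f_w480_492_4_50_10q_p (all_cons f_w708_720_0_50_10q_p (all_cons f_w732_744_0_50_10q_p (all_cons f_w744_756_0_50_0q_p (all_cons f_w756_768_0_50_10q_p (all_cons f_w696_708_0_50_10q_p (all_cons f_w720_732_0_40_0q_p (all_cons f_w492_504_0_50_20q_p (all_cons f_w504_516_0_60_10q_p (all_cons f_w516_528_0_60_10q_p (all_cons f_w528_552_0_50_0q_p (all_cons f_w552_564_0_60_10q_p (all_cons f_w576_588_0_60_10q_p (all_cons f_w588_600_0_50_20q_p (all_cons f_w600_612_0_50_20q_p (all_cons f_w612_624_0_50_20q_p (all_cons f_w624_636_0_50_10q_p (all_cons f_w636_648_0_50_10q_p (all_cons f_w648_660_0_50_10q_p (all_cons f_w660_672_0_50_10q_p (all_cons f_w672_684_0_50_10q_p (all_cons f_w684_696_0_50_10q_p (all_cons f_w564_576_0_50_30q_p (all_cons f_w564_576_0_60_10q_p (all_cons f_w720_732_0_50_20q_p all_nil)))))))))))))))))))))))))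
    (by decide +kernel)
def t51 : Tree := (.sg 30 (.sR 2496 (.sR 2208 (.sR 2064 (.sR 1968 (.sr 2496 (.leaf 0x45c380400c240001000000000b044d044) (.sg 29 (.leaf 0x45c3808000240031000000000a844d044) (.leaf 0x45c3808000240041000000000ac44d044))) (.sR 2016 (.leaf 0x4003800010280061100000000b0401006) (.leaf 0x3800014280001100000000a4001008))) (.sR 2112 (.leaf 0x3c00018280001180000000ac001008) (.sR 2160 (.leaf 0x400001c280071200000000ac001008) (.leaf 0x4400020280081280000000ac001008)))) (.sR 2352 (.sR 2256 (.leaf 0x4800024280091300000000ac001008) (.sR 2304 (.leaf 0x4c000282800a1380000000a0001008) (.leaf 0x4c0002c2800b1380000000ac001008))) (.sR 2400 (.leaf 0x54000302800c1480000000a0001008) (.sR 2448 (.leaf 0x5800034280011500000000a4001008) (.leaf 0x5800038280011500000000a8001008))))) (.sR 2784 (.sR 2640 (.sR 2544 (.leaf 0x5c000602800d1580000000a8001008) (.sR 2592 (.leaf 0x600003c2800e1600000000a4001008) (.leaf 0x64000402800f1680000000a4001008))) (.sR 2688 (.leaf 0x6c000442801017800000009c001008) (.sR 2736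 (.leaf 0x6c00048280111780000000a0001008) (.sr 2496 (.leaf 0x7000004280021800000000a0001008) (.leaf 0x78000042800219000000009c001008))))) (.sR 2928 (.sR 2832 (.leaf 0x740004c280121880000000a0001008) (.sR 2880 (.leaf 0x7800064280131900000000a0001008) (.leaf 0x7c0006c2801419800000009c001008))) (.sR 2976 (.sr 2496 (.leaf 0x9400008280171c800000005c001008) (.leaf 0x8400008280181a800000009c001008)) (.sR 3024 (.leaf 0x8400054280151a800000009c001008) (.leaf 0x8800070280161b000000009c001008)))))) (.sR 2448 (.sR 2160 (.sR 2016 (.sR 1968 (.sr 2496 (.sg 31 (.leaf 0x45c3808000240011000000000b044d044) (.leaf 0x45c3804058240021000000000ac44d044)) (.sg 31 (.leaf 0x45c3808000240051000000000b044d044) (.leaf 0x45c380400c240061000000000b044d044))) (.leaf 0x4003800010280191100000000b0401006)) (.sR 2064 (.leaf 0x40038000142801a1100000000a8401006) (.sR 2112 (.leaf 0x40000182801b1200000000a8001008) (.leaf 0x400001c2801c1200000000ac001008)))) (.sR 2304 (.sR 2208 (.leaf 0x44000202801d1280000000a0001008) (.sR 2256 (.leaf 0x48000242801e1300000000a8001008)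 (.leaf 0x4c000282801f1380000000a8001008))) (.sR 2352 (.leaf 0x4c0002c280201380000000ac001008) (.sR 2400 (.leaf 0x5c00030280211580000000a4001008) (.leaf 0x5800034280031500000000a4001008))))) (.sR 2736 (.sR 2592 (.sR 2496 (.leaf 0x5800038280031500000000a8001008) (.sR 2544 (.leaf 0x600005c280041600000000a4001008) (.leaf 0x600003c280041600000000a4001008))) (.sR 2640 (.leaf 0x6400040280221680000000a4001008) (.sR 2688 (.leaf 0x6c00044280231780000000a0001008) (.leaf 0x6c00048280241780000000a4001008)))) (.sR 2880 (.sR 2784 (.sr 2496 (.leaf 0x8400004280291a8000000074001008) (.leaf 0x70000042802a1800000000a0001008)) (.sR 2832 (.leaf 0x740004c280251880000000a0001008) (.leaf 0x78000682802619000000009c001008))) (.sR 2976 (.sr 2496 (.sR 2928 (.leaf 0x90000502802b1c000000006c001008) (.leaf 0x94000082802c1c800000005c001008)) (.sR 2928 (.leaf 0x7c000502800519800000009c001008) (.leaf 0x8000008280051a00000000a0001008))) (.sR 3024 (.leaf 0x8c00054280271b800000009c001008) (.leaf 0x9800074280281d0000000098001008)))))))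
theorem k51 : ChunkP 4 4 2432 2560 28 32 1920 3072 :=
  chkY_sound (Q := 40) (C := [c198.c, c199.c, c200.c, c239.c, c240.c, c241.c, c242.c]) (Z := [z1722, z1729, z1740, z1752, z1753, z1765, z1721, z1723, z1724, z1725, z1726, z1727, z1728, z1730, z1731, z1732, z1733, z1734, z1735, z1736, z1737, z1738, z1739, z1741, z1742, z1743, z1744, z1745, z1746, z1747, z1748, z1749, z1750, z1751, z1754, z1755, z1756, z1757, z1758, z1759, z1760, z1761, z1762, z1763, z1764])
    (T := [f_w480_492_4_60_10q, f_w684_696_0_50_10q, f_w732_744_0_50_10q, f_w480_492_4_50_20q, f_w492_504_0_50_20q, f_w504_516_0_60_10q, f_w516_528_0_60_10q, f_w528_540_0_60_10q, f_w540_552_0_60_10q, f_w552_564_0_60_10q, f_w564_576_0_60_10q, f_w576_588_0_60_10q, f_w588_600_0_50_20q, f_w600_612_0_50_20q, f_w612_624_0_50_20q, f_w636_648_0_50_10q, f_w648_660_0_50_10q, f_w660_672_0_50_10q, f_w672_684_0_50_10q, f_w696_708_0_50_10q, f_w720_732_0_50_20q, f_w744_756_0_55_25q, f_w480_492_4_50_10q, f_w624_636_0_50_10q, f_w624_636_0_60_10q, f_w708_720_0_50_10q,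 f_w708_720_0_50_30q, f_w720_732_0_55_25q, f_w756_768_0_50_20q, f_w756_768_0_50_25q]) (t := t51)
    (all_cons p198 (all_cons p199 (all_cons p200 (all_cons p239 (all_cons p240 (all_cons p241 (all_cons p242 all_nil)))))))
    (all_cons z1722P (all_cons z1729P (all_cons z1740P (all_cons z1752P (all_cons z1753P (all_cons z1765P (all_cons z1721P (all_cons z1723P (all_cons z1724P (all_cons z1725P (all_cons z1726P (all_cons z1727P (all_cons z1728P (all_cons z1730P (all_cons z1731P (all_cons z1732P (all_cons z1733P (all_cons z1734P (all_cons z1735P (all_cons z1736P (all_cons z1737P (all_cons z1738P (all_cons z1739P (all_cons z1741P (all_cons z1742P (all_cons z1743P (all_cons z1744P (all_cons z1745P (all_cons z1746P (all_cons z1747P (all_cons z1748P (all_cons z1749P (all_cons z1750P (all_cons z1751P (all_cons z1754P (all_cons z1755P (all_cons z1756P (all_cons z1757P (all_cons z1758P (all_cons z1759P (all_cons z1760P (all_cons z1761P (all_cons z1762P (all_cons z1763P (all_cons z1764P all_nil)))))))))))))))))))))))))))))))))))))))))))))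
    (all_cons f_w480_492_4_60_10q_p (all_cons f_w684_696_0_50_10q_p (all_cons f_w732_744_0_50_10q_p (all_cons f_w480_492_4_50_20q_p (all_cons f_w492_504_0_50_20q_p (all_cons f_w504_516_0_60_10q_p (all_cons f_w516_528_0_60_10q_p (all_cons f_w528_540_0_60_10q_p (all_cons f_w540_552_0_60_10q_p (all_cons f_w552_564_0_60_10q_p (all_cons f_w564_576_0_60_10q_p (all_cons f_w576_588_0_60_10q_p (all_cons f_w588_600_0_50_20q_p (all_cons f_w600_612_0_50_20q_p (all_cons f_w612_624_0_50_20q_p (all_cons f_w636_648_0_50_10q_p (all_cons f_w648_660_0_50_10q_p (all_cons f_w660_672_0_50_10q_p (all_cons f_w672_684_0_50_10q_p (all_cons f_w696_708_0_50_10q_p (all_cons f_w720_732_0_50_20q_p (all_cons f_w744_756_0_55_25q_p (all_cons f_w480_492_4_50_10q_p (all_cons f_w624_636_0_50_10q_p (all_cons f_w624_636_0_60_10q_p (all_cons f_w708_720_0_50_10q_p (all_cons f_w708_720_0_50_30q_p (all_cons f_w720_732_0_55_25q_p (all_cons f_w756_768_0_50_20q_p (all_cons f_w756_768_0_50_25q_p all_nil))))))))))))))))))))))))))))))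
    (by decide +kernel)
def t52 : Tree := (.sR 2208 (.sR 2016 (.sg 34 (.sR 1968 (.leaf 0x45c3804028240001000000000a844d044) (.leaf 0x3d04c0001028005139c8003da7a3d1005)) (.sR 1968 (.leaf 0x4003804024240011000000000b0401004) (.leaf 0x42050000102800614144062017a421005))) (.sR 2112 (.leaf 0x4c0002c280001380000000a8001008) (.leaf 0x5000030280011400000000a0001008))) (.sR 2400 (.sR 2304 (.leaf 0x5400034280021480000000a0001008) (.leaf 0x5c000382800315800000009c001008)) (.sR 2496 (.leaf 0x600003c2800416000000009c001008) (.sg 34 (.sR 2592 (.leaf 0x6400014280071680000000a0001008) (.sR 2688 (.leaf 0x6800018280081700000000a4001008) (.sR 2784 (.sR 2736 (.leaf 0x6c00040280091780000000a0001008) (.leaf 0x78000482800a1900000000a0001008)) (.sR 2832 (.leaf 0x780001c2800b19000000009c001008) (.sr 2112 (.sR 2928 (.sR 2880 (.leaf 0x88000202800c1b000000009c001008) (.leaf 0x90000082800d1c0000000064001008)) (.sR 2976 (.leaf 0x940000c2800e1c8000000074001008) (.sR 3024 (.leaf 0x98000002800f1d0000000090001008) (.leaf 0x9400004280101c8000000094001008))))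 (.sR 2928 (.sR 2880 (.leaf 0x7800020280111900000000a0001008) (.leaf 0x7c00008280121980000000a0001008)) (.sR 2976 (.leaf 0x880000c280131b000000009c001008) (.sR 3024 (.leaf 0x9400000280141c800000008c001008) (.leaf 0x9000004280151c0000000090001008))))))))) (.sR 2688 (.sR 2592 (.leaf 0x68000142801617000000009c001008) (.leaf 0x6c00018280171780000000a0001008)) (.sR 2784 (.leaf 0x7000044280181800000000a0001008) (.sR 2880 (.sR 2832 (.leaf 0x840001c280191a800000009c001008) (.leaf 0x7c0004c2801a19800000009c001008)) (.sR 2928 (.leaf 0x80000082801b1a0000000098001008) (.sR 2976 (.leaf 0x800000c2801c1a000000009c001008) (.sr 2112 (.sR 3024 (.leaf 0x98000002801d1d000000007c001008) (.leaf 0x98000042801e1d000000008c001008)) (.sR 3024 (.leaf 0x98000002801f1d0000000084001008) (.leaf 0x9800004280201d000000008c001008))))))))))))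
theorem k52 : ChunkP 4 4 2048 2176 32 36 1920 3072 :=
  chkY_sound (Q := 40) (C := [c95.c, c96.c]) (Z := [z1766, z1767, z1768, z1769, z1770, z1771, z1772, z1773, z1774, z1775, z1776, z1777, z1778, z1779, z1780, z1781, z1782, z1783, z1784, z1785, z1786, z1787, z1788, z1789, z1790, z1791, z1792, z1793, z1794, z1795, z1796, z1797, z1798])
    (T := [f_w744_756_0_40_0q, f_w756_768_0_40_0q, f_w720_732_0_40_0q, f_w732_744_0_40_0q, f_w492_504_0_50_20q, f_w624_648_0_40_0q, f_w648_672_0_40_0q, f_w696_708_0_40_20q, f_w708_720_0_50_10q, f_w480_492_0_40_20q, f_w480_492_4_50_10q, f_w504_528_0_50_0q, f_w528_552_0_50_0q, f_w552_576_0_50_0q, f_w576_600_0_40_0q, f_w600_624_0_40_0q, f_w672_684_0_50_10q, f_w672_696_0_40_0q, f_w684_696_0_50_10q, f_w708_720_0_40_10q]) (t := t52)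
    (all_cons p95 (all_cons p96 all_nil))
    (all_cons z1766P (all_cons z1767P (all_cons z1768P (all_cons z1769P (all_cons z1770P (all_cons z1771P (all_cons z1772P (all_cons z1773P (all_cons z1774P (all_cons z1775P (all_cons z1776P (all_cons z1777P (all_cons z1778P (all_cons z1779P (all_cons z1780P (all_cons z1781P (all_cons z1782P (all_cons z1783P (all_cons z1784P (all_cons z1785P (all_cons z1786P (all_cons z1787P (all_cons z1788P (all_cons z1789P (all_cons z1790P (all_cons z1791P (all_cons z1792P (all_cons z1793P (all_cons z1794P (all_cons z1795P (all_cons z1796P (all_cons z1797P (all_cons z1798P all_nil)))))))))))))))))))))))))))))))))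
    (all_cons f_w744_756_0_40_0q_p (all_cons f_w756_768_0_40_0q_p (all_cons f_w720_732_0_40_0q_p (all_cons f_w732_744_0_40_0q_p (all_cons f_w492_504_0_50_20q_p (all_cons f_w624_648_0_40_0q_p (all_cons f_w648_672_0_40_0q_p (all_cons f_w696_708_0_40_20q_p (all_cons f_w708_720_0_50_10q_p (all_cons f_w480_492_0_40_20q_p (all_cons f_w480_492_4_50_10q_p (all_cons f_w504_528_0_50_0q_p (all_cons f_w528_552_0_50_0q_p (all_cons f_w552_576_0_50_0q_p (all_cons f_w576_600_0_40_0q_p (all_cons f_w600_624_0_40_0q_p (all_cons f_w672_684_0_50_10q_p (all_cons f_w672_696_0_40_0q_p (all_cons f_w684_696_0_50_10q_p (all_cons f_w708_720_0_40_10q_p all_nil))))))))))))))))))))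
    (by decide +kernel)
def t53 : Tree := (.sR 2016 (.sg 34 (.sR 1968 (.sr 2240 (.leaf 0x4003800014240001000000000ac401004) (.leaf 0x45c3804018240021000000000a844d044)) (.leaf 0x480001c28005130000000084001008)) (.sR 1968 (.sr 2240 (.leaf 0x4003800014240011000000000ac401004) (.leaf 0x45c3804018240031000000000a844d044)) (.leaf 0x400480001c2800613154000027a401005))) (.sR 2112 (.leaf 0x3c00048280041180000000a4001008) (.sg 34 (.sR 2304 (.sR 2208 (.leaf 0x4400020280011280000000a8001008) (.leaf 0x5000024280071400000000a8001008)) (.sR 2400 (.leaf 0x5400050280081480000000a4001008) (.sR 2496 (.leaf 0x5800028280091500000000a8001008) (.sR 2688 (.sR 2592 (.sR 2544 (.leaf 0x640002c280001680000000a0001008) (.leaf 0x6000030280001600000000a4001008)) (.sR 2640 (.leaf 0x68000342800a1700000000a0001008) (.leaf 0x78000382800b190000000098001008))) (.sR 2784 (.sR 2736 (.leaf 0x700003c280021800000000a0001008) (.sr 2240 (.leaf 0x70000402800d1800000000a0001008) (.leaf 0x78000402800219000000009c001008))) (.sR 2832 (.leaf 0x78000442800c19000000009c001008)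 (.sr 2240 (.sR 2928 (.sR 2880 (.leaf 0x8c000002800e1b8000000080001008) (.leaf 0x8c000042800f1b8000000090001008)) (.sR 2976 (.leaf 0x8800008280101b000000009c001008) (.sR 3024 (.leaf 0x940000c280111c8000000094001008) (.leaf 0x9000010280121c0000000094001008)))) (.sR 2928 (.sR 2880 (.leaf 0x8000000280131a00000000a0001008) (.leaf 0x8c00004280141b800000009c001008)) (.sR 2976 (.leaf 0x8400008280151a800000009c001008) (.sR 3024 (.leaf 0x900000c280161c0000000094001008) (.leaf 0x9000010280171c0000000098001008))))))))))) (.sR 2304 (.sR 2208 (.leaf 0x4400020280011280000000ac001008) (.leaf 0x5800024280181500000000a0001008)) (.sR 2400 (.leaf 0x540004c280191480000000a4001008) (.sR 2496 (.leaf 0x58000282801a1500000000a8001008) (.sR 2688 (.sR 2592 (.sR 2544 (.leaf 0x600002c280001600000000a4001008) (.leaf 0x70000302801b18000000009c001008)) (.sR 2640 (.leaf 0x7800034280031900000000a0001008) (.leaf 0x74000382800318800000009c001008))) (.sR 2784 (.sR 2736 (.leaf 0x700003c2801c1800000000a0001008) (.leaf 0x70000542801d1800000000a0001008))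 (.sR 2832 (.leaf 0x7c000442801e1980000000a0001008) (.sr 2240 (.sR 2928 (.sR 2880 (.leaf 0x8c000002801f1b8000000080001008) (.leaf 0x9000004280201c000000008c001008)) (.sR 2976 (.leaf 0x9400008280211c8000000070001008) (.sR 3024 (.leaf 0x980000c280221d000000008c001008) (.leaf 0x9800010280231d0000000090001008)))) (.sR 2928 (.sR 2880 (.leaf 0x7c000002802419800000009c001008) (.leaf 0x9000004280251c0000000098001008)) (.sR 2976 (.leaf 0x8c00008280261b800000009c001008) (.sR 3024 (.leaf 0x980000c280271d0000000094001008) (.leaf 0x9800010280281d0000000094001008))))))))))))))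
theorem k53 : ChunkP 4 4 2176 2304 32 36 1920 3072 :=
  chkY_sound (Q := 40) (C := [c114.c, c115.c, c142.c, c143.c]) (Z := [z1806, z1802, z1809, z1826, z1799, z1800, z1801, z1803, z1804, z1805, z1807, z1808, z1810, z1811, z1812, z1813, z1814, z1815, z1816, z1817, z1818, z1819, z1820, z1821, z1822, z1823, z1824, z1825, z1827, z1828, z1829, z1830, z1831, z1832, z1833, z1834, z1835, z1836, z1837, z1838, z1839])
    (T := [f_w708_720_0_50_10q, f_w720_732_0_40_0q, f_w732_744_0_40_0q, f_w744_756_0_40_0q, f_w756_768_0_40_0q, f_w480_492_0_50_20q, f_w480_492_4_50_10q, f_w492_504_0_50_20q, f_w528_552_0_50_0q, f_w552_576_0_50_0q, f_w600_624_0_40_0q, f_w624_636_0_50_10q, f_w636_648_0_50_10q, f_w648_660_0_50_10q, f_w660_672_0_50_10q, f_w672_684_0_50_10q, f_w684_696_0_50_10q, f_w696_708_0_50_10q, f_w504_528_0_50_0q, f_w576_600_0_40_0q, f_w576_600_0_50_10q, f_w684_696_0_40_20q]) (t := t53)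
    (all_cons p114 (all_cons p115 (all_cons p142 (all_cons p143 all_nil))))
    (all_cons z1806P (all_cons z1802P (all_cons z1809P (all_cons z1826P (all_cons z1799P (all_cons z1800P (all_cons z1801P (all_cons z1803P (all_cons z1804P (all_cons z1805P (all_cons z1807P (all_cons z1808P (all_cons z1810P (all_cons z1811P (all_cons z1812P (all_cons z1813P (all_cons z1814P (all_cons z1815P (all_cons z1816P (all_cons z1817P (all_cons z1818P (all_cons z1819P (all_cons z1820P (all_cons z1821P (all_cons z1822P (all_cons z1823P (all_cons z1824P (all_cons z1825P (all_cons z1827P (all_cons z1828P (all_cons z1829P (all_cons z1830P (all_cons z1831P (all_cons z1832P (all_cons z1833P (all_cons z1834P (all_cons z1835P (all_cons z1836P (all_cons z1837P (all_cons z1838P (all_cons z1839P all_nil)))))))))))))))))))))))))))))))))))))))))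
    (all_cons f_w708_720_0_50_10q_p (all_cons f_w720_732_0_40_0q_p (all_cons f_w732_744_0_40_0q_p (all_cons f_w744_756_0_40_0q_p (all_cons f_w756_768_0_40_0q_p (all_cons f_w480_492_0_50_20q_p (all_cons f_w480_492_4_50_10q_p (all_cons f_w492_504_0_50_20q_p (all_cons f_w528_552_0_50_0q_p (all_cons f_w552_576_0_50_0q_p (all_cons f_w600_624_0_40_0q_p (all_cons f_w624_636_0_50_10q_p (all_cons f_w636_648_0_50_10q_p (all_cons f_w648_660_0_50_10q_p (all_cons f_w660_672_0_50_10q_p (all_cons f_w672_684_0_50_10q_p (all_cons f_w684_696_0_50_10q_p (all_cons f_w696_708_0_50_10q_p (all_cons f_w504_528_0_50_0q_p (all_cons f_w576_600_0_40_0q_p (all_cons f_w576_600_0_50_10q_p (all_cons f_w684_696_0_40_20q_p all_nil))))))))))))))))))))))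
    (by decide +kernel)

end Pool.Agent.Lib.MP_af3a4a_an.P1.CHK.DATA.N4s
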